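import Pool.Agent.Lib.MP_d6ddbd_nt.KI.Asw

/-! The linear algebra at a core vertex, with one more place. -/

set_option autoImplicit false

noncomputable section

namespace Pool.Agent.Lib.MP_d6ddbd_nt.KA

namespace Asw01

open Module

variable {V W U P : Type} [AddCommGroup V] [Module (ZMod 2) V] [AddCommGroup W]
  [Module (ZMod 2) W] [AddCommGroup U] [Module (ZMod 2) U]

theorem z2 (c : ZMod 2) : c = 0 ∨ c = 1 := by
  revert c
  decide

theorem add_self (x : V) : x + x = 0 := by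
  rw [← two_smul (ZMod 2) x, show (2 : ZMod 2) = 0 from rfl, zero_smul]

/-- A linear form with the value one at two vectors. -/
theorem two_one {x y : V} (hx : x ≠ 0) (hy : y ≠ 0) :
    ∃ l : V →ₗ[ZMod 2] ZMod 2, l x = 1 ∧ l y = 1 := by
  obtain ⟨l, hl⟩ := Module.Projective.exists_dual_eq_one (ZMod 2) hx
  obtain ⟨l', hl'⟩ := Module.Projective.exists_dual_eq_one (ZMod 2) hy
  rcases z2 (l y) with h | h
  · rcases z2 (l' x) with h' | h'
    · exact ⟨l + l', by simp [hl, h'], by simp [hl', h]⟩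
    · exact ⟨l', h', hl'⟩
  · exact ⟨l, hl, h⟩

/-- The same, with the value zero at a third vector. -/
theorem two_zero {x y z : V} (hx : x ≠ 0) (hy : y ≠ 0) (hxz : x ≠ z) (hyz : y ≠ z) :
    ∃ l : V →ₗ[ZMod 2] ZMod 2, l x = 1 ∧ l y = 1 ∧ l z = 0 := by
  have h : ∀ {x : V}, x ≠ 0 → x ≠ z → (Submodule.span (ZMod 2) {z}).mkQ x ≠ 0 := by
    intro x h0 h1 h
    rw [Submodule.mkQ_apply, Submodule.Quotient.mk_eq_zero, Submodule.mem_span_singleton] at h
    obtain ⟨c, hc⟩ := h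
    rcases z2 c with rfl | rfl
    · exact h0 (by rw [← hc, zero_smul])
    · exact h1 (by rw [← hc, one_smul])
  obtain ⟨l, h1, h2⟩ := two_one (h hx hxz) (h hy hyz)
  refine ⟨l.comp (Submodule.mkQ _), h1, h2, ?_⟩
  rw [LinearMap.comp_apply, Submodule.mkQ_apply,
    (Submodule.Quotient.mk_eq_zero _).2 (Submodule.mem_span_singleton_self z), map_zero]

/-- The data of the linear algebra. -/
structure Dt [DecidableEq P] (n₀ : Finset P) (ι : W →ₗ[ZMod 2] V) (al : V)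
    (β : U →ₗ[ZMod 2] U →ₗ[ZMod 2] ZMod 2) (a b : W →ₗ[ZMod 2] U)
    (s f : P → W →ₗ[ZMod 2] ZMod 2) (sq B : W →ₗ[ZMod 2] ZMod 2) (fq A : V →ₗ[ZMod 2] ZMod 2) :
    Prop where
  inj : LinearMap.ker ι = ⊥
  aa : A al = 1
  fa : fq al = 1
  h1 : ∀ x, {p | s p x ≠ 0}.Finite
  h2 : ∀ x y (n : Finset P), (∀ p ∉ n, s p x = 0 ∧ s p y = 0) → β (a x) (b y) + β (b x) (a y) +
    (sq x * fq (ι y) + fq (ι x) * sq y) + ∑ p ∈ n, (s p x * f p y + f p x * s p y) +
    (A (ι x) * B y + B x * A (ι y)) = 0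
  h3 : ∀ n : Finset P,
    Module.Finite (ZMod 2) (⨅ p ∉ n, LinearMap.ker (s p) : Submodule (ZMod 2) W) ∧
    finrank (ZMod 2) U + 2 + n.card ≤
      finrank (ZMod 2) (⨅ p ∉ n, LinearMap.ker (s p) : Submodule (ZMod 2) W)
  h4 : ∀ (T : Finset W) (lam : V →ₗ[ZMod 2] ZMod 2) (n : Finset P), lam al = 0 →
    ∃ p ∉ n, ∀ x ∈ T, f p x = lam (ι x)
  h5 : ∀ x, A (ι x) = 0 → (∀ p ∉ n₀, s p x = 0) → (∀ p ∈ n₀, f p x = 0) → sq x = 0 →
    fq (ι x) = 0 → b x = 0 → x = 0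

/-- The system of classes. -/
structure Sy [DecidableEq P] (a b : W →ₗ[ZMod 2] U) (s f : P → W →ₗ[ZMod 2] ZMod 2)
    (A : W →ₗ[ZMod 2] ZMod 2) (κ : Finset P → ℕ → W) : Prop where
  h8 : ∃ n j, κ n j ≠ 0
  h9 : ∀ n, b (κ n 0) = 0
  k0 : ∀ n j, A (κ n j) = 0
  k1 : ∀ n j, a (κ n j) = b (κ n (j + 1))
  k2 : ∀ n j, ∀ p ∉ n, s p (κ n j) = 0
  k3 : ∀ n j, ∀ p ∈ n, f p (κ n j) = 0
  k4 : ∀ n j, ∀ p ∉ n, s p (κ (insert p n) j) = f p (κ n j)

variable [Module.Finite (ZMod 2) U] [DecidableEq P] {n₀ : Finset P} {ι : W →ₗ[ZMod 2] V} {al : V}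
  {β : U →ₗ[ZMod 2] U →ₗ[ZMod 2] ZMod 2} {a b : W →ₗ[ZMod 2] U}
  {s f : P → W →ₗ[ZMod 2] ZMod 2} {sq B : W →ₗ[ZMod 2] ZMod 2} {fq A : V →ₗ[ZMod 2] ZMod 2}
  {κ : Finset P → ℕ → W} {M : ℕ}

theorem swap0 (D : Dt n₀ ι al β a b s f sq B fq A) (S : Sy a b s f (A.comp ι) κ)
    (h6 : M ≤ finrank (ZMod 2) U) (h7 : ∀ n j, M < j → κ n j = 0) :
    M = finrank (ZMod 2) U ∧ κ n₀ 0 ≠ 0 := by
  classical
  let W0 : Submodule (ZMod 2) W := LinearMap.ker (A.comp ι)
  have key := K11.Asw.swap (W := W0) n₀ β (a.comp W0.subtype) (b.comp W0.subtype)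
    (fun p => (s p).comp W0.subtype) (fun p => (f p).comp W0.subtype) (sq.comp W0.subtype)
    ((fq.comp ι).comp W0.subtype) M (fun n j => ⟨κ n j, S.k0 n j⟩) (fun x => D.h1 x.1)
    (fun x y n h => ?_) (fun n => ?_) (fun T lam n => ?_)
    (fun x e1 e2 e3 e4 e5 => Subtype.ext (D.h5 x.1 x.2 e1 e2 e3 e4 e5)) h6
    (fun n j h => Subtype.ext (h7 n j h)) ?_ S.h9 S.k1 S.k2 S.k3 S.k4
  · exact ⟨key.1, fun h => key.2 (Subtype.ext h)⟩
  · have := D.h2 x.1 y.1 n h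
    rwa [show A (ι x.1) = 0 from x.2, show A (ι y.1) = 0 from y.2, zero_mul, mul_zero, add_zero,
      add_zero] at this
  · obtain ⟨i, e⟩ := D.h3 n
    have := K11.Asw.cut (⨅ p ∉ n, LinearMap.ker (s p))
      ((⨅ p ∉ n, LinearMap.ker ((s p).comp W0.subtype) : Submodule (ZMod 2) W0).map W0.subtype)
      ({()} : Finset Unit) (fun _ => A.comp ι) ?_ fun x hx h => ?_
    · obtain ⟨h1, h2⟩ := this
      refine ⟨Module.Finite.equiv (Submodule.equivMapOfInjective _ W0.injective_subtype _).symm, ?_⟩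
      rw [Submodule.finrank_map_subtype_eq, Finset.card_singleton] at h2
      omega
    · rintro _ ⟨x, hx, rfl⟩
      simp only [Submodule.mem_iInf, SetLike.mem_coe] at hx ⊢
      exact hx
    · refine ⟨⟨x, h () (Finset.mem_singleton_self _)⟩, ?_, rfl⟩
      simp only [Submodule.mem_iInf, SetLike.mem_coe] at hx ⊢
      exact hx
  · obtain ⟨l1, e1⟩ := LinearMap.exists_extend lam
    obtain ⟨g, hg⟩ := ι.exists_leftInverse_of_injective D.inj
    obtain ⟨p, hp, e⟩ := D.h4 (T.image Subtype.val) (l1.comp g + l1 (g al) • A) n (by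
      simp [D.aa, add_self])
    refine ⟨p, hp, fun x hx => (e x.1 (Finset.mem_image_of_mem _ hx)).trans ?_⟩
    have e2 : g (ι x.1) = x.1 := LinearMap.congr_fun hg x.1
    rw [LinearMap.add_apply, LinearMap.smul_apply, show A (ι x.1) = 0 from x.2, smul_zero, add_zero,
      LinearMap.comp_apply, e2, ← e1]
    rfl
  · obtain ⟨n, j, h⟩ := S.h8
    exact ⟨n, j, fun e => h (congrArg Subtype.val e)⟩

theorem vanish (D : Dt n₀ ι al β a b s f sq B fq A) (π : Finset P → W)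
    (k0 : ∀ n, A (ι (π n)) = 0) (k0' : ∀ n, B (π n) = 0) (k1 : ∀ n, a (π n) = b (π n))
    (k2 : ∀ n, ∀ p ∉ n, s p (π n) = 0) (k3 : ∀ n, ∀ p ∈ n, f p (π n) = 0)
    (k4 : ∀ n, ∀ p ∉ n, s p (π (insert p n)) = f p (π n)) (n : Finset P) : π n = 0 := by
  classical
  by_contra h0
  have inj : ∀ x, ι x = 0 → x = 0 := LinearMap.ker_eq_bot'.1 D.inj
  have rcp : ∀ (y : W) (m : Finset P), a y = b y → (∀ p ∉ m, s p y = 0) →
      sq y * fq (ι (π m)) + fq (ι y) * sq (π m) + ∑ p ∈ m, f p y * s p (π m) = 0 := by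
    intro y m e1 e2
    have := D.h2 y (π m) m fun p hp => ⟨e2 p hp, k2 m p hp⟩
    rw [e1, k1, add_self, zero_add, k0, k0', mul_zero, mul_zero, add_zero, add_zero] at this
    rw [← this]
    refine congrArg _ (Finset.sum_congr rfl fun p hp => ?_)
    rw [k3 m p hp, mul_zero, zero_add]
  let H : Submodule (ZMod 2) W := ((⨅ p ∉ n, LinearMap.ker (s p)) ⊓
    ⨅ p ∈ n, LinearMap.ker (f p)) ⊓ LinearMap.ker (a - b)
  have hH : ∀ y, y ∈ H ↔ ((∀ p ∉ n, s p y = 0) ∧ ∀ p ∈ n, f p y = 0) ∧ a y = b y := fun y => by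
    simp only [H, Submodule.mem_inf, Submodule.mem_iInf, LinearMap.mem_ker, LinearMap.sub_apply,
      sub_eq_zero]
  have hπ : π n ∈ H := (hH _).2 ⟨⟨k2 n, k3 n⟩, k1 n⟩
  obtain ⟨z, hz, z0, z1⟩ : ∃ z ∈ H, z ≠ 0 ∧ z ≠ π n := by
    obtain ⟨i, e⟩ := D.h3 n
    obtain ⟨i1, e1⟩ := K11.Asw.cut (⨅ p ∉ n, LinearMap.ker (s p))
      ((⨅ p ∉ n, LinearMap.ker (s p)) ⊓ ⨅ p ∈ n, LinearMap.ker (f p)) n f inf_le_left
      fun x hx h => ⟨hx, by
        simpa only [SetLike.mem_coe, Submodule.mem_iInf, LinearMap.mem_ker] using h⟩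
    obtain ⟨i2, e2⟩ := K11.Asw.cut ((⨅ p ∉ n, LinearMap.ker (s p)) ⊓ ⨅ p ∈ n, LinearMap.ker (f p))
      H Finset.univ (fun i => ((finBasis (ZMod 2) U).coord i).comp (a - b)) inf_le_left
      fun x hx h => ⟨hx, (finBasis (ZMod 2) U).forall_coord_eq_zero_iff.1
        fun i => h i (Finset.mem_univ _)⟩
    rw [Finset.card_univ, Fintype.card_fin] at e2
    by_contra hc
    have h1 : H ≤ Submodule.span (ZMod 2) {π n} := fun z hz => by
      by_cases z0 : z = 0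
      · rw [z0]
        exact zero_mem _
      · rw [show z = π n from by_contra fun z1 => hc ⟨z, hz, z0, z1⟩]
        exact Submodule.mem_span_singleton_self _
    have h2 := Submodule.finrank_mono h1
    rw [finrank_span_singleton h0] at h2
    omega
  obtain ⟨y, hy, y0, y1, y2⟩ : ∃ y ∈ H, y ≠ 0 ∧ sq y = 0 ∧ fq (ι y) = 0 := by
    have e := rcp z n ((hH z).1 hz).2 ((hH z).1 hz).1.1
    rw [Finset.sum_eq_zero fun p hp => by rw [((hH z).1 hz).1.2 p hp, zero_mul], add_zero] at e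
    have c : ∀ u v u' v' : ZMod 2, u * v' + v * u' = 0 →
        (u = 0 ∧ v = 0) ∨ (u' = 0 ∧ v' = 0) ∨ (u - u' = 0 ∧ v - v' = 0) := by decide
    rcases c _ _ _ _ e with h | h | h
    · exact ⟨z, hz, z0, h⟩
    · exact ⟨π n, hπ, h0, h⟩
    · exact ⟨z - π n, sub_mem hz hπ, sub_ne_zero.2 z1, by rwa [map_sub, map_sub, map_sub]⟩
  obtain ⟨l, l1, l2, l3⟩ := two_zero (z := al) (fun h => y0 (inj y h)) (fun h => h0 (inj _ h))
    (fun h => zero_ne_one (y2.symm.trans (h ▸ D.fa)))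
    fun h => zero_ne_one ((k0 n).symm.trans (h ▸ D.aa))
  obtain ⟨p, hp, e⟩ := D.h4 {y, π n} l n l3
  have e1 := rcp y (insert p n) ((hH y).1 hy).2 fun r hr =>
    ((hH y).1 hy).1.1 r fun h => hr (Finset.mem_insert_of_mem h)
  rw [y1, y2, zero_mul, zero_mul, add_zero, zero_add, Finset.sum_insert hp,
    Finset.sum_eq_zero fun r hr => by rw [((hH y).1 hy).1.2 r hr, zero_mul], add_zero, k4 n p hp,
    e y (by simp), e (π n) (by simp), l1, l2, mul_one] at e1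
  exact one_ne_zero e1

theorem swap1 (D : Dt n₀ ι al β a b s f sq B fq A) (S : Sy a b s f (A.comp ι) κ)
    (h6 : M ≤ finrank (ZMod 2) U + 1) (h7 : ∀ n j, M < j → κ n j = 0)
    (e0 : ∀ n, ∑ j ∈ Finset.range (M + 1), B (κ n j) = 0) :
    M = finrank (ZMod 2) U + 1 ∧ κ n₀ 0 ≠ 0 := by
  let κ' : Finset P → ℕ → W := fun n j => ∑ i ∈ Finset.range (j + 1), κ n i
  have z : ∀ n, κ' n 0 = κ n 0 := fun n => Finset.sum_range_one _
  have st : ∀ n j, κ' n (j + 1) = κ' n j + κ n (j + 1) := fun n j => Finset.sum_range_succ _ _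
  have S' : Sy a b s f (A.comp ι) κ' := by
    refine ⟨by_contra fun h => ?_, fun n => by rw [z, S.h9], fun n j => ?_, fun n j => ?_,
      fun n j p hp => ?_, fun n j p hp => ?_, fun n j p hp => ?_⟩
    · obtain ⟨n, j, e⟩ := S.h8
      have h' : ∀ j, κ' n j = 0 := fun j => by_contra fun e => h ⟨n, j, e⟩
      cases j with
      | zero => exact e ((z n).symm.trans (h' 0))
      | succ j => exact e (by simpa [h'] using (st n j).symm)
    · rw [map_sum]
      exact Finset.sum_eq_zero fun i _ => S.k0 n i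
    · rw [map_sum, map_sum, Finset.sum_range_succ' _ (j + 1), S.h9, add_zero]
      exact Finset.sum_congr rfl fun i _ => S.k1 n i
    · rw [map_sum]
      exact Finset.sum_eq_zero fun i _ => S.k2 n i p hp
    · rw [map_sum]
      exact Finset.sum_eq_zero fun i _ => S.k3 n i p hp
    · rw [map_sum, map_sum]
      exact Finset.sum_congr rfl fun i _ => S.k4 n i p hp
  have v := vanish D (fun n => κ' n M) (fun n => S'.k0 n M) (fun n => by rw [map_sum, e0])
    (fun n => by rw [S'.k1, st, h7 n _ M.lt_succ_self, add_zero]) (fun n => S'.k2 n M)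
    (fun n => S'.k3 n M) fun n => S'.k4 n M
  have top : ∀ n j, M ≤ j → κ' n j = 0 := fun n j h => by
    induction j, h using Nat.le_induction with
    | base => exact v n
    | succ j h ih => rw [st, ih, h7 n _ (Nat.lt_succ_of_le h), add_zero]
  cases M with
  | zero =>
    obtain ⟨n, j, e⟩ := S'.h8
    exact absurd (top n j j.zero_le) e
  | succ M =>
    have key := swap0 D S' (Nat.le_of_succ_le_succ h6) top
    exact ⟨congrArg (· + 1) key.1, z n₀ ▸ key.2⟩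

end Asw01

end Pool.Agent.Lib.MP_d6ddbd_nt.KA
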