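import Pool.Agent.Lib.MP_d6ddbd_nt.KA.Stmt
import Pool.Agent.Lib.MP_d6ddbd_nt.KA.AswL

/-! The system of classes at a core vertex: at most two components at `11`. -/

set_option autoImplicit false
set_option maxSynthPendingDepth 3

open NumberField
open Pool.Agent.Stark (Pr og hq SqCl cl cl_mul cl_eq_zero)
open Pool.Agent.Lib.MP_d6ddbd_nt.K11
open Pool.Agent.Lib.MP_d6ddbd_nt.KI (KolI KnI)

noncomputable section

namespace Pool.Agent.Lib.MP_d6ddbd_nt.KA

namespace Asw01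

open K11.Asm (Ad lin lin_cl ad_og ad_hq ad_sv ad_fv ad_av ad_bv toU dot)

variable {L : Type} [Field L] [NumberField L]

theorem ad_a : Ad (a11 : L → ZMod 2) := ad_og _
theorem ad_b (θ : L) : Ad (b11 θ) := ad_hq _ fun _ => fd θ

theorem wa_mono {θ : L} {d c : ℤ} {B B' : Finset ℕ} (h : B ⊆ B') {x : L} (hx : Wa θ d c B x) :
    Wa θ d c B' x :=
  ⟨hx.ne, hx.sq, hx.two, fun p h1 h2 h3 => hx.ev p h1 h2 fun e => h3 (h e)⟩

theorem wa_one (θ : L) (d c : ℤ) (B : Finset ℕ) : Wa θ d c B (1 : L) :=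
  ⟨one_ne_zero, by rw [map_one]; exact IsSquare.one, ⟨fun _ 𝔭 _ => ⟨1, by simp⟩, fun _ => by
    have := ad_hq (ab L 2) (fun _ => gm2 θ) 1 1 one_ne_zero one_ne_zero
    rw [mul_one] at this
    exact this.trans (add_self _)⟩, fun _ _ _ _ 𝔭 _ => by simp [og]⟩

variable {m q : ℕ} {d c : ℤ}

/-- The set of primes attached to a set of Kolyvagin primes. -/
def vs (n : Finset {p // KolI m q c p}) : Finset ℕ := n.map (Function.Embedding.subtype _)

theorem mem_vs {n : Finset {p // KolI m q c p}} {p : {p // KolI m q c p}} : p.1 ∈ vs n ↔ p ∈ n :=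
  Finset.mem_map' (Function.Embedding.subtype _)

theorem kn_vs (n : Finset {p // KolI m q c p}) : KnI m q c (vs n) := fun p hp => by
  obtain ⟨x, -, rfl⟩ := Finset.mem_map.1 hp
  exact x.2

theorem q_notMem (n : Finset {p // KolI m q c p}) : q ∉ vs n := fun h => (kn_vs n q h).nq rfl

theorem e_notMem (hQ : QD q c) (n : Finset {p // KolI m q c p}) : 11 ∉ insert q (vs n) := fun h => by
  have := hQ.qf.big
  rcases Finset.mem_insert.1 h with e | e
  · omega
  · exact (kn_vs n _ e).n11 rfl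

theorem bs0 (hQ : QD q c) (n : Finset {p // KolI m q c p}) : Bs c (insert q (vs n)) := by
  intro p hp
  rcases Finset.mem_insert.1 hp with rfl | hp
  · have := hQ.qf.big
    exact Or.inr ⟨hQ.qf.pr, by omega, by omega, hQ.nd, hQ.ty⟩
  · have h := kn_vs n p hp
    exact Or.inr ⟨h.pr, h.n2, h.n11, h.nd, h.ty⟩

/-- The set of primes at which ramification is allowed. -/
def bn (n : Finset {p // KolI m q c p}) : Finset ℕ := insert 11 (insert q (vs n))

theorem bs1 (hQ : QD q c) (n : Finset {p // KolI m q c p}) : Bs c (bn n) := fun p hp =>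
  (Finset.mem_insert.1 hp).elim Or.inl (bs0 hQ n p)

theorem mem_bn {n : Finset {p // KolI m q c p}} {p : {p // KolI m q c p}} : p.1 ∈ bn n ↔ p ∈ n := by
  simp [bn, mem_vs, p.2.n11, p.2.nq]

theorem bn_mono {n n' : Finset {p // KolI m q c p}} (h : n ⊆ n') : bn n ⊆ bn n' :=
  Finset.insert_subset_insert _ (Finset.insert_subset_insert _ (Finset.map_subset_map.2 h))

/-- The space of all classes that are unramified outside `c`, `11`, `q` and the Kolyvagin
primes. -/
def WW (θ : L) (hm : ∀ (n : Finset {p // KolI m q c p}) (x y : L), Wa θ d c (bn n) x →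
    Wa θ d c (bn n) y → Wa θ d c (bn n) (x * y)) : Submodule (ZMod 2) (SqCl L) where
  carrier := {z | ∃ (n : Finset {p // KolI m q c p}) (x : L), Wa θ d c (bn n) x ∧ cl x = z}
  add_mem' := by
    classical
    rintro _ _ ⟨n, x, hx, rfl⟩ ⟨n', y, hy, rfl⟩
    exact ⟨n ∪ n', x * y, hm _ _ _ (wa_mono (bn_mono Finset.subset_union_left) hx)
      (wa_mono (bn_mono Finset.subset_union_right) hy), cl_mul hx.ne hy.ne⟩
  zero_mem' := ⟨∅, 1, wa_one _ _ _ _, (cl_eq_zero one_ne_zero).2 IsSquare.one⟩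
  smul_mem' := by
    rintro r _ ⟨n, x, hx, rfl⟩
    rcases z2 r with rfl | rfl
    · exact ⟨∅, 1, wa_one _ _ _ _, by
        rw [zero_smul]; exact (cl_eq_zero one_ne_zero).2 IsSquare.one⟩
    · exact ⟨n, x, hx, (one_smul _ _).symm⟩

theorem conc (hC : ConstStmt) (h1 : LA1Stmt) (h2 : LA2Stmt) (hCh : ChebAStmt) {θ : L} (hθ : Cub θ)
    {δ : ℤ} (hr : ¬ rx d) : Asw θ d δ c := by
  classical
  intro q m M α hT _ hA hm hK hM n₁ hn hc
  have hQ := hA.qd
  obtain ⟨-, hU, -⟩ := lAll L θ hθ c hQ.fam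
  obtain ⟨-, c0, -, -, c1, -⟩ := hC L θ hθ
  have bx : ∀ B, Bx d B = B := fun B => if_neg hr
  obtain ⟨n₀, rfl⟩ : ∃ n₀ : Finset {p // KolI m q c p}, n₁ = vs n₀ :=
    ⟨n₁.subtype _, (Finset.subtype_map_of_mem hn).symm⟩
  have hB := fun n : Finset {p // KolI m q c p} => h1 L θ hθ d δ c _ hT (bs1 hQ n)
  have hB0 := fun n : Finset {p // KolI m q c p} => h1 L θ hθ d δ c _ hT (bs0 hQ n)
  have er : ∀ n : Finset {p // KolI m q c p}, (bn n).erase 11 = insert q (vs n) := fun n =>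
    Finset.erase_insert (e_notMem hQ n)
  let W : Submodule (ZMod 2) (SqCl L) := WW θ fun n x y hx hy => ((hB n).1 x y hx hy).1
  have hW : ∀ z : W, ∃ (n : Finset {p // KolI m q c p}) (x : L), Wa θ d c (bn n) x ∧
      cl x = z.1 := fun z => z.2
  have out : ∀ (n : Finset {p // KolI m q c p}) (x : L), Wa θ d c (bn n) x →
      ∀ p ∉ n, sv p.1 x = 0 := fun n x hx p hp =>
    ((hB n).2 x hx).2.2.2.2.2 p.1 p.2.pr p.2.nd fun e => hp (mem_bn.1 e)
  have shrink : ∀ (n' n : Finset {p // KolI m q c p}) (x : L), Wa θ d c (bn n') x →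
      (∀ p ∉ n, sv p.1 x = 0) → Wa θ d c (bn n) x := fun n' n x hx h0 =>
    ⟨hx.ne, hx.sq, hx.two, fun p h1 h2 h3 => by
      by_cases e : p ∈ bn n'
      · have e0 : p ≠ 11 := fun e' => h3 (Finset.mem_insert.2 (Or.inl e'))
        have e1 : p ∈ vs n' := (Finset.mem_insert.1 ((Finset.mem_insert.1 e).resolve_left
          e0)).resolve_left fun e' =>
            h3 (Finset.mem_insert_of_mem (Finset.mem_insert.2 (Or.inl e')))
        exact (((hB n').2 x hx).2.2.1 p e e0 (h0 ⟨p, kn_vs n' p e1⟩ fun e' =>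
          h3 (mem_bn.2 e'))).ev p h1 h2 (Finset.notMem_erase _ _)
      · exact hx.ev p h1 h2 e⟩
  have ha : ∀ z : W, (fun 𝔭 : D1 L c => lin (ad_av 𝔭.1) z.1) ∈ UU L c := fun z => by
    obtain ⟨n, x, hx, e⟩ := hW z
    simp only [← e, lin_cl _ hx.ne]
    exact ((hB n).2 x hx).1
  have hb : ∀ z : W, (fun 𝔭 : D1 L c => lin (ad_bv θ d 𝔭.1) z.1) ∈ UU L c := fun z => by
    obtain ⟨n, x, hx, e⟩ := hW z
    simp only [← e, lin_cl _ hx.ne]
    exact ((hB n).2 x hx).2.1
  have hm0 : ∀ (n : Finset {p // KolI m q c p}) j, Wa θ d c (insert q (vs n)) (α (vs n) j) :=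
    fun n j => bx (insert q (vs n)) ▸ hK.mem _ j (kn_vs n)
  have hmem : ∀ (n : Finset {p // KolI m q c p}) j, Wa θ d c (bn n) (α (vs n) j) :=
    fun n j => wa_mono (Finset.subset_insert _ _) (hm0 n j)
  let κ : Finset {p // KolI m q c p} → ℕ → W := fun n j => ⟨cl (α (vs n) j), n, _, hmem n j, rfl⟩
  have hκ : ∀ n j, κ n j = 0 ↔ IsSquare (α (vs n) j) := fun n j =>
    Subtype.ext_iff.trans (cl_eq_zero (hmem n j).ne)
  have D : Dt n₀ W.subtype (cl (al0 θ)) (dot c) (toU _ ha) (toU _ hb)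
      (fun p => (lin (ad_sv p.1)).comp W.subtype) (fun p => (lin (ad_fv p.1)).comp W.subtype)
      ((lin (ad_sv q)).comp W.subtype) ((lin (ad_b θ)).comp W.subtype) (lin (ad_fv q))
      (lin ad_a) := by
    refine ⟨W.ker_subtype, (lin_cl _ c0).trans c1, (lin_cl _ c0).trans hA.fa, fun z => ?_,
      fun z z' B h0 => ?_, fun n => ?_, fun T lam B hl => ?_, fun z h6 h1 h0 h2 h3 h4 => ?_⟩
    · obtain ⟨n, x, hx, e⟩ := hW z
      refine n.finite_toSet.subset fun p hp => by_contra fun h => hp ?_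
      show lin (ad_sv p.1) z.1 = 0
      rw [← e, lin_cl _ hx.ne]
      exact out n x hx p h
    · obtain ⟨n, x, hx, e⟩ := hW z
      obtain ⟨n', y, hy, e'⟩ := hW z'
      have h1 : ∀ p ∉ B, sv p.1 x = 0 ∧ sv p.1 y = 0 := fun p hp => by
        have := h0 p hp
        simp only [LinearMap.comp_apply, Submodule.subtype_apply, ← e, ← e', lin_cl _ hx.ne,
          lin_cl _ hy.ne] at this
        exact this
      have h2 := ((hB B).1 x y (shrink n B x hx fun p hp => (h1 p hp).1)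
        (shrink n' B y hy fun p hp => (h1 p hp).2)).2
      rw [er, Finset.sum_insert (q_notMem B), vs, Finset.sum_map, ← Finset.sum_coe_sort (D1 L c),
        Finset.sum_add_distrib, ← add_assoc _ (_ + _) (∑ p ∈ B, _)] at h2
      show ∑ 𝔭 : D1 L c, lin (ad_av 𝔭.1) z.1 * lin (ad_bv θ d 𝔭.1) z'.1 +
        ∑ 𝔭 : D1 L c, lin (ad_bv θ d 𝔭.1) z.1 * lin (ad_av 𝔭.1) z'.1 + _ + _ + _ = 0
      simp only [LinearMap.comp_apply, Submodule.subtype_apply, ← e, ← e', lin_cl _ hx.ne,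
        lin_cl _ hy.ne]
      exact h2
    · have e : (⨅ p ∉ n, LinearMap.ker ((lin (ad_sv p.1)).comp W.subtype) :
          Submodule (ZMod 2) W).map W.subtype = WA θ d c (bn n) := by
        refine le_antisymm ?_ (Submodule.span_le.2 ?_)
        · rintro _ ⟨z, hz, rfl⟩
          obtain ⟨n', x, hx, e⟩ := hW z
          refine Submodule.subset_span ⟨x, shrink n' n x hx fun p hp => ?_, e⟩
          have : lin (ad_sv p.1) z.1 = 0 :=
            (Submodule.mem_iInf _).1 ((Submodule.mem_iInf _).1 hz p) hp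
          rwa [← e, lin_cl _ hx.ne] at this
        · rintro _ ⟨x, hx, rfl⟩
          refine ⟨⟨cl x, n, x, hx, rfl⟩, (Submodule.mem_iInf _).2 fun p =>
            (Submodule.mem_iInf _).2 fun hp => ?_, rfl⟩
          show lin (ad_sv p.1) (cl x) = 0
          rw [lin_cl _ hx.ne]
          exact out n x hx p hp
      obtain ⟨h3, h4⟩ := h2 L θ hθ d δ c _ hT (bs1 hQ n)
      rw [← e] at h3 h4
      refine ⟨Module.Finite.equiv (Submodule.equivMapOfInjective _ W.injective_subtype _).symm, ?_⟩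
      rw [Submodule.finrank_map_subtype_eq, bn, Finset.card_insert_of_notMem (e_notMem hQ n),
        Finset.card_insert_of_notMem (q_notMem n), vs, Finset.card_map] at h4
      omega
    · choose n x hx e using hW
      obtain ⟨p, h1, h2, h3⟩ := hCh L θ hθ q m c (T.image x) lam (B.sup Subtype.val) hQ hm
        (fun y hy => by
          obtain ⟨z, -, rfl⟩ := Finset.mem_image.1 hy
          exact ⟨(hx z).ne, (hx z).sq⟩) hl
      refine ⟨⟨p, h2⟩, fun h => h1.not_ge (Finset.le_sup (f := Subtype.val) h), fun z hz => ?_⟩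
      show lin (ad_fv p) z.1 = lam z.1
      rw [← e, lin_cl _ (hx z).ne, h3 _ (Finset.mem_image_of_mem x hz)]
    · obtain ⟨n, x, hx, e⟩ := hW z
      simp only [LinearMap.comp_apply, Submodule.subtype_apply, ← e, lin_cl _ hx.ne]
        at h0 h1 h2 h3 h6
      have h7 := ((hB n₀).2 x (shrink n n₀ x hx h1)).2.2.2.1 h6
      rw [er] at h7
      have h5 := ((hB0 n₀).2 x h7).2.2.1 q (Finset.mem_insert_self _ _)
        (fun e => e_notMem hQ n₀ (e ▸ Finset.mem_insert_self _ _)) h2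
      rw [Finset.erase_insert (q_notMem n₀), ← bx (vs n₀)] at h5
      refine Subtype.ext (e.symm.trans ((cl_eq_zero hx.ne).2 (hc x ⟨⟨h5, fun 𝔭 h𝔭 => ?_,
        fun h => absurd h hr⟩, fun p hp => h0 ⟨p, hn p hp⟩ (mem_vs.1 hp), h3⟩)))
      have : lin (ad_bv θ d 𝔭) z.1 = 0 := congrFun (congrArg Subtype.val h4) ⟨𝔭, h𝔭⟩
      rwa [← e, lin_cl _ hx.ne] at this
  have S : Sy (toU _ ha) (toU _ hb) (fun p => (lin (ad_sv p.1)).comp W.subtype)
      (fun p => (lin (ad_fv p.1)).comp W.subtype) ((lin ad_a).comp W.subtype) κ := by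
    refine ⟨?_, ?_, ?_, ?_, ?_, ?_, ?_⟩
    · obtain ⟨n, j, h1, h2⟩ := hK.ne
      refine ⟨n.subtype _, j, fun h => h2 ?_⟩
      rwa [hκ, vs, Finset.subtype_map_of_mem h1] at h
    · exact fun n => Subtype.ext (funext fun 𝔭 =>
        (lin_cl (ad_bv θ d 𝔭.1) (hmem n 0).ne).trans (hK.b0 _ (kn_vs n) 𝔭.1 𝔭.2))
    · exact fun n j => (lin_cl ad_a (hmem n j).ne).trans
        (((hB0 n).2 _ (hm0 n j)).2.2.2.2.1 (e_notMem hQ n))
    · exact fun n j => Subtype.ext (funext fun 𝔭 => (lin_cl (ad_av 𝔭.1) (hmem n j).ne).trans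
        ((hK.ab _ j (kn_vs n) 𝔭.1 𝔭.2).trans (lin_cl (ad_bv θ d 𝔭.1) (hmem n (j + 1)).ne).symm))
    · exact fun n j p hp => (lin_cl (ad_sv p.1) (hmem n j).ne).trans (out n _ (hmem n j) p hp)
    · exact fun n j p hp => (lin_cl (ad_fv p.1) (hmem n j).ne).trans
        (hK.fp _ j (kn_vs n) p.1 (mem_vs.2 hp))
    · intro n j p hp
      refine (lin_cl (ad_sv p.1) (hmem (insert p n) j).ne).trans
        (Eq.trans ?_ (lin_cl (ad_fv p.1) (hmem n j).ne).symm)
      rw [show vs (insert p n) = insert p.1 (vs n) from Finset.map_insert _ _ _]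
      exact hK.sp _ j p.1 (kn_vs n) p.2 fun e => hp (mem_vs.1 e)
  have h7 : ∀ n j, M < j → κ n j = 0 := fun n j h => (hκ n j).2 (hK.top _ j h)
  by_cases h11 : (11 : ℤ) ∣ d
  · have e : TT d c = Module.finrank (ZMod 2) (UU L c) + 1 := by
      rw [TT, eps, if_pos h11, if_neg hr, hU]
    have key := swap1 D S (e ▸ hM) h7 fun n => by
      rw [← hK.e0 _ (kn_vs n) h11 hr]
      exact Finset.sum_congr rfl fun j _ => lin_cl (ad_b θ) (hmem n j).ne
    exact ⟨key.1.trans e.symm, fun h => key.2 ((hκ n₀ 0).2 h)⟩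
  · have e : TT d c = Module.finrank (ZMod 2) (UU L c) := by
      rw [TT, eps, if_neg h11, hU, add_zero]
    have key := swap0 D S (e ▸ hM) h7
    exact ⟨key.1.trans e.symm, fun h => key.2 ((hκ n₀ 0).2 h)⟩

end Asw01

theorem asw0_thm (hC : ConstStmt) (h1 : LA1Stmt) (h2 : LA2Stmt) (hCh : ChebAStmt) : Asw0Stmt :=
  fun _ _ _ _ hθ _ _ _ h => Asw01.conc hC h1 h2 hCh hθ fun e => h e.1

theorem asw1_thm (hC : ConstStmt) (h1 : LA1Stmt) (h2 : LA2Stmt) (hCh : ChebAStmt) : Asw1Stmt :=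
  fun _ _ _ _ hθ _ _ _ _ h => Asw01.conc hC h1 h2 hCh hθ h

end Pool.Agent.Lib.MP_d6ddbd_nt.KA
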