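import Pool.Agent.Lib.MP_d6ddbd_nt.KA.Stmt
import Pool.Agent.Lib.MP_d6ddbd_nt.K11.AllX
import Pool.Agent.Lib.MP_d6ddbd_nt.KI.Bas

/-!
The two-converse for all quadratic twists of `X₀(11)`: the twisted Heegner points.
-/

set_option autoImplicit false
set_option maxSynthPendingDepth 3

open Pool.Agent.Lib.MP_d6ddbd_nt.K11
open Pool.Agent.Lib.MP_d6ddbd_nt.KI (cq cq_two cq_om)

noncomputable section

namespace Pool.Agent.Lib.MP_d6ddbd_nt.KA

namespace QS

/-! ### Classes modulo eight -/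

theorem un_val {l : ℕ} (h : l.Coprime 8) : ((un l : (ZMod 8)ˣ) : ZMod 8) = l := by
  rw [un, dif_pos h, ZMod.coe_unitOfCoprime]

theorem v3 : ((un 3 : (ZMod 8)ˣ) : ZMod 8) = 3 := un_val (by norm_num)

theorem v5 : ((un 5 : (ZMod 8)ˣ) : ZMod 8) = 5 := un_val (by norm_num)

theorem v7 : ((un 7 : (ZMod 8)ˣ) : ZMod 8) = 7 := un_val (by norm_num)

theorem cases8 (t : (ZMod 8)ˣ) : t = 1 ∨ t = un 3 ∨ t = un 5 ∨ t = un 7 := by
  simp only [Units.ext_iff, v3, v5, v7, Units.val_one]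
  revert t
  decide

theorem m33 : un 3 * un 3 = 1 := Units.ext (by rw [Units.val_mul, v3]; rfl)

theorem m55 : un 5 * un 5 = 1 := Units.ext (by rw [Units.val_mul, v5]; rfl)

theorem m77 : un 7 * un 7 = 1 := Units.ext (by rw [Units.val_mul, v7]; rfl)

theorem m53 : un 5 * un 3 = un 7 := Units.ext (by rw [Units.val_mul, v3, v5, v7]; rfl)

theorem m57 : un 5 * un 7 = un 3 := Units.ext (by rw [Units.val_mul, v3, v5, v7]; rfl)

theorem m37 : un 3 * un 7 = un 5 := Units.ext (by rw [Units.val_mul, v3, v5, v7]; rfl)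

theorem m73 : un 7 * un 3 = un 5 := by rw [mul_comm, m37]

/-- The character of `δ` on classes modulo eight. -/
def ch (δ : ℤ) (t : (ZMod 8)ˣ) : ℤ := jacobiSym δ (t : ZMod 8).val

theorem ch_un {δ : ℤ} (hδ : δ = 1 ∨ δ = -1 ∨ δ = 2 ∨ δ = -2) {l : ℕ} (h : Odd l) :
    ch δ (un l) = jacobiSym δ l := by
  have c : l.Coprime 8 := by
    simpa using (Nat.coprime_two_right.2 h).pow_right 3
  have o : Odd (l % 8) := by
    rw [Nat.odd_iff] at h ⊢
    omega
  rw [ch, un_val c, ZMod.val_natCast, jacobiSym.mod_right δ h, jacobiSym.mod_right δ o,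
    Nat.mod_mod_of_dvd]
  rcases hδ with rfl | rfl | rfl | rfl <;> decide

theorem ch_one (δ : ℤ) : ch δ 1 = 1 := by
  rw [ch, Units.val_one, show (1 : ZMod 8).val = 1 from rfl, jacobiSym.one_right]

theorem ch_11 {δ : ℤ} (hδ : δ = 1 ∨ δ = -1 ∨ δ = 2 ∨ δ = -2) : ch δ (un 3) = jacobiSym δ 11 := by
  rw [ch_un hδ (by decide)]
  rcases hδ with rfl | rfl | rfl | rfl <;> norm_num

theorem eq_one {t : (ZMod 8)ˣ} (h : ch (-1) t = 1) (h' : ch 2 t = 1) : t = 1 := by
  rcases cases8 t with rfl | rfl | rfl | rfl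
  · rfl
  all_goals
    rw [ch_un (by simp) (by decide)] at h h'
    revert h h'
    norm_num

/-! ### The linear form -/

/-- The combination of the points of level `1`, `2`, `4`, `8`. -/
def Lf (δ : ℤ) : (ℕ → (ZMod 8)ˣ → Pt) →+ Pt := AddMonoidHom.mk'
  (fun F => if δ = 1 then F 1 1 else if δ = -1 then F 4 1 - F 4 (un 3) else
    F 8 1 + F 8 (tz δ) + F 4 1 + F 4 (un 3) + F 2 1)
  (fun F F' => by split_ifs <;> simp only [Pi.add_apply] <;> abel)

theorem Lf_apply (δ : ℤ) (F : ℕ → (ZMod 8)ˣ → Pt) : Lf δ F =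
    if δ = 1 then F 1 1 else if δ = -1 then F 4 1 - F 4 (un 3) else
      F 8 1 + F 8 (tz δ) + F 4 1 + F 4 (un 3) + F 2 1 := rfl

theorem Lf_map (δ : ℤ) (σ : G) (F : ℕ → (ZMod 8)ˣ → Pt) :
    σ • Lf δ F = Lf δ fun i s => σ • F i s := by
  rw [Lf_apply, Lf_apply]
  split_ifs <;> simp only [smul_add, smul_sub]

theorem Lf_mem (δ : ℤ) (S : AddSubgroup Pt) {F : ℕ → (ZMod 8)ˣ → Pt}
    (h : ∀ i s, i ∣ 8 → F i s ∈ S) : Lf δ F ∈ S := by
  rw [Lf_apply]
  split_ifs
  · exact h _ _ (by decide)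
  · exact sub_mem (h _ _ (by decide)) (h _ _ (by decide))
  · exact add_mem (add_mem (add_mem (add_mem (h _ _ (by decide)) (h _ _ (by decide)))
      (h _ _ (by decide))) (h _ _ (by decide))) (h _ _ (by decide))

theorem Lf_congr (δ : ℤ) {F F' : ℕ → (ZMod 8)ˣ → Pt} (h : ∀ i s, i ∣ 8 → F i s = F' i s) :
    Lf δ F = Lf δ F' := by
  rw [← sub_eq_zero, ← map_sub]
  exact Lf_mem δ ⊥ fun i s hi => sub_eq_zero.2 (h i s hi)

theorem n2_sum {Pp : Submodule ℤ ℂ → Submodule ℤ ℂ → Pt} {a : ℕ → ℤ} {t0 : Pt}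
    (h : XA Pp a t0) {P A B C : Pt} (hn : N2 Pp P {A, B, C}) : A + B + C = -(2 • P) := by
  obtain ⟨L, M, lv, rfl, s, hs, e⟩ := hn
  have := h.xi.hecke 2 L M s Nat.prime_two (by norm_num) lv hs
  rw [Finset.sum, e, h.a2] at this
  simp only [Multiset.insert_eq_cons, Multiset.sum_cons, Multiset.sum_singleton] at this
  rw [add_assoc, this]
  module

section

variable {Pp : Submodule ℤ ℂ → Submodule ℤ ℂ → Pt} {a : ℕ → ℤ} {t0 : Pt} {q : ℕ}
  [Fact (q % 4 = 3)] {b r δ : ℤ} {N : Pic q 8 →* (ZMod 8)ˣ}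
  {P : ∀ n : ℕ, ℕ → Pic q n → (ZMod 8)ˣ → Pt} {n : ℕ}

theorem Qd_eq (δ : ℤ) (P : ∀ n : ℕ, ℕ → Pic q n → (ZMod 8)ˣ → Pt) (n : ℕ) (x : Pic q n) :
    Qd δ P n x = Lf δ fun i s => 5 • P n i x s := by
  rw [Qd, Lf_apply]
  split_ifs <;> simp only [smul_add, smul_sub]

/-- Translation of the class modulo eight multiplies by the character. -/
theorem shift (h : XA Pp a t0) (hP : PS Pp a t0 b r N P) (hδ : δ = 1 ∨ δ = -1 ∨ δ = 2 ∨ δ = -2)
    (hn : Ok n) (x : Pic q n) (t : (ZMod 8)ˣ) :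
    (Lf δ fun i s => 5 • P n i x (t * s)) = ch δ t • Qd δ P n x := by
  have p1 := fun t => (hP.per n x t hn).1
  have p2 := fun t => (hP.per n x t hn).2.1
  have p5 := (hP.per n x 1 hn).2.2
  have p7 := (hP.per n x (un 3) hn).2.2
  have e1 := n2_sum h (hP.two4 n x 1 hn)
  have e3 := n2_sum h (hP.two4 n x (un 3) hn)
  rw [mul_one] at p5 e1
  rw [m53] at p7 e3
  have f5 := eq_sub_of_add_eq' e1
  have f7 := eq_sub_of_add_eq' e3
  rw [Qd, Lf_apply]
  rcases cases8 t with rfl | rfl | rfl | rfl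
  · rw [ch_one]
    split_ifs <;> simp only [smul_add, smul_sub, one_mul, one_smul]
  all_goals
    rw [ch_un hδ (by decide)]
    rcases hδ with rfl | rfl | rfl | rfl <;>
      norm_num [tz, m33, m55, m77, m53, m57, m37, m73, p1 (un _), p2 (un _), p5, p7, f5, f7] <;>
      module

theorem q_alg (hP : PS Pp a t0 b r N P) (hn : Ok n) (x : Pic q n) : AlgP (Qd δ P n x) := by
  rw [Qd_eq]
  exact Lf_mem δ (KK.AlgS r1_thm) fun i s hi => KI.alg_n 5 (hP.alg n i x s hn hi)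

theorem q_act (h : XA Pp a t0) (hN : NN N) (hP : PS Pp a t0 b r N P)
    (hδ : δ = 1 ∨ δ = -1 ∨ δ = 2 ∨ δ = -2) (hn : Ok n) (x : Pic q n) {σ : G}
    (hσ : σ (om q) = om q) : σ • Qd δ P n x = cq δ σ • Qd δ P n (ar q n σ * x) := by
  rw [hN.ar δ σ hδ hσ, ← ch, ← shift h hP hδ hn, Qd_eq, Lf_map]
  exact Lf_congr δ fun i s hi => by rw [Fin.sm_n, hP.act n i x s σ hn hi hσ]

theorem q_conj (h : XA Pp a t0) (hP : PS Pp a t0 b r N P)
    (hδ : δ = 1 ∨ δ = -1 ∨ δ = 2 ∨ δ = -2) (hn : Ok n) (x : Pic q n) (h11 : ¬ 11 ∣ n) :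
    cj • Qd δ P n x = -jacobiSym δ 11 • Qd δ P n (lam q n 11 (1 - b) * x⁻¹) := by
  rw [neg_smul, ← ch_11 hδ, ← shift h hP hδ hn, Qd_eq, Lf_map, ← map_neg]
  exact Lf_congr δ fun i s hi => by
    rw [Fin.sm_n, hP.conj0 n i x s hn hi h11, smul_sub, h.xi.five, zero_sub]; rfl

theorem q_sum {m : ℕ} (s : Finset (Pic q m)) :
    ∑ y ∈ s, Qd δ P m y = Lf δ fun i t => ∑ y ∈ s, 5 • P m i y t := by
  simp only [Qd_eq]
  rw [← map_sum]
  congr 1
  ext i t
  simp only [Finset.sum_apply]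

/-! ### The base -/

/-- A point fixed by all squares whose double is negated by inertia. -/
theorem core {q : ℕ} {O : ValuationSubring ℂ} (hq : QF q) (hO : Ov O q) {ι : G} (hι : Frob O 1 ι)
    {X : Pt} (hX : AlgP X) (hs : ∀ g : G, (g * g) • X = X) (e : ι • 2 • X = (-(2 • X) : Pt)) :
    2 • X ∈ E1 O := by
  obtain ⟨ω, hω⟩ := Fin.ex_w r1_thm
  have big := hq.big
  have z : ι • X + X = 0 := hω _ (by rw [smul_add, ← Fin.sm_n, e, neg_add_cancel]) (by
    rw [← mul_smul, smul_add, hs, ← mul_smul,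
      show ω * ω * ι = ι * (ι⁻¹ * ω * ι * (ι⁻¹ * ω * ι)) by group, mul_smul, hs])
  have := neg_mem ((rAll.2 q O hq.pr (by omega) (by omega) hO).2.2.1 ι X hι hX)
  rwa [eq_neg_of_add_eq_zero_left z, ← neg_add', neg_neg, ← two_nsmul] at this

theorem ok_one : Ok 1 := ⟨squarefree_one, odd_one⟩

theorem sum_perm {M : Type} [AddCommMonoid M] {s : Finset (Pic q 1)} (hs : ∀ x, x ∈ s)
    (e : Pic q 1 ≃ Pic q 1) (f : Pic q 1 → M) : ∑ x ∈ s, f (e x) = ∑ x ∈ s, f x :=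
  Finset.sum_equiv e (fun x => by simp [hs]) fun _ _ => rfl

theorem sq_om {q : ℕ} (g : G) : (g * g) (om q) = om q := cq_om.1 (cq_two _ g)

/-- The trace of the points of conductor one is not the double of a point fixed by squares. -/
theorem base_one (h : XA Pp a t0) (hq : QF q) (hb : Rt q 11 b) (hN : NN N)
    (hP : PS Pp a t0 b r N P) {s : Finset (Pic q 1)} (hs : ∀ x, x ∈ s) {X : Pt} (hX : AlgP X)
    (hg : ∀ g : G, (g * g) • X = X) : ∑ x ∈ s, Qd 1 P 1 x ≠ 2 • X := fun e => by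
  obtain ⟨O, hO⟩ := vAll.1.1 q hq.pr
  obtain ⟨ι, i1, i2⟩ := Base.inertia vAll.2.2.1 hq.pr hO
  have f : (ι * cj) (om q) = om q := by
    have c : cj (om q) ≠ om q := fun c => by
      have := congrArg Complex.im c
      rw [cj_apply, Complex.conj_im] at this
      linarith [om_im hq.pr.ne_zero]
    have n := fun (σ : G) (c : σ (om q) ≠ om q) =>
      (KI.cq_or (-q) σ).resolve_left fun e => c (cq_om.1 e)
    exact cq_om.1 (by rw [KI.cq_mul, n _ i2, n _ c]; rfl)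
  have a1 : cj • ∑ x ∈ s, Qd 1 P 1 x = -∑ x ∈ s, Qd 1 P 1 x := by
    rw [Finset.smul_sum, ← Finset.sum_neg_distrib, ← sum_perm hs
      ((Equiv.inv _).trans (Equiv.mulLeft (lam q 1 11 (1 - b)))) fun x => -Qd 1 P 1 x]
    exact Finset.sum_congr rfl fun x _ => by
      rw [q_conj h hP (by simp) ok_one x (by decide), jacobiSym.one_left, neg_smul, one_smul]; rfl
  have a2 : (ι * cj) • ∑ x ∈ s, Qd 1 P 1 x = ∑ x ∈ s, Qd 1 P 1 x := by
    rw [Finset.smul_sum, ← sum_perm hs (Equiv.mulLeft (ar q 1 (ι * cj))) fun x => Qd 1 P 1 x]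
    exact Finset.sum_congr rfl fun x _ => by
      rw [q_act h hN hP (by simp) ok_one x f, hN.ar 1 _ (by simp) f, jacobiSym.one_left, one_smul]
      rfl
  rw [mul_smul, a1, smul_neg, neg_eq_iff_eq_neg, e] at a2
  refine base_thm vAll rAll g2All pic_thm galAll Pp a t0 h.xi q hq.pr hq.big b s O hb hs hO ?_
  have := core hq hO i1 hX hg a2
  rw [← e] at this
  simpa only [Qd, if_true, hP.one] using this

end

end QS

open QS in
theorem qb_thm : QBStmt := fun Pp a t0 h q _ hq h8 b r δ N P hb hr hN hP hδ hG s X hs hX hσ => by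
  have hg : ∀ g : G, (g * g) • X = X := fun g => by rw [hσ _ (sq_om g), cq_two, one_smul]
  rcases hδ with rfl | rfl | hδ
  · exact base_one h hq hb hN hP hs hX hg
  · intro e
    refine base_one h hq hb hN hP hs (X := X - ∑ x ∈ s, 5 • (P 1 4 x 1 + P 1 2 x 1))
      (KI.alg_sub hX ((KK.AlgS r1_thm).sum_mem fun x _ => KI.alg_n 5 (KI.alg_add
        (hP.alg 1 4 x 1 ok_one (by decide)) (hP.alg 1 2 x 1 ok_one (by decide))))) (fun g => ?_) ?_
    · have o : N (ar q 8 (g * g)) = 1 := eq_one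
        ((hN.ar _ _ (by simp) (sq_om g)).symm.trans (cq_two _ g))
        ((hN.ar _ _ (by simp) (sq_om g)).symm.trans (cq_two _ g))
      rw [smul_sub, hg, Finset.smul_sum,
        ← sum_perm hs (Equiv.mulLeft (ar q 1 (g * g))) fun x => 5 • (P 1 4 x 1 + P 1 2 x 1)]
      refine congrArg _ (Finset.sum_congr rfl fun x _ => ?_)
      rw [Fin.sm_n, smul_add, hP.act 1 4 x 1 _ ok_one (by decide) (sq_om g),
        hP.act 1 2 x 1 _ ok_one (by decide) (sq_om g), o, one_mul]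
      rfl
    · rw [smul_sub, ← e, Finset.smul_sum, ← Finset.sum_sub_distrib]
      refine Finset.sum_congr rfl fun x _ => ?_
      have := eq_sub_of_add_eq' (n2_sum h (hP.two2 1 x ok_one))
      norm_num [Qd, this]
      module
  · exact h.ev q hq h8 b r δ N P hb hr hN hP hδ
      (hG (by rcases hδ with rfl | rfl <;> decide)) s X hs hX hσ

open QS in
theorem qs_thm (hB : QBStmt) : QSStmt := fun Pp a t0 h q _ hq h8 b r δ N P hb hr hN hP hδ hG =>
  { alg := fun _ x hn => q_alg hP hn x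
    act := fun _ x _ hn hσ => q_act h hN hP hδ hn x hσ
    conj0 := fun _ x hn h11 => q_conj h hP hδ hn x h11
    conj1 := fun n x hn h11 => by
      rw [Qd_eq, Qd_eq, Lf_map]
      exact Lf_congr δ fun i s hi => by rw [Fin.sm_n, hP.conj1 n i x s hn hi h11]
    inert := fun n l x s hn hl h2 hlq hd hsp hs => by
      have k := fun i t hi => hP.inert n i l x t s hn hi hl h2 hlq hd hsp hs
      refine ⟨?_, fun O φ hO hφ y hy => ?_⟩
      · rw [q_sum, Qd_eq, ← map_zsmul]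
        exact Lf_congr δ fun i t hi => by
          rw [← Finset.smul_sum, (k i t hi).1, smul_comm]; rfl
      · rw [Qd_eq, Qd_eq, Lf_map, ← map_sub]
        exact Lf_mem δ _ fun i t hi => by
          have := nsmul_mem ((k i t hi).2 O φ hO hφ y hy) 5
          rwa [smul_sub, ← Fin.sm_n] at this
    split := fun n l r' x s hn hl h2 h11 hlq hd hr' hs => by
      rw [← ch_un hδ (hl.odd_of_ne_two h2), ← shift h hP hδ hn, ← shift h hP hδ hn, q_sum, Qd_eq,
        ← map_zsmul, ← map_sub, ← map_sub]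
      exact Lf_congr δ fun i t hi => by
        rw [← Finset.smul_sum, hP.split n i l r' x t s hn hi hl h2 h11 hlq hd hr' hs, smul_sub,
          smul_sub, smul_comm]; rfl
    eleven := fun n x s hn h11 hs => by
      rw [← ch_11 hδ, ← shift h hP hδ hn, q_sum, Qd_eq, ← map_sub]
      exact Lf_congr δ fun i t hi => hP.eleven n i x t s hn hi h11 hs
    base := hB Pp a t0 h q hq h8 b r δ N P hb hr hN hP hδ hG }

end Pool.Agent.Lib.MP_d6ddbd_nt.KA
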