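import Pool.Agent.Lib.MP_d6ddbd_nt.KB.Cub2
import Pool.Agent.Lib.MP_d6ddbd_nt.KI.Bas
import Pool.Agent.Lib.MP_d6ddbd_nt.E11.ES

/-!
The base of the Heegner system for even twists: the computation at a place over `q`.
-/

set_option autoImplicit false
set_option maxSynthPendingDepth 3

open Pool.Agent.Lib.MP_02f36d_nt (xc yc)
open Pool.Agent.Lib.MP_d6ddbd_nt.K11
open Pool.Agent.Lib.MP_d6ddbd_nt.KI (vA rA)
open Pool.Agent.Lib.MP_d6ddbd_nt.E11 (Ac Tri t0 rs rs_eq rs_zero rs_ne five smul_t0 coe_ofNat)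

noncomputable section

namespace Pool.Agent.Lib.MP_d6ddbd_nt.KA.XEv

section fld

variable {k : Type} [Field k]

theorem fld1 (h2 : (2 : k) ≠ 0) (h11 : (11 : k) ≠ 0) {t A a b c : k}
    (ht : t ^ 3 - 2 * t ^ 2 + 2 = 0) (hA : (8 * t ^ 2 - 14 * t - 20) * (A + 8) = -44)
    (s1 : a + b + c = -4) (s2 : a * b + a * c + b * c = -A) (s3 : a * b * c = -4)
    (h : a - 4 * (b * c) + (b * c) ^ 2 = -8) :
    b - 4 * (a * c) + (a * c) ^ 2 + 8 = 8 * t ^ 2 - 25 * t + 24 := by
  have h44 : (44 : k) ≠ 0 := by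
    rw [show (44 : k) = 2 * 2 * 11 by norm_num]
    exact mul_ne_zero (mul_ne_zero h2 h2) h11
  have eA : A = 3 * t ^ 2 - 8 * t := mul_left_cancel₀ h44 (by
    linear_combination -(3 * t ^ 2 - 8 * t + 8) * hA + (A + 8) * (24 * t - 58) * ht)
  have r : (a + t) ^ 2 * (a + 4 - 2 * t) = 0 := by
    linear_combination a ^ 2 * s1 - a * s2 + s3 + a * eA - 2 * ht
  rcases mul_eq_zero.1 r with e | e
  · obtain rfl : a = -t := eq_neg_of_add_eq_zero_left (pow_eq_zero_iff two_ne_zero |>.1 e)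
    have t0 : t ≠ 0 := fun e => h2 (by rw [e] at ht; linear_combination ht)
    have p : b * c = 4 * t - 2 * t ^ 2 := mul_left_cancel₀ t0 (by linear_combination -s3 + 2 * ht)
    rw [p] at h
    have : (2 : k) * 11 * 11 = 0 := by
      linear_combination (22 * t + 33 * t ^ 2) * h -
        (132 * t ^ 3 - 176 * t ^ 2 + 88 * t - 121) * ht
    exact absurd this (mul_ne_zero (mul_ne_zero h2 h11) h11)
  · obtain rfl : a = 2 * t - 4 := by linear_combination e
    have a0 : 2 * t - 4 ≠ 0 := fun e => by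
      rw [e] at s3
      exact mul_ne_zero h2 h2 (by linear_combination s3)
    have p : b * c = t ^ 2 := mul_left_cancel₀ a0 (by linear_combination s3 - 2 * ht)
    have eb : b = -t := eq_neg_of_add_eq_zero_left (pow_eq_zero_iff two_ne_zero |>.1
      (by linear_combination b * s1 - p))
    have ec : c = -t := by linear_combination s1 - eb
    rw [eb, ec]
    linear_combination (4 * t - 8) * ht

theorem fld2 (h2 : (2 : k) ≠ 0) (h7 : (7 : k) ≠ 0) (h11 : (11 : k) ≠ 0) {t u v x y : k}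
    (ht : t ^ 3 - 2 * t ^ 2 + 2 = 0) (hu : u ^ 3 - 2 * u ^ 2 + 2 = 0)
    (hv : v ^ 3 - 2 * v ^ 2 + 2 = 0) (d1 : u ≠ t) (d2 : v ≠ t) (d3 : u ≠ v)
    (hx : (x - 20) * (8 * u ^ 2 - 25 * u + 24) = -44)
    (hy : (y - 20) * (8 * v ^ 2 - 25 * v + 24) = -44) {e : k} (he : e = 8 * t ^ 2 - 14 * t) :
    (x - e) * (y - e) * (3 * e ^ 2 - 8 * e - 160) * (2 * (18 - e)) *
      ((2 * t + 3 * t ^ 2) * (3 * t ^ 2 - 8 * t + 8) * (1 - t)) ^ 2 =
      (3872 * (3 - t - 3 * t ^ 2)) ^ 2 ∧ 2 * (3872 * (3 - t - 3 * t ^ 2)) ≠ 0 := by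
  have q1 : u ^ 2 + (t - 2) * u + t ^ 2 - 2 * t = 0 :=
    mul_left_cancel₀ (sub_ne_zero.2 d1) (by linear_combination hu - ht)
  have q2 : v ^ 2 + (t - 2) * v + t ^ 2 - 2 * t = 0 :=
    mul_left_cancel₀ (sub_ne_zero.2 d2) (by linear_combination hv - ht)
  obtain rfl : v = 2 - t - u :=
    mul_left_cancel₀ (sub_ne_zero.2 d3) (by linear_combination q1 - q2)
  have k0 : (e - 20) * (3 * t ^ 2 - 8 * t + 8) = -44 := by
    rw [he]; linear_combination (24 * t - 58) * ht
  have n2 : (8 * u ^ 2 - 25 * u + 24) * (8 * (2 - t - u) ^ 2 - 25 * (2 - t - u) + 24) =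
      11 * (2 * t + 3 * t ^ 2) := by
    linear_combination (64 * t * u - 64 * t ^ 2 + 64 * u ^ 2 - 72 * t - 128 * u + 159) * q1 +
      (64 * t + 72) * ht
  have n1 : (8 * u ^ 2 - 25 * u + 16 - (3 * t ^ 2 - 8 * t)) *
      (8 * (2 - t - u) ^ 2 - 25 * (2 - t - u) + 16 - (3 * t ^ 2 - 8 * t)) =
      11 * (6 - 12 * t + 7 * t ^ 2) := by
    linear_combination (64 * t * u - 112 * t ^ 2 + 64 * u ^ 2 + 56 * t - 128 * u + 31) * q1 +
      (97 * t - 49) * ht
  have k1 : (x - e) * (8 * u ^ 2 - 25 * u + 24) * (3 * t ^ 2 - 8 * t + 8) =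
      44 * (8 * u ^ 2 - 25 * u + 16 - (3 * t ^ 2 - 8 * t)) := by
    linear_combination (3 * t ^ 2 - 8 * t + 8) * hx - (8 * u ^ 2 - 25 * u + 24) * k0
  have k2 : (y - e) * (8 * (2 - t - u) ^ 2 - 25 * (2 - t - u) + 24) * (3 * t ^ 2 - 8 * t + 8) =
      44 * (8 * (2 - t - u) ^ 2 - 25 * (2 - t - u) + 16 - (3 * t ^ 2 - 8 * t)) := by
    linear_combination (3 * t ^ 2 - 8 * t + 8) * hy -
      (8 * (2 - t - u) ^ 2 - 25 * (2 - t - u) + 24) * k0
  have k3 : (x - e) * (y - e) * (2 * t + 3 * t ^ 2) * (3 * t ^ 2 - 8 * t + 8) ^ 2 =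
      44 ^ 2 * (6 - 12 * t + 7 * t ^ 2) := by
    refine mul_left_cancel₀ h11 ?_
    have := congrArg₂ (· * ·) k1 k2
    linear_combination this + 44 ^ 2 * n1 - (x - e) * (y - e) * (3 * t ^ 2 - 8 * t + 8) ^ 2 * n2
  have k4 : 44 ^ 2 * (6 - 12 * t + 7 * t ^ 2) * ((3 * e ^ 2 - 8 * e - 160) * (2 * (18 - e)) *
      (2 * t + 3 * t ^ 2) * (1 - t) ^ 2) = (3872 * (3 - t - 3 * t ^ 2)) ^ 2 := by
    rw [he]
    linear_combination 44 ^ 2 * (-64512 * t ^ 9 + 406272 * t ^ 8 - 826944 * t ^ 7 +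
      481424 * t ^ 6 + 317456 * t ^ 5 - 521136 * t ^ 4 + 131184 * t ^ 3 + 114688 * t ^ 2 -
      11328 * t - 34848) * ht
  refine ⟨by rw [← k4, ← k3]; ring, mul_ne_zero h2 (mul_ne_zero ?_ fun e => ?_)⟩
  · rw [show (3872 : k) = 2 ^ 5 * 11 ^ 2 by norm_num]
    exact mul_ne_zero (pow_ne_zero _ h2) (pow_ne_zero _ h11)
  · exact mul_ne_zero h7 h11 (by
      linear_combination (9 - 29 * t + 16 * t ^ 2) * e + (48 * t + 25) * ht)

end fld

variable {O : ValuationSubring ℂ} {v Q : ℕ} {φ : G}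

theorem cub_mem {x a b c : ℂ} (ha : a ∈ O) (hb : b ∈ O) (hc : c ∈ O)
    (h : x ^ 3 + a * x ^ 2 + b * x + c = 0) : x ∈ O := by
  by_contra hx
  have h0 : x ≠ 0 := fun e => hx (e ▸ zero_mem _)
  have h1 := O.inv_mem_nonunits_iff.2 (Or.inr hx)
  have h2 := neg_mem (add_mem (add_mem (V2.mul_nu ha h1) (V2.mul_nu hb (V2.pow_nu two_ne_zero h1)))
    (V2.mul_nu hc (V2.pow_nu three_ne_zero h1)))
  refine V2.one_not (O := O) ?_
  convert h2 using 1
  field_simp
  linear_combination h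

theorem inv_mem {x : ℂ} (h : x ∉ O.nonunits) : x ≠ 0 ∧ x⁻¹ ∈ O := by
  rwa [O.mem_nonunits_iff_or, not_or, not_not] at h

theorem sgn (hφ : Frob O Q φ) (hQ : Q ≠ 0) {y K : ℂ} (hy : IsAlgebraic ℚ y) (hK : IsAlgebraic ℚ K)
    (e1 : φ y = -y) (e2 : φ K = K) (h : y ^ 2 - K ^ 2 ∈ O.nonunits) : 2 * K ∈ O.nonunits := by
  by_cases k : y - K ∈ O.nonunits
  · have := (V2.c2 hφ hQ (hy.sub hK)).2.2 k
    rw [map_sub, e1, e2] at this
    convert neg_mem (add_mem this k) using 1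
    ring
  · have k' : y + K ∈ O.nonunits := V2.nu_of_mul (by convert h using 1; ring) k
    have := (V2.c2 hφ hQ (hy.add hK)).2.2 k'
    rw [map_add, e1, e2] at this
    convert add_mem this k' using 1
    ring

/-- The generator of the ring of integers attached to a root of the cubic. -/
def th (e : ℂ) : ℂ := (384 + e - 2 * e ^ 2) / 242

theorem th_spec {e : ℂ} (h : fc e = 0) :
    th e ^ 3 - 2 * th e ^ 2 + 2 = 0 ∧ e = 8 * th e ^ 2 - 14 * th e := by
  rw [fc] at h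
  rw [th]
  exact ⟨by linear_combination (-(1 / 1771561) * e ^ 3 - (5 / 3543122) * e ^ 2 +
    (653 / 7086244) * e - (10759 / 14172488)) * h,
    by linear_combination -((8 / 14641) * e + (24 / 14641)) * h⟩

theorem th_map (σ : G) (e : ℂ) : σ (th e) = th (σ e) := by simp [th, map_ofNat]

theorem th_mem {e : ℂ} (h : fc e = 0) : th e ∈ O :=
  cub_mem (a := -2) (b := 0) (c := 2) (neg_mem (natCast_mem O 2)) (zero_mem _) (natCast_mem O 2)
    (by linear_combination (th_spec h).1)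

theorem two_spec {T : Pt} (h : 2 • T = 0) (h0 : T ≠ 0) : yc T = 0 ∧ fc (xc T) = 0 :=
  ((rA.1.2.2.2.1 T).1 h).resolve_left h0

theorem two_alg {T : Pt} (h : 2 • T = 0) : AlgP T := (Cheb.tors rA.1 1).2 T (by rwa [pow_one])

theorem root_mem {e : ℂ} (h : fc e = 0) : e ∈ O := by
  rw [(th_spec h).2]
  exact sub_mem (mul_mem (natCast_mem O 8) (pow_mem (th_mem h) 2))
    (mul_mem (natCast_mem O 14) (th_mem h))

section place

variable (hv : v.Prime) (h44 : 44 < v) (hO : Ov O v)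
include hv h44 hO

theorem small {c : ℕ} (h0 : c ≠ 0) (h : c ≤ 44) : (c : ℂ) ∉ O.nonunits := by
  exact_mod_cast V2.int_not hv hO (c := c) fun e => by
    have := Nat.le_of_dvd (Nat.pos_of_ne_zero h0) (Int.natCast_dvd_natCast.1 e)
    omega

theorem two_zero {T : Pt} (h : 2 • T = 0) (k : T ∈ E1 O) : T = 0 :=
  (rA.2 v O hv (by omega) (by omega) hO).2.2.2.2.1 1 T (by rwa [pow_one]) k

theorem two_red {P : Pt} (h : 2 • P ∈ E1 O) : ∃ T : Pt, 2 • T = 0 ∧ P - T ∈ E1 O := by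
  simpa using (rA.2 v O hv (by omega) (by omega) hO).2.2.2.2.2.1 1 P (by rwa [pow_one])

theorem xc_red {P T : Pt} (h : 2 • T = 0) (h0 : T ≠ 0) (k : P - T ∈ E1 O) :
    P ≠ 0 ∧ xc P - xc T ∈ O.nonunits := by
  have p0 : P ≠ 0 := fun e => h0 (two_zero hv h44 hO h (by
    rw [e, zero_sub] at k
    exact neg_mem_iff.1 k))
  exact ⟨p0, (((rA.2 v O hv (by omega) (by omega) hO).2.1 P T p0 h0
    (root_mem (two_spec h h0).2)).2.1 k).1⟩

theorem th_ne {T T' : Pt} (h : 2 • T = 0) (h0 : T ≠ 0) (h' : 2 • T' = 0) (h0' : T' ≠ 0)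
    (d : T ≠ T') : th (xc T) - th (xc T') ∉ O.nonunits := fun k => by
  obtain ⟨a1, a2⟩ := two_spec h h0
  obtain ⟨b1, b2⟩ := two_spec h' h0'
  refine d (sub_eq_zero.1 (two_zero hv h44 hO (by rw [nsmul_sub, h, h', sub_self])
    (((rA.2 v O hv (by omega) (by omega) hO).2.1 T T' h0 h0' (root_mem b2)).2.2 ⟨?_, ?_⟩)))
  · have := V2.mul_nu (sub_mem (mul_mem (natCast_mem O 8) (add_mem (th_mem a2) (th_mem b2)))
      (natCast_mem O 14)) k
    convert this using 1
    push_cast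
    linear_combination (th_spec a2).2 - (th_spec b2).2
  · rw [a1, b1, sub_self]
    exact zero_mem _

theorem ac_zero {U : Pt} {B : ℂ} (h : Ac U B) (k : U - 3 • t0 ∈ E1 O) : B + 8 ∈ O.nonunits := by
  rcases h with ⟨e, -⟩ | ⟨e1, e2⟩
  · rw [e, neg_add_cancel]
    exact zero_mem _
  · have h1 := (((rA.2 v O hv (by omega) (by omega) hO).1 _).1 k).resolve_left e1
    have h2 : xc (U - 3 • t0) - 20 ∉ O := fun a => h1 (by
      simpa using add_mem a (natCast_mem O 20))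
    have h3 : xc (U - 3 • t0) - 20 ≠ 0 := fun a => h2 (a ▸ zero_mem _)
    convert V2.mul_nu (neg_mem (natCast_mem O 44)) (O.inv_mem_nonunits_iff.2 (Or.inr h2)) using 1
    field_simp
    push_cast
    linear_combination e2

theorem step {X U z z' T : Pt} (h : Tri X U z z') (t2 : 2 • T = 0) (t1 : T ≠ 0)
    (k1 : X - 3 • t0 - T ∈ E1 O) (k2 : U - 3 • t0 ∈ E1 O) :
    z - 3 • t0 ≠ 0 ∧ xc (z - 3 • t0) ∈ O ∧
      (xc (z - 3 • t0) - 20) * (8 * th (xc T) ^ 2 - 25 * th (xc T) + 24) + 44 ∈ O.nonunits := by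
  obtain ⟨-, A, a, b, c, p0, s1, s2, s3, p1, p2, -⟩ := h
  obtain ⟨x0, x1⟩ := xc_red hv h44 hO t2 t1 k1
  have f := (two_spec t2 t1).2
  obtain ⟨g1, g2⟩ := th_spec f
  have g3 := th_mem (O := O) f
  have x2 := (p0.resolve_left fun e => x0 (by rw [e.2, sub_self])).2
  rw [g2] at x1
  have a1 := ac_zero hv h44 hO p1 k2
  generalize th (xc T) = t at *
  generalize xc (X - 3 • t0) = W at *
  have n44 := small hv h44 hO (c := 44) (by norm_num) le_rfl
  have w1 : W - 20 ∉ O.nonunits := fun e => n44 (by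
    have := V2.mul_nu (add_mem (sub_mem (mul_mem (natCast_mem O 3) (pow_mem g3 2))
      (mul_mem (natCast_mem O 8) g3)) (natCast_mem O 8)) (sub_mem x1 e)
    convert this using 1
    push_cast
    linear_combination (24 * t - 58) * g1)
  obtain ⟨w2, w3⟩ := inv_mem w1
  have mA : A ∈ O := by
    convert sub_mem (mul_mem (neg_mem (natCast_mem O 44)) w3) (natCast_mem O 8) using 1
    field_simp
    push_cast
    linear_combination x2
  have mW : W ∈ O := by
    have h1 : _ ∈ O := O.nonunits_le x1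
    simpa using add_mem h1 (sub_mem (mul_mem (natCast_mem O 8) (pow_mem g3 2))
      (mul_mem (natCast_mem O 14) g3))
  have r : ∀ x : ℂ, (x - a) * (x - b) * (x - c) = 0 → x ∈ O := fun x e =>
    cub_mem (natCast_mem O 4) (neg_mem mA) (natCast_mem O 4) (by
      push_cast; linear_combination e + x ^ 2 * s1 - x * s2 + s3)
  have ma := r a (by ring)
  have mb := r b (by ring)
  have mc := r c (by ring)
  have a0 : a ≠ 0 := fun e => by rw [e] at s3; norm_num at s3
  have b0 : b ≠ 0 := fun e => by rw [e] at s3; norm_num at s3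
  have ea : E11.av a = a - 4 * (b * c) + (b * c) ^ 2 := by
    rw [E11.av, show b * c = -4 / a by field_simp; linear_combination s3]; ring
  have eb : E11.av b = b - 4 * (a * c) + (a * c) ^ 2 := by
    rw [E11.av, show a * c = -4 / b by field_simp; linear_combination s3]; ring
  rw [ea] at a1
  rw [eb] at p2
  have key : b - 4 * (a * c) + (a * c) ^ 2 + 8 - (8 * t ^ 2 - 25 * t + 24) ∈ O.nonunits := by
    lift t to O using g3
    lift W to O using mW
    lift A to O using mA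
    lift a to O using ma
    lift b to O using mb
    lift c to O using mc
    have e0 := (rs_eq (a := W) (b := 8 * t ^ 2 - 14 * t)).2 (by simpa [coe_ofNat] using x1)
    have e1 := congrArg (rs O) (show t ^ 3 - 2 * t ^ 2 + 2 = 0 by exact_mod_cast g1)
    have e2 := congrArg (rs O) (show (W - 20) * (A + 8) = -44 by exact_mod_cast x2)
    have e3 := congrArg (rs O) (show a + b + c = -4 by exact_mod_cast s1)
    have e4 := congrArg (rs O) (show a * b + a * c + b * c = -A by exact_mod_cast s2)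
    have e5 := congrArg (rs O) (show a * b * c = -4 by exact_mod_cast s3)
    have e6 := (rs_eq (a := a - 4 * (b * c) + (b * c) ^ 2) (b := -8)).2 (by simpa [coe_ofNat] using a1)
    simp only [map_add, map_sub, map_mul, map_pow, map_neg, map_ofNat, map_zero, e0]
      at e1 e2 e3 e4 e5 e6
    have e7 := (rs_eq (a := b - 4 * (a * c) + (a * c) ^ 2 + 8) (b := 8 * t ^ 2 - 25 * t + 24)).1 (by
      simp only [map_add, map_sub, map_mul, map_pow, map_ofNat]
      exact fld1 (by exact_mod_cast rs_ne hv hO Nat.prime_two (by omega))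
        (by exact_mod_cast rs_ne hv hO (p := 11) (by norm_num) (by omega)) e1 e2 e3 e4 e5 e6)
    simpa [coe_ofNat] using e7
  generalize b - 4 * (a * c) + (a * c) ^ 2 = B at *
  have u : B + 8 ∉ O.nonunits := fun e => by
    have h1 := V2.mul_nu (add_mem (mul_mem (natCast_mem O 4) g3)
      (mul_mem (natCast_mem O 6) (pow_mem g3 2))) (sub_mem e key)
    refine n44 ?_
    convert h1 using 1
    push_cast
    linear_combination (-48 * t + 22) * g1
  obtain ⟨z0, z1⟩ := p2.resolve_left fun e => u (by rw [e.1, neg_add_cancel]; exact zero_mem _)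
  obtain ⟨u2, u3⟩ := inv_mem u
  have z2 : xc (z - 3 • t0) - 20 ∈ O := by
    convert mul_mem (neg_mem (natCast_mem O 44)) u3 using 1
    field_simp
    push_cast
    linear_combination z1
  refine ⟨z0, by simpa using add_mem z2 (natCast_mem O 20), ?_⟩
  convert neg_mem (V2.mul_nu z2 key) using 1
  linear_combination z1

theorem kum (hφ : Frob O Q φ) (hQ : Q ≠ 0) {η : ℤ} (hη : η = 1 ∨ η = -1) {T T₁ R S : Pt} {s : ℂ}
    (t2 : 2 • T = 0) (t1 : T ≠ 0) (u2 : 2 • T₁ = 0) (u1 : T₁ ≠ 0) (f1 : φ • T = T) (d1 : T₁ ≠ T)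
    (d2 : φ • T₁ ≠ T₁) (aR : AlgP R) (aS : AlgP S) (r0 : R ≠ 0) (r1 : xc R ∈ O)
    (r2 : (xc R - 20) * (8 * th (xc T₁) ^ 2 - 25 * th (xc T₁) + 24) + 44 ∈ O.nonunits)
    (f2 : φ • φ • R = R) (k1 : R + η • φ • R + T - 2 • S ∈ E1 O) (k2 : φ • S - η • S ∈ E1 O)
    (as : IsAlgebraic ℚ s) (s1 : s ^ 2 - 2 * (18 - xc T) ∈ O.nonunits) (s2 : φ s = -s) : False := by
  obtain ⟨⟨-, aa, an, ag, ah, hh⟩, -, -, -, -, wa, wg, hk⟩ := rA.1
  have v2 : 2 • φ • T₁ = 0 := by rw [← Fin.sm_n, u2, smul_zero]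
  have v1 : φ • T₁ ≠ 0 := fun e => u1 ((smul_eq_zero' _ _).1 e)
  have d3 : φ • T₁ ≠ T := fun e => d1 (MulAction.injective φ (e.trans f1.symm))
  have fe := (two_spec t2 t1).2
  have pe : φ (xc T) = xc T := by rw [← xc_smul, f1]
  have alg : ∀ {P : Pt}, 2 • P = 0 → IsAlgebraic ℚ (th (xc P)) := fun h => by
    have := (two_alg h).1
    exact ((isAlgebraic_natCast 384).add this |>.sub
      ((isAlgebraic_natCast 2).mul (this.pow 2))).mul (isAlgebraic_natCast 242).inv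
  have r3 := (V2.c2 hφ hQ (((aR.1.sub (isAlgebraic_natCast 20)).mul
    ((((isAlgebraic_natCast 8).mul ((alg u2).pow 2)).sub
      ((isAlgebraic_natCast 25).mul (alg u2))).add (isAlgebraic_natCast 24))).add
        (isAlgebraic_natCast 44))).2.2 r2
  simp only [map_add, map_sub, map_mul, map_pow, map_natCast, th_map, ← xc_smul] at r3
  have r4 : xc (φ • R) ∈ O := by rw [xc_smul]; exact (hφ _ aR.1 r1).1
  obtain ⟨g1, g2⟩ := th_spec fe
  have n1 := th_ne hv h44 hO u2 u1 t2 t1 d1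
  have n2 := th_ne hv h44 hO v2 v1 t2 t1 d3
  have n3 := th_ne hv h44 hO u2 u1 v2 v1 d2.symm
  have m1 := th_mem (O := O) fe
  have m2 := th_mem (O := O) (two_spec u2 u1).2
  have m3 := th_mem (O := O) (two_spec v2 v1).2
  have g3 := (th_spec (two_spec u2 u1).2).1
  have g4 := (th_spec (two_spec v2 v1).2).1
  have me := root_mem (O := O) fe
  have ms : s ∈ O := V2.mem_of_pow two_ne_zero (by
    have h1 : _ ∈ O := O.nonunits_le s1
    simpa using add_mem h1 (mul_mem (natCast_mem O 2) (sub_mem (natCast_mem O 18) me)))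
  have pt : φ (th (xc T)) = th (xc T) := by rw [th_map, pe]
  have at' := alg t2
  generalize th (xc T) = t at *
  generalize th (xc T₁) = a at *
  generalize th (xc (φ • T₁)) = b at *
  have key : (xc R - xc T) * (xc (φ • R) - xc T) * fd (xc T) * s ^ 2 *
      ((2 * t + 3 * t ^ 2) * (3 * t ^ 2 - 8 * t + 8) * (1 - t)) ^ 2 -
      (3872 * (3 - t - 3 * t ^ 2)) ^ 2 ∈ O.nonunits ∧
      2 * (3872 * (3 - t - 3 * t ^ 2)) ∉ O.nonunits := by
    generalize xc R = x at *
    generalize xc (φ • R) = y at *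
    generalize xc T = e at *
    lift t to O using m1
    lift a to O using m2
    lift b to O using m3
    lift x to O using r1
    lift y to O using r4
    lift e to O using me
    lift s to O using ms
    have e1 := congrArg (rs O) (show t ^ 3 - 2 * t ^ 2 + 2 = 0 by exact_mod_cast g1)
    have e2 := congrArg (rs O) (show a ^ 3 - 2 * a ^ 2 + 2 = 0 by exact_mod_cast g3)
    have e3 := congrArg (rs O) (show b ^ 3 - 2 * b ^ 2 + 2 = 0 by exact_mod_cast g4)
    have e4 := congrArg (rs O) (show e = 8 * t ^ 2 - 14 * t by exact_mod_cast g2)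
    have e5 := (rs_eq (a := (x - 20) * (8 * a ^ 2 - 25 * a + 24)) (b := -44)).2 (by simpa [coe_ofNat] using r2)
    have e6 := (rs_eq (a := (y - 20) * (8 * b ^ 2 - 25 * b + 24)) (b := -44)).2 (by simpa [coe_ofNat] using r3)
    have e7 := (rs_eq (a := s ^ 2) (b := 2 * (18 - e))).2 (by simpa [coe_ofNat] using s1)
    simp only [map_add, map_sub, map_mul, map_pow, map_neg, map_ofNat, map_zero]
      at e1 e2 e3 e4 e5 e6 e7
    obtain ⟨c1, c2⟩ := fld2 (by exact_mod_cast rs_ne hv hO Nat.prime_two (by omega))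
      (by exact_mod_cast rs_ne hv hO (p := 7) (by norm_num) (by omega))
      (by exact_mod_cast rs_ne hv hO (p := 11) (by norm_num) (by omega)) e1 e2 e3
      (mt rs_eq.1 n1) (mt rs_eq.1 n2) (mt rs_eq.1 n3) e5 e6 e4
    rw [← e7] at c1
    refine ⟨?_, fun k => c2 ?_⟩
    · have := (rs_eq (a := (x - e) * (y - e) * (3 * e ^ 2 - 8 * e - 160) * s ^ 2 *
        ((2 * t + 3 * t ^ 2) * (3 * t ^ 2 - 8 * t + 8) * (1 - t)) ^ 2)
        (b := (3872 * (3 - t - 3 * t ^ 2)) ^ 2)).1 (by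
          simpa only [map_add, map_sub, map_mul, map_pow, map_ofNat, map_one] using c1)
      simpa [fd, coe_ofNat] using this
    · have := (rs_zero (a := 2 * (3872 * (3 - t - 3 * t ^ 2)))).2 (by simpa [coe_ofNat] using k)
      simpa only [map_add, map_sub, map_mul, map_pow, map_ofNat, map_one] using this
  have aK : IsAlgebraic ℚ (3872 * (3 - t - 3 * t ^ 2)) := (isAlgebraic_natCast 3872).mul
    (((isAlgebraic_natCast 3).sub at').sub ((isAlgebraic_natCast 3).mul (at'.pow 2)))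
  have aL : IsAlgebraic ℚ ((2 * t + 3 * t ^ 2) * (3 * t ^ 2 - 8 * t + 8) * (1 - t)) :=
    ((((isAlgebraic_natCast 2).mul at').add ((isAlgebraic_natCast 3).mul (at'.pow 2))).mul
      ((((isAlgebraic_natCast 3).mul (at'.pow 2)).sub ((isAlgebraic_natCast 8).mul at')).add
        (isAlgebraic_natCast 8))).mul (isAlgebraic_one.sub at')
  have pK : φ (3872 * (3 - t - 3 * t ^ 2)) = 3872 * (3 - t - 3 * t ^ 2) := by
    simp [pt, map_ofNat]
  have pL : φ ((2 * t + 3 * t ^ 2) * (3 * t ^ 2 - 8 * t + 8) * (1 - t)) =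
      (2 * t + 3 * t ^ 2) * (3 * t ^ 2 - 8 * t + 8) * (1 - t) := by simp [pt, map_ofNat]
  generalize 3872 * (3 - t - 3 * t ^ 2) = K at *
  generalize (2 * t + 3 * t ^ 2) * (3 * t ^ 2 - 8 * t + 8) * (1 - t) = L at *
  have xe : xc R ≠ xc T := fun e => key.2 (V2.mul_nu (natCast_mem O 2) (V2.nu_of_pow (n := 2) (by
    simpa [e] using key.1)))
  obtain ⟨R', rfl⟩ := hh R
  obtain ⟨T', rfl⟩ := hh T
  have aR' := ah _ aR
  have aT' := ah _ (two_alg t2)
  have az : ∀ P, AlgP P → AlgP (η • P) := fun P h => by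
    rcases hη with rfl | rfl
    · rwa [one_smul]
    · rw [neg_one_smul]; exact an _ h
  obtain ⟨T'', w2, w1⟩ := two_red hv h44 hO (P := R' + η • φ • R' + T' - S) (by
    convert k1 using 1
    rw [Fin.sm_n]
    generalize φ • R' = p
    module)
  have w3 := ((rA.2 v O hv (by omega) (by omega) hO).2.2.2.1 Q φ _ hφ hQ (by
    rw [sub_eq_add_neg, sub_eq_add_neg]
    exact aa _ _ (aa _ _ (aa _ _ (aa _ _ aR' (az _ (ag _ _ aR'))) aT') (an _ aS))
      (an _ (two_alg w2)))).2 w1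
  have y1 : 2 • (φ • φ • R' - R') = 0 := by
    rw [nsmul_sub, ← Fin.sm_n, ← Fin.sm_n, f2, sub_self]
  have y2 : 2 • (φ • T' - η • T') = 0 := by
    rw [nsmul_sub, ← Fin.sm_n, f1, smul_comm, Fin.sgn_two t2 hη, sub_self]
  have y3 : 2 • φ • T'' = 0 := by rw [← Fin.sm_n, w2, smul_zero]
  have y4 : φ • φ • R' - R' + (φ • T' - η • T') + (φ • T'' + T'') = 0 := by
    refine two_zero hv h44 hO (by rw [nsmul_add, nsmul_add, nsmul_add, y1, y2, y3, w2]; simp) ?_
    have := add_mem (sub_mem w3 (zsmul_mem w1 η)) k2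
    rw [smul_sub, smul_sub, smul_add, smul_add, Fin.sm_z] at this
    convert this using 1
    have b1 := Fin.sgn_two y1 hη
    have b2 := Fin.sgn_two w2 hη
    have b3 : η • η • φ • R' = φ • R' := by rw [smul_smul, Fin.sgn_sq hη, one_smul]
    generalize φ • φ • R' = p1 at *
    generalize φ • R' = p2 at *
    generalize φ • T' = p3 at *
    generalize φ • T'' = p4 at *
    generalize φ • S = p5 at *
    linear_combination (norm := module) y3 - b1 - b2 + b3
  have y5 := congrArg (wl (xc (2 • T'))) y4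
  rw [wa _ _ _ fe (by rw [nsmul_add, y1, y2, add_zero]) (by rw [nsmul_add, y3, w2, add_zero]),
    wa _ _ _ fe y1 y2, wa _ _ _ fe y3 w2, show wl (xc (2 • T')) (φ • T'') = wl (xc (2 • T')) T'' by
      rw [← wg _ φ T'', pe], CharTwo.add_self_eq_zero, add_zero, show wl (xc (2 • T')) 0 = 0 from
      if_pos (Or.inl rfl), CharTwo.add_eq_zero] at y5
  obtain ⟨h₁, -, i1, i2⟩ := hk _ R' fe
  obtain ⟨h₂, -, j1, j2⟩ := hk _ T' fe
  rw [gam, if_neg r0, if_neg xe] at i1
  rw [gam, if_neg t1, if_pos rfl] at j1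
  obtain ⟨i3, i4, i5⟩ := i2 (φ * φ) 1 (by rw [RingAut.mul_apply, pe, pe]) (Or.inl rfl)
    (by rw [mul_smul, f2, one_smul])
  obtain ⟨j3, j4, -⟩ := j2 φ η pe hη (by rw [f1, Fin.sgn_two t2 hη])
  have i6 : φ (φ h₁) = h₁ ↔ φ h₂ = h₂ := by
    rw [j4 (if_pos (Or.inr rfl)), ← y5]
    by_cases c : wl (xc (2 • T')) (2 • R') = 0
    · simpa [mul_smul] using i4 c
    · simpa [mul_smul] using i5 c
  have i7 : φ (φ h₁) * φ h₂ = h₁ * h₂ := by
    by_cases c : φ h₂ = h₂
    · rw [c, i6.2 c]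
    · rw [j3.resolve_left c, show φ (φ h₁) = -h₁ from i3.resolve_left fun e => c (i6.1 e),
        neg_mul_neg]
  have ae := (two_alg t2).1
  have a1 : IsAlgebraic ℚ h₁ := IsAlgebraic.of_pow two_pos (i1 ▸ aR.1.sub ae)
  have a2 : IsAlgebraic ℚ h₂ := IsAlgebraic.of_pow two_pos (j1 ▸
    (((isAlgebraic_natCast 3).mul (ae.pow 2)).sub ((isAlgebraic_natCast 8).mul ae)).sub
      (isAlgebraic_natCast 160))
  refine key.2 (sgn hφ hQ (y := h₁ * φ h₁ * h₂ * s * L)
    ((((a1.mul (V2.alg φ a1)).mul a2).mul as).mul aL) aK ?_ pK ?_)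
  · simp only [map_mul, s2, pL]
    linear_combination -(φ h₁ * s * L) * i7
  · convert key.1 using 2
    rw [show xc (φ • 2 • R') - xc (2 • T') = φ h₁ ^ 2 by
      rw [← map_pow, i1, map_sub, pe, xc_smul], ← i1, ← j1]
    ring

end place

end Pool.Agent.Lib.MP_d6ddbd_nt.KA.XEv
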