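import Pool.Agent.Lib.MP_d6ddbd_nt.KA.StX
import Pool.Agent.Lib.MP_d6ddbd_nt.KA.XEv0
import Pool.Agent.Lib.MP_d6ddbd_nt.KA.QS

/-!
The base of the Heegner system for even twists.
-/

set_option autoImplicit false
set_option maxSynthPendingDepth 3

open Pool.Agent.Lib.MP_02f36d_nt (xc yc)
open Pool.Agent.Lib.MP_d6ddbd_nt.K11
open Pool.Agent.Lib.MP_d6ddbd_nt.KI (vA rA cq rt cq_om cq_mul cq_or cq_of rt_sq alg_add alg_sub
  alg_n alg_neg)
open Pool.Agent.Lib.MP_d6ddbd_nt.E11 (Tri t0 five smul_t0)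

noncomputable section

namespace Pool.Agent.Lib.MP_d6ddbd_nt.KA

namespace XEv

open QS

theorem tri_of {P A B C : Pt} (h : N2 E11.Pp P {A, B, C}) : Tri P A B C := by
  classical
  obtain ⟨L, M, lv, rfl, s, hs, e⟩ := h
  obtain ⟨L₁, m₁, rfl, e₁⟩ := (Multiset.map_eq_cons _ _ _ _).2 e
  obtain ⟨L₂, m₂, rfl, e₂⟩ := (Multiset.map_eq_cons _ _ _ _).2 e₁
  obtain ⟨L₃, m₃, rfl, -⟩ := (Multiset.map_eq_cons _ _ _ _).2 e₂
  obtain ⟨d₃, m₃⟩ := (s.nodup.erase _).mem_erase_iff.1 m₃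
  obtain ⟨d₂, m₃⟩ := s.nodup.mem_erase_iff.1 m₃
  obtain ⟨d₁, m₂⟩ := s.nodup.mem_erase_iff.1 m₂
  exact (E11.tri unif_thm lv ((hs _).1 m₁) ((hs _).1 m₂) ((hs _).1 m₃) d₁.symm d₂.symm d₃.symm).1

theorem seven {t : (ZMod 8)ˣ} (h : ch (-1) t = -1) (h' : ch 2 t = 1) : t = un 7 := by
  rcases cases8 t with rfl | rfl | rfl | rfl
  · rw [ch_one] at h
    omega
  · rw [ch_un (by simp) (by decide)] at h'
    norm_num at h'
  · rw [ch_un (by simp) (by decide)] at h'
    norm_num at h'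
  · rfl

theorem cj_neg : cq (-1) cj = -1 := cq_of (s := Complex.I) (by norm_num) (by simp) (by simp)

theorem cj_two : cq 2 cj = 1 := cq_of (s := (Real.sqrt 2 : ℝ)) (by norm_num)
  (by norm_cast; simp) (by simp)

/-- Points that are doubles of eigenvectors, up to points that reduce to the origin. -/
def Dbl (O : ValuationSubring ℂ) (φ : G) (η : ℤ) : AddSubgroup Pt where
  carrier := {P | ∃ S, AlgP S ∧ P - 2 • S ∈ E1 O ∧ φ • S - η • S ∈ E1 O}
  add_mem' := by
    rintro P P' ⟨S, a, b, c⟩ ⟨S', a', b', c'⟩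
    refine ⟨S + S', alg_add a a', ?_, ?_⟩
    · convert add_mem b b' using 1
      module
    · convert add_mem c c' using 1
      rw [smul_add, smul_add]
      abel
  zero_mem' := ⟨0, KI.alg_zero, by simp, by simp⟩
  neg_mem' := by
    rintro P ⟨S, a, b, c⟩
    refine ⟨-S, alg_neg a, ?_, ?_⟩
    · convert neg_mem b using 1
      module
    · convert neg_mem c using 1
      rw [smul_neg, smul_neg]
      abel

/-- The local computation. -/
theorem loc {q k : ℕ} {O : ValuationSubring ℂ} {ψ φ : G} (hv : q.Prime) (big : 44 < q)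
    (hO : Ov O q) (hG : Gq q) (hψ : Frob O q ψ) (hφ : φ = ψ ^ (2 * k + 1)) {η : ℤ}
    (hη : η = 1 ∨ η = -1) {p U X z z' : Pt} (ap : AlgP p) (aX : AlgP X) (az : AlgP z)
    (e₂ : p + X + φ • X = -(2 • U)) (e₄ : Tri X U z z') (fp : φ • p = p) (fz : φ • φ • z = z)
    (np : p - 3 • t0 ∉ E1 O) (kp : t0 - p - p ∈ E1 O)
    (kX : t0 - X - X ∈ E1 O) (kz : t0 - z' - z ∈ E1 O)
    (hB : z - 3 • t0 + η • φ • (z - 3 • t0) + (p - 3 • t0) ∈ Dbl O φ η) : False := by
  have f5 := five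
  have hF : Frob O (q ^ (2 * k + 1)) φ := hφ ▸ PLoc.frob_pow vA hψ hv.ne_zero _
  have hQ : q ^ (2 * k + 1) ≠ 0 := pow_ne_zero _ hv.ne_zero
  obtain ⟨-, -, -, r4, -, -, -, r8⟩ := rA.2 q O hv (by omega) (by omega) hO
  have a0 : AlgP (3 • t0) := by
    rw [AlgP, E11.three_spec.2.1, E11.three_spec.2.2]
    exact ⟨isAlgebraic_natCast 20, (isAlgebraic_natCast 44).neg⟩
  have s0 : φ • 3 • t0 = 3 • t0 := by rw [Fin.sm_n, smul_t0]
  have red : ∀ Y : Pt, AlgP Y → t0 - Y - Y ∈ E1 O → ∃ T : Pt, 2 • T = 0 ∧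
      Y - 3 • t0 - T ∈ E1 O ∧ φ • Y - 3 • t0 - φ • T ∈ E1 O := fun Y a h => by
    obtain ⟨T, t, u⟩ := two_red hv big hO (P := Y - 3 • t0) (by
      convert neg_mem h using 1
      linear_combination (norm := module) -f5)
    refine ⟨T, t, u, ?_⟩
    simpa only [smul_sub, s0] using (r4 _ φ _ hF hQ (alg_sub (alg_sub a a0) (two_alg t))).2 u
  obtain ⟨T, t2, t3, t4⟩ := red p ap kp
  obtain ⟨T₁, u2, u3, u4⟩ := red X aX kX
  have t1 : T ≠ 0 := fun e => np (by simpa [e] using t3)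
  have f1 : φ • T = T := sub_eq_zero.1 (two_zero hv big hO
    (by rw [nsmul_sub, KI.sm_tor φ t2, t2, sub_self]) (by
      convert sub_mem t3 t4 using 1
      rw [fp]
      abel))
  have kU' : U - 3 • t0 ∈ E1 O := by
    convert add_mem kX kz using 1
    linear_combination (norm := module) e₄.1 - f5
  have v2 := KI.sm_tor φ u2
  have e0 : T + T₁ + φ • T₁ = 0 := two_zero hv big hO
    (by rw [nsmul_add, nsmul_add, t2, u2, v2]; simp) (by
      convert neg_mem (add_mem (add_mem (add_mem t3 u3) u4) (nsmul_mem kU' 2)) using 1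
      generalize φ • X = Y at *
      generalize φ • T₁ = T₂ at *
      linear_combination (norm := module) e₂ - 3 • f5)
  have u1 : T₁ ≠ 0 := fun e => t1 (by simpa [e] using e0)
  have d1 : T₁ ≠ T := fun e => t1 (by
    rw [e, f1] at e0
    linear_combination (norm := module) e0 - t2)
  have d2 : φ • T₁ ≠ T₁ := fun e => t1 (by
    rw [e] at e0
    linear_combination (norm := module) e0 - u2)
  obtain ⟨r0, r1, r2⟩ := step hv big hO e₄ u2 u1 u3 kU'
  obtain ⟨S, aS, k1, k2⟩ := hB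
  have fe := (two_spec t2 t1).2
  have g1 : ψ • T = T := by
    have h := ((r8 ψ hψ).2.1.1 hG.1).1
    have : ∀ n : ℕ, (ψ ^ (2 * n + 1)) • T = ψ • T := fun n => by
      induction n with
      | zero => rw [mul_zero, zero_add, pow_one]
      | succ n ih =>
        rw [show 2 * (n + 1) + 1 = 2 * n + 1 + 1 + 1 by ring, pow_succ, pow_succ, mul_smul, mul_smul,
          h T t2, ih]
    rw [← this k, ← hφ, f1]
  obtain ⟨n, hn⟩ := Cheb.exists_int hv hO hψ (two_alg t2).1 (root_mem fe)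
    (by rw [← xc_smul, g1])
  have : Fact q.Prime := ⟨hv⟩
  have n1 : (q : ℤ) ∣ fc n := by
    by_contra c
    refine V2.int_not hv hO c ?_
    have m := root_mem (O := O) fe
    have mn := intCast_mem O n
    convert V2.mul_nu (sub_mem (sub_mem (add_mem (add_mem (pow_mem mn 2) (mul_mem mn m))
      (pow_mem m 2)) (mul_mem (natCast_mem O 4) (add_mem mn m))) (natCast_mem O 160)) hn using 1
    rw [fc] at fe ⊢
    push_cast
    linear_combination fe
  have n2 := hG.2 n (by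
    have := (ZMod.intCast_zmod_eq_zero_iff_dvd _ q).2 n1
    simpa [fc] using this)
  have n3 : jacobiSym (2 * (18 - n)) q = -1 := ZMod.nonsquare_iff_jacobiSym_eq_neg_one.2 (by
    simpa using n2)
  have n4 : ¬ (q : ℤ) ∣ 2 * (18 - n) := fun c => n2 (by
    have := (ZMod.intCast_zmod_eq_zero_iff_dvd _ q).2 c
    push_cast at this
    rw [this]
    exact IsSquare.zero)
  refine kum hv big hO hF hQ hη (s := rt (2 * (18 - n))) t2 t1 u2 u1 f1 d1 d2 (alg_sub az a0) aS
    r0 r1 r2 (by rw [smul_sub, smul_sub, s0, s0, fz]) ?_ k2 (KI.rt_alg _) ?_ ?_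
  · convert sub_mem k1 t3 using 1
    abel
  · convert V2.mul_nu (neg_mem (natCast_mem O 2)) hn using 1
    rw [rt_sq]
    push_cast
    ring
  · rw [hφ]
    exact PLoc.pow_neg (by rw [V2.c9 hv (by omega) n4 hO hψ (rt_sq _), n3]; simp) ⟨k, rfl⟩

end XEv

open XEv QS in
/-- The base of the system for even twists. -/
theorem xev_thm : XEvStmt := by
  intro a t0' hX _ q _ hq h8 b r δ N P hb _ hN hP hδ hG s X hs aX hσ hsum
  obtain ⟨M, lv, p⟩ := Base.cm11 rA.1 hX
  obtain rfl : t0' = t0 := sub_left_injective ((hX.fricke _ _ lv).symm.trans (E11.pp_fricke lv))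
  have hv := hq.pr
  have big := hq.big
  have f5 := five
  obtain ⟨O, hO⟩ := KI.ex_ov hv
  obtain ⟨ι, i1, i2⟩ := KI.ex_ine_om hv hO
  have n := fun (σ : G) (c : σ (om q) ≠ om q) =>
    (cq_or (-q) σ).resolve_left fun e => c (cq_om.1 e)
  obtain ⟨ψ, f1, f2⟩ : ∃ φ : G, Frob O q φ ∧ φ (om q) = om q := by
    obtain ⟨φ, f⟩ := KI.ex_frob hv hO
    by_cases c : φ (om q) = om q
    · exact ⟨φ, f, c⟩
    · exact ⟨φ * ι, KI.frob_ine f i1, cq_om.1 (by rw [cq_mul, n _ c, n _ i2]; rfl)⟩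
  obtain ⟨⟨k, hk⟩, pic⟩ := pic_thm q hv big
  obtain ⟨φ, hφ⟩ : ∃ φ, φ = ψ ^ (2 * k + 1) := ⟨_, rfl⟩
  have f3 : φ (om q) = om q := hφ ▸ PLoc.pow_fix f2 _
  have f4 : ar q 1 φ = 1 := by
    rw [hφ, PLoc.ar_pow pic_thm hv big one_ne_zero f2, ← hk]
    exact pow_card_eq_one'
  have nd : ∀ c : ℤ, c = -1 ∨ c = 2 → ¬ (q : ℤ) ∣ c := fun c h d => by
    have := Int.natAbs_le_of_dvd_ne_zero d (by omega)
    omega
  have oq : Odd q := Nat.odd_iff.2 (by omega)
  have c0 : ∀ c : ℤ, c = -1 ∨ c = 2 → cq c φ = jacobiSym c (q % (4 * c.natAbs)) := fun c h => by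
    have e : cq c ψ = jacobiSym c q :=
      cq_of (by omega) (rt_sq c) (V2.c9 hv (by omega) (nd c h) hO f1 (rt_sq c))
    rw [hφ, KI.cq_pow, ← jacobiSym.mod_right c oq, ← e, pow_succ, pow_mul, sq, KI.cq_sq, one_pow,
      one_mul]
  have n7 : N (ar q 8 φ) = un 7 := seven
    (by rw [ch, ← hN.ar _ _ (by simp) f3, c0 _ (by simp),
      show q % (4 * (-1 : ℤ).natAbs) = 3 from hq.m4]; norm_num)
    (by rw [ch, ← hN.ar _ _ (by simp) f3, c0 _ (by simp),
      show q % (4 * (2 : ℤ).natAbs) = 7 from h8]; norm_num)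
  have g : (ι * cj) (om q) = om q := by
    have c : cj (om q) ≠ om q := fun c => by
      have := congrArg Complex.im c
      rw [cj_apply, Complex.conj_im] at this
      linarith [om_im hv.ne_zero]
    exact cq_om.1 (by rw [cq_mul, n _ i2, n _ c]; rfl)
  have m7 : N (ar q 8 (ι * cj)) = un 7 := seven
    (by rw [ch, ← hN.ar _ _ (by simp) g, cq_mul, cj_neg,
      KI.cq_ine hv (by omega) hO (nd _ (by simp)) i1, one_mul])
    (by rw [ch, ← hN.ar _ _ (by simp) g, cq_mul, cj_two,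
      KI.cq_ine hv (by omega) hO (nd _ (by simp)) i1, one_mul])
  have aφ : ∀ i x t, i ∣ 8 → φ • P 1 i x t = P 1 i x (un 7 * t) := fun i x t hi => by
    rw [hP.act 1 i x t φ ok_one hi f3, f4, n7, one_mul]
  generalize hc : ar q 1 (ι * cj) * lam q 1 11 (1 - b) = c
  have aι : ∀ i x t, i ∣ 8 → ι • P 1 i x t = t0 - P 1 i (c * x⁻¹) (un 5 * t) := fun i x t hi => by
    rw [← mul_one ι, ← cj_mul_cj, ← mul_assoc, mul_smul, hP.conj0 1 i x t ok_one hi (by decide),
      smul_sub, smul_t0, hP.act 1 i _ _ _ ok_one hi g, m7, ← mul_assoc, ← mul_assoc, hc, m73]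
  have ine := fun Y => (rA.2 q O hv (by omega) (by omega) hO).2.2.1 ι Y i1
  have al := fun i x t hi => hP.alg 1 i x t ok_one hi
  have p1 := fun x t => (hP.per 1 x t ok_one).1
  have p2 := fun x t => (hP.per 1 x t ok_one).2.1
  have p5 : ∀ x, P 1 4 x (un 5) = P 1 4 x 1 := fun x => by
    simpa using (hP.per 1 x 1 ok_one).2.2
  have p7 : ∀ x, P 1 4 x (un 7) = P 1 4 x (un 3) := fun x => by
    simpa [m53] using (hP.per 1 x (un 3) ok_one).2.2
  have e1 : ∀ x, Tri (P 1 4 x 1) (P 1 2 x 1) (P 1 8 x 1) (P 1 8 x (un 5)) := fun x => by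
    simpa using tri_of (hP.two4 1 x 1 ok_one)
  have e3 := fun x => (tri_of (hP.two4 1 x (un 3) ok_one)).1
  simp only [m53] at e3
  obtain ⟨D, hD⟩ : ∃ D : Pic q 1 → Pt, ∀ x, D x =
    P 1 8 x 1 + P 1 8 x (tz δ) + P 1 4 x 1 + P 1 4 x (un 3) + P 1 2 x 1 := ⟨_, fun _ => rfl⟩
  have hη : cq δ φ = ch δ (un 7) := by rw [hN.ar _ _ (by tauto) f3, n7, ch]
  rw [ch_un (by tauto) (by decide)] at hη
  have aD : ∀ x, AlgP (D x) := fun x => hD x ▸ alg_add (alg_add (alg_add (alg_add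
    (al _ _ _ (by decide)) (al _ _ _ (by decide))) (al _ _ _ (by decide))) (al _ _ _ (by decide)))
    (al _ _ _ (by decide))
  have d1 : ∀ x, φ • D x = cq δ φ • D x := fun x => by
    have a1 := (e1 x).1
    have a3 := e3 x
    simp only [hD, smul_add, hη]
    rw [aφ _ _ _ (by decide), aφ _ _ _ (by decide), aφ _ _ _ (by decide), aφ _ _ _ (by decide),
      aφ _ _ _ (by decide), p2]
    rcases hδ with rfl | rfl <;> norm_num [tz, m77, m73, p5, p7]
    · abel
    · linear_combination (norm := module) a1 + a3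
  have d2 : ∀ x, ι • D x = D (c * x⁻¹) := fun x => by
    have a1 := (e1 (c * x⁻¹)).1
    have a3 := e3 (c * x⁻¹)
    simp only [hD, smul_add]
    rw [aι _ _ _ (by decide), aι _ _ _ (by decide), aι _ _ _ (by decide), aι _ _ _ (by decide),
      aι _ _ _ (by decide), p2]
    rcases hδ with rfl | rfl <;> norm_num [tz, m57, m53, p5, p7] <;>
      linear_combination (norm := module) f5 - a1 - a3
  obtain ⟨x, e, u⟩ := Base.sum_inv ⟨k, hk⟩ c s hs
    (fun x => QuotientAddGroup.mk' (Dbl O φ (cq δ φ)) (D x)) fun x => by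
      rw [← map_add, QuotientAddGroup.mk'_apply, QuotientAddGroup.eq_zero_iff]
      refine ⟨D x, aD x, ?_, by rw [d1, sub_self]; exact zero_mem _⟩
      convert ine _ (aD x) using 1
      rw [d2]
      module
  have hs' : ∑ x ∈ s, D x ∈ Dbl O φ (cq δ φ) := by
    refine ⟨X - 2 • ∑ x ∈ s, D x, alg_sub aX (alg_n 2 ((KK.AlgS rA.1).sum_mem fun x _ => aD x)),
      ?_, ?_⟩
    · have : ∑ x ∈ s, Qd δ P 1 x = 5 • ∑ x ∈ s, D x := by
        rw [Finset.smul_sum]
        exact Finset.sum_congr rfl fun x _ => by rw [Qd, if_neg (by omega), if_neg (by omega), hD]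
      convert zero_mem (E1 O)
      linear_combination (norm := module) hsum - this
    · convert zero_mem (E1 O)
      rw [smul_sub, hσ φ f3, Fin.sm_n, Finset.smul_sum, Finset.sum_congr rfl fun x _ => d1 x,
        ← Finset.smul_sum]
      module
  rw [← map_sum, QuotientAddGroup.mk'_apply, (QuotientAddGroup.eq_zero_iff _).2 hs', eq_comm,
    QuotientAddGroup.mk'_apply, QuotientAddGroup.eq_zero_iff] at u
  have kk : ∀ i t, i ∣ 8 → t0 - P 1 i x (un 5 * t) - P 1 i x t ∈ E1 O := fun i t hi => by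
    have := ine _ (al i x t hi)
    rwa [aι _ _ _ hi, e] at this
  have k1 := kk 1 1 (by decide)
  have k4 := kk 4 1 (by decide)
  have k8 := kk 8 1 (by decide)
  have k3 := kk 8 (un 3) (by decide)
  rw [p1] at k1
  rw [mul_one] at k8
  rw [mul_one, p5] at k4
  rw [m53] at k3
  have x3 : φ • P 1 4 x 1 = P 1 4 x (un 3) := by rw [aφ _ _ _ (by decide), mul_one, p7]
  have e2 := (tri_of (hP.two2 1 x ok_one)).1
  have np : P 1 1 x 1 - 3 • t0 ∉ E1 O := fun h => by
    obtain ⟨l, -, -, -, m⟩ := (pic 1 one_ne_zero).2.1 x _ (cl_out x)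
    rw [hP.one] at h
    exact g2All q O _ hv big hq.m4 hO l ((m _).2 (Oc_one q ▸ MP_9177b7_ag.CM.right_mem_sp _ _))
      (hX.jc q O _ _ _ _ hv big hO
        ((galAll _ a _ hX q hv big b 1 hb one_ne_zero (by norm_num) x).1 _ (cl_out x)).1 lv p h)
  refine loc hv big hO hG f1 hφ (cq_or δ φ) (al 1 x 1 (by decide)) (al 4 x 1 (by decide))
    (al 8 x 1 (by decide)) (x3 ▸ e2) (e1 x) (by rw [aφ _ _ _ (by decide), p1])
    (by rw [aφ _ _ _ (by decide), aφ _ _ _ (by decide), ← mul_assoc, m77, one_mul]) np k1 k4 k8 ?_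
  obtain ⟨S, aS, s1, s2⟩ := u
  refine ⟨S, aS, ?_, s2⟩
  have a1 := (e1 x).1
  rw [hD] at s1
  rw [smul_sub, Fin.sm_n, smul_t0, aφ _ _ _ (by decide), mul_one, hη]
  rcases hδ with rfl | rfl
  · convert add_mem (sub_mem (add_mem s1 k4) k1) k8 using 1
    norm_num [tz]
    linear_combination (norm := module) a1 - e2 - 2 • f5
  · convert add_mem (add_mem (sub_mem (add_mem s1 k4) k1) k8) k3 using 1
    norm_num [tz]
    linear_combination (norm := module) a1 - e2 - f5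

end Pool.Agent.Lib.MP_d6ddbd_nt.KA
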