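import Pool.Agent.Lib.MP_d6ddbd_nt.KA.All0
import Pool.Agent.Lib.MP_d6ddbd_nt.KA.Asw01
import Pool.Agent.Lib.MP_d6ddbd_nt.KA.XEv

/-!
The two-converse for all quadratic twists of `X₀(11)`, without hypotheses.
-/

set_option autoImplicit false

namespace Pool.Agent.Lib.MP_d6ddbd_nt.KA

theorem mainAll : MainStmt :=
  main_of (asw0_thm const_thm la1All la2All chebAAll) (asw1_thm const_thm la1All la2All chebAAll)
    xev_thm

end Pool.Agent.Lib.MP_d6ddbd_nt.KA
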