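import Pool.Agent.Lib.MP_d6ddbd_nt.KI.Stmt
import Pool.Agent.Lib.MP_d6ddbd_nt.K11.StP

/-!
The two-converse for all quadratic twists of `X₀(11)`: definitions.
-/

set_option autoImplicit false

open NumberField IsDedekindDomain Pointwise
open Pool.Agent.Lib.MP_02f36d_nt (xc yc)
open Pool.Agent.Stark (Pr og hq LSq pw SqCl cl)
open Pool.Agent.Lib.MP_9177b7_ag.CM (IsLat sp Conj jL g2 g3)
open Pool.Agent.Lib.MP_d6ddbd_nt.K11
open Pool.Agent.Lib.MP_d6ddbd_nt.KI (rt cq tw Cy Cb Kl Sel Hm Wq Gp KolI KnI Pn AtK Y0 Two BC rep)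

noncomputable section

namespace Pool.Agent.Lib.MP_d6ddbd_nt.KA

/-! ### The twisting number -/

/-- The part of `d` at `11`. -/
def ee (d : ℤ) : ℤ := if (11 : ℤ) ∣ d then -11 else 1

/-- The decomposition of `d`. -/
structure TD (d δ c : ℤ) : Prop where
  fam : Fam c
  dl : δ = 1 ∨ δ = -1 ∨ δ = 2 ∨ δ = -2
  eq : d = δ * ee d * c

/-- The twist has four components at `11`. -/
def rx (d : ℤ) : Prop := (11 : ℤ) ∣ d ∧ jacobiSym (d / -11) 11 = -1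

open Classical in
/-- The weight of the prime `11`. -/
def eps (d : ℤ) : ℕ := if (11 : ℤ) ∣ d then if rx d then 2 else 1 else 0

/-- The total weight. -/
def TT (d c : ℤ) : ℕ := tt c + eps d

/-- The root number. -/
def wA (d : ℤ) : ℤ := if (11 : ℤ) ∣ d then -d.sign else jacobiSym d.natAbs 11

/-- The excluded twists. -/
def Blk (d : ℤ) : Prop := rx d ∧ Odd d ∧ ∀ l : ℕ, l.Prime → (l : ℤ) ∣ d → l ≠ 11 →
  ∀ x : ZMod l, fc x = 0 → IsSquare (11 * fd x)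

/-- The twist on which the class of conductor `n` lives. -/
def twA (q : ℕ) (d : ℤ) (n : Finset ℕ) : ℤ :=
  if wA d * (-1) ^ n.card = -1 then d else -(q * d)

/-- The Kummer condition outside `n`. -/
def Ku (c : ℤ) (n : Finset ℕ) (x : G → Pt) : Prop :=
  ∀ (v : ℕ) O, v.Prime → v ∉ n → Ov O v → Kl c O v x

/-! ### The cubic field -/

section Cubic

variable {L : Type} [Field L] [NumberField L]

/-- The class of a rational point of the twist by `2`. -/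
def gm2 (θ : L) : L := 2 * (18 - θ)

/-- The class that dies on the field of the points of order four. -/
def al0 (θ : L) : L := 11 * fd θ

/-- The Hilbert pairing at `2`. -/
def h2 (α α' : L) : ZMod 2 := ∑ 𝔭 ∈ ab L 2, hq 𝔭 α α'

/-- The condition at `2` for the twist by `d`. -/
def A2 (θ : L) (d : ℤ) (α : L) : Prop := (Odd d → At2 α) ∧ (Even d → h2 α (gm2 θ) = 0)

variable (L) in
/-- The ramified prime above `11`. -/
def E2 : Finset (Pr L) := (ab L 11).filter fun 𝔮 => og 𝔮 (11 : L) = 2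

/-- The ramified coordinate at `11`. -/
def a11 (α : L) : ZMod 2 := ∑ 𝔮 ∈ E2 L, (og 𝔮 α : ZMod 2)

/-- The second coordinate at `11`. -/
def b11 (θ α : L) : ZMod 2 := ∑ 𝔮 ∈ E2 L, hq 𝔮 α (fd θ)

/-- Classes with the condition at `2`, unramified outside `c` and `B`. -/
structure Wa (θ : L) (d c : ℤ) (B : Finset ℕ) (α : L) : Prop where
  ne : α ≠ 0
  sq : IsSquare (Algebra.norm ℚ α)
  two : A2 θ d α
  ev : ∀ p : ℕ, p.Prime → ¬ (p : ℤ) ∣ c → p ∉ B → ∀ 𝔭 ∈ ab L p, Even (og 𝔭 α)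

/-- The space of these classes. -/
def WA (θ : L) (d c : ℤ) (B : Finset ℕ) : Submodule (ZMod 2) (SqCl L) :=
  Submodule.span (ZMod 2) (cl '' {α : L | Wa θ d c B α})

open Classical in
/-- The set `B`, with `11` added when the Kummer condition at `11` is ramified. -/
def Bx (d : ℤ) (B : Finset ℕ) : Finset ℕ := if rx d then insert 11 B else B

/-- Selmer classes, relaxed at `B`. -/
structure Sc (θ : L) (d c : ℤ) (B : Finset ℕ) (α : L) : Prop where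
  wa : Wa θ d c (Bx d B) α
  bv : ∀ 𝔭 ∈ D1 L c, bv θ d 𝔭 α = 0
  el : rx d → b11 θ α = 0

/-- The strict Selmer classes of level one. -/
structure Yn (θ : L) (q : ℕ) (d c : ℤ) (n : Finset ℕ) (α : L) : Prop where
  sc : Sc θ d c n α
  fp : ∀ p ∈ n, fv p α = 0
  fq : fv q α = 0

/-- Core vertices. -/
def Core (θ : L) (q : ℕ) (d c : ℤ) (n : Finset ℕ) : Prop := ∀ α, Yn θ q d c n α → IsSquare α

/-- The number of strict classes. -/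
def yn (θ : L) (q : ℕ) (d c : ℤ) (n : Finset ℕ) : ℕ := (cl '' {α | Yn θ q d c n α}).ncard

/-- The hypotheses on `q`. -/
structure QA (θ : L) (q : ℕ) (c : ℤ) : Prop where
  qd : QD q c
  m8 : q % 8 = 7
  fg : fv q (gm2 θ) = 1
  fa : fv q (al0 θ) = 1

/-- The class `al0` does not satisfy the Kummer conditions outside `n`. -/
def Nv (θ : L) (c : ℤ) (n : Finset ℕ) : Prop := ∀ (α : L) ξ, α ≠ 0 →
  IsSquare (Algebra.norm ℚ α) → Coc ξ → Kum θ α ξ → Ku c n ξ → ¬ IsSquare (α * al0 θ)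

/-- The classes of level `k`, with their Selmer properties. -/
structure KY (θ : L) (q : ℕ) (d c : ℤ) (k s m : ℕ) (W : Finset ℂ) (x : Finset ℕ → G → Pt) :
    Prop where
  cy : ∀ n, KnI m q c n → Cy (twA q d n) k (x n)
  sel : ∀ n, KnI m q c n → (∀ p ∈ n, Gp W p) → Sel (twA q d n) k n (2 • x n)
  atp : AtK m q c x
  core : ∀ n, KnI m q c n → Core θ q d c n →
    (∀ σ, 2 ^ (s + 1) • x n σ = 0) ∧ ¬ Cb (twA q d n) (2 ^ s • x n)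
  bot : ∃ S, AlgP S ∧ ∀ σ, x ∅ σ = tw (twA q d ∅) σ S - S

/-- The system of classes in the cubic field. -/
structure KL (θ : L) (q : ℕ) (d c : ℤ) (m M : ℕ) (α : Finset ℕ → ℕ → L) : Prop where
  mem : ∀ n j, KnI m q c n → Wa θ d c (Bx d (insert q n)) (α n j)
  top : ∀ n j, M < j → IsSquare (α n j)
  ne : ∃ n j, KnI m q c n ∧ ¬ IsSquare (α n j)
  b0 : ∀ n, KnI m q c n → ∀ 𝔭 ∈ D1 L c, bv θ d 𝔭 (α n 0) = 0
  ab : ∀ n j, KnI m q c n → ∀ 𝔭 ∈ D1 L c, av 𝔭 (α n j) = bv θ d 𝔭 (α n (j + 1))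
  fp : ∀ n j, KnI m q c n → ∀ p ∈ n, fv p (α n j) = 0
  sp : ∀ n j p, KnI m q c n → KolI m q c p → p ∉ n → sv p (α (insert p n) j) = fv p (α n j)
  e1 : ∀ n, KnI m q c n → rx d → b11 θ (α n 0) = 0 ∧ b11 θ (α n 1) = a11 (α n 0) ∧
    ∀ j, b11 θ (α n (j + 2)) = a11 (α n (j + 1)) + a11 (α n j)
  e0 : ∀ n, KnI m q c n → (11 : ℤ) ∣ d → ¬ rx d →
    ∑ j ∈ Finset.range (M + 1), b11 θ (α n j) = 0

end Cubic

/-- The class `y` on the twist by `d`, zero on the other twist. -/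
def yy (q : ℕ) (d : ℤ) (n : Finset ℕ) (y : G → Pt) : G → Pt := if twA q d n = d then y else 0

/-- `2 ^ a x(n)` is a multiple of `y`. -/
def Rl (q : ℕ) (d : ℤ) (x : Finset ℕ → G → Pt) (y : G → Pt) (n : Finset ℕ) (a : ℕ) : Prop :=
  ∃ u : ℤ, Cb (twA q d n) (2 ^ a • x n - u • yy q d n y)

/-! ### Local conditions for points -/

/-- On the inertia group the cocycle is the twisted Kummer cocycle of an invariant point. -/
def UnT (d : ℤ) (O : ValuationSubring ℂ) (ξ : G → Pt) : Prop :=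
  ∃ S : Pt, AlgP S ∧ ∀ σ : G, Frob O 1 σ → tw d σ (2 • S) = 2 • S ∧ ξ σ = tw d σ S - S

/-- Points on which inertia acts through the character of `-11`. -/
def An (O : ValuationSubring ℂ) (R : Pt) : Prop :=
  AlgP R ∧ ∀ σ : G, Frob O 1 σ → σ • R = cq (-11) σ • R

/-- The group of components at `11` of the ramified twist. -/
structure G4 (O : ValuationSubring ℂ) (φ : G) (S4 : Pt) (κ : Pt → ZMod 4) : Prop where
  an : An O S4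
  four : 4 • S4 = 0
  one : κ S4 = 1
  fr : φ • S4 = -S4
  add : ∀ R R', An O R → An O R' → κ (R + R') = κ R + κ R'
  neg : ∀ R, An O R → An O (φ • R) ∧ κ (φ • R) = -κ R
  half : ∀ R, An O R → κ R = 0 → ∃ R', An O R' ∧ κ R' = 0 ∧ R = 2 • R'
  inj : ∀ T, An O T → 2 • T = 0 → κ T = 0 → T = 0

open Classical in
/-- The local shape at `11` of a cocycle, with its two coordinates. -/
def L11 (d : ℤ) (O : ValuationSubring ℂ) (φ : G) (ξ : G → Pt) (a b : ZMod 2) : Prop :=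
  ∃ S T : Pt, 8 • S = 0 ∧ 2 • T = 0 ∧
    (∀ σ : G, Frob O 1 σ → tw d σ (2 • S) = 2 • S ∧ ξ σ = tw d σ S - S ∧ σ • T = T) ∧
    tw d φ (2 • S) = 2 • S ∧ ξ φ = tw d φ S - S + T ∧ (a = 0 ↔ 4 • S = 0) ∧
    b = (if T = 0 then 0 else 1) + if cq d φ = 1 ∧ 2 • S ≠ 0 then 1 else 0

/-- The first coordinate on the minimal model `y ^ 2 + y = x ^ 3 - x ^ 2 - 10 x - 20`. -/
def mx (P : Pt) : ℂ := xc P / 4

/-- The second coordinate on the minimal model. -/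
def my (P : Pt) : ℂ := (yc P - 4) / 8

/-- The parameter of the formal group. -/
def zz (P : Pt) : ℂ := -mx P / my P

/-- The points that reduce to the origin on the minimal model. -/
def F1 (O : ValuationSubring ℂ) (P : Pt) : Prop := P = 0 ∨ mx P ∉ O

/-- The points with integral coordinates on the minimal model. -/
def In (O : ValuationSubring ℂ) (P : Pt) : Prop := P ≠ 0 ∧ mx P ∈ O

/-- Divisibility in `O`. -/
def Dv (O : ValuationSubring ℂ) (t x : ℂ) : Prop := ∃ u ∈ O, x = t * u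

/-- `P'` reduces to the image of `P` by the Frobenius map in characteristic two. -/
def Fr (O : ValuationSubring ℂ) (P P' : Pt) : Prop :=
  mx P' - mx P ^ 2 ∈ O.nonunits ∧ my P' - my P ^ 2 ∈ O.nonunits

/-- Functions that behave like integral polynomials in the coordinates. -/
def Pl (O : ValuationSubring ℂ) (E : Pt → ℂ) : Prop := (∀ P, In O P → E P ∈ O) ∧
  ∀ P P', In O P → In O P' → Dv O 2 (mx P - mx P') → Dv O 2 (my P - my P') → Dv O 2 (E P - E P')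

/-- The points attached to the neighbours of index `l`. -/
def Nbs (Pp : Submodule ℤ ℂ → Submodule ℤ ℂ → Pt) (l : ℕ) (L M : Submodule ℤ ℂ)
    (m : Multiset Pt) : Prop :=
  ∃ s : Finset (Submodule ℤ ℂ), (∀ L', L' ∈ s ↔ Nb l L L') ∧
    s.val.map (fun L' => Pp L' (L' ⊔ (l : ℂ) • M)) = m

/-- The multiset `m` consists of the three neighbours of `P` at `2`. -/
def N2 (Pp : Submodule ℤ ℂ → Submodule ℤ ℂ → Pt) (P : Pt) (m : Multiset Pt) : Prop :=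
  ∃ L M, Lv L M ∧ Pp L M = P ∧ Nbs Pp 2 L M m

/-- The points that are deep in the formal group at `2`. -/
def Dp (O : ValuationSubring ℂ) (R : Pt) : Prop := R = 0 ∨ (xc R ≠ 0 ∧ (4 * xc R)⁻¹ ∈ O)

/-- No rational point of the twist by `-q` is deep at `2` and integral at `q`. -/
def NDq (q : ℕ) : Prop := ∀ X Y : ℚ, -(q : ℚ) * Y ^ 2 = fc X → X ≠ 0 → 0 ≤ padicValRat q X →
  -2 < padicValRat 2 X

/-- The class `gm2` is not a square at the prime of degree one above `q`. -/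
def Gq (q : ℕ) : Prop := nr q = 1 ∧ ∀ x : ZMod q, fc x = 0 → ¬ IsSquare (2 * (18 - x))

/-! ### The modular parametrisation -/

/-- Integrality at `2`. -/
def PInt (Pp : Submodule ℤ ℂ → Submodule ℤ ℂ → Pt) : Prop :=
  ∀ O L M, Ov O 2 → Lv L M → jL L ∈ O → In O (Pp L M)

/-- The Hecke correspondence at `2`, modulo `4`. -/
def PTwo (Pp : Submodule ℤ ℂ → Submodule ℤ ℂ → Pt) : Prop :=
  ∀ O, Ov O 2 → ∃ e₁ e₂ : Pt → ℂ, Pl O e₁ ∧ Pl O e₂ ∧ ∀ L M, Lv L M → In O (Pp L M) →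
    ∃ P₀ P₁ P₂, Nbs Pp 2 L M {P₀, P₁, P₂} ∧ In O P₀ ∧ In O P₁ ∧ In O P₂ ∧
      Fr O (Pp L M) P₀ ∧ Fr O P₁ (Pp L M) ∧ Fr O P₂ (Pp L M) ∧
      mx P₀ + mx P₁ + mx P₂ = mx (Pp L M) ^ 2 + 2 * e₁ (Pp L M) ∧
      mx P₀ * mx P₁ + mx P₀ * mx P₂ + mx P₁ * mx P₂ = mx (Pp L M) + 2 * e₂ (Pp L M)

/-- The trace to level one is constant. -/
def PEl (Pp : Submodule ℤ ℂ → Submodule ℤ ℂ → Pt) : Prop :=
  ∃ C : Pt, 5 • C = 0 ∧ ∀ (L₀ : Submodule ℤ ℂ) (s : Finset (Submodule ℤ ℂ)), IsLat L₀ →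
    (∀ L', L' ∈ s ↔ Nb 11 L₀ L') → ∑ L' ∈ s, Pp L' L₀ = C

/-! ### Heegner points -/

/-- The hypotheses on an auxiliary prime `r`. -/
structure RD (q : ℕ) (c : ℤ) (K r : ℕ) : Prop where
  pr : r.Prime
  n2 : r ≠ 2
  n11 : r ≠ 11
  nq : r ≠ q
  nd : ¬ (r : ℤ) ∣ c
  dv : 2 ^ K ∣ r + 1
  inert : ¬ Spl q r
  ty : nr r = 0
  el : jacobiSym 11 r = -1

open Classical in
/-- The class modulo `8` of an odd number. -/
def un (l : ℕ) : (ZMod 8)ˣ := if h : l.Coprime 8 then ZMod.unitOfCoprime l h else 1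

/-- Odd squarefree conductors. -/
def Ok (n : ℕ) : Prop := Squarefree n ∧ Odd n

/-- Admissible exponents. -/
def AdA (q : ℕ) (k : ℕ → ℕ) : Prop := ∀ l, k l ≠ 0 → l.Prime ∧ l ≠ 2 ∧ l ≠ q ∧
  (Spl q l → 2 ^ k l ∣ l - 1) ∧ (¬ Spl q l → 2 ^ k l ∣ l + 1)

section Pic

variable {q : ℕ} [Fact (q % 4 = 3)]

/-- The norm character of the class group of conductor `8`. -/
structure NN (N : Pic q 8 →* (ZMod 8)ˣ) : Prop where
  kp : ∀ π (n : ℤ), Cop q 8 π → Complex.normSq π = n → ((N (kp q 8 π) : (ZMod 8)ˣ) : ZMod 8) = n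
  lam : ∀ (l : ℕ) (r : ℤ), l.Prime → l ≠ 2 → l ≠ q → Rt q l r → N (lam q 8 l r) = un l
  ar : ∀ (δ : ℤ) (σ : G), (δ = 1 ∨ δ = -1 ∨ δ = 2 ∨ δ = -2) → σ (om q) = om q →
    cq δ σ = jacobiSym δ ((N (ar q 8 σ) : (ZMod 8)ˣ) : ZMod 8).val
  lift : ∀ n : ℕ, Odd n → ∀ (x : Pic q n) (t : (ZMod 8)ˣ),
    ∃! y : Pic q (8 * n), res n y = x ∧ N (res 8 y) = t
  ker : ∀ n : ℕ, Odd n → ∀ y y' : Pic q (8 * n), res n y = res n y' →
    res (2 * n) y = res (2 * n) y' ∧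
    (res (4 * n) y = res (4 * n) y' ↔ N (res 8 y') = N (res 8 y) ∨ N (res 8 y') = un 5 * N (res 8 y))

/-- The level structure, also for conductors divisible by `11`. -/
def lvA (q c : ℕ) (b : ℤ) (L : Submodule ℤ ℂ) : Submodule ℤ ℂ :=
  if 11 ∣ c then Oc q (c / 11) * L else lvl q c b L

/-- The Heegner point of a class. -/
def hQ {c : ℕ} (Pp : Submodule ℤ ℂ → Submodule ℤ ℂ → Pt) (b : ℤ) (x : Pic q c) : Pt :=
  Pp x.out.1 (lvA q c b x.out.1)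

/-- The Heegner points `P n i x t` of conductor `i n`, `i ∣ 8`. -/
structure PS (Pp : Submodule ℤ ℂ → Submodule ℤ ℂ → Pt) (a : ℕ → ℤ) (t0 : Pt) (b r : ℤ)
    (N : Pic q 8 →* (ZMod 8)ˣ) (P : ∀ n : ℕ, ℕ → Pic q n → (ZMod 8)ˣ → Pt) : Prop where
  one : ∀ (x : Pic q 1) t, P 1 1 x t = hp Pp b x
  alg : ∀ n i x t, Ok n → i ∣ 8 → AlgP (P n i x t)
  act : ∀ n i x t (σ : G), Ok n → i ∣ 8 → σ (om q) = om q →
    σ • P n i x t = P n i (ar q n σ * x) (N (ar q 8 σ) * t)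
  per : ∀ n x t, Ok n → P n 1 x t = P n 1 x 1 ∧ P n 2 x t = P n 2 x 1 ∧
    P n 4 x (un 5 * t) = P n 4 x t
  conj0 : ∀ n i x t, Ok n → i ∣ 8 → ¬ 11 ∣ n →
    cj • P n i x t = t0 - P n i (lam q n 11 (1 - b) * x⁻¹) (un 3 * t)
  conj1 : ∀ n i x t, Ok n → i ∣ 8 → 11 ∣ n → cj • P n i x t = P n i x⁻¹ t
  inert : ∀ n i (l : ℕ) x t (s : Finset (Pic q (l * n))), Ok n → i ∣ 8 → l.Prime → l ≠ 2 →
    l ≠ q → ¬ l ∣ n → ¬ Spl q l → (∀ y, y ∈ s ↔ res n y = x) →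
    ∑ y ∈ s, P (l * n) i y t = a l • P n i x t ∧ ∀ O (φ : G), Ov O l → Frob O l φ →
      ∀ y ∈ s, P (l * n) i y t - φ • P n i x t ∈ E1 O
  split : ∀ n i (l : ℕ) (r' : ℤ) x t (s : Finset (Pic q (l * n))), Ok n → i ∣ 8 → l.Prime →
    l ≠ 2 → l ≠ 11 → l ≠ q → ¬ l ∣ n → Rt q l r' → (∀ y, y ∈ s ↔ res n y = x) →
    ∑ y ∈ s, P (l * n) i y t = a l • P n i x t - P n i (lam q n l r' * x) (un l * t) -
      P n i ((lam q n l r')⁻¹ * x) (un l * t)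
  eleven : ∀ n i x t (s : Finset (Pic q (11 * n))), Ok n → i ∣ 8 → ¬ 11 ∣ n →
    (∀ y, y ∈ s ↔ res n y = x) → ∑ y ∈ s, 5 • P (11 * n) i y t =
      5 • P n i x t - 5 • P n i (lam q n 11 (1 - b) * x) (un 3 * t)
  two1 : ∀ n x, Ok n → N2 Pp (P n 1 x 1)
    {P n 2 x 1, P n 1 (lam q n 2 r * x) 1, P n 1 ((lam q n 2 r)⁻¹ * x) 1}
  two2 : ∀ n x, Ok n → N2 Pp (P n 2 x 1) {P n 1 x 1, P n 4 x 1, P n 4 x (un 3)}
  two4 : ∀ n x t, Ok n → N2 Pp (P n 4 x t) {P n 2 x 1, P n 8 x t, P n 8 x (un 5 * t)}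
  eq : ∀ n i x t (y : Pic q (8 * n)), Ok n → i ∣ 8 → res n y = x → N (res 8 y) = t →
    P n i x t = hQ Pp b (res (i * n) y)

/-- The second class modulo `8` in the kernel of the character of `δ = ± 2`. -/
def tz (δ : ℤ) : (ZMod 8)ˣ := if δ = 2 then un 7 else un 3

/-- The Heegner points twisted by `δ`. -/
def Qd (δ : ℤ) (P : ∀ n : ℕ, ℕ → Pic q n → (ZMod 8)ˣ → Pt) (n : ℕ) (x : Pic q n) : Pt :=
  if δ = 1 then 5 • P n 1 x 1 else if δ = -1 then 5 • (P n 4 x 1 - P n 4 x (un 3)) else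
    5 • (P n 8 x 1 + P n 8 x (tz δ) + P n 4 x 1 + P n 4 x (un 3) + P n 2 x 1)

/-- The twisted Heegner points. -/
structure QS (δ : ℤ) (a : ℕ → ℤ) (b : ℤ) (Q : ∀ n : ℕ, Pic q n → Pt) : Prop where
  alg : ∀ n x, Ok n → AlgP (Q n x)
  act : ∀ n x (σ : G), Ok n → σ (om q) = om q → σ • Q n x = cq δ σ • Q n (ar q n σ * x)
  conj0 : ∀ n x, Ok n → ¬ 11 ∣ n →
    cj • Q n x = -jacobiSym δ 11 • Q n (lam q n 11 (1 - b) * x⁻¹)
  conj1 : ∀ n x, Ok n → 11 ∣ n → cj • Q n x = Q n x⁻¹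
  inert : ∀ n (l : ℕ) x (s : Finset (Pic q (l * n))), Ok n → l.Prime → l ≠ 2 → l ≠ q → ¬ l ∣ n →
    ¬ Spl q l → (∀ y, y ∈ s ↔ res n y = x) → ∑ y ∈ s, Q (l * n) y = a l • Q n x ∧
      ∀ O (φ : G), Ov O l → Frob O l φ → ∀ y ∈ s, Q (l * n) y - φ • Q n x ∈ E1 O
  split : ∀ n (l : ℕ) (r : ℤ) x (s : Finset (Pic q (l * n))), Ok n → l.Prime → l ≠ 2 → l ≠ 11 →
    l ≠ q → ¬ l ∣ n → Rt q l r → (∀ y, y ∈ s ↔ res n y = x) →
    ∑ y ∈ s, Q (l * n) y = a l • Q n x - jacobiSym δ l • Q n (lam q n l r * x) -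
      jacobiSym δ l • Q n ((lam q n l r)⁻¹ * x)
  eleven : ∀ n x (s : Finset (Pic q (11 * n))), Ok n → ¬ 11 ∣ n → (∀ y, y ∈ s ↔ res n y = x) →
    ∑ y ∈ s, Q (11 * n) y = Q n x - jacobiSym δ 11 • Q n (lam q n 11 (1 - b) * x)
  base : ∀ (s : Finset (Pic q 1)) (X : Pt), (∀ x, x ∈ s) → AlgP X →
    (∀ σ : G, σ (om q) = om q → σ • X = cq δ σ • X) → ∑ x ∈ s, Q 1 x ≠ 2 • X

end Pic

/-- The base of the system for even twists. -/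
def QBe (Pp : Submodule ℤ ℂ → Submodule ℤ ℂ → Pt) (a : ℕ → ℤ) (t0 : Pt) : Prop :=
  ∀ (q : ℕ) [Fact (q % 4 = 3)], QF q → q % 8 = 7 →
  ∀ (b r δ : ℤ) (N : Pic q 8 →* (ZMod 8)ˣ) P, Rt q 11 b → Rt q 2 r → NN N → PS Pp a t0 b r N P →
    (δ = 2 ∨ δ = -2) → Gq q → ∀ (s : Finset (Pic q 1)) (X : Pt), (∀ x, x ∈ s) → AlgP X →
      (∀ σ : G, σ (om q) = om q → σ • X = cq δ σ • X) → ∑ x ∈ s, Qd δ P 1 x ≠ 2 • X

/-- The properties of the modular parametrisation. -/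
structure XA (Pp : Submodule ℤ ℂ → Submodule ℤ ℂ → Pt) (a : ℕ → ℤ) (t0 : Pt) : Prop where
  xi : XI Pp a t0
  a2 : a 2 = -2
  el : PEl Pp
  ev : QBe Pp a t0

/-- The tower of points above a place over `2`. -/
structure Tow (Pp : Submodule ℤ ℂ → Submodule ℤ ℂ → Pt) (O : ValuationSubring ℂ) {ι : Type}
    (p₁ p₂ : ι → Pt) (p₄ p₈ : ι → (ZMod 8)ˣ → Pt) (lm : ι ≃ ι) (χ : G → (ZMod 8)ˣ) : Prop where
  alg : ∀ A t, AlgP (p₁ A) ∧ AlgP (p₂ A) ∧ AlgP (p₄ A t) ∧ AlgP (p₈ A t)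
  n1 : ∀ A, In O (p₁ A) ∧ N2 Pp (p₁ A) {p₂ A, p₁ (lm A), p₁ (lm.symm A)}
  n2 : ∀ A, In O (p₂ A) ∧ N2 Pp (p₂ A) {p₁ A, p₄ A 1, p₄ A (un 3)}
  n4 : ∀ A t, In O (p₄ A t) ∧ In O (p₈ A t) ∧ N2 Pp (p₄ A t) {p₂ A, p₈ A t, p₈ A (un 5 * t)}
  per : ∀ A t, p₄ A (un 5 * t) = p₄ A t
  act : ∀ A t (σ : G), Frob O 1 σ → σ • p₁ A = p₁ A ∧ σ • p₂ A = p₂ A ∧
    σ • p₄ A t = p₄ A (χ σ * t) ∧ σ • p₈ A t = p₈ A (χ σ * t)
  sur : ∀ t, ∃ σ : G, Frob O 1 σ ∧ χ σ = t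
  chr : ∀ (δ : ℤ) (σ : G), (δ = 1 ∨ δ = -1 ∨ δ = 2 ∨ δ = -2) → Frob O 1 σ →
    cq δ σ = jacobiSym δ ((χ σ : (ZMod 8)ˣ) : ZMod 8).val

/-- The labelling of the tower by the Frobenius map. -/
structure Lab (Pp : Submodule ℤ ℂ → Submodule ℤ ℂ → Pt) (O : ValuationSubring ℂ) {ι : Type}
    (p₁ p₂ : ι → Pt) (p₄ p₈ : ι → (ZMod 8)ˣ → Pt) (τ : ι ≃ ι) : Prop where
  n1 : ∀ A, N2 Pp (p₁ A) {p₁ (τ.symm A), p₂ A, p₁ (τ A)}
  f1 : ∀ A, Fr O (p₁ (τ A)) (p₁ A)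
  f2 : ∀ A, Fr O (p₂ A) (p₁ A)
  f4 : ∀ A t, Fr O (p₄ A t) (p₂ A)
  f8 : ∀ A t, Fr O (p₈ A t) (p₄ A t)

/-- The roots of the cubic at a place over `11`. -/
structure N11 (O : ValuationSubring ℂ) (e₁ e₂ e₃ A B : ℂ) : Prop where
  fac : ∀ x, fc x = (x - e₁) * (x - e₂) * (x - e₃)
  r1 : e₁ - 8 ∈ O.nonunits
  r2 : e₂ - 9 ∈ O.nonunits
  r3 : e₃ - 9 ∈ O.nonunits
  sA : A ^ 2 = e₁ - e₂
  sB : B ^ 2 = e₁ - e₃
  ab : A - B ∈ O.nonunits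

/-- The twisted Heegner system. -/
structure HT (q : ℕ) (δ : ℤ) (k : ℕ → ℕ) (a : ℕ → ℤ) (S : Finset ℕ → (A k → ℤ) →+ Pt)
    (ρ : G → A k) (ν : A k) (j : ℕ → A k) : Prop where
  alg : ∀ c Φ, Cd k c → AlgP (S c Φ)
  rho_mul : ∀ σ τ : G, σ (om q) = om q → τ (om q) = om q → ρ (σ * τ) = ρ σ + ρ τ
  rho_cj : ∀ σ : G, σ (om q) = om q → ρ (cj * σ * cj) = -ρ σ
  act : ∀ c Φ (σ : G), Cd k c → Dep c Φ → σ (om q) = om q →
    σ • S c Φ = cq δ σ • S c fun g => Φ (g - ρ σ)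
  conj0 : ∀ c Φ, Cd k c → Dep c Φ → 11 ∉ c →
    cj • S c Φ = -jacobiSym δ 11 • S c fun g => Φ (ν - g)
  conj1 : ∀ c Φ, Cd k c → Dep c Φ → 11 ∈ c → cj • S c Φ = S c fun g => Φ (-g)
  inert : ∀ c Φ l, Cd k c → Dep c Φ → k l ≠ 0 → l ∉ c → ¬ Spl q l →
    S (insert l c) Φ = a l • S c Φ
  split : ∀ c Φ l, Cd k c → Dep c Φ → k l ≠ 0 → l ∉ c → Spl q l → l ≠ 11 →
    S (insert l c) Φ = a l • S c Φ - jacobiSym δ l • S c (fun g => Φ (g - j l)) -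
      jacobiSym δ l • S c fun g => Φ (g + j l)
  eleven : ∀ c Φ, Cd k c → Dep c Φ → k 11 ≠ 0 → 11 ∉ c →
    S (insert 11 c) Φ = S c Φ - jacobiSym δ 11 • S c fun g => Φ (g - ν)
  cong : ∀ c Φ p O (φ : G), Cd k c → Dep (insert p c) Φ → k p ≠ 0 → p ∉ c → ¬ Spl q p → Ov O p →
    Frob O p φ → S (insert p c) Φ - φ • S c (fun g => (((p + 1) / 2 ^ k p : ℕ) : ℤ) *
      ∑ x : ZMod (2 ^ k p), Φ (Function.update g p x)) ∈ E1 O
  iner : ∀ (v : ℕ) O (σ : G) l, v.Prime → Ov O v → Frob O 1 σ → σ (om q) = om q → l ≠ v →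
    ρ σ l = 0
  frob : ∀ l O (φ : G) l', k l ≠ 0 → Spl q l → Ov O l → Frob O l φ → l' ≠ l →
    ∃ u : ℤ, Odd u ∧ ρ φ l' = u * j l l'
  gen : ∀ (σ : G) l (s : ℂ), σ (om q) = om q → k l ≠ 0 → s ^ 2 = GF.pst l →
    (σ s = s ↔ Even (ρ σ l).val)
  nu : ∀ l, k l ≠ 0 → l ≠ 11 → (Even (ν l).val ↔ jacobiSym 11 l = 1)
  val : ∀ l r (π : ℂ) (i : ℕ) O, k l ≠ 0 → Spl q l → k r ≠ 0 → ¬ Spl q r → i ≤ k r → Gen q l π →
    Ov O r → (2 ^ i ∣ (j l r).val ↔ (starRingEnd ℂ π / π) ^ ((r + 1) / 2 ^ i) - 1 ∈ O.nonunits)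
  es : ∀ (l : ℕ) O (φ : G) (P : Pt), l.Prime → l ≠ 2 → l ≠ 11 → Ov O l → Frob O l φ → AlgP P →
    a l • P - (φ • P + l • φ⁻¹ • P) ∈ E1 O
  fr11 : ∀ O (φ : G) l l', Ov O 11 → Frob O 11 φ → k l ≠ 0 → k l' ≠ 0 → l ≠ 11 → l' ≠ 11 →
    ∃ h w : ℤ, Odd h ∧ Odd w ∧ h * ρ φ l = w * ν l ∧ h * ρ φ l' = w * ν l'
  pi : ∀ (v : ℕ) O (φ : G), v.Prime → Ov O v → Frob O v φ → φ (om q) = om q →
    ∃ π ∈ OK q, (∃ h : ℕ, Complex.normSq π = (v : ℝ) ^ h) ∧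
      ∀ (l : ℕ) O', k l ≠ 0 → l ≠ v → ¬ Spl q l → Ov O' l →
        (starRingEnd ℂ π / π) ^ ((l + 1) / 2 ^ k l) - 1 ∈ O'.nonunits → ρ φ l = 0
  base : ∀ X : Pt, AlgP X → (∀ σ : G, σ (om q) = om q → σ • X = cq δ σ • X) →
    S ∅ (fun _ => 1) ≠ 2 • X

/-- The system of cocycles of level one. -/
structure KS (q : ℕ) (d c : ℤ) (r₁ r₂ m M : ℕ) (ξ : Finset ℕ → ℕ → G → Pt) : Prop where
  le : M ≤ TT d c
  top : ∀ n j σ, M < j → ξ n j σ = 0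
  coc : ∀ n j, KnI m q c n → Coc (ξ n j)
  ne : ∃ n j, KnI m q c n ∧ ¬ Cob (ξ n j)
  unr : ∀ n j (v : ℕ) O, KnI m q c n → v.Prime → Ov O v → v ≠ q → v ≠ r₁ → v ≠ r₂ → v ∉ n →
    UnT d O (ξ n j)
  atd : ∀ n (l : ℕ) O (σ φ : G) (η : ℤ) (s : ℂ), KnI m q c n → l.Prime → (l : ℤ) ∣ c → nr l ≠ 0 →
    Ov O l → Frob O 1 σ → Frob O l φ → s ^ 2 = d → σ s = -s → φ s = η * s →
    ∃ Z S : ℕ → Pt, (∀ j, 2 • Z j = 0 ∧ 2 • S j = ξ n j σ ∧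
        ξ n j φ = φ • S j - η • S j + Z j) ∧
      (nr l = 3 → Z 0 = 0 ∧ ∀ j, Z (j + 1) = ξ n j σ) ∧
      (nr l = 1 → φ • Z 0 = Z 0 ∧ ∀ j, φ • Z (j + 1) - Z (j + 1) = ξ n j σ)
  at11 : ∀ n O (φ : G), KnI m q c n → (11 : ℤ) ∣ d → Ov O 11 → Frob O 11 φ → cq (-11) φ = 1 →
    ∃ a b : ℕ → ZMod 2, (∀ j, L11 d O φ (ξ n j) (a j) (b j)) ∧
      (rx d → b 0 = 0 ∧ b 1 = a 0 ∧ ∀ j, b (j + 2) = a (j + 1) + a j) ∧
      (¬ rx d → (∀ j, a j = 0) ∧ ∑ j ∈ Finset.range (M + 1), b j = 0)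
  atp : ∀ n j p O (σ φ : G) (s : ℂ), KnI m q c n → KolI m q c p → p ∉ n → Ov O p → Frob O 1 σ →
    Frob O p φ → s ^ 2 = GF.pst p → σ s = -s →
    φ • ξ (insert p n) j σ = ξ n j (φ * φ) ∧ ξ (insert p n) j (φ * φ) = 0

/-- The system of cocycles of level `k`. -/
structure KX (q : ℕ) (d c : ℤ) (k m : ℕ) (W : Finset ℂ) (x : Finset ℕ → G → Pt)
    (S : Finset ℕ → Pt) : Prop where
  cy : ∀ n, KnI m q c n → Cy (twA q d n) k (x n)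
  alg : ∀ n, AlgP (S n)
  iner : ∀ n (v : ℕ) O (σ : G), KnI m q c n → v.Prime → v ∉ n → Ov O v → Frob O 1 σ →
    σ (om q) = om q → x n σ = tw (twA q d n) σ (S n) - S n
  frob : ∀ v : ℕ, v = 2 ∨ v = 11 → ∃ (O : ValuationSubring ℂ) (φ : G), Ov O v ∧ Frob O v φ ∧
    ∀ n, KnI m q c n → (∀ p ∈ n, Gp W p) → x n φ = tw (twA q d n) φ (S n) - S n
  bot : ∀ σ, x ∅ σ = tw (twA q d ∅) σ (S ∅) - S ∅
  atp : AtK m q c x

end Pool.Agent.Lib.MP_d6ddbd_nt.KA
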