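import Pool.Agent.Lib.MP_d6ddbd_nt.KA.Defs
import Pool.Agent.Lib.MP_d6ddbd_nt.K11.KCoc

/-!
The two-converse for all quadratic twists of `X₀(11)`: the statements of the blocks.
-/

set_option autoImplicit false

open NumberField IsDedekindDomain Pointwise
open Pool.Agent.Lib.MP_02f36d_nt (xc yc)
open Pool.Agent.Stark (Pr og hq LSq pw SqCl cl)
open Pool.Agent.Lib.MP_9177b7_ag.CM (IsLat sp Conj jL g2 g3)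
open Pool.Agent.Lib.MP_d6ddbd_nt.K11
open Pool.Agent.Lib.MP_d6ddbd_nt.KI (rt cq tw Cy Cb Kl Sel Hm Wq Gp KolI KnI Pn AtK Y0 Two BC rep
  Aq Sg cup FinSel Bd)

noncomputable section

namespace Pool.Agent.Lib.MP_d6ddbd_nt.KA

/-! ### L: the cubic field -/

/-- The two special classes. -/
def ConstStmt : Prop := ∀ (L : Type) [Field L] [NumberField L] (θ : L), Cub θ →
  (gm2 θ ≠ 0 ∧ IsSquare (Algebra.norm ℚ (gm2 θ)) ∧ ¬ At2 (gm2 θ) ∧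
    (∀ 𝔭 : Pr L, Even (og 𝔭 (gm2 θ))) ∧ b11 θ (gm2 θ) = 1 ∧ h2 (gm2 θ) (gm2 θ) = 0 ∧
    IsSquare ((18 - θ) * (2 + θ))) ∧
  al0 θ ≠ 0 ∧ IsSquare (Algebra.norm ℚ (al0 θ)) ∧ At2 (al0 θ) ∧ a11 (al0 θ) = 1 ∧
    b11 θ (al0 θ) = 0 ∧ (∀ 𝔭 : Pr L, 𝔭 ∉ ab L 11 → Even (og 𝔭 (al0 θ))) ∧
    h2 (al0 θ) (gm2 θ) = 1

/-- The pairing at `11`. -/
def P11Stmt : Prop := ∀ (L : Type) [Field L] [NumberField L] (θ : L), Cub θ →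
  (∀ α α' : L, α ≠ 0 → α' ≠ 0 → a11 (α * α') = a11 α + a11 α' ∧
    b11 θ (α * α') = b11 θ α + b11 θ α' ∧ a11 (α ^ 2) = 0 ∧ b11 θ (α ^ 2) = 0) ∧
  (∀ α : L, α ≠ 0 → IsSquare (Algebra.norm ℚ α) → (a11 α = 0 ↔ ∀ 𝔭 ∈ ab L 11, Even (og 𝔭 α))) ∧
  ∀ α α' : L, α ≠ 0 → α' ≠ 0 → IsSquare (Algebra.norm ℚ α) → IsSquare (Algebra.norm ℚ α') →
    ∑ 𝔭 ∈ ab L 11, hq 𝔭 α α' = a11 α * b11 θ α' + b11 θ α * a11 α'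

/-- The pairing at `2`. -/
def P2Stmt : Prop := ∀ (L : Type) [Field L] [NumberField L] (θ : L), Cub θ →
  (∀ α α' β : L, α ≠ 0 → α' ≠ 0 → β ≠ 0 → h2 (α * α') β = h2 α β + h2 α' β ∧ h2 α β = h2 β α ∧
    h2 (α ^ 2) β = 0) ∧
  ∀ (d : ℤ) (α α' : L), α ≠ 0 → α' ≠ 0 → IsSquare (Algebra.norm ℚ α) →
    IsSquare (Algebra.norm ℚ α') → A2 θ d α → A2 θ d α' →
    A2 θ d (α * α') ∧ h2 α α' = 0 ∧ ∀ 𝔭 ∈ ab L 2, Even (og 𝔭 α)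

/-- The coordinates at a prime that divides `d`. -/
def LocDAStmt : Prop := ∀ (L : Type) [Field L] [NumberField L] (θ : L), Cub θ →
  ∀ (d : ℤ) (l : ℕ), Squarefree d → l.Prime → (l : ℤ) ∣ d → l ≠ 2 → l ≠ 11 →
    (∀ α : L, α ≠ 0 → IsSquare (Algebra.norm ℚ α) → ∀ 𝔭 ∈ ab L l, nm 𝔭 = l →
      ((∀ 𝔮 ∈ ab L l, Even (og 𝔮 α)) → bv θ d 𝔭 α = nsq 𝔭 α) ∧
      ∀ 𝔭' ∈ ab L l, nm 𝔭' = l → (∀ 𝔮 ∈ ab L l, Even (og 𝔮 α) ↔ 𝔮 = 𝔭') →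
        bv θ d 𝔭 α = nsq 𝔭 (α * gm θ d 𝔭' 𝔭)) ∧
    (∀ α α' : L, α ≠ 0 → α' ≠ 0 → IsSquare (Algebra.norm ℚ α) → IsSquare (Algebra.norm ℚ α') →
      ∑ 𝔮 ∈ ab L l, hq 𝔮 α α' = ∑ 𝔭 ∈ (ab L l).filter fun 𝔭 => nm 𝔭 = l,
        (av 𝔭 α * bv θ d 𝔭 α' + bv θ d 𝔭 α * av 𝔭 α')) ∧
    ∀ α : L, α ≠ 0 → IsSquare (Algebra.norm ℚ α) → nr l = 3 →
      ∑ 𝔭 ∈ ab L l, av 𝔭 α = 0 ∧ ∑ 𝔭 ∈ ab L l, bv θ d 𝔭 α = 0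

/-- The two coordinates of a cocycle at a prime of degree one that divides `d`. -/
def LocAStmt : Prop := ∀ (L : Type) [Field L] [NumberField L] (θ : L), Cub θ →
  ∀ (d : ℤ) (l : ℕ) (𝔭 : Pr L) (e : L →+* ℂ) O (σ φ : G) (η : ℤ) (s : ℂ) (α : L) ξ,
    Squarefree d → l.Prime → (l : ℤ) ∣ d → l ≠ 2 → l ≠ 11 → 𝔭 ∈ ab L l → nm 𝔭 = l → Ov O l →
    Below e O 𝔭 → Frob O 1 σ → Frob O l φ → s ^ 2 = d → σ s = -s → (η = 1 ∨ η = -1) →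
    φ s = η * s → α ≠ 0 → IsSquare (Algebra.norm ℚ α) → Coc ξ → Kum θ α ξ →
    (nr l = 3 → av 𝔭 α = wl (e θ) (ξ σ)) ∧ (nr l = 1 → (av 𝔭 α = 0 ↔ ξ σ = 0)) ∧
      ∀ Z S : Pt, 2 • Z = 0 → 2 • S = ξ σ → ξ φ = φ • S - η • S + Z → bv θ d 𝔭 α = wl (e θ) Z

/-- The sets of primes at which ramification is allowed. -/
def Bs (c : ℤ) (B : Finset ℕ) : Prop :=
  ∀ p ∈ B, p = 11 ∨ (p.Prime ∧ p ≠ 2 ∧ p ≠ 11 ∧ ¬ (p : ℤ) ∣ c ∧ nr p = 1)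

/-- Reciprocity. -/
def LA1Stmt : Prop := ∀ (L : Type) [Field L] [NumberField L] (θ : L), Cub θ →
  ∀ (d δ c : ℤ) (B : Finset ℕ), TD d δ c → Bs c B →
    (∀ α α' : L, Wa θ d c B α → Wa θ d c B α' → Wa θ d c B (α * α') ∧
      ∑ 𝔭 ∈ D1 L c, (av 𝔭 α * bv θ d 𝔭 α' + bv θ d 𝔭 α * av 𝔭 α') +
        ∑ p ∈ B.erase 11, (sv p α * fv p α' + fv p α * sv p α') +
        (a11 α * b11 θ α' + b11 θ α * a11 α') = 0) ∧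
    ∀ α : L, Wa θ d c B α → (fun 𝔭 : D1 L c => av 𝔭.1 α) ∈ UU L c ∧
      (fun 𝔭 : D1 L c => bv θ d 𝔭.1 α) ∈ UU L c ∧
      (∀ p ∈ B, p ≠ 11 → sv p α = 0 → Wa θ d c (B.erase p) α) ∧
      (a11 α = 0 → Wa θ d c (B.erase 11) α) ∧ (11 ∉ B → a11 α = 0) ∧
      ∀ p : ℕ, p.Prime → ¬ (p : ℤ) ∣ c → p ∉ B → sv p α = 0

/-- Dimension. -/
def LA2Stmt : Prop := ∀ (L : Type) [Field L] [NumberField L] (θ : L), Cub θ →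
  ∀ (d δ c : ℤ) (B : Finset ℕ), TD d δ c → Bs c B →
    Module.Finite (ZMod 2) (WA θ d c B) ∧ tt c + B.card ≤ Module.finrank (ZMod 2) (WA θ d c B)

/-- The special classes are not Selmer classes. -/
def ScStmt : Prop := ∀ (L : Type) [Field L] [NumberField L] (θ : L), Cub θ →
  ∀ (d δ c : ℤ) (B : Finset ℕ) (α : L), TD d δ c → 11 ∉ B → Sc θ d c B α →
    (∀ α', Sc θ d c B α' → Sc θ d c B (α * α')) ∧ (¬ Blk d → ¬ IsSquare (α * al0 θ)) ∧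
    ¬ IsSquare (α * gm2 θ * al0 θ)

/-- When `d` is not excluded, `al0` is visible at a prime of `c`. -/
def BlkStmt : Prop := ∀ (L : Type) [Field L] [NumberField L] (θ : L), Cub θ →
  ∀ d δ c : ℤ, TD d δ c → rx d → Odd d → ¬ Blk d → ∃ 𝔭 ∈ D1 L c, bv θ d 𝔭 (al0 θ) = 1

/-- No deep points. -/
def NDStmt : Prop := ∀ q : ℕ, QF q → Gq q → NDq q

/-- The condition on `q`, in terms of the root modulo `q`. -/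
def GqStmt : Prop := ∀ (L : Type) [Field L] [NumberField L] (θ : L), Cub θ →
  ∀ q : ℕ, QF q → nr q = 1 → (fv q (gm2 θ) = 1 ↔ Gq q)

/-! ### Local theory at `2` and `11` -/

/-- The formal group of the minimal model. -/
def FGStmt : Prop := ∀ O : ValuationSubring ℂ,
  (∀ P : Pt, P ≠ 0 → my P ^ 2 + my P = mx P ^ 3 - mx P ^ 2 - 10 * mx P - 20) ∧
  (∀ P, In O P → my P ∈ O) ∧
  (∀ P Q, F1 O P → F1 O Q → F1 O (P + Q)) ∧ (∀ P, F1 O P → F1 O (-P)) ∧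
  (∀ P, F1 O P → zz P ∈ O.nonunits ∧ (P ≠ 0 → mx P * zz P ^ 2 - 1 ∈ O.nonunits)) ∧
  (∀ P Q (t : ℂ), t ∈ O.nonunits → F1 O P → F1 O Q → Dv O t (zz P) → Dv O t (zz Q) →
    Dv O (t ^ 3) (zz (P + Q) - zz P - zz Q) ∧ Dv O (t ^ 3) (zz (-P) + zz P)) ∧
  (Ov O 2 → (∀ P, F1 O (2 • P) → F1 O P) ∧
    ∀ P Q, In O P → In O Q → mx P - mx Q ∈ O.nonunits → my P - my Q ∈ O.nonunits →
      F1 O (P - Q) ∧ (Dv O 2 (mx P - mx Q) →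
        Dv O 2 (my P - my Q) ∧ Dv O 4 (zz (P - Q) - (mx P - mx Q))))

/-- Inertia at `2`. -/
def I2Stmt : Prop := ∀ O, Ov O 2 →
  (∀ x : ℂ, IsAlgebraic ℚ x → x ∈ O.nonunits → (∀ σ : G, Frob O 1 σ → σ x = x) → Dv O 2 x) ∧
  (∀ a b : ℤ, (a = 1 ∨ a = -1) → (b = 1 ∨ b = -1) →
    ∃ σ : G, Frob O 1 σ ∧ cq (-1) σ = a ∧ cq 2 σ = b) ∧
  ∀ (σ φ : G) (x : ℂ) (h : ℕ), Frob O 1 σ → Frob O 2 φ → IsAlgebraic ℚ x → Odd h →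
    (σ ^ h) x = x → (∀ i : ℕ, φ ((σ ^ i) x) = (σ ^ i) (φ x)) → σ x = x

/-- The condition at `2`. -/
def Dk2Stmt : Prop := ∀ (L : Type) [Field L] [NumberField L] (θ : L), Cub θ →
  ∀ (d δ c : ℤ) (α : L) ξ, TD d δ c → α ≠ 0 → IsSquare (Algebra.norm ℚ α) → Coc ξ → Kum θ α ξ →
    (∀ O, Ov O 2 → UnT d O ξ) → A2 θ d α

/-- The roots at `11`. -/
def N11Stmt : Prop := ∀ O, Ov O 11 →
  (∃ e₁ e₂ e₃ A B, N11 O e₁ e₂ e₃ A B) ∧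
  (∀ e₂ : ℂ, fc e₂ = 0 → e₂ - 9 ∈ O.nonunits → ∃ e₁ e₃ A B, N11 O e₁ e₂ e₃ A B) ∧
  (∃ φ : G, Frob O 11 φ ∧ cq (-11) φ = 1) ∧ (∃ σ : G, Frob O 1 σ ∧ cq (-11) σ = -1) ∧
  ∀ e₁ e₂ e₃ A B, N11 O e₁ e₂ e₃ A B →
    2 • pt (e₁ - A * B) (A * B * (A - B)) = pt e₁ 0 ∧
    (A * B * (A - B)) ^ 2 = fc (e₁ - A * B) ∧
    (∃ u : ℂ, u ∈ O ∧ u ∉ O.nonunits ∧ (e₂ - e₃) ^ 2 = 11 ^ 5 * u) ∧
    (∀ σ : G, Frob O 1 σ → σ e₁ = e₁ ∧ (cq (-11) σ = 1 → σ A = A ∧ σ B = B) ∧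
      (cq (-11) σ = -1 → σ A = B ∧ σ B = A)) ∧
    ∀ φ : G, Frob O 11 φ → cq (-11) φ = 1 → φ e₁ = e₁ ∧ φ A = -A ∧ φ B = -B

/-- The group of components at `11`. -/
def G11Stmt : Prop := ∀ O (φ : G) e₁ e₂ e₃ A B, Ov O 11 → Frob O 11 φ → cq (-11) φ = 1 →
  N11 O e₁ e₂ e₃ A B → ∃ κ, G4 O φ (pt (e₁ - A * B) (A * B * (A - B))) κ

/-- The local shape of the cocycle of a point. -/
def M11Stmt : Prop := ∀ (d : ℤ) O (φ : G) S4 κ (ξ : G → Pt) (X u : Pt) (a b : ZMod 2),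
  G4 O φ S4 κ → (∀ σ : G, Frob O 1 σ → cq d σ = cq (-11) σ) → An O (2 • X) → An O u →
  (∀ σ : G, Frob O 1 σ → ξ σ = tw d σ X - X) → ξ φ = tw d φ X - X - u →
  2 • u = tw d φ (2 • X) - 2 • X → (cq d φ = 1 → 2 * κ (2 • X) = 0) →
  (a = 0 ↔ 2 * κ (2 • X) = 0) →
  b = (if κ u = 0 then 0 else 1) + (if cq d φ = 1 ∧ κ (2 • X) ≠ 0 then 1 else 0) →
  L11 d O φ ξ a b

/-- The coordinates at `11` of the class of a cocycle. -/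
def T11Stmt : Prop := ∀ (L : Type) [Field L] [NumberField L] (θ : L), Cub θ →
  ∀ (d : ℤ) O (φ : G) (α : L) ξ (a b : ZMod 2), Ov O 11 → Frob O 11 φ → cq (-11) φ = 1 →
    (∀ σ : G, Frob O 1 σ → cq d σ = cq (-11) σ) → α ≠ 0 → IsSquare (Algebra.norm ℚ α) → Coc ξ →
    Kum θ α ξ → L11 d O φ ξ a b → a11 α = a ∧ b11 θ α = b

/-- The characters of `d` at `2` and `11`. -/
def CqStmt : Prop := ∀ d δ c : ℤ, TD d δ c →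
  (∀ σ : G, cq d σ = cq δ σ * cq (ee d * c) σ) ∧
  (∀ (v : ℕ) O (σ : G), v.Prime → ¬ (v : ℤ) ∣ ee d * c → Ov O v → Frob O 1 σ →
    cq (ee d * c) σ = 1 ∧ (v ≠ 2 → cq d σ = 1)) ∧
  ((11 : ℤ) ∣ d → ∀ O, Ov O 11 → (∀ σ : G, Frob O 1 σ → cq d σ = cq (-11) σ) ∧
    ∀ φ : G, Frob O 11 φ → cq (-11) φ = 1 → (rx d → cq d φ = -1) ∧ (¬ rx d → cq d φ = 1))

/-- The condition at `11`. -/
def Dk11Stmt : Prop := ∀ (L : Type) [Field L] [NumberField L] (θ : L), Cub θ →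
  ∀ (d δ c : ℤ) (α : L) ξ, TD d δ c → α ≠ 0 → IsSquare (Algebra.norm ℚ α) → Coc ξ → Kum θ α ξ →
    (∀ O, Ov O 11 → Kl d O 11 ξ) → (¬ rx d → a11 α = 0) ∧ (rx d → b11 θ α = 0)

/-- From the Kummer condition to the conditions in the cubic field. -/
def DkAStmt : Prop := ∀ (L : Type) [Field L] [NumberField L] (θ : L), Cub θ →
  ∀ (d δ c : ℤ) (B : Finset ℕ) (α : L) ξ, TD d δ c → 2 ∉ B → 11 ∉ B → (∀ p ∈ B, ¬ (p : ℤ) ∣ c) →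
    α ≠ 0 → IsSquare (Algebra.norm ℚ α) → Coc ξ → Kum θ α ξ → Ku d B ξ → Sc θ d c B α

/-! ### The group `H` and the choice of primes -/

/-- Lemma K. -/
def CommAStmt : Prop := ∀ (L : Type) [Field L] [NumberField L] (θ : L), Cub θ →
  ∀ (α : L) (m : ℕ) (e : L →+* ℂ) (s : ℂ), α ≠ 0 → IsSquare (Algebra.norm ℚ α) →
    (m = 0 ∨ ¬ IsSquare (α * al0 θ)) → ¬ IsSquare α → s ^ 2 = e α →
    ∃ g ∈ commutator G, (∀ T : Pt, 2 ^ (m + 1) • T = 0 → g • T = T) ∧ g s = -s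

/-- Prescribed values on finitely many classes. -/
def CmAStmt : Prop := ∀ (L : Type) [Field L] [NumberField L] (θ : L), Cub θ →
  ∀ (q m : ℕ) (W : Finset ℂ) (T : Finset L) (lam : SqCl L →ₗ[ZMod 2] ZMod 2) (T₀ : Pt), m ≠ 0 →
    Wq q m W → (∀ α ∈ T, α ≠ 0 ∧ IsSquare (Algebra.norm ℚ α)) →
    (m = 1 ∨ lam (cl (al0 θ)) = 0) → 2 • T₀ = 0 → ∃ h, Hm m W h ∧ ∀ α ∈ T,
      (∀ (e : L →+* ℂ) (s : ℂ), s ^ 2 = e α → (h s = s ↔ lam (cl α) = 0 ∨ wl (e θ) T₀ = 0)) ∧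
      ∀ ξ, Coc ξ → Kum θ α ξ → ξ h = (lam (cl α)).val • T₀

/-- An element of `H` that sees the order of a class. -/
def SurjAStmt : Prop := ∀ (L : Type) [Field L] [NumberField L] (θ : L), Cub θ →
  ∀ (q m k : ℕ) (W : Finset ℂ) (c : ℤ) (n : Finset ℕ) y, m ≠ 0 → k ≤ m → Wq q m W → Nv θ c n →
    Cy c k y → Ku c n y → ∃ h, Hm m W h ∧ ∀ u : ℤ, u • y (cj * h * (cj * h)) = 0 → Cb c (u • y)

/-- Prescribed values at level one. -/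
def SJ1Stmt : Prop := ∀ (c : ℤ) (r : ℕ) (B : Fin r → G → Pt) (μ : Fin r → ZMod 2) (T₀ : Pt),
  (∀ i, Cy c 1 (B i)) → (∀ a, Cb c (rep B a) → a = 0) → 2 • T₀ = 0 →
  ∃ h, Hm 1 ∅ h ∧ ∀ i, B i h = (μ i).val • T₀

/-- The choice of the Kolyvagin primes. -/
def ChebAStmt : Prop := ∀ (L : Type) [Field L] [NumberField L] (θ : L), Cub θ →
  ∀ (q m : ℕ) (c : ℤ) (T : Finset L) (lam : SqCl L →ₗ[ZMod 2] ZMod 2) (N : ℕ), QD q c → m ≠ 0 →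
    (∀ α ∈ T, α ≠ 0 ∧ IsSquare (Algebra.norm ℚ α)) → lam (cl (al0 θ)) = 0 →
    ∃ p, N < p ∧ KolI m q c p ∧ ∀ α ∈ T, fv p α = lam (cl α)

/-- The class `al0` satisfies the Kummer conditions on neither twist. -/
def NvStmt : Prop := ∀ (L : Type) [Field L] [NumberField L] (θ : L), Cub θ →
  ∀ (q : ℕ) (d δ c : ℤ) (n : Finset ℕ), TD d δ c → QD q c → q % 8 = 7 → ¬ Blk d → Pn q c n →
    Nv θ d n ∧ Nv θ (-(q * d)) n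

/-- Level one: the two twists. -/
def SubAStmt : Prop := ∀ (q : ℕ) (d δ c : ℤ) (n : Finset ℕ) O (σ₀ φ : G), TD d δ c → QD q c →
  q % 8 = 7 → Ov O q → Frob O 1 σ₀ → σ₀ (om q) ≠ om q → Frob O q φ → q ∉ n →
  (∀ z, Cy (-(q * d)) 1 z → Ku (-(q * d)) n z → Ku d (insert q n) z) ∧
  (∀ z, Sel (-(q * d)) 1 n z → z σ₀ = 0 → Sel d 1 n z ∧ z (φ * φ) = 0) ∧
  (∀ z z', Coc z → Coc z' → z σ₀ = 0 ∨ z' σ₀ = 0 ∨ z σ₀ = z' σ₀) ∧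
  ∀ z z', Coc z → Coc z' → z (φ * φ) = 0 ∨ z' (φ * φ) = 0 ∨ z (φ * φ) = z' (φ * φ)

/-- Level one: reciprocity and core vertices. -/
def SubBStmt : Prop :=
  (∀ (q : ℕ) (d δ c : ℤ) (n : Finset ℕ) O (σ₀ φ : G) z a, TD d δ c → QD q c → q % 8 = 7 →
    Pn q c n → Ov O q → Frob O 1 σ₀ → σ₀ (om q) ≠ om q → Frob O q φ → Sel (-(q * d)) 1 n z →
    Sel d 1 n a → a (φ * φ) ≠ 0 → z σ₀ = 0) ∧
  ∀ (L : Type) [Field L] [NumberField L] (θ : L), Cub θ →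
    ∀ (q : ℕ) (d δ c : ℤ) (n : Finset ℕ) O (φ : G) a, TD d δ c → QD q c → Pn q c n → Ov O q →
      Frob O q φ → Core θ q d c n → Sel d 1 n a → a (φ * φ) = 0 → Cb d a

/-- The relation between two auxiliary primes. -/
def RelStmt : Prop := ∀ (d δ c : ℤ) (N q₁ q₂ : ℕ) O₁ O₂ (f₁ f₂ : G) x₁ x₂ β (ε : G → ZMod 2),
  TD d δ c → 11 ≤ N → d.natAbs ≤ N → Aq c N q₁ → Aq c N q₂ → q₁ ≠ q₂ → Ov O₁ q₁ → Ov O₂ q₂ →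
  Frob O₁ q₁ f₁ → Frob O₂ q₂ f₂ → Sel (-(q₁ * d)) 2 ∅ x₁ → Sel (-(q₂ * d)) 2 ∅ x₂ →
  2 • x₁ = 2 • x₂ → Sel d 1 ∅ β → β cj = 0 → β f₁ = 0 → β f₂ = 0 → Sg (cup (2 • x₁) β) ε →
  (∀ (v : ℕ) O (σ : G), v.Prime → N < v → Ov O v → Frob O 1 σ → ε σ = 0) → ε f₁ = ε f₂

/-- The Heisenberg extension. -/
def HeisStmt : Prop := ∀ (d : ℤ) (r : ℕ) (B : Fin r → G → Pt), d ≠ 0 →
  (∀ i, Sel d 1 ∅ (B i) ∧ B i cj = 0) → (∀ a, Cb d (rep B a) → a = 0) →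
  ∃ ε : Fin r → Fin r → G → ZMod 2, (∀ i j, Sg (cup (B i) (B j)) (ε i j)) ∧
    ∀ M : Fin r → Fin r → ZMod 2, (∀ i j, M i j = M j i) → (∀ i, M i i = 0) →
      ∃ h, Hm 1 ∅ h ∧ (∀ ξ, Coc ξ → ξ h = 0) ∧ ∀ i j, ε i j h = M i j

/-- The choice of `q`. -/
def QchStmt : Prop := ∀ (L : Type) [Field L] [NumberField L] (θ : L), Cub θ →
  ∀ (d δ c : ℤ) a₀, TD d δ c → ¬ Blk d → FinSel d → Sel d 1 ∅ a₀ →
    ∃ q : ℕ, QA θ q c ∧ Two (-(q * d)) 1 ∧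
      (¬ Cb d a₀ → ∃ (O : ValuationSubring ℂ) (φ : G), Ov O q ∧ Frob O q φ ∧ a₀ (φ * φ) ≠ 0)

/-- The choice of an auxiliary prime `r`. -/
def AuxStmt : Prop := ∀ (q : ℕ) (c : ℤ) (K N : ℕ) (π : ℕ → ℂ) (t : ℕ → ℕ), QD q c → 3 ≤ K →
  (∀ l, t l ≤ 2) → (∀ l : ℕ, l.Prime → (l : ℤ) ∣ c → Gen q l (π l)) →
  ∃ (r : ℕ) (O : ValuationSubring ℂ), N < r ∧ RD q c K r ∧ Ov O r ∧
    ∀ l : ℕ, l.Prime → (l : ℤ) ∣ c →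
      (∀ i ≤ t l, (starRingEnd ℂ (π l) / π l) ^ ((r + 1) / 2 ^ i) - 1 ∈ O.nonunits) ∧
      (t l < 2 → (starRingEnd ℂ (π l) / π l) ^ ((r + 1) / 2 ^ (t l + 1)) - 1 ∉ O.nonunits)

/-! ### A: linear algebra -/

/-- The conclusion of the linear algebra at core vertices. -/
def Asw {L : Type} [Field L] [NumberField L] (θ : L) (d δ c : ℤ) : Prop :=
  ∀ (q m M : ℕ) (α : Finset ℕ → ℕ → L), TD d δ c → ¬ Blk d → QA θ q c → m ≠ 0 →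
    KL θ q d c m M α → M ≤ TT d c → ∀ n, KnI m q c n → Core θ q d c n →
    M = TT d c ∧ ¬ IsSquare (α n 0)

/-- The case of `d` prime to `11`. -/
def Asw0Stmt : Prop := ∀ (L : Type) [Field L] [NumberField L] (θ : L), Cub θ →
  ∀ d δ c : ℤ, ¬ (11 : ℤ) ∣ d → Asw θ d δ c

/-- The case of two components at `11`. -/
def Asw1Stmt : Prop := ∀ (L : Type) [Field L] [NumberField L] (θ : L), Cub θ →
  ∀ d δ c : ℤ, (11 : ℤ) ∣ d → ¬ rx d → Asw θ d δ c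

/-- The case of four components at `11`. -/
def Asw2Stmt : Prop := ∀ (L : Type) [Field L] [NumberField L] (θ : L), Cub θ →
  ∀ d δ c : ℤ, rx d → Asw θ d δ c

/-- From cocycles to classes. -/
def CKStmt : Prop := ∀ (L : Type) [Field L] [NumberField L] (θ : L), Cub θ →
  ∀ (q : ℕ) (d δ c : ℤ) (K r₁ r₂ m M : ℕ) ξ, TD d δ c → QD q c → RD q c K r₁ → RD q c K r₂ →
    KS q d c r₁ r₂ m M ξ →
    ∃ α : Finset ℕ → ℕ → L, KL θ q d c m M α ∧ ∀ n, KnI m q c n → Kum θ (α n 0) (ξ n 0)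

/-! ### X and P: Heegner points -/

def XAStmt : Prop := ∃ Pp a t0, XA Pp a t0

/-- The norm character, and inertia at `2`. -/
def Gen2Stmt : Prop := ∀ (q : ℕ) [Fact (q % 4 = 3)], q.Prime → 44 < q → q % 8 = 7 →
  ∃ N : Pic q 8 →* (ZMod 8)ˣ, NN N

def I8Stmt : Prop := ∀ (q : ℕ) [Fact (q % 4 = 3)], q.Prime → 44 < q → q % 8 = 7 →
  ∀ (N : Pic q 8 →* (ZMod 8)ˣ) O, NN N → Ov O 2 →
    (∀ σ : G, Frob O 1 σ → σ (om q) = om q ∧ ar q 1 σ = 1) ∧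
    ∀ t, ∃ σ : G, Frob O 1 σ ∧ N (ar q 8 σ) = t

/-- The Galois action on Heegner points. -/
def GalAStmt : Prop := ∀ Pp a t0, XI Pp a t0 → ∀ (q : ℕ) [Fact (q % 4 = 3)], q.Prime → 44 < q →
  ∀ (b : ℤ) (c : ℕ), Rt q 11 b → c ≠ 0 → ¬ 121 ∣ c → ∀ x : Pic q c,
    (∀ L, Cl x L → Lv L (lvA q c b L) ∧ Pp L (lvA q c b L) = hQ Pp b x) ∧ AlgP (hQ Pp b x) ∧
    (∀ σ : G, σ (om q) = om q → σ • hQ Pp b x = hQ Pp b (ar q c σ * x)) ∧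
    (¬ 11 ∣ c → hQ Pp b x = hp Pp b x ∧
      cj • hQ Pp b x = t0 - hQ Pp b (lam q c 11 (1 - b) * x⁻¹)) ∧
    (11 ∣ c → cj • hQ Pp b x = hQ Pp b x⁻¹) ∧
    ∀ σ : G, σ (om q) ≠ om q → σ • σ • hQ Pp b x = hQ Pp b x

/-- Hecke operators at odd primes other than `11`. -/
def HkAStmt : Prop := ∀ Pp a t0, XI Pp a t0 → ∀ (q : ℕ) [Fact (q % 4 = 3)], q.Prime → 44 < q →
  ∀ (b : ℤ) (c c' l : ℕ), Rt q 11 b → c ≠ 0 → ¬ 121 ∣ c → c' = l * c → l.Prime → l ≠ 2 → l ≠ 11 →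
  l ≠ q → ¬ l ∣ c → ∀ (x : Pic q c) (s : Finset (Pic q c')), (∀ y, y ∈ s ↔ res c y = x) →
    (¬ Spl q l → ∑ y ∈ s, hQ Pp b y = a l • hQ Pp b x ∧ ∀ O (φ : G), Ov O l → Frob O l φ →
      ∀ y ∈ s, hQ Pp b y - φ • hQ Pp b x ∈ E1 O) ∧
    ∀ r, Rt q l r → ∑ y ∈ s, hQ Pp b y =
      a l • hQ Pp b x - hQ Pp b (lam q c l r * x) - hQ Pp b ((lam q c l r)⁻¹ * x)

/-- The trace at `11`. -/
def HkEStmt : Prop := ∀ Pp a t0, XA Pp a t0 → ∀ (q : ℕ) [Fact (q % 4 = 3)], q.Prime → 44 < q →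
  ∀ (b : ℤ) (c c' : ℕ), Rt q 11 b → c ≠ 0 → ¬ 11 ∣ c → c' = 11 * c →
  ∀ (x : Pic q c) (s : Finset (Pic q c')), (∀ y, y ∈ s ↔ res c y = x) →
    ∑ y ∈ s, 5 • hQ Pp b y = 5 • hQ Pp b x - 5 • hQ Pp b (lam q c 11 (1 - b) * x)

/-- The neighbours at `2`. -/
def Hk2Stmt : Prop := ∀ Pp a t0, XI Pp a t0 → ∀ (q : ℕ) [Fact (q % 4 = 3)], q.Prime → 44 < q →
  ∀ (b r : ℤ) (c c' : ℕ), Rt q 11 b → Rt q 2 r → c ≠ 0 → ¬ 121 ∣ c → c' = 2 * c → ∀ x : Pic q c,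
    (¬ 2 ∣ c → ∀ y : Pic q c', res c y = x →
      N2 Pp (hQ Pp b x) {hQ Pp b y, hQ Pp b (lam q c 2 r * x), hQ Pp b ((lam q c 2 r)⁻¹ * x)}) ∧
    ∀ c'' : ℕ, c = 2 * c'' → ∀ y y' : Pic q c', y ≠ y' → res c y = x → res c y' = x →
      N2 Pp (hQ Pp b x) {hQ Pp b (res c'' x), hQ Pp b y, hQ Pp b y'}

/-- The points of conductor `i n`. -/
def PSStmt : Prop := ∀ Pp a t0, XA Pp a t0 → ∀ (q : ℕ) [Fact (q % 4 = 3)], q.Prime → 44 < q →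
  ∀ (b r : ℤ) (N : Pic q 8 →* (ZMod 8)ˣ), Rt q 11 b → Rt q 2 r → NN N →
    ∃ P, PS Pp a t0 b r N P

/-- The labelling. -/
def EB1Stmt : Prop := ∀ Pp O (ι : Type) [Finite ι] (p₁ p₂ : ι → Pt) p₄ p₈ lm χ, Ov O 2 → PTwo Pp →
  Tow Pp O p₁ p₂ p₄ p₈ lm χ → ∃ τ, Lab Pp O p₁ p₂ p₄ p₈ τ

/-- The local computation. -/
def EB2Stmt : Prop := ∀ Pp O (ι : Type) (p₁ p₂ : ι → Pt) p₄ p₈ lm χ τ (δ : ℤ), Ov O 2 → PTwo Pp →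
  Tow Pp O p₁ p₂ p₄ p₈ lm χ → Lab Pp O p₁ p₂ p₄ p₈ τ → (δ = 2 ∨ δ = -2) → ∀ A,
    Dv O 2 (mx (p₂ A) - mx (p₁ (τ A))) ∧ ∃ w ∈ O, ∃ w' ∈ O, ∃ s ∈ O,
      mx (p₈ A 1) - mx (p₈ A (un 5)) = 2 * w ∧
      mx (p₈ A (tz δ)) - mx (p₈ A (un 5 * tz δ)) = 2 * w' ∧ w + w' = rt δ * s ∧
      s ^ 2 - (mx (p₂ (τ A)) - mx (p₁ (τ (τ A)))) / 2 ∈ O.nonunits

/-- The base of the system for even twists, at a place. -/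
def EB3Stmt : Prop := ∀ Pp O (ι : Type) [Fintype ι] (p₁ p₂ : ι → Pt) p₄ p₈ lm χ (δ : ℤ) (X : Pt),
  Ov O 2 → PTwo Pp → Tow Pp O p₁ p₂ p₄ p₈ lm χ → (δ = 2 ∨ δ = -2) →
  ∑ A, p₂ A = (-4 : ℤ) • ∑ A, p₁ A → AlgP X → (∀ σ : G, Frob O 1 σ → σ • X = cq δ σ • X) →
  5 • ∑ A, (p₈ A 1 - p₈ A (un 5) + (p₈ A (tz δ) - p₈ A (un 5 * tz δ))) = 4 • X →
  Dp O (5 • ∑ A, p₁ A)

/-- The points of conductor dividing `8` are integral at `2`. -/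
def PIStmt : Prop := ∀ Pp a t0, XI Pp a t0 → PInt Pp → PTwo Pp →
  ∀ (q : ℕ) [Fact (q % 4 = 3)], QF q → ∀ (b r : ℤ) (N : Pic q 8 →* (ZMod 8)ˣ) P, Rt q 11 b →
    Rt q 2 r → NN N → PS Pp a t0 b r N P → ∀ O i (x : Pic q 1) t, Ov O 2 → i ∣ 8 → In O (P 1 i x t)

/-- The base of the system for even twists. -/
def QBeStmt : Prop := ∀ Pp a t0, XI Pp a t0 → a 2 = -2 → PInt Pp → PTwo Pp → QBe Pp a t0

/-- The base of the system. -/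
def QBStmt : Prop := ∀ Pp a t0, XA Pp a t0 → ∀ (q : ℕ) [Fact (q % 4 = 3)], QF q → q % 8 = 7 →
  ∀ (b r δ : ℤ) (N : Pic q 8 →* (ZMod 8)ˣ) P, Rt q 11 b → Rt q 2 r → NN N → PS Pp a t0 b r N P →
    (δ = 1 ∨ δ = -1 ∨ δ = 2 ∨ δ = -2) → (Even δ → Gq q) →
    ∀ (s : Finset (Pic q 1)) (X : Pt), (∀ x, x ∈ s) → AlgP X →
      (∀ σ : G, σ (om q) = om q → σ • X = cq δ σ • X) → ∑ x ∈ s, Qd δ P 1 x ≠ 2 • X

/-- The twisted points. -/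
def QSStmt : Prop := ∀ Pp a t0, XA Pp a t0 → ∀ (q : ℕ) [Fact (q % 4 = 3)], QF q → q % 8 = 7 →
  ∀ (b r δ : ℤ) (N : Pic q 8 →* (ZMod 8)ˣ) P, Rt q 11 b → Rt q 2 r → NN N → PS Pp a t0 b r N P →
    (δ = 1 ∨ δ = -1 ∨ δ = 2 ∨ δ = -2) → (Even δ → Gq q) → QS δ a b (Qd δ P)

/-- From the twisted points to the system. -/
def PAStmt : Prop := ∀ Pp a t0, XI Pp a t0 → ∀ (q : ℕ) [Fact (q % 4 = 3)], QF q →
  ∀ (b δ : ℤ) Q (k : ℕ → ℕ), Rt q 11 b → QS (q := q) δ a b Q → AdA q k →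
    ∃ S ρ ν j, HT q δ k a S ρ ν j

/-- The twisted Heegner system exists. -/
def HTStmt : Prop := ∀ (q : ℕ) (δ : ℤ) (k : ℕ → ℕ), QF q → q % 8 = 7 →
  (δ = 1 ∨ δ = -1 ∨ δ = 2 ∨ δ = -2) → (Even δ → Gq q) → AdA q k →
  ∃ a S ρ ν j, HT q δ k a S ρ ν j

/-! ### K: leading forms -/

/-- The relations at `11`. -/
def KEStmt : Prop := ∀ (Γ E P : Type) [Group Γ] [AddCommGroup E] [DistribMulAction Γ E]
  [DecidableEq P] (k m M : ℕ) (H : KK.Sys Γ E P k m) (N : AddSubgroup E) (κ : E → ZMod 4) (φ : Γ)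
  (η J : ℤ) (c : KK.Co P k m) (n : Finset P) (R u : ℕ → E),
  H.Lev M → M + 9 ≤ k → (M + 1) / 2 + 3 ≤ m → (∀ p, (8 : ℤ) ∣ H.a p) →
  (∀ f, KK.Dep n f → H.Y n f ∈ N) → (∀ x ∈ H.A, (2 : ℤ) • x ∈ N → x ∈ N) →
  (∀ x ∈ N, φ • x ∈ N ∧ κ (φ • x) = -κ x) → (∀ x ∈ N, ∀ y ∈ N, κ (x + y) = κ x + κ y) →
  KK.Sh H.Y φ η c → (J : ZMod (2 ^ k)) = c.1 →
  (∀ i, R i ∈ H.A ∧ u i ∈ H.A ∧ (2 : ℤ) • u i = η • φ • R i - R i ∧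
    (i ≤ M / 2 → (2 : ℤ) ^ (M / 2 - i) • R i = H.Q n (2 * i + M % 2)) ∧ (M / 2 < i → R i = 0)) →
  (η = -1 → J % 8 = 4 → (∀ i, R i ∈ N ∧ u i ∈ N) ∧ κ (u 0) = 0 ∧ κ (u 1) = 2 * κ (R 0) ∧
    ∀ i, κ (u (i + 2)) = 2 * κ (R (i + 1)) + 2 * κ (R i)) ∧
  (η = 1 → J % 4 = 2 → (∀ i, R i ∈ N ∧ u i ∈ N) ∧ (∀ i, 2 * κ (R i) = 0) ∧ κ (u 0) = 0 ∧
    ∀ i, κ (u (i + 1)) = κ (R i))

/-- The hypotheses of the construction of the cocycles. -/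
structure KH (q : ℕ) (d δ c : ℤ) (K r₁ r₂ m s : ℕ) (k : ℕ → ℕ) (W : Finset ℂ) (a : ℕ → ℤ)
    (S : Finset ℕ → (A k → ℤ) →+ Pt) (ρ : G → A k) (ν : A k) (j : ℕ → A k) : Prop where
  td : TD d δ c
  qd : QD q c
  m8 : q % 8 = 7
  rd₁ : RD q c K r₁
  rd₂ : RD q c K r₂
  ne : r₁ ≠ r₂
  hK : 2 * TT d c + 9 ≤ K
  hm : TT d c + s + 4 ≤ m
  kd : ∀ l : ℕ, l.Prime → (l : ℤ) ∣ ee d * c → k l = 1
  k₁ : k r₁ = K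
  k₂ : k r₂ = K
  kp : ∀ p, KolI m q c p → k p = m
  kb : ∃ N, ∀ l, k l ≤ N
  ht : HT q δ k a S ρ ν j
  j₁ : ∀ l : ℕ, l.Prime → (l : ℤ) ∣ c →
    (nr l = 1 → (j l r₁).val % 2 = 1) ∧ (nr l = 3 → (j l r₁).val % 4 = 2)
  j₂ : ∀ l : ℕ, l.Prime → (l : ℤ) ∣ c → (j l r₂).val % 4 = 0
  gw : ∀ v : ℕ, v = 2 ∨ v = 11 → ∃ (O : ValuationSubring ℂ) (φ : G), Ov O v ∧ Frob O v φ ∧
    φ (om q) = om q ∧ ∀ p, KolI m q c p → Gp W p → ρ φ p = 0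

def KStmt : Prop := ∀ q d δ c K r₁ r₂ m s k W a S ρ ν j, KH q d δ c K r₁ r₂ m s k W a S ρ ν j →
  ∃ M ξ x S', KS q d c r₁ r₂ m M ξ ∧ KX q d c (TT d c + 1 + s) m W x S' ∧
    (M = TT d c → ∀ n, KnI m q c n → ∀ σ, 2 ^ s • x n σ = ξ n 0 σ)

/-- The hypotheses can be met. -/
def KHStmt : Prop := ∀ (q : ℕ) (d δ c : ℤ) (s : ℕ), TD d δ c → QD q c → q % 8 = 7 →
  (Even δ → Gq q) → ∃ K r₁ r₂ m k W a S ρ ν j, Wq q m W ∧ KH q d δ c K r₁ r₂ m s k W a S ρ ν j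

/-! ### The system of level `k` and the chains -/

def YchStmt : Prop := ∀ (L : Type) [Field L] [NumberField L] (θ : L), Cub θ →
  ∀ (q : ℕ) (d δ c : ℤ) n p (a : L), TD d δ c → QD q c → Pn q c (insert p n) → p ∉ n →
    Yn θ q d c n a → fv p a = 1 → yn θ q d c (insert p n) < yn θ q d c n

def LocxStmt : Prop := ∀ (q : ℕ) (d c : ℤ) (k : ℕ) (n : Finset ℕ) x S, QF q → Squarefree d →
  ¬ (q : ℤ) ∣ d → (c = d ∨ c = -(q * d)) → Cy c k x → AlgP S →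
  (∀ (v : ℕ) O (σ : G), v.Prime → v ∉ n → Ov O v → Frob O 1 σ → σ (om q) = om q →
    x σ = tw c σ S - S) →
  (∀ v : ℕ, v = 2 ∨ v = 11 → ∃ (O : ValuationSubring ℂ) (φ : G), Ov O v ∧ Frob O v φ ∧
    x φ = tw c φ S - S) →
  (∀ p ∈ n, ∀ O (φ : G), Ov O p → Frob O p φ → x (φ * φ) = 0) → Sel c k n (2 • x)

def SysStmt : Prop := ∀ (L : Type) [Field L] [NumberField L] (θ : L), Cub θ →
  ∀ (q : ℕ) (d δ c : ℤ) (s : ℕ), TD d δ c → ¬ Blk d → QA θ q c →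
    ∃ k m W x, k ≠ 0 ∧ k ≤ m ∧ Wq q m W ∧ KY θ q d c k s m W x

def ChaStmt : Prop := ∀ (L : Type) [Field L] [NumberField L] (θ : L), Cub θ →
  ∀ (q : ℕ) (d : ℤ) (k m : ℕ) (n : Finset ℕ) (W : Finset ℂ) (g₀ : G) y z z', QF q → Squarefree d →
  ¬ (q : ℤ) ∣ d → Nv θ d n → Nv θ (-(q * d)) n → k ≠ 0 → k ≤ m → Wq q m W → Hm m W g₀ →
  Cy d k y → Ku d n y → Cy d k z → Ku d n z → Cy (-(q * d)) k z' → Ku (-(q * d)) n z' →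
  (y = 0 ∨ ¬ Cb d (2 ^ (k - 1) • y) ∧ 2 ^ (k - 1) • y g₀ = 0) →
  ∃ h, Hm m W h ∧
    (∀ s : ℂ, (∀ σ : G, (∀ T : Pt, 2 • T = 0 → σ • T = T) → σ (s ^ 2) = s ^ 2) → h s = g₀ s) ∧
    y (cj * h * (cj * h)) = 0 ∧
    (∀ u : ℤ, u • z (cj * h * (cj * h)) = 0 → ∃ v : ℤ, Cb d ((2 * u) • z - v • y)) ∧
    ∀ u : ℤ, u • z' (cj * h * (cj * h)) = 0 → Cb (-(q * d)) ((2 * u) • z')

def ChStmt : Prop := ∀ (L : Type) [Field L] [NumberField L] (θ : L), Cub θ →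
  ∀ (q : ℕ) (d δ c : ℤ) (k m : ℕ) (W : Finset ℂ) (n : Finset ℕ) (a : L) y z z' (N : ℕ),
    TD d δ c → ¬ Blk d → QD q c → q % 8 = 7 → k ≠ 0 → k ≤ m → Wq q m W → Pn q c n →
    Yn θ q d c n a → ¬ IsSquare a → Sel d k n y → Y0 q k y → Sel d k n z →
    Sel (-(q * d)) k n z' →
    ∃ (p : ℕ) (O : ValuationSubring ℂ) (φ : G), N < p ∧ KolI m q c p ∧ Gp W p ∧ Ov O p ∧
      Frob O p φ ∧ fv p a = 1 ∧ y (φ * φ) = 0 ∧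
      (∀ u : ℤ, u • z (φ * φ) = 0 → ∃ v : ℤ, Cb d ((2 * u) • z - v • y)) ∧
      ∀ u : ℤ, u • z' (φ * φ) = 0 → Cb (-(q * d)) ((2 * u) • z')

def ChainStmt : Prop := ∀ (L : Type) [Field L] [NumberField L] (θ : L), Cub θ →
  ∀ (q : ℕ) (d δ c : ℤ) (j : ℕ), TD d δ c → ¬ Blk d → QD q c → q % 8 = 7 →
    ∃ A : ℕ, ∀ (k s m : ℕ) (W : Finset ℂ) x y z z', k ≠ 0 →
    k ≤ m → Wq q m W → KY θ q d c k s m W x → Sel d k ∅ y → Y0 q k y → BC d k ∅ j y z →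
    BC (-(q * d)) k ∅ j 0 z' →
    ∃ n, KnI m q c n ∧ (∀ p ∈ n, Gp W p) ∧ Core θ q d c n ∧ Sel d k n y ∧
      ∀ a, (Rl q d x y ∅ a → Rl q d x y n (a + A)) ∧ (Rl q d x y n a → Rl q d x y ∅ (a + A))

def MainStmt : Prop := ∀ d : ℤ, Squarefree d → ¬ Blk d → Bd d → ((Tw d).Infinite ↔ wA d = -1)

end Pool.Agent.Lib.MP_d6ddbd_nt.KA
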