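import Pool.Agent.Lib.MP_d6ddbd_nt.KA.Stmt
import Pool.Agent.Lib.MP_d6ddbd_nt.K11.AuxR

/-!
The choice of an auxiliary prime `r`, with prescribed power residues.
-/

set_option autoImplicit false
set_option maxSynthPendingDepth 3

open Pointwise
open Pool.Agent.Lib.MP_02f36d_nt (xc yc)
open Pool.Agent.Lib.MP_d6ddbd_nt.K11
open Pool.Agent.Lib.MP_d6ddbd_nt.K11.Aux

noncomputable section

namespace Pool.Agent.Lib.MP_d6ddbd_nt.KA

namespace AuxA

/-- An automorphism that permutes the three roots cyclically fixes a square root of `-11`. -/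
theorem cyc_sqrt {φ : G} {e : ℂ} (he : fc e = 0) (h : φ (φ e) ≠ e) :
    ∃ s : ℂ, s ^ 2 = -11 ∧ φ s = s := by
  have h1 : fc (φ e) = 0 := by rw [fc_map, he, map_zero]
  have h2 : fc (φ (φ e)) = 0 := by rw [fc_map, h1, map_zero]
  have n1 : φ e ≠ e := fun h3 => h (by rw [h3, h3])
  have n2 : φ (φ e) ≠ φ e := fun h3 => n1 (φ.injective h3)
  set b := φ e with hb
  set c := φ b with hc
  simp only [fc] at he h1 h2
  have q1 : e ^ 2 + e * b + b ^ 2 - 4 * (e + b) - 160 = 0 :=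
    mul_left_cancel₀ (sub_ne_zero.2 n1) (by linear_combination h1 - he)
  have q2 : e ^ 2 + e * c + c ^ 2 - 4 * (e + c) - 160 = 0 :=
    mul_left_cancel₀ (sub_ne_zero.2 h) (by linear_combination h2 - he)
  have s1 : e + b + c = 4 :=
    mul_left_cancel₀ (sub_ne_zero.2 n2) (by linear_combination q2 - q1)
  have s2 : e * b + e * c + b * c = -160 := by
    linear_combination (e + b) * s1 - q1
  have s3 : e * b * c = 1264 := by
    linear_combination he - e ^ 2 * s1 + e * s2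
  have h3 : φ c = e := by
    have h4 := congrArg φ s1
    rw [map_add, map_add, map_ofNat, ← hb, ← hc] at h4
    linear_combination h4 - s1
  refine ⟨(e - b) * (e - c) * (b - c) / 1936, ?_, ?_⟩
  · have h4 : ((e - b) * (e - c) * (b - c)) ^ 2 = (e + b + c) ^ 2 * (e * b + e * c + b * c) ^ 2 -
        4 * (e * b + e * c + b * c) ^ 3 - 4 * (e + b + c) ^ 3 * (e * b * c) +
        18 * (e + b + c) * (e * b + e * c + b * c) * (e * b * c) - 27 * (e * b * c) ^ 2 := by ring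
    rw [div_pow, h4, s1, s2, s3]
    norm_num
  · rw [map_div₀, map_ofNat, map_mul, map_mul, map_sub, map_sub, map_sub, ← hb, ← hc, h3]
    ring

/-- The case of an eighth power. -/
theorem final_one {O : ValuationSubring ℂ} {y : ℂ} {o : ℕ} (ho : Odd o) (hy : O.valuation y = 1)
    (h4 : O.valuation (y ^ 4 - 1) < 1) (h : O.valuation (1 - y ^ o) < 1) :
    O.valuation (y ^ 2 - 1) < 1 ∧ O.valuation (y - 1) < 1 := by
  have hp : ∀ n : ℕ, O.valuation (y ^ n) ≤ 1 := fun n => by rw [map_pow, hy, one_pow]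
  have h1 : O.valuation (1 : ℂ) ≤ 1 := by rw [map_one]
  obtain ⟨t, rfl⟩ := ho
  have h5 := cong_pow h1 (hp _) h 2
  have h7 := cong_pow (hp 4) h1 h4 t
  have h8 := cong_mul (x' := y ^ 2) (y' := y ^ 2) (by rw [← pow_mul]; exact hp _) (hp 2) h7
    (by simp)
  rw [one_pow, show (y ^ (2 * t + 1)) ^ 2 = (y ^ 4) ^ t * y ^ 2 by ring] at h5
  rw [one_pow, one_mul] at h8
  have h9 := cong_symm (cong_trans h5 h8)
  refine ⟨h9, ?_⟩
  have h10 := cong_pow (hp 2) h1 h9 t
  have h11 := cong_mul (x' := y) (y' := y) (by rw [← pow_mul]; exact hp _) hy.le h10 (by simp)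
  rw [one_pow, one_mul, show (y ^ 2) ^ t * y = y ^ (2 * t + 1) by ring] at h11
  exact cong_symm (cong_trans h h11)

theorem main (hV : VStmt) (hR : RStmt) : KA.AuxStmt := by
  classical
  intro q d m N π t hq hm ht hπ
  have hw' : ∀ l, ∃ w : ℂ, w ^ 8 = Aux.uu (π l) := fun l =>
    IsAlgClosed.exists_pow_nat_eq _ (by norm_num)
  choose w hw using hw'
  obtain ⟨ζ, hζ⟩ : ∃ ζ : ℂ, IsPrimitiveRoot ζ (2 ^ m) :=
    ⟨_, Complex.isPrimitiveRoot_exp (2 ^ m) (by positivity)⟩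
  have hd0 : d.natAbs ≠ 0 := by
    have := hq.fam.m4
    omega
  have hmem : ∀ l : ℕ, l ∈ d.natAbs.primeFactors ↔ l.Prime ∧ (l : ℤ) ∣ d := fun l => by
    rw [Nat.mem_primeFactors_of_ne_zero hd0, Int.natCast_dvd]
  obtain ⟨g₀, e, he, h01, h02, h03⟩ := exists_g0 hV hR.1 hq.qf hζ.pow_eq_one
  obtain ⟨g, hg1, hg2, hg3, hg4⟩ := exists_g hV hR hq hπ hw hζ (by omega)
    (fun l => if t l = 0 then 1 else if t l = 1 then 2 else 0) h01 h02 d.natAbs.primeFactors fun l h => (hmem l).1 h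
  have h3c := h03 g hg3
  set σ : G := cj * g with hσ
  have hσa : ∀ x, σ x = cj (g x) := fun x => rfl
  obtain ⟨T, hT, hTx, hTa⟩ := two_tors hR.1 he
  have hwa : ∀ l ∈ d.natAbs.primeFactors, IsAlgebraic ℚ (w l) := fun l h =>
    IsAlgebraic.of_pow (n := 8) (by norm_num)
      (by rw [hw]; exact uu_alg (hπ l ((hmem l).1 h).1 ((hmem l).1 h).2).1)
  have hζa : IsAlgebraic ℚ ζ := IsAlgebraic.of_pow (n := 2 ^ m) (by positivity)
    (by rw [hζ.pow_eq_one]; exact isAlgebraic_one)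
  obtain ⟨r, O, φ, a, b, hr, hN, hO, hφ, hab⟩ := hV.2.2.2.1
    (insert (om q) (insert ζ (insert e (d.natAbs.primeFactors.image w)))) σ
    (11 + q + d.natAbs + N) (by
      intro x hx
      simp only [Finset.mem_insert, Finset.mem_image] at hx
      rcases hx with rfl | rfl | rfl | ⟨l, hl, rfl⟩
      · exact om_alg q
      · exact hζa
      · exact hTx ▸ hTa.1
      · exact hwa l hl)
  have hr2 : r ≠ 2 := by omega
  have hr11 : r ≠ 11 := by omega
  have hrq : r ≠ q := by omega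
  have h2 := v_two hr hO hr2
  have hσom : σ (om q) = 1 - om q := by rw [hσa, hg1, cj_om]
  have hσom2 : σ (σ (om q)) = om q := by rw [hσom, map_sub, map_one, hσom]; ring
  have hne : 1 - om q ≠ om q := fun h => by
    have h1 := congrArg Complex.im h
    have h3 := om_im hq.qf.pr.ne_zero
    simp at h1
    linarith
  have hom := hab 1 (om q) (by simp)
  simp only [pow_one, mul_one] at hom
  have ha : Odd a := by
    rcases Nat.even_or_odd a with h | h
    · rw [pow_even hσom2 h] at hom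
      rw [pow_fix hom.1, hσom] at hom
      exact (hne hom.2).elim
    · exact h
  have hφom : φ (om q) = 1 - om q := by rw [hom.1, pow_odd hσom2 ha, hσom]
  have hζ0 : ζ ≠ 0 := hζ.ne_zero (by positivity)
  have hσζ : σ ζ = ζ⁻¹ := by
    rw [hσa, hg2, cj_inv (n := 2 ^ m) (by positivity) (by rw [hζ.pow_eq_one, norm_one])]
  have hφζ : φ ζ = ζ⁻¹ := by
    have h1 := (hab 1 ζ (by simp)).1
    rw [pow_one, mul_one, pow_odd (by rw [hσζ, map_inv₀, hσζ, inv_inv]) ha, hσζ] at h1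
    exact h1
  have hvζ : O.valuation ζ = 1 := v_root (n := 2 ^ m) (by positivity)
    (by rw [hζ.pow_eq_one, map_one])
  have hdv : 2 ^ m ∣ r + 1 := by
    refine hζ.dvd_of_pow_eq_one _ (root_eq_one h2 m _ ?_ ?_)
    · rw [← pow_mul, mul_comm, pow_mul, hζ.pow_eq_one, one_pow]
    · have h1 := nu.1 (hφ ζ hζa (mo.2 hvζ.le)).2
      have e1 : ζ ^ (r + 1) - 1 = ζ * (ζ ^ r - φ ζ) := by rw [hφζ]; field_simp; ring
      rw [e1]
      exact v_mul_lt hvζ.le (cong_symm h1)
  have hφφ : φ (φ e) ≠ e := fun h12 => by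
    have h13 := (hab 2 e (by simp)).2
    rw [pow_even h12 ((even_two).mul_left b), pow_two] at h13
    exact h3c h13
  have hnr : nr r = 0 := by
    obtain ⟨_, _, _, _, _, _, h7, h8⟩ := hR.2 r O hr hr2 hr11 hO
    obtain ⟨h9, h10, _⟩ := h8 φ hφ
    by_contra h0
    have h11 : φ • φ • T = T := by
      rcases h7 with h | h | h
      · exact (h0 h).elim
      · exact (h10.1 h).1 T hT
      · rw [h9.1 h T hT, h9.1 h T hT]
    exact hφφ (by rw [← hTx, ← xc_smul, ← xc_smul, h11])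
  have h4r : 4 ∣ r + 1 := by
    refine dvd_trans ?_ hdv
    exact pow_dvd_pow 2 (show 2 ≤ m by omega)
  have hel : jacobiSym 11 r = -1 := by
    obtain ⟨s, hs, hφs⟩ := cyc_sqrt he hφφ
    have hs0 : s ≠ 0 := by
      rintro rfl
      norm_num at hs
    have hnd : ¬ (r : ℤ) ∣ -11 := fun h => by
      have h1 : r ∣ 11 := by exact_mod_cast (dvd_neg.1 h)
      exact hr11 ((Nat.prime_dvd_prime_iff_eq hr (by norm_num)).1 h1)
    have h1 := hV.2.1.2.2.2.2.2.2.2.2 r O φ s (-11) hr hr2 hnd hO hφ (by rw [hs]; norm_num)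
    rw [hφs] at h1
    have h3 : ((jacobiSym (-11) r : ℤ) : ℂ) = 1 :=
      mul_right_cancel₀ hs0 (by rw [← h1, one_mul])
    have h5 : jacobiSym (-11) r = 1 := by exact_mod_cast h3
    rw [jacobiSym.neg _ (hr.odd_of_ne_two hr2), ZMod.χ₄_nat_three_mod_four (by omega)] at h5
    omega
  refine ⟨r, O, by omega, ⟨hr, hr2, hr11, hrq, fun h => ?_, hdv, fun h => ?_, hnr, hel⟩, hO,
    fun l hl hd => ?_⟩
  · have := Nat.le_of_dvd (Nat.pos_of_ne_zero hd0) (Int.natCast_dvd.1 h)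
    omega
  · exact hne (hφom.symm.trans
      ((hV.2.1.2.2.2.2.2.2.2.1 q r O φ hq.qf.pr hq.qf.m4 hr hr2 hrq hO hφ).2 h))
  have hl' := (hmem l).2 ⟨hl, hd⟩
  have hG := hπ l hl hd
  have hrl : r ≠ l := by
    have := Nat.le_of_dvd (Nat.pos_of_ne_zero hd0) (Int.natCast_dvd.1 hd)
    omega
  obtain ⟨η, hη, hgw⟩ := hg4 l hl'
  set j : ℕ := if t l = 0 then 1 else if t l = 1 then 2 else 0 with hj
  have hη8 : η ^ 8 = 1 := by rw [show (8 : ℕ) = 4 * 2 by norm_num, pow_mul, hη]; norm_num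
  have hun := uu_norm (gen_ne hl hG)
  have hσw : σ (w l) = (η ^ j * w l)⁻¹ := by
    rw [hσa, hgw]
    refine cj_inv (n := 8) (by norm_num) ?_
    rw [mul_pow, ← pow_mul, mul_comm j, pow_mul, hη8, one_pow, one_mul, hw, hun]
  have hση : σ η = η⁻¹ := by
    rw [hσa, fix8 hζ (by omega) hg2 hη8]
    exact cj_inv (n := 8) (by norm_num) (by rw [hη8, norm_one])
  have hσ2 : (σ ^ (a * 2)) (w l) = (η ^ (2 * j)) ^ a * w l := by
    rw [mul_comm a, pow_mul]
    refine pow_eig ?_ ?_ a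
    · rw [map_pow, pow_two σ]
      change σ (σ η) ^ _ = _
      rw [hση, map_inv₀, hση, inv_inv]
    · rw [pow_two]
      change σ (σ (w l)) = _
      rw [hσw, map_inv₀, map_mul, map_pow, hση, hσw, mul_inv, inv_inv, inv_pow, inv_inv]
      ring
  have hvu := uu_val hq.qf.m4 hl hG hr hO hrl
  have hvw : O.valuation (w l) = 1 := v_root (n := 8) (by norm_num) (by rw [hw, hvu])
  have hw0 : w l ≠ 0 := fun h => by simp [h] at hvw
  obtain ⟨k, hk⟩ := h4r
  have hk0 : 1 ≤ k := by omega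
  obtain ⟨k', rfl⟩ := Nat.exists_eq_add_of_le hk0
  have hrr : r * r = 8 * ((1 + k') * (2 * k' + 1)) + 1 := by
    have : r = 4 * k' + 3 := by omega
    rw [this]; ring
  have hcong : O.valuation ((η ^ (2 * j)) ^ a - (Aux.uu (π l) ^ (1 + k')) ^ (2 * k' + 1)) < 1 := by
    have h1 := nu.1 (hV.2.1.1 O r r φ φ hφ hφ hr.ne_zero (w l) (hwa l hl') (mo.2 hvw.le)).2
    have h3 := (hab 2 (w l) (by
      simp only [Finset.mem_insert, Finset.mem_image]
      exact Or.inr (Or.inr (Or.inr ⟨l, hl', rfl⟩)))).1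
    rw [← pow_two, h3, hσ2, hrr, pow_succ (w l), pow_mul (w l), hw, ← sub_mul, map_mul, hvw,
      mul_one, pow_mul (Aux.uu (π l))] at h1
    exact h1
  have hu0 : Aux.uu (π l) ≠ 0 := fun h => by simp [h] at hun
  have h4 : O.valuation ((Aux.uu (π l) ^ (1 + k')) ^ 4 - 1) < 1 := by
    have h1 := nu.1 (hφ _ (uu_alg hG.1) (mo.2 hvu.le)).2
    have h3 : (cj * φ) (om q) = om q := by
      change cj (φ (om q)) = _
      rw [hφom, map_sub, map_one, cj_om]; ring
    have h5 : φ (Aux.uu (π l)) = (Aux.uu (π l))⁻¹ := by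
      have h6 : cj (φ (Aux.uu (π l))) = Aux.uu (π l) := uu_fix hG.1 h3
      have h7 := congrArg cj h6
      rw [cj_inv (z := Aux.uu (π l)) (n := 1) one_ne_zero (by rw [pow_one, hun])] at h7
      exact (Complex.conj_conj _).symm.trans h7
    have e1 : (Aux.uu (π l) ^ (1 + k')) ^ 4 - 1 = Aux.uu (π l) * (Aux.uu (π l) ^ r - φ (Aux.uu (π l))) := by
      rw [h5, ← pow_mul, mul_comm (1 + k'), ← hk]
      field_simp
      ring
    rw [e1]
    exact v_mul_lt hvu.le (cong_symm h1)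
  have hvη : O.valuation η = 1 := v_root (n := 8) (by norm_num) (by rw [hη8, map_one])
  have hy : O.valuation (Aux.uu (π l) ^ (1 + k')) = 1 := by rw [map_pow, hvu, one_pow]
  have hc : O.valuation ((η ^ (2 * j)) ^ a) = 1 := by
    rw [map_pow, map_pow, hvη, one_pow, one_pow]
  obtain ⟨f1, f2⟩ := final h2 (odd_two_mul_add_one k') hy hc h4 hcong
  have e0 : (r + 1) / 2 ^ 0 = (1 + k') * 4 := by omega
  have e1 : (r + 1) / 2 ^ 1 = (1 + k') * 2 := by omega
  have e2 : (r + 1) / 2 ^ 2 = 1 + k' := by omega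
  have g0 : Aux.uu (π l) ^ ((r + 1) / 2 ^ 0) - 1 ∈ O.nonunits := by
    rw [e0, pow_mul, nu]; exact h4
  change (∀ i ≤ t l, Aux.uu (π l) ^ ((r + 1) / 2 ^ i) - 1 ∈ O.nonunits) ∧
    (t l < 2 → Aux.uu (π l) ^ ((r + 1) / 2 ^ (t l + 1)) - 1 ∉ O.nonunits)
  have ht3 : t l = 0 ∨ t l = 1 ∨ t l = 2 := by have := ht l; omega
  rcases ht3 with h | h | h
  · have g1 := f1 (by
      rw [hj, if_pos h, ← pow_mul, mul_comm a, pow_mul, ← pow_mul η, hη, ha.neg_one_pow])
    rw [h]
    refine ⟨fun i hi => ?_, fun _ => ?_⟩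
    · rw [Nat.le_zero.1 hi]; exact g0
    · rw [zero_add, e1, pow_mul, nu]; exact g1
  · have g1 := f2 (by rw [hj, if_neg (by omega), if_pos h, hη, ha.neg_one_pow])
    rw [h]
    refine ⟨fun i hi => ?_, fun _ => ?_⟩
    · obtain rfl | rfl : i = 0 ∨ i = 1 := by omega
      · exact g0
      · rw [e1, pow_mul, nu]; exact g1.1
    · rw [show 1 + 1 = 2 from rfl, e2, nu]; exact g1.2
  · have g1 := final_one (odd_two_mul_add_one k') hy h4 (by
      rw [hj, if_neg (by omega), if_neg (by omega)] at hcong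
      simpa using hcong)
    rw [h]
    refine ⟨fun i hi => ?_, fun h' => (lt_irrefl _ h').elim⟩
    obtain rfl | rfl | rfl : i = 0 ∨ i = 1 ∨ i = 2 := by omega
    · exact g0
    · rw [e1, pow_mul, nu]; exact g1.1
    · rw [e2, nu]; exact g1.2

end AuxA

theorem aux_thm (hV : VStmt) (hR : RStmt) : KA.AuxStmt := AuxA.main hV hR

end Pool.Agent.Lib.MP_d6ddbd_nt.KA
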