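import Pool.Agent.Lib.MP_d6ddbd_nt.KA.Stmt
import Pool.Agent.Lib.MP_d6ddbd_nt.KI.Bas
import Pool.Agent.Lib.MP_d6ddbd_nt.KI.Dk

/-!
The two-converse for all quadratic twists of `X₀(11)`: small lemmas on the twisting number.
-/

set_option autoImplicit false
set_option maxSynthPendingDepth 3

open Pool.Agent.Lib.MP_d6ddbd_nt.K11
open Pool.Agent.Lib.MP_d6ddbd_nt.KI (rt cq tw rt_sq cq_prod cq_ine cq_eq_one cq_or cq_of cq_one)

noncomputable section

namespace Pool.Agent.Lib.MP_d6ddbd_nt.KA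

variable {d δ c : ℤ} {q l : ℕ}

theorem ee_pos (h : (11 : ℤ) ∣ d) : ee d = -11 := if_pos h

theorem ee_neg (h : ¬ (11 : ℤ) ∣ d) : ee d = 1 := if_neg h

theorem ee_or (d : ℤ) : ((11 : ℤ) ∣ d ∧ ee d = -11) ∨ (¬ (11 : ℤ) ∣ d ∧ ee d = 1) := by
  by_cases h : (11 : ℤ) ∣ d
  exacts [Or.inl ⟨h, ee_pos h⟩, Or.inr ⟨h, ee_neg h⟩]

theorem eps_zero (h : ¬ (11 : ℤ) ∣ d) : eps d = 0 := if_neg h

theorem eps_one (h : (11 : ℤ) ∣ d) (h' : ¬ rx d) : eps d = 1 := by rw [eps, if_pos h, if_neg h']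

theorem eps_two (h : rx d) : eps d = 2 := by rw [eps, if_pos h.1, if_pos h]

theorem eps_le (d : ℤ) : eps d ≤ 2 := by
  unfold eps
  split_ifs <;> omega

theorem Bx_pos (h : rx d) (B : Finset ℕ) : Bx d B = insert 11 B := if_pos h

theorem Bx_neg (h : ¬ rx d) (B : Finset ℕ) : Bx d B = B := if_neg h

theorem twA_or (q : ℕ) (d : ℤ) (n : Finset ℕ) : twA q d n = d ∨ twA q d n = -(q * d) := by
  unfold twA
  split_ifs <;> simp

theorem fam_ne (h : Fam c) (hl : (l : ℤ) ∣ c) : l ≠ 2 ∧ l ≠ 11 := by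
  refine ⟨?_, ?_⟩ <;> rintro rfl
  · have := h.m4
    omega
  · exact h.n11 hl

theorem prime_int (hl : l.Prime) : Prime (l : ℤ) := Nat.prime_iff_prime_int.1 hl

namespace TD

theorem c_ne (h : TD d δ c) : c ≠ 0 := h.fam.sf.ne_zero

theorem δ_ne (h : TD d δ c) : δ ≠ 0 := by rcases h.dl with e | e | e | e <;> omega

theorem ee_ne (d : ℤ) : ee d ≠ 0 := by rcases ee_or d with e | e <;> omega

theorem ec_ne (h : TD d δ c) : ee d * c ≠ 0 := mul_ne_zero (ee_ne d) h.c_ne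

theorem eq' (h : TD d δ c) : d = δ * (ee d * c) := by rw [← mul_assoc]; exact h.eq

theorem ne (h : TD d δ c) : d ≠ 0 := by
  rw [h.eq']
  exact mul_ne_zero h.δ_ne h.ec_ne

theorem c_dvd (h : TD d δ c) : c ∣ d := Dvd.intro_left _ h.eq.symm

theorem ec_dvd (h : TD d δ c) : ee d * c ∣ d := Dvd.intro_left _ h.eq'.symm

theorem ec_m4 (h : TD d δ c) : ee d * c % 4 = 1 := by
  have := h.fam.m4
  rcases ee_or d with e | e <;> rw [e.2] <;> omega

theorem ec_sf (h : TD d δ c) : Squarefree (ee d * c) := by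
  rcases ee_or d with e | e <;> rw [e.2]
  · rw [squarefree_mul_iff]
    have p : Prime (-11 : ℤ) := (prime_int (l := 11) (by norm_num)).neg
    exact ⟨p.irreducible.isRelPrime_iff_not_dvd.2 (by simpa using h.fam.n11),
      p.irreducible.squarefree, h.fam.sf⟩
  · simpa using h.fam.sf

theorem sf (h : TD d δ c) : Squarefree d := by
  have h4 := h.ec_m4
  have p : Prime (2 : ℤ) := Int.prime_two
  have r : IsRelPrime (2 : ℤ) (ee d * c) := p.irreducible.isRelPrime_iff_not_dvd.2 (by omega)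
  rw [h.eq', squarefree_mul_iff]
  rcases h.dl with e | e | e | e <;> rw [e]
  · exact ⟨isRelPrime_one_left, squarefree_one, h.ec_sf⟩
  · exact ⟨isUnit_one.neg.isRelPrime_left, isUnit_one.neg.squarefree, h.ec_sf⟩
  · exact ⟨r, p.irreducible.squarefree, h.ec_sf⟩
  · exact ⟨p.neg.irreducible.isRelPrime_iff_not_dvd.2 (by rw [neg_dvd]; omega), p.neg.irreducible.squarefree,
      h.ec_sf⟩

theorem even_iff (h : TD d δ c) : Even d ↔ δ = 2 ∨ δ = -2 := by
  have h4 := h.ec_m4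
  have e := h.eq'
  generalize ee d * c = x at h4 e
  rw [Int.even_iff]
  rcases h.dl with a | a | a | a <;> subst a <;> omega

theorem odd_iff (h : TD d δ c) : Odd d ↔ δ = 1 ∨ δ = -1 := by
  rw [← Int.not_even_iff_odd, h.even_iff]
  have := h.dl
  omega

theorem even_δ (h : TD d δ c) : Even δ ↔ δ = 2 ∨ δ = -2 := by
  rw [Int.even_iff]
  have := h.dl
  omega

theorem dvd_ec (_h : TD d δ c) (hl : l.Prime) :
    (l : ℤ) ∣ ee d * c ↔ (l = 11 ∧ (11 : ℤ) ∣ d) ∨ (l : ℤ) ∣ c := by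
  rcases ee_or d with e | e <;> rw [e.2]
  · rw [(prime_int hl).dvd_mul, dvd_neg]
    refine or_congr_left ⟨fun a => ⟨?_, e.1⟩, fun a => by rw [a.1]; rfl⟩
    exact (Nat.prime_dvd_prime_iff_eq hl (by norm_num)).1 (by exact_mod_cast a)
  · simp [e.1]

/-- The odd primes of `d`. -/
theorem dvd_odd (h : TD d δ c) (hl : l.Prime) (h2 : l ≠ 2) : (l : ℤ) ∣ d ↔ (l : ℤ) ∣ ee d * c := by
  refine ⟨fun a => ?_, fun a => a.trans h.ec_dvd⟩
  rw [h.eq'] at a
  refine ((prime_int hl).dvd_mul.1 a).resolve_left fun b => h2 ?_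
  have b2 : (l : ℤ) ∣ 2 := by
    rcases h.dl with e | e | e | e <;> rw [e] at b
    · exact b.trans (by norm_num)
    · exact b.trans (by norm_num)
    · exact b
    · exact dvd_neg.1 b
  exact (Nat.prime_dvd_prime_iff_eq hl Nat.prime_two).1 (by exact_mod_cast b2)

theorem dvd_c (h : TD d δ c) (hl : l.Prime) (h2 : l ≠ 2) (h11 : l ≠ 11) :
    (l : ℤ) ∣ d ↔ (l : ℤ) ∣ c := by
  rw [h.dvd_odd hl h2, h.dvd_ec hl]
  simp [h11]

theorem nq (h : TD d δ c) (hq : QD q c) : ¬ (q : ℤ) ∣ d := fun a => by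
  have := hq.qf.big
  exact hq.nd ((h.dvd_c hq.qf.pr (by omega) (by omega)).1 a)

theorem ex (h : Squarefree d) : ∃ δ c, TD d δ c := by
  obtain ⟨x, hx⟩ : ee d ∣ d := by
    rcases ee_or d with e | e <;> rw [e.2]
    · exact neg_dvd.2 e.1
    · exact one_dvd d
  have sx : Squarefree x := h.squarefree_of_dvd (Dvd.intro_left _ hx.symm)
  have n11 : ¬ (11 : ℤ) ∣ x := by
    rcases ee_or d with e | e <;> rw [e.2] at hx
    · rintro ⟨y, rfl⟩
      exact (prime_int (l := 11) (by norm_num)).not_unit (h _ ⟨-y, by rw [hx]; push_cast; ring⟩)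
    · rw [one_mul] at hx
      exact hx ▸ e.1
  have n4 : ¬ (4 : ℤ) ∣ x := by
    rintro ⟨y, rfl⟩
    exact Int.prime_two.not_unit (sx 2 ⟨y, by ring⟩)
  have key : ∀ δ c : ℤ, (δ = 1 ∨ δ = -1 ∨ δ = 2 ∨ δ = -2) → x = δ * c → c % 4 = 1 →
      ∃ δ c, TD d δ c := fun δ c a b e =>
    ⟨δ, c, ⟨sx.squarefree_of_dvd (Dvd.intro_left _ b.symm), e,
      fun f => n11 (f.trans (Dvd.intro_left _ b.symm))⟩, a, by rw [mul_comm δ, mul_assoc, ← b, ← hx]⟩
  have : x % 4 = 1 ∨ x % 4 = 3 ∨ x % 8 = 2 ∨ x % 8 = 6 := by omega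
  rcases this with e | e | e | e
  · exact key 1 x (by simp) (by ring) e
  · exact key (-1) (-x) (by simp) (by ring) (by omega)
  · exact key 2 (x / 2) (by simp) (by omega) (by omega)
  · exact key (-2) (-(x / 2)) (by simp) (by omega) (by omega)

theorem div (h : TD d δ c) (h11 : (11 : ℤ) ∣ d) : d / -11 = δ * c := by
  have e := h.eq
  rw [ee_pos h11] at e
  exact Int.ediv_eq_of_eq_mul_right (by norm_num) (by rw [e]; ring)

theorem n11 (h : TD d δ c) : ¬ (11 : ℤ) ∣ δ * c := fun a => by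
  rcases (prime_int (l := 11) (by norm_num)).dvd_mul.1 a with b | b
  · rcases h.dl with e | e | e | e <;> rw [e] at b <;> omega
  · exact h.fam.n11 b

theorem jac_or (h : TD d δ c) : jacobiSym (δ * c) 11 = 1 ∨ jacobiSym (δ * c) 11 = -1 :=
  jacobiSym.eq_one_or_neg_one (Int.isCoprime_iff_gcd_eq_one.1
    ((prime_int (l := 11) (by norm_num)).irreducible.coprime_iff_not_dvd.2 h.n11).symm)

theorem rx_iff (h : TD d δ c) (h11 : (11 : ℤ) ∣ d) : rx d ↔ jacobiSym (δ * c) 11 = -1 := by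
  rw [rx, h.div h11]
  simp [h11]

theorem not_rx_iff (h : TD d δ c) (h11 : (11 : ℤ) ∣ d) : ¬ rx d ↔ jacobiSym (δ * c) 11 = 1 := by
  rw [h.rx_iff h11]
  rcases h.jac_or with e | e <;> simp [e]

end TD

theorem wA_or (h : d ≠ 0) : wA d = 1 ∨ wA d = -1 := by
  unfold wA
  split_ifs with a
  · rcases lt_or_gt_of_ne h with e | e
    · simp [Int.sign_eq_neg_one_of_neg e]
    · simp [Int.sign_eq_one_of_pos e]
  · exact jacobiSym.eq_one_or_neg_one (Int.isCoprime_iff_gcd_eq_one.1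
      ((prime_int (l := 11) (by norm_num)).irreducible.coprime_iff_not_dvd.2
        (by simpa using a)).symm)

theorem twA_ne (h : d ≠ 0) (hq : q ≠ 0) (n : Finset ℕ) : twA q d n ≠ 0 := by
  rcases twA_or q d n with e | e <;> simp [e, h, hq]

theorem cq_thm : CqStmt := by
  intro d δ c h
  have h1 : ∀ σ : G, cq d σ = cq δ σ * cq (ee d * c) σ := fun σ => by
    rw [← cq_prod h.δ_ne h.ec_ne, ← h.eq']
  have h2 : (11 : ℤ) ∣ d → ∀ σ : G, cq d σ = cq (-11) σ * cq (δ * c) σ := fun a σ => by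
    rw [← cq_prod (by norm_num) (mul_ne_zero h.δ_ne h.c_ne)]
    have e := h.eq
    rw [ee_pos a] at e
    congr 1
    rw [e]; ring
  refine ⟨h1, fun v O σ hv hd hO hσ => ⟨cq_eq_one.2 (KI.Dk.iner_fix h.ec_m4 hv hd hO hσ (rt_sq _)),
    fun v2 => cq_ine hv v2 hO (fun a => hd ((h.dvd_odd hv v2).1 a)) hσ⟩,
    fun a O hO => ⟨fun σ hσ => ?_, fun φ hφ e => ?_⟩⟩
  · rw [h2 a, cq_ine (v := 11) (by norm_num) (by norm_num) hO h.n11 hσ, mul_one]
  · have := cq_of (mul_ne_zero h.δ_ne h.c_ne) (rt_sq _) (KI.vA.2.1.2.2.2.2.2.2.2.2 11 O φ _ (δ * c)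
      (by norm_num) (by norm_num) h.n11 hO hφ (rt_sq _))
    rw [h2 a, e, one_mul, this, h.not_rx_iff a, h.rx_iff a]
    exact ⟨id, id⟩

end Pool.Agent.Lib.MP_d6ddbd_nt.KA
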