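import Pool.Agent.Lib.MP_d6ddbd_nt.KA.Stmt
import Pool.Agent.Lib.MP_d6ddbd_nt.K11.Good
import Pool.Agent.Lib.MP_d6ddbd_nt.K11.PF
import Pool.Agent.Lib.MP_d6ddbd_nt.K11.Pr

/-!
The two-converse for all quadratic twists of `X₀(11)`: the class `al0` is visible at a prime.
-/

set_option autoImplicit false

open NumberField IsDedekindDomain
open Pool.Agent.Stark (Pr og hq LSq pw)
open Pool.Agent.Stark.LocAux (mem_of_le pw_mul)
open Pool.Agent.Lib.MP_d6ddbd_nt.K11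

noncomputable section

namespace Pool.Agent.Lib.MP_d6ddbd_nt.KA

namespace Blk

variable {L : Type} [Field L] [NumberField L] {θ : L} {p : ℕ}

/-- The facts on the primes above a good prime. -/
theorem mkH (hθ : Cub θ) (hp : p.Prime) (h2 : p ≠ 2) (h11 : p ≠ 11) : Good.H θ p := by
  have : Fact p.Prime := ⟨hp⟩
  obtain ⟨-, -, a3, a4, a5, a6, -⟩ := pr_thm L θ hθ
  obtain ⟨b1, b2, -⟩ := a3 p hp h2 h11
  exact ⟨hp, fun 𝔭 e => (b1 𝔭 e).1, fun 𝔭 e => (b1 𝔭 e).2.1,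
    fun 𝔭 e => (b1 𝔭 e).2.2.2.1, b2, fun 𝔭 => (a5 𝔭).1, fun 𝔭 e n hn => by
      obtain ⟨l, hl, -, h3⟩ := (a5 𝔭).2
      rw [h3 n hn, (Nat.prime_dvd_prime_iff_eq hl hp).1 ((h3 p hp.ne_zero).1 e)],
    fun x => sub_ne_zero.2 (by simpa using (a6 x).1), fun α e => (a4 p α hp e).2, by
      have := (a4 p p hp (Nat.cast_ne_zero.2 hp.ne_zero)).1
      rw [← Rat.cast_natCast p, Good.nrm_rat hθ, padicValRat.pow, padicValRat.self hp.one_lt,
        Rat.cast_natCast] at this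
      refine Eq.trans (Finset.sum_congr rfl fun 𝔭 e => ?_) this.symm
      rw [(b1 𝔭 e).1, mul_one],
    fun α e e' => by
      simpa using pf_thm pr_thm L θ hθ p α p hp e e' (Nat.cast_ne_zero.2 hp.ne_zero)⟩

/-- A root of the cubic modulo `p` comes from a prime of degree one. -/
theorem root_prime (hθ : Cub θ) (h : Good.H θ p) {X : ℤ} (hX : fc (X : ZMod p) = 0) :
    ∃ 𝔭 ∈ ab L p, nm 𝔭 = p ∧ (X : L) - θ ∈ pw (𝔭.valuation L) 1 := by
  have : Fact p.Prime := ⟨h.pr⟩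
  obtain ⟨-, -, -, a4, -, a6, -⟩ := pr_thm L θ hθ
  obtain ⟨𝔭, k, e⟩ : ∃ 𝔭 ∈ ab L p, og 𝔭 ((X : L) - θ) ≠ 0 := by
    by_contra n
    push Not at n
    have h1 := (a4 p _ h.pr (h.ne X)).1
    have h2 := (a6 X).2
    have h3 : Algebra.norm ℚ ((X : L) - θ) ≠ 0 := Algebra.norm_ne_zero_iff.2 (h.ne X)
    rw [Rat.cast_intCast, ← Good.fc_cast] at h2
    rw [h2] at h3
    rw [Finset.sum_eq_zero fun 𝔮 k => by rw [n 𝔮 k, mul_zero], h2, padicValRat.of_int,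
      Nat.cast_eq_zero, padicValInt.eq_zero_iff] at h1
    rw [← Good.fc_cast, ZMod.intCast_zmod_eq_zero_iff_dvd] at hX
    rcases h1 with h1 | h1 | h1
    exacts [h.pr.ne_one h1, h3 (by simp [h1]), h1 hX]
  refine ⟨𝔭, k, (h.uniq k e).1, mem_of_le ?_⟩
  have := Pool.Agent.Stark.ComplAux.mem_pw_zero.1 (sub_mem (Good.int_pw 𝔭 X) (h.th0 𝔭))
  rw [og] at e
  omega

end Blk

open Blk in
theorem blk_thm (hC : ConstStmt) (hL : LocDAStmt) : BlkStmt := by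
  intro L _ _ θ hθ d δ c hd hr ho hb
  obtain ⟨-, a0, as, -, -, -, ae, -⟩ := hC L θ hθ
  obtain ⟨l, hl, hld, l11, x, hx, hn⟩ : ∃ l : ℕ, l.Prime ∧ (l : ℤ) ∣ d ∧ l ≠ 11 ∧
      ∃ x : ZMod l, fc x = 0 ∧ ¬ IsSquare (11 * fd x) := by
    by_contra n
    push Not at n
    exact hb ⟨hr, ho, n⟩
  have l2 : l ≠ 2 := by
    rintro rfl
    exact Int.not_even_iff_odd.2 ho (even_iff_two_dvd.2 hld)
  have e : d = 11 * c ∨ d = -(11 * c) := by
    have h1 := hd.eq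
    have h2 := Int.odd_iff.1 ho
    rw [ee, if_pos hr.1] at h1
    rcases hd.dl with h | h | h | h <;> rw [h] at h1 <;> omega
  have sf : Squarefree d := by
    have p11 : Prime (11 : ℤ) := Int.prime_iff_natAbs_prime.2 (by decide)
    have : Squarefree (11 * c) := squarefree_mul_iff.2
      ⟨p11.irreducible.isRelPrime_iff_not_dvd.2 hd.fam.n11, p11.squarefree, hd.fam.sf⟩
    rcases e with e | e
    · rwa [e]
    · rwa [e, ← Int.squarefree_natAbs, Int.natAbs_neg, Int.squarefree_natAbs]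
  have lc : (l : ℤ) ∣ c := by
    have : (l : ℤ) ∣ 11 * c := by
      rcases e with e | e
      · rwa [← e]
      · rwa [← dvd_neg, ← e]
    refine ((Nat.prime_iff_prime_int.1 hl).dvd_or_dvd this).resolve_left fun k => l11 ?_
    exact (Nat.prime_dvd_prime_iff_eq hl (by decide)).1 (by exact_mod_cast k)
  have H := mkH hθ hl l2 l11
  obtain ⟨X, rfl⟩ := ZMod.intCast_surjective x
  obtain ⟨𝔭, k, n, m⟩ := root_prime hθ H hx
  have c0 : c.natAbs ≠ 0 := Int.natAbs_ne_zero.2 hd.fam.sf.ne_zero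
  refine ⟨𝔭, Finset.mem_filter.2 ⟨(H.dv 𝔭 k _ c0).2 (Int.natCast_dvd.1 lc), n ▸ hl⟩, ?_⟩
  have cast : ((11 * fd X : ℤ) : ZMod l) = 11 * fd (X : ZMod l) := by simp [fd]
  rw [((hL L θ hθ d l sf hl hld l2 l11).1 _ a0 as 𝔭 k n).1 fun 𝔮 q => ae 𝔮 fun z =>
    l11 ((Nat.prime_dvd_prime_iff_eq hl (by decide)).1 ((H.dv 𝔮 q 11 (by decide)).1 z))]
  refine Good.nsq_one fun s => hn (cast ▸ (Good.red H k n (m := 11 * fd X)
    (fun z => hn (by rw [← cast, z]; exact IsSquare.zero)) ?_).2.2.1 s)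
  have i3 : (-33 : L) ∈ pw (𝔭.valuation L) 0 := by simpa using Good.int_pw 𝔭 (-33)
  convert pw_mul (l := 1) m (add_mem (Good.int_pw 𝔭 (88 - 33 * X)) (pw_mul i3 (H.th0 𝔭) le_rfl))
    le_rfl using 1
  simp only [al0, fd]
  push_cast
  ring

end Pool.Agent.Lib.MP_d6ddbd_nt.KA
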