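import Pool.Agent.Lib.MP_d6ddbd_nt.KA.Stmt
import Pool.Agent.Lib.MP_d6ddbd_nt.K11.AllX

/-!
From the system of cocycles to the system of classes, for all squarefree twists.
-/

set_option autoImplicit false
set_option maxSynthPendingDepth 3

open NumberField IsDedekindDomain Pointwise
open Pool.Agent.Lib.MP_02f36d_nt (xc yc)
open Pool.Agent.Stark (Pr og hq LSq pw zmod2_ext)
open Pool.Agent.Lib.MP_d6ddbd_nt.K11
open Pool.Agent.Lib.MP_d6ddbd_nt.KI (rt cq tw KolI KnI)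

noncomputable section

namespace Pool.Agent.Lib.MP_d6ddbd_nt.KA

namespace CK

theorem sf_ee (d : ℤ) : Squarefree (ee d) := by
  unfold ee
  split_ifs
  · rw [← Int.squarefree_natAbs]
    exact (by norm_num : Nat.Prime 11).squarefree
  · exact squarefree_one

theorem sf_td {d δ c : ℤ} (h : TD d δ c) : Squarefree d := by
  have hc := h.fam
  have p2 : Prime (2 : ℤ) := Int.prime_two
  have p11 : Prime (11 : ℤ) := Int.prime_iff_natAbs_prime.2 (by norm_num)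
  have c2 : ¬ (2 : ℤ) ∣ c := by
    have := hc.m4
    omega
  have h1 : Squarefree (ee d * c) := by
    rw [squarefree_mul_iff]
    refine ⟨?_, sf_ee d, hc.sf⟩
    unfold ee
    split_ifs
    · exact IsRelPrime.neg_left (p11.irreducible.isRelPrime_iff_not_dvd.2 hc.n11)
    · exact isRelPrime_one_left
  have h2 : ¬ (2 : ℤ) ∣ ee d * c := fun g => by
    refine c2 ((p2.dvd_or_dvd g).resolve_left ?_)
    unfold ee
    split_ifs <;> norm_num
  have h3 : Squarefree (2 * (ee d * c)) := by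
    rw [squarefree_mul_iff]
    exact ⟨p2.irreducible.isRelPrime_iff_not_dvd.2 h2, p2.squarefree, h1⟩
  have h4 := h.eq
  rw [mul_assoc] at h4
  rw [← Int.squarefree_natAbs] at h1 h3 ⊢
  rcases h.dl with g | g | g | g <;> rw [g] at h4
  · rwa [h4.trans (one_mul _)]
  · rwa [h4.trans (neg_one_mul _), Int.natAbs_neg]
  · rwa [h4]
  · rwa [h4.trans (neg_mul _ _), Int.natAbs_neg]

theorem dvd_td {d δ c : ℤ} (h : TD d δ c) : c ∣ d := ⟨δ * ee d, by rw [mul_comm]; exact h.eq⟩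

theorem not_dvd {d c : ℤ} {p : ℕ} (hp : p.Prime) (hc : ¬ (p : ℤ) ∣ c)
    (h : p = 11 → ¬ (11 : ℤ) ∣ d) : ¬ (p : ℤ) ∣ ee d * c := fun g => by
  refine hc (((Nat.prime_iff_prime_int.1 hp).dvd_or_dvd g).resolve_left ?_)
  unfold ee
  split_ifs with h11
  · intro g'
    have g1 : p ∣ 11 := by simpa using Int.natCast_dvd.1 g'
    exact h ((Nat.prime_dvd_prime_iff_eq hp (by norm_num)).1 g1) h11
  · intro g'
    exact hp.one_lt.ne' (by simpa using Int.natCast_dvd.1 g')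

theorem unr_of {d : ℤ} {O : ValuationSubring ℂ} {ξ : G → Pt}
    (h1 : ∀ σ : G, Frob O 1 σ → cq d σ = 1) (h : UnT d O ξ) : Unr O ξ := by
  obtain ⟨S, a, b⟩ := h
  refine ⟨S, a, fun σ hσ => ?_⟩
  have := b σ hσ
  simpa only [tw, h1 σ hσ, one_zsmul] using this

end CK

open K11.CK KA.CK in
theorem ck_thm (hDk2 : Dk2Stmt) (hT11 : T11Stmt) (hLoc : LocAStmt) (hN11 : N11Stmt)
    (hCq : CqStmt) (hP2 : P2Stmt) (hP11 : P11Stmt) : CKStmt := by
  classical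
  have hV := vAll
  have hR := rAll
  have hPr := pr_thm
  have hKum := kumAll
  have hLink1 := link1All
  have hLink2 := link2_thm vAll rAll pr_thm
  intro L _ _ θ hθ q d δ c K r₁ r₂ m M ξ hT hQ hr₁ hr₂ hK
  have hex : ∀ n j, ∃ α : L, α ≠ 0 ∧ IsSquare (Algebra.norm ℚ α) ∧
      (KnI m q c n → Kum θ α (ξ n j)) ∧ (¬ KnI m q c n → α = 1) := fun n j => by
    by_cases h : KnI m q c n
    · obtain ⟨α, a, b, c⟩ := (hKum L θ hθ).1 _ (hK.coc n j h)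
      exact ⟨α, a, b, fun _ => c, fun g => absurd h g⟩
    · exact ⟨1, one_ne_zero, by simp, fun g => absurd g h, fun _ => rfl⟩
  choose α h0 hN hKu h1 using hex
  have hd := hQ.fam
  have hsf := sf_td hT
  have hq := hQ.qf.big
  have sqc : ∀ n j, KnI m q c n → (IsSquare (α n j) ↔ Cob (ξ n j)) := fun n j h =>
    (hKum L θ hθ).2 _ _ (h0 n j) (hK.coc n j h) (hKu n j h)
  have atd : ∀ n, KnI m q c n → ∀ 𝔭 ∈ D1 L c, bv θ d 𝔭 (α n 0) = 0 ∧
      ∀ j, av 𝔭 (α n j) = bv θ d 𝔭 (α n (j + 1)) := fun n hn 𝔭 hp => by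
    obtain ⟨hp1, hp2⟩ := Finset.mem_filter.1 hp
    obtain ⟨-, l, hl, hpl, hl'⟩ := (hPr L θ hθ).2.2.2.2.1 𝔭
    have hlc : (l : ℤ) ∣ c :=
      Int.natCast_dvd.2 ((hl' _ (Int.natAbs_ne_zero.2 hd.sf.ne_zero)).1 hp1)
    have hld : (l : ℤ) ∣ d := hlc.trans (dvd_td hT)
    obtain ⟨h2, h11⟩ := fam_ne hd hlc
    have hP := (hPr L θ hθ).2.2.1 l hl h2 h11
    have hnm := (hP.1 𝔭 hpl).2.2.2.2.1 hp2
    obtain ⟨e₁, -, -, r1, -⟩ := roots hR
    obtain ⟨e, -⟩ := (hPr L θ hθ).2.2.2.2.2.2.2.1 e₁ r1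
    obtain ⟨O, he⟩ := hV.1.2.1 L e 𝔭
    have hO : Ov O l := by
      have := (hV.1.2.2.2.1 L e O 𝔭 he l (Nat.cast_ne_zero.2 hl.ne_zero)).2
        (by rw [(hP.1 𝔭 hpl).1]; exact one_pos)
      rwa [map_natCast] at this
    obtain ⟨s, hs⟩ := exists_sqrt d
    obtain ⟨σ, hσ, hσs⟩ := (hLink1 L θ hθ).2.1 l O s d hl hO hs hsf hld
    obtain ⟨φ, hφ⟩ := hV.1.2.2.2.2 l O hl hO
    obtain ⟨η, hη, hφs⟩ : ∃ η : ℤ, (η = 1 ∨ η = -1) ∧ φ s = η * s := by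
      rcases sgn (σ := φ) (s := s) (by rw [hs, map_intCast]) with g | g
      · exact ⟨1, Or.inl rfl, by simp [g]⟩
      · exact ⟨-1, Or.inr rfl, by simp [g]⟩
    have hc := nr_cases hPr hθ hl h2 h11 hpl hnm
    obtain ⟨Z, S, a, b, c⟩ := hK.atd n l O σ φ η s hn hl hlc (by omega) hO hσ hφ hs hσs hφs
    have lc := fun j => hLoc L θ hθ d l 𝔭 e O σ φ η s (α n j) (ξ n j) hsf hl hld h2 h11 hpl hnm hO
      he hσ hφ hs hσs hη hφs (h0 n j) (hN n j) (hK.coc n j hn) (hKu n j hn)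
    have lb : ∀ j, bv θ d 𝔭 (α n j) = wl (e θ) (Z j) := fun j =>
      (lc j).2.2 _ _ (a j).1 (a j).2.1 (a j).2.2
    rcases hc with g | g
    · have hφe : φ (e θ) = e θ := (((hLink1 L θ hθ).1 e O 𝔭 l 1 1 hl h2 h11 hpl he one_ne_zero
        (by simp)).2 φ (hnm ▸ hφ) (by simp [og])).1
      have fx := fun j => fix_iff hR (fc_emb hθ e) hφe
        (((hR.2 l O hl h2 h11 hO).2.2.2.2.2.2.2 φ hφ).2.1.1 g).2 (a j).1
      refine ⟨by rw [lb, ← fx]; exact (c g).1, fun j => zmod2_ext ?_⟩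
      rw [(lc j).2.1 g, lb, ← fx, ← (c g).2 j, sub_eq_zero]
    · refine ⟨by rw [lb, (b g).1]; exact wl_eq_zero.2 (Or.inl rfl), fun j => ?_⟩
      rw [(lc j).1 g, lb, (b g).2 j]
  have atp : ∀ n j p, KnI m q c n → KolI m q c p → p ∉ n →
      fv p (α (insert p n) j) = 0 ∧ sv p (α (insert p n) j) = fv p (α n j) := by
    intro n j p hn hp hpn
    have hn' : KnI m q c (insert p n) := fun x hx => by
      rcases Finset.mem_insert.1 hx with rfl | hx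
      exacts [hp, hn x hx]
    obtain ⟨O, φ, hO, hφ, -⟩ := hp.fr
    obtain ⟨s, hs⟩ := exists_sqrt (GF.pst p)
    obtain ⟨σ, hσ, hσs⟩ := (hLink1 L θ hθ).2.1 p O s _ hp.pr hO hs (pst_sf hp.pr).1
      (pst_sf hp.pr).2
    obtain ⟨a, b⟩ := hK.atp n j p O σ φ s hn hp hpn hO hσ hφ hs hσs
    have lk := fun k (hk : KnI m q c k) => ((hLink1 L θ hθ).2.2 _ _ (h0 k j) (hN k j)
      (hK.coc k j hk) (hKu k j hk)).2 p O σ φ s hp.pr hp.n2 hp.n11 hp.ty hO hσ hφ hs hσs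
    refine ⟨(lk _ hn').2.2 b, zmod2_ext ?_⟩
    rw [(lk _ hn').1, (lk _ hn).2, ← a, smul_eq_zero']
  have at11 : ∀ n, KnI m q c n → (11 : ℤ) ∣ d →
      (rx d → b11 θ (α n 0) = 0 ∧ b11 θ (α n 1) = a11 (α n 0) ∧
        ∀ j, b11 θ (α n (j + 2)) = a11 (α n (j + 1)) + a11 (α n j)) ∧
      (¬ rx d → (∀ j, a11 (α n j) = 0) ∧ ∑ j ∈ Finset.range (M + 1), b11 θ (α n j) = 0) := by
    intro n hn h11
    obtain ⟨O, hO⟩ := hV.1.1 11 (by norm_num)
    obtain ⟨φ, hφ, hφ'⟩ := (hN11 O hO).2.2.1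
    obtain ⟨a, b, h, g⟩ := hK.at11 n O φ hn h11 hO hφ hφ'
    have t := fun j => hT11 L θ hθ d O φ (α n j) (ξ n j) (a j) (b j) hO hφ hφ'
      ((hCq d δ c hT).2.2 h11 O hO).1 (h0 n j) (hN n j) (hK.coc n j hn) (hKu n j hn) (h j)
    simpa only [fun j => (t j).1, fun j => (t j).2] using g
  refine ⟨α, ⟨fun n j hn => ?_, fun n j hj => ?_, ?_, fun n hn 𝔭 hp => (atd n hn 𝔭 hp).1,
    fun n j hn 𝔭 hp => (atd n hn 𝔭 hp).2 j, fun n j hn p hp => ?_,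
    fun n j p hn hp hpn => (atp n j p hn hp hpn).2, fun n hn h => (at11 n hn h.1).1 h,
    fun n hn h h' => ((at11 n hn h).2 h').2⟩, fun n hn => hKu n 0 hn⟩
  · have a2 : A2 θ d (α n j) := hDk2 L θ hθ d δ c _ _ hT (h0 n j) (hN n j) (hK.coc n j hn)
      (hKu n j hn) fun O hO => hK.unr n j 2 O hn Nat.prime_two hO (by omega) hr₁.n2.symm
        hr₂.n2.symm fun g => (hn 2 g).n2 rfl
    refine ⟨h0 n j, hN n j, a2, fun p hp hpd hpn => ?_⟩
    have hpn' : p ≠ q ∧ p ∉ n ∧ (p = 11 → ¬ rx d) := by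
      unfold Bx at hpn
      split_ifs at hpn with g
      · simp only [Finset.mem_insert, not_or] at hpn
        exact ⟨hpn.2.1, hpn.2.2, fun g' => absurd g' hpn.1⟩
      · simp only [Finset.mem_insert, not_or] at hpn
        exact ⟨hpn.1, hpn.2, fun _ => g⟩
    by_cases h2 : p = 2
    · rw [h2]
      exact ((hP2 L θ hθ).2 d _ _ (h0 n j) (h0 n j) (hN n j) (hN n j) a2 a2).2.2
    by_cases hpr : p = r₁ ∨ p = r₂
    · intro 𝔭 h𝔭
      have h11 : p ≠ 11 ∧ nr p = 0 := by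
        rcases hpr with rfl | rfl
        exacts [⟨hr₁.n11, hr₁.ty⟩, ⟨hr₂.n11, hr₂.ty⟩]
      obtain ⟨𝔮, a, b⟩ := ((hPr L θ hθ).2.2.1 p hp h2 h11.1).2.2.1 h11.2
      have c := ((hPr L θ hθ).2.2.2.1 p _ hp (h0 n j)).2 (hN n j)
      rw [a, Finset.mem_singleton] at h𝔭
      rw [a, Finset.sum_singleton, b, Nat.log_pow hp.one_lt, ← h𝔭] at c
      obtain ⟨c, hc⟩ := c
      exact ⟨c - og 𝔭 (α n j), by push_cast at hc; omega⟩
    rw [not_or] at hpr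
    by_cases h11d : p = 11 ∧ (11 : ℤ) ∣ d
    · obtain ⟨rfl, g⟩ := h11d
      exact ((hP11 L θ hθ).2.1 _ (h0 n j) (hN n j)).1 (((at11 n hn g).2 (hpn'.2.2 rfl)).1 j)
    have un : ∀ O, Ov O p → Unr O (ξ n j) := fun O hO => unr_of
      (fun σ hσ => ((hCq d δ c hT).2.1 p O σ hp (not_dvd hp hpd fun a b => h11d ⟨a, b⟩) hO hσ).2 h2)
      (hK.unr n j p O hn hp hO hpn'.1 hpr.1 hpr.2 hpn'.2.1)
    by_cases h11 : p = 11
    · subst h11
      exact (hLink2 L θ hθ _ _ (h0 n j) (hN n j) (hK.coc n j hn) (hKu n j hn)).2 un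
    · exact ((hLink1 L θ hθ).2.2 _ _ (h0 n j) (hN n j) (hK.coc n j hn) (hKu n j hn)).1 p hp h2
        h11 un
  · by_cases hn : KnI m q c n
    · exact (sqc n j hn).2 ⟨0, nsmul_zero 2, fun σ => by rw [hK.top n j σ hj, sz, sub_zero]⟩
    · rw [h1 n j hn]
      exact IsSquare.one
  · obtain ⟨n, j, hn, h⟩ := hK.ne
    exact ⟨n, j, hn, fun g => h ((sqc n j hn).1 g)⟩
  · have := (atp (n.erase p) j p (fun x hx => hn x (Finset.mem_of_mem_erase hx)) (hn p hp)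
      (Finset.notMem_erase p n)).1
    rwa [Finset.insert_erase hp] at this

end Pool.Agent.Lib.MP_d6ddbd_nt.KA
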