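import Pool.Agent.Lib.MP_d6ddbd_nt.KA.Stmt
import Pool.Agent.Lib.MP_d6ddbd_nt.KI.Ch
import Pool.Agent.Lib.MP_d6ddbd_nt.KI.Fb
import Pool.Agent.Lib.MP_d6ddbd_nt.KI.Fv
import Pool.Agent.Lib.MP_d6ddbd_nt.K11.AllX

/-!
The choice of the next prime of a chain.
-/

set_option autoImplicit false
set_option maxSynthPendingDepth 3

open NumberField
open Pool.Agent.Lib.MP_02f36d_nt (xc yc)
open Pool.Agent.Stark (og SqCl cl cl_mul cl_eq_zero cl_eq_cl)
open Pool.Agent.Lib.MP_d6ddbd_nt.K11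
open Pool.Agent.Lib.MP_d6ddbd_nt.K11.R1 (wl_ne)
open Pool.Agent.Lib.MP_d6ddbd_nt.KI (rt cq tw Cy Cb Kl Sel Hm Wq Ag)
open Pool.Agent.Lib.MP_d6ddbd_nt.KI.Cm (fc_emb emb_ext cy_coc nn_mem kw hm_iff tw_zs cyc pt_root
  fix_root tor_one tor_smul)
open Pool.Agent.Lib.MP_d6ddbd_nt.KI.Ch (odd_cancel cy_ag cy_pow cy_top cb_ff)

noncomputable section

namespace Pool.Agent.Lib.MP_d6ddbd_nt.KA

namespace ChA

theorem sep {V : Type} [AddCommGroup V] [Module (ZMod 2) V] {a u v : V} (h0 : a ≠ 0) (hu : a ≠ u)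
    (hv : a ≠ v) (huv : a ≠ u + v) : ∃ l : V →ₗ[ZMod 2] ZMod 2, l a = 1 ∧ l u = 0 ∧ l v = 0 := by
  have : a ∉ Submodule.span (ZMod 2) {u, v} := fun h => by
    obtain ⟨i, j, e⟩ := Submodule.mem_span_pair.1 h
    rcases KI.Iso.z2 i with rfl | rfl <;> rcases KI.Iso.z2 j with rfl | rfl <;>
      simp only [zero_smul, one_smul, add_zero, zero_add] at e
    exacts [h0 e.symm, hv e.symm, hu e.symm, huv e.symm]
  obtain ⟨l, l1, l2⟩ := LinearMap.exists_extend_of_notMem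
    (0 : Submodule.span (ZMod 2) {u, v} →ₗ[ZMod 2] ZMod 2) this 1
  exact ⟨l, l2, LinearMap.congr_fun l1 ⟨u, Submodule.subset_span (by simp)⟩,
    LinearMap.congr_fun l1 ⟨v, Submodule.subset_span (by simp)⟩⟩

theorem ku_zs {c : ℤ} {n : Finset ℕ} {x : G → Pt} (h : Ku c n x) (u : ℤ) : Ku c n (u • x) :=
  fun l O hl hn hO => by
  obtain ⟨S, a, b⟩ := h l O hl hn hO
  let H : AddSubgroup Pt := ⟨⟨⟨{P | AlgP P}, fun {x y} => R1.alg_add x y⟩, r1_thm.1.1⟩,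
    fun {x} => r1_thm.1.2.2.1 x⟩
  exact ⟨u • S, H.zsmul_mem a u, fun σ hσ => by rw [Pi.smul_apply, b σ hσ, tw_zs, smul_sub]⟩

theorem td_sf {d δ c : ℤ} (h : TD d δ c) : Squarefree d := by
  have p2 : Prime (2 : ℤ) := Int.prime_two
  have p11 : Prime (11 : ℤ) := Int.prime_iff_natAbs_prime.2 (by norm_num)
  have c2 : IsCoprime (2 : ℤ) c := (p2.irreducible.coprime_iff_not_dvd).2 (by
    have := h.fam.m4
    omega)
  have c11 : IsCoprime (11 : ℤ) c := (p11.irreducible.coprime_iff_not_dvd).2 h.fam.n11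
  have s := h.fam.sf
  have s11 : Squarefree (11 * c) := squarefree_mul_iff.2 ⟨c11.isRelPrime, p11.squarefree, s⟩
  have s2 : Squarefree (2 * c) := squarefree_mul_iff.2 ⟨c2.isRelPrime, p2.squarefree, s⟩
  have s22 : Squarefree (2 * (11 * c)) := squarefree_mul_iff.2
    ⟨(IsCoprime.mul_right (by norm_num) c2).isRelPrime, p2.squarefree, s11⟩
  refine s22.squarefree_of_dvd ?_
  rw [h.eq, ← mul_assoc]
  refine mul_dvd_mul_right (mul_dvd_mul ?_ ?_) c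
  · rcases h.dl with e | e | e | e <;> rw [e] <;> norm_num
  · unfold ee
    split_ifs <;> norm_num

theorem td_nd {d δ c : ℤ} {q : ℕ} (h : TD d δ c) (hq : QD q c) : ¬ (q : ℤ) ∣ d := fun i => by
  have b := hq.qf.big
  have : (q : ℤ) ∣ 2 * 11 * c := by
    refine i.trans ?_
    rw [h.eq]
    refine mul_dvd_mul_right (mul_dvd_mul (b := 2) (d := 11) ?_ ?_) c
    · rcases h.dl with e | e | e | e <;> rw [e] <;> norm_num
    · unfold ee
      split_ifs <;> norm_num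
  rcases (Nat.prime_iff_prime_int.1 hq.qf.pr).dvd_or_dvd this with j | j
  · have := Int.le_of_dvd (by norm_num) j
    omega
  · exact hq.nd j

end ChA

open ChA in
theorem ch_thm (hCm : CmAStmt) (hCha : ChaStmt) (hNv : NvStmt) (hDk : DkAStmt) (hSc : ScStmt) :
    ChStmt := by
  classical
  intro L _ _ θ hθ q d δ c k m W n a y z z' N td hb hq h8 hk hkm hW hn ha hns hy hy0 hz hz'
  have hR := rAll
  have hPr := pr_thm
  have hK := kumAll
  have hL1 := link1All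
  have hFb := KI.fb_thm
  have hFv := KI.fv_thm
  have hm : m ≠ 0 := by omega
  have n11 : 11 ∉ n := fun h => (hn 11 h).2.2.1 rfl
  have n2 : 2 ∉ n := fun h => (hn 2 h).2.1 rfl
  have hw := ha.sc.wa
  have sa := hSc L θ hθ d δ c n a td n11 ha.sc
  have z0 : al0 θ ≠ 0 := fun i => sa.2.1 hb (by rw [i, mul_zero]; exact IsSquare.zero)
  have na : cl a ≠ 0 := fun i => hns ((cl_eq_zero hw.ne).1 i)
  have nb : cl a ≠ cl (al0 θ) := fun i => sa.2.1 hb ((cl_eq_cl hw.ne z0).1 i)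
  obtain ⟨e', -, he'⟩ := (hPr L θ hθ).2.2.2.2.2.2.2.2.2
  let e : L →+* ℂ := Complex.ofRealHom.comp e'
  have hce : ∀ y, cj (e y) = e y := fun y => Complex.conj_ofReal _
  obtain ⟨s, hs, hcs⟩ : ∃ s : ℂ, s ^ 2 = e a ∧ cj s = s := ⟨(Real.sqrt (e' a) : ℝ), by
    show ((Real.sqrt (e' a) : ℝ) : ℂ) ^ 2 = ((e' a : ℝ) : ℂ)
    rw [← Complex.ofReal_pow, Real.sq_sqrt (he' a hw.ne hw.sq).le], Complex.conj_ofReal _⟩
  have s0 : s ≠ 0 := fun b => hw.ne ((map_eq_zero e).1 (by rw [← hs, b]; simp))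
  have f0 := fc_emb hθ e
  have fx : ∀ σ : G, (∀ T : Pt, 2 • T = 0 → σ • T = T) → σ (s ^ 2) = s ^ 2 := fun σ hσ => by
    rw [hs]
    exact emb_ext hPr hθ (e := σ.toRingHom.comp e) (fix_root hσ f0) a
  obtain ⟨T, T2, T1⟩ : ∃ T : Pt, 2 • T = 0 ∧ wl (e θ) T ≠ 0 := by
    obtain ⟨ω, -, w⟩ := cyc
    obtain ⟨b1, b2, b3⟩ := pt_root (x := ω (e θ)) (by rw [← R1.map_fc, f0, map_zero])
    exact ⟨_, b2, by rw [wl_ne b1 (by rw [b3]; exact (w _ f0).1)]; exact one_ne_zero⟩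
  have ga : a ≠ 0 ∧ IsSquare (Algebra.norm ℚ a) := ⟨hw.ne, hw.sq⟩
  obtain ⟨g, g1, g2, g3⟩ : ∃ g, Hm m W g ∧ g s ≠ s ∧
      (y = 0 ∨ ¬ Cb d (2 ^ (k - 1) • y) ∧ 2 ^ (k - 1) • y g = 0) := by
    rcases hy0 with b | ⟨O, φ, b1, b2, b3⟩
    · obtain ⟨l, hl, l0, -⟩ := sep (u := cl (al0 θ)) (v := 0) na nb na (by rwa [add_zero])
      obtain ⟨g, g1, g2⟩ := hCm L θ hθ q m W {a} l T hm hW (by simpa using ga) (Or.inr l0) T2
      exact ⟨g, g1, fun i => by simpa [hl, T1] using ((g2 a (by simp)).1 e s hs).1 i, Or.inl b⟩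
    have q2 : q ≠ 2 := by have := hq.qf.big; omega
    have q11 : q ≠ 11 := by have := hq.qf.big; omega
    have c1 := cy_top hy.cy hk
    have c2 := cy_coc c1
    obtain ⟨α, a0, a1, a2⟩ := (hK L θ hθ).1 _ c2
    have a3 := hDk L θ hθ d δ c n α _ td n2 n11 (fun p hp => (hn p hp).2.2.2.2.1) a0 a1 c2 a2 (by
      have := ku_zs (c := d) (n := n) hy.kl ((2 ^ (k - 1) : ℕ) : ℤ)
      rwa [natCast_zsmul] at this)
    obtain ⟨σ, d1, d2⟩ := (hL1 L θ hθ).2.1 q O _ _ hq.qf.pr b1 (KI.rt_sq (GF.pst q))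
      (CK.pst_sf hq.qf.pr).1 (CK.pst_sf hq.qf.pr).2
    have a4 : fv q α = 1 := (KI.Iso.z2 _).resolve_left fun i => b3
      ((((hL1 L θ hθ).2.2 α _ a0 a1 c2 a2).2 q O σ φ _ hq.qf.pr q2 q11 hq.ty b1 d1 b2
        (KI.rt_sq _) d2).2.1 i)
    obtain ⟨l', l1, l0, l2⟩ := sep (u := cl (al0 θ)) (v := cl α) na nb (fun i => by
      have := congrArg (Asm.lin (Asm.ad_fv q)) i
      rw [Asm.lin_cl _ hw.ne, Asm.lin_cl _ a0, ha.fq, a4] at this
      exact zero_ne_one this) (fun i => by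
      refine (hSc L θ hθ d δ c n _ td n11 (sa.1 α a3)).2.1 hb ?_
      rw [← cl_mul z0 a0, cl_eq_cl hw.ne (mul_ne_zero z0 a0)] at i
      rwa [mul_assoc, mul_comm α])
    obtain ⟨g, g1, g2⟩ := hCm L θ hθ q m W {a, α} l' T hm hW (fun β hβ => by
      rcases Finset.mem_insert.1 hβ with rfl | i
      · exact ga
      · rw [Finset.mem_singleton.1 i]
        exact ⟨a0, a1⟩) (Or.inr l0) T2
    refine ⟨g, g1, fun i => by simpa [l1, T1] using ((g2 a (by simp)).1 e s hs).1 i,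
      Or.inr ⟨fun i => b3 (cb_ff c1 i fun P hP => ?_), ?_⟩⟩
    · rw [mul_smul]
      exact (((hR.2 q O hq.qf.pr q2 q11 b1).2.2.2.2.2.2.2 φ b2).2.1.1 hq.ty).1 P hP
    · simpa [l2] using (g2 α (by simp)).2 _ c2 a2
  obtain ⟨nv, nv'⟩ := hNv L θ hθ q d δ c n td hq h8 hb hn
  obtain ⟨h, h1, h2, h3, h4, h5⟩ := hCha L θ hθ q d k m n W g y z z' hq.qf (td_sf td) (td_nd td hq)
    nv nv' hk hkm hW g1 hy.cy hy.kl hz.cy hz.kl hz'.cy hz'.kl g3
  have h6 : h s = -s := by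
    rw [h2 s fx]
    refine (sq_eq_sq_iff_eq_or_eq_neg.1 ?_).resolve_left g2
    rw [← map_pow, fx g fun P hP => g1.tor P (tor_one hm hP)]
  obtain ⟨J1, i1, j1⟩ := cy_ag hy.cy
  obtain ⟨J2, i2, j2⟩ := cy_ag hz.cy
  obtain ⟨J3, i3, j3⟩ := cy_ag hz'.cy
  obtain ⟨p, O, φ, b, p1, p2, p3, p4, p5, p6, p7, p8, p9, p10, p11, p12⟩ := hFb q m W h
    (insert s (J1 ∪ (J2 ∪ J3))) (N + 11 + q + c.natAbs + ∑ x ∈ n, x) hm hW h1 (fun x hx => by
      simp only [Finset.mem_insert, Finset.mem_union] at hx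
      rcases hx with rfl | i | i | i
      · exact IsAlgebraic.of_pow two_pos (by
          rw [hs]
          exact (Algebra.IsAlgebraic.isAlgebraic (R := ℚ) a).algHom e.toRatAlgHom)
      exacts [i1 x i, i2 x i, i3 x i])
  have d0 : c ≠ 0 := hq.fam.sf.ne_zero
  have pd : ¬ (p : ℤ) ∣ c := fun i => by
    have := Nat.le_of_dvd (Int.natAbs_pos.2 d0) (Int.natCast_dvd.1 i)
    omega
  have pn : p ∉ n := fun i => by
    have : p ≤ ∑ x ∈ n, x := Finset.single_le_sum (f := fun x => x) (fun _ _ => zero_le) i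
    omega
  have pb : p ∉ Bx d n := by
    unfold Bx
    split_ifs
    · rw [Finset.mem_insert, not_or]
      exact ⟨by omega, pn⟩
    · exact pn
  have nn := nn_mem (kw hW) (hm_iff.1 h1)
  have val : ∀ {c : ℤ} {x : G → Pt} {J : Finset ℂ}, Cy c k x → (∀ σ τ, Ag J σ τ → x σ = x τ) →
      J ⊆ J1 ∪ (J2 ∪ J3) → x (φ * φ) = b • x (cj * h * (cj * h)) := fun hx hJ i => by
    rw [← cy_pow hx hkm nn, ← pow_two, ← pow_two, ← pow_mul, mul_comm 2 b]
    exact hJ _ _ fun w hw => p10 2 w (Finset.mem_insert_of_mem (i hw))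
  have can : ∀ {c : ℤ} {x : G → Pt} {u : ℤ}, Cy c k x → u • b • x (cj * h * (cj * h)) = 0 →
      u • x (cj * h * (cj * h)) = 0 := fun hx i =>
    odd_cancel p5 (k := k) (by rw [smul_comm, hx.tor, smul_zero]) (by rwa [smul_comm])
  refine ⟨p, O, φ, by omega, ⟨p2, by omega, by omega, by omega, pd, p6,
    (p11 q hq.qf.pr (by have := hq.qf.big; omega) (by omega)).2 hq.qf.m4, p8, O, φ, p3, p4,
    fun P hP => by rw [p9 P hP, p9 _ (tor_smul cj hP), ← mul_smul, cj_mul_cj, one_smul]⟩, p12, p3,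
    p4, (KI.Iso.z2 _).resolve_left fun i => s0 ?_, ?_, fun u i => h4 u (can hz.cy ?_),
    fun u i => h5 u (can hz'.cy ?_)⟩
  · obtain ⟨-, t2, t3⟩ := pt_root f0
    have t4 := congrArg xc (p9 _ (tor_one hm t2))
    rw [xc_smul, xc_smul, t3, hce] at t4
    have t5 := (hFv L θ hθ p O φ e a s p2 (by omega) (by omega) p8 p3 p4 t4 hw.ne
      (hw.ev p p2 pd pb) hs).1 i
    have t6 : (cj * h) s = -s := by rw [RingAut.mul_apply, h6, map_neg, hcs]
    have t7 := p10 1 s (Finset.mem_insert_self _ _)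
    rw [pow_one, mul_one, Cheb.pow_odd (by rw [t6, map_neg, t6, neg_neg]) p5, t6, t5] at t7
    linear_combination t7 / 2
  · rw [val hy.cy j1 Finset.subset_union_left, h3, smul_zero]
  · rwa [val hz.cy j2 (Finset.subset_union_left.trans Finset.subset_union_right)] at i
  · rwa [val hz'.cy j3 (Finset.subset_union_right.trans Finset.subset_union_right)] at i

end Pool.Agent.Lib.MP_d6ddbd_nt.KA
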