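import Pool.Agent.Lib.MP_d6ddbd_nt.KA.Stmt
import Pool.Agent.Lib.MP_d6ddbd_nt.KI.Cha
import Pool.Agent.Lib.MP_d6ddbd_nt.KI.Fr

/-! The choice of an element of `H` that detects the classes on both twists. -/

set_option autoImplicit false
set_option maxSynthPendingDepth 3

open Pool.Agent.Lib.MP_02f36d_nt (xc yc)
open Pool.Agent.Lib.MP_d6ddbd_nt.K11
open Pool.Agent.Lib.MP_d6ddbd_nt.KI (rt cq tw Cy Cb Kl Sel Hm Wq Hs Hs_normal)
open Pool.Agent.Lib.MP_d6ddbd_nt.KI.Cha (hm_iff kw twh alg_z nm mul conj one nn nm_tor nm_cmp gen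
  half pick cy_sub vals Fx fx)

noncomputable section

namespace Pool.Agent.Lib.MP_d6ddbd_nt.KA

namespace ChaA

variable {c : ℤ} {q : ℕ} {n : Finset ℕ} {x y : G → Pt}

theorem ku_sub (hx : Ku c n x) (hy : Ku c n y) (v : ℤ) : Ku c n (x - v • y) :=
  fun l O hl hn hO => by
  obtain ⟨S, a, b⟩ := hx l O hl hn hO
  obtain ⟨S', a', b'⟩ := hy l O hl hn hO
  refine ⟨S + (-v) • S', r1_thm.1.2.1 _ _ a (alg_z a' _), fun σ hσ => ?_⟩
  have := (twh c σ).map_add S ((-v) • S')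
  rw [map_zsmul] at this
  rw [Pi.sub_apply, Pi.smul_apply, b σ hσ, b' σ hσ]
  refine Eq.trans ?_ (congrArg (· - _) this.symm)
  show _ = tw c σ S + (-v) • tw c σ S' - _
  module

theorem sig {d : ℤ} (h : QF q) (hd : Squarefree d) (nd : ¬ (q : ℤ) ∣ d) :
    ∃ σ : G, (∀ (n : ℕ) (T : Pt), 2 ^ n • T = 0 → σ • T = T) ∧
    cq d σ = 1 ∧ cq (-(q * d)) σ = -1 := by
  have hq := h.pr
  have b := h.big
  have hp := Nat.prime_iff_prime_int.1 hq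
  obtain ⟨O, hO⟩ := v1_thm.1 q hq
  have sf : Squarefree (-(q * d : ℤ)) := by
    rw [← neg_mul, squarefree_mul_iff]
    exact ⟨(hp.neg.irreducible.isRelPrime_iff_not_dvd).2 fun e => nd ((neg_dvd).1 e),
      hp.neg.squarefree, hd⟩
  obtain ⟨σ, h1, h2⟩ := Link1.partB ⟨v1_thm, v2_thm, v3_thm v1_thm, v4_thm v1_thm⟩ hq hO
    (KI.rt_sq _) sf (dvd_neg.2 (dvd_mul_right _ _))
  obtain ⟨-, -, r3, -, r5, -⟩ := r2_thm v1_thm v2_thm r1_thm q O hq (by omega) (by omega) hO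
  refine ⟨σ, fun n T hT => sub_eq_zero.1 (r5 n _ ?_ (r3 σ T h1 ((Cheb.tors r1_thm n).2 T hT))),
    if_pos (Loc0.fix_of_val (i := 0) hq (by omega) hO h1 (V2.alg_of_sq (KI.rt_sq d))
      (V2.sq_cases σ (KI.rt_sq d)) ?_), if_neg fun e => sf.ne_zero ?_⟩
  · rw [smul_sub, KI.Cm.tor_smul σ hT, hT, sub_zero]
  · rw [KI.rt_sq, Loc0.val_int hq hO nd, mul_zero, zpow_zero]
  · have := KI.rt_sq (-(q * d : ℤ))
    rw [self_eq_neg.1 (e.symm.trans h2), zero_pow two_ne_zero] at this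
    exact_mod_cast this.symm

end ChaA

open ChaA in
theorem cha_thm (hS : SurjAStmt) : ChaStmt := by
  intro L _ _ θ hθ q d k m n W g₀ y z z' hq hd nd nv nv' hk hm hW hg hy ky hz kz hz' kz' h0
  have hF := KI.fr_thm
  have m0 : m ≠ 0 := by omega
  rw [hm_iff] at hg
  obtain ⟨σ, s1, s2, s3⟩ := ChaA.sig hq hd nd
  let f : G → Pt × Pt × Pt := fun h => (nm d (y h), nm d (z h), nm (-(q * d)) (z' h))
  have hf : ∀ a ∈ Hs m W, ∀ b, f (a * b) = f a + f b := fun a ha b => by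
    simp only [f, mul hy hm ha, mul hz hm ha, mul hz' hm ha, map_add, Prod.mk_add_mk]
  let R := vals (Hs m W) f hf
  let R0 := vals (Hs m W ⊓ Fx) f fun a ha => hf a ha.1
  have hp : ∀ t ∈ R, (2 • t.1, 2 • t.2.1, 0) ∈ R0 ∧ (0, 0, 2 • t.2.2) ∈ R0 := by
    rintro _ ⟨h, hh, rfl⟩
    have hc := (Hs_normal m (kw hW)).conj_mem h hh σ
    have e : f (σ * h * σ⁻¹) = ((f h).1, (f h).2.1, -(f h).2.2) := by
      simp only [f, conj hy hm hh, conj hz hm hh, conj hz' hm hh, tw, s2, s3, s1 k _ (hy.tor _),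
        s1 k _ (hz.tor _), s1 k _ (hz'.tor _), one_smul, neg_smul, map_neg]
    have e' : f (σ * h * σ⁻¹)⁻¹ = -f (σ * h * σ⁻¹) := eq_neg_of_add_eq_zero_right (by
      rw [← hf _ hc, mul_inv_cancel]
      simp only [f, one hy, one hz, one hz', map_zero, Prod.mk_zero_zero])
    have x := fx (h := h) (fun T hT => s1 1 T (by rwa [pow_one]))
      fun T hT => hh.2.1 T (KI.Cm.tor_one m0 hT)
    refine ⟨⟨_, ⟨(Hs m W).mul_mem hh hc, x.1⟩, ?_⟩, _,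
      ⟨(Hs m W).mul_mem hh ((Hs m W).inv_mem hc), x.2⟩, ?_⟩
    · rw [hf _ hh, e]
      ext <;> simp [two_smul]
    · rw [hf _ hh, e', e]
      ext <;> simp [two_smul]
  have key : ∃ t ∈ R0, (f g₀ + t).1 = 0 ∧ ∃ v : ℤ, ∃ t₂ ∈ R, t₂.1 = 0 ∧
      ∀ u : ℤ, u • t₂.2.1 = 0 → Cb d (u • (z - v • y)) := by
    rcases h0 with rfl | ⟨h0, h1⟩
    · obtain ⟨h₂, a, b⟩ := hS L θ hθ q m k W d n z m0 hm hW nv hz kz
      rw [hm_iff] at a
      refine ⟨0, zero_mem _, by simp [f], 0, f h₂, ⟨h₂, a, rfl⟩, by simp [f], fun u hu => ?_⟩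
      rw [smul_zero, sub_zero]
      exact b u (by rwa [nn hz hm hW a])
    · obtain ⟨h₁, a, b⟩ := hS L θ hθ q m k W d n y m0 hm hW nv hy ky
      rw [hm_iff] at a
      rw [nn hy hm hW a] at b
      have ne : 2 ^ (k - 1) • nm d (y h₁) ≠ 0 := fun e => h0 (by
        have := b (2 ^ (k - 1) : ℕ) (by rwa [natCast_zsmul])
        rwa [natCast_zsmul] at this)
      have gn : ∀ T : Pt, 2 ^ k • T = 0 → ∃ c : ℤ, nm d T = c • nm d (y h₁) := fun T hT =>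
        gen hk (nm_tor hT) ne (nm_cmp hF hT (hy.tor h₁))
      obtain ⟨c₀, e₀⟩ := gn _ (hy.tor g₀)
      obtain ⟨u₀, f₀⟩ := half (c := c₀) (nm_tor (hy.tor h₁)) ne (e₀ ▸ nm_tor h1)
      obtain ⟨v, ev⟩ := gn _ (hz.tor h₁)
      obtain ⟨h₂, a₂, b₂⟩ := hS L θ hθ q m k W d n _ m0 hm hW nv (cy_sub hz hy v) (ku_sub kz ky v)
      rw [hm_iff] at a₂
      rw [nn (cy_sub hz hy v) hm hW a₂] at b₂
      obtain ⟨u₂, e₂⟩ := gn _ (hy.tor h₂)
      have r1 : f h₁ ∈ R := ⟨h₁, a, rfl⟩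
      refine ⟨_, zsmul_mem (hp _ r1).1 (-u₀), ?_, v, f h₂ - u₂ • f h₁,
        sub_mem ⟨h₂, a₂, rfl⟩ (zsmul_mem r1 _), sub_eq_zero.2 e₂, fun u hu => b₂ u ?_⟩
      · show nm d (y g₀) + (-u₀) • 2 • nm d (y h₁) = 0
        rw [e₀, f₀, neg_smul, add_neg_cancel]
      · have : nm d ((z - v • y) h₂) = nm d (z h₂) - u₂ • nm d (z h₁) := by
          rw [Pi.sub_apply, Pi.smul_apply, map_sub, map_zsmul, e₂, ev, smul_comm]
        rwa [this]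
  obtain ⟨t, ht, e, v, t₂, ht₂, e₂, b₂⟩ := key
  obtain ⟨h₃, a₃, b₃⟩ := hS L θ hθ q m k W _ n z' m0 hm hW nv' hz' kz'
  rw [hm_iff] at a₃
  rw [nn hz' hm hW a₃] at b₃
  have tor : ∀ t ∈ R, 2 ^ k • t.2.1 = 0 ∧ 2 ^ k • t.2.2 = 0 := by
    rintro _ ⟨h, -, rfl⟩
    exact ⟨nm_tor (hz.tor h), nm_tor (hz'.tor h)⟩
  have r0 : f g₀ + t ∈ R := by
    obtain ⟨h, hh, rfl⟩ := ht
    exact add_mem ⟨g₀, hg, rfl⟩ ⟨h, hh.1, rfl⟩
  have r3 : f h₃ ∈ R := ⟨h₃, a₃, rfl⟩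
  obtain ⟨i, hi⟩ := pick (tor _ r0).1 (tor _ ht₂).1
  obtain ⟨j, hj⟩ := pick (tor _ r0).2 (tor _ r3).2
  obtain ⟨h, hh, eh⟩ := add_mem ht
    (add_mem (zsmul_mem (hp _ ht₂).1 i) (zsmul_mem (hp _ r3).2 j))
  have hH := mul_mem hg hh.1
  have ef := hf g₀ hg h
  rw [eh, ← add_assoc] at ef
  refine ⟨g₀ * h, hm_iff.2 hH, fun s hs => by rw [RingAut.mul_apply, hh.2 s hs], ?_,
    fun u hu => ⟨2 * u * v, ?_⟩, fun u hu => b₃ _ (hj u ?_)⟩
  · rw [nn hy hm hW hH]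
    refine (congrArg Prod.fst ef).trans ?_
    simp only [Prod.fst_add, Prod.smul_fst, e₂, smul_zero, add_zero] at e ⊢
    exact e
  · rw [nn hz hm hW hH] at hu
    have := b₂ _ (hi u (by
      refine Eq.trans (congrArg _ ?_) hu
      refine Eq.trans ?_ (congrArg (·.2.1) ef).symm
      simp))
    rwa [smul_sub, smul_smul] at this
  · rw [nn hz' hm hW hH] at hu
    refine Eq.trans (congrArg _ ?_) hu
    refine Eq.trans ?_ (congrArg (·.2.2) ef).symm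
    simp

end Pool.Agent.Lib.MP_d6ddbd_nt.KA
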