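import Pool.Agent.Lib.MP_d6ddbd_nt.KA.Stmt
import Pool.Agent.Lib.MP_d6ddbd_nt.KI.Chain
import Pool.Agent.Lib.MP_d6ddbd_nt.KI.Step
import Pool.Agent.Lib.MP_d6ddbd_nt.KI.Tr
import Pool.Agent.Lib.MP_d6ddbd_nt.KI.Le
import Pool.Agent.Lib.MP_d6ddbd_nt.KI.Gd
import Pool.Agent.Lib.MP_d6ddbd_nt.KI.Fr

/-!
The two-converse for all quadratic twists of `X₀(11)`: chains of Kolyvagin primes that end at a
core vertex.
-/

set_option autoImplicit false
set_option maxSynthPendingDepth 3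

open NumberField IsDedekindDomain Pointwise
open Pool.Agent.Lib.MP_d6ddbd_nt.K11
open Pool.Agent.Lib.MP_d6ddbd_nt.KI (rt cq tw Cy Cb Kl Sel Hm Wq Gp KolI KnI Pn AtK Y0 Two BC Tv)
open Pool.Agent.Lib.MP_d6ddbd_nt.KI.Chain (cb_n sel_n cb_ev cq_sq cq_in tor_in ex_in odd_kill St
  pw2)

noncomputable section

namespace Pool.Agent.Lib.MP_d6ddbd_nt.KA

namespace Chain

variable {q : ℕ} {d δ c : ℤ} {k : ℕ} {n : Finset ℕ} {X : Finset ℕ → G → Pt} {y : G → Pt}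

theorem ee_or (d : ℤ) : ee d = 1 ∨ ee d = -11 := by
  unfold ee; split_ifs <;> simp

/-- A prime other than `2` and `11` that divides `d` divides `c`. -/
theorem pr_dvd (h : TD d δ c) {p : ℕ} (hp : p.Prime) (h2 : p ≠ 2) (h11 : p ≠ 11)
    (hc : ¬ (p : ℤ) ∣ c) : ¬ (p : ℤ) ∣ d := fun e => by
  have pp := Nat.prime_iff_prime_int.1 hp
  have a2 : ¬ (p : ℤ) ∣ 2 := fun h =>
    h2 ((Nat.prime_dvd_prime_iff_eq hp Nat.prime_two).1 (by exact_mod_cast h))
  have a11 : ¬ (p : ℤ) ∣ 11 := fun h =>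
    h11 ((Nat.prime_dvd_prime_iff_eq hp (by norm_num)).1 (by exact_mod_cast h))
  rw [h.eq] at e
  rcases pp.dvd_or_dvd e with e | e
  · rcases pp.dvd_or_dvd e with e | e
    · rcases h.dl with t | t | t | t <;> rw [t] at e
      · exact pp.not_dvd_one e
      · exact pp.not_dvd_one (dvd_neg.1 e)
      · exact a2 e
      · exact a2 (dvd_neg.1 e)
    · rcases ee_or d with t | t <;> rw [t] at e
      · exact pp.not_dvd_one e
      · exact a11 (dvd_neg.1 e)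
  · exact hc e

theorem sf (h : TD d δ c) : Squarefree d := by
  have p2 : Prime (2 : ℤ) := Int.prime_two
  have p11 : Prime (11 : ℤ) := Nat.prime_iff_prime_int.1 (by norm_num : Nat.Prime 11)
  have c2 : IsCoprime 2 c := p2.coprime_iff_not_dvd.2 (by have := h.fam.m4; omega)
  have c11 : IsCoprime 11 c := p11.coprime_iff_not_dvd.2 h.fam.n11
  have s22 : Squarefree ((2 : ℤ) * 11 * c) :=
    squarefree_mul_iff.2 ⟨(c2.mul_left c11).isRelPrime, squarefree_mul_iff.2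
      ⟨(p2.coprime_iff_not_dvd.2 (by norm_num)).isRelPrime, p2.squarefree, p11.squarefree⟩,
      h.fam.sf⟩
  refine s22.squarefree_of_dvd ?_
  rw [h.eq]
  refine mul_dvd_mul (mul_dvd_mul ?_ ?_) dvd_rfl
  · rcases h.dl with t | t | t | t <;> rw [t] <;> norm_num
  · rcases ee_or d with t | t <;> rw [t] <;> norm_num

theorem nq (h : TD d δ c) (hq : QD q c) : ¬ (q : ℤ) ∣ d :=
  pr_dvd h hq.qf.pr (by have := hq.qf.big; omega) (by have := hq.qf.big; omega) hq.nd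

/-- Every squarefree number has a decomposition. -/
theorem ex_td (hd : Squarefree d) : ∃ δ c, TD d δ c := by
  obtain ⟨e, h1, h2⟩ : ∃ e, d = ee d * e ∧ ¬ (11 : ℤ) ∣ e := by
    unfold ee
    split_ifs with h
    · obtain ⟨e, rfl⟩ := h
      refine ⟨-e, by ring, fun h => ?_⟩
      have := hd 11 (mul_dvd_mul_left _ (dvd_neg.1 h))
      rw [Int.isUnit_iff] at this
      omega
    · exact ⟨d, by ring, h⟩
  have h4 : ¬ (4 : ℤ) ∣ e := fun h => by
    have := hd 2 (by rw [h1]; exact Dvd.dvd.mul_left h _)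
    rw [Int.isUnit_iff] at this
    omega
  have key : ∀ δ c : ℤ, e = δ * c → c % 4 = 1 → (δ = 1 ∨ δ = -1 ∨ δ = 2 ∨ δ = -2) →
      ∃ δ c, TD d δ c := fun δ c a b t =>
    ⟨δ, c, ⟨hd.squarefree_of_dvd ⟨ee d * δ, by rw [mul_comm, mul_assoc, ← a]; exact h1⟩, b,
      fun h => h2 (a ▸ h.mul_left _)⟩, t, by rw [mul_comm δ, mul_assoc, ← a]; exact h1⟩
  have : e % 4 = 1 ∨ e % 4 = 3 ∨ e % 8 = 2 ∨ e % 8 = 6 := by omega
  rcases this with t | t | t | t
  · exact key 1 e (by ring) t (by simp)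
  · exact key (-1) (-e) (by ring) (by omega) (by simp)
  · exact key 2 (e / 2) (by omega) (by omega) (by simp)
  · exact key (-2) (-(e / 2)) (by omega) (by omega) (by simp)

theorem twA_or (q : ℕ) (d : ℤ) (n : Finset ℕ) : twA q d n = d ∨ twA q d n = -(q * d) := by
  unfold twA; split_ifs <;> simp

theorem rl_mono {a : ℕ} (h : Rl q d X y n a) (b : ℕ) : Rl q d X y n (a + b) := by
  obtain ⟨u, h⟩ := h
  refine ⟨(2 ^ b : ℕ) * u, ?_⟩
  have := cb_n h (2 ^ b)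
  rwa [smul_sub, ← mul_smul, ← pow_add, add_comm b, ← natCast_zsmul (u • yy q d n y),
    ← mul_smul] at this

theorem cases_tw {P : ℤ → (G → Pt) → Prop} (h1 : P d y) (h2 : P (-(q * d)) 0) (n : Finset ℕ) :
    P (twA q d n) (yy q d n y) := by
  unfold yy
  split_ifs with h
  · rwa [h]
  · rwa [(twA_or q d n).resolve_left h]

theorem ev {a : ℕ} {g : G} (h : Rl q d X y n a) (hx : ∀ σ, 2 ^ k • X n σ = 0)
    (hy : ∀ σ, 2 ^ k • yy q d n y σ = 0) (h0 : yy q d n y g = 0) (h1 : cq (twA q d n) g = 1)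
    (h2 : ∀ T : Pt, 2 ^ k • T = 0 → g • T = T) : 2 ^ a • X n g = 0 := by
  obtain ⟨u, h⟩ := h
  have := cb_ev (k := k) h (fun σ => by
    simp only [Pi.sub_apply, Pi.smul_apply]
    rw [smul_sub, smul_comm, hx, smul_comm, hy, smul_zero, smul_zero, sub_zero]) h1 h2
  simpa only [Pi.sub_apply, Pi.smul_apply, h0, smul_zero, sub_zero] using this

variable {L : Type} [Field L] [NumberField L] {θ : L} {s m j p : ℕ} {W : Finset ℂ}
  {O : ValuationSubring ℂ} {σ₀ φ : G}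

theorem step (hK : KY θ q d c k s m W X) (hn : KnI m q c n) (hp : KolI m q c p) (hpn : p ∉ n)
    (gn : ∀ l ∈ insert p n, Gp W l) (hO : Ov O p) (hσ : Frob O 1 σ₀) (hφ : Frob O p φ)
    (mv : σ₀ (rt (GF.pst p)) ≠ rt (GF.pst p)) (tv : Tv k {p})
    (h : ∀ n', St k n j p σ₀ φ (twA q d n') (yy q d n' y)) (a : ℕ) :
    (Rl q d X y n a → Rl q d X y (insert p n) (a + (j + 2))) ∧
      (Rl q d X y (insert p n) a → Rl q d X y n (a + (j + 2))) := by
  have hn' : KnI m q c (insert p n) := fun l hl => by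
    rcases Finset.mem_insert.1 hl with rfl | hl
    exacts [hp, hn l hl]
  obtain ⟨⟨u, u1, u2⟩, -⟩ := hK.atp n p O σ₀ φ hn hp hpn hO hσ hφ mv
  obtain ⟨-, a2, a3, -, a5, -⟩ := h n
  obtain ⟨b1, b2, -, b4, b5, b6⟩ := h (insert p n)
  refine ⟨fun r => ?_, fun r => ?_⟩
  · have e1 := ev r (hK.cy n hn).tor a2 a3 (cq_sq _ φ) fun T hT => by
      rw [mul_smul]
      exact tv p (Finset.mem_singleton_self p) O φ hO hφ T hT
    have e2 : 2 ^ a • X (insert p n) σ₀ = 0 := by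
      rw [← smul_eq_zero' φ, Fin.sm_n, u2, smul_comm, e1, smul_zero]
    obtain ⟨c1, c2⟩ := b6 _ (sel_n (hK.sel _ hn' gn) (2 ^ a)) (by
      rw [Pi.smul_apply, Pi.smul_apply, smul_comm, e2, smul_zero])
    obtain ⟨v, hv⟩ := b5 _ c1 c2
    exact ⟨v, by rwa [pw2] at hv⟩
  · have e1 := ev r (hK.cy _ hn').tor b2 b4 (cq_in hp.pr hp.n2 b1 hO hσ)
      (tor_in hp.pr hp.n2 hp.n11 hO hσ)
    have e2 : 2 ^ a • X n (φ * φ) = 0 := odd_kill (k := k) u1
      (by rw [smul_comm, (hK.cy n hn).tor, smul_zero])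
      (by rw [smul_comm, ← u2, ← Fin.sm_n, e1, smul_zero])
    obtain ⟨v, hv⟩ := a5 _ (sel_n (hK.sel n hn fun l hl => gn l (Finset.mem_insert_of_mem hl))
      (2 ^ a)) (by rw [Pi.smul_apply, Pi.smul_apply, smul_comm, e2, smul_zero])
    exact ⟨v, by rwa [pw2] at hv⟩

theorem ind (hY : YchStmt) (hC : ChStmt) (hθ : Cub θ) (hd : TD d δ c) (hb : ¬ Blk d)
    (hq : QD q c) (h8 : q % 8 = 7) (t : ℕ) :
    ∀ j : ℕ, ∃ A : ℕ, ∀ (k s m : ℕ) (W : Finset ℂ) X y z z' n, k ≠ 0 → k ≤ m →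
      Wq q m W → KY θ q d c k s m W X → Y0 q k y → KnI m q c n → (∀ p ∈ n, Gp W p) →
      Sel d k n y → BC d k n j y z → BC (-(q * d)) k n j 0 z' → yn θ q d c n < t →
      ∃ n', KnI m q c n' ∧ (∀ p ∈ n', Gp W p) ∧ Core θ q d c n' ∧ Sel d k n' y ∧
        ∀ a, (Rl q d X y n a → Rl q d X y n' (a + A)) ∧ (Rl q d X y n' a → Rl q d X y n (a + A)) := by
  have hS := KI.step_thm KI.tr_thm KI.le_thm KI.gd_thm KI.fr_thm
  induction t with
  | zero => exact fun j => ⟨0, by intros; omega⟩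
  | succ t ih =>
    intro j
    obtain ⟨A, hA⟩ := ih (j + 1)
    refine ⟨j + 2 + A, fun k s m W X y z z' n k0 km hW hK y0 hn gn sy bz bz' ht => ?_⟩
    by_cases hc : Core θ q d c n
    · exact ⟨n, hn, gn, hc, sy, fun a => ⟨fun r => rl_mono r _, fun r => rl_mono r _⟩⟩
    obtain ⟨α, h1, h2⟩ : ∃ α, Yn θ q d c n α ∧ ¬ IsSquare α := by simpa [Core] using hc
    obtain ⟨p, O, φ, big, hp, gp, hO, hφ, f1, f2, f3, f4⟩ := hC L θ hθ q d δ c k m W n α y z z'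
      (n.sup id) hd hb hq h8 k0 km hW hn.pn h1 h2 sy y0 bz.1 bz'.1
    have hpn : p ∉ n := fun h => absurd (Finset.le_sup (f := id) h) (not_le.2 big)
    obtain ⟨σ₀, hσ, mv⟩ := ex_in hp.pr hO
    have tv : Tv k {p} :=
      KI.tr_thm.2.2 k m q c _ km fun l hl => by rwa [Finset.mem_singleton.1 hl]
    have pd : ¬ (p : ℤ) ∣ d := pr_dvd hd hp.pr hp.n2 hp.n11 hp.nd
    have nd : ¬ (p : ℤ) ∣ -(q * d) := fun h => by
      rcases (Nat.prime_iff_prime_int.1 hp.pr).dvd_or_dvd (dvd_neg.1 h) with h | h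
      · exact hp.nq ((Nat.prime_dvd_prime_iff_eq hp.pr hq.qf.pr).1 (by exact_mod_cast h))
      · exact pd h
    have s0 : Sel (-(q * d)) k n 0 := KI.sel_zero _ _ _
    obtain ⟨a1, a2, a3, a4, w, a5⟩ := hS d k n j p O σ₀ φ y z hp.pr hp.n2 hp.n11 pd hp.ty hpn tv
      hO hσ mv hφ sy f2 bz f3
    obtain ⟨-, -, b3, b4, w', b5⟩ := hS (-(q * d)) k n j p O σ₀ φ 0 z' hp.pr hp.n2 hp.n11 nd hp.ty
      hpn tv hO hσ mv hφ s0 rfl bz' fun u hu => ⟨0, by simpa using f4 u hu⟩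
    have hn' : KnI m q c (insert p n) := fun l hl => by
      rcases Finset.mem_insert.1 hl with rfl | hl
      exacts [hp, hn l hl]
    have gn' : ∀ l ∈ insert p n, Gp W l := fun l hl => by
      rcases Finset.mem_insert.1 hl with rfl | hl
      exacts [gp, gn l hl]
    have st := step hK hn hp hpn gn' hO hσ hφ mv tv (cases_tw (P := St k n j p σ₀ φ)
      ⟨pd, sy.cy.tor, f2, a2, a3, a4⟩ ⟨nd, s0.cy.tor, rfl, rfl, b3, b4⟩)
    obtain ⟨n', c1, c2, c3, c4, c5⟩ := hA k s m W X y w w' _ k0 km hW hK y0 hn' gn' a1 a5 b5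
      ((hY L θ hθ q d δ c n p α hd hq hn'.pn hpn h1 f1).trans_le (Nat.le_of_lt_succ ht))
    refine ⟨n', c1, c2, c3, c4, fun a => ⟨fun r => ?_, fun r => ?_⟩⟩
    · rw [← add_assoc]
      exact (c5 _).1 ((st a).1 r)
    · rw [add_comm _ A, ← add_assoc]
      exact (st _).2 ((c5 a).2 r)

end Chain

theorem chain_thm (hY : YchStmt) (hC : ChStmt) : ChainStmt := by
  intro L _ _ θ hθ q d δ c j hd hb hq h8
  obtain ⟨A, hA⟩ := Chain.ind hY hC hθ hd hb hq h8 (yn θ q d c ∅ + 1) j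
  exact ⟨A, fun k s m W x y z z' k0 km hW hK sy y0 bz bz' => hA k s m W x y z z' ∅ k0 km hW hK y0
    (fun _ h => absurd h (Finset.notMem_empty _)) (fun _ h => absurd h (Finset.notMem_empty _))
    sy bz bz' (Nat.lt_succ_self _)⟩

end Pool.Agent.Lib.MP_d6ddbd_nt.KA
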