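import Pool.Agent.Lib.MP_d6ddbd_nt.KA.Stmt
import Pool.Agent.Lib.MP_d6ddbd_nt.KI.Cm
import Pool.Agent.Lib.MP_d6ddbd_nt.KI.Fb
import Pool.Agent.Lib.MP_d6ddbd_nt.KI.Fv
import Pool.Agent.Lib.MP_d6ddbd_nt.K11.AllX
import Pool.Agent.Lib.MP_d6ddbd_nt.K11.Final

/-!
Prescribed values on finitely many classes, and the choice of the Kolyvagin primes.
-/

set_option autoImplicit false
set_option maxSynthPendingDepth 3

open NumberField
open Pool.Agent.Lib.MP_02f36d_nt (xc yc)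
open Pool.Agent.Stark (Pr og SqCl cl)
open Pool.Agent.Lib.MP_d6ddbd_nt.K11
open Pool.Agent.Lib.MP_d6ddbd_nt.K11.R1 (wl_add wl_smul map_fc wl_iff wl0 wl_eq wl_ne)
open Pool.Agent.Lib.MP_d6ddbd_nt.KI (Cy Cb Hm Wq KolI rep Kw Hs fb_thm fv_thm)
open Pool.Agent.Lib.MP_d6ddbd_nt.KI.Cm

noncomputable section

namespace Pool.Agent.Lib.MP_d6ddbd_nt.KA

namespace CmA

variable {L : Type} [Field L] [NumberField L] {θ : L}

theorem al0_ne (hθ : Cub θ) : al0 θ ≠ 0 := by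
  refine mul_ne_zero (by norm_num) fun h => ?_
  obtain ⟨e, -⟩ := (pr_thm L θ hθ).2.2.2.2.2.2.2.2.2
  refine R1.fd_ne (fc_emb hθ (Complex.ofRealHom.comp e)) ?_
  simpa [fd, map_ofNat] using congrArg (Complex.ofRealHom.comp e) h

/-- Lemma K in the group `Hs m W`. -/
theorem lemK (hC : CommAStmt) (hθ : Cub θ) {m : ℕ} (hm : m ≠ 0) {W : Finset ℂ}
    (hW : ∀ w ∈ W, Kw w) {α : L} (e : L →+* ℂ) {s : ℂ} (h0 : α ≠ 0)
    (hN : IsSquare (Algebra.norm ℚ α)) (h11 : m = 1 ∨ ¬ IsSquare (α * al0 θ)) (hn : ¬ IsSquare α)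
    (hs : s ^ 2 = e α) : ∃ h ∈ Hs m W, h s = -s := by
  obtain ⟨m, rfl⟩ := Nat.exists_eq_succ_of_ne_zero hm
  obtain ⟨g, g1, g2, g3⟩ := hC L θ hθ α m e s h0 hN (h11.imp (by omega) id) hn hs
  obtain ⟨ω, w1, w2⟩ := cyc
  obtain ⟨-, -, -, -, -, -, p7, -, p9, -⟩ := pr_thm L θ hθ
  have f0 : fc (e θ) = 0 := fc_emb hθ e
  have gV : ∀ T : Pt, 2 • T = 0 → g • T = T := fun T hT => g2 T (tor_one m.succ_ne_zero hT)
  have gs : ∀ ρ : G, g (ρ s) = ρ s ∨ g (ρ s) = -ρ s := fun ρ => by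
    refine sq_eq_sq_iff_eq_or_eq_neg.1 ?_
    have a : g (ρ (e θ)) = ρ (e θ) := fix_root gV (by rw [← map_fc, f0, map_zero])
    obtain ⟨a, b, c, rfl⟩ := p7 α
    rw [← map_pow, ← map_pow, hs]
    simp only [map_add, map_mul, map_pow, map_ratCast, *]
  have s0 : s ≠ 0 := fun k => h0 ((map_eq_zero e).1 (by rw [← hs, k]; simp))
  have fin : ∀ ρ ∈ commutator G, g (ρ s) = ρ s → ∃ h ∈ Hs (m + 1) W, h s = -s := fun ρ hρ k => by
    refine ⟨ρ⁻¹ * g * ρ * g⁻¹, ⟨mul_mem (mul_mem (mul_mem (inv_mem hρ) g1) hρ) (inv_mem g1),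
      fun T hT => ?_, fun w hw => ?_⟩, ?_⟩
    · rw [mul_smul, mul_smul, mul_smul, inv_smul_eq_iff.2 (g2 T hT).symm, g2 _ (tor_smul ρ hT),
        inv_smul_smul]
    · show ρ⁻¹ (g (ρ (g⁻¹ w))) = w
      rw [swap (hW w hw) g1 hρ g⁻¹]
      exact (ρ.symm_apply_apply _).trans (g.apply_symm_apply w)
    · have b : g⁻¹ s = -s := (RingEquiv.symm_apply_eq g).2 (by rw [map_neg, g3, neg_neg])
      show ρ⁻¹ (g (ρ (g⁻¹ s))) = -s
      rw [b, map_neg, map_neg, k, map_neg]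
      exact congrArg Neg.neg (ρ.symm_apply_apply s)
  rcases gs ω with a | a
  · exact fin ω w1 a
  rcases gs (ω * ω) with b | b
  · exact fin _ (mul_mem w1 w1) b
  exfalso
  obtain ⟨n, hn⟩ := hN
  obtain ⟨c1, c2, -⟩ := w2 _ f0
  have d := p9 α e (ω.toRingHom.comp e) ((ω * ω : G).toRingHom.comp e) c1.symm c2.symm
    (fun k => c1 (ω.injective k).symm)
  have d1 : (s * ω s * (ω * ω) s) ^ 2 = (n : ℂ) ^ 2 := by
    rw [mul_pow, mul_pow, ← map_pow, ← map_pow, hs, pow_two (n : ℂ), ← Rat.cast_mul, ← hn, d]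
    rfl
  have d2 : g (s * ω s * (ω * ω) s) = s * ω s * (ω * ω) s := by
    rcases sq_eq_sq_iff_eq_or_eq_neg.1 d1 with k | k <;> rw [k] <;> simp
  rw [map_mul, map_mul, g3, a, b] at d2
  exact mul_ne_zero (mul_ne_zero s0 ((map_ne_zero ω).2 s0)) ((map_ne_zero (ω * ω)).2 s0)
    (by linear_combination -d2 / 2)

/-- Lemma K for cocycles. -/
theorem lemK' (hC : CommAStmt) (hθ : Cub θ) {m : ℕ} (hm : m ≠ 0) {W : Finset ℂ}
    (hW : ∀ w ∈ W, Kw w) {α : L} {ξ : G → Pt} (h0 : α ≠ 0) (hN : IsSquare (Algebra.norm ℚ α))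
    (hK : Kum θ α ξ) (h11 : m = 1 ∨ ¬ IsSquare (α * al0 θ)) (hn : ¬ IsSquare α) {x : ℂ}
    (hx : fc x = 0) : ∃ h ∈ Hs m W, wl x (ξ h) = 1 := by
  obtain ⟨e, rfl⟩ := (pr_thm L θ hθ).2.2.2.2.2.2.2.1 x hx
  obtain ⟨s, hs⟩ := IsAlgClosed.exists_pow_nat_eq (e α) two_pos
  obtain ⟨h, h1, h2⟩ := lemK hC hθ hm hW e h0 hN h11 hn hs
  refine ⟨h, h1, (KI.Iso.z2 _).resolve_left fun k => h0 ((map_eq_zero e).1 ?_)⟩
  have := (hK e s h hs (fix_root (fun T hT => h1.2.1 T (tor_one hm hT)) hx)).2 k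
  rw [← hs, show s = 0 by linear_combination (h2 - this) / 2]
  simp

theorem prod_gd {ι : Type} (S : Finset ι) (a : ι → L)
    (h : ∀ i, a i ≠ 0 ∧ IsSquare (Algebra.norm ℚ (a i))) :
    (∏ i ∈ S, a i ≠ 0 ∧ IsSquare (Algebra.norm ℚ (∏ i ∈ S, a i))) ∧
      cl (∏ i ∈ S, a i) = ∑ i ∈ S, cl (a i) := by
  classical
  induction S using Finset.induction_on with
  | empty =>
    exact ⟨⟨by simp, by simp⟩, by
      simpa using (Pool.Agent.Stark.cl_eq_zero one_ne_zero).2 IsSquare.one⟩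
  | insert i S hi ih =>
    rw [Finset.prod_insert hi, Finset.sum_insert hi, Pool.Agent.Stark.cl_mul (h i).1 ih.1.1, ih.2]
    refine ⟨⟨mul_ne_zero (h i).1 ih.1.1, ?_⟩, rfl⟩
    rw [map_mul]
    exact (h i).2.mul ih.1.2

/-- Large primes do not divide the members of a finite set. -/
theorem big (hθ : Cub θ) (T : Finset L) :
    ∃ N : ℕ, ∀ p : ℕ, p.Prime → N < p → ∀ α ∈ T, ∀ 𝔭 ∈ ab L p, og 𝔭 α = 0 := by
  classical
  choose l l1 _ l3 using fun 𝔭 => ((pr_thm L θ hθ).2.2.2.2.1 𝔭).2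
  refine ⟨(T.biUnion fun α => (Pool.Agent.Stark.og_finite α).toFinset).sup l,
    fun p hp hN α hα 𝔭 h𝔭 => by_contra fun h => hN.not_ge ?_⟩
  rw [← (Nat.prime_dvd_prime_iff_eq (l1 𝔭) hp).1 ((l3 𝔭 p hp.ne_zero).1 h𝔭)]
  exact Finset.le_sup (f := l) (Finset.mem_biUnion.2 ⟨α, hα, by simpa using h⟩)

end CmA

open CmA

theorem cmA_thm (hC : CommAStmt) : CmAStmt := by
  classical
  intro L _ _ θ hθ q m W T lam T₀ hm hW hT hl h2
  have hPr := pr_thm
  have ex : ∀ α : T, ∃ ξ, Coc ξ ∧ Kum θ α.1 ξ := fun α =>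
    inv_kum hPr hθ (hT α.1 α.2).1 (hT α.1 α.2).2
  choose ξ c k using ex
  have hS : ∀ S : Finset T, Coc (∑ i ∈ S, ξ i) ∧ Kum θ (∏ i ∈ S, i.1) (∑ i ∈ S, ξ i) := fun S => by
    induction S using Finset.induction_on with
    | empty =>
      refine ⟨coc_zero, fun e s σ hs _ => ?_⟩
      rw [Finset.prod_empty, map_one, sq_eq_one_iff] at hs
      rcases hs with rfl | rfl <;> simp [wl0]
    | insert i S hi ih =>
      rw [Finset.sum_insert hi, Finset.prod_insert hi]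
      exact ⟨coc_add (c i) ih.1, kum_mul hPr hθ (hT _ i.2).1
        (Finset.prod_ne_zero_iff.2 fun j _ => (hT _ j.2).1) (c i) ih.1 (k i) ih.2⟩
  have fx : ∀ h ∈ Hs m W, ∀ e : L →+* ℂ, h (e θ) = e θ := fun h a e =>
    fix_root (fun P b => a.2.1 P (tor_one hm b)) (fc_emb hθ e)
  obtain ⟨h, h1, h3⟩ := dual' hm (kw hW) ξ c (fun i => lam (cl i.1)) (fun S a x hx => by
    obtain ⟨⟨b1, b2⟩, b4⟩ := prod_gd S (fun i : T => i.1) fun i => hT i.1 i.2
    rw [← map_sum, ← b4] at a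
    exact lemK' hC hθ hm (kw hW) b1 b2 (hS S).2 (hl.imp id fun b d => a (by
      rw [(Pool.Agent.Stark.cl_eq_cl b1 (al0_ne hθ)).2 d, b]))
      (fun b => a (by rw [(Pool.Agent.Stark.cl_eq_zero b1).2 b, map_zero])) hx) h2
  refine ⟨h, hm_iff.2 h1, fun α hα => ?_⟩
  have a : ∀ (e : L →+* ℂ) (s : ℂ), s ^ 2 = e α → (h s = s ↔ wl (e θ) (ξ ⟨α, hα⟩ h) = 0) :=
    fun e s hs => k ⟨α, hα⟩ e s h hs (fx h h1 e)
  refine ⟨fun e s hs => ?_, fun ζ c' k' => ?_⟩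
  · rw [a e s hs, h3]
    split_ifs with b <;> simp [b, wl0]
  · have b : ζ h = ξ ⟨α, hα⟩ h := wl_ext (c'.two h) ((c _).two h) fun x hx => by
      obtain ⟨e, rfl⟩ := (hPr L θ hθ).2.2.2.2.2.2.2.1 x hx
      obtain ⟨s, hs⟩ := IsAlgClosed.exists_pow_nat_eq (e α) two_pos
      have d := (k' e s h hs (fx h h1 e)).symm.trans (a e s hs)
      revert d
      generalize wl (e θ) (ζ h) = u
      generalize wl (e θ) (ξ ⟨α, hα⟩ h) = v
      revert u v
      decide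
    rw [b, h3]
    rcases KI.Iso.z2 (lam (cl α)) with d | d <;> rw [d]
    · simp
    · rw [if_neg one_ne_zero, ZMod.val_one, one_smul]

theorem sj1_thm (hC : CommAStmt) : SJ1Stmt := by
  classical
  intro c r B μ T hB hi hT
  obtain ⟨L, _, _, θ, hθ⟩ := Final.exists_cub
  have hS : ∀ S : Finset (Fin r), Coc (∑ i ∈ S, B i) := fun S => by
    induction S using Finset.induction_on with
    | empty => exact coc_zero
    | insert i S hi ih =>
      rw [Finset.sum_insert hi]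
      exact coc_add (cy_coc (hB i)) ih
  obtain ⟨h, h1, h2⟩ := dual' one_ne_zero (W := ∅) (by simp) B (fun i => cy_coc (hB i)) μ
    (fun S a x hx => by
      obtain ⟨α, a0, a1, a2⟩ := (kumAll L θ hθ).1 _ (hS S)
      refine lemK' hC hθ one_ne_zero (by simp) a0 a1 a2 (Or.inl rfl) (fun k => a ?_) hx
      have b := hi (fun i => if i ∈ S then 1 else 0) (by
        have : rep B (fun i => if i ∈ S then 1 else 0) = ∑ i ∈ S, B i := by
          rw [rep, ← Finset.sum_subset (Finset.subset_univ S) fun i _ b => by simp [b]]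
          exact Finset.sum_congr rfl fun i b => by rw [if_pos b, ZMod.val_one, one_smul]
        rw [this]
        exact cob_cb (((kumAll L θ hθ).2 α _ a0 (hS S) a2).1 k))
      refine Finset.sum_eq_zero fun i d => ?_
      have := congrFun b i
      simp [d] at this) hT
  refine ⟨h, hm_iff.2 h1, fun i => ?_⟩
  rw [h2]
  rcases KI.Iso.z2 (μ i) with a | a <;> rw [a]
  · simp
  · rw [if_neg one_ne_zero, ZMod.val_one, one_smul]

theorem chebA_thm (hCm : CmAStmt) : ChebAStmt := by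
  classical
  intro L _ _ θ hθ q m c T lam N hq hm hT hl
  obtain ⟨e', -, he'⟩ := (pr_thm L θ hθ).2.2.2.2.2.2.2.2.2
  let e : L →+* ℂ := Complex.ofRealHom.comp e'
  have hce : ∀ y, cj (e y) = e y := fun y => Complex.conj_ofReal _
  let s : L → ℂ := fun a => (Real.sqrt (e' a) : ℝ)
  have hs : ∀ a ∈ T, s a ^ 2 = e a := fun a ha => by
    show ((Real.sqrt (e' a) : ℝ) : ℂ) ^ 2 = ((e' a : ℝ) : ℂ)
    rw [← Complex.ofReal_pow, Real.sq_sqrt (he' a (hT a ha).1 (hT a ha).2).le]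
  have hcs : ∀ a, cj (s a) = s a := fun a => Complex.conj_ofReal _
  have f0 := fc_emb hθ e
  obtain ⟨P, P2, P1⟩ : ∃ P : Pt, 2 • P = 0 ∧ wl (e θ) P ≠ 0 := by
    obtain ⟨ω, -, w⟩ := cyc
    obtain ⟨b1, b2, b3⟩ := pt_root (x := ω (e θ)) (by rw [← R1.map_fc, f0, map_zero])
    exact ⟨_, b2, by rw [wl_ne b1 (by rw [b3]; exact (w _ f0).1)]; exact one_ne_zero⟩
  have hW : Wq q m ∅ := fun w hw => by simp at hw
  obtain ⟨h, h1, h2⟩ := hCm L θ hθ q m ∅ T lam P hm hW hT (Or.inr hl) P2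
  obtain ⟨N', hN'⟩ := big hθ T
  obtain ⟨p, O, φ, b, p1, p2, p3, p4, p5, p6, p7, p8, p9, p10, p11, -⟩ := fb_thm q m ∅ h
    (T.image s) (N + 11 + q + c.natAbs + N') hm hW h1 (fun x hx => by
      obtain ⟨a, ha, rfl⟩ := Finset.mem_image.1 hx
      exact IsAlgebraic.of_pow two_pos (by
        rw [hs a ha]
        exact (Algebra.IsAlgebraic.isAlgebraic (R := ℚ) a).algHom e.toRatAlgHom))
  have d0 : c ≠ 0 := hq.fam.sf.ne_zero
  have pd : ¬ (p : ℤ) ∣ c := fun i => by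
    have := Nat.le_of_dvd (Int.natAbs_pos.2 d0) (Int.natCast_dvd.1 i)
    omega
  refine ⟨p, by omega, ⟨p2, by omega, by omega, by omega, pd, p6,
    (p11 q hq.qf.pr (by have := hq.qf.big; omega) (by omega)).2 hq.qf.m4, p8, O, φ, p3, p4,
    fun P hP => by rw [p9 P hP, p9 _ (tor_smul cj hP), ← mul_smul, cj_mul_cj, one_smul]⟩,
    fun a ha => ?_⟩
  obtain ⟨-, t2, t3⟩ := pt_root f0
  have t4 := congrArg xc (p9 _ (tor_one hm t2))
  rw [xc_smul, xc_smul, t3, hce] at t4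
  have t5 := fv_thm L θ hθ p O φ e a (s a) p2 (by omega) (by omega) p8 p3 p4 t4 (hT a ha).1
    (fun 𝔭 h𝔭 => by rw [hN' p p2 (by omega) a ha 𝔭 h𝔭]; exact Even.zero) (hs a ha)
  have t6 := (h2 a ha).1 e (s a) (hs a ha)
  rw [or_iff_left P1] at t6
  have s0 : s a ≠ 0 := fun k => (hT a ha).1 ((map_eq_zero e).1 (by rw [← hs a ha, k]; simp))
  have t7 := p10 1 (s a) (Finset.mem_image_of_mem s ha)
  have t8 : h (s a) = s a ∨ h (s a) = -s a := sq_eq_sq_iff_eq_or_eq_neg.1 (by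
    rw [← map_pow, hs a ha]
    exact emb_ext pr_thm hθ (e := h.toRingHom.comp e)
      (fix_root (fun P hP => h1.tor P (tor_one hm hP)) f0) a)
  have t9 : (cj * h) (s a) = h (s a) := by
    rw [RingAut.mul_apply]
    rcases t8 with k | k <;> rw [k]
    · exact hcs a
    · rw [map_neg, hcs]
  rw [pow_one, mul_one, Cheb.pow_odd (by
    rcases t8 with k | k
    · rw [t9, k, t9, k]
    · rw [t9, k, map_neg, t9, k, neg_neg]) p5, t9] at t7
  rw [t7, t6] at t5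
  revert t5
  generalize fv p a = u
  generalize lam (cl a) = v
  revert u v
  decide

end Pool.Agent.Lib.MP_d6ddbd_nt.KA
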