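import Pool.Agent.Lib.MP_d6ddbd_nt.KA.Stmt
import Pool.Agent.Lib.MP_d6ddbd_nt.K11.Comm
import Pool.Agent.Lib.MP_d6ddbd_nt.K11.V1
import Pool.Agent.Lib.MP_d6ddbd_nt.K11.V4
import Pool.Agent.Lib.MP_d6ddbd_nt.K11.R1
import Pool.Agent.Lib.MP_d6ddbd_nt.K11.Pr

/-!
Commutators that fix the points of order a power of two and move a given square root, for classes
that may be ramified at `11`.
-/

set_option autoImplicit false
set_option maxSynthPendingDepth 3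

open NumberField IsDedekindDomain
open Pool.Agent.Stark (Pr og)
open Pool.Agent.Lib.MP_d6ddbd_nt.K11

noncomputable section

namespace Pool.Agent.Lib.MP_d6ddbd_nt.KA

open Comm in
theorem commA_thm : CommAStmt := by
  intro L _ _ θ hθ α m e s h0 ⟨n, hn⟩ hm hsq hs
  have hPr := pr_thm
  obtain ⟨D⟩ := exDt r1_thm
  obtain ⟨-, -, -, -, -, -, a1, a2, a3, -⟩ := hPr L θ hθ
  choose ε hε using fun j => a2 (D.e j) ((D.root _).2 ⟨j, rfl⟩)
  have tr : ∀ (σ : G) (e e' : L →+* ℂ), σ (e θ) = e' θ → ∀ x, σ (e x) = e' x := fun σ e e' h x => by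
    obtain ⟨a, b, c, rfl⟩ := a1 x
    simp [h]
  have ne : ∀ j k, j ≠ k → ε j θ ≠ ε k θ := fun j k h => by
    rw [hε, hε]
    exact D.inj.ne h
  have nm := a3 α (ε 0) (ε 1) (ε 2) (ne _ _ (by decide)) (ne _ _ (by decide)) (ne _ _ (by decide))
  have e0 : ∀ j, ε j α ≠ 0 := fun j => (map_ne_zero _).2 h0
  obtain ⟨s₁, h₁⟩ := IsAlgClosed.exists_pow_nat_eq (ε 1 α) two_pos
  obtain ⟨s₂, h₂⟩ := IsAlgClosed.exists_pow_nat_eq (ε 2 α) two_pos
  have n12 : s₁ * s₂ ≠ 0 := fun z => mul_ne_zero (e0 1) (e0 2) (by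
    rw [← h₁, ← h₂, ← mul_pow, z, zero_pow two_ne_zero])
  let t : Fin 3 → ℂ := ![n / (s₁ * s₂), s₁, s₂]
  have t2 : ∀ j, t j ^ 2 = ε j α := fun j => by
    fin_cases j
    · change (n / (s₁ * s₂)) ^ 2 = ε 0 α
      rw [div_pow, div_eq_iff (pow_ne_zero 2 n12), mul_pow, h₁, h₂, ← mul_assoc, ← nm, hn]
      push_cast
      ring
    exacts [h₁, h₂]
  have ht : D.Eqv t := ⟨fun j z => e0 j (by rw [← t2, z, zero_pow two_ne_zero]), fun σ j k a => by
    rw [← map_pow, t2, t2, tr σ _ (ε k) (by rw [hε, hε, a])]⟩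
  have hp : ∀ σ : G, σ (t 0 * (t 1 * t 2)) = t 0 * (t 1 * t 2) := fun σ => by
    rw [show t 0 * (t 1 * t 2) = n from div_mul_cancel₀ _ n12, map_ratCast]
  have fx : ∀ y : ℂ, (∀ g ∈ N Pt (0 + 1), g y = y) → cj y = y → ∃ z, ε 0 z = y := fun y a b =>
    (v4_thm v1_thm).2.2.1 L (ε 0) y fun σ c => Dt.fixed a b (D := D) (by rw [← hε, c])
  have Z : ∀ (β : L) (x : ℂ), x ^ 2 = ε 0 β → cj x = x →
      (∀ g ∈ N Pt (0 + 1), g (x * (D.h 1 * D.h 2)) = x * (D.h 1 * D.h 2)) →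
      ∃ z : L, z ^ 2 * fd θ = β * (2 ^ 8 * 11 ^ 5) := fun β x c d f => by
    obtain ⟨z, hz⟩ := fx _ f (by rw [map_mul, d, D.eqv_h.cj12])
    refine ⟨z, (ε 0).injective ?_⟩
    have : ε 0 (fd θ) = fd (D.e 0) := by simp [fd, hε, map_ofNat]
    rw [map_mul, map_pow, hz, this, mul_pow, mul_pow, c, D.h2, D.h2, map_mul]
    simp only [map_mul, map_pow, map_ofNat]
    rw [← D.disc]
    ring
  have h1 : ∃ g ∈ N Pt (0 + 1), g (D.h 1 * D.h 2) ≠ D.h 1 * D.h 2 := by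
    by_contra! f
    obtain ⟨z, hz⟩ := Z 1 1 (by simp) (map_one _) (by simpa using f)
    exact odd11 hPr hθ one_ne_zero (fun _ _ => by simp [og]) hz
  obtain ⟨k, hk⟩ := (D.root (e θ)).1 (by
    have := congrArg e hθ.eq
    simpa [fc, map_ofNat] using this)
  have st : s ^ 2 = t k ^ 2 := by
    rw [hs, t2]
    exact tr 1 e (ε k) (hk.trans (hε k).symm) α
  by_contra! H
  have H1 := ht.top hp (i := m) (k := k) fun g a b => by
    have c := H g a b
    rw [sg_eq]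
    rcases sq_eq_sq_iff_eq_or_eq_neg.1 (ht.2 g k k (D.fix b k)) with d | d
    · exact d
    · rcases sq_eq_sq_iff_eq_or_eq_neg.1 st with rfl | rfl
      · exact absurd d c
      · exact absurd (by rw [map_neg, d]) c
  have one : ¬ ∀ g ∈ N Pt (0 + 1), g (t 0) = t 0 := fun a => by
    obtain ⟨z, hz⟩ := fx _ a (ht.cj0 hp)
    exact hsq ⟨z, (ε 0).injective (by rw [map_mul, hz, ← t2, sq])⟩
  rcases hm with rfl | hm
  · exact one fun g a => sg_eq.1 (H1 g a 0)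
  rcases ht.base hp h1 (ht.down hp h1 (i := m) fun g a => H1 g (N_succ a)) with a | a
  · exact one a
  · obtain ⟨z, hz⟩ := Z α _ (t2 0) (ht.cj0 hp) a
    refine hm ⟨z * fd θ / (16 * 121), ?_⟩
    rw [al0]
    linear_combination (-fd θ / (2 ^ 8 * 11 ^ 4)) * hz

end Pool.Agent.Lib.MP_d6ddbd_nt.KA
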