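import Pool.Agent.Lib.MP_d6ddbd_nt.KI.Bas
import Pool.Agent.Lib.MP_d6ddbd_nt.K11.Link2
import Pool.Agent.Lib.MP_d6ddbd_nt.K11.Two
import Pool.Agent.Lib.MP_d6ddbd_nt.K11.PF
import Pool.Agent.Lib.MP_d6ddbd_nt.K11.Pr

/-!
The two-converse for all quadratic twists of `X₀(11)`: valuations at `2`.
-/

set_option autoImplicit false
set_option maxSynthPendingDepth 3

open NumberField IsDedekindDomain
open Pool.Agent.Stark (Pr og hq LSq pw ord ord_pow ord_zpow mem_pw_iff wv emb ord_emb hs Kc)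
open Pool.Agent.Lib.MP_d6ddbd_nt.K11
open Pool.Agent.Lib.MP_d6ddbd_nt.K11.Link2
open Pool.Agent.Lib.MP_d6ddbd_nt.KI (vA rA)

noncomputable section

namespace Pool.Agent.Lib.MP_d6ddbd_nt.KA.Dk2

variable {L : Type} [Field L] [NumberField L]

/-- The data at the prime above `2`. -/
structure Cx (θ ϑ : L) (𝔭 : Pr L) (e : L →+* ℂ) (O : ValuationSubring ℂ) : Prop where
  cub : Cub θ
  c1 : ϑ ^ 3 - 2 * ϑ ^ 2 + 2 = 0
  c2 : θ = 8 * ϑ ^ 2 - 14 * ϑ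
  hab : ab L 2 = {𝔭}
  n1 : nm 𝔭 = 2
  o2 : og 𝔭 (2 : L) = 3
  o1 : og 𝔭 ϑ = 1
  b : Below e O 𝔭

/-- The numbers that are fixed by the whole inertia group. -/
abbrev F0 (O : ValuationSubring ℂ) : Subfield ℂ := Fx (Rat.castHom ℂ) O

theorem ex_cx {θ : L} (hθ : Cub θ) : ∃ ϑ 𝔭 e O, Cx θ ϑ 𝔭 e O := by
  obtain ⟨⟨ϑ, c1, c2, 𝔭, hab, n1, o2, o1⟩, -, -, -, -, -, -, hemb, -⟩ := pr_thm L θ hθ
  obtain ⟨r, r', r'', H, -⟩ := rA.1.2.2.2.2.1
  obtain ⟨e, -⟩ := hemb r (by simp [H])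
  obtain ⟨O, b⟩ := vA.1.2.1 L e 𝔭
  exact ⟨ϑ, 𝔭, e, O, hθ, c1, c2, hab, n1, o2, o1, b⟩

variable {θ ϑ a : L} {𝔭 : Pr L} {e : L →+* ℂ} {O : ValuationSubring ℂ} {x u s : ℂ}

theorem up0 (e : L →+* ℂ) (h : x ∈ F0 O) : x ∈ Fx e O :=
  ⟨h.1, fun σ i _ => h.2 σ i fun y => by simp⟩

theorem hen {F : Type} [Field F] [NumberField F] {e' : F →+* ℂ} (hO : Ov O 2) {m : ℂ}
    (hm : m ∈ Fx e' O) (h1 : O.valuation m ≤ 1) : ∃ w ∈ Fx e' O, w ≠ 0 ∧ w ^ 2 = 1 + 4 * m := by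
  obtain ⟨w, hw⟩ := IsAlgClosed.exists_pow_nat_eq (1 + 4 * m) two_pos
  have h2 : O.valuation (2 : ℂ) < 1 := by simpa using O.mem_nonunits_iff.1 hO
  have mm : 1 + 4 * m ∈ Fx e' O := add_mem (one_mem _) (mul_mem (ofNat_mem _ 4) hm)
  have aw : IsAlgebraic ℚ w := IsAlgebraic.of_pow two_pos (hw ▸ mm.1)
  have w1 : O.valuation w = 1 := by
    have : O.valuation (1 + 4 * m) = 1 := Valuation.map_one_add_of_lt _ (by
      rw [show 4 * m = 2 * (2 * m) by ring, map_mul, map_mul]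
      exact mul_lt_one_of_lt_of_le h2 (mul_le_one' h2.le h1))
    rw [← hw, map_pow] at this
    exact (pow_eq_one_iff_left two_ne_zero).1 this
  have w0 : w ≠ 0 := fun q => by simp [q] at w1
  have au : IsAlgebraic ℚ ((w - 1) / 2) :=
    (aw.sub isAlgebraic_one).mul (ofNat_mem (Fx e' O) 2).1.inv
  have iu : (w - 1) / 2 ∈ O := by
    rw [← O.valuation_le_one_iff]
    by_contra! q
    have : (w - 1) / 2 * ((w - 1) / 2 + 1) = m := by linear_combination hw / 4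
    rw [← this, map_mul, Valuation.map_add_eq_of_lt_left _ (by simpa using q)] at h1
    exact (one_lt_mul'' q q).not_ge h1
  refine ⟨w, ⟨aw, fun σ i j => ?_⟩, w0, hw⟩
  have k : σ w = w ∨ σ w = -w :=
    sq_eq_sq_iff_eq_or_eq_neg.1 (by rw [← map_pow, hw, mm.2 σ i j])
  have := vA.2.1.2.2.2.2.2.1 O σ ((w - 1) / 2) ((-w - 1) / 2) i au iu
    (k.imp (fun q => by simp [q, map_ofNat]) fun q => by simp [q, map_ofNat])
    (by rw [O.mem_nonunits_iff, show (w - 1) / 2 - (-w - 1) / 2 = w by ring, w1]; simp)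
  rw [map_div₀, map_sub, map_one, map_ofNat] at this
  linear_combination 2 * this

variable (h : Cx θ ϑ 𝔭 e O)
include h

theorem Cx.p0 : ϑ ≠ 0 := by
  rintro rfl
  simpa using h.c1

theorem Cx.hO : Ov O 2 := O.mem_nonunits_iff.2 (by
  simpa [map_ofNat] using lt1 h.b (a := 2) (by rw [h.o2]; norm_num))

theorem Cx.t0 : 0 < O.valuation (e ϑ) := zero_lt_iff.2 (by simpa using h.p0)

theorem Cx.t1 : O.valuation (e ϑ) < 1 := lt1 h.b (by rw [h.o1]; norm_num)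

theorem Cx.val (ha : a ≠ 0) : O.valuation (e a) = O.valuation (e ϑ) ^ og 𝔭 a := by
  simpa using (eq h.b ha (zpow_ne_zero (og 𝔭 a) h.p0)).2
    (by rw [og, og, ord_zpow, ← og, ← og, h.o1, mul_one])

theorem Cx.le {i j : ℤ} : O.valuation (e ϑ) ^ i ≤ O.valuation (e ϑ) ^ j ↔ j ≤ i :=
  zpow_le_zpow_iff_right_of_lt_one₀ h.t0 h.t1

theorem Cx.lt {i j : ℤ} : O.valuation (e ϑ) ^ i < O.valuation (e ϑ) ^ j ↔ j < i :=
  zpow_lt_zpow_iff_right_of_lt_one₀ h.t0 h.t1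

theorem Cx.inj {i j : ℤ} (q : O.valuation (e ϑ) ^ i = O.valuation (e ϑ) ^ j) : i = j :=
  le_antisymm (h.le.1 q.ge) (h.le.1 q.le)

theorem Cx.add (i j : ℤ) :
    O.valuation (e ϑ) ^ i * O.valuation (e ϑ) ^ j = O.valuation (e ϑ) ^ (i + j) :=
  (zpow_add₀ h.t0.ne' i j).symm

theorem Cx.w2 : O.valuation (2 : ℂ) = O.valuation (e ϑ) ^ (3 : ℤ) := by
  simpa [map_ofNat, h.o2] using h.val (a := 2) two_ne_zero

theorem Cx.lt1 {i : ℤ} (hi : 0 < i) : O.valuation (e ϑ) ^ i < 1 := by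
  simpa using h.lt.2 hi

theorem Cx.le1 {i : ℤ} (hi : 0 ≤ i) : O.valuation (e ϑ) ^ i ≤ 1 := by
  simpa using h.le.2 hi

theorem Cx.w0 : O.valuation (e θ) = O.valuation (e ϑ) ^ (4 : ℤ) := by
  have : O.valuation (4 * e ϑ - 7) = 1 := q_one _ (by
    rw [show 4 * e ϑ - 7 - 1 = 2 * ((2 : ℕ) * (e ϑ - (2 : ℕ))) by push_cast; ring, map_mul,
      map_mul, h.w2]
    exact mul_lt_one_of_lt_of_le (h.lt1 (by norm_num))
      (mul_le_one' (nat O 2) (Valuation.map_sub_le _ h.t1.le (nat O 2))))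
  have d : e θ = 2 * e ϑ * (4 * e ϑ - 7) := by
    simp only [h.c2, map_sub, map_mul, map_pow, map_ofNat]
    ring
  rw [d, map_mul, map_mul, this, mul_one, h.w2, ← zpow_add_one₀ h.t0.ne']
  rfl

theorem Cx.vL (hx : x ∈ Fx e O) (x0 : x ≠ 0) : ∃ k : ℤ, O.valuation x = O.valuation (e ϑ) ^ k := by
  obtain ⟨y, y0, hy⟩ := v3 vA Nat.prime_two h.hO hx x0
  exact ⟨_, hy.trans (h.val y0)⟩

theorem Cx.vQ (hx : x ∈ F0 O) (x0 : x ≠ 0) :
    ∃ k : ℤ, O.valuation x = O.valuation (e ϑ) ^ (3 * k) := by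
  obtain ⟨c, c0, hc⟩ := v3 vA Nat.prime_two h.hO hx x0
  obtain ⟨k, hk⟩ := rat pr_thm h.cub Nat.prime_two (𝔭 := 𝔭) (by simp [h.hab]) c0
  rw [Nat.cast_ofNat, h.o2] at hk
  refine ⟨k, hc.trans ?_⟩
  simpa [hk] using h.val (a := (c : L)) (by simpa using c0)

theorem Cx.par (hx : x ∈ F0 O) {n : ℤ} (q : O.valuation (x ^ 2) = O.valuation (e ϑ) ^ (3 * n)) :
    Even n := by
  have x0 : x ≠ 0 := fun z => (zpow_pos h.t0 _).ne' (by rw [← q, z]; simp)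
  obtain ⟨k, hk⟩ := h.vQ hx x0
  rw [sq, map_mul, hk, h.add] at q
  exact ⟨k, by have := h.inj q; omega⟩

theorem Cx.nosq {δ : ℤ} (hδ : δ = -1 ∨ δ = 2 ∨ δ = -2) (hx : x ∈ F0 O) (q : x ^ 2 = δ) : False := by
  have o : ¬ Even (1 : ℤ) := by decide
  rcases hδ with rfl | rfl | rfl
  · have x1 : O.valuation x = 1 := by
      have := congrArg O.valuation q
      rw [map_pow] at this
      exact (pow_eq_one_iff_left two_ne_zero).1 (by simpa using this)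
    refine o (h.par (add_mem (one_mem _) hx) ?_)
    rw [show (1 + x) ^ 2 = 2 * x by push_cast at q; linear_combination q, map_mul, x1, h.w2]
    simp
  · exact o (h.par hx (by rw [q, mul_one, ← h.w2]; simp))
  · exact o (h.par hx (by rw [q, mul_one, ← h.w2]; simp))

theorem Cx.sqc (hu : u ∈ Fx e O) {n : ℤ} (hn : Odd n) (h5 : n ≤ 5)
    (q : O.valuation (u ^ 2 - 1) ≤ O.valuation (e ϑ) ^ n) :
    O.valuation (u ^ 2 - 1) ≤ O.valuation (e ϑ) ^ (n + 1) := by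
  by_cases z : u - 1 = 0
  · simp [sub_eq_zero.1 z]
  obtain ⟨k, hk⟩ := h.vL (sub_mem hu (one_mem _)) z
  rw [show u ^ 2 - 1 = (u - 1) * (u - 1 + 2) by ring, map_mul] at q ⊢
  rcases lt_or_ge k 3 with c | c
  · rw [Valuation.map_add_eq_of_lt_left _ (by rw [hk, h.w2]; exact h.lt.2 c), hk, h.add,
      h.le] at q ⊢
    obtain ⟨j, rfl⟩ := hn
    omega
  · have c' : O.valuation (u - 1) ≤ O.valuation (e ϑ) ^ (3 : ℤ) := hk.trans_le (h.le.2 c)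
    refine (mul_le_mul' c' (Valuation.map_add_le _ c' h.w2.le)).trans ?_
    rw [h.add, h.le]
    omega

theorem Cx.pwv {n : ℤ} : a ∈ pw (𝔭.valuation L) n ↔ O.valuation (e a) ≤ O.valuation (e ϑ) ^ n := by
  by_cases z : a = 0
  · simp [z]
  rw [mem_pw_iff, h.val z, h.le, og]
  simp [z]

theorem Cx.at2 : At2 a ↔ ∃ β : L, a * β ^ 2 - 1 ∈ pw (𝔭.valuation L) 2 := by
  simp [At2, h.hab]

theorem Cx.fin (ha : a ≠ 0) {g z : ℂ} (hg : g ∈ Fx e O) (e1 : e a = g ^ 2 * z)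
    (hz : O.valuation (z - 1) ≤ O.valuation (e ϑ) ^ (2 : ℤ)) : At2 a :=
  h.at2.2 (Link2.fin vA h.hO h.b h.n1 ha h.o1 (by rw [h.o2]; norm_num) hg e1 (by simpa using hz))

theorem Cx.nat2 {g z : ℂ} (hg : g ∈ Fx e O) (e1 : e a = g ^ 2 * z)
    (hz : O.valuation (z - 1) = O.valuation (e ϑ) ^ (1 : ℤ)) : ¬ At2 a := fun q => by
  obtain ⟨β, hβ⟩ := h.at2.1 q
  rw [h.pwv, map_sub, map_mul, map_pow, map_one, e1,
    show g ^ 2 * z * e β ^ 2 = (g * e β) ^ 2 * z by ring] at hβ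
  have hu : g * e β ∈ Fx e O := mul_mem hg (mem β)
  generalize g * e β = u at hβ hu
  have t1 := h.lt1 one_pos
  have t2 := h.lt1 two_pos
  have z0 : z ≠ 0 := fun q => by simpa [q] using q_one _ (hz.trans_lt t1)
  have k1 := q_mul _ t1 (hβ.trans (h.le.2 one_le_two)) (q_inv _ t1 hz.le)
  rw [mul_inv_cancel_right₀ z0] at k1
  have k2 := h.sqc hu odd_one (by norm_num) k1
  have u0 : u ^ 2 ≠ 0 := fun q => by simpa [q] using q_one _ (k1.trans_lt t1)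
  have k3 := q_mul _ t2 (q_inv _ t2 k2) hβ
  rw [inv_mul_cancel_left₀ u0, hz, h.le] at k3
  omega

omit h in
open Pool.Agent.Stark Pool.Agent.Stark.LocAux Two in
theorem glob {n : ℤ} (hn : 1 ≤ n) :
    (∃ β : L, a * β ^ 2 - 1 ∈ pw (𝔭.valuation L) n) ↔ U (wv 𝔭) n (emb 𝔭 a) := by
  simp only [← ComplAux.emb_mem_pw, map_sub, map_mul, map_pow, map_one]
  refine ⟨fun ⟨β, hβ⟩ => ⟨_, hβ⟩, fun u => ?_⟩
  obtain ⟨b, b0, -, -, hb⟩ := u.ex hn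
  obtain ⟨β, hβ⟩ := exists_approx 𝔭 b (ord (wv 𝔭) b + n)
  have t := ComplAux.pw_div b0 hβ
  have t2 := add_mem (add_mem t t) (pw_mul t t (by omega))
  refine ⟨β, cg (add_mem (add_mem hb t2) (pw_mul hb t2 (by omega))) ?_⟩
  field_simp
  ring

open Pool.Agent.Stark Two in
theorem Cx.lsq (ha : a ≠ 0) (hN : IsSquare (Algebra.norm ℚ a)) (hm : s ∈ Fx e O)
    (e1 : s ^ 2 = e a) (b : L) : hq 𝔭 a b = 0 := by
  have t2 : emb 𝔭 2 = 2 := map_ofNat _ 2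
  have H : Two.H (wv 𝔭) (emb 𝔭 ϑ) := ⟨isLoc_wv 𝔭, (rc_wv 𝔭).trans h.n1, by
    rw [← t2, ord_emb, h.o2], (map_ne_zero _).2 h.p0, (ord_emb _ _).trans h.o1,
    by simpa [t2] using congrArg (emb 𝔭) h.c1⟩
  have st : ∀ n : ℤ, Odd n → 1 ≤ n → n ≤ 5 → U (wv 𝔭) n (emb 𝔭 a) →
      U (wv 𝔭) (n + 1) (emb 𝔭 a) := fun n o n1 n5 q => by
    obtain ⟨β, hβ⟩ := (glob n1).2 q
    refine (glob (by omega)).1 ⟨β, ?_⟩
    rw [h.pwv, map_sub, map_mul, map_pow, map_one, ← e1, ← mul_pow] at hβ ⊢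
    exact h.sqc (mul_mem hm (mem β)) o n5 hβ
  have u2 : U (wv 𝔭) 2 (emb 𝔭 a) :=
    (glob one_le_two).1 (h.at2.1 (h.fin ha hm (z := 1) (by rw [e1, mul_one]) (by simp)))
  have u4 := st 3 (by decide) (by norm_num) (by norm_num) (H.up 1 (.inl rfl) u2)
  have u6 := st 5 (by decide) (by norm_num) (by norm_num) (H.up 2 (.inr rfl) u4)
  have pf : hs (emb 𝔭 a) 2 = 0 := by
    simpa [h.hab, hq, t2] using pf_thm pr_thm L θ h.cub 2 a 2 Nat.prime_two ha hN two_ne_zero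
  exact hs_of_isSquare_left H.L.two ((map_ne_zero _).2 ha) (H.six u6 pf) _

end Pool.Agent.Lib.MP_d6ddbd_nt.KA.Dk2
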