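import Pool.Agent.Lib.MP_d6ddbd_nt.KA.Stmt
import Pool.Agent.Lib.MP_d6ddbd_nt.KA.Dk2a

/-!
The two-converse for all quadratic twists of `X₀(11)`: the condition at `2`.
-/

set_option autoImplicit false
set_option maxSynthPendingDepth 3

open NumberField IsDedekindDomain
open Pool.Agent.Lib.MP_02f36d_nt (xc yc xc_neg pt_ext)
open Pool.Agent.Stark (Pr og hq LSq pw)
open Pool.Agent.Lib.MP_d6ddbd_nt.K11
open Pool.Agent.Lib.MP_d6ddbd_nt.K11.Link2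
open Pool.Agent.Lib.MP_d6ddbd_nt.KI (vA rA rt cq tw rt_sq rt_alg rt_ne rt_map cq_or cq_sq cq_of
  tw_add tw_n tw_of alg_add alg_n)

noncomputable section

namespace Pool.Agent.Lib.MP_d6ddbd_nt.KA

namespace Dk2

variable {L : Type} [Field L] [NumberField L] {θ ϑ a : L} {𝔭 : Pr L} {e : L →+* ℂ}
  {O : ValuationSubring ℂ} {δ : ℤ} {s s' g x Y : ℂ} {S S' : Pt}

/-- The root `s` describes, on inertia, the twisted Kummer cocycle of `S`. -/
structure Pd (θ : L) (e : L →+* ℂ) (O : ValuationSubring ℂ) (δ : ℤ) (s : ℂ) (S : Pt) : Prop where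
  al : IsAlgebraic ℚ s
  ne : s ≠ 0
  ap : AlgP S
  fx : ∀ σ : G, Frob O 1 σ → tw δ σ (2 • S) = 2 • S
  km : ∀ σ : G, Frob O 1 σ → (∀ y, σ (e y) = e y) →
    (σ s = s ∨ σ s = -s) ∧ (σ s = s ↔ wl (e θ) (tw δ σ S - S) = 0)

theorem Pd.div (h : Pd θ e O δ s S) (h' : Pd θ e O δ s' S) : s / s' ∈ Fx e O := by
  refine ⟨h.al.mul h'.al.inv, fun σ i j => ?_⟩
  obtain ⟨a1, a2⟩ := h.km σ i j
  obtain ⟨b1, b2⟩ := h'.km σ i j
  rw [map_div₀]
  by_cases z : σ s = s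
  · rw [z, b2.2 (a2.1 z)]
  · rw [a1.resolve_left z, b1.resolve_left fun q => z (a2.2 (b2.1 q)), neg_div_neg_eq]

theorem tor {σ : G} (h : tw δ σ (2 • S) = 2 • S) : 2 • (tw δ σ S - S) = 0 := by
  rw [smul_sub, ← tw_n, h, sub_self]

theorem Pd.mul (hθ : Cub θ) (h : Pd θ e O δ s S) (h' : Pd θ e O δ s' S') :
    Pd θ e O δ (s * s') (S + S') := by
  refine ⟨h.al.mul h'.al, mul_ne_zero h.ne h'.ne, alg_add h.ap h'.ap, fun σ i => by
    rw [smul_add, tw_add, h.fx σ i, h'.fx σ i], fun σ i j => ?_⟩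
  obtain ⟨a1, a2⟩ := h.km σ i j
  obtain ⟨b1, b2⟩ := h'.km σ i j
  have n : ∀ {z : ℂ}, z ≠ 0 → -z ≠ z := fun z0 q => z0 (by linear_combination -q / 2)
  have zm : ∀ u v : ZMod 2, u + v = 0 ↔ (u = 0 ↔ v = 0) := by decide
  rw [tw_add, add_sub_add_comm, rA.1.2.2.2.2.2.1 _ _ _ (root hθ e) (tor (h.fx σ i))
    (tor (h'.fx σ i)), zm, ← a2, ← b2, map_mul]
  rcases a1 with a | a <;> rcases b1 with b | b <;> rw [a, b] <;>
    simp [n h.ne, n h'.ne, n (mul_ne_zero h.ne h'.ne)]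

theorem Pd.sc (h : Pd θ e O δ s S) (b : L) (hb : b ≠ 0) : Pd θ e O δ (s * e b) S := by
  have b0 : e b ≠ 0 := by simpa using hb
  refine ⟨h.al.mul (alg e b), mul_ne_zero h.ne b0, h.ap, h.fx, fun σ i j => ?_⟩
  rw [map_mul, j, ← neg_mul, mul_left_inj' b0, mul_left_inj' b0]
  exact h.km σ i j

theorem sm_of {σ : G} {R : Pt} (h : tw δ σ R = R) : σ • R = cq δ σ • R := by
  conv_rhs => rw [← h, tw, smul_smul, cq_sq, one_smul]

theorem tw_eq {σ : G} (h : tw δ σ (2 • S) = 2 • S) : σ • S - cq δ σ • S = tw δ σ S - S := by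
  have t := tor h
  rcases cq_or δ σ with c | c <;> rw [tw, c] at t ⊢
  · simp
  · rw [two_nsmul, add_eq_zero_iff_eq_neg] at t
    rw [t]
    simp [add_comm]

theorem mk0 (hθ : Cub θ) (hS : AlgP S) (z : 2 • S = 0) : Pd θ e O δ 1 S := by
  have fx : ∀ σ : G, tw δ σ (2 • S) = 2 • S := fun σ => by simp [z, tw]
  obtain ⟨r, -, hr, H⟩ := rA.1.2.2.2.2.2.2.2 (e θ) S (root hθ e)
  refine ⟨isAlgebraic_one, one_ne_zero, hS, fun σ _ => fx σ, fun σ _ j => ⟨by simp, ?_⟩⟩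
  obtain ⟨-, k, -⟩ := H σ _ (j θ) (cq_or δ σ) (sm_of (fx σ))
  rw [tw_eq (fx σ)] at k
  refine iff_of_true (map_one σ) ((k (by simp [wl, z])).1 ?_)
  unfold K11.gam at hr
  rw [if_pos z, sq_eq_one_iff] at hr
  rcases hr with q | q <;> simp [q]

theorem mk1 (hθ : Cub θ) (hδ : δ ≠ 0) (hS : AlgP S)
    (fx : ∀ σ : G, Frob O 1 σ → tw δ σ (2 • S) = 2 • S) (z : 2 • S ≠ 0) (n : xc (2 • S) ≠ e θ) :
    ∃ s, s ^ 2 = δ * (xc (2 • S) - e θ) ∧ Pd θ e O δ s S := by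
  obtain ⟨r, r0, hr, H⟩ := rA.1.2.2.2.2.2.2.2 (e θ) S (root hθ e)
  unfold K11.gam at hr
  rw [if_neg z, if_neg n] at hr
  have ar : IsAlgebraic ℚ r :=
    IsAlgebraic.of_pow two_pos (hr ▸ (alg_n 2 hS).1.sub (alg e θ))
  refine ⟨rt δ * r, by rw [mul_pow, rt_sq, hr], (rt_alg δ).mul ar, mul_ne_zero (rt_ne hδ) r0, hS,
    fx, fun σ i j => ?_⟩
  obtain ⟨k1, -, k⟩ := H σ _ (j θ) (cq_or δ σ) (sm_of (fx σ i))
  rw [← tw_eq (fx σ i), ← k (by simp [wl, z, n]), map_mul, rt_map]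
  have n : ∀ {z : ℂ}, z ≠ 0 → -z ≠ z := fun z0 q => z0 (by linear_combination -q / 2)
  rcases cq_or δ σ with c | c <;> rcases k1 with k1 | k1 <;> rw [c, k1] <;>
    simp [n r0, (n r0).symm, n (mul_ne_zero (rt_ne hδ) r0)]

theorem crd (hδ : δ ≠ 0) {R : Pt} (hR : AlgP R) (z : R ≠ 0)
    (fx : ∀ σ : G, Frob O 1 σ → tw δ σ R = R) :
    xc R ∈ F0 O ∧ ∃ Y ∈ F0 O, δ * Y ^ 2 = fc (xc R) := by
  refine ⟨⟨hR.1, fun σ i _ => ?_⟩, yc R / rt δ, ⟨hR.2.mul (rt_alg δ).inv, fun σ i _ => ?_⟩, ?_⟩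
  · rw [← xc_smul, sm_of (fx σ i)]
    rcases cq_or δ σ with c | c <;> simp [c, xc_neg]
  · rw [map_div₀, ← yc_smul, sm_of (fx σ i), rt_map]
    rcases cq_or δ σ with c | c <;> simp [c, R1.ycn z, neg_div_neg_eq]
  · rw [div_pow, rt_sq, rA.1.2.1 R z, mul_div_cancel₀ _ (by exact_mod_cast hδ)]

theorem base (hθ : Cub θ) (hδ : δ ≠ 0) (x y : ℤ) (h : δ * y ^ 2 = fc x) :
    ∃ s S, s ^ 2 = δ * (x - e θ) ∧ Pd θ e O δ s S := by
  obtain ⟨p0, p1, p2⟩ := rA.1.2.2.1 x (y * rt δ) (by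
    rw [mul_pow, rt_sq, show fc (x : ℂ) = (fc x : ℤ) by simp [fc], ← h]
    push_cast
    ring)
  obtain ⟨S, hS⟩ := rA.1.1.2.2.2.2.2 (pt x (y * rt δ))
  rw [← hS] at p0 p1 p2
  have ap : AlgP S := rA.1.1.2.2.2.2.1 S ⟨p1 ▸ isAlgebraic_intCast x,
    p2 ▸ (isAlgebraic_intCast y).mul (rt_alg δ)⟩
  obtain ⟨s, a, b⟩ := mk1 (e := e) (O := O) hθ hδ ap (fun σ _ => by
    have s0 : σ • 2 • S ≠ 0 := (smul_eq_zero' σ _).not.2 p0
    rcases cq_or δ σ with c | c <;> rw [tw, c]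
    · rw [one_smul]
      exact pt_ext s0 p0 (by rw [xc_smul, p1, map_intCast])
        (by rw [yc_smul, p2, map_mul, map_intCast, rt_map, c]; simp)
    · rw [neg_smul, one_smul]
      exact pt_ext (neg_ne_zero.2 s0) p0 (by rw [xc_neg, xc_smul, p1, map_intCast])
        (by rw [R1.ycn s0, yc_smul, p2, map_mul, map_intCast, rt_map, c]; simp)) p0 (by
    rw [p1]
    intro q
    exact ((pr_thm L θ hθ).2.2.2.2.2.1 x).1 (e.injective (by simpa using q)))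
  exact ⟨s, S, p1 ▸ a, b⟩

variable (h : Cx θ ϑ 𝔭 e O)
include h

theorem Cx.tri (hδ : δ = -1 ∨ δ = 2 ∨ δ = -2) (hx : x ∈ F0 O) (hY : Y ∈ F0 O)
    (E : δ * Y ^ 2 = fc x) : ∃ k ∈ Fx e O, ∃ z, δ * (x - e θ) = k ^ 2 * z ∧
      (δ = -1 → O.valuation (z - 1) ≤ O.valuation (e ϑ) ^ (2 : ℤ)) ∧
      (δ ≠ -1 → z = 1 ∨ O.valuation (z - 1) = O.valuation (e ϑ) ^ (1 : ℤ)) := by
  have δ0 : (δ : ℂ) ≠ 0 := by rcases hδ with rfl | rfl | rfl <;> simp
  have mδ : (δ : ℂ) ∈ F0 O := intCast_mem _ δ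
  have vδ : δ ≠ -1 → O.valuation (δ : ℂ) = O.valuation (e ϑ) ^ (3 : ℤ) := fun n => by
    rcases hδ with rfl | rfl | rfl
    · exact absurd rfl n
    · simpa using h.w2
    · simpa using h.w2
  have w4 : O.valuation (4 : ℂ) = O.valuation (e ϑ) ^ (6 : ℤ) := by
    rw [show (4 : ℂ) = 2 * 2 by norm_num, map_mul, h.w2, h.add]
    rfl
  have dv : ∀ {a b : ℂ} {i j : ℤ}, O.valuation a = O.valuation (e ϑ) ^ i →
      O.valuation b = O.valuation (e ϑ) ^ j → O.valuation (a / b) = O.valuation (e ϑ) ^ (i - j) :=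
    fun p q => by rw [map_div₀, p, q, zpow_sub₀ h.t0.ne']
  by_cases A : O.valuation x ≤ O.valuation (e ϑ) ^ (6 : ℤ)
  · have m1 : x / 4 ∈ O := by
      rwa [← O.valuation_le_one_iff, map_div₀, w4, div_le_one₀ (zpow_pos h.t0 _)]
    have m2 : x / 4 ∈ F0 O := div_mem hx (ofNat_mem _ 4)
    obtain ⟨w, w1, w0, hw⟩ := hen h.hO (m := (x / 4) ^ 3 - (x / 4) ^ 2 - 10 * (x / 4) - 20)
      (sub_mem (sub_mem (sub_mem (pow_mem m2 3) (pow_mem m2 2)) (mul_mem (ofNat_mem _ 10) m2))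
        (ofNat_mem _ 20)) ((O.valuation_le_one_iff _).2
      (sub_mem (sub_mem (sub_mem (pow_mem m1 3) (pow_mem m1 2)) (mul_mem (ofNat_mem _ 10) m1))
        (ofNat_mem _ 20)))
    have E' : δ * Y ^ 2 = (4 * w) ^ 2 := by
      rw [E, mul_pow, hw, fc]
      ring
    have Y0 : Y ≠ 0 := fun q => w0 (by simpa [q] using E'.symm)
    exact (h.nosq hδ (div_mem (mul_mem (ofNat_mem _ 4) w1) hY)
      (by rw [div_pow, ← E', mul_div_cancel_right₀ _ (pow_ne_zero 2 Y0)])).elim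
  have x0 : x ≠ 0 := fun q => A (by simp [q])
  obtain ⟨n, hn⟩ := h.vQ hx x0
  rw [hn, h.le, not_le] at A
  have vθ := dv h.w0 hn
  have mk : δ * Y / x ∈ F0 O := div_mem (mul_mem mδ hY) hx
  rcases lt_or_ge n 1 with c | c
  · have m1 : x⁻¹ ∈ O := by
      rw [← O.valuation_le_one_iff, map_inv₀, hn, ← zpow_neg]
      exact h.le1 (by omega)
    have m2 : x⁻¹ ∈ F0 O := inv_mem hx
    obtain ⟨w, w1, w0, hw⟩ := hen h.hO (m := -x⁻¹ - 40 * x⁻¹ ^ 2 - 316 * x⁻¹ ^ 3)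
      (sub_mem (sub_mem (neg_mem m2) (mul_mem (ofNat_mem _ 40) (pow_mem m2 2)))
        (mul_mem (ofNat_mem _ 316) (pow_mem m2 3))) ((O.valuation_le_one_iff _).2
      (sub_mem (sub_mem (neg_mem m1) (mul_mem (ofNat_mem _ 40) (pow_mem m1 2)))
        (mul_mem (ofNat_mem _ 316) (pow_mem m1 3))))
    have k1 : δ * Y / x / w ∈ F0 O := div_mem mk w1
    have k2 : (δ * Y / x / w) ^ 2 = δ * x := by
      rw [div_pow, div_eq_iff (pow_ne_zero 2 w0), hw]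
      rw [fc] at E
      field_simp
      linear_combination E
    generalize δ * Y / x / w = k at k1 k2
    by_cases d : δ = -1
    · refine ⟨k, up0 e k1, 1 - e θ / x, by rw [k2]; field_simp, fun _ => ?_, fun q => absurd d q⟩
      rw [sub_sub_cancel_left, Valuation.map_neg, vθ, h.le]
      omega
    have ev := h.par k1 (n := 1 + n) (by rw [k2, map_mul, vδ d, hn, h.add]; congr 1; ring)
    obtain ⟨w', w2, -, hw'⟩ := hen h.hO (e' := e) (m := -(e θ / x / 4))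
      (neg_mem (div_mem (div_mem (mem θ) (up0 e hx)) (ofNat_mem _ 4))) (by
        rw [Valuation.map_neg, dv vθ w4]
        obtain ⟨j, hj⟩ := ev
        exact h.le1 (by omega))
    refine ⟨k * w', mul_mem (up0 e k1) w2, 1, ?_, fun q => absurd q d, fun _ => Or.inl rfl⟩
    rw [mul_pow, k2, hw']
    field_simp
    ring
  obtain rfl : n = 1 := by omega
  have m1 : 2 / x ∈ O := by
    rw [← O.valuation_le_one_iff, dv h.w2 hn]
    simp
  have t3 := h.lt1 (i := 3) (by norm_num)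
  have B1 : O.valuation (fc x / x ^ 3 - 1) ≤ O.valuation (e ϑ) ^ (3 : ℤ) := by
    rw [show fc x / x ^ 3 - 1 = 2 * (-(2 / x) - 20 * (2 / x) ^ 2 - 79 * (2 / x) ^ 3) by
      rw [fc]; field_simp; ring, map_mul, h.w2]
    exact mul_le_of_le_one_right' ((O.valuation_le_one_iff _).2
      (sub_mem (sub_mem (neg_mem m1) (mul_mem (ofNat_mem _ 20) (pow_mem m1 2)))
        (mul_mem (ofNat_mem _ 79) (pow_mem m1 3))))
  have B2 := q_one _ (B1.trans_lt t3)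
  have B3 := q_inv _ t3 B1
  have B0 : fc x / x ^ 3 ≠ 0 := fun q => by simp [q] at B2
  have k2 : (δ * Y / x) ^ 2 = δ * x * (fc x / x ^ 3) := by
    rw [← E]
    field_simp
  generalize fc x / x ^ 3 = B at B1 B2 B3 B0 k2
  generalize δ * Y / x = k at mk k2
  by_cases d : δ = -1
  · exact absurd (h.par mk (n := 1) (by rw [k2, map_mul, map_mul, B2, hn, d]; simp)) (by decide)
  refine ⟨k, up0 e mk, B⁻¹ * (1 - e θ / x), by rw [k2]; field_simp, fun q => absurd q d,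
    fun _ => Or.inr ?_⟩
  rw [show B⁻¹ * (1 - e θ / x) - 1 = B⁻¹ - 1 - B⁻¹ * (e θ / x) by ring,
    Valuation.map_sub_eq_of_lt_right, map_mul, map_inv₀, B2, vθ]
  · simp
  · rw [map_mul, map_inv₀, B2, vθ, inv_one, one_mul]
    exact B3.trans_lt (h.lt.2 (by norm_num))

theorem Cx.dich (hδ : δ = -1 ∨ δ = 2 ∨ δ = -2) (ha : a ≠ 0) (e1 : s ^ 2 = e a)
    (hp : Pd θ e O δ s S) : s ∈ Fx e O ∨ (δ = -1 ∧ At2 a) ∨ (δ ≠ -1 ∧ ¬ At2 a) := by
  have δ0 : δ ≠ 0 := by omega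
  by_cases z : 2 • S = 0
  · exact Or.inl (by simpa using hp.div (mk0 h.cub hp.ap z))
  obtain ⟨hx, Y, hY, E⟩ := crd δ0 (alg_n 2 hp.ap) z hp.fx
  have n : xc (2 • S) ≠ e θ := fun q => by
    rw [q] at hx
    obtain ⟨k, hk⟩ := h.vQ hx fun q => (zpow_pos h.t0 _).ne' (by rw [← h.w0, q, map_zero])
    have := h.inj (h.w0.symm.trans hk)
    omega
  obtain ⟨r, hr, pr⟩ := mk1 h.cub δ0 hp.ap hp.fx z n
  obtain ⟨k, hk, y, e2, c1, c2⟩ := h.tri hδ hx hY E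
  have g := mul_mem (hp.div pr) hk
  have e3 : e a = (s / r * k) ^ 2 * y := by
    rw [mul_pow, mul_assoc, ← e2, ← hr, div_pow, div_mul_cancel₀ _ (pow_ne_zero 2 pr.ne), e1]
  by_cases d : δ = -1
  · exact Or.inr (Or.inl ⟨d, h.fin ha g e3 (c1 d)⟩)
  rcases c2 d with rfl | c
  · rw [mul_one, ← e1, sq_eq_sq_iff_eq_or_eq_neg] at e3
    exact Or.inl (e3.elim (· ▸ g) (· ▸ neg_mem g))
  · exact Or.inr (Or.inr ⟨d, h.nat2 g e3 c⟩)

end Dk2

open Dk2 in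
theorem dk2_thm (hC : ConstStmt) (hP : P2Stmt) (hQ : CqStmt) : Dk2Stmt := by
  intro L _ _ θ hθ d δ c α ξ hT hα hN hξ hK hU
  have o1 : Odd (ee d * c) := by
    refine Odd.mul ?_ (Int.odd_iff.2 (by have := hT.fam.m4; omega))
    unfold ee
    split_ifs <;> decide
  have cd : ∀ O (σ : G), Ov O 2 → Frob O 1 σ → ∀ P, tw d σ P = tw δ σ P := fun O σ hO i P => by
    rw [tw, tw, (hQ d δ c hT).1, ((hQ d δ c hT).2.1 2 O σ Nat.prime_two
      (fun q => Int.not_even_iff_odd.2 o1 (even_iff_two_dvd.2 q)) hO i).1, mul_one]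
  have par : Even d ↔ Even δ := by
    rw [hT.eq, mul_assoc, Int.even_mul, or_iff_left (Int.not_even_iff_odd.2 o1)]
  have A : ¬ Even δ → At2 α → A2 θ d α := fun q a =>
    ⟨fun _ => a, fun z => absurd (par.1 z) q⟩
  by_cases d1 : δ = 1
  · subst d1
    refine A (by decide) ((link2_thm vA rA pr_thm L θ hθ α ξ hα hN hξ hK).1
      fun O hO => ?_)
    obtain ⟨S, hS, H⟩ := hU O hO
    refine ⟨S, hS, fun σ i => ?_⟩
    have c1 : cq 1 σ = 1 := cq_of one_ne_zero (s := 1) (by simp) (by simp)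
    simpa only [cd O σ hO i, tw_of c1] using H σ i
  have hδ : δ = -1 ∨ δ = 2 ∨ δ = -2 := hT.dl.resolve_left d1
  obtain ⟨ϑ, 𝔭, e, O, h⟩ := ex_cx hθ
  obtain ⟨S, hS, H⟩ := hU O h.hO
  obtain ⟨s, hs⟩ := IsAlgClosed.exists_pow_nat_eq (e α) two_pos
  have hp : Pd θ e O δ s S := ⟨IsAlgebraic.of_pow two_pos (hs ▸ alg e α),
    fun q => hα (by simpa [q] using hs.symm), hS, fun σ i => cd O σ h.hO i _ ▸ (H σ i).1,
    fun σ i j => ⟨sq_eq_sq_iff_eq_or_eq_neg.1 (by rw [← map_pow, hs, j]), by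
      rw [← cd O σ h.hO i, ← (H σ i).2]
      exact hK e s σ hs (j θ)⟩⟩
  by_cases d2 : δ = -1
  · refine A (by rw [d2]; decide) ?_
    rcases h.dich hδ hα hs hp with q | q | q
    · exact h.fin hα q (z := 1) (by rw [hs, mul_one]) (by simp)
    · exact q.2
    · exact absurd d2 q.1
  have ev : Even δ := by rcases hδ with rfl | rfl | rfl <;> simp at d2 ⊢
  refine ⟨fun o => absurd (par.2 ev) (Int.not_even_iff_odd.2 o), fun _ => ?_⟩
  have z : ∀ {a : L} {s : ℂ}, a ≠ 0 → IsSquare (Algebra.norm ℚ a) → s ∈ Fx e O → s ^ 2 = e a →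
      h2 a (gm2 θ) = 0 := fun a0 a1 a2 a3 => by
    rw [h2, h.hab, Finset.sum_singleton, h.lsq a0 a1 a2 a3]
  rcases h.dich hδ hα hs hp with q | q | ⟨-, q⟩
  · exact z hα hN q hs
  · exact absurd q.1 d2
  obtain ⟨⟨g0, g1, g2, g3, -, g4, r, hr⟩, -⟩ := hC L θ hθ
  obtain ⟨s', S', e1, hp'⟩ : ∃ s' S', s' ^ 2 = e (gm2 θ) ∧ Pd θ e O δ s' S' := by
    rcases hδ with rfl | rfl | rfl
    · exact absurd rfl d2
    · obtain ⟨s', S', a, b⟩ := base (e := e) (O := O) hθ two_ne_zero 18 14 (by norm_num [fc])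
      exact ⟨s', S', by simpa [gm2, map_ofNat] using a, b⟩
    · obtain ⟨s', S', a, b⟩ := base (e := e) (O := O) (δ := -2) hθ (by norm_num) (-2) 22
        (by norm_num [fc])
      have n1 : 18 - θ ≠ 0 := right_ne_zero_of_mul g0
      have n2 : 2 + θ ≠ 0 := fun q =>
        ((pr_thm L θ hθ).2.2.2.2.2.1 (-2)).1 (by push_cast; linear_combination -q)
      have r0 : r ≠ 0 := fun q => mul_ne_zero n1 n2 (by rw [hr, q, mul_zero])
      refine ⟨_, S', ?_, b.sc ((18 - θ) / r) (div_ne_zero n1 r0)⟩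
      have : 2 * (2 + θ) * ((18 - θ) / r) ^ 2 = gm2 θ := by
        rw [div_pow, sq r, ← hr, gm2]
        field_simp
      rw [mul_pow, a, ← this]
      simp only [map_mul, map_pow, map_add, map_ofNat]
      push_cast
      ring
  have a0 := mul_ne_zero hα g0
  have e2 : (s * s') ^ 2 = e (α * gm2 θ) := by rw [mul_pow, hs, e1, map_mul]
  have evα : Even (og 𝔭 α) := by
    have := ((pr_thm L θ hθ).2.2.2.1 2 α Nat.prime_two hα).2 hN
    rwa [h.hab, Finset.sum_singleton, h.n1, show Nat.log 2 2 = 1 by norm_num, Nat.cast_one,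
      one_mul] at this
  rcases h.dich hδ a0 e2 (hp.mul hθ hp') with q' | q' | ⟨-, q'⟩
  · have := z a0 (by rw [map_mul]; exact hN.mul g1) q' e2
    rwa [((hP L θ hθ).1 _ _ _ hα g0 g0).1, g4, add_zero] at this
  · exact absurd q'.1 d2
  · refine absurd ((two_thm pr_thm (pf_thm pr_thm) L θ hθ).2.1 _ _ hα g0 (fun 𝔮 hq => ?_) q g2) q'
    obtain rfl : 𝔮 = 𝔭 := by simpa [h.hab] using hq
    exact ⟨evα, g3 _⟩

end Pool.Agent.Lib.MP_d6ddbd_nt.KA
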