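import Pool.Agent.Lib.MP_d6ddbd_nt.KA.Stmt
import Pool.Agent.Lib.MP_d6ddbd_nt.KI.Bas

/-!
The group of components at `11` of the ramified twist.
-/

set_option autoImplicit false
set_option maxSynthPendingDepth 3

open WeierstrassCurve IsLocalRing
open Pool.Agent.Lib.MP_02f36d_nt
open Pool.Agent.Lib.MP_d6ddbd_nt.K11
open Pool.Agent.Lib.MP_d6ddbd_nt.KI (rt cq tw rt_sq rt_alg rt_ne rt_map cq_or cq_mul cq_inv cq_sq vA)

noncomputable section

namespace Pool.Agent.Lib.MP_d6ddbd_nt.KA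

namespace G11

variable {O : ValuationSubring ℂ}

/-- The points that reduce to the origin. -/
def Fz (O : ValuationSubring ℂ) (P : Pt) : Prop := P = 0 ∨ xc P ∉ O

theorem unt (h : Ov O 11) (c : ℤ) (hc : ¬ (11 : ℤ) ∣ c) : (c : ℂ) ∉ O.nonunits :=
  V2.int_not (l := 11) (by norm_num) h (by exact_mod_cast hc)

theorem el (h : Ov O 11) : (11 : ℂ) ∈ O.nonunits := by simpa [Ov] using h

theorem mem_of_unit {u x : ℂ} (hu : u ∉ O.nonunits) (h : u * x ∈ O) : x ∈ O := by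
  rw [ValuationSubring.mem_nonunits_iff_or, not_or, not_not] at hu
  have := mul_mem hu.2 h
  rwa [← mul_assoc, inv_mul_cancel₀ hu.1, one_mul] at this

theorem nu_mul {x y : ℂ} (hx : x ∈ O.nonunits) (hy : y ∈ O) : x * y ∈ O.nonunits := by
  rw [mul_comm]; exact V2.mul_nu hy hx

theorem sub_un {x y : ℂ} (hx : x ∉ O.nonunits) (h : y - x ∈ O.nonunits) : y ∉ O.nonunits :=
  fun e => hx (by simpa using sub_mem e h)

theorem Fz.add (h : Ov O 11) {P Q : Pt} (hP : Fz O P) (hQ : Fz O Q) : Fz O (P + Q) := by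
  classical
  have := R2.closed O
  have hE : EE.Δ ≠ 0 := by
    rw [show EE = R2.Ur ℂ from rfl, R2.delta]
    norm_num
  have hc : (R2.Ur (ResidueField O)).c₄ ≠ 0 := fun e => by
    have e' : (7936 : ResidueField O) = 0 := by
      rw [← e]
      simp only [R2.Ur, c₄, b₂, b₄]
      norm_num
    have s : Sp (R2.pl O) (7936 : ℂ) (7936 : ResidueField O) := sp_ofNat 7936
    rw [e', R2.sp0] at s
    exact unt h 7936 (by norm_num) (by exact_mod_cast s)
  have r := Red.add (p := R2.pl O) (a := 0) (b := 0) residue_surjective hE (sep_of_c4 (Or.inl hc))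
    R2.spW (Or.inl ⟨rfl, hP⟩) (Or.inl ⟨rfl, hQ⟩)
  rw [add_zero] at r
  exact r.of_zero

theorem Fz.neg {P : Pt} (hP : Fz O P) : Fz O (-P) := by
  rcases hP with rfl | e
  · exact Or.inl neg_zero
  · exact Or.inr (by rwa [xc_neg])

theorem Fz.sub (h : Ov O 11) {P Q : Pt} (hP : Fz O P) (hQ : Fz O Q) : Fz O (P - Q) := by
  rw [sub_eq_add_neg]; exact hP.add h hQ.neg

theorem Fz.smul {Q : ℕ} {σ : G} {P : Pt} (hσ : Frob O Q σ) (hQ : Q ≠ 0) (a : AlgP P)
    (hP : Fz O P) : Fz O (σ • P) := by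
  rcases hP with rfl | e
  · exact Or.inl (smul_zero σ)
  · exact Or.inr (by rw [xc_smul, (V2.c2 hσ hQ a.1).1]; exact e)

theorem Fz.two {T : Pt} (hT : Fz O T) (h2 : 2 • T = 0) : T = 0 := by
  rcases (R1.two_iff T).1 h2 with e | e
  · exact e
  · exact hT.resolve_right fun m => m (R2.root_mem e.2)

theorem not_Fz {P : Pt} (h0 : P ≠ 0) (hx : xc P ∈ O) : ¬ Fz O P := fun e => e.elim h0 fun m => m hx

/-- Every point of the kernel of reduction has a half in the kernel of reduction. -/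
theorem Fz.half (h : Ov O 11) {R : Pt} (hR : Fz O R) : ∃ S, Fz O S ∧ 2 • S = R := by
  by_cases r0 : R = 0
  · exact ⟨0, Or.inl rfl, by rw [r0, smul_zero]⟩
  have hX := hR.resolve_left r0
  obtain ⟨S, rfl⟩ := R1.ex_half R
  obtain ⟨e₁, e₂, e₃, fac, -⟩ := R1.roots
  have s0 : S ≠ 0 := fun e => r0 (by rw [e, smul_zero])
  have y0 : yc S ≠ 0 := fun e => r0 ((R1.two_iff S).2 (Or.inr ⟨e, by rw [← R1.eq1 s0, e]; ring⟩))
  have key : ∀ e : ℂ, fc e = 0 → xc S - e ≠ 0 ∧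
      (e + fd e / (xc S - e) ∉ O → ∃ S', Fz O S' ∧ 2 • S' = 2 • S) := fun e he => by
    obtain ⟨p0, p1, p2⟩ := R1.pt_spec (x := e) (y := 0) (by rw [he]; ring)
    have ne : xc S ≠ e := fun z => y0 (by
      have := R1.eq1 s0
      rw [z, he] at this
      exact pow_eq_zero_iff two_ne_zero |>.1 this)
    obtain ⟨-, a1, -⟩ := R1.add_T s0 p0 p2 (by rwa [p1])
    rw [p1] at a1
    refine ⟨sub_ne_zero.2 ne, fun m => ⟨S + pt e 0, Or.inr (by rwa [a1]), ?_⟩⟩
    rw [smul_add, (R1.two_iff _).2 (Or.inr ⟨p2, by rw [p1, he]⟩), add_zero]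
  obtain ⟨n1, k1⟩ := key e₁ (by rw [fac]; ring)
  obtain ⟨n2, k2⟩ := key e₂ (by rw [fac]; ring)
  obtain ⟨n3, k3⟩ := key e₃ (by rw [fac]; ring)
  by_contra hn
  have m0 : xc S ∈ O := by_contra fun m => hn ⟨S, Or.inr m, rfl⟩
  have m1 := not_not.1 fun m => hn (k1 m)
  have m2 := not_not.1 fun m => hn (k2 m)
  have m3 := not_not.1 fun m => hn (k3 m)
  have f0 := fac 0
  have f1 := fac 1
  have f2 := fac (-1)
  simp only [fc] at f0 f1 f2
  have s1 : e₁ + e₂ + e₃ = 4 := by linear_combination (f1 + f2) / 2 - f0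
  have s2 : e₁ * e₂ + e₁ * e₃ + e₂ * e₃ = -160 := by linear_combination (f2 - f1) / 2
  have d : ∀ z : ℂ, fd z = (z - e₂) * (z - e₃) + (z - e₁) * (z - e₃) + (z - e₁) * (z - e₂) :=
    fun z => by rw [fd]; linear_combination 2 * z * s1 - s2
  have db := (R1.dbl s0 y0).2
  rw [R1.eq1 s0, fac, d] at db
  have id : (4 : ℂ) * xc (2 • S) = xc S + (e₁ + fd e₁ / (xc S - e₁)) + (e₂ + fd e₂ / (xc S - e₂)) +
      (e₃ + fd e₃ / (xc S - e₃)) := by
    rw [d, d, d]
    field_simp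
    linear_combination db - 4 * ((xc S - e₁) * (xc S - e₂) * (xc S - e₃)) * s1
  exact hX (mem_of_unit (by exact_mod_cast unt h 4 (by norm_num))
    (id ▸ add_mem (add_mem (add_mem m0 m1) m2) m3))

/-- Algebraic numbers that are fixed by inertia. -/
def Fx (O : ValuationSubring ℂ) (z : ℂ) : Prop :=
  IsAlgebraic ℚ z ∧ ∀ σ : G, Frob O 1 σ → σ z = z

theorem Fx.dv (h : Ov O 11) {z : ℂ} (hz : Fx O z) (m : z ∈ O.nonunits) :
    ∃ w, w ∈ O ∧ Fx O w ∧ z = 11 * w := by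
  refine ⟨z / 11, ?_, ⟨hz.1.mul (by simpa using (isAlgebraic_natCast (R := ℚ) (A := ℂ) 11).inv),
    fun σ hσ => by rw [map_div₀, hz.2 σ hσ, map_ofNat]⟩, by ring⟩
  by_cases z0 : z = 0
  · rw [z0, zero_div]; exact zero_mem _
  obtain ⟨y, y0, y1, y2⟩ := vA.2.2.1 ℚ (Rat.castHom ℂ) 11 O z (by norm_num) h hz.1 z0
    fun σ hσ _ => hz.2 σ hσ
  have yc0 : (y : ℂ) ≠ 0 := by exact_mod_cast y0
  have dn : (y.den : ℂ) ≠ 0 := by exact_mod_cast y.den_ne_zero
  have e0 : (y : ℂ) * y.den = y.num := by exact_mod_cast y.mul_den_eq_num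
  change z / (y : ℂ) ∈ O at y1
  change z / (y : ℂ) ∉ O.nonunits at y2
  have my : (y : ℂ) ∈ O.nonunits := V2.nu_of_mul (by rwa [div_mul_cancel₀ _ yc0]) y2
  have hn : (11 : ℤ) ∣ y.num := by_contra fun e =>
    unt h _ e (e0 ▸ nu_mul my (natCast_mem O _))
  have hd : ¬ (11 : ℤ) ∣ (y.den : ℤ) := fun e => by
    have h1 : 11 ∣ y.num.natAbs := Int.natAbs_dvd_natAbs.2 hn
    have h2 : 11 ∣ y.den := by exact_mod_cast e
    have := Nat.dvd_gcd h1 h2
    rw [y.reduced] at this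
    omega
  obtain ⟨k, hk⟩ := hn
  refine mem_of_unit (unt h _ hd) ?_
  have : ((y.den : ℤ) : ℂ) * (z / 11) = z / y * k := by
    rw [hk] at e0
    push_cast at e0 ⊢
    field_simp
    linear_combination e0
  rw [this]
  exact mul_mem y1 (intCast_mem O k)

/-- The descent at the node. -/
theorem node (h : Ov O 11) {a y g u : ℂ} (ha : Fx O a) (hy : Fx O y) (m : a ∈ O.nonunits)
    (g0 : g ∈ O) (g1 : g ∉ O.nonunits) (u0 : u ∈ O)
    (e : -11 * y ^ 2 = g * (a ^ 2 - 11 ^ 5 * u)) : ∃ w ∈ O, a = 11 ^ 3 * w := by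
  have l := el h
  have n : ∀ k : ℕ, (11 : ℂ) ^ k ∈ O := fun k => pow_mem (ValuationSubring.nonunits_subset l) k
  obtain ⟨a1, b1, c1, rfl⟩ := ha.dv h m
  obtain ⟨y1, p1, q1, rfl⟩ := hy.dv h (V2.nu_of_pow (n := 2) (by
    rw [show y ^ 2 = 11 * (g * (11 ^ 3 * u - a1 ^ 2)) by linear_combination -e / 11]
    exact nu_mul l (mul_mem g0 (sub_mem (mul_mem (n 3) u0) (pow_mem b1 2)))))
  obtain ⟨a2, b2, c2, rfl⟩ := c1.dv h (V2.nu_of_pow (n := 2) (V2.nu_of_mul (x := g) (by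
    rw [show g * a1 ^ 2 = 11 * (11 ^ 2 * g * u - y1 ^ 2) by linear_combination -e / 121]
    exact nu_mul l (sub_mem (mul_mem (mul_mem (n 2) g0) u0) (pow_mem p1 2))) g1))
  obtain ⟨y2, p2, -, rfl⟩ := q1.dv h (V2.nu_of_pow (n := 2) (by
    rw [show y1 ^ 2 = 11 * (g * (11 * u - a2 ^ 2)) by linear_combination -e / 1331]
    exact nu_mul l (mul_mem g0 (sub_mem (mul_mem (ofNat_mem O 11) u0) (pow_mem b2 2)))))
  obtain ⟨a3, b3, -, rfl⟩ := c2.dv h (V2.nu_of_pow (n := 2) (V2.nu_of_mul (x := g) (by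
    rw [show g * a2 ^ 2 = 11 * (g * u - y2 ^ 2) by linear_combination -e / 14641]
    exact nu_mul l (sub_mem (mul_mem g0 u0) (pow_mem p2 2))) g1))
  exact ⟨a3, b3, by ring⟩

theorem an_add {R R' : Pt} (h : An O R) (h' : An O R') : An O (R + R') :=
  ⟨R1.alg_add _ _ h.1 h'.1, fun σ hσ => by rw [smul_add, smul_add, h.2 σ hσ, h'.2 σ hσ]⟩

theorem alg_neg {R : Pt} (h : AlgP R) : AlgP (-R) := r1_thm.1.2.2.1 R h

theorem an_neg {R : Pt} (h : An O R) : An O (-R) :=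
  ⟨alg_neg h.1, fun σ hσ => by rw [smul_neg, smul_neg, h.2 σ hσ]⟩

theorem an_zero : An O 0 := ⟨⟨isAlgebraic_zero, isAlgebraic_zero⟩, fun σ _ => by simp⟩

theorem an_nsmul {R : Pt} (h : An O R) (n : ℕ) : An O (n • R) := by
  induction n with
  | zero => rw [zero_smul]; exact an_zero
  | succ n ih => rw [succ_nsmul]; exact an_add ih h

theorem an_frob (hO : Ov O 11) {φ : G} (hφ : Frob O 11 φ) {R : Pt} (h : An O R) : An O (φ • R) := by
  refine ⟨r1_thm.1.2.2.2.1 φ R h.1, fun σ hσ => ?_⟩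
  have a : Frob O 1 (φ⁻¹ * (σ * φ)) :=
    V2.c3 (v := 11) (n := 1) (by norm_num) hO (by simpa using hφ) (by simpa using V2.c1 hσ hφ)
  have b : cq (-11) (φ⁻¹ * (σ * φ)) = cq (-11) σ := by
    rw [cq_mul, cq_mul, cq_inv]
    linear_combination cq (-11) σ * cq_sq (-11) φ
  have c : σ • φ • R = φ • (φ⁻¹ * (σ * φ)) • R := by
    rw [← mul_smul, ← mul_smul, mul_inv_cancel_left]
  rw [c, h.2 _ a, b]
  exact map_zsmul (DistribSMul.toAddMonoidHom Pt φ) _ _

theorem an_coords {R : Pt} (h : An O R) (r0 : R ≠ 0) : Fx O (xc R) ∧ Fx O (yc R / rt (-11)) := by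
  have s0 : rt (-11) ≠ 0 := rt_ne (by norm_num)
  refine ⟨⟨h.1.1, fun σ hσ => ?_⟩, h.1.2.mul (rt_alg _).inv, fun σ hσ => ?_⟩
  · rw [← xc_smul, h.2 σ hσ]
    rcases cq_or (-11) σ with e | e <;> simp [e, xc_neg]
  · rw [map_div₀, ← yc_smul, h.2 σ hσ, rt_map]
    rcases cq_or (-11) σ with e | e <;> simp [e, R1.ycn r0, neg_div_neg_eq]

variable {e₁ e₂ e₃ A B : ℂ}

theorem sum4 (H : N11 O e₁ e₂ e₃ A B) : e₁ + e₂ + e₃ = 4 ∧ e₁ * e₂ + e₁ * e₃ + e₂ * e₃ = -160 := by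
  have f0 := H.fac 0
  have f1 := H.fac 1
  have f2 := H.fac (-1)
  simp only [fc] at f0 f1 f2
  exact ⟨by linear_combination (f1 + f2) / 2 - f0, by linear_combination (f2 - f1) / 2⟩

theorem un9 (H : N11 O e₁ e₂ e₃ A B) {x : ℂ} (hx : x - 9 ∈ O.nonunits) :
    x - e₁ ∉ O.nonunits :=
  sub_un (x := 1) V2.one_not (by
    have := sub_mem hx H.r1
    rwa [show x - 9 - (e₁ - 8) = x - e₁ - 1 by ring] at this)

/-- The first coordinate of a point that reduces to the node. -/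
theorem at_node (hO : Ov O 11) (H : N11 O e₁ e₂ e₃ A B) {u : ℂ} (u0 : u ∈ O)
    (hu : (e₂ - e₃) ^ 2 = 11 ^ 5 * u) (hi : ∀ σ : G, Frob O 1 σ → σ e₁ = e₁) {R : Pt} (h : An O R)
    (r0 : R ≠ 0) (hx : xc R - 9 ∈ O.nonunits) : ∃ w ∈ O, 2 * xc R - (e₂ + e₃) = 11 ^ 3 * w := by
  obtain ⟨cx, cy⟩ := an_coords h r0
  have f1 : fc e₁ = 0 := by rw [H.fac]; ring
  have s := (sum4 H).1
  have s0 : rt (-11) ≠ 0 := rt_ne (by norm_num)
  have xm : xc R ∈ O := by
    simpa using add_mem (ValuationSubring.nonunits_subset hx) (ofNat_mem O 9)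
  refine node hO (y := 2 * (yc R / rt (-11))) (g := xc R - e₁) (u := u) ?_ ?_ ?_
    (sub_mem xm (R2.root_mem f1)) (un9 H hx) u0 ?_
  · rw [show e₂ + e₃ = 4 - e₁ by linear_combination s]
    exact ⟨((isAlgebraic_natCast 2).mul cx.1).sub ((isAlgebraic_natCast 4).sub (R2.root_alg f1)),
      fun σ hσ => by rw [map_sub, map_sub, map_mul, cx.2 σ hσ, hi σ hσ, map_ofNat, map_ofNat]⟩
  · exact ⟨(isAlgebraic_natCast 2).mul cy.1, fun σ hσ => by rw [map_mul, cy.2 σ hσ, map_ofNat]⟩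
  · have := sub_mem (sub_mem (add_mem hx hx) H.r2) H.r3
    rwa [show xc R - 9 + (xc R - 9) - (e₂ - 9) - (e₃ - 9) = 2 * xc R - (e₂ + e₃) by ring] at this
  · have e := R1.eq1 r0
    have q := rt_sq (-11)
    rw [H.fac] at e
    rw [← hu, mul_pow, div_pow, q, e]
    push_cast
    ring

/-- The slope of the line through two integral points with integral sum is integral. -/
theorem slope {P Q : Pt} (p0 : P ≠ 0) (q0 : Q ≠ 0) (hx : xc P ≠ xc Q) (mP : xc P ∈ O)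
    (mQ : xc Q ∈ O) (m : ¬ Fz O (P + Q)) : (yc P - yc Q) / (xc P - xc Q) ∈ O := by
  obtain ⟨-, a1, -⟩ := add_coords p0 q0 fun e => hx e.1
  rw [Affine.slope_of_X_ne hx, Affine.addX] at a1
  simp only [R1.a1, R1.a2] at a1
  have m' : xc (P + Q) ∈ O := by_contra fun e => m (Or.inr e)
  refine V2.mem_of_pow two_ne_zero ?_
  rw [show ((yc P - yc Q) / (xc P - xc Q)) ^ 2 = xc (P + Q) - 4 + xc P + xc Q by
    linear_combination -a1]
  exact add_mem (add_mem (sub_mem m' (ofNat_mem O 4)) mP) mQ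

end G11

open G11 in
theorem g11_thm (hN : N11Stmt) : G11Stmt := by
  intro O φ e₁ e₂ e₃ A B hO hφ hc H
  obtain ⟨-, -, -, ⟨σ₀, hσ₀, c₀⟩, hN'⟩ := hN O hO
  obtain ⟨d2, ey, ⟨u, u0, u1, hu⟩, hi, hf⟩ := hN' e₁ e₂ e₃ A B H
  obtain ⟨s0, sx, sy⟩ := R1.pt_spec ey
  have f1 : fc e₁ = 0 := by rw [H.fac]; ring
  have f2 : fc e₂ = 0 := by rw [H.fac]; ring
  have f3 : fc e₃ = 0 := by rw [H.fac]; ring
  obtain ⟨t0, tx, ty⟩ := R1.pt_spec (x := e₁) (y := 0) (by rw [f1]; ring)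
  have t2 : 2 • pt e₁ 0 = 0 := (R1.two_iff _).2 (Or.inr ⟨ty, by rw [tx, f1]⟩)
  generalize pt (e₁ - A * B) (A * B * (A - B)) = S at d2 s0 sx sy ⊢
  have four : 4 • S = 0 := by rw [show 4 = 2 * 2 from rfl, mul_smul, d2, t2]
  have m1 := R2.root_mem (O := O) f1
  have mA : A ∈ O := V2.mem_of_pow two_ne_zero (H.sA ▸ sub_mem m1 (R2.root_mem f2))
  have mB : B ∈ O := V2.mem_of_pow two_ne_zero (H.sB ▸ sub_mem m1 (R2.root_mem f3))
  have aA : IsAlgebraic ℚ A :=
    IsAlgebraic.of_pow two_pos (H.sA ▸ (R2.root_alg f1).sub (R2.root_alg f2))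
  have aB : IsAlgebraic ℚ B :=
    IsAlgebraic.of_pow two_pos (H.sB ▸ (R2.root_alg f1).sub (R2.root_alg f3))
  have mS : xc S ∈ O := sx ▸ sub_mem m1 (mul_mem mA mB)
  have ext : ∀ σ : G, σ e₁ = e₁ → σ (A * B) = A * B → (σ (A - B) = A - B → σ • S = S) ∧
      (σ (A - B) = -(A - B) → σ • S = -S) := fun σ a b => by
    have n0 : σ • S ≠ 0 := fun e => s0 ((smul_eq_zero' σ S).1 e)
    have x : xc (σ • S) = xc S := by rw [xc_smul, sx, map_sub, a, b]
    refine ⟨fun c => pt_ext n0 s0 x (by rw [yc_smul, sy, map_mul, b, c]),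
      fun c => pt_ext n0 (neg_ne_zero.2 s0) (by rw [x, xc_neg]) ?_⟩
    rw [R1.ycn s0, yc_smul, sy, map_mul, b, c]
    ring
  have an : An O S := ⟨⟨sx ▸ (R2.root_alg f1).sub (aA.mul aB), sy ▸ (aA.mul aB).mul (aA.sub aB)⟩,
    fun σ hσ => by
      obtain ⟨a, b, c⟩ := hi σ hσ
      rcases cq_or (-11) σ with e | e
      · rw [e, one_smul]
        exact (ext σ a (by rw [map_mul, (b e).1, (b e).2])).1 (by rw [map_sub, (b e).1, (b e).2])
      · rw [e, neg_one_smul]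
        exact (ext σ a (by rw [map_mul, (c e).1, (c e).2, mul_comm])).2
          (by rw [map_sub, (c e).1, (c e).2, neg_sub])⟩
  have fr : φ • S = -S := by
    obtain ⟨a, b, c⟩ := hf φ hφ hc
    exact (ext φ a (by rw [map_mul, b, c]; ring)).2 (by rw [map_sub, b, c]; ring)
  let sm : ZMod 4 →+ Pt := ZMod.lift 4 ⟨zmultiplesHom Pt S, by
    rw [zmultiplesHom_apply, natCast_zsmul]; exact four⟩
  have smc : ∀ k : ℤ, sm (k : ZMod 4) = k • S := fun k => ZMod.lift_coe 4 _ k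
  have sm1 : sm 1 = S := by simpa using smc 1
  have sm2 : sm 2 = pt e₁ 0 := by
    rw [← d2, show (2 : ZMod 4) = 1 + 1 from rfl, map_add, sm1, two_nsmul]
  have sm3 : sm 3 = -S := by rw [show (3 : ZMod 4) = -1 from rfl, map_neg, sm1]
  have smA : ∀ c, An O (sm c) := fun c => by
    have := smc (c.val : ℕ)
    rw [Int.cast_natCast, ZMod.natCast_zmod_val, natCast_zsmul] at this
    exact this ▸ an_nsmul an _
  have smφ : ∀ c, φ • sm c = -sm c := fun c => by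
    have := smc (c.val : ℕ)
    rw [Int.cast_natCast, ZMod.natCast_zmod_val, natCast_zsmul] at this
    rw [this, ← smul_neg, ← fr]
    exact map_nsmul (DistribSMul.toAddMonoidHom Pt φ) _ _
  have u0' : ∀ c, Fz O (sm c) → c = 0 := fun c m => by
    have : c = 0 ∨ c = 1 ∨ c = 2 ∨ c = 3 :=
      (by decide : ∀ c : ZMod 4, c = 0 ∨ c = 1 ∨ c = 2 ∨ c = 3) c
    rcases this with rfl | rfl | rfl | rfl
    · rfl
    · exact absurd (sm1 ▸ m) (not_Fz s0 mS)
    · exact absurd (sm2 ▸ m) (not_Fz t0 (tx.symm ▸ m1))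
    · exact absurd (sm3 ▸ m) (not_Fz (neg_ne_zero.2 s0) (by rwa [xc_neg]))
  have uq : ∀ R c c', Fz O (R - sm c) → Fz O (R - sm c') → c = c' := fun R c c' a b => by
    have := b.sub hO a
    rw [sub_sub_sub_cancel_left, ← map_sub] at this
    exact sub_eq_zero.1 (u0' _ this)
  have x9 : xc S - 9 ∈ O.nonunits := by
    have := add_mem (V2.mul_nu mA H.ab) H.r2
    rwa [show A * (A - B) + (e₂ - 9) = xc S - 9 by rw [sx]; linear_combination H.sA] at this
  have ex : ∀ R, An O R → ∃ c, Fz O (R - sm c) := fun R hR => by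
    by_contra hn
    push Not at hn
    have n0 := hn 0
    rw [map_zero, sub_zero] at n0
    have r0 : R ≠ 0 := fun e => n0 (Or.inl e)
    have mx : xc R ∈ O := by_contra fun e => n0 (Or.inr e)
    have e := R1.eq1 r0
    have my : yc R ∈ O := R2.spW.y_mem r0 mx
    have ny : yc R ∈ O.nonunits := by
      have a := (hσ₀ _ hR.1.2 my).2
      rw [← yc_smul, hR.2 σ₀ hσ₀, c₀, neg_one_smul, R1.ycn r0, pow_one] at a
      refine V2.nu_of_mul (x := ((-2 : ℤ) : ℂ)) ?_ (unt hO _ (by norm_num))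
      rwa [show ((-2 : ℤ) : ℂ) * yc R = -yc R - yc R by push_cast; ring]
    have pr := V2.pow_nu two_ne_zero ny
    rw [e, H.fac, mul_assoc] at pr
    by_cases k : xc R - e₁ ∈ O.nonunits
    · have n2 := hn 2
      rw [sm2, sub_eq_add_neg, neg_eq_of_add_eq_zero_left (by rw [← two_nsmul, t2])] at n2
      by_cases z : xc R = e₁
      · refine n2 (Or.inl (add_eq_zero_of_coords r0 t0 (by rw [z, tx]) ?_))
        rw [z, f1] at e
        rw [R1.negY, ty, neg_zero]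
        exact pow_eq_zero_iff two_ne_zero |>.1 e
      obtain ⟨-, a1, -⟩ := R1.add_T r0 t0 ty (by rwa [tx])
      rw [tx] at a1
      have b : xc (R + pt e₁ 0) ∈ O := by_contra fun e => n2 (Or.inr e)
      have b' := nu_mul k (sub_mem b m1)
      rw [a1, add_sub_cancel_left, mul_div_cancel₀ _ (sub_ne_zero.2 z),
        show fd e₁ = (e₂ - e₁) * (e₃ - e₁) by
          rw [fd]; linear_combination 2 * e₁ * (sum4 H).1 - (sum4 H).2] at b'
      exact un9 H H.r3 (V2.nu_of_mul b' (un9 H H.r2))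
    have r9 : xc R - 9 ∈ O.nonunits := by
      have a := V2.nu_of_mul pr k
      by_cases b : xc R - e₂ ∈ O.nonunits
      · simpa using add_mem b H.r2
      · simpa using add_mem (V2.nu_of_mul a b) H.r3
    obtain ⟨w, w0, hw⟩ := at_node hO H u0 hu (fun σ hσ => (hi σ hσ).1) hR r0 r9
    obtain ⟨w', w1, hw'⟩ := at_node hO H u0 hu (fun σ hσ => (hi σ hσ).1) an s0 x9
    have n1 := hn 1
    have n3 := hn 3
    rw [sm1, sub_eq_add_neg] at n1
    rw [sm3, sub_neg_eq_add] at n3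
    by_cases z : xc R = xc S
    · rcases eq_or_neg_of_xc r0 s0 z with a | a
      · exact n1 (Or.inl (by rw [a, add_neg_cancel]))
      · exact n3 (Or.inl (by rw [a, neg_add_cancel]))
    have l1 := slope r0 (neg_ne_zero.2 s0) (by rwa [xc_neg]) mx (by rwa [xc_neg]) n1
    have l3 := slope r0 s0 z mx mS n3
    rw [xc_neg, R1.ycn s0] at l1
    obtain ⟨l, l0, hl⟩ : ∃ l ∈ O, 2 * yc S = l * (xc R - xc S) :=
      ⟨_, sub_mem l1 l3, by have := sub_ne_zero.2 z; field_simp; ring⟩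
    have eS := R1.eq1 s0
    rw [H.fac] at eS
    have key : (xc S - e₁) * (4 * u) =
        11 * (4 * (xc S - e₁) * w' ^ 2 - l ^ 2 * (w - w') ^ 2) := by
      have a : 4 * yc S = l * (11 ^ 3 * (w - w')) := by linear_combination 2 * hl + l * (hw - hw')
      have b : 4 * yc S ^ 2 = (xc S - e₁) * ((11 ^ 3 * w') ^ 2 - 11 ^ 5 * u) := by
        rw [← hw', ← hu, eS]; ring
      have c : (4 * yc S) ^ 2 = (l * (11 ^ 3 * (w - w'))) ^ 2 := by rw [a]
      linear_combination (4 * b - c) / 161051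
    have := key ▸ nu_mul (el hO) (sub_mem (mul_mem (mul_mem (ofNat_mem O 4) (sub_mem mS m1))
      (pow_mem w1 2)) (mul_mem (pow_mem l0 2) (pow_mem (sub_mem w0 w1) 2)))
    exact u1 (V2.nu_of_mul (V2.nu_of_mul this (un9 H x9))
      (by exact_mod_cast unt hO 4 (by norm_num)))
  classical
  let κ : Pt → ZMod 4 := fun R => if h : ∃ c, Fz O (R - sm c) then h.choose else 0
  have kq : ∀ R c, Fz O (R - sm c) → κ R = c := fun R c m => by
    have h : ∃ c, Fz O (R - sm c) := ⟨c, m⟩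
    exact uq R _ _ (by simp only [κ, dif_pos h]; exact h.choose_spec) m
  have ks : ∀ R, An O R → Fz O (R - sm (κ R)) := fun R hR => by
    obtain ⟨c, m⟩ := ex R hR
    rwa [kq R c m]
  have k0 : ∀ R, An O R → κ R = 0 → Fz O R := fun R hR e => by
    have := ks R hR
    rwa [e, map_zero, sub_zero] at this
  refine ⟨κ, an, four, kq S 1 (Or.inl (by rw [sm1, sub_self])), fr, fun R R' a b => kq _ _ ?_,
    fun R a => ⟨an_frob hO hφ a, kq _ _ ?_⟩, fun R a e => ?_, fun T a t e => (k0 T a e).two t⟩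
  · rw [map_add, add_sub_add_comm]
    exact (ks R a).add hO (ks R' b)
  · have := (ks R a).smul hφ (by norm_num) (by
      rw [sub_eq_add_neg]; exact (an_add a (an_neg (smA _))).1)
    rwa [smul_sub, smφ, ← map_neg] at this
  · obtain ⟨R', m, rfl⟩ := (k0 R a e).half hO
    have al := R1.alg_half _ a.1
    refine ⟨R', ⟨al, fun σ hσ => sub_eq_zero.1 (Fz.two ((m.smul hσ one_ne_zero al).sub hO ?_) ?_)⟩,
      kq _ _ (by rwa [map_zero, sub_zero]), rfl⟩
    · rcases cq_or (-11) σ with c | c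
      · rwa [c, one_smul]
      · rw [c, neg_one_smul]; exact m.neg
    · have := a.2 σ hσ
      rw [smul_sub, smul_comm 2 (cq (-11) σ), ← this, sub_eq_zero]
      exact (map_nsmul (DistribSMul.toAddMonoidHom Pt σ) _ _).symm

end Pool.Agent.Lib.MP_d6ddbd_nt.KA
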