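import Pool.Agent.Lib.MP_d6ddbd_nt.KA.Stmt
import Pool.Agent.Lib.MP_d6ddbd_nt.K11.Gal
import Pool.Agent.Lib.MP_d6ddbd_nt.K11.Ker
import Pool.Agent.Lib.MP_d6ddbd_nt.K11.Pic
import Pool.Agent.Lib.MP_d6ddbd_nt.K11.V1
import Pool.Agent.Lib.MP_d6ddbd_nt.K11.V2
import Pool.Agent.Lib.MP_d6ddbd_nt.K11.V3
import Pool.Agent.Lib.MP_d6ddbd_nt.K11.V4

/-! The Galois action on Heegner points whose conductor may be divisible by `11`. -/

set_option autoImplicit false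
set_option maxSynthPendingDepth 3

open Pointwise
open Pool.Agent.Lib.MP_02f36d_nt (xc yc)
open Pool.Agent.Lib.MP_9177b7_ag.CM (IsLat sp Conj jL g2 g3 bar smul_mul_left smul_mul_right
  sp_mul hyp bar_mul bar_ord mem_sp sp_le mem_smul_iff left_mem_sp right_mem_sp)
open Pool.Agent.Lib.MP_d6ddbd_nt.K11

noncomputable section

namespace Pool.Agent.Lib.MP_d6ddbd_nt.KA

namespace GalA

variable {q c : ℕ}

theorem not_le1 (h0 : q ≠ 0) (hc : c ≠ 0) : ¬ Oc q c ≤ Oc q (11 * c) := fun h => by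
  obtain ⟨a, b, e⟩ := mem_sp.1 (h (right_mem_sp 1 ((c : ℂ) * om q)))
  have him := Gal.com_im h0 hc
  have e1 : ((11 * b - 1 : ℤ) : ℂ) * ((c : ℂ) * om q) = ((-a : ℤ) : ℂ) := by
    push_cast at e ⊢
    linear_combination e
  have e2 := congrArg Complex.im e1
  rw [Complex.mul_im, Complex.intCast_re, Complex.intCast_im, Complex.intCast_im, zero_mul,
    add_zero] at e2
  have e3 : 11 * b - 1 = 0 := by exact_mod_cast (mul_eq_zero.1 e2).resolve_right him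
  omega

theorem not_le2 (h0 : q ≠ 0) (hc : c ≠ 0) : ¬ Oc q (11 * c) ≤ (11 : ℂ) • Oc q c := fun h => by
  obtain ⟨y, hy, e⟩ := mem_smul_iff.1 (h (one_mem_Oc q (11 * c)))
  obtain ⟨a, b, rfl⟩ := mem_sp.1 hy
  have him := Gal.com_im h0 hc
  have e1 : ((11 * b : ℤ) : ℂ) * ((c : ℂ) * om q) = ((1 - 11 * a : ℤ) : ℂ) := by
    push_cast at e ⊢
    linear_combination e
  have e2 := congrArg Complex.im e1
  rw [Complex.mul_im, Complex.intCast_re, Complex.intCast_im, Complex.intCast_im, zero_mul,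
    add_zero] at e2
  have e3 : 11 * b = 0 := by exact_mod_cast (mul_eq_zero.1 e2).resolve_right him
  rw [e3, Int.cast_zero, zero_mul] at e1
  have e4 : (0 : ℤ) = 1 - 11 * a := by exact_mod_cast e1
  omega

theorem smul_le (q c : ℕ) : (11 : ℂ) • Oc q c ≤ Oc q (11 * c) := fun z hz => by
  obtain ⟨y, hy, rfl⟩ := mem_smul_iff.1 hz
  obtain ⟨a, b, rfl⟩ := mem_sp.1 hy
  exact mem_sp.2 ⟨11 * a, b, by push_cast; ring⟩

theorem lv (hq : q % 4 = 3) (h0 : q ≠ 0) (hc : c ≠ 0) {L : Submodule ℤ ℂ}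
    (hL : Ivt q (11 * c) L) (hl : IsLat L) : Lv L (Oc q c * L) := by
  obtain ⟨hO, B, hB⟩ := hL
  have hd : c ∣ 11 * c := Dvd.intro_left _ rfl
  have e : Oc q c * L * B = Oc q c := by rw [mul_assoc, hB, Oc_mul hq hd]
  refine ⟨hl, lt_of_le_not_ge ?_ fun h => not_le1 h0 hc ?_,
    lt_of_le_not_ge ?_ fun h => not_le2 h0 hc ?_⟩
  · exact hO.ge.trans (mul_le_mul_left (Oc_le hd) L)
  · have h3 := mul_le_mul_left h B
    rwa [e, hB] at h3
  · rw [← smul_mul_left]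
    exact (mul_le_mul_left (smul_le q c) L).trans hO.le
  · have h3 := mul_le_mul_left h B
    rwa [smul_mul_left, e, hB] at h3

theorem conj_Oc (h0 : q ≠ 0) (hc : c ≠ 0) {σ : G} (hσ : σ (om q) = om q)
    {L L' : Submodule ℤ ℂ} (h : Conj (σ : ℂ →+* ℂ) L L') (hl : IsLat (Oc q c * L)) :
    Conj (σ : ℂ →+* ℂ) (Oc q c * L) (Oc q c * L') := by
  have p0 : (c : ℂ) * om q ≠ 0 := fun k => Gal.com_im h0 hc (by rw [k]; rfl)
  have h1 := hyp.conj_smul h (c := (1 : ℂ)) one_ne_zero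
  have h2 := hyp.conj_smul h p0
  have e1 : (σ : ℂ →+* ℂ) ((c : ℂ) * om q) = (c : ℂ) * om q := by
    rw [map_mul, map_natCast]
    exact congrArg (fun z => (c : ℂ) * z) hσ
  rw [map_one] at h1
  rw [e1] at h2
  obtain ⟨N, hN⟩ := hyp.exists_conj (σ : ℂ →+* ℂ) hl
  have h3 : N = Oc q c * L' := by
    rw [Oc, sp_mul] at hN ⊢
    exact hyp.conj_sup h1 h2 hN
  rwa [h3] at hN

theorem lvA_of {b : ℤ} (L : Submodule ℤ ℂ) : lvA q (11 * c) b L = Oc q c * L := by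
  rw [lvA, if_pos (Dvd.intro _ rfl), Nat.mul_div_cancel_left _ (by norm_num)]

theorem core (hV : VStmt) (hPic : PicStmt) (hKer : KerStmt) : GalAStmt := by
  intro Pp a t0 hX q hq hp' h44 b c hb hc _
  by_cases h11 : 11 ∣ c
  swap
  · have e1 : ∀ L, lvA q c b L = lvl q c b L := fun L => if_neg h11
    have e2 : ∀ y : Pic q c, hQ Pp b y = hp Pp b y := fun y => by rw [hQ, e1, hp]
    intro x
    obtain ⟨g1, g2, g3, g4, g5⟩ := gal_thm hV hPic hKer Pp a t0 hX q hp' h44 b c hb hc h11 x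
    simp only [e1, e2]
    exact ⟨g1, g2, g3, fun _ => ⟨trivial, g4⟩, fun h => absurd h h11, g5⟩
  obtain ⟨c, rfl⟩ := h11
  have h0 : q ≠ 0 := hp'.ne_zero
  have hc' : c ≠ 0 := fun h => hc (by rw [h])
  have hd : c ∣ 11 * c := Dvd.intro_left _ rfl
  obtain ⟨hfin, hcl, -, har⟩ := (hPic q hp' h44).2 _ hc
  obtain ⟨-, hcl', -, -⟩ := (hPic q hp' h44).2 _ hc'
  have hLv : ∀ (x : Pic q (11 * c)) L, Cl x L → Lv L (Oc q c * L) := fun x L h =>
    lv hq.out h0 hc' h.inv (hcl x L h).1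
  have hM : ∀ (x : Pic q (11 * c)) L, Cl x L → IsLat (Oc q c * L) := fun x L h =>
    (hcl' _ _ (h.res hd)).1
  have hP : ∀ (x : Pic q (11 * c)) L, Cl x L → Pp L (Oc q c * L) = hQ Pp b x := fun x L h => by
    obtain ⟨μ, hμ, rfl⟩ := (cl_out x).exists_smul h
    rw [smul_mul_right, hX.scale _ _ _ (hLv x _ (cl_out x)) hμ, hQ, lvA_of]
  have h3 : ∀ (x : Pic q (11 * c)) (σ : G), σ (om q) = om q →
      σ • hQ Pp b x = hQ Pp b (ar q (11 * c) σ * x) := fun x σ hσ => by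
    obtain ⟨l1, l2, l3, -, -⟩ := hcl x _ (cl_out x)
    obtain ⟨L', hL'⟩ := hyp.exists_conj (σ : ℂ →+* ℂ) l1
    rw [← hP _ L' ((har σ hσ).1 x _ L' (cl_out x) hL'),
      hX.conj σ _ _ _ _ (hLv x _ (cl_out x)) l2 l3 hL'
        (conj_Oc h0 hc' hσ hL' (hM x _ (cl_out x))), hP x _ (cl_out x)]
  have h4 : ∀ x : Pic q (11 * c), cj • hQ Pp b x = hQ Pp b x⁻¹ := fun x => by
    obtain ⟨l1, l2, l3, l4, -⟩ := hcl x _ (cl_out x)
    have e0 : bar (Oc q c) = Oc q c := bar_ord (com_sq hq.out c) (Gal.com_im h0 hc')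
    have f1 := hX.conj cj _ _ _ _ (hLv x _ (cl_out x)) l2 l3 (hyp.conj_bar l1)
      (hyp.conj_bar (hM x _ (cl_out x)))
    rw [bar_mul, e0, hP _ _ l4, hP x _ (cl_out x)] at f1
    exact f1.symm
  have h5 : ∀ (x : Pic q (11 * c)) (σ : G), σ (om q) ≠ om q → σ • hQ Pp b x =
      hQ Pp b (ar q (11 * c) (cj * σ) * x)⁻¹ := fun x σ hσ => by
    rw [← h4, ← h3 x _ (Gal.cj_fix h0 hσ), smul_smul, ← mul_assoc, cj_mul_cj, one_mul]
  have h6 : ∀ x : Pic q (11 * c), (Set.range fun σ : G => σ • hQ Pp b x).Finite := fun x => by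
    refine (Set.finite_range (hQ Pp b : Pic q (11 * c) → Pt)).subset ?_
    rintro _ ⟨σ, rfl⟩
    by_cases hσ : σ (om q) = om q
    · exact ⟨_, (h3 x σ hσ).symm⟩
    · exact ⟨_, (h5 x σ hσ).symm⟩
  intro x
  refine ⟨fun L h => ?_, ⟨hV.2.2.2.2.1 _ ?_, hV.2.2.2.2.1 _ ?_⟩, h3 x,
    fun h => absurd (Dvd.intro _ rfl) h, fun _ => h4 x, fun σ hσ => ?_⟩
  · rw [lvA_of]
    exact ⟨hLv x L h, hP x L h⟩
  · refine ((h6 x).image xc).subset ?_
    rintro _ ⟨σ, rfl⟩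
    exact ⟨_, ⟨σ, rfl⟩, xc_smul σ _⟩
  · refine ((h6 x).image yc).subset ?_
    rintro _ ⟨σ, rfl⟩
    exact ⟨_, ⟨σ, rfl⟩, yc_smul σ _⟩
  · rw [h5 x σ hσ, h5 _ σ hσ]
    congr 1
    simp

end GalA

theorem galA_thm : GalAStmt :=
  GalA.core ⟨v1_thm, v2_thm, v3_thm v1_thm, v4_thm v1_thm⟩ pic_thm (ker_thm pic_thm)

end Pool.Agent.Lib.MP_d6ddbd_nt.KA
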