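import Pool.Agent.Lib.MP_d6ddbd_nt.KA.Stmt
import Pool.Agent.Lib.MP_d6ddbd_nt.K11.AllX
import Pool.Agent.Lib.MP_d6ddbd_nt.KI.Bas

/-!
The two-converse for all quadratic twists of `X₀(11)`: the norm character of conductor `8`.
-/

set_option autoImplicit false
set_option maxSynthPendingDepth 3

open Pointwise
open Pool.Agent.Lib.MP_9177b7_ag.CM (IsLat sp Conj jL hyp isLat_ord mem_smul_iff)
open Pool.Agent.Lib.MP_d6ddbd_nt.K11
open Pool.Agent.Lib.MP_d6ddbd_nt.KI (rt cq)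

noncomputable section

namespace Pool.Agent.Lib.MP_d6ddbd_nt.KA

namespace Gen2

theorem usq (u : (ZMod 8)ˣ) : u * u = 1 := by revert u; decide

theorem upow (u : (ZMod 8)ˣ) {m : ℕ} (hm : Odd m) : u ^ m = u := by
  obtain ⟨j, rfl⟩ := hm
  rw [pow_succ, pow_mul, sq, usq, one_pow, one_mul]

theorem uzpow (u : (ZMod 8)ˣ) {m : ℤ} (hm : Odd m) : u ^ m = u := by
  obtain ⟨j, rfl⟩ := hm
  rw [zpow_add, zpow_mul, zpow_two, usq, one_zpow, one_mul, zpow_one]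

theorem un_val {l : ℕ} (hl : Odd l) : ((un l : (ZMod 8)ˣ) : ZMod 8) = l := by
  have h : l.Coprime 8 := Nat.Coprime.pow_right 3 (Nat.coprime_two_right.2 hl)
  rw [un, dif_pos h, ZMod.coe_unitOfCoprime]

theorem osq {s : ℤ} (hs : Odd s) : (s : ZMod 8) * s = 1 := by
  obtain ⟨j, rfl⟩ := hs
  push_cast
  generalize (j : ZMod 8) = x
  revert x
  decide

theorem odd_of {n : ℤ} {c : ℕ} (h : IsCoprime n ((8 * c : ℕ) : ℤ)) : Odd n :=
  Int.isCoprime_two_right.1 (h.of_isCoprime_of_dvd_right ⟨4 * c, by push_cast; ring⟩)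

theorem jac {δ : ℤ} (hδ : δ = 1 ∨ δ = -1 ∨ δ = 2 ∨ δ = -2) {m : ℕ} (hm : Odd m) :
    jacobiSym δ (m : ZMod 8).val = jacobiSym δ m := by
  have h : Odd (m % 8) := hm.mod_even (by decide)
  rw [ZMod.val_natCast, jacobiSym.mod_right δ h, jacobiSym.mod_right δ hm, Nat.mod_mod_of_dvd]
  rcases hδ with rfl | rfl | rfl | rfl <;> decide

variable {q : ℕ} [hq : Fact (q % 4 = 3)]

omit hq in
theorem cop_one (c : ℕ) : Cop q c 1 := ⟨Ker.one_OK, 1, by simp, isCoprime_one_left⟩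

theorem kp_pow {c : ℕ} {π : ℂ} (h : Cop q c π) (m : ℕ) :
    Cop q c (π ^ m) ∧ kp q c (π ^ m) = kp q c π ^ m := by
  induction m with
  | zero => exact ⟨by simpa using cop_one c, by
      simpa using Ker.kp_one_of (n := 1) (cop_one (q := q) c) (by simp)⟩
  | succ m ih => exact ⟨pow_succ π m ▸ Ker.cop_mul ih.1 h, by
      rw [pow_succ, Ker.kp_mul ih.1 h, ih.2, pow_succ]⟩

/-- The relation that defines the character. -/
def R (x : Pic q 8) (u : (ZMod 8)ˣ) : Prop :=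
  ∃ (π : ℂ) (n : ℤ), Cop q 8 π ∧ Complex.normSq π = n ∧ x ^ hh q = kp q 8 π ∧ (u : ZMod 8) = n

theorem R.mul {x y : Pic q 8} {u v : (ZMod 8)ˣ} (h : R x u) (h' : R y v) : R (x * y) (u * v) := by
  obtain ⟨π, n, a1, a2, a3, a4⟩ := h
  obtain ⟨π', n', b1, b2, b3, b4⟩ := h'
  exact ⟨π * π', n * n', Ker.cop_mul a1 b1, by rw [map_mul, a2, b2]; push_cast; rfl,
    by rw [mul_pow, a3, b3, Ker.kp_mul a1 b1], by rw [Units.val_mul, a4, b4]; push_cast; rfl⟩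

theorem exR (x : Pic q 8) : ∃ u, R x u := by
  obtain ⟨π, h, e⟩ := (Ker.ker_res (by norm_num) (x ^ hh q)).1 (by
    rw [map_pow, hh, pow_card_eq_one'])
  obtain ⟨-, n, h2, h3⟩ := id h
  exact ⟨Units.mkOfMulEqOne _ _ (osq (odd_of (c := 1) h3)), π, n, h, h2, e, rfl⟩

variable (hp : q.Prime) (h44 : 44 < q)
include hp h44

theorem kp_iff {c : ℕ} (hc : c ≠ 0) {s t : ℤ} (h : Cop q c (s + t * om q)) :
    kp q c (s + t * om q) = 1 ↔ (c : ℤ) ∣ t :=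
  ((kerAll q hp h44 c hc).2.1 _ h).2.2.2.2.1.trans Fib.cong

theorem one_nrm {π : ℂ} {n : ℤ} (h : Cop q 8 π) (hn : Complex.normSq π = n) (e : kp q 8 π = 1) :
    (n : ZMod 8) = 1 := by
  obtain ⟨s, t, rfl⟩ := Fib.mem_OK.1 h.1
  obtain ⟨b, rfl⟩ := (kp_iff hp h44 (by norm_num) h).1 e
  obtain ⟨-, n', h2, h3⟩ := h
  obtain rfl : n = n' := Int.cast_injective (hn.symm.trans h2)
  have h4 := odd_of (c := 1) h3
  rw [Fib.nrm] at hn
  obtain rfl := Int.cast_injective hn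
  generalize (((q + 1) / 4 : ℕ) : ℤ) = M at h4 ⊢
  have h5 : Odd s := by
    have : Odd (s * s) := by
      refine (Int.odd_add.1 (add_assoc (s * s) _ _ ▸ h4)).2 ⟨s * 4 * b + 32 * b * b * M, ?_⟩
      push_cast
      ring
    exact (Int.odd_mul.1 this).1
  have h8 : (8 : ZMod 8) = 0 := rfl
  push_cast
  linear_combination osq h5 + (s * b + 8 * b * b * M) * h8

theorem R.uniq {x : Pic q 8} {u v : (ZMod 8)ˣ} (h : R x u) (h' : R x v) : u = v := by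
  obtain ⟨π, n, a1, a2, a3, a4⟩ := h
  obtain ⟨π', n', b1, b2, b3, b4⟩ := h'
  have c := Ker.cop_conj b1
  have e : kp q 8 (π * starRingEnd ℂ π') = 1 := by
    rw [Ker.kp_mul a1 c, ← a3, b3, ← Ker.kp_mul b1 c]
    exact Ker.kp_one_of (n := n') (Ker.cop_mul b1 c) (by simp [Complex.mul_conj, b2])
  have := one_nrm hp h44 (n := n * n') (Ker.cop_mul a1 c)
    (by rw [map_mul, Complex.normSq_conj, a2, b2]; push_cast; rfl) e
  have h1 : u * v = 1 := Units.ext (by rw [Units.val_mul, a4, b4]; exact_mod_cast this)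
  exact mul_right_cancel (h1.trans (usq v).symm)

theorem exN : ∃ N : Pic q 8 →* (ZMod 8)ˣ, ∀ π (n : ℤ), Cop q 8 π → Complex.normSq π = n →
    ((N (kp q 8 π) : (ZMod 8)ˣ) : ZMod 8) = n := by
  choose f hf using exR (q := q)
  refine ⟨MonoidHom.mk' f fun x y => (hf _).uniq hp h44 ((hf x).mul (hf y)), fun π n h hn => ?_⟩
  obtain ⟨-, n', h2, h3⟩ := id h
  obtain rfl : n = n' := Int.cast_injective (hn.symm.trans h2)
  let u : (ZMod 8)ˣ := Units.mkOfMulEqOne _ _ (osq (odd_of (c := 1) h3))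
  have hu : (u : ZMod 8) = n := rfl
  have : R (kp q 8 π) u := ⟨π ^ hh q, n ^ hh q, (kp_pow h _).1, by rw [map_pow, hn]; push_cast; rfl,
    (kp_pow h _).2.symm, by
      rw [← upow u (pic_thm q hp h44).1, Units.val_pow_eq_pow_val, hu]; push_cast; rfl⟩
  exact (congrArg Units.val ((hf _).uniq hp h44 this)).trans hu

theorem frob {v : ℕ} (hv : v.Prime) (hv2 : v ≠ 2) {O : ValuationSubring ℂ} {σ : G} (hO : Ov O v)
    (hF : Frob O v σ) (hσ : σ (om q) = om q) :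
    ∃ π, Cop q 8 π ∧ Complex.normSq π = (v : ℝ) ^ hh q ∧ ar q 8 σ ^ hh q = kp q 8 π := by
  have hF' := PLoc.frob_pow vAll hF hv.ne_zero (hh q)
  have hσ' := PLoc.pow_fix hσ (hh q)
  have h8 : (8 : ℕ) ≠ 0 := by norm_num
  have hvl' : ¬ v ∣ 8 := fun h =>
    hv2 ((Nat.prime_dvd_prime_iff_eq hv Nat.prime_two).1 (hv.dvd_of_dvd_pow (n := 3) h))
  obtain ⟨M, hM⟩ := hyp.exists_conj ((σ ^ hh q : G) : ℂ →+* ℂ) (isLat_ord (PLoc.him (q := q)))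
  have h1 := (((pic_thm q hp h44).2 1 one_ne_zero).2.2.2 _ hσ').1 1 _ M
    (Oc_one q ▸ cl_one : Cl (1 : Pic q 1) (OK q)) hM
  rw [PLoc.ar_pow pic_thm hp h44 one_ne_zero hσ, hh, pow_card_eq_one', mul_one] at h1
  obtain ⟨μ, h2, rfl⟩ := cl_one.exists_smul h1
  rw [Oc_one] at hM
  obtain ⟨π, h3, h4, h5⟩ := g1All q v _ O _ μ hp h44 hq.out hv hO hF' hσ' h2 hM
  have hc := PLoc.cop_pow hv hvl' h3 h4
  refine ⟨π, hc, h4, ?_⟩
  have h6 := h5 8 (Oc q 8) hvl' (fun z hz => by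
    obtain ⟨y, hy, rfl⟩ := mem_smul_iff.1 hz
    exact Ker.mem_Oc.2 ⟨0, y, hy, by simp⟩) Ker.Oc_le_OK
  rw [Ker.smul_sup h3] at h6
  have h7 := (((pic_thm q hp h44).2 8 h8).2.2.2 _ hσ').1 1 _ _ cl_one h6
  rw [mul_one, PLoc.ar_pow pic_thm hp h44 h8 hσ] at h7
  exact h7.unique ((Ker.cl_kp hc).smul h2)

omit hp h44 in
theorem ar_congr {σ τ : G} (hσ : σ (om q) = om q) (hτ : τ (om q) = om q)
    (e : σ (jL (Oc q 8)) = τ (jL (Oc q 8))) : ar q 8 σ = ar q 8 τ := by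
  have h8 : (8 : ℕ) ≠ 0 := by norm_num
  have hO : IsLat (Oc q 8) := isLat_ord (Pic.cim h8)
  obtain ⟨L, hL⟩ := hyp.exists_conj (σ : ℂ →+* ℂ) hO
  obtain ⟨M, hM⟩ := hyp.exists_conj (τ : ℂ →+* ℂ) hO
  exact (Pic.cl_jL h8 (Pic.act_one h8 hσ hL) hM.2.1 (hL.jL.symm.trans (Eq.trans e hM.jL))).unique
    (Pic.act_one h8 hτ hM)

variable {N : Pic q 8 →* (ZMod 8)ˣ} (hN : ∀ π (n : ℤ), Cop q 8 π → Complex.normSq π = n →
  ((N (kp q 8 π) : (ZMod 8)ˣ) : ZMod 8) = n)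
include hN

omit hp h44 in
theorem n_pow {l m : ℕ} (hl : Odd l) (hm : Odd m) {π : ℂ} (h : Cop q 8 π)
    (hn : Complex.normSq π = (l : ℝ) ^ m) : N (kp q 8 π) = un l := by
  have := hN π ((l : ℤ) ^ m) h (by rw [hn]; push_cast; rfl)
  refine Units.ext ?_
  rw [this, ← upow (un l) hm, Units.val_pow_eq_pow_val, un_val hl]
  push_cast
  rfl

theorem n_lam {l : ℕ} {r : ℤ} (hl : l.Prime) (h2 : l ≠ 2) (hlq : l ≠ q) (hr : Rt q l r) :
    N (lam q 8 l r) = un l := by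
  have hvl' : ¬ l ∣ 8 := fun h =>
    h2 ((Nat.prime_dvd_prime_iff_eq hl Nat.prime_two).1 (hl.dvd_of_dvd_pow (n := 3) h))
  obtain ⟨π, h1, -, m, hm, h3⟩ := PLoc.exists_gen kerAll hp h44 pic_thm hl hlq hr
  obtain ⟨u, u1, u2⟩ := PLoc.kp_eq kerAll hp h44 (c := 8) (by norm_num) hl hlq hvl' hr h1 h3 hm
  rw [← n_pow hN (hl.odd_of_ne_two h2) hm (PLoc.cop_pow hl hvl' h1 h3) h3, u2, map_zpow, uzpow _ u1]

theorem n_ar {δ : ℤ} (hδ : δ = 1 ∨ δ = -1 ∨ δ = 2 ∨ δ = -2) {σ : G} (hσ : σ (om q) = om q) :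
    cq δ σ = jacobiSym δ ((N (ar q 8 σ) : (ZMod 8)ˣ) : ZMod 8).val := by
  classical
  have h8 : (8 : ℕ) ≠ 0 := by norm_num
  obtain ⟨l, O, φ, a, b, hl, l2, hO, hF, h⟩ := vAll.2.2.2.1 {om q, rt δ, jL (Oc q 8)} σ 2 (by
    simp only [Finset.mem_insert, Finset.mem_singleton]
    rintro _ (rfl | rfl | rfl)
    · exact Aux.om_alg q
    · exact KI.rt_alg δ
    · exact hyp.isAlgebraic_of_mem_Jset (com_sq hq.out 8) (Pic.cim h8)
        (Pic.mem_J h8 (cl_one (q := q)).inv))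
  have h1 := h 1
  simp only [pow_one, mul_one] at h1
  have hφ : φ (om q) = om q := (h1 _ (by simp)).1.trans (PLoc.pow_fix hσ a)
  have ho := hl.odd_of_ne_two l2.ne'
  have e1 : cq δ σ = cq δ φ ^ b := by
    rw [← KI.cq_pow]
    exact KI.cq_congr (h1 _ (by simp)).2
  have e2 : ar q 8 σ = ar q 8 φ ^ b := by
    rw [← PLoc.ar_pow pic_thm hp h44 h8 hφ]
    exact ar_congr hσ (PLoc.pow_fix hφ b) (h1 _ (by simp)).2
  have hd : ¬ (l : ℤ) ∣ δ := fun e => by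
    have : l ∣ δ.natAbs := Int.natCast_dvd.1 e
    have := Nat.le_of_dvd (by omega) this
    omega
  have e3 : cq δ φ = jacobiSym δ l := KI.cq_of (by omega) (KI.rt_sq δ)
    (vAll.2.1.2.2.2.2.2.2.2.2 l O φ _ δ hl l2.ne' hd hO hF (KI.rt_sq δ))
  obtain ⟨π, a1, a2, a3⟩ := frob hp h44 hl l2.ne' hO hF hφ
  have hodd := (pic_thm q hp h44).1
  have e4 : N (ar q 8 φ) = un l := by
    rw [← n_pow hN ho hodd a1 a2, ← a3, map_pow, upow _ hodd]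
  rw [e1, e2, e3, map_pow, e4, Units.val_pow_eq_pow_val, un_val ho, ← Nat.cast_pow, jac hδ ho.pow,
    jacobiSym.pow_right]

omit hp h44 in
theorem n_st (h8 : q % 8 = 7) {s t : ℤ} (hs : Odd s) (ht : Even t) (h : Cop q 8 (s + t * om q)) :
    ((N (kp q 8 (s + t * om q)) : (ZMod 8)ˣ) : ZMod 8) = (1 + s * t : ℤ) := by
  rw [hN _ _ h (Fib.nrm s t)]
  obtain ⟨M, hM⟩ : ∃ M : ℤ, (((q + 1) / 4 : ℕ) : ℤ) = 2 * M := ⟨((q + 1) / 8 : ℕ), by omega⟩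
  obtain ⟨b, rfl⟩ := ht
  have h0 : (8 : ZMod 8) = 0 := rfl
  rw [hM]
  push_cast
  linear_combination osq hs + (b * b * M) * h0

theorem kerK (h8 : q % 8 = 7) {n : ℕ} (hn : Odd n) {z : Pic q (8 * n)} (hz : res n z = 1) :
    ∃ s t : ℤ, Odd s ∧ Even t ∧ (n : ℤ) ∣ t ∧
      ((N (res 8 z) : (ZMod 8)ˣ) : ZMod 8) = (1 + s * t : ℤ) ∧
      ∀ c, c ∣ 8 * n → (res c z = 1 ↔ (c : ℤ) ∣ t) := by
  have n0 : 8 * n ≠ 0 := by have := hn.pos; omega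
  obtain ⟨π, h, rfl⟩ := (Ker.ker_res n0 z).1 (by
    rw [← res_res (dvd_mul_left n 8) (one_dvd n), hz, map_one])
  obtain ⟨s, t, rfl⟩ := Fib.mem_OK.1 h.1
  have key : ∀ c, c ∣ 8 * n → (res c (kp q (8 * n) (s + t * om q)) = 1 ↔ (c : ℤ) ∣ t) :=
    fun c hc => by
      rw [Ker.res_kp hc h, kp_iff hp h44 (ne_zero_of_dvd_ne_zero n0 hc) (Ker.cop_dvd hc h)]
  obtain ⟨-, m, h2, h3⟩ := id h
  have h4 := odd_of h3
  rw [Fib.nrm] at h2
  obtain rfl := Int.cast_injective h2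
  obtain ⟨M, hM⟩ : ∃ M : ℤ, (((q + 1) / 4 : ℕ) : ℤ) = 2 * M := ⟨((q + 1) / 8 : ℕ), by omega⟩
  rw [hM] at h4
  have h5 : Odd (s * (s + t)) := by
    rw [mul_add]
    exact (Int.odd_add.1 h4).2 ⟨t * t * M, by ring⟩
  obtain ⟨hs, h6⟩ := Int.odd_mul.1 h5
  have ht : Even t := (Int.odd_add.1 h6).1 hs
  refine ⟨s, t, hs, ht, (key n (dvd_mul_left n 8)).1 hz, ?_, key⟩
  rw [Ker.res_kp (dvd_mul_right 8 n) h]
  exact n_st hN h8 hs ht (Ker.cop_dvd (dvd_mul_right 8 n) h)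

theorem exK (h8 : q % 8 = 7) {n : ℕ} (hn : Odd n) (u : (ZMod 8)ˣ) :
    ∃ z : Pic q (8 * n), res n z = 1 ∧ N (res 8 z) = u := by
  obtain ⟨w, hw⟩ : ∃ w : ℤ, (u : ZMod 8) = 1 + 2 * w := by
    have : ∀ u : (ZMod 8)ˣ, ∃ w : ZMod 8, (u : ZMod 8) = 1 + 2 * w := by decide
    obtain ⟨w, hw⟩ := this u
    obtain ⟨w, rfl⟩ := ZMod.intCast_surjective w
    exact ⟨w, hw⟩
  have h : Cop q (8 * n) ((1 : ℤ) + (n * n * (2 * w) : ℤ) * om q) := by
    refine ⟨Fib.mem_OK.2 ⟨_, _, rfl⟩, _, Fib.nrm _ _, ?_⟩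
    generalize (((q + 1) / 4 : ℕ) : ℤ) = M
    rw [Nat.cast_mul]
    exact .mul_right (IsCoprime.pow_right (n := 3) (y := 2)
      ⟨1, -(n * n * w + 2 * (n * n * w) ^ 2 * M), by ring⟩)
      ⟨1, -(2 * n * w + 4 * n * (n * w) ^ 2 * M), by ring⟩
  refine ⟨kp q _ ((1 : ℤ) + (n * n * (2 * w) : ℤ) * om q), ?_, Units.ext ?_⟩
  · rw [Ker.res_kp (dvd_mul_left n 8) h,
      kp_iff hp h44 hn.pos.ne' (Ker.cop_dvd (dvd_mul_left n 8) h)]
    exact ⟨n * (2 * w), by ring⟩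
  · rw [Ker.res_kp (dvd_mul_right 8 n) h, n_st hN h8 odd_one ⟨n * n * w, by ring⟩
      (Ker.cop_dvd (dvd_mul_right 8 n) h), hw]
    have := osq (s := n) (by exact_mod_cast hn)
    push_cast at this ⊢
    linear_combination 2 * w * this

end Gen2

open Gen2 in
theorem gen2_thm : Gen2Stmt := by
  intro q hq hp h44 h8
  obtain ⟨N, hN⟩ := exN hp h44
  have cop : ∀ {n : ℕ} {t : ℤ} (i : ℕ), Odd n → (n : ℤ) ∣ t → (2 : ℤ) ^ i ∣ t →
      ((2 ^ i * n : ℕ) : ℤ) ∣ t := fun {n t} i hn h1 h2 => by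
    rw [Nat.cast_mul, Nat.cast_pow]
    exact (Int.isCoprime_two_left.2 (by exact_mod_cast hn)).pow_left.mul_dvd h2 h1
  have dv : ∀ {s t : ℤ} (i : ℕ), Odd s → (2 : ℤ) ^ i ∣ s * t → (2 : ℤ) ^ i ∣ t :=
    fun i hs h => (Int.isCoprime_two_left.2 hs).pow_left.dvd_of_dvd_mul_left h
  refine ⟨N, hN, fun l r => n_lam hp h44 hN, fun δ σ h => n_ar hp h44 hN h,
    fun n hn x t => ?_, fun n hn y y' e => ?_⟩
  · have n0 : 8 * n ≠ 0 := by have := hn.pos; omega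
    obtain ⟨y, rfl⟩ := (kerAll q hp h44 _ n0).2.2.2.1 n (dvd_mul_left n 8) x
    obtain ⟨z, z1, z2⟩ := exK hp h44 hN h8 hn (t * (N (res 8 y))⁻¹)
    refine ⟨z * y, ⟨by rw [map_mul, z1, one_mul],
      by rw [map_mul, map_mul, z2, inv_mul_cancel_right]⟩, fun y' h => ?_⟩
    obtain ⟨s, t', a1, -, a3, a4, a5⟩ := kerK hp h44 hN h8 hn (z := y' * (z * y)⁻¹)
      (by rw [map_mul, map_inv, map_mul, z1, h.1, one_mul, mul_inv_cancel])
    rw [map_mul, map_inv, map_mul, map_mul, map_inv, map_mul, z2, h.2, inv_mul_cancel_right,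
      mul_inv_cancel, Units.val_one, Int.cast_add, Int.cast_one, left_eq_add,
      ZMod.intCast_zmod_eq_zero_iff_dvd] at a4
    have := (a5 _ dvd_rfl).2 (cop 3 hn a3 (dv 3 a1 a4))
    have h1 := (cl_out (y' * (z * y)⁻¹)).res dvd_rfl
    rw [this, (cl_out _).inv.1] at h1
    exact mul_inv_eq_one.1 ((cl_out _).unique h1)
  · obtain ⟨s, t, a1, a2, a3, a4, a5⟩ := kerK hp h44 hN h8 hn (z := y' * y⁻¹)
      (by rw [map_mul, map_inv, e, mul_inv_cancel])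
    have b2 := a5 (2 * n) (mul_dvd_mul_right (by norm_num) n)
    have b4 := a5 (4 * n) (mul_dvd_mul_right (by norm_num) n)
    rw [map_mul, map_inv, mul_inv_eq_one, eq_comm] at b2 b4
    refine ⟨b2.2 (cop 1 hn a3 (by simpa using a2.two_dvd)), ?_⟩
    rw [b4, ← mul_inv_eq_one, ← mul_inv_eq_iff_eq_mul, ← map_inv, ← map_mul, ← map_inv, ← map_mul,
      Units.ext_iff, Units.ext_iff, a4, un_val (by decide), Units.val_one,
      ← Int.cast_one (R := ZMod 8), ← Int.cast_natCast (R := ZMod 8) 5,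
      ZMod.intCast_eq_intCast_iff_dvd_sub, ZMod.intCast_eq_intCast_iff_dvd_sub]
    constructor
    · intro h
      have h4 : (4 : ℤ) ∣ ((4 * n : ℕ) : ℤ) := ⟨n, by push_cast; ring⟩
      have : (4 : ℤ) ∣ s * t := (h4.trans h).mul_left s
      omega
    · intro h
      exact cop 2 hn a3 (dv 2 a1 (by omega))

end Pool.Agent.Lib.MP_d6ddbd_nt.KA
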