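import Pool.Agent.Lib.MP_d6ddbd_nt.KA.Blk
import Pool.Agent.Lib.MP_d6ddbd_nt.K11.LocD

/-!
The two-converse for all quadratic twists of `X₀(11)`: the condition on `q`.
-/

set_option autoImplicit false

open NumberField IsDedekindDomain
open Pool.Agent.Stark (Pr og hq LSq pw)
open Pool.Agent.Stark.LocAux (mem_of_le pw_mul)
open Pool.Agent.Lib.MP_d6ddbd_nt.K11

noncomputable section

namespace Pool.Agent.Lib.MP_d6ddbd_nt.KA

open Blk in
theorem gq_thm (hC : ConstStmt) : GqStmt := by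
  intro L _ _ θ hθ q hq h1
  classical
  have := Fact.mk hq.pr
  have big := hq.big
  have q2 : q ≠ 2 := by omega
  have q11 : q ≠ 11 := by omega
  obtain ⟨⟨g0, -, -, ge, -⟩, -⟩ := hC L θ hθ
  obtain ⟨-, -, a3, -⟩ := pr_thm L θ hθ
  obtain ⟨𝔭, 𝔮, -, hab, n1, n2⟩ := (a3 q hq.pr q2 q11).2.2.2.1 h1
  have H := mkH hθ hq.pr q2 q11
  have k : 𝔭 ∈ ab L q := (hab 𝔭).2 (Or.inl rfl)
  have uq : ∀ 𝔯 ∈ ab L q, nm 𝔯 = q → 𝔯 = 𝔭 := fun 𝔯 r n => ((hab 𝔯).1 r).resolve_right fun e => by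
    rw [e, n2] at n
    nlinarith
  have fl : ((ab L q).filter fun 𝔮 => nm 𝔮 = q) = {𝔭} := by
    ext 𝔯
    rw [Finset.mem_filter, Finset.mem_singleton]
    exact ⟨fun h => uq 𝔯 h.1 h.2, fun h => h ▸ ⟨k, n1⟩⟩
  have e1 : fv q (gm2 θ) = nsq 𝔭 (gm2 θ) := by
    rw [fv, fl, Finset.sum_singleton, LocD.hq_nsq (H.two 𝔭 k) g0
      (Nat.cast_ne_zero.2 hq.pr.ne_zero) (by rw [LocD.vv, H.one 𝔭 k]; rfl) (LocD.vv_zero.2 (ge 𝔭))]
  have key : ∀ X : ℤ, fc (X : ZMod q) = 0 →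
      (LSq 𝔭 (gm2 θ) ↔ IsSquare (2 * (18 - (X : ZMod q)))) := fun X hX => by
    obtain ⟨𝔯, r, n, m⟩ := root_prime hθ H hX
    rw [uq 𝔯 r n] at m
    have cast : ((2 * (18 - X) : ℤ) : ZMod q) = 2 * (18 - (X : ZMod q)) := by push_cast; rfl
    have nz : ∀ a : ℕ, a ≠ 0 → a < 45 → (a : ZMod q) ≠ 0 := fun a a0 a1 z =>
      absurd (Nat.le_of_dvd (Nat.pos_of_ne_zero a0) ((ZMod.natCast_eq_zero_iff _ _).1 z)) (by omega)
    rw [← cast]
    refine (Good.red H k n1 (m := 2 * (18 - X)) (fun z => ?_) ?_).2.2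
    · have t2 : (2 : ZMod q) ≠ 0 := by exact_mod_cast nz 2 (by decide) (by decide)
      have t7 : (7 : ZMod q) ≠ 0 := by exact_mod_cast nz 7 (by decide) (by decide)
      rw [cast, mul_eq_zero, sub_eq_zero] at z
      rw [← z.resolve_left t2] at hX
      refine mul_ne_zero (pow_ne_zero 3 t2) (pow_ne_zero 2 t7) (Eq.trans ?_ hX)
      rw [fc]
      norm_num
    · convert pw_mul (l := 1) m (Good.int_pw 𝔭 2) le_rfl using 1
      simp only [gm2]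
      push_cast
      ring
  rw [e1]
  refine ⟨fun h => ⟨h1, fun x hx s => ?_⟩, fun h => Good.nsq_one fun s => ?_⟩
  · obtain ⟨X, rfl⟩ := ZMod.intCast_surjective x
    rw [Good.nsq_zero.2 ((key X hx).2 s)] at h
    exact zero_ne_one h
  · exact h.2 _ (Good.root hθ H k n1) ((key _ (Good.root hθ H k n1)).1 s)

end Pool.Agent.Lib.MP_d6ddbd_nt.KA
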