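import Pool.Agent.Lib.MP_d6ddbd_nt.KA.Stmt
import Pool.Agent.Lib.MP_d6ddbd_nt.KI.Heis
import Pool.Agent.Lib.MP_d6ddbd_nt.KI.Br
import Pool.Agent.Lib.MP_d6ddbd_nt.KI.Cm1

/-!
The Heisenberg extension attached to a basis of the Selmer classes of level one: every alternating
matrix is the value of the splittings on a product of commutators, which is killed by all cocycles
with values in the points of order two.
-/

set_option autoImplicit false
set_option maxSynthPendingDepth 3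

open Pool.Agent.Lib.MP_02f36d_nt (xc yc)
open Pool.Agent.Lib.MP_d6ddbd_nt.K11
open Pool.Agent.Lib.MP_d6ddbd_nt.KI (rt cq tw Cy Cb Kl Sel Hm Wq rep Sg cup ep IsoStmt AbhnStmt)

noncomputable section

namespace Pool.Agent.Lib.MP_d6ddbd_nt.KA

namespace Heis

open KI.Heis

theorem coc_of {c : ℤ} {x : G → Pt} (h : Cy c 1 x) : Coc x :=
  ⟨tor h, KI.Heis.mul h, h.fin⟩

theorem coc_one {ξ : G → Pt} (h : Coc ξ) : ξ 1 = 0 := by simpa using h.mul 1 1

theorem coc_add {ξ : G → Pt} (h : Coc ξ) {g : G} (a : Hm 1 ∅ g) (τ : G) :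
    ξ (g * τ) = ξ g + ξ τ := by
  rw [h.mul, a.tor _ (by simpa using h.two τ)]

theorem main (hI : IsoStmt) (hA : AbhnStmt) (hS : SJ1Stmt) : HeisStmt := by
  intro d r B hd hB hi
  have cy := fun i => (hB i).1.cy
  have ex : ∀ i j : Fin r, ∃ η, Sg (cup (B i) (B j)) η := fun i j =>
    hA _ (c2 (cy _) (cy _)) (fun v O hv hO => hI d v O _ _ hd hv hO (tor (cy _))
      (tor (cy _)) ((hB _).1.kl v O hv (by simp) hO) ((hB _).1.kl v O hv (by simp) hO))
      (by simp [cup, (hB _).2, KI.Heis.one (cy _), ep])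
  choose ε hε using ex
  obtain ⟨T, t2, tc⟩ := ex_pt
  have su := fun μ U hU => hS d r B μ U cy hi hU
  have e1 : ep T (cj • T) = 1 := by
    have t0 : T ≠ 0 := fun k => tc (by rw [k, smul_zero])
    simp [ep, t0, tc.symm, smul_eq_zero']
  refine ⟨ε, hε, fun M m1 m2 => ?_⟩
  let X : (Fin r → Fin r → ZMod 2) → Prop := fun M =>
    ∃ h, Hm 1 ∅ h ∧ (∀ ξ, Coc ξ → ξ h = 0) ∧ ∀ i j, ε i j h = M i j
  have x0 : X 0 := ⟨1, hm_one, fun ξ hξ => coc_one hξ, fun i j => by
    have := sg_mul (cy _) (hε i j) hm_one 1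
    rw [mul_one, KI.Heis.one (cy _)] at this
    simpa [ep] using this⟩
  have xa : ∀ M M', X M → X M' → X (M + M') := by
    rintro M M' ⟨h, a1, a2, a3⟩ ⟨h', b1, b2, b3⟩
    refine ⟨h * h', hm_mul a1 b1,
      fun ξ hξ => by rw [coc_add hξ a1, a2 ξ hξ, b2 ξ hξ, add_zero], fun i j => ?_⟩
    rw [sg_mul (cy _) (hε i j) a1, a2 _ (coc_of (cy _)), a3, b3]
    simp [ep]
  have xw : ∀ l μ : Fin r → ZMod 2, X fun i j => l i * μ j + l j * μ i := fun l μ => by
    obtain ⟨u, u1, u2⟩ := su l T t2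
    obtain ⟨w, w1, w2⟩ := su μ (cj • T) (KI.Ep.two_smul' cj t2)
    have hh := hm_mul (hm_mul u1 w1) (hm_inv (hm_mul w1 u1))
    have e : u * w * (w * u)⁻¹ * (w * u) = u * w := inv_mul_cancel_right _ _
    have z : ∀ ξ, Coc ξ → ξ (u * w * (w * u)⁻¹) = 0 := fun ξ hξ => by
      have := coc_add hξ hh (w * u)
      rwa [e, coc_add hξ u1, coc_add hξ w1, add_comm (ξ w), right_eq_add] at this
    refine ⟨_, hh, z, fun i j => ?_⟩
    have := sg_mul (cy _) (hε i j) hh (w * u)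
    rw [e, z _ (coc_of (cy _)), sg_mul (cy _) (hε i j) u1, sg_mul (cy _) (hε i j) w1, u2, u2, w2,
      w2, (ep_val e1 _ _).1, (ep_val e1 _ _).2, ep_eq, KI.Ep.ep_zero_left] at this
    have t : μ i * l j + μ i * l j = 0 := CharTwo.add_self_eq_zero _
    linear_combination -this - t
  have xs : ∀ (s : Finset (Fin r)) (f : Fin r → Fin r → Fin r → ZMod 2), (∀ a, X (f a)) →
      X (∑ a ∈ s, f a) := fun s f hf =>
    Finset.sum_induction f X xa x0 fun a _ => hf a
  have := xs Finset.univ _ fun a => xw (Pi.single a 1) fun j => if a < j then M a j else 0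
  obtain ⟨h, h1, h2, h3⟩ := this
  refine ⟨h, h1, h2, fun i j => ?_⟩
  rw [h3]
  simp only [Finset.sum_apply, Finset.sum_add_distrib, Pi.single_apply, ite_mul, one_mul, zero_mul,
    Finset.sum_ite_eq, Finset.mem_univ, if_true]
  rcases lt_trichotomy i j with k | k | k
  · simp [k, k.not_gt]
  · simp [k, m2]
  · simp [k, k.not_gt, m1 i j]

end Heis

theorem heis_thm (hS : SJ1Stmt) : HeisStmt := Heis.main KI.isoH_thm KI.abhn_thm hS

end Pool.Agent.Lib.MP_d6ddbd_nt.KA
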