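import Pool.Agent.Lib.MP_d6ddbd_nt.KA.Stmt
import Pool.Agent.Lib.MP_d6ddbd_nt.K11.Hk
import Pool.Agent.Lib.MP_d6ddbd_nt.K11.Ker
import Pool.Agent.Lib.MP_d6ddbd_nt.K11.Pic

/-!
The neighbours of Heegner points at `2` and at `11`.
-/

set_option autoImplicit false
set_option maxSynthPendingDepth 3

open Pointwise
open Pool.Agent.Lib.MP_9177b7_ag.CM (IsLat sp smul_mul_left smul_mul_right sp_le mem_sp left_mem_sp
  right_mem_sp smul_sp sp_mul mem_smul_iff)
open Pool.Agent.Lib.MP_d6ddbd_nt.K11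
open Pool.Agent.Lib.MP_d6ddbd_nt.K11.Hk

noncomputable section

namespace Pool.Agent.Lib.MP_d6ddbd_nt.KA

namespace Hk2

variable {q c l : ℕ} [hq : Fact (q % 4 = 3)] {L L' L0 M P : Submodule ℤ ℂ}

theorem cls0 (hl : l.Prime) (h0 : Ivt q (l * c) L0) (e : Oc q c * L0 = L) (h : Nb l L L') :
    L' = L0 ∨ ∃ i : ℤ, L' = sp l (c * om q - i) * L0 := by
  obtain ⟨h1, B, h2⟩ := h0
  have d := Oc_mul hq.out (dvd_mul_left c l)
  have oo := Oc_mul_self hq.out c
  have k1 : L * B = Oc q c := by rw [← e, mul_assoc, h2, d]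
  have k2 : Oc q (l * c) * L' = L' := by
    rw [Oc_lc, sp_mul, one_smul, sup_eq_left, mul_smul]
    refine le_trans (Pool.Agent.Lib.MP_9177b7_ag.CM.smul_le_smul _ ?_) h.1.le
    have : Oc q c * L' ≤ L := (mul_le_mul_right h.2.le _).trans (by rw [← e, ← mul_assoc, oo])
    rw [Oc, sp_mul] at this
    exact le_sup_right.trans this
  have k3 : L' * B * L0 = L' := by rw [mul_assoc, mul_comm B, h2, mul_comm, k2]
  have k4 : (l : ℂ) • Oc q c < L' * B := lt_of_le_of_ne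
    (by rw [← k1, ← smul_mul_left]; exact mul_le_mul_left h.1.le _) fun k =>
    h.1.ne (by rw [← k3, ← k, smul_mul_left, e])
  have k5 : L' * B < Oc q c := lt_of_le_of_ne (by rw [← k1]; exact mul_le_mul_left h.2.le _)
    fun k => h.2.ne (by rw [← k3, k, e])
  rcases classify hl k4 k5 with k | ⟨i, k⟩
  · rw [k, ← Oc_lc, h1] at k3
    exact .inl k3.symm
  · rw [k] at k3
    exact .inr ⟨i, k3.symm⟩

omit hq in
theorem lvA_mul (b : ℤ) (P L : Submodule ℤ ℂ) : lvA q c b (P * L) = P * lvA q c b L := by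
  unfold lvA
  split_ifs
  · rw [mul_left_comm]
  · rw [lvl, lvl, smul_mul_right, mul_left_comm]

omit hq in
theorem smul_inj {μ : ℂ} (hμ : μ ≠ 0) (h : μ • L = μ • L') : L = L' := by
  have := congrArg (μ⁻¹ • ·) h
  simpa only [smul_smul, inv_mul_cancel₀ hμ, one_smul] using this

omit hq in
theorem mem_smul {μ z : ℂ} (h : z ∈ L) : μ * z ∈ μ • L := mem_smul_iff.2 ⟨z, h, rfl⟩

omit hq in
/-- The level structure of a horizontal neighbour. -/
theorem hor (h : Lv L M) (h1 : P * M ≤ M) (h2 : ((2 : ℕ) : ℂ) ∈ P) :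
    P * L ⊔ ((2 : ℕ) : ℂ) • M = P * M := by
  refine le_antisymm (sup_le (mul_le_mul_right h.2.1.le _) fun z hz => ?_) fun z hz => ?_
  · obtain ⟨u, hu, rfl⟩ := mem_smul_iff.1 hz
    exact Submodule.mul_mem_mul h2 hu
  · refine of_cop (a := 11) (b := 2) (by norm_num [Int.isCoprime_iff_gcd_eq_one])
      (Submodule.mem_sup_left ?_) (Submodule.mem_sup_right ?_)
    · have : (11 : ℂ) • (P * M) ≤ P * L := by
        rw [← smul_mul_right]
        exact mul_le_mul_right h.2.2.le _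
      simpa using this (mem_smul hz)
    · simpa using mem_smul (μ := 2) (h1 hz)

omit hq in
theorem par (h : Lv L M) : L ⊔ ((2 : ℕ) : ℂ) • M = M := by
  refine le_antisymm (sup_le h.2.1.le fun z hz => ?_) fun z hz => ?_
  · obtain ⟨u, hu, rfl⟩ := mem_smul_iff.1 hz
    simpa using imem hu 2
  · refine of_cop (a := 11) (b := 2) (by norm_num [Int.isCoprime_iff_gcd_eq_one])
      (Submodule.mem_sup_left ?_) (Submodule.mem_sup_right ?_)
    · simpa using h.2.2.le (mem_smul hz)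
    · simpa using mem_smul (μ := 2) hz

/-- The level structure of a child. -/
theorem child {b : ℤ} (h : Ivt q (2 * c) L') (e : Oc q c * L' = L)
    (hp : ¬ 11 ∣ c → Oc q c * pid q c 11 b = pid q c 11 b) :
    L' ⊔ ((2 : ℕ) : ℂ) • lvA q c b L = lvA q (2 * c) b L' := by
  by_cases h11 : 11 ∣ c
  · obtain ⟨d, rfl⟩ := h11
    have e1 : 2 * (11 * d) / 11 = 2 * d := by omega
    have e2 : 11 * d / 11 = d := by omega
    have k : Oc q (2 * (11 * d)) ⊔ ((2 : ℕ) : ℂ) • Oc q d = Oc q (2 * d) := by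
      rw [Oc, Oc, Oc, smul_sp]
      refine le_antisymm (sup_le (sp_le.2 ⟨left_mem_sp _ _, mem_sp.2 ⟨0, 11, by push_cast; ring⟩⟩)
        (sp_le.2 ⟨mem_sp.2 ⟨2, 0, by push_cast; ring⟩, mem_sp.2 ⟨0, 1, by push_cast; ring⟩⟩))
        (sp_le.2 ⟨Submodule.mem_sup_left (left_mem_sp _ _),
          Submodule.mem_sup_right (mem_sp.2 ⟨0, 1, by push_cast; ring⟩)⟩)
    rw [lvA, lvA, if_pos (dvd_mul_right _ _), if_pos (by omega), e1, e2, ← k, Submodule.sup_mul,
      h.1, smul_mul_left, ← e, ← mul_assoc, Oc_mul hq.out (dvd_mul_left d 11)]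
  · rw [lvA, lvA, if_neg h11, if_neg (by omega)]
    exact lvl_of h e (hp h11)

/-- A representative of `y` above a given module. -/
theorem rep {x : Pic q c} {c' : ℕ} (dv : c ∣ c') {y : Pic q c'} (hy : res c y = x) (hL : Cl x L) :
    ∃ L', Cl y L' ∧ Oc q c * L' = L := by
  obtain ⟨μ, m0, m⟩ := (hy ▸ (cl_out y).res dv).exists_smul hL
  exact ⟨μ • y.out.1, (cl_out y).smul m0, by rw [smul_mul_right, m]⟩

/-- The horizontal neighbours. -/
theorem spl (hq' : q.Prime) (h44 : 44 < q) (c0 : c ≠ 0) (hl : l.Prime) (lq : l ≠ q) (lc : ¬ l ∣ c)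
    {r : ℤ} (hr : Rt q l r) (hL : Ivt q c L) :
    Nb l L (pid q c l r * L) ∧ Oc q c * (pid q c l r * L) ≠ L ∧
      pid q c l r * L ≠ pid q c l (1 - r) * L := by
  have him := im_ne hq'.ne_zero c0
  obtain ⟨-, -, -, -, -, hP⟩ := ker_thm pic_thm q hq' h44 c c0
  obtain ⟨OL, B, LB⟩ := hL
  obtain ⟨s0, s1, s2, -, s3, -, -⟩ := hP l r hl lq lc hr
  obtain ⟨-, s1', -⟩ := hP l (1 - r) hl lq lc s0
  have n1 : pid q c l r * L ≠ L := fun k => ne1 him hl
    ((cancel LB s1.inv.1 (Oc_mul_self hq.out c) (k.trans OL.symm)).ge (one_mem_Oc q c))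
  refine ⟨⟨lt_of_le_of_ne ?_ fun k => ?_, lt_of_le_of_ne ?_ n1⟩, fun k => n1 ?_, fun k => ?_⟩
  · rw [← OL, ← smul_mul_left, OL]
    exact mul_le_mul_left lO_le' _
  · have := cancel (X := (l : ℂ) • Oc q c) LB (by rw [smul_mul_right, Oc_mul_self hq.out])
      s1.inv.1 (by rw [smul_mul_left, OL, k])
    exact ne2 him hl (lO_le (this.ge (right_mem_sp _ _)))
  · exact (mul_le_mul_left s2 _).trans OL.le
  · rwa [← mul_assoc, s1.inv.1] at k
  have pl := Nat.prime_iff_prime_int.1 hl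
  have lc' : ¬ (l : ℤ) ∣ c := fun k => lc (Int.natCast_dvd_natCast.1 k)
  have d1 := dvd_of_sp him (cancel LB s1.inv.1 s1'.inv.1 k)
  rw [← mul_sub] at d1
  have d2 := (pl.dvd_or_dvd d1).resolve_left lc'
  have e4 : (4 : ℤ) * ((q + 1) / 4 : ℕ) = q + 1 := by have := hq.out; omega
  have d3 : (l : ℤ) ∣ q := by
    have := dvd_sub (Dvd.dvd.mul_left hr 4) (d2.mul_right (r - (1 - r)))
    rwa [show 4 * (r ^ 2 - r + ((q + 1) / 4 : ℕ)) - (r - (1 - r)) * (r - (1 - r)) = (q : ℤ) by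
      linear_combination e4] at this
  exact lq ((Nat.prime_dvd_prime_iff_eq hl hq').1 (Int.natCast_dvd_natCast.1 d3))

omit hq in
open Classical in
theorem nbs3 {Pp : Submodule ℤ ℂ → Submodule ℤ ℂ → Pt} {A B C : Submodule ℤ ℂ} {X Y Z : Pt}
    (h1 : A ≠ B) (h2 : A ≠ C) (h3 : B ≠ C) (h : ∀ N, Nb 2 L N ↔ N = A ∨ N = B ∨ N = C)
    (hA : Pp A (A ⊔ ((2 : ℕ) : ℂ) • M) = X) (hB : Pp B (B ⊔ ((2 : ℕ) : ℂ) • M) = Y)
    (hC : Pp C (C ⊔ ((2 : ℕ) : ℂ) • M) = Z) : Nbs Pp 2 L M {X, Y, Z} := by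
  refine ⟨{A, B, C}, fun N => by simp [h], ?_⟩
  rw [Finset.insert_val_of_notMem (by simp [h1, h2]), Finset.insert_val_of_notMem (by simp [h3]),
    Finset.singleton_val, Multiset.map_cons, Multiset.map_cons, Multiset.map_singleton, hA, hB, hC]
  rfl

end Hk2

open Hk2 in
theorem hk2_thm (hGal : GalAStmt) : Hk2Stmt := by
  intro Pp a t0 hX q hq' hq h44 b r c c' hb hr c0 c121 hc' x
  subst hc'
  have q0 := hq.ne_zero
  have p11 : Nat.Prime 11 := by norm_num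
  have dv := dvd_mul_left c 2
  have hp : ∀ c : ℕ, c ≠ 0 → ¬ 11 ∣ c → Oc q c * pid q c 11 b = pid q c 11 b := fun c c0 h =>
    ((ker_thm pic_thm q hq h44 c c0).2.2.2.2.2 11 b p11 (by omega) h hb).2.1.inv.1
  have G := fun c c0 h x => (hGal Pp a t0 hX q hq h44 b c hb c0 h x).1
  have val : ∀ (y : Pic q (2 * c)) L L', Cl y L' → Oc q c * L' = L →
      Pp L' (L' ⊔ ((2 : ℕ) : ℂ) • lvA q c b L) = hQ Pp b y := fun y L L' h e => by
    rw [child h.inv e (hp c c0)]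
    exact (G _ (by omega) (by omega) y _ h).2
  refine ⟨fun c2 y hy => ?_, fun c'' hc y y' hne hy hy' => ?_⟩
  · have h0 := cl_out y
    generalize y.out.1 = L0 at h0
    have hL := hy ▸ h0.res dv
    generalize e0 : Oc q c * L0 = L at hL
    obtain ⟨g0, g1⟩ := G c c0 c121 x L hL
    have hP := (ker_thm pic_thm q hq h44 c c0).2.2.2.2.2 2
    obtain ⟨s0, s1, s2, -, -, s5, -⟩ := hP r Nat.prime_two (by omega) c2 hr
    obtain ⟨-, s1', s2', -⟩ := hP (1 - r) Nat.prime_two (by omega) c2 s0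
    obtain ⟨n1, n2, n3⟩ := spl hq h44 c0 Nat.prime_two (by omega) c2 hr hL.inv
    obtain ⟨n1', n2', -⟩ := spl hq h44 c0 Nat.prime_two (by omega) c2 s0 hL.inv
    have OM : Oc q c * lvA q c b L = lvA q c b L := by rw [← lvA_mul, hL.inv.1]
    refine ⟨L, _, g0, g1, nbs3 (A := L0) (B := pid q c 2 r * L) (C := pid q c 2 (1 - r) * L)
      (fun k => n2 (k ▸ e0)) (fun k => n2' (k ▸ e0)) n3 (fun N => ⟨fun h => ?_, ?_⟩)
      (val y L L0 h0 e0) ?_ ?_⟩
    · refine (cls0 Nat.prime_two h0.inv e0 h).imp_right ?_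
      rintro ⟨i, rfl⟩
      have c2' : (c : ℤ) % 2 = 1 := by omega
      have d : ((2 : ℕ) : ℤ) ∣ i - c * r ∨ ((2 : ℕ) : ℤ) ∣ i - c * (1 - r) := by
        rw [mul_sub, mul_one]
        generalize (c : ℤ) * r = u
        omega
      rcases d with d | d
      · refine .inl ?_
        rw [← e0, ← mul_assoc, mul_comm (pid _ _ _ _), s1.inv.1, pid, sp_cong d]
      · refine .inr ?_
        rw [← e0, ← mul_assoc, mul_comm (pid _ _ _ _), s1'.inv.1, pid, sp_cong d]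
    · rintro (rfl | rfl | rfl)
      exacts [nb_of q0 c0 Nat.prime_two h0.inv e0, n1, n1']
    · rw [hor g0 ((mul_le_mul_left s2 _).trans OM.le) (left_mem_sp _ _), ← lvA_mul]
      exact (G c c0 c121 _ _ (s1.mul hL)).2
    · rw [hor g0 ((mul_le_mul_left s2' _).trans OM.le) (left_mem_sp _ _), ← lvA_mul, ← s5]
      exact (G c c0 c121 _ _ (s1'.mul hL)).2
  · subst hc
    have c0' : c'' ≠ 0 := by omega
    have h0 := cl_out y
    generalize y.out.1 = L0 at h0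
    have hL := hy ▸ h0.res dv
    generalize e0 : Oc q (2 * c'') * L0 = L at hL
    obtain ⟨L1, h1, e1⟩ := rep dv hy' hL
    obtain ⟨g0, g1⟩ := G _ c0 c121 x L hL
    have dv' := dvd_mul_left c'' 2
    have hN := hL.res dv'
    generalize eN : Oc q c'' * L = N at hN
    obtain ⟨f0, f1⟩ := G c'' c0' (by omega) _ N hN
    have nN := nb_of q0 c0' Nat.prime_two hL.inv eN
    have two : ((2 : ℕ) : ℂ) ≠ 0 := by norm_num
    have nP : Nb 2 L (((2 : ℕ) : ℂ) • N) :=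
      ⟨lt_of_le_of_ne (Pool.Agent.Lib.MP_9177b7_ag.CM.smul_le_smul _ nN.2.le)
        fun k => nN.2.ne (smul_inj two k), nN.1⟩
    have ON : Oc q (2 * c'') * N = N := by
      rw [← eN, ← mul_assoc, mul_comm (Oc q (2 * c'')), Oc_mul hq'.out dv']
    have dP : ∀ X, Oc q (2 * c'') * X = L → ((2 : ℕ) : ℂ) • N ≠ X := fun X e k => nP.2.ne (by
      rw [← e, ← k, smul_mul_right, ON])
    have d01 : L0 ≠ L1 := fun k => hne (h0.unique (k ▸ h1))
    have cl : ∀ X, Nb 2 L X → X = L0 ∨ X = ((2 : ℕ) : ℂ) • N ∨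
        X = sp (2 : ℕ) ((2 * c'' : ℕ) * om q - (1 : ℤ)) * L0 := fun X h => by
      refine (cls0 Nat.prime_two h0.inv e0 h).imp_right ?_
      rintro ⟨i, rfl⟩
      have d : ((2 : ℕ) : ℤ) ∣ i - 0 ∨ ((2 : ℕ) : ℤ) ∣ i - 1 := by omega
      rcases d with d | d
      · refine .inl ?_
        rw [sp_cong d, ← eN, ← e0, ← mul_assoc, Oc_mul hq'.out dv', ← smul_mul_left, Oc, smul_sp]
        congr 2 <;> push_cast <;> ring
      · exact .inr (by rw [sp_cong d])
    have n1 := nb_of q0 c0 Nat.prime_two h1.inv e1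
    have k1 := ((cl L1 n1).resolve_left d01.symm).resolve_left (dP L1 e1).symm
    refine ⟨L, _, g0, g1, nbs3 (A := ((2 : ℕ) : ℂ) • N) (B := L0) (C := L1) (dP L0 e0) (dP L1 e1)
      d01 (fun X => ⟨fun h => ?_, ?_⟩) ?_ (val y L L0 h0 e0) (val y' L L1 h1 e1)⟩
    · rcases cl X h with k | k | k
      exacts [.inr (.inl k), .inl k, .inr (.inr (k.trans k1.symm))]
    · rintro (rfl | rfl | rfl)
      exacts [nP, nb_of q0 c0 Nat.prime_two h0.inv e0, n1]
    · rw [← Submodule.smul_sup', ← child hL.inv eN (hp c'' c0'), ← sup_assoc,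
        sup_eq_left.2 nN.2.le, par f0, hX.scale _ _ _ f0 two, f1]

open Hk2 Classical in
theorem hkE_thm (hGal : GalAStmt) : HkEStmt := by
  intro Pp a t0 hA q hq' hq h44 b c c' hb c0 c11 hc' x s hs
  subst hc'
  have hX := hA.xi
  obtain ⟨C, hC5, hC⟩ := hA.el
  have q0 := hq.ne_zero
  have hl : Nat.Prime 11 := by norm_num
  have lq : 11 ≠ q := by omega
  have lc0 : 11 * c ≠ 0 := by omega
  have dv := dvd_mul_left c 11
  have G := fun c c0 h x => (hGal Pp a t0 hX q hq h44 b c hb c0 h x).1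
  have hP := (ker_thm pic_thm q hq h44 c c0).2.2.2.2.2 11
  obtain ⟨-, hcl, hu, -⟩ := (pic_thm q hq h44).2 c c0
  obtain ⟨y0, rfl⟩ := (ker_thm pic_thm q hq h44 _ lc0).2.2.2.1 c dv x
  have h0 := cl_out y0
  generalize y0.out.1 = L0 at h0
  have hL := h0.res dv
  generalize e0 : Oc q c * L0 = L at hL
  obtain ⟨OL, B, LB⟩ := hL.inv
  obtain ⟨g0, g1⟩ := G c c0 (by omega) _ L hL
  have ex : ∀ y : Pic q (11 * c), ∃ L', y ∈ s → Cl y L' ∧ Oc q c * L' = L := fun y => by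
    by_cases hy : y ∈ s
    · obtain ⟨L', h⟩ := rep dv ((hs y).1 hy) hL
      exact ⟨L', fun _ => h⟩
    · exact ⟨⊥, fun h => (hy h).elim⟩
  choose Λ hΛ using ex
  have im : ∀ L', L' ∈ s.image Λ ↔ Ivt q (11 * c) L' ∧ Oc q c * L' = L := fun L' => by
    rw [Finset.mem_image]
    refine ⟨fun ⟨y, hy, e⟩ => e ▸ ⟨(hΛ y hy).1.inv, (hΛ y hy).2⟩, fun ⟨h, e⟩ => ?_⟩
    obtain ⟨y, hy⟩ := h.cl
    have ys : y ∈ s := (hs y).2 ((hy.res dv).unique (e ▸ hL))
    obtain ⟨μ, -, m⟩ := hy.exists_smul (hΛ y ys).1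
    have k := (hΛ y ys).2
    rw [m, smul_mul_right, e] at k
    have k' : μ • Oc q c = Oc q c := by rw [← LB, ← smul_mul_left, k]
    refine ⟨y, ys, m.trans ?_⟩
    rcases hu μ k' with rfl | rfl
    · exact one_smul _ _
    · ext z
      simp only [mem_smul_iff, neg_one_mul]
      exact ⟨fun ⟨u, hu, e⟩ => e ▸ neg_mem hu, fun h => ⟨-z, neg_mem h, neg_neg z⟩⟩
  have sm : ∑ L' ∈ s.image Λ, Pp L' L = ∑ y ∈ s, hQ Pp b y := by
    rw [Finset.sum_image (g := Λ) fun y hy y' hy' e =>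
      (hΛ y hy).1.unique (by rw [e]; exact (hΛ y' hy').1)]
    refine Finset.sum_congr rfl fun y hy => ?_
    rw [← (G _ lc0 (by omega) y _ (hΛ y hy).1).2, lvA, if_pos (dvd_mul_right _ _),
      show 11 * c / 11 = c by omega, (hΛ y hy).2]
  obtain ⟨s0, s1, -, -, s3, -, -⟩ := hP b hl lq c11 hb
  obtain ⟨-, s1', -⟩ := hP (1 - b) hl lq c11 s0
  obtain ⟨n1, n2, n3⟩ := spl hq h44 c0 hl lq c11 hb hL.inv
  obtain ⟨n1', n2', -⟩ := spl hq h44 c0 hl lq c11 s0 hL.inv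
  have v1 : Pp (pid q c 11 b * L) L = t0 - hQ Pp b (res c y0) := by
    have k := hX.fricke _ _ g0
    rw [g1, lvA, if_neg c11, lvl, hX.scale _ _ _ ⟨(hcl _ _ (s1.mul hL)).1, n1.2, by
      simpa using n1.1⟩ (by norm_num)] at k
    exact k
  have v2 : Pp (pid q c 11 (1 - b) * L) L = hQ Pp b (lam q c 11 (1 - b) * res c y0) := by
    rw [← (G c c0 (by omega) _ _ (s1'.mul hL)).2, lvA, if_neg c11, lvl, ← mul_assoc, s3,
      smul_mul_left, OL, smul_smul, Nat.cast_ofNat, inv_mul_cancel₀ (by norm_num), one_smul]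
  have k := hC L (insert (pid q c 11 b * L) (insert (pid q c 11 (1 - b) * L) (s.image Λ))) g0.1
    fun L' => ⟨fun h => ?_, fun h => ?_⟩
  · rw [Finset.sum_insert (by
      simp only [Finset.mem_insert, not_or]; exact ⟨n3, fun h => n2 ((im _).1 h).2⟩),
      Finset.sum_insert (fun h => n2' ((im _).1 h).2), v1, v2, sm] at k
    rw [← k, smul_add, smul_add, smul_sub, hX.five] at hC5
    rw [← Finset.smul_sum, ← sub_eq_zero, ← hC5]
    abel
  · simp only [Finset.mem_insert] at h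
    rcases h with rfl | rfl | h
    exacts [n1, n1', nb_of q0 c0 hl ((im _).1 h).1 ((im _).1 h).2]
  · simp only [Finset.mem_insert]
    rcases cls_nb hl c11 h0.inv e0 h with h | ⟨r', hr', rfl⟩
    · exact .inr (.inr ((im L').2 h))
    have d1 : ((11 : ℕ) : ℤ) ∣ (r' - b) * (r' - (1 - b)) := by
      have := dvd_sub hr' hb
      rwa [show ∀ n : ℤ, r' ^ 2 - r' + n - (b ^ 2 - b + n) = (r' - b) * (r' - (1 - b)) from
        fun n => by ring] at this
    rcases (Nat.prime_iff_prime_int.1 hl).dvd_or_dvd d1 with d | d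
    · refine .inl ?_
      rw [← e0, ← mul_assoc, mul_comm (pid _ _ _ _), s1.inv.1, pid,
        sp_cong (j := c * b) (by rw [← mul_sub]; exact d.mul_left _)]
    · refine .inr (.inl ?_)
      rw [← e0, ← mul_assoc, mul_comm (pid _ _ _ _), s1'.inv.1, pid,
        sp_cong (j := c * (1 - b)) (by rw [← mul_sub]; exact d.mul_left _)]

end Pool.Agent.Lib.MP_d6ddbd_nt.KA
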