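import Pool.Agent.Lib.MP_d6ddbd_nt.KA.HkA0
import Pool.Agent.Lib.MP_d6ddbd_nt.K11.AllX

/-!
Hecke operators on Heegner points: the block.
-/

set_option autoImplicit false

open Pool.Agent.Lib.MP_d6ddbd_nt.K11

namespace Pool.Agent.Lib.MP_d6ddbd_nt.KA

theorem hka_thm (hGal : GalAStmt) : HkAStmt := hka_of vAll pic_thm kerAll hGal

end Pool.Agent.Lib.MP_d6ddbd_nt.KA
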