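import Pool.Agent.Lib.MP_d6ddbd_nt.KA.K2

/-! Block `K`: the systems of cocycles. -/

set_option autoImplicit false
set_option maxSynthPendingDepth 3

open Pool.Agent.Lib.MP_02f36d_nt (xc yc)
open Pool.Agent.Lib.MP_d6ddbd_nt.K11
open Pool.Agent.Lib.MP_d6ddbd_nt.K11.KK hiding pa cc tst dep_tst tst_eq rho_one rho_pow rho_conj
  exists_om es_tor a_par a_kol mem_D prod_pst chi_rho chi_nu act_not
open Pool.Agent.Lib.MP_d6ddbd_nt.KI (rt cq tw rt_sq cq_prod cq_ine cq_eq_one cq_or cq_of cq_one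
  cq_mul cq_sq cq_two cq_pow cq_inv KolI KnI vA rA cq_qd_fix ine_om rt_neg rt_alg)

noncomputable section

namespace Pool.Agent.Lib.MP_d6ddbd_nt.KA

namespace K

open Finset

section abs

variable {G E P : Type*} [Group G] [AddCommGroup E] [DistribMulAction G E] [DecidableEq P]
  {k m : ℕ} {H : Sys G E P k m}

theorem level {χ : G → ℤ} {s : ℕ} {S : E} (h : H.InvX χ s S) (t : ℕ) (g : G) :
    H.cx χ (t + s) S g = H.cx χ s S g := by
  obtain ⟨u, hu, h1, h2⟩ := h.ex g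
  rw [h2, H.cx_eq hu]
  rw [gz] at h1 ⊢
  generalize g • S = y at *
  linear_combination (norm := module) (2 : ℤ) ^ t • h1

theorem coc_tw {S : E} (h : H.Inv S) (g : G) {e : ℤ} (he : e = 1 ∨ e = -1) :
    ∃ u ∈ H.A, (2 : ℤ) • u = e • g • (2 : ℤ) • S - (2 : ℤ) • S ∧ H.coc S g = e • g • S - S - u := by
  obtain ⟨u, hu, h1, h2⟩ := h.ex g
  rcases he with rfl | rfl
  · exact ⟨u, hu, by rw [one_smul, h1], by rw [one_smul, h2]⟩
  · refine ⟨-u - (2 : ℤ) • S, H.A.sub_mem (H.A.neg_mem hu) h.1, ?_, ?_⟩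
    · generalize g • (2 : ℤ) • S = y at *
      linear_combination (norm := module) h1
    · rw [h2]
      rw [gz] at h1
      generalize g • S = y at *
      linear_combination (norm := module) h1

theorem coc_sgn {S : E} (h : H.Inv S) {g : G} {e : ℤ} (he : e = 1 ∨ e = -1)
    (hg : g • (2 : ℤ) • S = e • (2 : ℤ) • S) :
    e • g • (2 : ℤ) • S = (2 : ℤ) • S ∧ H.coc S g = e • g • S - S := by
  have h0 : e • g • (2 : ℤ) • S = (2 : ℤ) • S := by
    rw [hg, smul_smul]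
    rcases he with rfl | rfl <;> simp
  obtain ⟨u, hu, h1, h2⟩ := coc_tw h g he
  rw [h0, sub_self] at h1
  exact ⟨h0, by rw [h2, H.tf u hu h1, sub_zero]⟩

end abs

theorem exists_div {hR : R1Stmt} (n : ℕ) (P : AlgS hR) : ∃ S : AlgS hR, (2 : ℤ) ^ n • S = P := by
  induction n generalizing P with
  | zero => exact ⟨P, by simp⟩
  | succ n ih =>
    obtain ⟨S, rfl⟩ := ih P
    obtain ⟨T, rfl⟩ := exists_half S
    exact ⟨T, by rw [pow_succ, mul_smul]⟩

theorem coe_pow {hR : R1Stmt} (n : ℕ) (P : AlgS hR) :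
    (((2 : ℤ) ^ n • P : AlgS hR) : Pt) = 2 ^ n • (P : Pt) := by
  rw [AddSubgroupClass.coe_zsmul, ← natCast_zsmul]
  push_cast
  rfl

/-- The algebraic points on which inertia acts through the character of `-11`. -/
def NA (O : ValuationSubring ℂ) : AddSubgroup (AlgS rA.1) where
  carrier := {x | ∀ σ : G, Frob O 1 σ → σ • x = cq (-11) σ • x}
  zero_mem' := fun σ _ => by simp
  add_mem' := fun {x y} hx hy σ h => by rw [smul_add, hx σ h, hy σ h, smul_add]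
  neg_mem' := fun {x} hx σ h => by rw [smul_neg, hx σ h, smul_neg]

theorem mem_NA {O : ValuationSubring ℂ} {x : AlgS rA.1} : x ∈ NA O ↔ An O x :=
  ⟨fun h => ⟨x.2, fun σ a => congrArg Subtype.val (h σ a)⟩, fun h σ a => Subtype.ext (h.2 σ a)⟩

theorem tele (b e : ℕ → ZMod 2) (h0 : b 0 = e 0) (h : ∀ i, b (i + 1) = e i + e (i + 1)) (N : ℕ) :
    ∑ i ∈ range (N + 1), b i = e N := by
  induction N with
  | zero => simpa using h0
  | succ N ih =>
    rw [sum_range_succ, ih, h, ← add_assoc, CharTwo.add_self_eq_zero, zero_add]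

variable {q : ℕ} {d δ c : ℤ} {K r₁ r₂ m s : ℕ} {k : ℕ → ℕ} {W : Finset ℂ} {a : ℕ → ℤ}
  {S : Finset ℕ → (A k → ℤ) →+ Pt} {ρ : G → A k} {ν : A k} {j : ℕ → A k}
  (C : KH q d δ c K r₁ r₂ m s k W a S ρ ν j)

include C

/-- The points whose doubles are the leading forms. -/
structure XS (M : ℕ) (X : Finset ℕ → ℕ → AlgS rA.1) : Prop where
  lev : (sys C).Lev M
  le : M ≤ 2 * TT d c
  mem : ∀ n i, (2 : ℤ) • X n i ∈ (sys C).A
  eq : ∀ n i, i ≤ M / 2 → (2 : ℤ) ^ (M / 2 - i) • (2 : ℤ) • X n i = (sys C).Q n (2 * i + M % 2)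
  zero : ∀ n i, M / 2 < i → X n i = 0

variable {C} {M : ℕ} {X : Finset ℕ → ℕ → AlgS rA.1}

theorem XS.inv (h : XS C M X) (n : Finset ℕ) (i : ℕ) : (sys C).Inv (X n i) := by
  by_cases hi : i ≤ M / 2
  · exact h.lev.inv (by omega) (h.mem n i) (h.eq n i hi)
  · rw [h.zero n i (by omega)]; exact (sys C).inv_zero

theorem XS.top (h : XS C M X) (n : Finset ℕ) {i : ℕ} (σ : G) (hi : M / 2 < i) :
    (sys C).coc (X n i) σ = 0 := by rw [h.zero n i hi, (sys C).coc_zero]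

theorem XS.iner (h : XS C M X) {n : Finset ℕ} (i : ℕ) {v : ℕ} {O : ValuationSubring ℂ} {σ : G}
    (hv : v.Prime) (hO : Ov O v) (hσ : Frob O 1 σ) (vq : v ≠ q) (v1 : v ≠ r₁) (v2 : v ≠ r₂)
    (vn : v ∉ n) : tw d σ (2 • (X n i : Pt)) = 2 • (X n i : Pt) ∧
      ((sys C).coc (X n i) σ : Pt) = tw d σ (X n i) - X n i := by
  have h1 : σ • (2 : ℤ) • X n i = cq d σ • (2 : ℤ) • X n i := by
    by_cases hi : i ≤ M / 2
    · apply (sys C).cancel (M / 2 - i) ((sys C).stab _ _ (h.mem n i)) (zsmul_mem (h.mem n i) _)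
      rw [← gz, smul_comm _ (cq d σ), h.eq n i hi]
      exact iner_Y C hv hO hσ vq v1 v2 vn (dep_tf2 _ n)
    · simp [h.zero n i (by omega)]
  obtain ⟨h2, h3⟩ := coc_sgn (h.inv n i) (cq_or d σ) h1
  refine ⟨?_, congrArg Subtype.val h3⟩
  rw [← coe_two]
  exact congrArg Subtype.val h2

theorem XS.el (h : XS C M X) (hN : N11Stmt) (hG : G11Stmt) (hM : M11Stmt) (hE : KEStmt)
    {n : Finset ℕ} {O : ValuationSubring ℂ} {φ : G} (hn : KnI m q c n) (h11 : (11 : ℤ) ∣ d)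
    (hO : Ov O 11) (hφ : Frob O 11 φ) (hc : cq (-11) φ = 1) :
    ∃ a b : ℕ → ZMod 2, (∀ i, L11 d O φ (fun σ => ((sys C).coc (X n i) σ : Pt)) (a i) (b i)) ∧
      (rx d → b 0 = 0 ∧ b 1 = a 0 ∧ ∀ i, b (i + 2) = a (i + 1) + a i) ∧
      (¬ rx d → (∀ i, a i = 0) ∧ ∑ i ∈ range (M / 2 + 1), b i = 0) := by
  classical
  have p11 : Nat.Prime 11 := by norm_num
  have q11 : 11 ≠ q := by have := C.qd.qf.big; omega
  have n11 : 11 ∉ n := fun e => (hn 11 e).n11 rfl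
  obtain ⟨e₁, e₂, e₃, A, B, hA⟩ := (hN O hO).1
  obtain ⟨κ, g4⟩ := hG O φ e₁ e₂ e₃ A B hO hφ hc hA
  obtain ⟨c1, c2⟩ := (cq_thm d δ c C.td).2.2 h11 O hO
  obtain ⟨c2, c3⟩ := c2 φ hφ hc
  have hK := (vA.2.1.2.2.2.2.2.2.2.1 q 11 O φ C.qd.qf.pr C.qd.qf.m4 p11 (by norm_num) q11 hO hφ).2
    C.qd.qf.s11
  obtain ⟨J, eJ, j2, j1⟩ := fr_el C hO hφ
  choose u uA u1 u2 using fun i => coc_tw (h.inv n i) φ (cq_or d φ)
  have k0 : κ 0 = 0 := by
    have := g4.add 0 0 (mem_NA.1 (NA O).zero_mem) (mem_NA.1 (NA O).zero_mem)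
    simpa using this
  obtain ⟨k2, k1⟩ := hE G (AlgS rA.1) ℕ K m M (sys C) (NA O) (fun x => κ x) φ (cq d φ) J _ n
    (fun i => (2 : ℤ) • X n i) u h.lev (by have := C.hK; have := h.le; omega)
    (by have := C.hm; have := h.le; omega)
    (fun p => (pow_dvd_pow (2 : ℤ) (by have := C.hm; omega : 3 ≤ m)).trans (am C p))
    (fun f hf σ hσ => c1 σ hσ ▸ iner_Y C p11 hO hσ q11 C.rd₁.n11.symm C.rd₂.n11.symm n11 hf)
    (fun x hx h2 σ hσ => (sys C).cancel 1 ((sys C).stab _ _ hx) (zsmul_mem hx _) (by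
      rw [pow_one, ← gz, smul_comm _ (cq (-11) σ)]
      exact h2 σ hσ))
    (fun x hx => ⟨mem_NA.2 (g4.neg _ (mem_NA.1 hx)).1, (g4.neg _ (mem_NA.1 hx)).2⟩)
    (fun x hx y hy => g4.add _ _ (mem_NA.1 hx) (mem_NA.1 hy)) (sh_GK C hK) eJ
    fun i => ⟨h.mem n i, uA i, u1 i, h.eq n i, fun hi => by rw [h.zero n i hi, smul_zero]⟩
  simp only [coe_two] at k1 k2
  have key : ∀ i, (2 : ℤ) • X n i ∈ NA O → u i ∈ NA O →
      (cq d φ = 1 → 2 * κ (2 • (X n i : Pt)) = 0) →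
      L11 d O φ (fun σ => ((sys C).coc (X n i) σ : Pt))
        (if 2 * κ (2 • (X n i : Pt)) = 0 then 0 else 1) ((if κ (u i) = 0 then 0 else 1) +
          if cq d φ = 1 ∧ κ (2 • (X n i : Pt)) ≠ 0 then 1 else 0) := fun i a1 a2 a3 =>
    hM d O φ _ κ _ (X n i) (u i) _ _ g4 c1 (coe_two (X n i) ▸ mem_NA.1 a1) (mem_NA.1 a2)
      (fun σ hσ => (h.iner i p11 hO hσ q11 C.rd₁.n11.symm C.rd₂.n11.symm n11).2)
      (congrArg Subtype.val (u2 i)) (by
        rw [← coe_two, ← coe_two]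
        exact congrArg Subtype.val (u1 i)) a3 (by split_ifs with e <;> simp [e]) rfl
  by_cases hr : rx d
  · have e := c2 hr
    obtain ⟨m0, m1, m2, m3⟩ := k2 e (j2 (eps_two hr))
    refine ⟨_, _, fun i => key i (m0 i).1 (m0 i).2 (by simp [e]), fun _ => ⟨?_, ?_, fun i => ?_⟩,
      fun z => absurd hr z⟩
    · simp [e, m1]
    · simp [e, m2]
    · simp only [e, m3, show ¬ (-1 : ℤ) = 1 by decide, false_and, if_false, add_zero]
      generalize κ (2 • (X n (i + 1) : Pt)) = x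
      generalize κ (2 • (X n i : Pt)) = y
      revert x y
      decide
  · have e := c3 hr
    obtain ⟨m0, m1, m2, m3⟩ := k1 e (j1 (eps_one h11 hr))
    refine ⟨_, _, fun i => key i (m0 i).1 (m0 i).2 fun _ => m1 i, fun z => absurd z hr,
      fun _ => ⟨fun i => if_pos (m1 i), ?_⟩⟩
    rw [tele _ (fun i => if κ (2 • (X n i : Pt)) = 0 then 0 else 1) (by simp [e, m2])
      fun i => by simp [e, m3]]
    have z : u (M / 2 + 1) = 0 := (sys C).tf _ (uA _) (by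
      rw [u1, h.zero n _ (Nat.lt_succ_self _)]
      simp)
    rw [← m3, z]
    exact if_pos k0

theorem XS.atd (h : XS C M X) {n : Finset ℕ} {l : ℕ} {O : ValuationSubring ℂ} {σ φ : G} {η : ℤ}
    {t : ℂ} (hn : KnI m q c n) (hl : l.Prime) (hd : (l : ℤ) ∣ c) (hnr : nr l ≠ 0) (hO : Ov O l)
    (hσ : Frob O 1 σ) (hφ : Frob O l φ) (hs : t ^ 2 = d) (e1 : σ t = -t) (e2 : φ t = η * t) :
    ∃ Z V : ℕ → Pt, (∀ i, 2 • Z i = 0 ∧ 2 • V i = ((sys C).coc (X n i) σ : Pt) ∧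
        ((sys C).coc (X n i) φ : Pt) = φ • V i - η • V i + Z i) ∧
      (nr l = 3 → Z 0 = 0 ∧ ∀ i, Z (i + 1) = ((sys C).coc (X n i) σ : Pt)) ∧
      (nr l = 1 → φ • Z 0 = Z 0 ∧ ∀ i, φ • Z (i + 1) - Z (i + 1) = ((sys C).coc (X n i) σ : Pt)) := by
  obtain ⟨l2, l11⟩ := fam_ne C.td.fam hd
  have L := h.lev
  have xA := h.mem
  have xQ := h.eq
  have hb : ∀ i, i ≤ M / 2 → 2 * i + M % 2 + 2 * (M / 2 - i) = M := fun i hi => by omega
  obtain ⟨J, j1, j3, hD⟩ := atD C hn hl hd l2 l11 hO hσ hφ hs e1 e2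
  obtain ⟨hty, ht⟩ := (rA.2 l O hl l2 l11 hO).2.2.2.2.2.2
  obtain ⟨t3, t1, -⟩ := ht φ hφ
  have ty3 : nr l = 3 → (∀ v : AlgS rA.1, (2 : ℤ) • v = 0 → φ • v = v) ∧
      ∃ u', Odd u' ∧ J = 2 * u' := fun h =>
    ⟨fun v hv => Subtype.ext (t3.1 h v.1 ((two_iff v).1 hv)), j3 h⟩
  have ty1 : nr l = 1 → (∀ v : AlgS rA.1, (2 : ℤ) • v = 0 → φ • φ • v = v) ∧ Odd J := fun h =>
    ⟨fun v hv => Subtype.ext ((t1.1 h).1 v.1 ((two_iff v).1 hv)), j1 h⟩
  have tp : ∀ i, M / 2 ≤ i → (sys C).coc (X n i) σ = 0 := by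
    intro i hi
    rcases hi.eq_or_lt with rfl | hi
    · refine hD.top L ?_ ?_
      · rcases hty with h | h | h
        exacts [absurd h hnr, Or.inr (ty1 h), Or.inl (ty3 h)]
      · have := xQ n (M / 2) le_rfl
        rwa [Nat.sub_self, pow_zero, one_smul, Nat.div_add_mod] at this
    · exact h.top n σ hi
  have key : ∀ i, ∃ Z V : AlgS rA.1, (2 : ℤ) • Z = 0 ∧ (2 : ℤ) • V = (sys C).coc (X n i) σ ∧
      (sys C).coc (X n i) φ = φ • V - η • V + Z ∧
      (nr l = 3 → (i = 0 → Z = 0) ∧ ∀ i', i = i' + 1 → Z = (sys C).coc (X n i') σ) ∧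
      (nr l = 1 → (i = 0 → φ • Z = Z) ∧
        ∀ i', i = i' + 1 → φ • Z - Z = (sys C).coc (X n i') σ) := by
    intro i
    by_cases hi : i ≤ M / 2
    · obtain ⟨V, hV⟩ := exists_half ((sys C).coc (X n i) σ)
      obtain ⟨Z, hZ⟩ : ∃ Z, (sys C).coc (X n i) φ = φ • V - η • V + Z :=
        ⟨_, (add_sub_cancel _ _).symm⟩
      refine ⟨Z, V, ?_⟩
      rcases i with _ | i
      · obtain ⟨m1, m2, m3⟩ := hD.main L (hb 0 hi) (S2 := 0) (xA n 0) (xQ n 0 hi) (by simp)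
          (by rw [Sys.Qm, if_neg (by omega)]; simp) hV hZ
        rw [(sys C).coc_zero] at m2 m3
        exact ⟨m1, hV, hZ, fun h => ⟨fun _ => m2 (ty3 h).1 (ty3 h).2, fun _ e => by omega⟩,
          fun h => ⟨fun _ => sub_eq_zero.1 (m3 (ty1 h).1 (ty1 h).2), fun _ e => by omega⟩⟩
      · obtain ⟨m1, m2, m3⟩ := hD.main L (hb _ hi) (S2 := X n i) (xA n _) (xQ n _ hi) (xA n i)
          (by
            have := xQ n i (by omega)
            rw [show M / 2 - i = M / 2 - (i + 1) + 1 by omega] at this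
            rw [this, show 2 * (i + 1) + M % 2 = 2 * i + M % 2 + 2 by omega, Sys.Qm_add]) hV hZ
        exact ⟨m1, hV, hZ,
          fun h => ⟨fun e => by omega, fun i' e => by
            obtain rfl : i = i' := by omega
            exact m2 (ty3 h).1 (ty3 h).2⟩,
          fun h => ⟨fun e => by omega, fun i' e => by
            obtain rfl : i = i' := by omega
            exact m3 (ty1 h).1 (ty1 h).2⟩⟩
    · refine ⟨0, 0, by simp, by simp [h.top n σ (not_le.1 hi)], by simp [h.top n φ (not_le.1 hi)],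
        fun _ => ⟨fun _ => rfl, fun i' e => (tp i' (by omega)).symm⟩,
        fun _ => ⟨fun _ => smul_zero _, fun i' e => ?_⟩⟩
      rw [tp i' (by omega)]; simp
  choose Z V k1 k2 k3 k4 k5 using key
  refine ⟨fun i => (Z i).1, fun i => (V i).1, fun i => ⟨(two_iff _).1 (k1 i), ?_,
    congrArg Subtype.val (k3 i)⟩, fun h => ⟨congrArg Subtype.val ((k4 0 h).1 rfl),
    fun i => congrArg Subtype.val ((k4 (i + 1) h).2 i rfl)⟩,
    fun h => ⟨congrArg Subtype.val ((k5 0 h).1 rfl),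
    fun i => congrArg Subtype.val ((k5 (i + 1) h).2 i rfl)⟩⟩
  rw [← coe_two, k2]

variable (C)

theorem ks (hN : N11Stmt) (hG : G11Stmt) (hM : M11Stmt) (hE : KEStmt) :
    ∃ M X, XS C M X ∧ KS q d c r₁ r₂ m (M / 2) fun n i σ => ((sys C).coc (X n i) σ : Pt) := by
  obtain ⟨M, hle, L, n0, b0, s0, h0, hne⟩ := (sys C).exists_lev (base C)
    (by have := C.hK; omega) (by have := C.hm; omega)
  have hex : ∀ (n : Finset ℕ) (i : ℕ), ∃ x : AlgS rA.1, (2 : ℤ) • x ∈ (sys C).A ∧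
      (i ≤ M / 2 → (2 : ℤ) ^ (M / 2 - i) • (2 : ℤ) • x = (sys C).Q n (2 * i + M % 2)) ∧
      (M / 2 < i → x = 0) := by
    intro n i
    by_cases hi : i ≤ M / 2
    · obtain ⟨u, hu, e⟩ := (sys C).D_anti (s := M / 2 - i) (by omega) (L.hM n (2 * i + M % 2))
      obtain ⟨x, rfl⟩ := exists_half u
      exact ⟨x, hu, fun _ => e.symm, fun h => absurd hi (by omega)⟩
    · exact ⟨0, by simp, fun h => absurd h hi, fun _ => rfl⟩
  choose X xA xQ x0 using hex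
  have h : XS C M X := ⟨L, hle, xA, xQ, x0⟩
  refine ⟨M, X, h, by omega, fun n i σ hi => by rw [h.top n σ hi]; rfl,
    fun n i _ => ⟨fun σ => (two_iff _).1 ((h.inv n i).two σ),
      fun σ τ => congrArg Subtype.val ((h.inv n i).mul σ τ), ?_⟩, ?_,
    fun n i v O _ hv hO vq v1 v2 vn => ⟨_, (X n i).2, fun σ hσ => h.iner i hv hO hσ vq v1 v2 vn⟩,
    fun n l O σ φ η t hn hl hd hnr hO hσ hφ hs e1 e2 => h.atd hn hl hd hnr hO hσ hφ hs e1 e2,
    fun n O φ hn h11 hO hφ hc => h.el hN hG hM hE hn h11 hO hφ hc, ?_⟩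
  · refine ⟨{xc (X n i).1, yc (X n i).1}, ?_, fun σ hσ => ?_⟩
    · intro x hx
      rcases Finset.mem_insert.1 hx with rfl | hx
      · exact (X n i).2.1
      · rw [Finset.mem_singleton.1 hx]; exact (X n i).2.2
    · have : σ • X n i = X n i := Subtype.ext (act_ext (smul_eq_zero' _ _)
        ((xc_smul _ _).trans (hσ _ (by simp))) ((yc_smul _ _).trans (hσ _ (by simp))))
      rw [(sys C).coc_stab this]; rfl
  · have hn0 : KnI m q c n0 := by
      by_contra h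
      apply hne
      have : (sys C).Q n0 b0 = 0 := YY_neg C h _
      rw [this]; exact AddSubgroup.zero_mem _
    refine ⟨n0, b0 / 2, hn0, fun ⟨T, t1, t2⟩ => hne ?_⟩
    have e := xQ n0 (b0 / 2) (by omega)
    rw [show 2 * (b0 / 2) + M % 2 = b0 by omega, show M / 2 - b0 / 2 = s0 by omega] at e
    obtain ⟨T', hT'⟩ : ∃ T' : AlgS rA.1, T'.1 = T := ⟨⟨T, alg_of_two rA.1 t1⟩, rfl⟩
    have t3 : (2 : ℤ) • T' = 0 := (two_iff _).2 (hT' ▸ t1)
    have hA : X n0 (b0 / 2) - T' ∈ (sys C).A := by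
      intro σ h1 h2 h5
      have h3 := (sys C).coc_fix (xA n0 (b0 / 2) σ h1 h2 h5)
      have h4 : (sys C).coc (X n0 (b0 / 2)) σ = σ • T' - T' := Subtype.ext (by
        have := t2 σ
        rw [← hT'] at this
        exact this)
      rw [h4] at h3
      rw [smul_sub]
      generalize σ • T' = y at h3 ⊢
      generalize σ • X n0 (b0 / 2) = z at h3 ⊢
      linear_combination (norm := module) -h3
    refine ⟨_, hA, ?_⟩
    rw [← e]
    linear_combination (norm := module) (2 : ℤ) ^ s0 • t3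
  · intro n i p O σ φ t hn hp pn hO hσ hφ hs e1
    by_cases hi : i ≤ M / 2
    · obtain ⟨m1, m2⟩ := (atP C hn hp pn hO hσ hφ hs e1).main L (s := M / 2 - i) (by omega) (xA n i)
        (xQ n i hi) (xA _ i) (xQ _ i hi)
      exact ⟨congrArg Subtype.val m1, congrArg Subtype.val m2⟩
    · simp only [h.top _ _ (not_le.1 hi)]
      exact ⟨g0 φ, rfl⟩

end K

open K in
theorem k_thm (hN : N11Stmt) (hG : G11Stmt) (hM : M11Stmt) (hE : KEStmt) : KStmt := by
  intro q d δ c K r₁ r₂ m s k W a S ρ ν j C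
  obtain ⟨M, X, h, hk⟩ := ks C hN hG hM hE
  have hm := C.hm
  have hsq := fun n => cq_sq (twA q d n)
  have hex : ∀ n, ∃ T : AlgS rA.1, (2 : ℤ) ^ (TT d c + 1 + s) • T = (sys C).Q n 0 ∧
      (M / 2 = TT d c → ∀ σ, 2 ^ s • ((sys C).cx (cq (twA q d n)) (TT d c + 1 + s) T σ : Pt) =
        ((sys C).coc (X n 0) σ : Pt)) := by
    intro n
    by_cases e : M / 2 = TT d c
    · have x2 := h.eq n 0 (Nat.zero_le _)
      rw [show 2 * 0 + M % 2 = 0 by have := h.le; omega, Nat.sub_zero, e] at x2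
      obtain ⟨T, hT⟩ := exists_div s (X n 0)
      have e1 : (2 : ℤ) ^ (s + 1) • T = (2 : ℤ) • X n 0 := by rw [pow_succ', mul_smul, hT]
      have e2 : (2 : ℤ) ^ TT d c • (2 : ℤ) ^ (s + 1) • T = (sys C).Q n 0 := by rw [e1, x2]
      have inv : (sys C).InvX (cq (twA q d n)) (s + 1) T := (sys C).invX_of
        (e1 ▸ h.mem n 0) e2 (by omega) (hsq n) (invQ C n)
      have e3 : TT d c + 1 + s = TT d c + (s + 1) := by omega
      refine ⟨T, by rw [e3, pow_add, mul_smul, e2], fun _ σ => ?_⟩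
      rw [e3, level inv, ← coe_pow, inv.half (cq_or _ _), hT]
    · obtain ⟨T, hT⟩ := exists_div (TT d c + 1 + s) ((sys C).Q n 0)
      exact ⟨T, hT, fun h1 => absurd h1 e⟩
  choose T hT hc using hex
  have hT0 : ∀ n, (2 : ℤ) ^ 0 • (2 : ℤ) ^ (TT d c + 1 + s) • T n = (sys C).Q n 0 := fun n => by
    rw [pow_zero, one_smul, hT]
  have inv : ∀ n, (sys C).InvX (cq (twA q d n)) (TT d c + 1 + s) (T n) := fun n =>
    (sys C).invX_of (hT n ▸ (sys C).Q_mem n 0) (hT0 n) (by omega) (hsq n) (invQ C n)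
  have fx : ∀ n σ, cq (twA q d n) σ • σ • (sys C).Q n 0 = (sys C).Q n 0 →
      ((sys C).cx (cq (twA q d n)) (TT d c + 1 + s) (T n) σ : Pt) =
        tw (twA q d n) σ (T n) - T n := fun n σ h =>
    congrArg Subtype.val ((sys C).cx_fix (by rwa [hT]))
  refine ⟨M / 2, _, fun n σ => ((sys C).cx (cq (twA q d n)) (TT d c + 1 + s) (T n) σ : Pt),
    fun n => T n, hk, ⟨fun n _ => ⟨fun σ => ?_,
      fun σ τ => congrArg Subtype.val ((inv n).mul (cq_mul _ σ τ)), ?_⟩, fun n => (T n).2,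
    fun n v O σ _ hv vn hO hσ hG => fx n σ (fixQ C hG fun p hp =>
      C.ht.iner v O σ p hv hO hσ hG fun e => vn (e ▸ hp)), fun v hv => ?_,
    fun σ => fx ∅ σ (fixQ0 C σ), fun n p O σ φ hn hp pn hO hσ hφ e1 => ?_⟩,
    fun e n _ σ => hc n e σ⟩
  · rw [← coe_pow, (inv n).tor]; rfl
  · refine ⟨{xc (T n).1, yc (T n).1, rt (twA q d n)}, fun z hz => ?_, fun σ hσ => ?_⟩
    · simp only [Finset.mem_insert, Finset.mem_singleton] at hz
      rcases hz with rfl | rfl | rfl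
      exacts [(T n).2.1, (T n).2.2, rt_alg _]
    · have : σ • T n = T n := Subtype.ext (act_ext (smul_eq_zero' _ _)
        ((xc_smul _ _).trans (hσ _ (by simp))) ((yc_smul _ _).trans (hσ _ (by simp))))
      rw [(sys C).cx_stab (cq_eq_one.2 (hσ _ (by simp))) this]; rfl
  · obtain ⟨O, φ, h1, h2, h3, h4⟩ := C.gw v hv
    exact ⟨O, φ, h1, h2, fun n hn hg => fx n φ (fixQ C h3 fun p hp => h4 p (hn p hp) (hg p hp))⟩
  · obtain ⟨⟨o, ho, m1⟩, m2⟩ := (atP C hn hp pn hO hσ hφ (rt_sq _) (rt_neg e1)).mainX (by omega)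
      (inv n) (hT0 n) (inv _) (hT0 _) ((tw_GK C _ (ine_om C.qd.qf.pr C.qd.qf.m4 hp.pr hp.nq hO
        hσ)).trans (cq_ine hp.pr hp.n2 hO (kol_nd C hp) hσ)) (cq_two _ _) (cq_two _ _)
    exact ⟨⟨o, ho, congrArg Subtype.val m1⟩, congrArg Subtype.val m2⟩

end Pool.Agent.Lib.MP_d6ddbd_nt.KA
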