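import Pool.Agent.Lib.MP_d6ddbd_nt.KA.Stmt

/-! The relations between the leading forms at the prime eleven. -/

set_option autoImplicit false
set_option maxSynthPendingDepth 3

namespace Pool.Agent.Lib.MP_d6ddbd_nt.KA

namespace KE

open Finset
open Pool.Agent.Lib.MP_d6ddbd_nt.K11
open Pool.Agent.Lib.MP_d6ddbd_nt.K11.KK

variable {G E P : Type*} [Group G] [AddCommGroup E] [DistribMulAction G E] [DecidableEq P]
  {k m : ℕ} (H : Sys G E P k m)

theorem shiftP (h8 : ∀ p, (8 : ℤ) ∣ H.a p) (u : ZMod (2 ^ k) → ℤ) {s : ℕ}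
    (hu : ∀ t, H.Y t (tf2 u t) ∈ H.D s) (n : Finset P) (j : P → ℤ) :
    H.Y n (fun x => u x.1 * ∏ p ∈ n, (((x.2 p).val : ℤ) + j p)) - H.Y n (tf2 u n) ∈
      H.D (s + 3) := by
  have h1 : (fun x : Co P k m => u x.1 * ∏ p ∈ n, (((x.2 p).val : ℤ) + j p)) =
      ∑ t ∈ n.powerset, (∏ p ∈ n \ t, j p) • tf2 u t := by
    funext x
    rw [Finset.prod_add, Finset.mul_sum, Finset.sum_apply]
    refine Finset.sum_congr rfl fun t _ => ?_
    simp only [Pi.smul_apply, smul_eq_mul, tf2, ps]; ring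
  rw [h1, map_sum, ← Finset.add_sum_erase _ _ (Finset.mem_powerset_self n)]
  simp only [sdiff_self, Finset.bot_eq_empty, Finset.prod_empty, one_smul, add_sub_cancel_left]
  refine AddSubgroup.sum_mem _ fun t ht => ?_
  rw [Finset.mem_erase, Finset.mem_powerset] at ht
  rw [map_zsmul]
  apply AddSubgroup.zsmul_mem
  have h2 := H.norm_iter t (dep_tf2 u t) (n \ t) sdiff_disjoint
  rw [Finset.sdiff_union_of_subset ht.2] at h2
  rw [h2]
  apply H.D_smul _ (hu t)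
  obtain ⟨p, hp⟩ : (n \ t).Nonempty := by
    rw [Finset.sdiff_nonempty]
    exact fun h => ht.1 (Finset.Subset.antisymm ht.2 h)
  exact (by simpa using h8 p : (2 : ℤ) ^ 3 ∣ H.a p).trans (Finset.dvd_prod_of_mem _ hp)

theorem sh_Q (h8 : ∀ p, (8 : ℤ) ∣ H.a p) {g : G} {e : ℤ} {c : Co P k m} (h : Sh H.Y g e c)
    {J : ℤ} (hJ : (J : ZMod (2 ^ k)) = c.1) {s b : ℕ} (hs : ∀ t i, i ≤ b → H.Q t i ∈ H.D s)
    (hk : s + 3 + b ≤ k) (hm : s + 3 ≤ m) (n : Finset P) :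
    g • H.Q n b - e • H.QS n b J ∈ H.D (s + 3) := by
  obtain ⟨u, hu⟩ : ∃ u : ZMod (2 ^ k) → ℤ,
      u = fun z => ∑ i ∈ range (b + 1), Ring.choose J i * ph (b - i) z := ⟨_, rfl⟩
  have h0 : ∀ t, H.QS t b J = H.Y t (tf2 u t) := fun t => by rw [hu, H.QS_eq]
  have h1 : ∀ t, H.Y t (tf2 u t) ∈ H.D s := by
    intro t
    rw [← h0]
    exact AddSubgroup.sum_mem _ fun i _ => AddSubgroup.zsmul_mem _ (hs t _ (Nat.sub_le _ _)) _
  have h2 := shiftP H h8 u h1 n (fun p => ((c.2 p).val : ℤ))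
  have h3 := H.Y_congr (N := s + 3) n (f := fun x => tf2 (ph b) n (x + c))
    (f' := fun x => u x.1 * ∏ p ∈ n, (((x.2 p).val : ℤ) + ((c.2 p).val : ℤ))) (by
      intro x
      rw [hu]
      apply Sys.mul_dvd
      · apply choose_shift (k := k) _ hk
        simpa using val_add_dvd x.1 c.1 J hJ
      · apply Sys.prod_dvd
        intro p
        refine (pow_dvd_pow 2 hm).trans ?_
        simpa using val_add_dvd (x.2 p) (c.2 p) ((c.2 p).val : ℤ) (by simp))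
  have h4 := (H.D (s + 3)).add_mem h3 h2
  rw [sub_add_sub_cancel, ← h0] at h4
  rw [Sys.Q, h n _ (dep_tf2 _ _), ← smul_sub]
  exact AddSubgroup.zsmul_mem _ h4 _

theorem QS_five (n : Finset P) (b : ℕ) (J : ℤ) {s : ℕ} (h : ∀ i, 5 ≤ i → H.Qm n b i ∈ H.D s) :
    H.QS n b J - (H.Q n b + J • H.Qm n (b + 3) 4 + Ring.choose J 2 • H.Qm n (b + 2) 4 +
      Ring.choose J 3 • H.Qm n (b + 1) 4 + Ring.choose J 4 • H.Qm n b 4) ∈ H.D s := by
  have h1 : H.QS n b J = ∑ i ∈ range (b + 5), Ring.choose J i • H.Qm n b i := by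
    unfold Sys.QS
    rw [← Finset.sum_subset (s₁ := range (b + 1)) (s₂ := range (b + 5)) (by simp)]
    · refine Finset.sum_congr rfl fun i hi => ?_
      rw [Sys.Qm, if_pos (by simpa [Nat.lt_succ_iff] using hi)]
    · intro i _ hi
      rw [Sys.Qm, if_neg (by simpa [Nat.lt_succ_iff] using hi), smul_zero]
  have q : ∀ i j, i + j = 4 → H.Qm n (b + j) 4 = H.Qm n b i := by
    intro i j hij
    unfold Sys.Qm
    by_cases hi : i ≤ b
    · rw [if_pos hi, if_pos (by omega)]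
      congr 1
      omega
    · rw [if_neg hi, if_neg (by omega)]
  rw [h1, Finset.sum_range_succ', Finset.sum_range_succ', Finset.sum_range_succ',
    Finset.sum_range_succ', Finset.sum_range_succ', q 1 3 rfl, q 2 2 rfl, q 3 1 rfl]
  simp only [zero_add, Ring.choose_zero_right, Ring.choose_one_right, one_smul, Sys.Qm_zero,
    Nat.reduceAdd]
  have h2 : ∑ i ∈ range b, Ring.choose J (i + 1 + 1 + 1 + 1 + 1) •
      H.Qm n b (i + 1 + 1 + 1 + 1 + 1) ∈ H.D s :=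
    AddSubgroup.sum_mem _ fun i _ => AddSubgroup.zsmul_mem _ (h _ (by omega)) _
  have e : ∀ a x y z v w : E, a + w + v + z + y + x - (x + y + z + v + w) = a :=
    fun a x y z v w => by abel
  rw [e]
  exact h2

theorem sat {N : AddSubgroup E} (hN : ∀ x ∈ H.A, (2 : ℤ) • x ∈ N → x ∈ N) (s : ℕ) {x : E}
    (hx : x ∈ H.A) (h : (2 : ℤ) ^ s • x ∈ N) : x ∈ N := by
  induction s with
  | zero => simpa using h
  | succ s ih =>
    apply ih
    apply hN _ (H.A.zsmul_mem hx _)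
    rwa [smul_smul, ← pow_succ']

/-- The standing hypotheses, with the divided points `r j` and an additive `K` on `N`. -/
structure Dat (M : ℕ) (N : AddSubgroup E) (κ : E → ZMod 4) (φ : G) (η J : ℤ) (n : Finset P)
    (r : ℕ → E) : Prop where
  L : H.Lev M
  hk : M + 9 ≤ k
  hm : (M + 1) / 2 + 3 ≤ m
  h8 : ∀ p, (8 : ℤ) ∣ H.a p
  hY : ∀ f, Dep n f → H.Y n f ∈ N
  hN : ∀ x ∈ H.A, (2 : ℤ) • x ∈ N → x ∈ N
  hφ : ∀ x ∈ N, φ • x ∈ N ∧ κ (φ • x) = -κ x
  add : ∀ x ∈ N, ∀ y ∈ N, κ (x + y) = κ x + κ y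
  sh : ∃ c, Sh H.Y φ η c ∧ (J : ZMod (2 ^ k)) = c.1
  sg : η * η = 1
  rA : ∀ j, r j ∈ H.A
  re : ∀ j, H.Qm n j 4 = (2 : ℤ) ^ ((M + 4 - j + 1) / 2) • r j

variable {H} {M : ℕ} {N : AddSubgroup E} {κ : E → ZMod 4} {φ : G} {η J : ℤ} {n : Finset P}
  {r : ℕ → E}

theorem Dat.zero (D : Dat H M N κ φ η J n r) : κ 0 = 0 := by
  have := D.add 0 N.zero_mem 0 N.zero_mem
  rw [add_zero] at this
  linear_combination -this

theorem Dat.smul (D : Dat H M N κ φ η J n r) (c : ℤ) {x : E} (hx : x ∈ N) :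
    κ (c • x) = c * κ x := by
  let K : N →+ ZMod 4 :=
    { toFun := fun y => κ y
      map_zero' := D.zero
      map_add' := fun a b => D.add _ a.2 _ b.2 }
  have := map_zsmul K c ⟨x, hx⟩
  rw [zsmul_eq_mul] at this
  exact this

theorem Dat.QN (D : Dat H M N κ φ η J n r) (b : ℕ) : H.Q n b ∈ N := D.hY _ (dep_tf2 _ _)

theorem Dat.rN (D : Dat H M N κ φ η J n r) (j : ℕ) : r j ∈ N := by
  apply sat H D.hN _ (D.rA j)
  rw [← D.re, Sys.Qm]
  split_ifs
  · exact D.QN _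
  · exact N.zero_mem

theorem Dat.low (D : Dat H M N κ φ η J n r) {j : ℕ} (hj : j < 4) : κ (r j) = 0 := by
  have := D.re j
  rw [Sys.Qm, if_neg (by omega)] at this
  rw [H.tf_pow _ (D.rA j) this.symm, D.zero]

theorem Dat.dif (D : Dat H M N κ φ η J n r) {x : E} (hx : x ∈ N) :
    η • φ • x - x ∈ N ∧ κ (η • φ • x - x) = -(η + 1) * κ x := by
  obtain ⟨h1, h2⟩ := D.hφ x hx
  refine ⟨N.sub_mem (N.zsmul_mem h1 _) hx, ?_⟩
  rw [sub_eq_add_neg, ← neg_one_zsmul, D.add _ (N.zsmul_mem h1 _) _ (N.zsmul_mem hx _),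
    D.smul _ h1, D.smul _ hx, h2]
  push_cast
  ring

/-- The five term relation. -/
theorem Dat.rel (D : Dat H M N κ φ η J n r) (b s e t e1 e2 e3 e4 : ℕ) (hb : b ≤ M + 4)
    (h0 : (M - b + 1) / 2 = s) (h1 : (M + 1 - b + 1) / 2 = s + e + e1)
    (h2 : (M + 2 - b + 1) / 2 = s + e + e2) (h3 : (M + 3 - b + 1) / 2 = s + e + e3)
    (h4 : (M + 4 - b + 1) / 2 = s + e + e4) (h5 : s + e + t ≤ (M + 5 - b + 1) / 2)
    (ht : e + t ≤ 3) {y : E} (hy : y ∈ H.A)
    (ey : (2 : ℤ) ^ e • y = η • φ • r (b + 4) - r (b + 4)) :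
    ∃ z : ZMod 4, κ y = J * 2 ^ e1 * κ (r (b + 3)) + (Ring.choose J 2 : ℤ) * 2 ^ e2 * κ (r (b + 2)) +
      (Ring.choose J 3 : ℤ) * 2 ^ e3 * κ (r (b + 1)) + (Ring.choose J 4 : ℤ) * 2 ^ e4 * κ (r b) +
      2 ^ t * z := by
  obtain ⟨c, hc, hJ⟩ := D.sh
  have a1 := H.D_anti (s := s + e + t) (by omega) (sh_Q H D.h8 hc hJ (D.L.low b)
    (by have := D.hk; omega) (by have := D.hm; omega) n)
  have a2 := QS_five H n b J (s := s + e + t) fun i hi => D.L.Qm_mem n b i (by omega)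
  have a3 := (H.D (s + e + t)).add_mem ((H.D (s + e + t)).zsmul_mem a1 η) a2
  have q0 := D.re (b + 4)
  have q1 := D.re (b + 3)
  have q2 := D.re (b + 2)
  have q3 := D.re (b + 1)
  have q4 := D.re b
  rw [H.Qm_add, show (M + 4 - (b + 4) + 1) / 2 = s by omega] at q0
  rw [show (M + 4 - (b + 3) + 1) / 2 = s + e + e1 by omega] at q1
  rw [show (M + 4 - (b + 2) + 1) / 2 = s + e + e2 by omega] at q2
  rw [show (M + 4 - (b + 1) + 1) / 2 = s + e + e3 by omega] at q3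
  rw [h4] at q4
  obtain ⟨X, hX⟩ : ∃ X, X = (J * 2 ^ e1) • r (b + 3) + (Ring.choose J 2 * 2 ^ e2) • r (b + 2) +
    (Ring.choose J 3 * 2 ^ e3) • r (b + 1) + (Ring.choose J 4 * 2 ^ e4) • r b := ⟨_, rfl⟩
  have XA : X ∈ H.A := hX ▸ H.A.add_mem (H.A.add_mem (H.A.add_mem (H.A.zsmul_mem (D.rA _) _)
    (H.A.zsmul_mem (D.rA _) _)) (H.A.zsmul_mem (D.rA _) _)) (H.A.zsmul_mem (D.rA _) _)
  have n1 := N.zsmul_mem (D.rN (b + 3)) (J * 2 ^ e1)
  have n2 := N.zsmul_mem (D.rN (b + 2)) (Ring.choose J 2 * 2 ^ e2)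
  have n3 := N.zsmul_mem (D.rN (b + 1)) (Ring.choose J 3 * 2 ^ e3)
  have n4 := N.zsmul_mem (D.rN b) (Ring.choose J 4 * 2 ^ e4)
  have XN : X ∈ N := hX ▸ N.add_mem (N.add_mem (N.add_mem n1 n2) n3) n4
  have a4 : (2 : ℤ) ^ (s + e) • (y - X) ∈ H.D (s + e + t) := by
    convert a3 using 1
    rw [smul_sub η, smul_smul η η, D.sg, one_smul, q0, q1, q2, q3, q4, gz, hX, smul_sub, pow_add,
      mul_smul, ey]
    generalize φ • r (b + 4) = v
    simp only [pow_add]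
    module
  obtain ⟨w, hw, ew⟩ := H.D_cancel (H.A.sub_mem hy XA) a4
  have yN : y ∈ N := sat H D.hN e hy (ey ▸ (D.dif (D.rN _)).1)
  have wN : w ∈ N := sat H D.hN t hw (ew ▸ N.sub_mem yN XN)
  refine ⟨κ w, ?_⟩
  rw [show y = X + (2 : ℤ) ^ t • w by rw [← ew]; abel, D.add _ XN _ (N.zsmul_mem wN _), hX,
    D.add _ (N.add_mem (N.add_mem n1 n2) n3) _ n4, D.add _ (N.add_mem n1 n2) _ n3,
    D.add _ n1 _ n2, D.smul _ wN, D.smul _ (D.rN _), D.smul _ (D.rN _), D.smul _ (D.rN _),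
    D.smul _ (D.rN _)]
  push_cast
  ring

/-- The five term relation without a half. -/
theorem Dat.rel0 (D : Dat H M N κ φ η J n r) (b s t e1 e2 e3 e4 : ℕ) (hb : b ≤ M + 4)
    (h0 : (M - b + 1) / 2 = s) (h1 : (M + 1 - b + 1) / 2 = s + e1)
    (h2 : (M + 2 - b + 1) / 2 = s + e2) (h3 : (M + 3 - b + 1) / 2 = s + e3)
    (h4 : (M + 4 - b + 1) / 2 = s + e4) (h5 : s + t ≤ (M + 5 - b + 1) / 2) (ht : t ≤ 3) :
    ∃ z : ZMod 4, -((η : ZMod 4) + 1) * κ (r (b + 4)) = J * 2 ^ e1 * κ (r (b + 3)) +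
      (Ring.choose J 2 : ℤ) * 2 ^ e2 * κ (r (b + 2)) +
      (Ring.choose J 3 : ℤ) * 2 ^ e3 * κ (r (b + 1)) + (Ring.choose J 4 : ℤ) * 2 ^ e4 * κ (r b) +
      2 ^ t * z := by
  rw [← (D.dif (D.rN (b + 4))).2]
  exact D.rel b s 0 t e1 e2 e3 e4 hb h0 h1 h2 h3 h4 h5 (by omega)
    (H.A.sub_mem (H.A.zsmul_mem (H.stab _ _ (D.rA _)) _) (D.rA _)) (by simp)

theorem ch3 (J : ℤ) : 6 * Ring.choose J 3 = J * (J - 1) * (J - 2) := by
  have := fact_mul_choose J 3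
  simp [descPochhammer_succ_right, Nat.factorial] at this
  simpa using this

theorem ch4 (J : ℤ) : 24 * Ring.choose J 4 = J * (J - 1) * (J - 2) * (J - 3) := by
  have := fact_mul_choose J 4
  simp [descPochhammer_succ_right, Nat.factorial] at this
  simpa using this

theorem four : (4 : ZMod 4) = 0 := rfl

theorem ch_four {J : ℤ} (h : J % 8 = 4) : (J : ZMod 4) = 0 ∧
    ((Ring.choose J 2 : ℤ) : ZMod 4) = 2 ∧ ((Ring.choose J 3 : ℤ) : ZMod 4) = 0 ∧
    2 * ((Ring.choose J 4 : ℤ) : ZMod 4) = 2 := by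
  obtain ⟨a, rfl⟩ : ∃ a, J = 8 * a + 4 := ⟨J / 8, by omega⟩
  have c2 : Ring.choose (8 * a + 4) 2 = (4 * a + 2) * (8 * a + 3) := by
    have := choose_two (8 * a + 4); linarith
  have c3 : 3 * Ring.choose (8 * a + 4) 3 = 4 * ((2 * a + 1) * (8 * a + 3) * (4 * a + 1)) := by
    have := ch3 (8 * a + 4); linarith
  have c4 : 3 * Ring.choose (8 * a + 4) 4 =
      (2 * a + 1) * (8 * a + 3) * (4 * a + 1) * (8 * a + 1) := by
    have := ch4 (8 * a + 4); linarith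
  have d2 := congrArg (Int.cast : ℤ → ZMod 4) c2
  have d3 := congrArg (Int.cast : ℤ → ZMod 4) c3
  have d4 := congrArg (Int.cast : ℤ → ZMod 4) c4
  generalize Ring.choose (8 * a + 4) 2 = x at *
  generalize Ring.choose (8 * a + 4) 3 = y at *
  generalize Ring.choose (8 * a + 4) 4 = z at *
  push_cast at d2 d3 d4 ⊢
  generalize (a : ZMod 4) = a' at *
  generalize (x : ZMod 4) = x' at *
  generalize (y : ZMod 4) = y' at *
  generalize (z : ZMod 4) = z' at *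
  subst d2
  revert a' y' z'
  decide

theorem ch_two {J : ℤ} (h : J % 4 = 2) : (J : ZMod 4) = 2 ∧
    (∃ c : ZMod 4, ((Ring.choose J 2 : ℤ) : ZMod 4) = 2 * c + 1) ∧
    ((Ring.choose J 3 : ℤ) : ZMod 4) = 0 := by
  obtain ⟨a, rfl⟩ : ∃ a, J = 4 * a + 2 := ⟨J / 4, by omega⟩
  have c2 : Ring.choose (4 * a + 2) 2 = 2 * (4 * a * a + 3 * a) + 1 := by
    have := choose_two (4 * a + 2); linarith
  have c3 : 3 * Ring.choose (4 * a + 2) 3 = 4 * (a * (2 * a + 1) * (4 * a + 1)) := by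
    have := ch3 (4 * a + 2); linarith
  have d3 := congrArg (Int.cast : ℤ → ZMod 4) c3
  refine ⟨?_, ⟨((4 * a * a + 3 * a : ℤ) : ZMod 4), by rw [c2]; push_cast; ring⟩, ?_⟩
  · push_cast
    linear_combination (a : ZMod 4) * four
  · generalize Ring.choose (4 * a + 2) 3 = y at *
    push_cast at d3
    linear_combination -d3 + ((y : ZMod 4) - (a * (2 * a + 1) * (4 * a + 1))) * four

theorem Dat.even (D : Dat H M N κ φ 1 J n r) (hJ : J % 4 = 2) (j : ℕ) (hj : j ≤ M + 5) :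
    2 * κ (r j) = 0 := by
  obtain ⟨j1, ⟨c, j2⟩, j3⟩ := ch_two hJ
  induction j using Nat.strong_induction_on with
  | _ j ih =>
  by_cases h4 : j < 4
  · rw [D.low h4, mul_zero]
  obtain ⟨b, rfl⟩ : ∃ b, j = b + 4 := ⟨j - 4, by omega⟩
  have i2 := ih (b + 2) (by omega) (by omega)
  have i3 := ih (b + 3) (by omega) (by omega)
  by_cases hp : (M + b) % 2 = 0
  · obtain ⟨z, hz⟩ := D.rel0 b ((M - b) / 2) 2 1 1 2 2 (by omega) (by omega) (by omega) (by omega)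
      (by omega) (by omega) (by omega) (by omega)
    rw [j1, j2, j3] at hz
    push_cast at hz
    linear_combination -hz - (2 * c + 1) * i2 - 2 * i3 -
      (((Ring.choose J 4 : ℤ) : ZMod 4) * κ (r b) + z) * four
  · obtain ⟨z, hz⟩ := D.rel0 b ((M + 1 - b) / 2) 2 0 1 1 2 (by omega) (by omega) (by omega)
      (by omega) (by omega) (by omega) (by omega) (by omega)
    rw [j1, j2, j3] at hz
    push_cast at hz
    linear_combination -hz - (2 * c + 1) * i2 - i3 -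
      (((Ring.choose J 4 : ℤ) : ZMod 4) * κ (r b) + z) * four

theorem Dat.top (D : Dat H M N κ φ 1 J n r) (hJ : J % 4 = 2) : κ (r (M + 4)) = 0 := by
  obtain ⟨j1, ⟨c, j2⟩, j3⟩ := ch_two hJ
  have i2 := D.even hJ (M + 2) (by omega)
  have i4 := D.even hJ (M + 4) (by omega)
  have i5 := D.even hJ (M + 5) (by omega)
  obtain ⟨z, hz⟩ := D.rel0 (M + 2) 0 2 0 0 1 1 (by omega) (by omega) (by omega) (by omega)
    (by omega) (by omega) (by omega) (by omega)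
  obtain ⟨w, hw⟩ := D.rel0 (M + 4) 0 1 0 0 0 0 (by omega) (by omega) (by omega) (by omega)
    (by omega) (by omega) (by omega) (by omega)
  rw [j1, j2, j3] at hz hw
  simp only [add_assoc M, Nat.reduceAdd] at hz hw
  push_cast at hz hw
  generalize ((Ring.choose J 4 : ℤ) : ZMod 4) = d at *
  linear_combination -hz + 2 * hw - i5 - (c - d) * i4 - d * i2 +
    (κ (r (M + 8)) + κ (r (M + 7)) + c * κ (r (M + 6)) - z + w) * four

theorem Dat.tops (D : Dat H M N κ φ (-1) J n r) (hJ : J % 8 = 4) :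
    2 * κ (r (M + 4)) = 0 ∧ 2 * κ (r (M + 2)) = 0 := by
  obtain ⟨j1, j2, j3, j4⟩ := ch_four hJ
  obtain ⟨z, hz⟩ := D.rel0 (M + 2) 0 2 0 0 1 1 (by omega) (by omega) (by omega) (by omega)
    (by omega) (by omega) (by omega) (by omega)
  obtain ⟨w, hw⟩ := D.rel0 (M + 4) 0 1 0 0 0 0 (by omega) (by omega) (by omega) (by omega)
    (by omega) (by omega) (by omega) (by omega)
  rw [j1, j2, j3] at hz hw
  simp only [add_assoc M, Nat.reduceAdd] at hz hw
  push_cast at hz hw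
  generalize ((Ring.choose J 4 : ℤ) : ZMod 4) = d at *
  have h1 : 2 * κ (r (M + 4)) = 0 := by
    linear_combination -2 * hw - κ (r (M + 4)) * j4 - (κ (r (M + 6)) + w) * four
  exact ⟨h1, by linear_combination -hz - h1 - κ (r (M + 2)) * j4 - z * four⟩

/-- The link with the families `R` and `u`. -/
theorem Dat.fam (D : Dat H M N κ φ η J n r) {R u : ℕ → E}
    (h : ∀ i, R i ∈ H.A ∧ u i ∈ H.A ∧ (2 : ℤ) • u i = η • φ • R i - R i ∧
      (i ≤ M / 2 → (2 : ℤ) ^ (M / 2 - i) • R i = H.Q n (2 * i + M % 2)) ∧ (M / 2 < i → R i = 0)) :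
    (∀ i, R i ∈ N ∧ u i ∈ N) ∧ (∀ i, M / 2 < i → κ (R i) = 0 ∧ κ (u i) = 0) ∧
    ∀ i b, i ≤ M / 2 → b = 2 * i + M % 2 → κ (R i) = κ (r (b + 4)) ∧
      κ (u i) = J * κ (r (b + 3)) + (Ring.choose J 2 : ℤ) * κ (r (b + 2)) +
        (Ring.choose J 3 : ℤ) * 2 * κ (r (b + 1)) + (Ring.choose J 4 : ℤ) * 2 * κ (r b) := by
  have e1 : ∀ i, i ≤ M / 2 → R i = r (2 * i + M % 2 + 4) := by
    intro i hi
    apply H.cancel (M / 2 - i) (h i).1 (D.rA _)
    rw [(h i).2.2.2.1 hi, ← H.Qm_add n _ 4, D.re]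
    congr 2
    omega
  have e2 : ∀ i, R i ∈ N := by
    intro i
    by_cases hi : i ≤ M / 2
    · rw [e1 i hi]; exact D.rN _
    · rw [(h i).2.2.2.2 (by omega)]; exact N.zero_mem
  refine ⟨fun i => ⟨e2 i, D.hN _ (h i).2.1 ((h i).2.2.1 ▸ (D.dif (e2 i)).1)⟩, fun i hi => ?_,
    fun i b hi hb => ?_⟩
  · have h1 := (h i).2.2.2.2 hi
    have h2 := (h i).2.2.1
    rw [h1, smul_zero, smul_zero, sub_zero] at h2
    rw [h1, H.tf _ (h i).2.1 h2]
    exact ⟨D.zero, D.zero⟩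
  · have h1 := e1 i hi
    rw [← hb] at h1
    obtain ⟨z, hz⟩ := D.rel b (M / 2 - i) 1 2 0 0 1 1 (by omega) (by omega) (by omega) (by omega)
      (by omega) (by omega) (by omega) (by omega) (h i).2.1 (by rw [pow_one, ← h1, (h i).2.2.1])
    refine ⟨by rw [h1], ?_⟩
    linear_combination hz + z * four

end KE

open Pool.Agent.Lib.MP_d6ddbd_nt.K11 in
theorem ke_thm : KEStmt := by
  intro Γ E P _ _ _ _ k m M H N κ φ η J c n R u L hk hm h8 hY hN hφ add hc hJ h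
  have ex : ∀ j, ∃ x ∈ H.A, H.Qm n j 4 = (2 : ℤ) ^ ((M + 4 - j + 1) / 2) • x :=
    fun j => L.Qm_mem n j 4 le_rfl
  choose r rA re using ex
  have D : η * η = 1 → KE.Dat H M N κ φ η J n r := fun sg =>
    ⟨L, hk, hm, h8, hY, hN, hφ, add, ⟨c, hc, hJ⟩, sg, rA, re⟩
  have hρ : M % 2 < 2 := Nat.mod_lt _ two_pos
  constructor
  · rintro rfl h4
    have D := D (by norm_num)
    obtain ⟨f1, f2, f3⟩ := D.fam h
    obtain ⟨t4, t2⟩ := D.tops h4
    obtain ⟨j1, j2, j3, j4⟩ := KE.ch_four h4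
    have fR : ∀ i b, i ≤ M / 2 → b = 2 * i + M % 2 + 4 → κ (R i) = κ (r b) :=
      fun i b hi hb => hb ▸ (f3 i _ hi rfl).1
    have fu : ∀ i b, i ≤ M / 2 → b = 2 * i + M % 2 →
        κ (u i) = 2 * κ (r (b + 2)) + 2 * κ (r b) := by
      intro i b hi hb
      rw [(f3 i b hi hb).2, j1, j2, j3]
      linear_combination κ (r b) * j4
    refine ⟨f1, ?_, ?_, fun i => ?_⟩
    · rw [fu 0 _ (by omega) rfl, D.low (by omega), D.low (by omega)]
      simp
    · by_cases hi : 1 ≤ M / 2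
      · rw [fu 1 _ hi rfl, D.low (j := 2 * 1 + M % 2) (by omega), fR 0 _ (by omega) rfl]
        rw [mul_zero, add_zero]
        congr 3
        omega
      · rw [(f2 1 (by omega)).2, fR 0 (M + 4) (by omega) (by omega), t4]
    · by_cases hi : i + 2 ≤ M / 2
      · rw [fu (i + 2) _ hi rfl, fR (i + 1) (2 * (i + 2) + M % 2 + 2) (by omega) (by omega),
          fR i (2 * (i + 2) + M % 2) (by omega) (by omega)]
      rw [(f2 (i + 2) (by omega)).2]
      by_cases h1 : i + 1 = M / 2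
      · rw [fR (i + 1) (M + 4) (by omega) (by omega), fR i (M + 2) (by omega) (by omega), t4, t2,
          add_zero]
      rw [(f2 (i + 1) (by omega)).1, mul_zero, zero_add]
      by_cases h2 : i = M / 2
      · rw [fR i (M + 4) (by omega) (by omega), t4]
      · rw [(f2 i (by omega)).1, mul_zero]
  · rintro rfl h2
    have D := D (by norm_num)
    obtain ⟨f1, f2, f3⟩ := D.fam h
    have t4 := D.top h2
    obtain ⟨j1, ⟨d, j2⟩, j3⟩ := KE.ch_two h2
    have fR : ∀ i b, i ≤ M / 2 → b = 2 * i + M % 2 + 4 → κ (R i) = κ (r b) :=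
      fun i b hi hb => hb ▸ (f3 i _ hi rfl).1
    have fu : ∀ i b, i ≤ M / 2 → b = 2 * i + M % 2 → κ (u i) = κ (r (b + 2)) := by
      intro i b hi hb
      rw [(f3 i b hi hb).2, j1, j2, j3]
      linear_combination D.even h2 (b + 3) (by omega) + d * D.even h2 (b + 2) (by omega) +
        ((Ring.choose J 4 : ℤ) : ZMod 4) * D.even h2 b (by omega)
    refine ⟨f1, fun i => ?_, ?_, fun i => ?_⟩
    · by_cases hi : i ≤ M / 2
      · rw [fR i _ hi rfl]
        exact D.even h2 _ (by omega)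
      · rw [(f2 i (by omega)).1, mul_zero]
    · rw [fu 0 _ (by omega) rfl, D.low (by omega)]
    · by_cases hi : i + 1 ≤ M / 2
      · rw [fu (i + 1) _ hi rfl, fR i (2 * (i + 1) + M % 2 + 2) (by omega) (by omega)]
      rw [(f2 (i + 1) (by omega)).2]
      by_cases h1 : i = M / 2
      · rw [fR i (M + 4) (by omega) (by omega), t4]
      · rw [(f2 i (by omega)).1]

end Pool.Agent.Lib.MP_d6ddbd_nt.KA
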