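import Pool.Agent.Lib.MP_d6ddbd_nt.KA.Stmt
import Pool.Agent.Lib.MP_d6ddbd_nt.K11.L
import Pool.Agent.Lib.MP_d6ddbd_nt.K11.Pr
import Pool.Agent.Lib.MP_d6ddbd_nt.K11.PF
import Pool.Agent.Lib.MP_d6ddbd_nt.K11.Two

/-!
The blocks `LA1` and `LA2`: reciprocity and dimension for all twists.
-/

set_option autoImplicit false
set_option linter.unusedSectionVars false
set_option maxSynthPendingDepth 3

open NumberField IsDedekindDomain
open Pool.Agent.Stark hiding Unr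
open Pool.Agent.Lib.MP_d6ddbd_nt.K11
open Pool.Agent.Lib.MP_d6ddbd_nt.K11.L

noncomputable section

namespace Pool.Agent.Lib.MP_d6ddbd_nt.KA

namespace LA

theorem sqf {d δ c : ℤ} (h : TD d δ c) : Squarefree d := by
  have p2 : Prime (2 : ℤ) := Int.prime_two
  have p11 : Prime (11 : ℤ) := Int.prime_iff_natAbs_prime.2 (by norm_num)
  have n2 : ¬ (2 : ℤ) ∣ 11 * c := by have := h.fam.m4; omega
  have s1 : Squarefree (11 * c) := squarefree_mul_iff.2
    ⟨p11.irreducible.isRelPrime_iff_not_dvd.2 h.fam.n11, p11.squarefree, h.fam.sf⟩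
  have s2 : Squarefree (2 * (11 * c)) := squarefree_mul_iff.2
    ⟨p2.irreducible.isRelPrime_iff_not_dvd.2 n2, p2.squarefree, s1⟩
  refine s2.squarefree_of_dvd ?_
  rw [h.eq, mul_assoc]
  refine mul_dvd_mul ?_ (mul_dvd_mul_right ?_ c)
  · rcases h.dl with e | e | e | e <;> rw [e] <;> norm_num
  · unfold ee
    split_ifs <;> norm_num

theorem dvd_d {d δ c l : ℤ} (h : TD d δ c) (hl : l ∣ c) : l ∣ d := by
  rw [h.eq]
  exact hl.mul_left _

theorem bs_prime {c : ℤ} (hc : Fam c) {B : Finset ℕ} (hB : Bs c B) {p : ℕ} (hp : p ∈ B) :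
    p.Prime ∧ p ≠ 2 ∧ ¬ (p : ℤ) ∣ c := by
  rcases hB p hp with rfl | h
  · exact ⟨by norm_num, by norm_num, hc.n11⟩
  · exact ⟨h.1, h.2.1, h.2.2.2.1⟩

variable {L : Type} [Field L] [NumberField L] {θ : L} (hθ : Cub θ)

include hθ

theorem gm2_ne : gm2 θ ≠ 0 := by
  have h := ((pr_thm L θ hθ).2.2.2.2.2.1 18).1
  refine mul_ne_zero two_ne_zero (sub_ne_zero.2 ?_)
  simpa using h

theorem card_el : (ab L 11).card = 2 := by
  classical
  obtain ⟨𝔭, 𝔮, hne, h, -⟩ := (pr_thm L θ hθ).2.1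
  rw [show ab L 11 = {𝔭, 𝔮} from Finset.ext fun 𝔯 => by simp [h], Finset.card_pair hne]

theorem recip (h11 : P11Stmt) (hP2 : P2Stmt) (hLoc : LocDAStmt) {d δ c : ℤ} (hd : TD d δ c)
    {B : Finset ℕ} (hB : Bs c B) {α α' : L} (h : Wa θ d c B α) (h' : Wa θ d c B α') :
    ∑ 𝔭 ∈ D1 L c, (av 𝔭 α * bv θ d 𝔭 α' + bv θ d 𝔭 α * av 𝔭 α') +
      ∑ p ∈ B.erase 11, (sv p α * fv p α' + fv p α * sv p α') +
      (a11 α * b11 θ α' + b11 θ α * a11 α') = 0 := by
  classical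
  have hc := hd.fam
  have hE : ∀ p ∈ B.erase 11, p.Prime ∧ p ≠ 2 ∧ p ≠ 11 ∧ ¬ (p : ℤ) ∣ c ∧ nr p = 1 := fun p hp =>
    (hB p (Finset.mem_of_mem_erase hp)).resolve_left (Finset.ne_of_mem_erase hp)
  have hdj : Disjoint c.natAbs.primeFactors (B.erase 11) :=
    Finset.disjoint_left.2 fun l h1 h2 => (hE l h2).2.2.2.1 ((mem_pf hc).1 h1).2
  have n11 : 11 ∉ c.natAbs.primeFactors ∪ B.erase 11 := fun h1 => (Finset.mem_union.1 h1).elim
    (fun h1 => ne_el hc ((mem_pf hc).1 h1).2 rfl) fun h1 => (hE 11 h1).2.2.1 rfl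
  have n2 : 2 ∉ insert 11 (c.natAbs.primeFactors ∪ B.erase 11) := fun h1 =>
    (Finset.mem_insert.1 h1).elim (by norm_num) fun h1 => (Finset.mem_union.1 h1).elim
      (fun h1 => ne_two hc ((mem_pf hc).1 h1).2 rfl) fun h1 => (hE 2 h1).2.1 rfl
  have hT : ∀ l ∈ insert 2 (insert 11 (c.natAbs.primeFactors ∪ B.erase 11)), l.Prime :=
    fun l hl => by
      rcases Finset.mem_insert.1 hl with rfl | hl
      · exact Nat.prime_two
      rcases Finset.mem_insert.1 hl with rfl | hl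
      · norm_num
      · exact (Finset.mem_union.1 hl).elim (fun h1 => ((mem_pf hc).1 h1).1) fun h1 => (hE l h1).1
  have r := reciprocity h.ne h'.ne
    ((insert 2 (insert 11 (c.natAbs.primeFactors ∪ B.erase 11))).biUnion (ab L))
    fun 𝔮 hq => by
      obtain ⟨l, hl, m⟩ := exists_ch pr_thm hθ 𝔮
      have n : l ∉ insert 2 (insert 11 (c.natAbs.primeFactors ∪ B.erase 11)) := fun n =>
        hq (Finset.mem_biUnion.2 ⟨l, n, m⟩)
      simp only [Finset.mem_insert, Finset.mem_union, not_or, mem_pf hc, Finset.mem_erase] at n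
      have k2 : 𝔮 ∉ ab L 2 := fun k2 => n.1 (ch_eq pr_thm hθ hl Nat.prime_two m k2)
      have k3 : ¬ (l : ℤ) ∣ c := fun k3 => n.2.2.1 ⟨hl, k3⟩
      have k4 : l ∉ B := fun k4 => n.2.2.2 ⟨n.2.1, k4⟩
      exact hq_eq_zero 𝔮 (by simpa [mem_ab] using k2) h.ne h'.ne (h.ev l hl k3 k4 𝔮 m)
        (h'.ev l hl k3 k4 𝔮 m)
  obtain ⟨e, he1, he2⟩ := (pr_thm L θ hθ).2.2.2.2.2.2.2.2.2
  have r0 : ∑ φ : L →+* ℝ, hs (φ α) (φ α') = 0 := Finset.sum_eq_zero fun φ _ => by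
    rw [he1 φ, hs_real (he2 α h.ne h.sq).ne' (he2 α' h'.ne h'.sq).ne',
      if_neg fun n => (he2 α h.ne h.sq).not_gt n.1]
  have r2 : ∑ 𝔭 ∈ ab L 2, hq 𝔭 α α' = 0 :=
    ((hP2 L θ hθ).2 d α α' h.ne h'.ne h.sq h'.sq h.two h'.two).2.1
  rw [r0, zero_add, Finset.sum_biUnion (disj pr_thm hθ hT _ fun _ => subset_rfl),
    Finset.sum_insert n2, Finset.sum_insert n11, Finset.sum_union hdj, r2, zero_add,
    (h11 L θ hθ).2.2 α α' h.ne h'.ne h.sq h'.sq, add_comm] at r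
  rw [sum_D1 pr_thm hθ hc, ← r]
  congr 2
  · exact Finset.sum_congr rfl fun l hl => ((hLoc L θ hθ d l (sqf hd) ((mem_pf hc).1 hl).1
      (dvd_d hd ((mem_pf hc).1 hl).2) (ne_two hc ((mem_pf hc).1 hl).2)
      (ne_el hc ((mem_pf hc).1 hl).2)).2.1 α α' h.ne h'.ne h.sq h'.sq).symm
  · exact Finset.sum_congr rfl fun p hp => (pair1 pr_thm hθ (pf_thm pr_thm) (hE p hp).1
      (hE p hp).2.1 (hE p hp).2.2.1 (hE p hp).2.2.2.2 h.ne h'.ne h.sq h'.sq).symm

open Classical in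
theorem at2_add {x y : L} (hx : x ≠ 0) (hy : y ≠ 0)
    (he : ∀ 𝔭 ∈ ab L 2, Even (og 𝔭 x) ∧ Even (og 𝔭 y)) :
    (if At2 (x * y) then 0 else 1 : ZMod 2) =
      (if At2 x then 0 else 1) + if At2 y then 0 else 1 := by
  have c2 : (1 + 1 : ZMod 2) = 0 := by decide
  obtain ⟨t1, t2, -⟩ := two_thm pr_thm (pf_thm pr_thm) L θ hθ
  by_cases h1 : At2 x <;> by_cases h2 : At2 y
  · simp [h1, h2, t1 x y hx hy h1 h2]
  · rw [if_pos h1, if_neg h2, if_neg, zero_add]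
    intro h3
    have := t1 _ _ hx (mul_ne_zero hx hy) h1 h3
    exact h2 (at2_sq (t := x) (by rwa [show y * (x * x) = x * (x * y) by ring]))
  · rw [if_neg h1, if_pos h2, if_neg, add_zero]
    intro h3
    have := t1 _ _ hy (mul_ne_zero hx hy) h2 h3
    exact h1 (at2_sq (t := y) (by rwa [show x * (y * y) = y * (x * y) by ring]))
  · rw [if_neg h1, if_neg h2, c2, if_pos (t2 x y hx hy he h1 h2)]

theorem rank_WA (hP2 : P2Stmt) {d δ c : ℤ} (hd : TD d δ c) {B : Finset ℕ} (hB : Bs c B) :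
    Module.Finite (ZMod 2) (WA θ d c B) ∧
      tt c + B.card ≤ Module.finrank (ZMod 2) (WA θ d c B) := by
  classical
  have hc := hd.fam
  have hg := gm2_ne hθ
  have hdj : Disjoint c.natAbs.primeFactors B :=
    Finset.disjoint_left.2 fun l h1 h2 => (bs_prime hc hB h2).2.2 ((mem_pf hc).1 h1).2
  let T := c.natAbs.primeFactors ∪ B
  have hT : ∀ l ∈ T, l.Prime ∧ l ≠ 2 := fun l hl => (Finset.mem_union.1 hl).elim
    (fun h1 => ⟨((mem_pf hc).1 h1).1, ne_two hc ((mem_pf hc).1 h1).2⟩)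
    fun h1 => ⟨(bs_prime hc hB h1).1, (bs_prime hc hB h1).2.1⟩
  let S := T.biUnion (ab L)
  have hS : ∀ l : ℕ, l.Prime → l ∉ T → ∀ 𝔭 ∈ ab L l, 𝔭 ∉ S := fun l hl n 𝔭 m m' => by
    obtain ⟨l', h1, h2⟩ := Finset.mem_biUnion.1 m'
    exact n (ch_eq pr_thm hθ hl (hT l' h1).1 m h2 ▸ h1)
  have hle : WA θ d c B ≤ Sel S := Submodule.span_le.2 (by
    rintro _ ⟨α, h, rfl⟩
    refine ⟨α, ⟨h.ne, fun 𝔮 n => ?_⟩, rfl⟩
    obtain ⟨l, hl, m⟩ := exists_ch pr_thm hθ 𝔮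
    have n' : l ∉ T := fun n' => n (Finset.mem_biUnion.2 ⟨l, n', m⟩)
    exact h.ev l hl (fun h1 => n' (Finset.mem_union_left _ ((mem_pf hc).2 ⟨hl, h1⟩)))
      (fun h1 => n' (Finset.mem_union_right _ h1)) 𝔮 m)
  have := finite_Sel S
  have hfin : Module.Finite (ZMod 2) (WA θ d c B) :=
    Module.Finite.of_injective (Submodule.inclusion hle) (Submodule.inclusion_injective hle)
  refine ⟨hfin, ?_⟩
  have hN : ∀ {x : L}, x ≠ 0 → Algebra.norm ℚ x ≠ 0 := fun hx => Algebra.norm_ne_zero_iff.2 hx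
  have c2 : (1 + 1 : ZMod 2) = 0 := by decide
  have n2 : 2 ∉ T := fun h => (hT 2 h).2 rfl
  have key := rank_le S (V := (T → ZMod 2) × ZMod 2 × ZMod 2)
    (fun x => (fun l => (padicValRat l.1 (Algebra.norm ℚ x) : ZMod 2),
      if 0 < Algebra.norm ℚ x then 0 else 1,
      if Odd d then (if At2 x then 0 else 1) else h2 x (gm2 θ)))
    (fun x y hx hy => by
      refine Prod.ext (funext fun l => ?_) (Prod.ext ?_ ?_)
      · have := Fact.mk (hT l.1 l.2).1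
        simp only [map_mul, padicValRat.mul (hN hx.1) (hN hy.1), Int.cast_add, Prod.fst_add,
          Pi.add_apply]
      · simp only [map_mul, Prod.snd_add, Prod.fst_add]
        rcases lt_or_gt_of_ne (hN hx.1) with h1 | h1 <;>
          rcases lt_or_gt_of_ne (hN hy.1) with h2 | h2 <;>
          simp [h1, h2, h1.not_gt, h2.not_gt, mul_pos_iff, c2]
      · simp only [Prod.snd_add]
        by_cases ho : Odd d
        · simp only [if_pos ho]
          exact at2_add hθ hx.1 hy.1 fun 𝔭 m =>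
            ⟨hx.2 𝔭 (hS 2 Nat.prime_two n2 𝔭 m), hy.2 𝔭 (hS 2 Nat.prime_two n2 𝔭 m)⟩
        · simp only [if_neg ho]
          exact ((hP2 L θ hθ).1 x y _ hx.1 hy.1 hg).1)
    (fun t ht => by
      refine Prod.ext (funext fun l => ?_) (Prod.ext ?_ ?_)
      · have := Fact.mk (hT l.1 l.2).1
        simp only [map_mul, padicValRat.mul (hN ht) (hN ht)]
        exact cast_even ⟨_, rfl⟩
      · simp only [map_mul]
        exact if_pos (mul_self_pos.2 (hN ht))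
      · by_cases ho : Odd d
        · simp only [if_pos ho]
          exact if_pos (at2_one ht)
        · simp only [if_neg ho]
          rw [← sq]
          exact ((hP2 L θ hθ).1 t t _ ht ht hg).2.2)
    (WA θ d c B) fun x hx h => by
      simp only [Prod.mk_eq_zero] at h
      obtain ⟨h1, h2, h3⟩ := h
      refine Submodule.subset_span ⟨x, ⟨hx.1, rat_sq (by_contra fun n => ?_) fun l hl => ?_,
        ⟨fun ho => by_contra fun n => ?_, fun he => ?_⟩,
        fun p hp n1 n3 𝔭 m => hx.2 𝔭 (hS p hp (fun n => ?_) 𝔭 m)⟩, rfl⟩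
      · rw [if_neg n] at h2
        exact one_ne_zero h2
      · by_cases n : l ∈ T
        · exact ZMod.intCast_eq_zero_iff_even.1 (congrFun h1 ⟨l, n⟩)
        · rw [((pr_thm L θ hθ).2.2.2.1 l x hl hx.1).1]
          exact Finset.even_sum _ fun 𝔭 m => (hx.2 𝔭 (hS l hl n 𝔭 m)).mul_left _
      · rw [if_pos ho, if_neg n] at h3
        exact one_ne_zero h3
      · rwa [if_neg (Int.not_odd_iff_even.2 he)] at h3
      · exact (Finset.mem_union.1 n).elim (fun n => n1 ((mem_pf hc).1 n).2) n3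
  have c0 : ∀ p ∈ B, (ab L p).card = 2 := fun p hp => by
    rcases hB p hp with rfl | h
    · exact card_el hθ
    · rw [(card_ab pr_thm hθ h.1 h.2.1 h.2.2.1).1, h.2.2.2.2]
  have c1 : S.card = tt c + c.natAbs.primeFactors.card + 2 * B.card := by
    rw [Finset.card_biUnion (disj pr_thm hθ (fun l hl => (hT l hl).1) _ fun _ => subset_rfl),
      Finset.sum_union hdj, Finset.sum_congr rfl c0,
      Finset.sum_congr rfl fun l hl => (card_ab pr_thm hθ ((mem_pf hc).1 hl).1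
        (ne_two hc ((mem_pf hc).1 hl).2) (ne_el hc ((mem_pf hc).1 hl).2)).1,
      Finset.sum_add_distrib, ← Finset.card_eq_sum_ones, tt, Finset.sum_const, smul_eq_mul,
      mul_comm]
  have c4 : T.card = c.natAbs.primeFactors.card + B.card := Finset.card_union_of_disjoint hdj
  have c3 := two_le_card hθ.rk
  rw [Module.finrank_prod, Module.finrank_prod, Module.finrank_fintype_fun_eq_card,
    Module.finrank_self, Fintype.card_coe] at key
  omega

end LA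

open LA in
theorem la1_thm (h11 : P11Stmt) (hP2 : P2Stmt) (hLoc : LocDAStmt) : LA1Stmt := by
  intro L _ _ θ hθ d δ c B hd hB
  have hc := hd.fam
  have p11 : Nat.Prime 11 := by norm_num
  refine ⟨fun α α' h h' => ⟨⟨mul_ne_zero h.ne h'.ne, ?_,
      ((hP2 L θ hθ).2 d α α' h.ne h'.ne h.sq h'.sq h.two h'.two).1, fun p hp n1 n2 𝔭 m => ?_⟩,
      recip hθ h11 hP2 hLoc hd hB h h'⟩, fun α h => ⟨?_, ?_, fun p hp n11 h0 => ?_,
      fun h0 => ?_, fun n => ?_, fun p hp n1 n2 => ?_⟩⟩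
  · rw [map_mul]
    exact h.sq.mul h'.sq
  · rw [SUnitAux.og_mul 𝔭 h.ne h'.ne]
    exact (h.ev p hp n1 n2 𝔭 m).add (h'.ev p hp n1 n2 𝔭 m)
  · exact sum_nm pr_thm hθ hc (fun 𝔭 => av 𝔭 α) fun l h1 h2 h3 =>
      ((hLoc L θ hθ d l (sqf hd) h1 (dvd_d hd h2) (ne_two hc h2) (ne_el hc h2)).2.2 α h.ne h.sq
        h3).1
  · exact sum_nm pr_thm hθ hc (fun 𝔭 => bv θ d 𝔭 α) fun l h1 h2 h3 =>
      ((hLoc L θ hθ d l (sqf hd) h1 (dvd_d hd h2) (ne_two hc h2) (ne_el hc h2)).2.2 α h.ne h.sq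
        h3).2
  · refine ⟨h.ne, h.sq, h.two, fun p' hp' n1 n2 => ?_⟩
    by_cases e : p' = p
    · subst e
      have hb := (hB p' hp).resolve_left n11
      obtain ⟨𝔭, 𝔮, -, -, e0, -, -, e2, e3⟩ := type1 pr_thm hθ hp' hb.2.1 n11 hb.2.2.2.2
      rw [sv, e2, cast_even (e3 α h.ne h.sq), zero_add] at h0
      intro 𝔯 m
      rcases e0 𝔯 m with rfl | rfl
      · exact e3 α h.ne h.sq
      · exact ZMod.intCast_eq_zero_iff_even.1 h0
    · exact h.ev p' hp' n1 fun m => n2 (Finset.mem_erase.2 ⟨e, m⟩)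
  · refine ⟨h.ne, h.sq, h.two, fun p' hp' n1 n2 => ?_⟩
    by_cases e : p' = 11
    · subst e
      exact ((h11 L θ hθ).2.1 α h.ne h.sq).1 h0
    · exact h.ev p' hp' n1 fun m => n2 (Finset.mem_erase.2 ⟨e, m⟩)
  · exact ((h11 L θ hθ).2.1 α h.ne h.sq).2 (h.ev 11 p11 hc.n11 n)
  · exact Finset.sum_eq_zero fun 𝔭 m => cast_even (h.ev p hp n1 n2 𝔭 m)

theorem la2_thm (hP2 : P2Stmt) : LA2Stmt := fun _ _ _ _ hθ _ _ _ _ hd hB =>
  LA.rank_WA hθ hP2 hd hB

end Pool.Agent.Lib.MP_d6ddbd_nt.KA
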