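import Pool.Agent.Lib.MP_d6ddbd_nt.KA.LocDA

/-!
The two coordinates of a cocycle at a prime of degree one that divides `d`.
-/

set_option autoImplicit false
set_option maxSynthPendingDepth 3

open NumberField IsDedekindDomain Pointwise
open Pool.Agent.Lib.MP_02f36d_nt (xc yc)
open Pool.Agent.Stark (Pr og hq LSq pw ord_mul ord_pow ord_one mem_pw_iff ord_add_of_lt zmod2_ext)
open Pool.Agent.Lib.MP_d6ddbd_nt.K11
open Pool.Agent.Lib.MP_d6ddbd_nt.K11.CK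

noncomputable section

namespace Pool.Agent.Lib.MP_d6ddbd_nt.KA

namespace LocA

variable {L : Type} [Field L] [NumberField L] {θ : L}

/-- The parity of the valuation is read on the inertia group. -/
theorem parityA (hL1 : Link1Stmt) (hθ : Cub θ) {d : ℤ} (hd : Squarefree d) {l : ℕ} (hl : l.Prime)
    (hld : (l : ℤ) ∣ d) (h2 : l ≠ 2) (h11 : l ≠ 11)
    {𝔮 : Pr L} (hq : 𝔮 ∈ ab L l) {f : L →+* ℂ} {O : ValuationSubring ℂ}
    (hf : Below f O 𝔮) {σ : G} {s : ℂ} (hσ : Frob O 1 σ) (hs : s ^ 2 = d) (hσs : σ s = -s)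
    {α : L} {ξ : G → Pt} (hα : α ≠ 0) (hK : Kum θ α ξ) :
    Even (og 𝔮 α) ↔ wl (f θ) (ξ σ) = 0 := by
  obtain ⟨t, ht⟩ := exists_sqrt (f α)
  obtain ⟨h1, h3⟩ := ((hL1 L θ hθ).1 f O 𝔮 l α t hl h2 h11 hq hf hα
    ht).1 σ s d hσ hs hd hld hσs
  rw [← h3, hK f t σ ht h1]

/-- The two coordinates at a prime of degree one that divides `d`. -/
theorem locA (hV : VStmt) (hR : RStmt) (hPr : PrStmt) (hL1 : Link1Stmt) (hD : LocDAStmt)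
    (hθ : Cub θ) {d : ℤ} (hd : Squarefree d) {l : ℕ} (hl : l.Prime) (hld : (l : ℤ) ∣ d)
    (h2 : l ≠ 2) (h11 : l ≠ 11) {𝔭 : Pr L}
    (hp : 𝔭 ∈ ab L l) (hn : nm 𝔭 = l) {e : L →+* ℂ} {O : ValuationSubring ℂ} (hO : Ov O l)
    (he : Below e O 𝔭) {σ φ : G} {η : ℤ} {s : ℂ} (hσ : Frob O 1 σ) (hφ : Frob O l φ)
    (hs : s ^ 2 = d) (hσs : σ s = -s) (hη : η = 1 ∨ η = -1) (hφs : φ s = η * s) {α : L}
    {ξ : G → Pt} (hα : α ≠ 0) (hN : IsSquare (Algebra.norm ℚ α)) (hc : Coc ξ) (hK : Kum θ α ξ) :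
    (nr l = 3 → av 𝔭 α = wl (e θ) (ξ σ)) ∧ (nr l = 1 → (av 𝔭 α = 0 ↔ ξ σ = 0)) ∧
      ∀ Z S : Pt, 2 • Z = 0 → 2 • S = ξ σ → ξ φ = φ • S - η • S + Z →
        bv θ d 𝔭 α = wl (e θ) Z := by
  have hP := (hPr L θ hθ).2.2.1 l hl h2 h11
  have par : ∀ {𝔮 : Pr L} {f : L →+* ℂ}, 𝔮 ∈ ab L l → Below f O 𝔮 →
      (Even (og 𝔮 α) ↔ ξ σ = 0 ∨ xc (ξ σ) = f θ) := fun hq hf => by
    rw [parityA hL1 hθ hd hl hld h2 h11 hq hf hσ hs hσs hα hK, wl_eq_zero]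
  have bel : ∀ {𝔭 𝔮 : Pr L} {e f : L →+* ℂ}, 𝔭 ∈ ab L l → 𝔮 ∈ ab L l → nm 𝔭 = l → Below e O 𝔭 →
      Below f O 𝔮 → (𝔮 = 𝔭 ↔ f θ = e θ) := fun a b c a' b' =>
    below_iff hV hPr hθ hl h2 h11 a b c a' b'
  have emb : ∀ {𝔮 : Pr L}, 𝔮 ∈ ab L l → ∃ f : L →+* ℂ, Below f O 𝔮 := fun hq =>
    exists_emb hV hR hPr hθ hl h2 h11 hp hn hO he hq
  have frob : ∀ {β : L} {t : ℂ}, β ≠ 0 → t ^ 2 = e β → Even (og 𝔭 β) →
      φ (e θ) = e θ ∧ (φ t = t ↔ LSq 𝔭 β) := fun {β t} a b c =>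
    ((hL1 L θ hθ).1 e O 𝔭 l β t hl h2 h11 hp he a b).2 φ (hn ▸ hφ) c
  have hφe : φ (e θ) = e θ := (frob (β := 1) (t := 1) one_ne_zero (by simp) (by simp [og])).1
  refine ⟨fun h => ?_, fun h => ?_, fun Z S hZ hS hξ => ?_⟩
  · refine zmod2_ext ?_
    rw [av_three hPr hθ hl hp (hP.2.2.2.2.1 h).2 hα hN, par hp he, wl_eq_zero]
  · obtain ⟨𝔮, a, b, c⟩ := pair hPr hθ hl h2 h11 hp hn h
    have hq := (b 𝔮).2 (Or.inr rfl)
    obtain ⟨f, hf⟩ := emb hq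
    rw [av_pair a b hn, par hq hf]
    refine ⟨fun g => g.elim id fun g => ?_, Or.inl⟩
    refine ((par hp he).1 (norm_pair hPr hθ hl a b hn c hα hN)).resolve_right fun g' => ?_
    exact a.symm ((bel hp hq hn he hf).2 (g.symm.trans g'))
  have hD1 := (hD L θ hθ d l hd hl hld h2 h11).1 α hα hN 𝔭 hp hn
  have hfe := fc_emb hθ e
  have hT := hc.two σ
  obtain ⟨t, ht⟩ := exists_sqrt (e α)
  have ht0 := sqrt_ne hα ht
  have hθα : φ (e α) = e α := by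
    obtain ⟨a, b, c, h⟩ := (hPr L θ hθ).2.2.2.2.2.2.1 α
    rw [h]
    simp [hφe]
  have htφ : φ t = t ∨ φ t = -t := sgn (by rw [ht, hθα])
  have hW : 2 • (φ • S - η • S) = 0 := by
    rw [eq_sub_of_add_eq hξ.symm, nsmul_sub, hc.two, hZ, sub_zero]
  have hwl : wl (e θ) (ξ φ) = wl (e θ) (φ • S - η • S) + wl (e θ) Z := by
    rw [hξ, hR.1.2.2.2.2.2.1 _ _ _ hfe hW hZ]
  have hKφ := hK e t φ ht hφe
  obtain ⟨h, h0, hh, hh'⟩ := hR.1.2.2.2.2.2.2.2 (e θ) S hfe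
  rw [hS] at hh hh'
  refine zmod2_ext ?_
  rw [← z2 hwl, ← hKφ]
  by_cases hT0 : ξ σ = 0
  · obtain ⟨g1, g2, -⟩ := hh' φ η hφe hη (by rw [hT0, sz, zsmul_zero])
    have g3 : h ^ 2 = 1 := by rw [hh, hT0]; simp [K11.gam]
    have g4 : φ h = h := by
      rcases sq_eq_one_iff.1 g3 with g | g <;> simp [g]
    rw [hD1.1 fun 𝔮 hq => by obtain ⟨f, hf⟩ := emb hq; exact (par hq hf).2 (Or.inl hT0),
      nsq_eq_zero, ← (frob hα ht ((par hp he).2 (Or.inl hT0))).2,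
      ← g2 (wl_eq_zero.2 (Or.inl hT0))]
    simp [g4]
  have hx := (((hR.1.2.2.2.1 _).1 hT).resolve_left hT0).2
  by_cases hxe : xc (ξ σ) = e θ
  · obtain ⟨g1, g2, -⟩ := hh' φ η hφe hη (by
      rw [fix_two hR hT (by rw [hxe, hφe]), eta_two hη hT])
    have g3 : h ^ 2 = e (fd θ) := by rw [hh, map_fd]; simp [K11.gam, hT0, hxe]
    have g4 : gm θ d 𝔭 𝔭 = fd θ := by simp [gm]
    have g5 : Even (og 𝔭 (α * fd θ)) := by
      have a : og 𝔭 (α * fd θ) = og 𝔭 α + og 𝔭 (fd θ) := ord_mul hα (fd_ne' hθ e)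
      rw [a, (hP.1 𝔭 hp).2.2.1, add_zero]
      exact (par hp he).2 (Or.inr hxe)
    rw [hD1.2 𝔭 hp hn fun 𝔮 hq => by
        obtain ⟨f, hf⟩ := emb hq
        rw [par hq hf, bel hp hq hn he hf, ← hxe]
        exact ⟨fun g => (g.resolve_left hT0).symm, fun g => Or.inr g.symm⟩,
      nsq_eq_zero, g4, ← (frob (t := t * h) (mul_ne_zero hα (fd_ne' hθ e))
        (by rw [mul_pow, ht, g3, map_mul]) g5).2, sgn_mul ht0 h0 htφ g1,
      g2 (wl_eq_zero.2 (Or.inr hxe))]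
  have hodd : ¬ Even (og 𝔭 α) := fun g => ((par hp he).1 g).elim hT0 hxe
  have h3 : nr l = 3 := (nr_cases hPr hθ hl h2 h11 hp hn).resolve_left fun g => by
    obtain ⟨𝔮, a, b, c⟩ := pair hPr hθ hl h2 h11 hp hn g
    exact hodd (norm_pair hPr hθ hl a b hn c hα hN)
  obtain ⟨e', 𝔭', he', hp', hb'⟩ := exists_below hV hPr hθ hl hO hx
  have hn' := (hP.2.2.2.2.1 h3).2 𝔭' hp'
  have hne : 𝔭 ≠ 𝔭' := fun g => hxe (he'.symm.trans ((bel hp' hp hn' hb' he).1 g).symm)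
  have hfix := ((hR.2 l O hl h2 h11 hO).2.2.2.2.2.2.2 φ hφ).1.1 h3 _ hT
  obtain ⟨g1, -, g2⟩ := hh' φ η hφe hη (by rw [hfix, eta_two hη hT])
  have g3 : h ^ 2 = e' θ - e θ := by rw [hh, he']; simp [K11.gam, hT0, hxe]
  have g4 : gm θ d 𝔭' 𝔭 = d * (xr θ 𝔭' - θ) := by simp [gm, hne]
  have hd0 : (d : L) ≠ 0 := Int.cast_ne_zero.2 hd.ne_zero
  have hx0 := xr_ne hPr hθ (xr θ 𝔭')
  have hs' : s ^ 2 = e d := by rw [hs, map_intCast]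
  have hs0 := sqrt_ne hd0 hs'
  have g5 : og 𝔭 ((xr θ 𝔭' : L) - θ) = 0 := hP.2.1 𝔭' hp' 𝔭 hp hn' hne
  have g6 : ¬ Even (og 𝔭 (d : L)) := fun g => ne_neg hs0 (hσs.symm.trans
    ((((hL1 L θ hθ).1 e O 𝔭 l d s hl h2 h11 hp he hd0 hs').1 σ s d hσ hs hd hld hσs).2.2 g))
  have g7 : Even (og 𝔭 (α * (d * (xr θ 𝔭' - θ)))) := by
    have a : og 𝔭 (α * (d * (xr θ 𝔭' - θ))) = og 𝔭 α + og 𝔭 (d * (xr θ 𝔭' - θ)) :=
      ord_mul hα (mul_ne_zero hd0 hx0)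
    have b : og 𝔭 ((d : L) * (xr θ 𝔭' - θ)) = og 𝔭 (d : L) + og 𝔭 ((xr θ 𝔭' : L) - θ) :=
      ord_mul hd0 hx0
    rw [a, b, g5, add_zero]
    exact (Int.not_even_iff_odd.1 hodd).add_odd (Int.not_even_iff_odd.1 g6)
  obtain ⟨k, hk⟩ := exists_sqrt (e (xr θ 𝔭' - θ))
  have hk0 := sqrt_ne hx0 hk
  have hkφ : φ k = k ∨ φ k = -k := sgn (by rw [hk, map_sub, map_sub, map_intCast, map_intCast, hφe])
  have g8 : φ k = k ↔ φ h = h := by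
    refine sgn_congr' hV hφ hl.ne_zero (IsAlgebraic.of_pow two_pos (hk ▸ alg_emb e _))
      (IsAlgebraic.of_pow two_pos (g3 ▸ (alg_emb e' θ).sub (alg_emb e θ))) ?_ ?_ ?_ hkφ g1
    · have := xr_mem hV hPr hθ hl h2 h11 hp' hn' hb'
      rwa [hk, g3, map_sub, map_intCast, sub_sub_sub_cancel_right]
    · rw [hk]
      exact val_one hV he hx0 g5
    · simpa [map_ofNat] using val_one hV he two_ne_zero (hP.1 𝔭 hp).2.1
  have hsφ : φ s = s ∨ φ s = -s := sgn (by rw [hs, map_intCast])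
  have hskφ : φ (s * k) = s * k ∨ φ (s * k) = -(s * k) := sgn (by
    rw [mul_pow, map_mul, hs, map_intCast, hk, map_sub, map_sub, map_intCast, map_intCast, hφe])
  have g9 : φ (s * k) = s * k ↔ φ h = η * h := by
    rw [sgn_mul hs0 hk0 hsφ hkφ, g8, hφs]
    have a := ne_neg hs0
    have b := ne_neg h0
    rcases hη with rfl | rfl <;> rcases g1 with g | g <;> rw [g] <;> simp [a, b, b.symm]
  rw [hD1.2 𝔭' hp' hn' fun 𝔮 hq => by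
      obtain ⟨f, hf⟩ := emb hq
      rw [par hq hf, bel hp' hq hn' hb' hf, he']
      exact ⟨fun g => (g.resolve_left hT0).symm, fun g => Or.inr g.symm⟩,
    nsq_eq_zero, g4, ← (frob (t := t * (s * k)) (mul_ne_zero hα (mul_ne_zero hd0 hx0))
      (by rw [mul_pow, mul_pow, ht, hs', hk, map_mul, map_mul]) g7).2,
    sgn_mul ht0 (mul_ne_zero hs0 hk0) htφ hskφ, g9,
    g2 fun g => (wl_eq_zero.1 g).elim hT0 hxe]

end LocA

theorem loca_thm : LocAStmt :=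
  fun _ _ _ _ hθ _ _ _ _ _ _ _ _ _ _ _ hd hl hld h2 h11 hp hn hO he hσ hφ hs hσs hη hφs hα hN hc hK =>
    LocA.locA vAll rAll pr_thm link1All locda_thm hθ hd hl hld h2 h11 hp hn hO he hσ hφ hs hσs hη
      hφs hα hN hc hK

end Pool.Agent.Lib.MP_d6ddbd_nt.KA
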