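import Pool.Agent.Lib.MP_d6ddbd_nt.KA.Stmt
import Pool.Agent.Lib.MP_d6ddbd_nt.K11.AllX

/-!
The coordinates at a prime that divides `d`, for every squarefree `d`.
-/

set_option autoImplicit false
set_option maxSynthPendingDepth 3

open NumberField Finset Pool.Agent.Stark
open Pool.Agent.Lib.MP_d6ddbd_nt.K11
open scoped Classical

noncomputable section

namespace Pool.Agent.Lib.MP_d6ddbd_nt.KA

open LocD in
theorem locda_aux (hPr : PrStmt) (hPF : PFStmt) (L : Type) [Field L] [NumberField L] (θ : L)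
    (hθ : Cub θ) (d : ℤ) (l : ℕ) (hd : Squarefree d) (hl : l.Prime) (hld : (l : ℤ) ∣ d)
    (l2 : l ≠ 2) (l11 : l ≠ 11) :
    (∀ α : L, α ≠ 0 → IsSquare (Algebra.norm ℚ α) → ∀ 𝔭 ∈ ab L l, nm 𝔭 = l →
      ((∀ 𝔮 ∈ ab L l, Even (og 𝔮 α)) → bv θ d 𝔭 α = nsq 𝔭 α) ∧
      ∀ 𝔭' ∈ ab L l, nm 𝔭' = l → (∀ 𝔮 ∈ ab L l, Even (og 𝔮 α) ↔ 𝔮 = 𝔭') →
        bv θ d 𝔭 α = nsq 𝔭 (α * gm θ d 𝔭' 𝔭)) ∧
    (∀ α α' : L, α ≠ 0 → α' ≠ 0 → IsSquare (Algebra.norm ℚ α) → IsSquare (Algebra.norm ℚ α') →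
      ∑ 𝔮 ∈ ab L l, hq 𝔮 α α' = ∑ 𝔭 ∈ (ab L l).filter fun 𝔭 => nm 𝔭 = l,
        (av 𝔭 α * bv θ d 𝔭 α' + bv θ d 𝔭 α * av 𝔭 α')) ∧
    (∀ α : L, α ≠ 0 → IsSquare (Algebra.norm ℚ α) → nr l = 3 →
      ∑ 𝔭 ∈ ab L l, av 𝔭 α = 0 ∧ ∑ 𝔭 ∈ ab L l, bv θ d 𝔭 α = 0) ∧
    ∀ α : L, α ≠ 0 → IsSquare (Algebra.norm ℚ α) →
      (LocS θ d l α ↔ ∀ 𝔭 ∈ ab L l, nm 𝔭 = l → bv θ d 𝔭 α = 0) := by
  obtain ⟨-, -, p3, p4, p5, p6, -⟩ := hPr L θ hθ
  obtain ⟨q1, q2, t0, t1, t3, tt⟩ := p3 l hl l2 l11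
  have dv : ∀ 𝔮 ∈ ab L l, ∀ n : ℕ, ¬ l ∣ n → og 𝔮 (n : L) = 0 := fun 𝔮 h n hn => by
    obtain ⟨-, l', h1, -, h2⟩ := p5 𝔮
    obtain rfl := (Nat.prime_dvd_prime_iff_eq h1 hl).1 ((h2 l hl.ne_zero).1 h)
    exact by_contra fun e => hn ((h2 n fun z => hn (z ▸ dvd_zero _)).1 (mem_ab.2 e))
  have H : Cx θ d l :=
    { d0 := Int.cast_ne_zero.2 hd.ne_zero
      ne := fun x => sub_ne_zero.2 (p6 x).1
      nrm := fun x => ⟨fc x ^ 2, by
        rw [map_mul, (p6 x).2, show fc (x : L) = algebraMap ℚ L (fc x) by simp [fc],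
          Algebra.norm_algebraMap, hθ.rk]
        ring⟩
      eq := hθ.eq
      two := fun h => (q1 _ h).2.1
      one := fun {𝔮} h => by
        obtain ⟨e, rfl⟩ := hld
        have n : ¬ l ∣ e.natAbs := fun k => (Nat.prime_iff_prime_int.1 hl).not_unit
          (hd l (mul_dvd_mul_left _ (Int.natCast_dvd.2 k)))
        have := dv 𝔮 h _ n
        rw [Int.cast_mul, og_mul (by simpa using hl.ne_zero) (by
          simpa using fun z : e = 0 => n (by simp [z])), Int.cast_natCast, (q1 𝔮 h).1]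
        obtain ⟨k, rfl | rfl⟩ := e.eq_nat_or_neg <;> simpa [og] using this
      fd1 := fun h => (q1 _ h).2.2.1
      int := fun 𝔮 => (p5 𝔮).1
      rat := fun {𝔭 𝔮} h h' => og_rat fun p hp => by
        by_cases e : p = l
        · rw [e, (q1 𝔭 h).1, (q1 𝔮 h').1]
        · have n := mt (Nat.prime_dvd_prime_iff_eq hl hp).1 (Ne.symm e)
          rw [dv 𝔭 h p n, dv 𝔮 h' p n]
      xr1 := fun h => (q1 _ h).2.2.2.1.1
      xr0 := fun h h' => q2 _ h _ h'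
      pf := fun h h' _ => hPF L θ hθ l _ _ hl h h' }
  have par : ∀ α : L, α ≠ 0 → IsSquare (Algebra.norm ℚ α) →
      ∑ 𝔮 ∈ ab L l, (Nat.log l (nm 𝔮) : ZMod 2) * vv 𝔮 α = 0 := fun α h h' => by
    simpa [vv] using ZMod.intCast_eq_zero_iff_even.2 ((p4 l α hl h).2 h')
  have lg := Nat.log_pow hl.one_lt
  have l1 : Nat.log l l = 1 := by simpa using lg 1
  have np : ∀ k, k ≠ 1 → l ^ k ≠ l := fun k h e => h (by simpa [lg, l1] using congrArg (Nat.log l) e)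
  have tm : ∀ {α α' : L}, α ≠ 0 → α' ≠ 0 → ∑ 𝔮 ∈ ab L l, hq 𝔮 α α' = ∑ 𝔮 ∈ ab L l,
      (vv 𝔮 α * hq 𝔮 α' d + hq 𝔮 α d * vv 𝔮 α' + vv 𝔮 α * vv 𝔮 α' * hq 𝔮 (-1) (d : L)) :=
    fun h h' => sum_congr rfl fun 𝔮 k => tame (H.two k) h h' H.d0 (H.v1 k)
  refine ⟨fun α h0 hs 𝔭 h h1 => ⟨fun e => ?_, fun 𝔭' h' h1' e => ?_⟩, ?_⟩
  · rw [H.bv_even h0 hs h h1 e, hq_nsq (H.two h) h0 H.d0 (H.v1 h) (vv_zero.2 (e 𝔭 h))]
  · rw [H.bv_odd h0 hs h h1 h' h1' e, hq_nsq (H.two h) (mul_ne_zero h0 (H.gm0 _ _)) H.d0 (H.v1 h),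
      hq_mul h0 (H.gm0 _ _) H.d0]
    rw [vv_mul h0 (H.gm0 _ _), (H.vv_eq h' h1' e h).1, (H.vv_eq h' h1' e h).2,
      CharTwo.add_self_eq_zero]
  rcases tt with e | e | e
  · obtain ⟨𝔭, hA, n⟩ := t0 e
    have z : ∀ α : L, α ≠ 0 → IsSquare (Algebra.norm ℚ α) → vv 𝔭 α = 0 := fun α h h' => by
      have := par α h h'
      rwa [hA, sum_singleton, n, lg, show ((3 : ℕ) : ZMod 2) = 1 from rfl, one_mul] at this
    refine ⟨fun α α' h h' s s' => ?_, fun _ _ _ k => by omega, fun α h s => H.loc h s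
      (Or.inl fun 𝔮 k => ?_) (fun 𝔮 k 𝔮' k' _ _ => ?_) hl.ne_zero⟩
    · rw [tm h h', sum_filter, hA, sum_singleton, sum_singleton, z α h s, z α' h' s', n,
        if_neg (np 3 (by decide))]
      simp
    · rw [hA, mem_singleton] at k
      exact k ▸ vv_zero.1 (z α h s)
    · rw [hA, mem_singleton] at k k'
      rw [k, k']
  · obtain ⟨𝔭, 𝔮, ne, hA, n1, n2⟩ := t1 e
    have m1 := (hA 𝔭).2 (Or.inl rfl)
    have A : ab L l = {𝔭, 𝔮} := Finset.ext fun 𝔯 => by simp [hA]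
    have E : (ab L l).erase 𝔭 = {𝔮} := by rw [A, erase_insert (by simpa using ne)]
    have z : ∀ α : L, α ≠ 0 → IsSquare (Algebra.norm ℚ α) → vv 𝔭 α = 0 := fun α h h' => by
      have := par α h h'
      rwa [A, sum_pair ne, n1, n2, lg, l1, show ((2 : ℕ) : ZMod 2) = 0 from rfl, zero_mul, add_zero,
        Nat.cast_one, one_mul] at this
    refine ⟨fun α α' h h' s s' => ?_, fun _ _ _ k => by omega, fun α h s => H.loc h s ?_
      (fun 𝔯 k 𝔯' k' a a' => ?_) hl.ne_zero⟩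
    · have a1 := H.pfd h s
      have a2 := H.pfd h' s'
      have a3 := H.neg m1 n1
      rw [tm h h', sum_filter, A, sum_pair ne, sum_pair ne, if_pos n1, n2, if_neg (np 2 (by decide)),
        av_eq n1, av_eq n1, H.bv_eq h s m1 n1, H.bv_eq h' s' m1 n1]
      rw [A, sum_pair ne] at a1 a2
      simp only [E, sum_singleton, z α h s, z α' h' s'] at a3 ⊢
      grind
    · by_cases k : Even (og 𝔮 α)
      · refine Or.inl fun 𝔯 r => ?_
        rcases (hA 𝔯).1 r with rfl | rfl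
        exacts [vv_zero.1 (z α h s), k]
      · refine Or.inr ⟨𝔭, m1, n1, fun 𝔯 r => ?_⟩
        rcases (hA 𝔯).1 r with rfl | rfl
        exacts [iff_of_true (vv_zero.1 (z α h s)) rfl, iff_of_false k ne.symm]
    · rw [((hA 𝔯).1 k).resolve_left fun e => a (e ▸ n1),
        ((hA 𝔯').1 k').resolve_left fun e => a' (e ▸ n1)]
  · obtain ⟨hc, n⟩ := t3 e
    obtain ⟨𝔭, 𝔮, 𝔯, n1, n2, n3, A⟩ := card_eq_three.1 hc
    have m1 : 𝔭 ∈ ab L l := by simp [A]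
    have m2 : 𝔮 ∈ ab L l := by simp [A]
    have m3 : 𝔯 ∈ ab L l := by simp [A]
    have S : ∀ f : Pr L → ZMod 2, ∑ x ∈ ab L l, f x = f 𝔭 + f 𝔮 + f 𝔯 := fun f => by
      rw [A, sum_insert (by simp [n1, n2]), sum_pair n3, add_assoc]
    have E : ∀ f : Pr L → ZMod 2, ∀ x ∈ ab L l,
        ∑ y ∈ (ab L l).erase x, f y = f 𝔭 + f 𝔮 + f 𝔯 + f x := fun f x k => by
      rw [← S, ← add_sum_erase _ _ k, add_right_comm, CharTwo.add_self_eq_zero, zero_add]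
    have z : ∀ α : L, α ≠ 0 → IsSquare (Algebra.norm ℚ α) → vv 𝔯 α = vv 𝔭 α + vv 𝔮 α :=
      fun α h h' => by
      have := par α h h'
      rw [S, n _ m1, n _ m2, n _ m3, l1] at this
      grind
    have c1 := H.club m1 (n _ m1) m2 (n _ m2) n1
    have c2 := H.club m1 (n _ m1) m3 (n _ m3) n2
    have c3 := H.club m2 (n _ m2) m3 (n _ m3) n3
    have d1 := H.neg m1 (n _ m1)
    have d2 := H.neg m2 (n _ m2)
    rw [E _ _ m1] at d1
    rw [E _ _ m2] at d2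
    have d3 : hq 𝔮 (-1) (d : L) = hq 𝔭 (-1) (d : L) := by grind
    have d4 : hq 𝔯 (-1) (d : L) = hq 𝔭 (-1) (d : L) := by grind
    refine ⟨fun α α' h h' s s' => ?_, fun α h s _ => ?_, fun α h s => H.loc h s ?_
      (fun x k _ _ a _ => absurd (n x k) a) hl.ne_zero⟩
    · rw [tm h h', filter_true_of_mem n, S, S]
      simp only [av_eq (n _ m1), av_eq (n _ m2), av_eq (n _ m3), H.bv_eq h s m1 (n _ m1),
        H.bv_eq h s m2 (n _ m2), H.bv_eq h s m3 (n _ m3), H.bv_eq h' s' m1 (n _ m1),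
        H.bv_eq h' s' m2 (n _ m2), H.bv_eq h' s' m3 (n _ m3), E _ _ m1, E _ _ m2, E _ _ m3, c1, c2,
        c3, d3, d4, z α h s, z α' h' s']
      grind
    · have a1 := H.pfd h s
      rw [S] at a1
      simp only [S, av_eq (n _ m1), av_eq (n _ m2), av_eq (n _ m3), H.bv_eq h s m1 (n _ m1),
        H.bv_eq h s m2 (n _ m2), H.bv_eq h s m3 (n _ m3), E _ _ m1, E _ _ m2, E _ _ m3, c1, c2,
        c3, d3, d4, z α h s]
      constructor <;> grind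
    · have a := z α h s
      have M : ∀ x ∈ ab L l, x = 𝔭 ∨ x = 𝔮 ∨ x = 𝔯 := fun x k => by simpa [A] using k
      simp only [← vv_zero]
      rcases zmod2_cases (vv 𝔭 α) with b | b <;> rcases zmod2_cases (vv 𝔮 α) with b' | b' <;>
        rw [b, b'] at a
      · exact Or.inl fun x k => by rcases M x k with rfl | rfl | rfl <;> simp [*]
      · exact Or.inr ⟨𝔭, m1, n _ m1, fun x k => by
          rcases M x k with rfl | rfl | rfl <;> simp [a, b, b', n1.symm, n2.symm]⟩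
      · exact Or.inr ⟨𝔮, m2, n _ m2, fun x k => by
          rcases M x k with rfl | rfl | rfl <;> simp [a, b, b', n1, n3.symm]⟩
      · exact Or.inr ⟨𝔯, m3, n _ m3, fun x k => by
          rcases M x k with rfl | rfl | rfl <;> simp [a, b, b', n2, n3, CharTwo.add_self_eq_zero]⟩

theorem locda_thm : LocDAStmt := fun L _ _ θ hθ d l hd hl hld l2 l11 =>
  (locda_aux pr_thm pfAll L θ hθ d l hd hl hld l2 l11).imp id fun h => h.imp id And.left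

end Pool.Agent.Lib.MP_d6ddbd_nt.KA
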