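import Pool.Agent.Lib.MP_d6ddbd_nt.KA.Stmt
import Pool.Agent.Lib.MP_d6ddbd_nt.KI.Locx
import Pool.Agent.Lib.MP_d6ddbd_nt.KI.Gd

/-!
The doubled class satisfies the local conditions at all primes.
-/

set_option autoImplicit false

open Pool.Agent.Lib.MP_d6ddbd_nt.K11
open Pool.Agent.Lib.MP_d6ddbd_nt.KI (rt cq tw Cy Cb Kl Sel)
open Pool.Agent.Lib.MP_d6ddbd_nt.KI.Tr Pool.Agent.Lib.MP_d6ddbd_nt.KI.Locx

noncomputable section

namespace Pool.Agent.Lib.MP_d6ddbd_nt.KA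

theorem locx_thm : LocxStmt := by
  have hT := KI.tr_thm
  have hG := KI.gd_thm
  intro q d c k n x S hq _ _ _ hx hS hI hF hff
  refine ⟨cy_two hx, fun v O hv hn hO => ?_,
    fun p hp O φ hO hφ => by rw [Pi.smul_apply, hff p hp O φ hO hφ, nsmul_zero]⟩
  by_cases hb : v = 2 ∨ v = 11
  · obtain ⟨O', φ, hO', hφ, h⟩ := hF v hb
    have hvq : v ≠ q := by
      have := hq.big
      omega
    refine hT.2.1 c k v _ O' O (cy_two hx) hv hO' hO ⟨2 • S, ?_, fun σ hσ => ?_⟩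
    · rw [two_nsmul]
      exact r1_thm.1.2.1 _ _ hS hS
    · rw [Pi.smul_apply, gen hx hv hO' hφ (fun τ hτ => hI v O' τ hv hn hO' hτ
        (v2_thm.2.2.2.2.2.2.1 q v O' τ hq.pr hq.m4 hv hvq hO' hτ)) h σ hσ, tw_two, nsmul_sub]
  push Not at hb
  obtain ⟨-, -, r3, -, r5, -⟩ := r2_thm v1_thm v2_thm r1_thm v O hv hb.1 hb.2 hO
  have fx : ∀ σ, Frob O 1 σ → ∀ τ, σ • x τ = x τ := fun σ hσ τ =>
    sub_eq_zero.1 (r5 k _ (by rw [nsmul_sub, tor_smul _ (hx.tor τ), hx.tor, sub_zero])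
      (r3 _ _ hσ (alg_tor (hx.tor τ))))
  have z0 : ∀ σ, Frob O 1 σ → σ (om q) = om q → cq c σ = 1 → x σ = 0 := fun σ hσ a b => by
    refine r5 k _ (hx.tor σ) ?_
    rw [hI v O σ hv hn hO hσ a, tw, b, one_smul]
    exact r3 _ _ hσ hS
  by_cases hu : ∀ σ, Frob O 1 σ → cq c σ = 1
  · refine hG c k v _ O hv hb.1 hb.2 hO (cy_two hx) hu fun σ hσ => ?_
    have h2 : Frob O 1 (σ * σ) := by simpa using v2_thm.1 O _ _ _ _ hσ hσ one_ne_zero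
    have := z0 _ h2 (om_sq_fix q σ) (hu _ h2)
    rw [hx.mul, tw, hu σ hσ, one_smul, fx σ hσ] at this
    rw [Pi.smul_apply, two_nsmul, this]
  · push Not at hu
    obtain ⟨σ₀, h0, hc⟩ := hu
    have hc' := (cq_or c σ₀).resolve_left hc
    refine ⟨-x σ₀, r1_thm.1.2.2.1 _ (alg_tor (hx.tor _)), fun σ ⟨m, hm⟩ => ?_⟩
    have a1 : Frob O (v ^ m) (σ₀ * σ) := by simpa using v2_thm.1 O _ _ _ _ h0 hm one_ne_zero
    have a2 : Frob O (v ^ m) (σ * σ₀) := by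
      simpa using v2_thm.1 O _ _ _ _ hm h0 (pow_ne_zero m hv.ne_zero)
    have a3 := z0 _ (v2_thm.2.2.1 O v m _ _ hv hO a1 a2) (om_cm q σ σ₀) (cq_cm c σ σ₀)
    have a4 := hx.mul (σ₀ * σ) ((σ₀ * σ)⁻¹ * (σ * σ₀))
    rw [mul_inv_cancel_left, a3, tw_zero, add_zero, hx.mul, hx.mul σ₀, tw.eq_1 c σ₀, hc',
      fx σ₀ h0, neg_smul, one_smul] at a4
    rw [Pi.smul_apply, tw_neg, two_nsmul, eq_sub_of_add_eq' a4]
    abel

end Pool.Agent.Lib.MP_d6ddbd_nt.KA
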