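import Pool.Agent.Lib.MP_d6ddbd_nt.KA.Stmt
import Pool.Agent.Lib.MP_d6ddbd_nt.KI.Bas
import Pool.Agent.Lib.MP_d6ddbd_nt.KI.Dk

/-!
The two-converse for all quadratic twists of `X₀(11)`: from the Kummer condition to the
conditions in the cubic field.
-/

set_option autoImplicit false
set_option maxSynthPendingDepth 3

open NumberField IsDedekindDomain Pointwise
open Pool.Agent.Lib.MP_02f36d_nt (xc yc)
open Pool.Agent.Stark (Pr og hq LSq pw SqCl cl)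
open Pool.Agent.Lib.MP_d6ddbd_nt.K11
open Pool.Agent.Lib.MP_d6ddbd_nt.KI (rt cq tw Kl vA rA cq_or cq_sq tw_n tw_sub tw_of alg_add alg_neg
  alg_zero alg_n wl_ine wl_frob ex_ov rt_sq rt_map rt_ne cq_eq_neg)

noncomputable section

namespace Pool.Agent.Lib.MP_d6ddbd_nt.KA

namespace M11

variable {O : ValuationSubring ℂ} {φ σ : G} {S4 R R' : Pt} {κ : Pt → ZMod 4} {d δ c : ℤ}

theorem an_zero : An O 0 := ⟨alg_zero, fun σ _ => by rw [smul_zero, smul_zero]⟩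

theorem an_add (h : An O R) (h' : An O R') : An O (R + R') :=
  ⟨alg_add h.1 h'.1, fun σ hσ => by rw [smul_add, smul_add, h.2 σ hσ, h'.2 σ hσ]⟩

theorem an_neg (h : An O R) : An O (-R) :=
  ⟨alg_neg h.1, fun σ hσ => by rw [smul_neg, smul_neg, h.2 σ hσ]⟩

theorem an_sub (h : An O R) (h' : An O R') : An O (R - R') := by
  rw [sub_eq_add_neg]
  exact an_add h (an_neg h')

theorem an_n (h : An O R) (n : ℕ) : An O (n • R) := by
  induction n with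
  | zero => rw [zero_nsmul]; exact an_zero
  | succ n ih => rw [succ_nsmul]; exact an_add ih h

theorem an_tw (h : An O R) (hσ : Frob O 1 σ) (e : cq d σ = cq (-11) σ) : tw d σ R = R := by
  rw [tw, h.2 σ hσ, e, smul_smul, cq_sq, one_smul]

theorem an_of (h : AlgP R) (hI : ∀ σ : G, Frob O 1 σ → cq d σ = cq (-11) σ)
    (h' : ∀ σ : G, Frob O 1 σ → tw d σ R = R) : An O R :=
  ⟨h, fun σ hσ => by
    conv_rhs => rw [← h' σ hσ, tw, hI σ hσ, smul_smul, cq_sq, one_smul]⟩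

theorem ka_zero (h : G4 O φ S4 κ) : κ 0 = 0 := by
  have := h.add 0 0 an_zero an_zero
  rw [add_zero] at this
  exact left_eq_add.1 this

theorem ka_neg (h : G4 O φ S4 κ) (hR : An O R) : κ (-R) = -κ R := by
  have := h.add R (-R) hR (an_neg hR)
  rw [add_neg_cancel, ka_zero h] at this
  exact eq_neg_of_add_eq_zero_right this.symm

theorem ka_sub (h : G4 O φ S4 κ) (hR : An O R) (hR' : An O R') : κ (R - R') = κ R - κ R' := by
  rw [sub_eq_add_neg, h.add _ _ hR (an_neg hR'), ka_neg h hR', sub_eq_add_neg]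

theorem ka_n (h : G4 O φ S4 κ) (hR : An O R) (n : ℕ) : κ (n • R) = n * κ R := by
  induction n with
  | zero => rw [zero_nsmul, ka_zero h, Nat.cast_zero, zero_mul]
  | succ n ih => rw [succ_nsmul, h.add _ _ (an_n hR n) hR, ih, Nat.cast_succ, add_mul, one_mul]

theorem s4_zero (h : G4 O φ S4 κ) (n : ℕ) : n • S4 = 0 ↔ (n : ZMod 4) = 0 := by
  refine ⟨fun e => ?_, fun e => ?_⟩
  · have := ka_n h h.an n
    rwa [e, ka_zero h, h.one, mul_one, eq_comm] at this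
  · obtain ⟨m, rfl⟩ := (ZMod.natCast_eq_zero_iff n 4).1 e
    rw [mul_comm, mul_smul, h.four, smul_zero]

theorem tw_an (h : G4 O φ S4 κ) (hR : An O R) (h0 : κ R = 0) :
    An O (tw d φ R) ∧ κ (tw d φ R) = 0 := by
  obtain ⟨a, b⟩ := h.neg R hR
  rw [h0, neg_zero] at b
  rcases cq_or d φ with e | e
  · rw [tw, e, one_smul]
    exact ⟨a, b⟩
  · rw [tw, e, neg_one_smul]
    exact ⟨an_neg a, by rw [ka_neg h a, b, neg_zero]⟩

theorem td_sf (h : TD d δ c) : Squarefree d := by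
  have p2 : Prime (2 : ℤ) := Int.prime_two
  have p11 : Prime (11 : ℤ) := Nat.prime_iff_prime_int.1 (show Nat.Prime 11 by norm_num)
  have h4 := h.fam.m4
  have h1 : Squarefree (2 * (11 * c)) :=
    squarefree_mul_iff.2 ⟨(p2.irreducible.isRelPrime_iff_not_dvd).2 (by omega), p2.squarefree,
      squarefree_mul_iff.2 ⟨(p11.irreducible.isRelPrime_iff_not_dvd).2 h.fam.n11, p11.squarefree,
        h.fam.sf⟩⟩
  refine h1.squarefree_of_dvd ?_
  rw [h.eq, mul_assoc]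
  refine mul_dvd_mul ?_ (mul_dvd_mul_right ?_ c)
  · rcases h.dl with e | e | e | e <;> rw [e] <;> norm_num
  · unfold ee
    split_ifs <;> norm_num

theorem not_dvd {v : ℕ} (hv : v.Prime) (hc : ¬ (v : ℤ) ∣ c) (h11 : (11 : ℤ) ∣ d → v ≠ 11) :
    ¬ (v : ℤ) ∣ ee d * c := fun e => by
  rcases (Nat.prime_iff_prime_int.1 hv).dvd_or_dvd e with e | e
  · unfold ee at e
    split_ifs at e with g
    · rw [dvd_neg] at e
      exact h11 g ((Nat.prime_dvd_prime_iff_eq hv (by norm_num)).1 (by exact_mod_cast e))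
    · exact (Nat.prime_iff_prime_int.1 hv).not_dvd_one e
  · exact hc e

theorem kl_two {ξ : G → Pt} {S : Pt} (hc : Coc ξ) (e : ξ σ = tw d σ S - S) :
    tw d σ (2 • S) = 2 • S := by
  have := hc.two σ
  rwa [e, smul_sub, sub_eq_zero, ← tw_n] at this

end M11

open M11 in
theorem m11_thm : M11Stmt := by
  intro d O φ S4 κ ξ X u a b h hI hX hu hξ hφ h2u hk ha hb
  obtain ⟨n, hn⟩ : ∃ n : ℕ, (n : ZMod 4) = κ (2 • X) := ⟨_, ZMod.natCast_zmod_val _⟩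
  have aS := an_n h.an n
  obtain ⟨R, aR, kR, eR⟩ := h.half _ (an_sub hX aS)
    (by rw [ka_sub h hX aS, ka_n h h.an, h.one, mul_one, hn, sub_self])
  have e2 : 2 • (X - R) = n • S4 := by rw [smul_sub, ← eR, sub_sub_cancel]
  have e4 : 4 • (X - R) = (2 * n) • S4 := by
    rw [mul_smul, ← e2, smul_smul]
    rfl
  have z2 : (2 * n) • S4 = 0 ↔ 2 * κ (2 • X) = 0 := by
    rw [s4_zero h, Nat.cast_mul, hn, Nat.cast_ofNat]
  have f2 : tw d φ (n • S4) = n • S4 := by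
    rcases cq_or d φ with e | e
    · rw [tw_n, tw_of e, h.fr, smul_neg, neg_eq_iff_add_eq_zero, ← two_nsmul, smul_smul]
      exact z2.2 (hk e)
    · rw [tw_n, tw, e, h.fr, neg_one_smul, neg_neg]
  obtain ⟨aT, kT⟩ := tw_an (d := d) h aR kR
  have aU := an_sub (an_sub aT aR) hu
  have kU : κ (tw d φ R - R - u) = -κ u := by
    rw [ka_sub h (an_sub aT aR) hu, ka_sub h aT aR, kT, kR, sub_self, zero_sub]
  have t2 : 2 • (tw d φ R - R - u) = 0 := by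
    rw [smul_sub, smul_sub, ← tw_n, ← eR, h2u, tw_sub, f2]
    abel
  refine ⟨X - R, tw d φ R - R - u, ?_, t2, fun σ hσ => ⟨?_, ?_, ?_⟩, by rw [e2, f2], ?_,
    by rw [ha, e4, z2], ?_⟩
  · rw [show 8 = 4 * 2 from rfl, mul_smul, e2, smul_comm, h.four, smul_zero]
  · rw [e2, an_tw aS hσ (hI σ hσ)]
  · rw [hξ σ hσ, tw_sub, an_tw aR hσ (hI σ hσ)]
    abel
  · rw [aU.2 σ hσ, Fin.sgn_two t2 (cq_or _ σ)]
  · rw [hφ, tw_sub]
    abel
  · have c1 : tw d φ R - R - u = 0 ↔ κ u = 0 :=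
      ⟨fun e => by rwa [e, ka_zero h, eq_comm, neg_eq_zero] at kU,
        fun e => h.inj _ aU t2 (by rw [kU, e, neg_zero])⟩
    have c2 : 2 • (X - R) ≠ 0 ↔ κ (2 • X) ≠ 0 := by rw [e2, Ne, s4_zero h, hn]
    rw [hb]
    simp only [c1, c2]

open M11 in
theorem dk11_thm (hC : CqStmt) (hN : N11Stmt) (hG : G11Stmt) (hT : T11Stmt) (hP : P11Stmt) :
    Dk11Stmt := by
  intro L _ _ θ hθ d δ c α ξ hd hα hq hc hK hkl
  have p11 : Nat.Prime 11 := by norm_num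
  by_cases h11 : (11 : ℤ) ∣ d
  · obtain ⟨O, hO⟩ := ex_ov p11
    obtain ⟨⟨e₁, e₂, e₃, A, B, hn⟩, -, ⟨φ, hφ, hφ'⟩, -⟩ := hN O hO
    obtain ⟨κ, h⟩ := hG O φ e₁ e₂ e₃ A B hO hφ hφ' hn
    obtain ⟨hI, hr⟩ := (hC d δ c hd).2.2 h11 O hO
    obtain ⟨S, hS, e⟩ := hkl O hO
    have aS : An O (2 • S) :=
      an_of (alg_n 2 hS) hI fun σ hσ => kl_two hc (e σ (wl_ine 11 hσ))
    have f2 := kl_two hc (e φ (wl_frob hφ))
    have k2 : cq d φ = 1 → 2 * κ (2 • S) = 0 := fun g => by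
      have := (h.neg _ aS).2
      rw [← tw_of g, f2] at this
      linear_combination this
    obtain ⟨r1, r2⟩ := hT L θ hθ d O φ α ξ (if 2 * κ (2 • S) = 0 then 0 else 1) _ hO hφ hφ' hI hα hq
      hc hK (m11_thm d O φ _ κ ξ S 0 _ _ h hI aS an_zero (fun σ hσ => e σ (wl_ine 11 hσ))
        (by rw [sub_zero, e φ (wl_frob hφ)]) (by rw [f2, sub_self, smul_zero]) k2
        (by split_ifs with g <;> simp [g]) rfl)
    refine ⟨fun g => by rw [r1, if_pos (k2 ((hr φ hφ hφ').2 g))], fun g => ?_⟩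
    rw [r2, if_pos (ka_zero h), if_neg (by rw [(hr φ hφ hφ').1 g]; simp), add_zero]
  · refine ⟨fun _ => ((hP L θ hθ).2.1 α hα hq).2 ?_, fun g => absurd g.1 h11⟩
    refine (link2_thm vA rA pr_thm L θ hθ α ξ hα hq hc hK).2 fun O hO =>
      (hkl O hO).unr hc.two fun σ hσ => ?_
    exact ((hC d δ c hd).2.1 11 O σ p11 (not_dvd p11 hd.fam.n11 fun g => absurd g h11) hO hσ).2
      (by norm_num)

open M11 CK in
theorem dkA_thm (hC : CqStmt) (hD2 : Dk2Stmt) (hD : Dk11Stmt) (hP2 : P2Stmt) (hP : P11Stmt)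
    (hL : LocAStmt) : DkAStmt := by
  intro L _ _ θ hθ d δ c B α ξ hd h2B h11B hB hα hN hc hK hkl
  have hL1 := link1_thm vA rA pr_thm L θ hθ
  have a2 : A2 θ d α := hD2 L θ hθ d δ c α ξ hd hα hN hc hK fun O hO =>
    let ⟨S, hS, e⟩ := hkl 2 O Nat.prime_two h2B hO
    ⟨S, hS, fun σ hσ => ⟨kl_two hc (e σ (wl_ine 2 hσ)), e σ (wl_ine 2 hσ)⟩⟩
  have a11 := hD L θ hθ d δ c α ξ hd hα hN hc hK fun O hO => hkl 11 O (by norm_num) h11B hO
  refine ⟨⟨hα, hN, a2, fun p hp hpc hpB => ?_⟩, fun 𝔭 hp => ?_, a11.2⟩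
  · by_cases h2 : p = 2
    · rw [h2]
      exact ((hP2 L θ hθ).2 d α α hα hα hN hN a2 a2).2.2
    by_cases h11 : p = 11
    · subst h11
      refine ((hP L θ hθ).2.1 α hα hN).1 (a11.1 fun g => hpB ?_)
      rw [Bx, if_pos g]
      exact Finset.mem_insert_self _ _
    · have hpB' : p ∉ B := fun g => hpB (by
        unfold Bx
        split_ifs
        exacts [Finset.mem_insert_of_mem g, g])
      exact (hL1.2.2 α ξ hα hN hc hK).1 p hp h2 h11 fun O hO =>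
        (hkl p O hp hpB' hO).unr hc.two fun σ hσ =>
          ((hC d δ c hd).2.1 p O σ hp (not_dvd hp hpc fun _ => h11) hO hσ).2 h2
  obtain ⟨hp1, hp2⟩ := Finset.mem_filter.1 hp
  obtain ⟨-, l, hl, hpl, hl'⟩ := (pr_thm L θ hθ).2.2.2.2.1 𝔭
  have hlc : (l : ℤ) ∣ c :=
    Int.natCast_dvd.2 ((hl' _ (Int.natAbs_ne_zero.2 hd.fam.sf.ne_zero)).1 hp1)
  have hld : (l : ℤ) ∣ d := hlc.trans (Dvd.intro_left _ hd.eq.symm)
  have hsf := td_sf hd
  obtain ⟨h2, h11⟩ := fam_ne hd.fam hlc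
  have hQ := (pr_thm L θ hθ).2.2.1 l hl h2 h11
  have hnm := (hQ.1 𝔭 hpl).2.2.2.2.1 hp2
  obtain ⟨e₁, -, -, r1, -⟩ := roots rA
  obtain ⟨e, -⟩ := (pr_thm L θ hθ).2.2.2.2.2.2.2.1 e₁ r1
  obtain ⟨O, he⟩ := vA.1.2.1 L e 𝔭
  have hO : Ov O l := by
    have := (vA.1.2.2.2.1 L e O 𝔭 he l (Nat.cast_ne_zero.2 hl.ne_zero)).2
      (by rw [(hQ.1 𝔭 hpl).1]; exact one_pos)
    rwa [map_natCast] at this
  have hs := rt_sq d
  obtain ⟨σ, hσ, hσs⟩ := hL1.2.1 l O (rt d) d hl hO hs hsf hld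
  obtain ⟨φ, hφ⟩ := vA.1.2.2.2.2 l O hl hO
  have hη := cq_or d φ
  obtain ⟨S, hS, h⟩ := hkl l O hl (fun g => hB l g hlc) hO
  obtain ⟨T, hT, a, b⟩ := KI.Dk.four rA hl h2 h11 hO hσ hφ hS (hc.two σ) (hc.two φ)
    (by rw [h σ (wl_ine l hσ), KI.Dk.tw_of_ne (by rw [hσs]; exact ne_neg (rt_ne hsf.ne_zero))])
    (h φ (wl_frob hφ))
  have t2 : 2 • (2 • T) = 0 := by rw [← hT]; module
  have := (hL L θ hθ d l 𝔭 e O σ φ _ _ α ξ hsf hl hld h2 h11 hpl hnm hO he hσ hφ hs hσs hη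
    (rt_map d φ) hα hN hc hK).2.2 0 (cq d φ • T) (nsmul_zero 2) (by
      rw [smul_comm, eta_two hη t2, a, eq_neg_iff_add_eq_zero, ← two_nsmul, t2]) (by
      rw [b, add_zero, KI.Dk.sz', smul_smul (cq d φ) (cq d φ), cq_sq, one_smul])
  rw [this]
  exact wl_eq_zero.2 (Or.inl rfl)

end Pool.Agent.Lib.MP_d6ddbd_nt.KA
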