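import Pool.Agent.Lib.MP_d6ddbd_nt.KA.Stmt
import Pool.Agent.Lib.MP_d6ddbd_nt.KI.Bas

/-!
The two-converse for all quadratic twists of `X₀(11)`: the roots of the cubic at a place over `11`.
-/

set_option autoImplicit false
set_option maxSynthPendingDepth 3

open Pool.Agent.Lib.MP_02f36d_nt (xc yc pt_ext)
open Pool.Agent.Lib.MP_d6ddbd_nt.K11
open Pool.Agent.Lib.MP_d6ddbd_nt.KI (rt cq cq_or cq_mul cq_of cq_eq_neg ex_ine ex_frob frob_ine)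

noncomputable section

namespace Pool.Agent.Lib.MP_d6ddbd_nt.KA

namespace N11

variable {O : ValuationSubring ℂ} {e₁ e₂ e₃ A B : ℂ} {σ : G}

theorem p11 : Nat.Prime 11 := by norm_num

theorem int_nu (hO : Ov O 11) {c : ℤ} (hc : ¬ (11 : ℤ) ∣ c) : (c : ℂ) ∉ O.nonunits :=
  V2.int_not p11 hO (by exact_mod_cast hc)

theorem two_nu (hO : Ov O 11) : (2 : ℂ) ∉ O.nonunits := by
  exact_mod_cast int_nu hO (c := 2) (by decide)

/-- The residue of a root. -/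
theorem root (hO : Ov O 11) {r : ℂ} (h : fc r = 0) : r - 8 ∈ O.nonunits ∨ r - 9 ∈ O.nonunits := by
  have hr : r ∈ O := R2.root_mem h
  have e : (r - 8) * (r - 9) ^ 2 = (56 + 35 * r - 2 * r ^ 2) * (11 : ℕ) := by
    simp only [fc] at h
    push_cast
    linear_combination h
  have m : (r - 8) * (r - 9) ^ 2 ∈ O.nonunits := by
    rw [e]
    exact V2.mul_nu (sub_mem (add_mem (ofNat_mem O 56) (mul_mem (ofNat_mem O 35) hr))
      (mul_mem (ofNat_mem O 2) (pow_mem hr 2))) hO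
  by_cases h8 : r - 8 ∈ O.nonunits
  · exact Or.inl h8
  · exact Or.inr (V2.nu_of_pow (V2.nu_of_mul m h8))

theorem vieta (h : ∀ x, fc x = (x - e₁) * (x - e₂) * (x - e₃)) :
    e₁ + e₂ + e₃ = 4 ∧ e₁ * e₂ + e₁ * e₃ + e₂ * e₃ = -160 ∧ e₁ * e₂ * e₃ = 1264 := by
  have a := h 0
  have b := h 1
  have c := h (-1)
  simp only [fc] at a b c
  exact ⟨by linear_combination (b + c) / 2 - a, by linear_combination (c - b) / 2,
    by linear_combination a⟩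

theorem mk' (h : ∀ x, fc x = (x - e₁) * (x - e₂) * (x - e₃)) (h1 : e₁ - 8 ∈ O.nonunits)
    (h2 : e₂ - 9 ∈ O.nonunits) (h3 : e₃ - 9 ∈ O.nonunits) : ∃ A B, N11 O e₁ e₂ e₃ A B := by
  obtain ⟨A, hA⟩ := IsAlgClosed.exists_pow_nat_eq (e₁ - e₂) two_pos
  obtain ⟨B, hB⟩ := IsAlgClosed.exists_pow_nat_eq (e₁ - e₃) two_pos
  by_cases m : A - B ∈ O.nonunits
  · exact ⟨A, B, h, h1, h2, h3, hA, hB, m⟩
  · refine ⟨A, -B, h, h1, h2, h3, hA, by rw [neg_sq, hB], V2.nu_of_mul ?_ m⟩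
    rw [show (A - B) * (A - -B) = e₃ - 9 - (e₂ - 9) by linear_combination hA - hB]
    exact sub_mem h3 h2

theorem ex (hO : Ov O 11) : ∃ e₁ e₂ e₃ A B, N11 O e₁ e₂ e₃ A B := by
  obtain ⟨a, b, c, h, -⟩ := R1.roots
  have s := (vieta h).1
  have k : ∀ i j l : ℤ, a - i ∈ O.nonunits → b - j ∈ O.nonunits → c - l ∈ O.nonunits →
      (11 : ℤ) ∣ 4 - i - j - l := fun i j l x y z => by_contra fun n => int_nu hO n (by
    rw [show ((4 - i - j - l : ℤ) : ℂ) = a - i + (b - j) + (c - l) by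
      push_cast; linear_combination -s]
    exact add_mem (add_mem x y) z)
  rcases root hO (r := a) (by simp [h]) with x | x <;>
    rcases root hO (r := b) (by simp [h]) with y | y <;>
    rcases root hO (r := c) (by simp [h]) with z | z
  · exact absurd (k 8 8 8 (mod_cast x) (mod_cast y) (mod_cast z)) (by decide)
  · exact absurd (k 8 8 9 (mod_cast x) (mod_cast y) (mod_cast z)) (by decide)
  · exact absurd (k 8 9 8 (mod_cast x) (mod_cast y) (mod_cast z)) (by decide)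
  · exact ⟨a, b, c, mk' h x y z⟩
  · exact absurd (k 9 8 8 (mod_cast x) (mod_cast y) (mod_cast z)) (by decide)
  · exact ⟨b, a, c, mk' (fun t => by rw [h]; ring) y x z⟩
  · exact ⟨c, a, b, mk' (fun t => by rw [h]; ring) z x y⟩
  · exact absurd (k 9 9 9 (mod_cast x) (mod_cast y) (mod_cast z)) (by decide)

theorem symm (h : N11 O e₁ e₂ e₃ A B) : N11 O e₁ e₃ e₂ B A :=
  ⟨fun t => by rw [h.fac]; ring, h.r1, h.r3, h.r2, h.sB, h.sA, by
    rw [← neg_sub]; exact neg_mem h.ab⟩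

theorem f1 (h : N11 O e₁ e₂ e₃ A B) : fc e₁ = 0 := by simp [h.fac]

theorem f2 (h : N11 O e₁ e₂ e₃ A B) : fc e₂ = 0 := by simp [h.fac]

theorem f3 (h : N11 O e₁ e₂ e₃ A B) : fc e₃ = 0 := by simp [h.fac]

theorem cases (h : N11 O e₁ e₂ e₃ A B) {r : ℂ} (hr : fc r = 0) : r = e₁ ∨ r = e₂ ∨ r = e₃ := by
  rwa [h.fac, mul_eq_zero, mul_eq_zero, sub_eq_zero, sub_eq_zero, sub_eq_zero, or_assoc] at hr

theorem not89 {r : ℂ} (h : r - 8 ∈ O.nonunits) (h' : r - 9 ∈ O.nonunits) : False :=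
  V2.one_not (O := O) (by
    rw [show (1 : ℂ) = r - 8 - (r - 9) by ring]
    exact sub_mem h h')

theorem sq1 (h : N11 O e₁ e₂ e₃ A B) : A ^ 2 - -1 ∈ O.nonunits := by
  rw [show A ^ 2 - -1 = e₁ - 8 - (e₂ - 9) by linear_combination h.sA]
  exact sub_mem h.r1 h.r2

theorem mem (h : N11 O e₁ e₂ e₃ A B) : A ∈ O :=
  V2.mem_of_pow two_ne_zero (h.sA ▸ sub_mem (R2.root_mem h.f1) (R2.root_mem h.f2))

theorem unit (h : N11 O e₁ e₂ e₃ A B) : A ∉ O.nonunits := fun m => V2.one_not (O := O) (by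
  rw [show (1 : ℂ) = A ^ 2 - -1 - A ^ 2 by ring]
  exact sub_mem h.sq1 (V2.pow_nu two_ne_zero m))

theorem ne (h : N11 O e₁ e₂ e₃ A B) : A ≠ 0 := fun e => h.unit (e ▸ zero_mem _)

theorem alg (h : N11 O e₁ e₂ e₃ A B) : IsAlgebraic ℚ A :=
  IsAlgebraic.of_pow two_pos (h.sA ▸ (R2.root_alg h.f1).sub (R2.root_alg h.f2))

theorem dbl_nu (h : N11 O e₁ e₂ e₃ A B) (hO : Ov O 11) : 2 * A ∉ O.nonunits :=
  fun m => h.unit (V2.nu_of_mul m (two_nu hO))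

theorem disc (h : N11 O e₁ e₂ e₃ A B) :
    ((e₁ - e₂) * (e₁ - e₃) * (e₂ - e₃)) ^ 2 = -(2 ^ 8 * 11 ^ 5) := by
  obtain ⟨a, b, c⟩ := vieta h.fac
  have e : ((e₁ - e₂) * (e₁ - e₃) * (e₂ - e₃)) ^ 2 =
      (e₁ + e₂ + e₃) ^ 2 * (e₁ * e₂ + e₁ * e₃ + e₂ * e₃) ^ 2 - 4 * (e₁ * e₂ + e₁ * e₃ + e₂ * e₃) ^ 3 -
        4 * (e₁ + e₂ + e₃) ^ 3 * (e₁ * e₂ * e₃) - 27 * (e₁ * e₂ * e₃) ^ 2 +
        18 * (e₁ + e₂ + e₃) * (e₁ * e₂ + e₁ * e₃ + e₂ * e₃) * (e₁ * e₂ * e₃) := by ring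
  rw [e, a, b, c]
  norm_num

theorem ne23 (h : N11 O e₁ e₂ e₃ A B) : e₂ ≠ e₃ := fun e => by
  have := h.disc
  rw [e] at this
  norm_num at this

theorem neAB (h : N11 O e₁ e₂ e₃ A B) : A - B ≠ 0 := fun e =>
  h.ne23 (by linear_combination h.sA - h.sB - (A + B) * e)

theorem curve (h : N11 O e₁ e₂ e₃ A B) : (A * B * (A - B)) ^ 2 = fc (e₁ - A * B) := by
  rw [h.fac, show e₂ = e₁ - A ^ 2 by linear_combination h.sA,
    show e₃ = e₁ - B ^ 2 by linear_combination h.sB]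
  ring

theorem dbl (h : N11 O e₁ e₂ e₃ A B) : 2 • pt (e₁ - A * B) (A * B * (A - B)) = pt e₁ 0 := by
  obtain ⟨a, b, -⟩ := vieta h.fac
  obtain ⟨p0, px, py⟩ := R1.pt_spec h.curve
  obtain ⟨q0, qx, qy⟩ := R1.pt_spec (x := e₁) (y := 0) (by rw [h.f1]; ring)
  have y0 : A * B * (A - B) ≠ 0 := mul_ne_zero (mul_ne_zero h.ne h.symm.ne) h.neAB
  obtain ⟨d0, dx⟩ := R1.dbl p0 (by rwa [py])
  rw [px, py] at dx
  have e2 : e₂ = e₁ - A ^ 2 := by linear_combination h.sA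
  have e3 : e₃ = e₁ - B ^ 2 := by linear_combination h.sB
  rw [e2, e3] at a b
  have k : fd (e₁ - A * B) = -2 * (A * B * (A - B)) * (A - B) := by
    rw [fd]
    linear_combination 2 * (e₁ - A * B) * a - b
  have x : xc (2 • pt (e₁ - A * B) (A * B * (A - B))) = e₁ := by
    refine mul_right_cancel₀ (mul_ne_zero (by norm_num : (4 : ℂ) ≠ 0) (pow_ne_zero 2 y0)) ?_
    rw [dx, k]
    linear_combination (-4) * (A * B * (A - B)) ^ 2 * a
  refine pt_ext d0 q0 (x.trans qx.symm) ?_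
  have := R1.eq1 d0
  rw [x, h.f1] at this
  rw [qy, pow_eq_zero_iff two_ne_zero |>.1 this]

theorem five (h : N11 O e₁ e₂ e₃ A B) (hO : Ov O 11) :
    ∃ u : ℂ, u ∈ O ∧ u ∉ O.nonunits ∧ (e₂ - e₃) ^ 2 = 11 ^ 5 * u := by
  have a0 := h.ne
  have b0 := h.symm.ne
  have i : ∀ {x : ℂ}, x ∉ O.nonunits → x⁻¹ ∈ O := fun {x} hx => by
    rw [ValuationSubring.mem_nonunits_iff_or, not_or, not_not] at hx
    exact hx.2
  refine ⟨-(2 ^ 8 * (A⁻¹ * B⁻¹) ^ 4), neg_mem (mul_mem (pow_mem (ofNat_mem O 2) 8)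
    (pow_mem (mul_mem (i h.unit) (i h.symm.unit)) 4)), fun m => ?_, ?_⟩
  · have := V2.mul_nu (pow_mem (mul_mem h.mem h.symm.mem) 4) (neg_mem m)
    rw [show (A * B) ^ 4 * - -(2 ^ 8 * (A⁻¹ * B⁻¹) ^ 4) = 2 ^ 8 by field_simp] at this
    exact two_nu hO (V2.nu_of_pow this)
  · have := h.disc
    rw [← h.sA, ← h.sB] at this
    field_simp
    linear_combination this

theorem fix1 (h : N11 O e₁ e₂ e₃ A B) {Q : ℕ} (hσ : Frob O Q σ) (hQ : Q ≠ 0) : σ e₁ = e₁ := by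
  have m := (V2.c2 hσ hQ ((R2.root_alg h.f1).sub (isAlgebraic_natCast 8))).2.2
    (by exact_mod_cast h.r1)
  rw [map_sub, map_natCast, Nat.cast_ofNat] at m
  rcases h.cases (r := σ e₁) (by rw [← R1.map_fc, h.f1, map_zero]) with e | e | e
  · exact e
  · exact (not89 (e ▸ m) h.r2).elim
  · exact (not89 (e ▸ m) h.r3).elim

theorem perm (h : N11 O e₁ e₂ e₃ A B) (h1 : σ e₁ = e₁) :
    (cq (-11) σ = 1 → σ e₂ = e₂ ∧ σ e₃ = e₃) ∧ (cq (-11) σ = -1 → σ e₂ = e₃ ∧ σ e₃ = e₂) := by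
  have s : ((e₁ - e₂) * (e₁ - e₃) * (e₂ - e₃) / 1936) ^ 2 = ((-11 : ℤ) : ℂ) := by
    rw [div_pow, h.disc]
    norm_num
  have a := (vieta h.fac).1
  have b : e₁ + σ e₂ + σ e₃ = 4 := by simpa [h1, map_ofNat] using congrArg σ a
  have c : σ e₂ = e₂ ∧ σ e₃ = e₃ ∧ cq (-11) σ = 1 ∨ σ e₂ = e₃ ∧ σ e₃ = e₂ ∧ cq (-11) σ = -1 := by
    rcases h.cases (r := σ e₂) (by rw [← R1.map_fc, h.f2, map_zero]) with e | e | e
    · have := σ.injective (e.trans h1.symm)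
      exact (not89 (this ▸ h.r1) h.r2).elim
    · have e' : σ e₃ = e₃ := by linear_combination b - a - e
      exact Or.inl ⟨e, e', cq_of (by decide) s (by simp [h1, e, e', map_ofNat])⟩
    · have e' : σ e₃ = e₂ := by linear_combination b - a - e
      refine Or.inr ⟨e, e', cq_of (by decide) s ?_⟩
      simp only [map_div₀, map_mul, map_sub, h1, e, e', map_ofNat]
      push_cast
      ring
  rcases c with ⟨x, y, z⟩ | ⟨x, y, z⟩
  · exact ⟨fun _ => ⟨x, y⟩, fun w => absurd (z.symm.trans w) (by decide)⟩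
  · exact ⟨fun w => absurd (z.symm.trans w) (by decide), fun _ => ⟨x, y⟩⟩

theorem ineA (h : N11 O e₁ e₂ e₃ A B) (hO : Ov O 11) (hσ : Frob O 1 σ) (e : σ e₂ = e₂) :
    σ A = A := by
  refine V2.c6 hσ h.alg h.mem (y := -A) (sq_eq_sq_iff_eq_or_eq_neg.1 ?_) ?_
  · rw [← map_pow, h.sA, map_sub, h.fix1 hσ one_ne_zero, e]
  · rw [sub_neg_eq_add, ← two_mul]
    exact h.dbl_nu hO

theorem ineB (h : N11 O e₁ e₂ e₃ A B) (hO : Ov O 11) (hσ : Frob O 1 σ) (e : σ e₂ = e₃) :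
    σ A = B := by
  have s : σ A ^ 2 = B ^ 2 := by rw [← map_pow, h.sA, h.sB, map_sub, h.fix1 hσ one_ne_zero, e]
  refine (sq_eq_sq_iff_eq_or_eq_neg.1 s).resolve_right fun n => h.dbl_nu hO ?_
  have m := (hσ A h.alg h.mem).2
  rw [n, pow_one] at m
  rw [show 2 * A = A - B - (-B - A) by ring]
  exact sub_mem h.ab m

theorem frobA (h : N11 O e₁ e₂ e₃ A B) (hO : Ov O 11) (hσ : Frob O 11 σ) (e : σ e₂ = e₂) :
    σ A = -A := by
  have s : σ A ^ 2 = A ^ 2 := by rw [← map_pow, h.sA, map_sub, h.fix1 hσ (by decide), e]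
  refine (sq_eq_sq_iff_eq_or_eq_neg.1 s).resolve_left fun n => h.dbl_nu hO ?_
  have m := (hσ A h.alg h.mem).2
  have m' := V2.mul_nu h.mem (V2.pow_sub (pow_mem h.mem 2) (neg_mem (one_mem O)) h.sq1 5)
  rw [n] at m
  rw [show 2 * A = A - A ^ 11 + A * ((A ^ 2) ^ 5 - (-1) ^ 5) by ring]
  exact add_mem m m'

theorem ex_neg (hO : Ov O 11) : ∃ σ : G, Frob O 1 σ ∧ cq (-11) σ = -1 := by
  obtain ⟨σ, a, b⟩ := ex_ine (c := -11) p11 hO
    ((Nat.prime_iff_prime_int.1 p11).neg.irreducible.squarefree) (by decide)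
  exact ⟨σ, a, cq_eq_neg.2 b⟩

theorem ex_pos (hO : Ov O 11) : ∃ φ : G, Frob O 11 φ ∧ cq (-11) φ = 1 := by
  obtain ⟨φ, a⟩ := ex_frob p11 hO
  obtain ⟨σ, b, c⟩ := ex_neg hO
  rcases cq_or (-11) φ with e | e
  · exact ⟨φ, a, e⟩
  · exact ⟨φ * σ, frob_ine a b, by rw [cq_mul, e, c]; rfl⟩

end N11

theorem n11_thm : N11Stmt := fun O hO => by
  refine ⟨N11.ex hO, fun e he m => ?_, N11.ex_pos hO, N11.ex_neg hO, fun e₁ e₂ e₃ A B h =>
    ⟨h.dbl, h.curve, h.five hO, fun σ hσ => ⟨h.fix1 hσ one_ne_zero, fun c => ?_, fun c => ?_⟩,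
      fun φ hφ c => ?_⟩⟩
  · obtain ⟨e₁, e₂, e₃, A, B, h⟩ := N11.ex hO
    rcases h.cases he with rfl | rfl | rfl
    · exact (N11.not89 h.r1 m).elim
    · exact ⟨e₁, e₃, A, B, h⟩
    · exact ⟨e₁, e₂, B, A, h.symm⟩
  · obtain ⟨a, b⟩ := (h.perm (h.fix1 hσ one_ne_zero)).1 c
    exact ⟨h.ineA hO hσ a, h.symm.ineA hO hσ b⟩
  · obtain ⟨a, b⟩ := (h.perm (h.fix1 hσ one_ne_zero)).2 c
    exact ⟨h.ineB hO hσ a, h.symm.ineB hO hσ b⟩
  · obtain ⟨a, b⟩ := (h.perm (h.fix1 hφ (by decide))).1 c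
    exact ⟨h.fix1 hφ (by decide), h.frobA hO hφ a, h.symm.frobA hO hφ b⟩

end Pool.Agent.Lib.MP_d6ddbd_nt.KA
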