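import Pool.Agent.Lib.MP_d6ddbd_nt.KA.Const0

/-!
The pairing at `11`.
-/

set_option autoImplicit false
set_option maxSynthPendingDepth 3

open NumberField IsDedekindDomain
open Pool.Agent.Stark Pool.Agent.Stark.LocAux
open Pool.Agent.Lib.MP_d6ddbd_nt.K11
open Pool.Agent.Lib.MP_d6ddbd_nt.K11.LocD (vv en hq_mul hq_comm hq_neg hq_sq hq_self vv_mul vv_zero
  hq_even)

namespace Pool.Agent.Lib.MP_d6ddbd_nt.KA

namespace P11

variable {L : Type} [Field L] [NumberField L] {𝔮 : Pr L} {θ α : L}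

theorem a11_eq (h : E2 L = {𝔮}) (α : L) : a11 α = vv 𝔮 α := by
  rw [a11, h, Finset.sum_singleton, vv]

theorem b11_eq (h : E2 L = {𝔮}) (θ α : L) : b11 θ α = hq 𝔮 α (fd θ) := by
  rw [b11, h, Finset.sum_singleton]

theorem hq_lsq {a : L} (ha : a ≠ 0) (h : LSq 𝔮 a) (c : L) : hq 𝔮 a c = 0 :=
  hs_of_isSquare_left (isLoc_wv 𝔮).two (en ha) h _

end P11

open P11 in
theorem p11_thm : P11Stmt := by
  intro L _ _ θ hθ
  obtain ⟨𝔭, 𝔮, hab, hs, e2, t1, t2, v1, v2, -, sq, n1, n2, -, par⟩ := Const.el hθ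
  have f0 := Const.fd_ne hθ
  have n0 : (11 : L) ≠ 0 := by norm_num
  have m0 : (-1 : L) ≠ 0 := by norm_num
  have vm : ∀ 𝔯 : Pr L, vv 𝔯 (-1 : L) = 0 := fun 𝔯 => by simp [vv, og]
  simp only [a11_eq e2, b11_eq e2]
  refine ⟨fun α α' a b => ⟨vv_mul a b, hq_mul a b f0, ?_, ?_⟩, fun α a hN => ⟨fun h 𝔯 hr => ?_,
    fun h => vv_zero.2 (h 𝔮 ((hab 𝔮).2 (Or.inr rfl)))⟩, fun α α' a b hN hN' => ?_⟩
  · rw [pow_two, vv_mul a a, CharTwo.add_self_eq_zero]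
  · rw [pow_two, hq_mul a a f0, CharTwo.add_self_eq_zero]
  · rcases (hab 𝔯).1 hr with rfl | rfl
    · exact vv_zero.1 ((par α a hN).trans h)
    · exact vv_zero.1 h
  · have key : ∀ γ : L, γ ≠ 0 → IsSquare (Algebra.norm ℚ γ) → hq 𝔭 γ 11 = vv 𝔮 γ :=
      fun γ g hG => by
        have h1 := pfAll L θ hθ 11 γ 11 (by norm_num) g hG (by norm_num)
        rw [hs, show ((11 : ℚ) : L) = 11 by norm_num, CharTwo.add_eq_zero] at h1
        rw [h1, hq_comm g n0, show (11 : L) = -11 * -1 by ring, hq_mul (neg_ne_zero.2 n0) m0 g,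
          hq_lsq (neg_ne_zero.2 n0) sq, zero_add, hq_even t2 m0 g (vm 𝔮), n2, one_mul]
    rw [hs, LocD.tame t1 a b n0 v1, LocD.tame t2 a b f0 v2, key α a hN, key α' b hN',
      par α a hN, par α' b hN', hq_even t1 m0 n0 (vm 𝔭), hq_even t2 m0 f0 (vm 𝔮), n1, n2, v1, v2]
    generalize vv 𝔮 α = x
    generalize vv 𝔮 α' = y
    generalize hq 𝔮 α (fd θ) = z
    generalize hq 𝔮 α' (fd θ) = u
    revert x y z u
    decide

end Pool.Agent.Lib.MP_d6ddbd_nt.KA
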