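import Pool.Agent.Lib.MP_d6ddbd_nt.KA.Stmt
import Pool.Agent.Lib.MP_d6ddbd_nt.K11.LocD
import Pool.Agent.Lib.MP_d6ddbd_nt.K11.Two
import Pool.Agent.Lib.MP_d6ddbd_nt.K11.PF
import Pool.Agent.Lib.MP_d6ddbd_nt.K11.Pr

/-!
The two-converse for all quadratic twists of `X₀(11)`: the pairing at `2`.
-/

set_option autoImplicit false

open NumberField IsDedekindDomain
open Pool.Agent.Stark (Pr og hq LSq pw)
open Pool.Agent.Lib.MP_d6ddbd_nt.K11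

noncomputable section

namespace Pool.Agent.Lib.MP_d6ddbd_nt.KA

namespace P2

variable {L : Type} [Field L] [NumberField L] {θ α α' β : L}

theorem h2_mul (ha : α ≠ 0) (hb : α' ≠ 0) (hc : β ≠ 0) :
    h2 (α * α') β = h2 α β + h2 α' β := by
  unfold h2
  rw [← Finset.sum_add_distrib]
  exact Finset.sum_congr rfl fun _ _ => LocD.hq_mul ha hb hc

theorem h2_comm (ha : α ≠ 0) (hc : β ≠ 0) : h2 α β = h2 β α :=
  Finset.sum_congr rfl fun _ _ => LocD.hq_comm ha hc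

theorem h2_sq (ha : α ≠ 0) (hc : β ≠ 0) : h2 (α ^ 2) β = 0 := by
  rw [sq, h2_mul ha ha hc, CharTwo.add_self_eq_zero]

theorem even2 (hθ : Cub θ) (ha : α ≠ 0) (hs : IsSquare (Algebra.norm ℚ α)) :
    ∀ 𝔭 ∈ ab L 2, Even (og 𝔭 α) := fun 𝔭 h => by
  obtain ⟨⟨ϑ, -, -, 𝔮, hA, n, -⟩, -, -, p4, -⟩ := pr_thm L θ hθ
  have := (p4 2 α Nat.prime_two ha).2 hs
  rw [hA, Finset.mem_singleton] at h
  rw [hA, Finset.sum_singleton, n] at this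
  rw [show Nat.log 2 2 = 1 by norm_num, Nat.cast_one, one_mul] at this
  rwa [h]

end P2

open P2 in
theorem p2_thm (hC : ConstStmt) : P2Stmt := by
  intro L _ _ θ hθ
  refine ⟨fun α α' β ha hb hc => ⟨h2_mul ha hb hc, h2_comm ha hc, h2_sq ha hc⟩,
    fun d α α' ha hb sa sb ta tb => ?_⟩
  obtain ⟨t1, t2, -, t4, -⟩ := two_thm pr_thm (pf_thm pr_thm) L θ hθ
  obtain ⟨⟨g0, gs, gn, ge, -, gg, -⟩, -⟩ := hC L θ hθ
  refine ⟨⟨fun o => t1 α α' ha hb (ta.1 o) (tb.1 o), fun e => by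
    rw [h2_mul ha hb g0, ta.2 e, tb.2 e, add_zero]⟩, ?_, even2 hθ ha sa⟩
  rcases Int.even_or_odd d with e | o
  · have key : ∀ x : L, x ≠ 0 → IsSquare (Algebra.norm ℚ x) → h2 x (gm2 θ) = 0 →
        ∃ y : L, y ≠ 0 ∧ IsSquare (Algebra.norm ℚ y) ∧ At2 y ∧ h2 y (gm2 θ) = 0 ∧
          ∀ z : L, z ≠ 0 → h2 z (gm2 θ) = 0 → h2 x z = h2 y z := fun x x0 xs xg => by
      by_cases h : At2 x
      · exact ⟨x, x0, xs, h, xg, fun _ _ _ => rfl⟩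
      · refine ⟨x * gm2 θ, mul_ne_zero x0 g0, by rw [map_mul]; exact xs.mul gs,
          t2 x _ x0 g0 (fun 𝔭 k => ⟨even2 hθ x0 xs 𝔭 k, ge 𝔭⟩) h gn, ?_, fun z z0 zg => ?_⟩
        · rw [h2_mul x0 g0 g0, xg, gg, add_zero]
        · rw [h2_mul x0 g0 z0, h2_comm g0 z0, zg, add_zero]
    obtain ⟨y, y0, ys, ya, yg, hy⟩ := key α ha sa (ta.2 e)
    obtain ⟨y', y0', ys', ya', -, hy'⟩ := key α' hb sb (tb.2 e)
    rw [hy α' hb (tb.2 e), h2_comm y0 hb, hy' y y0 yg]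
    exact Finset.sum_eq_zero (t4 y' y y0' y0 ys' ys ya' ya)
  · exact Finset.sum_eq_zero (t4 α α' ha hb sa sb (ta.1 o) (tb.1 o))

end Pool.Agent.Lib.MP_d6ddbd_nt.KA
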