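import Pool.Agent.Lib.MP_d6ddbd_nt.KA.Stmt
import Pool.Agent.Lib.MP_d6ddbd_nt.K11.AllX

/-! From the twisted Heegner points to the twisted Heegner system. -/

set_option autoImplicit false

open Pointwise
open Pool.Agent.Lib.MP_9177b7_ag.CM (hyp mem_smul_iff isLat_ord)
open Pool.Agent.Lib.MP_9177b7_ag.CM.Idl (mem_O)
open Pool.Agent.Lib.MP_d6ddbd_nt.K11
open Pool.Agent.Lib.MP_d6ddbd_nt.KI (cq)

noncomputable section

namespace Pool.Agent.Lib.MP_d6ddbd_nt.KA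

namespace PA

open PLoc in
theorem frob_kp {q : ℕ} [hq : Fact (q % 4 = 3)] (hp : q.Prime) (h44 : 44 < q) {v : ℕ}
    (hv : v.Prime) {O : ValuationSubring ℂ} {σ : G} (hO : Ov O v) (hF : Frob O v σ)
    (hσ : σ (om q) = om q) : ∃ π ∈ OK q, Complex.normSq π = (v : ℝ) ^ hh q ∧
      ∀ l : ℕ, l ≠ 0 → ¬ v ∣ l → ar q l σ ^ hh q = kp q l π := by
  have hF' := frob_pow vAll hF hv.ne_zero (hh q)
  have hσ' := pow_fix hσ (hh q)
  obtain ⟨M, hM⟩ := hyp.exists_conj ((σ ^ hh q : G) : ℂ →+* ℂ) (isLat_ord (him (q := q)))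
  have h1 := (((pic_thm q hp h44).2 1 one_ne_zero).2.2.2 _ hσ').1 1 _ M
    (Oc_one q ▸ cl_one : Cl (1 : Pic q 1) (OK q)) hM
  rw [ar_pow pic_thm hp h44 one_ne_zero hσ, hh, pow_card_eq_one', mul_one] at h1
  obtain ⟨μ, h2, rfl⟩ := cl_one.exists_smul h1
  rw [Oc_one] at hM
  obtain ⟨π, h3, h4, h5⟩ := g1All q v _ O _ μ hp h44 hq.out hv hO hF' hσ' h2 hM
  refine ⟨π, h3, h4, fun l hl hvl => ?_⟩
  obtain ⟨-, b1, b2, -⟩ := (kerAll q hp h44 l hl).2.1 π (cop_pow hv hvl h3 h4)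
  have h6 := h5 l (Oc q l) hvl (fun z hz => by
    obtain ⟨y, hy, rfl⟩ := mem_smul_iff.1 hz
    obtain ⟨a, b, rfl⟩ := mem_O.1 hy
    exact mem_O.2 ⟨l * a, b, by push_cast; ring⟩) (Oc_le_OK l)
  rw [b2] at h6
  have h7 := (((pic_thm q hp h44).2 l hl).2.2.2 _ hσ').1 1 _ _ cl_one h6
  rw [mul_one, ar_pow pic_thm hp h44 hl hσ] at h7
  exact h7.unique (b1.smul h2)

/-- A Frobenius element at a split prime, at all conductors dividing `c` at once. -/
theorem frob_lam {q : ℕ} [hq : Fact (q % 4 = 3)] (hp : q.Prime) (h44 : 44 < q) {v c : ℕ} {r : ℤ}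
    (hv : v.Prime) (h2 : v ≠ 2) (hvq : v ≠ q) (hr : Rt q v r) (hc : c ≠ 0) (hvc : ¬ v ∣ c)
    {O : ValuationSubring ℂ} {σ : G} (hO : Ov O v) (hF : Frob O v σ) :
    ∃ w : ℤ, Odd w ∧ ∀ l, l ∣ c → ar q l σ ^ (hh q : ℤ) = lam q l v r ^ w := by
  have hσ := (vAll.2.1.2.2.2.2.2.2.2.1 q v O σ hp hq.out hv h2 hvq hO hF).2
    (((kerAll q hp h44 c hc).2.2.2.2.1 v hv h2).2 ⟨r, hr⟩)
  obtain ⟨π, h1, h3, h4⟩ := frob_kp hp h44 hv hO hF hσ
  obtain ⟨w, w1, w2⟩ := PLoc.kp_eq kerAll hp h44 hc hv hvq hvc hr h1 h3 (pic_thm q hp h44).1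
  refine ⟨w, w1, fun l hl => ?_⟩
  have e := congrArg (res l) ((h4 c hc hvc).trans w2)
  rwa [map_pow, map_zpow, (((pic_thm q hp h44).2 c hc).2.2.2 σ hσ).2.2.2 l hl,
    (((kerAll q hp h44 c hc).2.2.2.2.2 v r hv hvq hvc hr).2.2.2.2.2.2 l hl).2, ← zpow_natCast] at e

theorem sm (σ : G) (m : ℤ) (z : Pt) : σ • m • z = m • σ • z :=
  map_zsmul (DistribSMul.toAddMonoidHom Pt σ) m _

section

variable {M : Type} [AddCommGroup M] (m a e : ℤ) (t u v : M)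

theorem z2 : m • (a • t - e • u - e • v) = a • m • t - e • m • u - e • m • v := by module

theorem z3 : m • (t - e • u) = m • t - e • m • u := by module

theorem z5 : m • t - m • u = m • (t - u) := by module

end

end PA

open PAsm Classical in
theorem pa_thm : PAStmt := by
  intro Pp a t0 hX q _ hq b δ Q k hb hQ hk
  have hPic := (pic_thm q hq.pr hq.big).2
  have hKer := kerAll q hq.pr hq.big
  have h11 : Nat.Prime 11 := by norm_num
  have q11 : 11 ≠ q := by have := hq.big; omega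
  have rt := (hKer 1 one_ne_zero).2.2.2.2.1
  have hb' := ((hKer 1 one_ne_zero).2.2.2.2.2 11 b h11 q11 (by norm_num) hb).1
  choose! r hr using fun l h h' => (rt l h h').1
  have ex : ∀ l, ∃ (g : Pic q l → ZMod (2 ^ k l)) (dl : ℂ → ZMod (2 ^ k l)),
      k l ≠ 0 → Co l (k l) g dl := fun l => by
    by_cases h : k l = 0
    · exact ⟨0, 0, fun z => (z h).elim⟩
    · obtain ⟨a1, a2, a4, a5, a6⟩ := hk l h
      exact (co_thm kerAll q hq.pr hq.big l (k l) a1 a2 a4 h a5 a6).imp fun _ h =>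
        h.imp fun _ h _ => h
  choose g dl hC using ex
  have cs : ∀ {l} {x y : ZMod (2 ^ k l)}, (k l ≠ 0 → x = y) → x = y := fun {l x y} h =>
    (_root_.em (k l = 0)).elim (fun z => sub z x y) h
  have hg : ∀ l x y, g l (x * y) = g l x + g l y := fun l x y => cs fun h => (hC l h).g_mul x y
  have pl := fun l (h : k l ≠ 0) => ploc_thm vAll g1All pic_thm kerAll q hq.pr hq.big l (k l) _ _
    (hk l h).1 (hk l h).2.1 (hk l h).2.2.1 h (hC l h)
  have ex : ∀ n, ∃ s : Finset (Pic q n), n ≠ 0 → ∀ x, x ∈ s := fun n => by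
    by_cases h : n = 0
    · exact ⟨∅, fun z => (z h).elim⟩
    · have := (hPic n h).1
      exact ⟨Set.finite_univ.toFinset, fun _ x => by simp⟩
  choose s hs using ex
  have n0 : ∀ {c}, Cd k c → ∏ l ∈ c, l ≠ 0 := fun h =>
    Finset.prod_ne_zero_iff.2 fun l hl => (hk l (h l hl)).1.ne_zero
  have nd : ∀ {c l}, Cd k c → l.Prime → l ∉ c → ¬ l ∣ ∏ l ∈ c, l := fun {c l} h hl hc z => by
    obtain ⟨l', a1, a2⟩ := (Prime.dvd_finsetProd_iff hl.prime _).1 z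
    exact hc ((Nat.prime_dvd_prime_iff_eq hl (hk l' (h l' a1)).1).1 a2 ▸ a1)
  have ok : ∀ {c}, Cd k c → Ok (∏ l ∈ c, l) := fun {c} h =>
    ⟨Finset.squarefree_prod_of_pairwise_isCoprime (fun x hx y hy e => Nat.coprime_iff_isRelPrime.1
      ((Nat.coprime_primes (hk x (h x hx)).1 (hk y (h y hy)).1).2 e))
      fun l hl => (hk l (h l hl)).1.squarefree,
    Nat.not_even_iff_odd.1 fun e => nd h Nat.prime_two (fun z => (hk 2 (h 2 z)).2.1 rfl)
      (even_iff_two_dvd.1 e)⟩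
  have dv : ∀ c : Finset ℕ, ∀ l ∈ c, l ∣ ∏ l ∈ c, l := fun c l hl => Finset.dvd_prod_of_mem _ hl
  have fl : ∀ c l, Cd k c → l ≠ 0 → ∀ (x : Pic q (∏ l ∈ c, l)) y,
      y ∈ (s (l * ∏ l ∈ c, l)).filter (fun y => res _ y = x) ↔ res _ y = x :=
    fun c l h hl x y => by simp [hs _ (mul_ne_zero hl (n0 h))]
  have hi := fun c l (h : Cd k c) (hl : k l ≠ 0) (hc : l ∉ c) (sp : ¬ Spl q l) x =>
    hQ.inert _ l x _ (ok h) (hk l hl).1 (hk l hl).2.1 (hk l hl).2.2.1 (nd h (hk l hl).1 hc) sp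
      (fl c l h (hk l hl).1.ne_zero x)
  have lm : ∀ c (v : ℕ) (t : ℤ), Cd k c → v.Prime → v ≠ q → v ∉ c → Rt q v t → ∀ l ∈ c,
      gv g (lam q (∏ l ∈ c, l) v t) l = g l (lam q l v t) := fun c v t h hv hvq hc ht l hl =>
    congrArg (g l) (((hKer _ (n0 h)).2.2.2.2.2 v t hv hvq (nd h hv hc) ht).2.2.2.2.2.2 l
      (dv c l hl)).2
  refine ⟨fun c => T g s Q (∏ l ∈ c, l), fun σ l => g l (ar q l σ),
    fun l => g l (lam q l 11 (1 - b)), fun v l => g l (lam q l v (r v)), fun c Φ h => ?_,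
    fun σ τ h h' => funext fun l => cs fun z => ?_, fun σ h => funext fun l => cs fun z => ?_,
    fun c Φ σ h hΦ hσ => ?_, fun c Φ h hΦ hc => ?_, fun c Φ h hΦ hc => ?_,
    fun c Φ l h hΦ hl hc sp => ?_, fun c Φ l h hΦ hl hc sp l11 => ?_, fun c Φ h hΦ hl hc => ?_,
    fun c Φ p O φ h hΦ hl hc sp hO hφ => ?_,
    fun v O σ l h1 h2 h3 h4 h5 => cs fun z => (pl l z).1 v O σ h1 h5.symm h2 h3 h4,
    fun l O φ l' hl sp hO hφ ne => ?_, fun σ l s h hl => (pl l hl).2.1 σ s h,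
    fun l hl l11 => ((pl l hl).2.2 11 _ h11 (by norm_num) l11.symm q11 hb').1,
    fun l p π i O hl sp hp sp' hi hπ hO => ?_, hX.es, fun O φ l l' hO hF hl hl' l11 l11' => ?_,
    fun v O φ hv hO hF hφ => ?_, fun X h1 h2 => ?_⟩
  · let H : AddSubgroup Pt := ⟨⟨⟨{P | AlgP P}, fun {x y} => rAll.1.1.2.1 x y⟩, rAll.1.1.1⟩,
      fun {x} => rAll.1.1.2.2.1 x⟩
    exact H.sum_mem fun x _ => H.zsmul_mem (hQ.alg _ x (ok h)) _
  · exact (congrArg _ (((hPic l (hk l z).1.ne_zero).2.2.2 σ h).2.1 τ h')).trans (hg l _ _)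
  · exact (congrArg _ ((hPic l (hk l z).1.ne_zero).2.2.2 σ h).2.2.1).trans (g_inv hg l _)
  · rw [← shift hg (hs _ (n0 h)) hΦ (ar q _ σ) _ fun l hl =>
      congrArg (g l) (((hPic _ (n0 h)).2.2.2 σ hσ).2.2.2 l (dv c l hl)), T_eq, Finset.smul_sum,
      Finset.smul_sum]
    exact Finset.sum_congr rfl fun x _ => by rw [PA.sm, hQ.act _ x σ (ok h) hσ, smul_comm]
  · rw [← PAsm.flip hg (hs _ (n0 h)) hΦ (lam q _ 11 (1 - b)) _ (lm c 11 _ h h11 q11 hc hb'), T_eq,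
      Finset.smul_sum, Finset.smul_sum]
    exact Finset.sum_congr rfl fun x _ => by
      rw [PA.sm, hQ.conj0 _ x (ok h) (nd h h11 hc), smul_comm]
  · have e := PAsm.flip (P := Q) hg (hs _ (n0 h)) hΦ 1 0 fun l _ => by
      have a : g l 1 = 0 := by simpa using hg l 1 1
      rw [gv, map_one, a, Pi.zero_apply]
    simp only [zero_sub, one_mul] at e
    rw [← e, T_eq, Finset.smul_sum]
    exact Finset.sum_congr rfl fun x _ => by rw [PA.sm, hQ.conj1 _ x (ok h) (dv c 11 hc)]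
  · rw [Finset.prod_insert hc, push (hs _ (n0 h)) hΦ (dv c), T_eq, Finset.smul_sum]
    exact Finset.sum_congr rfl fun x _ => by rw [(hi c l h hl hc sp x).1, smul_comm]
  · have r1 := hr l (hk l hl).1 (hk l hl).2.1 sp
    have r2 := lm c l _ h (hk l hl).1 (hk l hl).2.2.1 hc r1
    have r3 := shift (P := Q) hg (hs _ (n0 h)) hΦ (lam q _ l (r l))⁻¹
      (-fun l' => g l' (lam q l' l (r l))) fun l' hl' => by
        rw [Pi.neg_apply, ← r2 l' hl', gv, gv, map_inv, g_inv hg]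
    simp only [sub_neg_eq_add] at r3
    rw [Finset.prod_insert hc, push (hs _ (n0 h)) hΦ (dv c), ← shift hg (hs _ (n0 h)) hΦ _ _ r2,
      ← r3, T_eq, Finset.smul_sum, Finset.smul_sum, Finset.smul_sum, ← Finset.sum_sub_distrib,
      ← Finset.sum_sub_distrib]
    exact Finset.sum_congr rfl fun x _ => by
      rw [hQ.split _ l _ x _ (ok h) (hk l hl).1 (hk l hl).2.1 l11 (hk l hl).2.2.1
        (nd h (hk l hl).1 hc) r1 (fl c l h (hk l hl).1.ne_zero x), PA.z2]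
  · rw [Finset.prod_insert hc, push (hs _ (n0 h)) hΦ (dv c),
      ← shift hg (hs _ (n0 h)) hΦ _ _ (lm c 11 _ h h11 q11 hc hb'), T_eq, Finset.smul_sum,
      ← Finset.sum_sub_distrib]
    exact Finset.sum_congr rfl fun x _ => by
      rw [hQ.eleven _ x _ (ok h) (nd h h11 hc) (fl c 11 h h11.ne_zero x), PA.z3]
  · rw [Finset.prod_insert hc, T_eq, T_eq, fib (hs _ (n0 h)), Finset.smul_sum,
      ← Finset.sum_sub_distrib]
    refine (E1 O).sum_mem fun x _ => ?_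
    rw [← cnt (hs _ (mul_ne_zero (hk p hl).1.ne_zero (n0 h))) hΦ (dv c) hc x
      (fib_thm pic_thm kerAll q hq.pr hq.big _ p _ _ _ (n0 h) (hk p hl).1 (hk p hl).2.1
        (hk p hl).2.2.1 (nd h (hk p hl).1 hc) sp ((hk p hl).2.2.2.2 sp) (hC p hl) x), PA.sm, z4,
      ← Finset.sum_sub_distrib]
    refine (E1 O).sum_mem fun y hy => ?_
    rw [PA.z5]
    exact (E1 O).zsmul_mem ((hi c p h hl hc sp x).2 O φ hO hφ y hy) _
  · by_cases z : k l' = 0
    · exact ⟨1, odd_one, sub z _ _⟩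
    · exact ((pl l' z).2.2 l _ (hk l hl).1 (hk l hl).2.1 ne.symm (hk l hl).2.2.1
        (hr l (hk l hl).1 (hk l hl).2.1 sp)).2.1 O φ hO hφ
  · obtain ⟨c1, u, hu, e⟩ := ((pl p hp).2.2 l _ (hk l hl).1 (hk l hl).2.1 (fun z => sp' (z ▸ sp))
      (hk l hl).2.2.1 (hr l (hk l hl).1 (hk l hl).2.1 sp)).2.2 π hπ
    rw [← (hC p hp).val π i O sp' c1 hi hO, ← odd_val hu hi (dl p π), ← e]
  · obtain ⟨w, w1, w2⟩ := PA.frob_lam (c := l * l') hq.pr hq.big h11 (by norm_num) q11 hb'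
      (mul_ne_zero (hk l hl).1.ne_zero (hk l' hl').1.ne_zero) (fun z => by
        rcases (Nat.Prime.dvd_mul h11).1 z with z | z
        · exact l11 ((Nat.prime_dvd_prime_iff_eq h11 (hk l hl).1).1 z).symm
        · exact l11' ((Nat.prime_dvd_prime_iff_eq h11 (hk l' hl').1).1 z).symm) hO hF
    refine ⟨hh q, w, by exact_mod_cast (pic_thm q hq.pr hq.big).1, w1, ?_, ?_⟩
    · rw [← PLoc.g_zpow (hC l hl), ← PLoc.g_zpow (hC l hl), w2 l (dvd_mul_right l l')]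
    · rw [← PLoc.g_zpow (hC l' hl'), ← PLoc.g_zpow (hC l' hl'), w2 l' (dvd_mul_left l' l)]
  · obtain ⟨π, h1, h2, h3⟩ := PA.frob_kp hq.pr hq.big hv hO hF hφ
    refine ⟨π, h1, ⟨_, h2⟩, fun l O' hl hlv sp hO' e => ?_⟩
    have nv : ¬ v ∣ l := fun h => hlv ((Nat.prime_dvd_prime_iff_eq hv (hk l hl).1).1 h).symm
    have hc := PLoc.cop_pow hv nv h1 h2
    exact ((hC l hl).g_eq _ π hc (h3 l (hk l hl).1.ne_zero nv)).trans ((ZMod.val_eq_zero _).1
      (Nat.eq_zero_of_dvd_of_lt (((hC l hl).val π _ O' sp hc le_rfl hO').2 e) (ZMod.val_lt _)))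
  · rw [Finset.prod_empty, T_eq]
    simpa only [one_zsmul] using hQ.base _ X (hs 1 one_ne_zero) h1 h2

end Pool.Agent.Lib.MP_d6ddbd_nt.KA
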