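import Pool.Agent.Lib.MP_d6ddbd_nt.KA.Stmt
import Pool.Agent.Lib.MP_d6ddbd_nt.KI.Qch
import Pool.Agent.Lib.MP_d6ddbd_nt.KI.Basis
import Pool.Agent.Lib.MP_d6ddbd_nt.KI.Fr
import Pool.Agent.Lib.MP_d6ddbd_nt.KI.Tr
import Pool.Agent.Lib.MP_d6ddbd_nt.KI.Fb
import Pool.Agent.Lib.MP_d6ddbd_nt.KI.Fv
import Pool.Agent.Lib.MP_d6ddbd_nt.KI.Cm

/-!
The choice of the auxiliary prime `q` for all twists.
-/

set_option autoImplicit false
set_option maxSynthPendingDepth 3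

open NumberField
open Pool.Agent.Lib.MP_02f36d_nt (xc yc)
open Pool.Agent.Stark (og SqCl cl zmod2_cases cl_eq_zero cl_mul)
open Pool.Agent.Lib.MP_d6ddbd_nt.K11
open Pool.Agent.Lib.MP_d6ddbd_nt.KI (rt cq tw Cy Cb Kl Sel Hm Wq Two rep Aq Sg cup FinSel Al Ag)
open Pool.Agent.Lib.MP_d6ddbd_nt.KI.RelA
open Pool.Agent.Lib.MP_d6ddbd_nt.KI.QchA hiding Hit
open Pool.Agent.Lib.MP_d6ddbd_nt.KI.Cm (pt_root fix_root emb_ext fc_emb inv_kum cob_cb)

noncomputable section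

namespace Pool.Agent.Lib.MP_d6ddbd_nt.KA

namespace Qch

theorem exl {V : Type} [AddCommGroup V] [Module (ZMod 2) V] {u v w : V} (hu : u ≠ 0) (hv : v ≠ 0)
    (hw : w ≠ 0) (h : u + v + w ≠ 0) :
    ∃ f : V →ₗ[ZMod 2] ZMod 2, f u = 1 ∧ f v = 1 ∧ f w = 1 := by
  have n : u ∉ Submodule.span (ZMod 2) {u + v, u + w} := fun k => by
    obtain ⟨a, b, e⟩ := Submodule.mem_span_pair.1 k
    rcases zmod2_cases a with rfl | rfl <;> rcases zmod2_cases b with rfl | rfl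
    · exact hu (by simpa using e.symm)
    · exact hw (by simpa using e)
    · exact hv (by simpa using e)
    · rw [one_smul, one_smul, ← sub_eq_zero] at e
      exact h (by rw [← e]; abel)
  obtain ⟨f, k1, k2⟩ := Submodule.exists_dual_map_eq_bot_of_notMem n inferInstance
  have k : ∀ x ∈ ({u + v, u + w} : Set V), f x = 0 := fun x hx => by
    have := Submodule.mem_map_of_mem (f := f) (Submodule.subset_span (R := ZMod 2) hx)
    rwa [k2, Submodule.mem_bot] at this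
  have f1 := (zmod2_cases _).resolve_left k1
  have a := k _ (Or.inl rfl)
  have b := k _ (Or.inr rfl)
  rw [map_add, f1] at a b
  refine ⟨f, f1, (zmod2_cases _).resolve_left fun e => ?_, (zmod2_cases _).resolve_left fun e => ?_⟩
  · simp [e] at a
  · simp [e] at b

theorem val_add {T : Pt} (h : 2 • T = 0) (a b : ZMod 2) :
    (a + b).val • T = a.val • T + b.val • T := by
  rcases zmod2_cases a with rfl | rfl <;> rcases zmod2_cases b with rfl | rfl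
  · simp
  · simp
  · simp
  · rw [ZMod.val_one, one_smul, ← two_nsmul T, h]
    exact zero_nsmul T

theorem val_mul (T : Pt) (a b : ZMod 2) : (a * b).val • T = a.val • b.val • T := by
  rcases zmod2_cases a with rfl | rfl
  · simp
  · rw [one_mul, ZMod.val_one, one_smul]

theorem val_sum {T : Pt} (h : 2 • T = 0) {ι : Type} (s : Finset ι) (a : ι → ZMod 2) :
    (∑ i ∈ s, a i).val • T = ∑ i ∈ s, (a i).val • T := by
  classical
  induction s using Finset.induction_on with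
  | empty => simp
  | insert i s hi ih => rw [Finset.sum_insert hi, Finset.sum_insert hi, val_add h, ih]

/-- A change of basis. -/
theorem rebase {d : ℤ} {r : ℕ} {A : Fin (r + 1) → G → Pt} (μ : Fin r → ZMod 2)
    (a1 : ∀ i, Sel d 1 ∅ (A i) ∧ A i cj = 0) (a2 : ∀ a, Cb d (rep A a) → a = 0)
    (a3 : ∀ x, Sel d 1 ∅ x → ∃ a, Cb d (x - rep A a)) :
    ∃ B : Fin (r + 1) → G → Pt, B 0 = A 0 ∧ (∀ i, B i.succ = A i.succ + (μ i).val • A 0) ∧
      (∀ i, Sel d 1 ∅ (B i) ∧ B i cj = 0) ∧ (∀ a, Cb d (rep (fun i => B i.succ) a) → a = 0) ∧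
      ∀ x, Sel d 1 ∅ x → ∃ a, Cb d (x - rep B a) := by
  obtain ⟨B, e0, e1⟩ : ∃ B : Fin (r + 1) → G → Pt, B 0 = A 0 ∧
      ∀ i, B i.succ = A i.succ + (μ i).val • A 0 :=
    ⟨Matrix.vecCons (A 0) fun i => A i.succ + (μ i).val • A 0, rfl, fun _ => rfl⟩
  have k : ∀ a, rep B a = rep A (Matrix.vecCons (a 0 + ∑ i, a i.succ * μ i) fun i => a i.succ) :=
    fun a => funext fun σ => by
      have t := cy_two (a1 0).1.cy σ
      simp only [rep_app, Fin.sum_univ_succ, e0, e1, Matrix.cons_val_zero, Matrix.cons_val_succ,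
        Pi.add_apply, Pi.smul_apply, smul_add, Finset.sum_add_distrib, val_add t, val_sum t,
        val_mul]
      abel
  refine ⟨B, e0, e1, fun i => ?_, fun a h => funext fun i => ?_, fun x hx => ?_⟩
  · refine Fin.cases (e0 ▸ a1 0) (fun i => ?_) i
    rw [e1]
    exact ⟨(a1 _).1.add ((a1 0).1.nat _), by
      rw [Pi.add_apply, Pi.smul_apply, (a1 _).2, (a1 0).2, smul_zero, add_zero]⟩
  · have e : rep (fun i => B i.succ) a = rep B (Matrix.vecCons 0 a) := funext fun σ => by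
      simp [rep_app, Fin.sum_univ_succ]
    rw [e, k] at h
    simpa using congrFun (a2 _ h) i.succ
  · obtain ⟨a, h⟩ := a3 x hx
    refine ⟨Matrix.vecCons (a 0 + ∑ i, a i.succ * μ i) fun i => a i.succ, ?_⟩
    rw [k]
    convert h using 3
    funext i
    refine Fin.cases ?_ (fun i => ?_) i
    · simp only [Matrix.cons_val_zero, Matrix.cons_val_succ]
      rw [add_assoc, CharTwo.add_self_eq_zero, add_zero]
    · simp

theorem td_ne {d δ c : ℤ} (h : TD d δ c) : d ≠ 0 := by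
  rw [h.eq]
  refine mul_ne_zero (mul_ne_zero ?_ ?_) h.fam.sf.ne_zero
  · have := h.dl
    omega
  · unfold ee
    split_ifs <;> norm_num

variable {L : Type} [Field L] [NumberField L] {θ : L}

/-- The automorphism moves the real square roots of the two special classes. -/
def Mv (θ : L) (g : G) : Prop := ∀ β, β = gm2 θ ∨ β = al0 θ → ∀ (e : L →+* ℂ) (s : ℂ),
  cj (e θ) = e θ → s ^ 2 = e β → g s ≠ s

theorem sp (h1 : ConstStmt) (hθ : Cub θ) {β : L} (h : β = gm2 θ ∨ β = al0 θ) :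
    β ≠ 0 ∧ IsSquare (Algebra.norm ℚ β) ∧ ¬ IsSquare β ∧
      ∀ p : ℕ, p.Prime → p ≠ 11 → ∀ 𝔭 ∈ ab L p, Even (og 𝔭 β) := by
  obtain ⟨⟨c1, c2, c3, c4, -⟩, a1, a2, -, a3, -, a4, -⟩ := h1 L θ hθ
  rcases h with rfl | rfl
  · refine ⟨c1, c2, fun ⟨b, hb⟩ => c3 fun 𝔭 _ => ⟨b⁻¹, ?_⟩, fun _ _ _ 𝔭 _ => c4 𝔭⟩
    have b0 : b ≠ 0 := left_ne_zero_of_mul (hb ▸ c1)
    rw [hb, show b * b * b⁻¹ ^ 2 - 1 = 0 by field_simp; ring]
    exact zero_mem _
  · refine ⟨a1, a2, fun ⟨b, hb⟩ => ?_, fun p hp n 𝔭 k =>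
      a4 𝔭 fun k' => n (K11.L.ch_eq pr_thm hθ hp (by norm_num) k k')⟩
    have b0 : b ≠ 0 := left_ne_zero_of_mul (hb ▸ a1)
    rw [hb, a11, Finset.sum_eq_zero fun 𝔮 _ => by
      rw [show og 𝔮 (b * b) = og 𝔮 b + og 𝔮 b from Pool.Agent.Stark.ord_mul b0 b0, Int.cast_add,
        CharTwo.add_self_eq_zero]] at a3
    exact zero_ne_one a3

theorem lam (h1 : ConstStmt) (hθ : Cub θ) {α : L} (h0 : α ≠ 0) (n1 : ¬ IsSquare α)
    (n2 : ¬ IsSquare (α * gm2 θ * al0 θ)) : ∃ f : SqCl L →ₗ[ZMod 2] ZMod 2,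
      f (cl α) = 1 ∧ f (cl (gm2 θ)) = 1 ∧ f (cl (al0 θ)) = 1 := by
  obtain ⟨c1, -, c2, -⟩ := sp h1 hθ (Or.inl rfl)
  obtain ⟨a1, -, a2, -⟩ := sp h1 hθ (Or.inr rfl)
  refine exl ((cl_eq_zero h0).not.2 n1) ((cl_eq_zero c1).not.2 c2) ((cl_eq_zero a1).not.2 a2) ?_
  rw [← cl_mul h0 c1, ← cl_mul (mul_ne_zero h0 c1) a1]
  exact (cl_eq_zero (mul_ne_zero (mul_ne_zero h0 c1) a1)).not.2 n2

theorem lam0 (h1 : ConstStmt) (hθ : Cub θ) : ∃ f : SqCl L →ₗ[ZMod 2] ZMod 2,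
    f (cl (gm2 θ)) = 1 ∧ f (cl (al0 θ)) = 1 := by
  obtain ⟨c1, -, c2, -⟩ := sp h1 hθ (Or.inl rfl)
  refine (lam h1 hθ c1 c2 fun ⟨b, hb⟩ => (sp h1 hθ (Or.inr rfl)).2.2.1 ⟨b / gm2 θ, ?_⟩).imp
    fun _ h => h.2
  rw [div_mul_div_comm, ← hb, mul_div_cancel_left₀ _ (mul_ne_zero c1 c1)]

theorem cm (h1 : ConstStmt) (h4 : CmAStmt) (hθ : Cub θ) {ι : Type} [Fintype ι] (α : ι → L)
    (hα : ∀ i, α i ≠ 0 ∧ IsSquare (Algebra.norm ℚ (α i))) (f : SqCl L →ₗ[ZMod 2] ZMod 2)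
    (l1 : f (cl (gm2 θ)) = 1) (l2 : f (cl (al0 θ)) = 1) :
    ∃ (g : G) (T : Pt), Hm 1 ∅ g ∧ 2 • T = 0 ∧ cj • T ≠ T ∧ Mv θ g ∧
      ∀ i ξ, Coc ξ → Kum θ (α i) ξ → ξ g = (f (cl (α i))).val • T := by
  classical
  obtain ⟨e₁, e₂, e₃, hf, -, -, n23, -, c2, -⟩ := r1_thm.2.2.2.2.1
  obtain ⟨t0, t2, t3⟩ := pt_root (x := e₂) (by rw [hf]; ring)
  obtain ⟨g, g1, g2⟩ := h4 L θ hθ 0 1 ∅ (insert (gm2 θ) (insert (al0 θ) (Finset.univ.image α))) f _
    one_ne_zero (fun w hw => by simp at hw) (fun β hβ => by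
      simp only [Finset.mem_insert, Finset.mem_image, Finset.mem_univ, true_and] at hβ
      rcases hβ with h | h | ⟨i, rfl⟩
      exacts [(sp h1 hθ (Or.inl h)).imp_right And.left, (sp h1 hθ (Or.inr h)).imp_right And.left,
        hα i]) (Or.inl rfl) t2
  refine ⟨g, _, g1, t2, fun k => ?_, fun β hβ e s k hs i => ?_, fun i => (g2 _ (by simp)).2⟩
  · have := congrArg xc k
    rw [xc_smul, t3, c2] at this
    exact n23 this.symm
  · rcases ((g2 β (by rcases hβ with h | h <;> simp [h])).1 e s hs).1 i with j | j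
    · rcases hβ with rfl | rfl
      · exact one_ne_zero (l1.symm.trans j)
      · exact one_ne_zero (l2.symm.trans j)
    · have := (R1.wl_iff.1 j).resolve_left t0
      rw [← this, t3, c2] at k
      exact n23 k.symm

theorem mv_mul (h1 : ConstStmt) (hθ : Cub θ) {g h : G} (a : Mv θ g) (b : Hm 1 ∅ h)
    (z : ∀ ξ, Coc ξ → ξ h = 0) : Mv θ (g * h) := fun β hβ e s k hs => by
  obtain ⟨b0, b1, -⟩ := sp h1 hθ hβ
  obtain ⟨ξ, x1, x2⟩ := inv_kum pr_thm hθ b0 b1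
  rw [RingAut.mul_apply, (x2 e s h hs (fix_root (fun T t => b.tor T (by rwa [pow_one]))
    (fc_emb hθ e))).2 (by rw [z ξ x1, R1.wl0])]
  exact a β hβ e s k hs

theorem fb (h1 : ConstStmt) (hθ : Cub θ) {g : G} (hg : Hm 1 ∅ g) (hm : Mv θ g) {J : Finset ℂ}
    (hJ : Al J) {N : ℕ} (hN : 11 ≤ N) :
    ∃ (p : ℕ) (O : ValuationSubring ℂ) (φ : G) (a : ℕ), N < p ∧ p.Prime ∧ Ov O p ∧ Frob O p φ ∧
      Odd a ∧ p % 8 = 7 ∧ nr p = 1 ∧ (∀ T : Pt, 2 ^ 1 • T = 0 → φ • T = cj • T) ∧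
      (∀ n, Ag J (φ ^ n) ((cj * g) ^ (a * n))) ∧
      (∀ l : ℕ, l.Prime → l ≠ 2 → l ≤ N → Spl p l ∧ (l % 4 = 3 → ¬ Spl l p)) ∧
      fv p (gm2 θ) = 1 ∧ fv p (al0 θ) = 1 := by
  classical
  obtain ⟨e', -, he'⟩ := (pr_thm L θ hθ).2.2.2.2.2.2.2.2.2
  let e : L →+* ℂ := Complex.ofRealHom.comp e'
  have hce : ∀ y, cj (e y) = e y := fun y => Complex.conj_ofReal _
  have ex : ∀ β : L, β = gm2 θ ∨ β = al0 θ → ∃ s : ℂ, s ^ 2 = e β ∧ cj s = s ∧ IsAlgebraic ℚ s :=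
    fun β hβ => by
      obtain ⟨b0, b1, -⟩ := sp h1 hθ hβ
      have hs : ((Real.sqrt (e' β) : ℝ) : ℂ) ^ 2 = e β := by
        show ((Real.sqrt (e' β) : ℝ) : ℂ) ^ 2 = ((e' β : ℝ) : ℂ)
        rw [← Complex.ofReal_pow, Real.sq_sqrt (he' β b0 b1).le]
      exact ⟨_, hs, Complex.conj_ofReal _, IsAlgebraic.of_pow two_pos (by
        rw [hs]
        exact (Algebra.IsAlgebraic.isAlgebraic (R := ℚ) β).algHom e.toRatAlgHom)⟩
  obtain ⟨s, s1, s2, s3⟩ := ex _ (Or.inl rfl)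
  obtain ⟨t, t1, t2, t3⟩ := ex _ (Or.inr rfl)
  obtain ⟨p, O, φ, a, p1, p2, p3, p4, p5, -, p7, p8, p9, p10, p11, -⟩ := KI.fb_thm 0 1 ∅ g
    (insert s (insert t J)) N one_ne_zero (fun w hw => by simp at hw) hg fun x hx => by
      simp only [Finset.mem_insert] at hx
      rcases hx with rfl | rfl | i
      exacts [s3, t3, hJ x i]
  have f0 := fc_emb hθ e
  have key : ∀ (β : L) (u : ℂ), β = gm2 θ ∨ β = al0 θ → u ^ 2 = e β → cj u = u →
      u ∈ insert s (insert t J) → fv p β = 1 := fun β u hβ u1 u2 u3 =>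
    (zmod2_cases _).resolve_left fun i => by
      obtain ⟨b0, -, -, b1⟩ := sp h1 hθ hβ
      obtain ⟨-, k2, k3⟩ := pt_root f0
      have k4 := congrArg xc (p9 _ (by rwa [pow_one]))
      rw [xc_smul, xc_smul, k3, hce] at k4
      have k5 := (KI.fv_thm L θ hθ p O φ e β u p2 (by omega) (by omega) p8 p3 p4 k4 b0
        (b1 p p2 (by omega)) u1).1 i
      have k0 := hm β hβ e u (hce θ) u1
      have k6 : g u = -u := (sq_eq_sq_iff_eq_or_eq_neg.1 (by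
        rw [← map_pow, u1]
        exact emb_ext pr_thm hθ (e := g.toRingHom.comp e)
          (fix_root (fun T t => hg.tor T (by rwa [pow_one])) f0) β)).resolve_left k0
      have k7 : (cj * g) u = -u := by rw [RingAut.mul_apply, k6, map_neg, u2]
      have k8 := p10 1 u u3
      rw [pow_one, mul_one, Cheb.pow_odd (by rw [k7, map_neg, k7, neg_neg]) p5, k7, k5] at k8
      exact k0 (k6.trans k8.symm)
  exact ⟨p, O, φ, a, p1, p2, p3, p4, p5, p7, p8, p9, fun n x hx => p10 n x (by simp [hx]), p11,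
    key _ s (Or.inl rfl) s1 s2 (by simp), key _ t (Or.inr rfl) t1 t2 (by simp)⟩

/-- Admissible triples at which the class `α` is divisible by two. -/
structure Hit (d c : ℤ) (N : ℕ) {r : ℕ} (B : Fin r → G → Pt) (α : G → Pt) (q : ℕ) (f : G) :
    Prop where
  aq : Aq c N q
  pl : ∃ O, Ov O q ∧ Frob O q f
  ze : ∀ i, B i f = 0
  dv : ∃ x, Sel (-(q * d)) 2 ∅ x ∧ 2 • x = α

end Qch

open Qch in
theorem qch_thm (h1 : ConstStmt) (hDk : DkAStmt) (hSc : ScStmt) (hCm : CmAStmt) (hHeis : HeisStmt)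
    (hA : SubAStmt) (hB : SubBStmt) (hRel : RelStmt) : QchStmt := by
  classical
  intro L _ _ θ hθ d δ c a₀ hd _ hfin ha₀
  have d0 : d ≠ 0 := td_ne hd
  by_cases hS : ∀ x, Sel d 1 ∅ x → Cb d x
  · obtain ⟨f, f1, f2⟩ := lam0 h1 hθ
    obtain ⟨g, -, hg, -, -, mv, -⟩ := cm h1 hCm hθ (Empty.elim) (fun i => i.elim) f f1 f2
    obtain ⟨p, O, φ, a, hp1, hp, hO, hφ, -, h8, hn, -, -, hs, v1, v2⟩ := fb h1 hθ hg mv (J := ∅)
      (fun z hz => by simp at hz) (N := 44 + c.natAbs) (by omega)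
    have A := aq hd.fam (Nat.le_add_right _ _) (Nat.le_add_left _ _) le_rfl hp1 hp h8 hn hs
    obtain ⟨σ₀, i₀, m₀⟩ := ex_ine hp hO
    obtain ⟨-, s2, s3, -⟩ := hA p d δ c ∅ O σ₀ φ hd A.qd h8 hO i₀ m₀ hφ (by simp)
    have k : ∀ z, Sel (-(p * d)) 1 ∅ z → z σ₀ = 0 → Cb (-(p * d)) z := fun z hz e => by
      obtain ⟨T, t, u⟩ := cb_two (cy_two hz.cy) (hS z (s2 z hz e).1)
      exact two_cb _ t u
    refine ⟨p, ⟨A.qd, h8, v1, v2⟩, fun x y hx hy => ?_, fun h => absurd (hS a₀ ha₀) h⟩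
    rw [pow_one]
    have a := sel_dbl hx
    have b := sel_dbl hy
    exact (s3 _ _ (coc a.cy) (coc b.cy)).imp (k _ a)
      (Or.imp (k _ b) fun e => k _ (sel_sub a b) (sub_eq_zero.2 e))
  obtain ⟨a₁, ha₁, n₁, e₁⟩ : ∃ a₁, Sel d 1 ∅ a₁ ∧ ¬ Cb d a₁ ∧ (¬ Cb d a₀ → a₁ = a₀) := by
    by_cases h : Cb d a₀
    · push Not at hS
      obtain ⟨x, a, b⟩ := hS
      exact ⟨x, a, b, fun k => absurd h k⟩
    · exact ⟨a₀, ha₀, h, fun _ => rfl⟩
  obtain ⟨r, B, g, b0, b1, b2, b3, hg, mv, g1, g2⟩ : ∃ (r : ℕ) (B : Fin (r + 1) → G → Pt) (g : G),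
      Cb d (B 0 - a₁) ∧ (∀ i, Sel d 1 ∅ (B i) ∧ B i cj = 0) ∧
      (∀ a, Cb d (rep (fun i => B i.succ) a) → a = 0) ∧
      (∀ x, Sel d 1 ∅ x → ∃ a, Cb d (x - rep B a)) ∧ Hm 1 ∅ g ∧ Mv θ g ∧
      (∀ i : Fin r, B i.succ g = 0) ∧ cj • B 0 g ≠ B 0 g := by
    obtain ⟨r, A, a0, a1, a2, a3⟩ := KI.basis_thm KI.fr_thm d a₁ hfin ha₁ n₁
    choose α x0 x1 x2 using fun i => (kumAll L θ hθ).1 (A i) (coc (a1 i).1.cy)
    obtain ⟨f, f0, f1, f2⟩ := lam h1 hθ (x0 0) (fun k => n₁ (by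
      simpa using (cob_cb (c := d)
        (((kumAll L θ hθ).2 _ _ (x0 0) (coc (a1 0).1.cy) (x2 0)).1 k)).sub a0))
      (hSc L θ hθ d δ c ∅ _ hd (by simp) (hDk L θ hθ d δ c ∅ _ _ hd (by simp) (by simp) (by simp)
        (x0 0) (x1 0) (coc (a1 0).1.cy) (x2 0) (a1 0).1.kl)).2.2
    obtain ⟨g, T, hg, t1, t2, mv, gv⟩ := cm h1 hCm hθ α (fun i => ⟨x0 i, x1 i⟩) f f1 f2
    have gv' := fun i => gv i _ (coc (a1 i).1.cy) (x2 i)
    obtain ⟨B, e0, e1, b1, b2, b3⟩ := rebase (fun i => f (cl (α i.succ))) a1 a2 a3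
    have z : A 0 g = T := by rw [gv', f0, ZMod.val_one, one_smul]
    refine ⟨r, B, g, e0 ▸ a0, b1, b2, b3, hg, mv, fun i => ?_, by rwa [e0, z]⟩
    rw [e1, Pi.add_apply, Pi.smul_apply, z, gv', ← two_nsmul, smul_comm, t1, smul_zero]
  obtain ⟨ε, hε, hM⟩ := hHeis d r (fun i => B i.succ) d0 (fun i => b1 _) b2
  replace hε : ∀ i j : Fin r, Sg (cup (B i.succ) (B j.succ)) (ε i j) := hε
  have B2 : ∀ i σ, 2 • B i σ = 0 := fun i => cy_two (b1 i).1.cy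
  have ε1 : ∀ i j, ε i j 1 = 0 := fun i j => sg_one (hε i j) (by
    rw [cup, cy_one (b1 _).1.cy, epE, KI.Ep.ep_zero_left])
  obtain ⟨J, hJ, jB, jε⟩ : ∃ J : Finset ℂ, Al J ∧ (∀ i σ τ, Ag J σ τ → B i σ = B i τ) ∧
      ∀ i j σ τ, Ag J σ τ → ε i j σ = ε i j τ := by
    choose J₁ j₁ k₁ using fun i => cy_fn (b1 i).1.cy
    choose J₂ j₂ k₂ using fun p : Fin r × Fin r => (hε p.1 p.2).1
    refine ⟨Finset.univ.biUnion J₁ ∪ Finset.univ.biUnion J₂, fun z hz => ?_,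
      fun i σ τ e => k₁ i σ τ fun z hz => e z ?_, fun i j σ τ e => k₂ (i, j) σ τ fun z hz => e z ?_⟩
    · simp only [Finset.mem_union, Finset.mem_biUnion, Finset.mem_univ, true_and] at hz
      rcases hz with ⟨i, hi⟩ | ⟨i, hi⟩
      exacts [j₁ i z hi, j₂ i z hi]
    · exact Finset.mem_union_left _ (Finset.mem_biUnion.2 ⟨i, Finset.mem_univ _, hz⟩)
    · exact Finset.mem_union_right _ (Finset.mem_biUnion.2 ⟨(i, j), Finset.mem_univ _, hz⟩)
  obtain ⟨N₀, hN₀⟩ := KI.ram_thm J hJ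
  obtain ⟨N, hN⟩ : ∃ N, N = N₀ + 44 + d.natAbs + c.natAbs := ⟨_, rfl⟩
  obtain ⟨B', hB'⟩ : ∃ B' : Fin r → G → Pt, ∀ i, B' i = B i.succ := ⟨_, fun _ => rfl⟩
  obtain ⟨qa, fa, hit⟩ : ∃ (qa : (Fin r → ZMod 2) → ℕ) (fa : (Fin r → ZMod 2) → G),
      ∀ a q f, Hit d c N B' (rep B' a) q f → Hit d c N B' (rep B' a) (qa a) (fa a) := by
    have : ∀ a, ∃ (q' : ℕ) (f' : G), ∀ q f, Hit d c N B' (rep B' a) q f →
        Hit d c N B' (rep B' a) q' f' := fun a => by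
      by_cases h : ∃ q f, Hit d c N B' (rep B' a) q f
      · obtain ⟨q, f, h⟩ := h
        exact ⟨q, f, fun _ _ _ => h⟩
      · exact ⟨0, 1, fun q f k => absurd ⟨q, f, k⟩ h⟩
    choose qa fa h using this
    exact ⟨qa, fa, h⟩
  obtain ⟨M, m1, m2, m3⟩ := KI.alt_thm r fun a j => ∑ i, a i * (ε i j (fa a) + ε i j (cj * g))
  obtain ⟨h, hh, h0, h2⟩ := hM M m1 m2
  have gh := hm_mul hg hh
  obtain ⟨p, O, φ, a, hp1, hp, hO, hφ, ha, h8, hn, hT, hag, hs, v1, v2⟩ := fb h1 hθ gh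
    (mv_mul h1 hθ mv hh h0) hJ (N := N + ∑ a, qa a) (by omega)
  have A : Aq c N p := aq hd.fam (by omega) (by omega) (Nat.le_add_right _ _) hp1 hp h8 hn hs
  have cc : ∀ T : Pt, cj • cj • T = T := fun T => by rw [← mul_smul, cj_mul_cj, one_smul]
  have φφ : ∀ T : Pt, 2 • T = 0 → (φ * φ) • T = T := fun T t => by
    rw [mul_smul, hT T (by rwa [pow_one]), hT _ (by rw [pow_one]; exact KI.Ep.two_smul' cj t), cc]
  have Bσ : ∀ i, B i (cj * (g * h)) = cj • B i g := fun i => by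
    rw [cy_mul1 (b1 i).1.cy, (b1 i).2, zero_add, cy_right (b1 i).1.cy g (h0 _ (coc (b1 i).1.cy))]
  have Bσ' : ∀ i : Fin r, B i.succ (cj * (g * h)) = 0 := fun i => by rw [Bσ, g1, smul_zero]
  have Bφ : ∀ i : Fin r, B i.succ φ = 0 := fun i => by
    rw [← pow_one φ, jB _ _ _ (hag 1), cy_pow0 (b1 _).1.cy (Bσ' i)]
  have act : ∀ T : Pt, 2 • T = 0 → (cj * (g * h)) • T = cj • T := fun T t => by
    rw [mul_smul, gh.tor T (by rwa [pow_one])]
  have B0 : B 0 (φ * φ) ≠ 0 := by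
    rw [← pow_two, jB _ _ _ (hag 2), mul_comm a, pow_mul, cy_pow (b1 0).1.cy fun T t => by
      rw [pow_two, mul_smul, act T t, act _ (KI.Ep.two_smul' cj t), cc], odd_smul (B2 _ _) ha,
      pow_two, cy_mul1 (b1 0).1.cy, act _ (B2 _ _), Bσ, cc, ← KI.Ep.neg_two (B2 0 g), smul_neg,
      KI.Ep.neg_two (KI.Ep.two_smul' cj (B2 0 g)), ← sub_eq_add_neg]
    exact sub_ne_zero.2 g2
  have εφ : ∀ i j, ε i j φ = ε i j (cj * g) + M i j := fun i j => by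
    have : B i.succ (cj * g) = 0 := by rw [cy_right (b1 _).1.cy cj (g1 i), (b1 _).2]
    rw [← pow_one φ, jε _ _ _ _ (hag 1), sg_pow (hε i j) (ε1 i j) (Bσ' i), mul_one,
      (ZMod.natCast_eq_one_iff_odd).2 ha, one_mul, ← mul_assoc, sg_mul (hε i j), this, epE,
      KI.Ep.ep_zero_left, add_zero, h2]
  obtain ⟨σ₀, i₀, m₀⟩ := ex_ine hp hO
  obtain ⟨-, s2, -, -⟩ := hA p d δ c ∅ O σ₀ φ hd A.qd h8 hO i₀ m₀ hφ (by simp)
  have c0 : -((p : ℤ) * d) ≠ 0 := neg_ne_zero.2 (mul_ne_zero (by exact_mod_cast hp.ne_zero) d0)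
  have key : ∀ x, Sel (-(p * d)) 2 ∅ x → ∃ (a : Fin r → ZMod 2) (T : Pt), 2 • T = 0 ∧
      (∀ σ, (2 • x) σ - rep B' a σ = σ • T - T) ∧
      ∀ j, ∑ i, a i * M i j = ∑ i, a i * (ε i j (fa a) + ε i j (cj * g)) := by
    intro x hx
    have z := sel_dbl hx
    obtain ⟨z1, z2⟩ := s2 _ z (hB.1 p d δ c ∅ O σ₀ φ _ (B 0) hd A.qd h8 (fun _ k => by simp at k) hO
      i₀ m₀ hφ z (b1 0).1 B0)
    obtain ⟨a', ha'⟩ := b3 _ z1
    obtain ⟨T, t, u⟩ := cb_two (fun σ => by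
      rw [Pi.sub_apply, smul_sub, cy_two z.cy, rep_app,
        (ep_sum _ a' _ (fun i => B2 i σ) (smul_zero 2)).1, sub_self]) ha'
    have a0 : a' 0 = 0 := by
      have k := u (φ * φ)
      rw [Pi.sub_apply, z2, φφ T t, sub_self, zero_sub, neg_eq_zero, rep_app, Fin.sum_univ_succ,
        Finset.sum_eq_zero fun i _ => by rw [cy_right (b1 _).1.cy φ (Bφ i), Bφ, smul_zero],
        add_zero] at k
      refine (zmod2_cases _).resolve_right fun e => B0 ?_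
      rwa [e, ZMod.val_one, one_smul] at k
    have u' : ∀ σ, (2 • x) σ - rep B' (fun i => a' i.succ) σ = σ • T - T := fun σ => by
      rw [← u, Pi.sub_apply, rep_app, rep_app, Fin.sum_univ_succ, a0, ZMod.val_zero, zero_smul,
        zero_add]
      simp only [hB']
    refine ⟨fun i => a' i.succ, T, t, u', fun j => ?_⟩
    generalize (fun i : Fin r => a' i.succ) = b at u'
    obtain ⟨T', t'⟩ := rAll.1.1.2.2.2.2.2 T
    have x2 : 2 • (x - fun σ => tw (-(p * d)) σ T' - T') = rep B' b := funext fun σ => by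
      rw [Pi.smul_apply, Pi.sub_apply, smul_sub, smul_sub, ← tw_dbl, t', tw_two _ σ t, ← u' σ]
      simp
    have x1 := sel_sub hx (sel_cob c0 (k := 2) (T := T') (by rw [pow_two, mul_smul, t', t]))
    obtain ⟨f1, ⟨O', f2, f3⟩, f4, y, f5, f6⟩ :=
      hit b p φ ⟨A, ⟨O, hO, hφ⟩, fun i => by rw [hB', Bφ], _, x1, x2⟩
    have lt : qa b ≤ ∑ a, qa a :=
      Finset.single_le_sum (f := qa) (fun _ _ => Nat.zero_le _) (Finset.mem_univ b)
    have R := hRel d δ c N p (qa b) O O' φ (fa b) _ y (B j.succ) (fun σ => ∑ i, b i * ε i j σ) hd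
      (by omega) (by omega) A f1 (by omega) hO f2 hφ f3 x1 f5 (x2.trans f6.symm) (b1 _).1 (b1 _).2
      (Bφ j) (by rw [← hB', f4]) (by
        rw [x2]
        exact sg_rep (fun i σ => by rw [hB', B2]) (B2 _) (fun i => by rw [hB']; exact hε i j) b)
      fun v O σ hv k o i => Finset.sum_eq_zero fun l _ => by
        rw [jε l j σ 1 (hN₀ v O σ hv (by omega) o i), ε1, mul_zero]
    simp only [εφ, mul_add, Finset.sum_add_distrib] at R ⊢
    rw [← R, add_right_comm, CharTwo.add_self_eq_zero, zero_add]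
  refine ⟨p, ⟨A.qd, h8, v1, v2⟩, fun x y hx hy => ?_, fun k => ⟨O, φ, hO, hφ, fun e => B0 ?_⟩⟩
  · rw [pow_one]
    obtain ⟨b, T, t, u, w⟩ := key x hx
    obtain ⟨b', T', t', u', w'⟩ := key y hy
    by_cases e : b = 0
    · exact Or.inl (two_cb _ t fun σ => by rw [← u σ, e, rep_app]; simp)
    by_cases e' : b' = 0
    · exact Or.inr (Or.inl (two_cb _ t' fun σ => by rw [← u' σ, e', rep_app]; simp))
    obtain rfl := m3 b b' e e' w w'
    refine Or.inr (Or.inr (two_cb _ (T := T - T') (by rw [smul_sub, t, t', sub_self]) fun σ => ?_))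
    rw [Pi.sub_apply, smul_sub, ← sub_sub_sub_cancel_right _ _ (rep B' b σ), u, u']
    abel
  · obtain ⟨T, t, u⟩ := cb_two (fun σ => by
      rw [Pi.sub_apply, smul_sub, B2, cy_two ha₁.cy, sub_self]) b0
    have := u (φ * φ)
    rwa [Pi.sub_apply, φφ T t, sub_self, e₁ k, e, sub_zero] at this

end Pool.Agent.Lib.MP_d6ddbd_nt.KA
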