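import Pool.Agent.Lib.MP_d6ddbd_nt.KA.SubA
import Pool.Agent.Lib.MP_d6ddbd_nt.KI.Rel
import Pool.Agent.Lib.MP_d6ddbd_nt.KI.Bl
import Pool.Agent.Lib.MP_d6ddbd_nt.KI.Br
import Pool.Agent.Lib.MP_d6ddbd_nt.KI.Cm1

/-! The relation between two auxiliary primes. -/

set_option autoImplicit false
set_option maxSynthPendingDepth 3

open Pool.Agent.Lib.MP_d6ddbd_nt.K11
open Pool.Agent.Lib.MP_d6ddbd_nt.KI (rt rt_sq cq ps tw ep cup C2 Sp Wl Aq isoH_thm unr_thm rec_thm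
  bl_thm le_thm)
open Pool.Agent.Lib.MP_d6ddbd_nt.KI.RelA

noncomputable section

namespace Pool.Agent.Lib.MP_d6ddbd_nt.KA

theorem rel_thm : RelStmt := by
  classical
  intro d δ c₀ N q₁ q₂ O₁ O₂ f₁ f₂ x₁ x₂ β ε hd h11 hdN a₁ a₂ hne o₁ o₂ φ₁ φ₂ s₁ s₂ h2 sβ βc β₁ β₂
    hε hI
  have p₁ := a₁.qd.qf.pr
  have p₂ := a₂.qd.qf.pr
  have d0 : d ≠ 0 := SubA.d_ne hd
  have n₁ : (q₁ : ℤ) ≠ 0 := by exact_mod_cast p₁.ne_zero
  have n₂ : (q₂ : ℤ) ≠ 0 := by exact_mod_cast p₂.ne_zero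
  have b2 := cy_two sβ.cy
  have c₁ : ∀ σ, cq (-(q₁ * d)) σ = cq (-q₁) σ * cq d σ := fun σ => by
    rw [← neg_mul, cq_mul2 (neg_ne_zero.2 n₁) d0]
  have c₂ : ∀ σ, cq (-(q₂ * d)) σ = cq (-q₂) σ * cq d σ := fun σ => by
    rw [← neg_mul, cq_mul2 (neg_ne_zero.2 n₂) d0]
  have c₃ : ∀ σ, cq (q₁ * q₂) σ = cq (-q₁) σ * cq (-q₂) σ := fun σ => by
    rw [← neg_mul_neg, cq_mul2 (neg_ne_zero.2 n₁) (neg_ne_zero.2 n₂)]
  obtain ⟨Γ, hΓ⟩ : ∃ Γ : G → Pt, ∀ σ, Γ σ = x₁ σ - x₂ σ := ⟨_, fun _ => rfl⟩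
  obtain ⟨α, hα⟩ : ∃ α : G → Pt, α = 2 • x₁ := ⟨_, rfl⟩
  have α1 : ∀ σ, α σ = 2 • x₁ σ := fun σ => by rw [hα]; rfl
  have α2 : ∀ σ, 2 • α σ = 0 := fun σ => by
    rw [α1, ← mul_smul]
    exact s₁.cy.tor σ
  rw [← hα] at hε
  have Γ2 : ∀ σ, 2 • Γ σ = 0 := fun σ => by
    rw [hΓ, smul_sub, sub_eq_zero]
    exact congrFun h2 σ
  have Γm : ∀ σ τ, Γ (σ * τ) = Γ σ + σ • Γ τ +
      if ps (q₁ * q₂) σ = 0 then 0 else σ • α τ := fun σ τ => by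
    rw [← tw_two (-(q₂ * d)) σ (Γ2 τ), hΓ, hΓ, hΓ, s₁.cy.mul, s₂.cy.mul, tw, tw, tw, c₁, c₂,
      smul_sub, smul_sub]
    simp only [ps_zero, c₃]
    have t : σ • α τ = (2 : ℤ) • σ • x₁ τ := by rw [α1, smul_comm]; exact (natCast_zsmul _ 2).symm
    have t' : σ • α τ = (-2 : ℤ) • σ • x₁ τ := by
      rw [neg_smul, ← t, KI.Ep.neg_two (KI.Ep.two_smul' σ (α2 τ))]
    rcases cq_or (-q₁) σ with a | a <;> rcases cq_or (-q₂) σ with b | b <;>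
      rcases cq_or d σ with e | e <;> simp only [a, b, e] <;> norm_num <;>
      first | abel1 | (rw [t]; abel1) | (rw [t']; abel1)
  obtain ⟨c, hc⟩ : ∃ c : G → G → ZMod 2,
      ∀ σ τ, c σ τ = ep (Γ σ) (σ • β τ) + ps (q₁ * q₂) σ * ε τ := ⟨_, fun _ _ => rfl⟩
  have C : C2 c := by
    obtain ⟨J₁, j₁, k₁⟩ := cy_fn s₁.cy
    obtain ⟨J₂, j₂, k₂⟩ := cy_fn s₂.cy
    obtain ⟨J₃, j₃, k₃⟩ := cy_fn sβ.cy
    obtain ⟨J₄, j₄, k₄⟩ := hε.1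
    obtain ⟨J₅, j₅, k₅⟩ := fn_two
    refine ⟨⟨insert (rt (q₁ * q₂)) (J₁ ∪ (J₂ ∪ (J₃ ∪ (J₄ ∪ J₅)))), fun z hz => ?_,
      fun σ σ' τ τ' u w => ?_⟩, fun σ τ υ => ?_⟩
    · simp only [Finset.mem_insert, Finset.mem_union] at hz
      rcases hz with rfl | hz | hz | hz | hz | hz
      exacts [Cheb.alg_sq (rt_sq _), j₁ z hz, j₂ z hz, j₃ z hz, j₄ z hz, j₅ z hz]
    · rw [hc, hc, hΓ, hΓ, k₁ σ σ' fun z hz => u z (by simp [hz]),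
        k₂ σ σ' fun z hz => u z (by simp [hz]), k₃ τ τ' fun z hz => w z (by simp [hz]),
        k₄ τ τ' fun z hz => w z (by simp [hz]),
        k₅ σ σ' (fun z hz => u z (by simp [hz])) _ (b2 τ'), ps, ps, u _ (by simp)]
    · have t1 := KI.Ep.two_smul' σ (b2 τ)
      have t2 := KI.Ep.two_smul' σ (KI.Ep.two_smul' τ (b2 υ))
      have t3 := KI.Ep.two_smul' σ (Γ2 τ)
      have z : ∀ a : ZMod 2, a + a = 0 := by decide
      have z' : ∀ a : ZMod 2, a ≠ 0 → a = 1 := by decide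
      rw [hc, hc, hc, hc, Γm, cy_mul1 sβ.cy, sg_mul hε, ps_mul, smul_add, mul_smul, epE,
        KI.Ep.ep_add_right (Γ2 σ) t1 t2]
      split_ifs with e
      · rw [add_zero, KI.Ep.ep_add_left (Γ2 σ) t3 t2, KI.Ep.ep_smul, e]
        ring
      · rw [KI.Ep.ep_add_left (KI.Ep.two_add (Γ2 σ) t3) (KI.Ep.two_smul' σ (α2 τ)) t2,
          KI.Ep.ep_add_left (Γ2 σ) t3 t2, KI.Ep.ep_smul, KI.Ep.ep_smul, z' _ e]
        ring
  have nd : ∀ v : ℕ, N < v → ¬ (v : ℤ) ∣ d := fun v hv h => by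
    have := Nat.le_of_dvd (Int.natAbs_pos.2 d0) (Int.natCast_dvd.1 h)
    omega
  have βI : ∀ (v : ℕ) O (σ : G), v.Prime → N < v → Ov O v → Frob O 1 σ → β σ = 0 :=
    fun v O σ hv h hO hσ => kl_ine hv (by omega) (by omega) hO (nd v h) sβ.cy
      (sβ.kl v O hv (by simp) hO) hσ
  have loc : ∀ (v : ℕ) O, v.Prime → v ≠ q₁ → v ≠ q₂ → Ov O v → Sp O v c := by
    intro v O hv v₁ v₂ hO
    by_cases h : v ≤ N
    · obtain ⟨S₁, t₁, u₁⟩ := s₁.kl v O hv (by simp) hO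
      obtain ⟨S₂, t₂, u₂⟩ := s₂.kl v O hv (by simp) hO
      obtain ⟨η, e₁, e₂⟩ := isoH_thm d v O Γ β d0 hv hO Γ2 b2 ⟨S₁ - S₂,
        sub_eq_add_neg S₁ S₂ ▸ rAll.1.1.2.1 _ _ t₁ (rAll.1.1.2.2.1 _ t₂), fun σ hσ => by
          rw [hΓ, u₁ σ hσ, u₂ σ hσ, tw, tw, tw, c₁, c₂, wl_om a₁ hv h hO hσ, wl_om a₂ hv h hO hσ,
            one_mul, smul_sub, smul_sub]
          abel⟩ (sβ.kl v O hv (by simp) hO)
      refine ⟨η, e₁, fun σ τ hσ hτ => ?_⟩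
      rw [← e₂ σ τ hσ hτ, hc, ps_zero.2 (by
        rw [c₃, wl_om a₁ hv h hO hσ, wl_om a₂ hv h hO hσ, one_mul]), zero_mul, add_zero, cup]
    have h' : N < v := not_le.1 h
    have v2 : v ≠ 2 := by omega
    have v11 : v ≠ 11 := by omega
    have pv : Prime (v : ℤ) := Nat.prime_iff_prime_int.1 hv
    have w₁ : ¬ (v : ℤ) ∣ q₁ := fun k =>
      v₁ ((Nat.prime_dvd_prime_iff_eq hv p₁).1 (Int.natCast_dvd_natCast.1 k))
    have w₂ : ¬ (v : ℤ) ∣ q₂ := fun k =>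
      v₂ ((Nat.prime_dvd_prime_iff_eq hv p₂).1 (Int.natCast_dvd_natCast.1 k))
    refine unr_thm v O c hv hO C fun n n' σ σ' τ τ' a a' b b' => ?_
    have i := vAll.2.1.2.2.1 O v n _ _ hv hO a a'
    have j := vAll.2.1.2.2.1 O v n' _ _ hv hO b b'
    rw [← mul_inv_cancel_left σ σ', ← mul_inv_cancel_left τ τ']
    generalize σ⁻¹ * σ' = i' at i
    generalize τ⁻¹ * τ' = j' at j
    rw [hc, hc, hΓ, hΓ,
      cy_right s₁.cy σ (kl_ine hv v2 v11 hO (fun k => (pv.dvd_or_dvd (dvd_neg.1 k)).elim w₁ (nd v h'))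
        s₁.cy (s₁.kl v O hv (by simp) hO) i),
      cy_right s₂.cy σ (kl_ine hv v2 v11 hO (fun k => (pv.dvd_or_dvd (dvd_neg.1 k)).elim w₂ (nd v h'))
        s₂.cy (s₂.kl v O hv (by simp) hO) i),
      cy_right sβ.cy τ (βI v O _ hv h' hO j), mul_smul, ine_two hv v2 v11 hO i (b2 τ), ps_mul,
      ps_zero.2 (ine_sq hv v2 hO (fun k => (pv.dvd_or_dvd k).elim w₁ w₂) i), sg_mul hε,
      hI v O _ hv h' hO j, βI v O _ hv h' hO j, smul_zero, epE, KI.Ep.ep_zero_right]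
    simp
  have β1 : β 1 = 0 := by
    have := cy_mul1 sβ.cy 1 1
    simpa using this
  have inf : c cj cj = c 1 1 := by
    have r : cq (q₁ * q₂) cj = 1 := cq_eq (mul_ne_zero n₁ n₂) (u := (Real.sqrt (q₁ * q₂) : ℝ))
      (by rw [← Complex.ofReal_pow, Real.sq_sqrt (by positivity)]; simp) (by simp)
    rw [hc, hc, βc, β1, smul_zero, smul_zero, epE, KI.Ep.ep_zero_right, KI.Ep.ep_zero_right, ps_zero.2 r]
    simp [ps]
  have sf : Squarefree ((q₁ : ℤ) * q₂) := by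
    rw [← Nat.cast_mul, Int.squarefree_natCast,
      Nat.squarefree_mul ((Nat.coprime_primes p₁ p₂).2 hne)]
    exact ⟨p₁.squarefree, p₂.squarefree⟩
  have key : ∀ (q : ℕ) O (f : G), Aq c₀ N q → (q : ℤ) ∣ q₁ * q₂ → Ov O q → Frob O q f → β f = 0 →
      (Sp O q c ↔ ε f = 0) := by
    intro q O f a hq hO hf hβ
    have p := a.qd.qf.pr
    obtain ⟨L, _, _, θ, hθ⟩ := Final.exists_cub
    obtain ⟨σ₀, i₀, m₀⟩ := (link1All L θ hθ).2.1 q O _ _ p hO (rt_sq (q₁ * q₂)) sf hq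
    have z : ∀ τ, Wl O q τ → β τ = 0 := fun τ hτ => by
      obtain ⟨n, i, hi, rfl⟩ := wl_split p hO hf hτ
      rw [cy_right sβ.cy _ (βI q O i p a.big hO hi)]
      clear hτ
      induction n with
      | zero => exact β1
      | succ n ih => rw [pow_succ, cy_right sβ.cy _ hβ, ih]
    refine bl_thm le_thm q O (q₁ * q₂) ε c σ₀ f p (by have := a.big; omega) hO i₀ (fun k => ?_) hf
      (fun σ τ _ hτ => ?_) (fun σ hσ => hI q O σ p a.big hO hσ) fun σ τ _ hτ => ?_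
    · exact rt_ne (mul_ne_zero n₁ n₂) (by linear_combination (m₀ - k) / 2)
    · rw [sg_mul hε, z τ hτ, smul_zero, epE, KI.Ep.ep_zero_right, add_zero]
    · rw [hc, z τ hτ, smul_zero, epE, KI.Ep.ep_zero_right, zero_add]
  have k₁ := key q₁ O₁ f₁ a₁ (dvd_mul_right _ _) o₁ φ₁ β₁
  have k₂ := key q₂ O₂ f₂ a₂ (dvd_mul_left _ _) o₂ φ₂ β₂
  have z : ∀ a b : ZMod 2, (a = 0 ↔ b = 0) → a = b := by decide
  exact z _ _ ⟨fun h => k₂.1 (rec_thm c q₁ q₂ O₁ O₂ C p₁ p₂ hne o₁ o₂ loc inf (k₁.2 h)),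
    fun h => k₁.1 (rec_thm c q₂ q₁ O₂ O₁ C p₂ p₁ hne.symm o₂ o₁
      (fun v O hv a b => loc v O hv b a) inf (k₂.2 h))⟩

end Pool.Agent.Lib.MP_d6ddbd_nt.KA
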