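import Pool.Agent.Lib.MP_d6ddbd_nt.KA.Bas
import Pool.Agent.Lib.MP_d6ddbd_nt.K11.LocD
import Pool.Agent.Lib.MP_d6ddbd_nt.K11.Pr

/-!
The two-converse for all quadratic twists of `X₀(11)`: the special classes are not Selmer classes.
-/

set_option autoImplicit false

open NumberField IsDedekindDomain
open Pool.Agent.Stark (Pr og hq LSq pw)
open Pool.Agent.Lib.MP_d6ddbd_nt.K11

noncomputable section

namespace Pool.Agent.Lib.MP_d6ddbd_nt.KA

namespace ScA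

variable {L : Type} [Field L] [NumberField L] {θ α α' : L} {d : ℤ}

theorem gm_ne (hθ : Cub θ) (a0 : al0 θ ≠ 0) (hd : d ≠ 0) (𝔭 𝔮 : Pr L) : gm θ d 𝔭 𝔮 ≠ 0 := by
  obtain ⟨-, -, -, -, -, a6, -⟩ := pr_thm L θ hθ
  rw [gm]
  split_ifs
  · exact right_ne_zero_of_mul a0
  · exact mul_ne_zero (Int.cast_ne_zero.2 hd) (sub_ne_zero.2 (by simpa using (a6 (xr θ 𝔭)).1))

theorem bv_mul (hθ : Cub θ) (a0 : al0 θ ≠ 0) (hd : d ≠ 0) (ha : α ≠ 0) (hb : α' ≠ 0) (𝔭 : Pr L) :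
    bv θ d 𝔭 (α * α') = bv θ d 𝔭 α + bv θ d 𝔭 α' := by
  unfold bv
  rw [← Finset.sum_add_distrib]
  exact Finset.sum_congr rfl fun 𝔮 _ => LocD.hq_mul ha hb (gm_ne hθ a0 hd 𝔭 𝔮)

omit [NumberField L] in
/-- An additive function with values in `ZMod 2` vanishes on the squares. -/
theorem of_sq (f : L → ZMod 2) (hf : ∀ x y : L, x ≠ 0 → y ≠ 0 → f (x * y) = f x + f y)
    (ha : α ≠ 0) (hs : IsSquare α) : f α = 0 := by
  obtain ⟨b, rfl⟩ := hs
  rw [hf b b (left_ne_zero_of_mul ha) (left_ne_zero_of_mul ha), CharTwo.add_self_eq_zero]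

end ScA

open ScA in
theorem sc_thm (hC : ConstStmt) (h11 : P11Stmt) (hP : P2Stmt) (hB : BlkStmt) : ScStmt := by
  intro L _ _ θ hθ d δ c B α hd nB hα
  obtain ⟨⟨g0, gs, -, ge, gb, -⟩, a0, -, -, aa, ab', -, ag⟩ := hC L θ hθ
  obtain ⟨m1, m2, -⟩ := h11 L θ hθ
  obtain ⟨t1, t2⟩ := hP L θ hθ
  have α0 := hα.wa.ne
  have fa : ∀ x y : L, x ≠ 0 → y ≠ 0 → a11 (x * y) = a11 x + a11 y := fun x y u v => (m1 x y u v).1
  have fb : ∀ x y : L, x ≠ 0 → y ≠ 0 → b11 θ (x * y) = b11 θ x + b11 θ y := fun x y u v =>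
    (m1 x y u v).2.1
  have z : ¬ rx d → a11 α = 0 := fun r => (m2 α α0 hα.wa.sq).2
    (hα.wa.ev 11 (by decide) hd.fam.n11 (by rwa [Bx_neg r]))
  refine ⟨fun β hβ => ?_, fun nb s => ?_, fun s => ?_⟩
  · have β0 := hβ.wa.ne
    refine ⟨⟨mul_ne_zero α0 β0, by rw [map_mul]; exact hα.wa.sq.mul hβ.wa.sq,
      (t2 d α β α0 β0 hα.wa.sq hβ.wa.sq hα.wa.two hβ.wa.two).1, fun p hp u v 𝔭 k => ?_⟩,
      fun 𝔭 k => ?_, fun r => ?_⟩
    · rw [LocD.og_mul α0 β0]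
      exact (hα.wa.ev p hp u v 𝔭 k).add (hβ.wa.ev p hp u v 𝔭 k)
    · rw [bv_mul hθ a0 hd.ne α0 β0, hα.bv 𝔭 k, hβ.bv 𝔭 k, add_zero]
    · rw [fb α β α0 β0, hα.el r, hβ.el r, add_zero]
  · by_cases r : rx d
    · rcases Int.even_or_odd d with e | o
      · have := of_sq (fun x => h2 x (gm2 θ)) (fun x y u v => (t1 x y _ u v g0).1)
          (mul_ne_zero α0 a0) s
        rw [(t1 α _ _ α0 a0 g0).1, hα.wa.two.2 e, ag, zero_add] at this
        exact one_ne_zero this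
      · obtain ⟨𝔭, k, e⟩ := hB L θ hθ d δ c hd r o nb
        have := of_sq (bv θ d 𝔭) (fun x y u v => bv_mul hθ a0 hd.ne u v 𝔭) (mul_ne_zero α0 a0) s
        rw [bv_mul hθ a0 hd.ne α0 a0, hα.bv 𝔭 k, e, zero_add] at this
        exact one_ne_zero this
    · have := of_sq a11 fa (mul_ne_zero α0 a0) s
      rw [fa _ _ α0 a0, z r, aa, zero_add] at this
      exact one_ne_zero this
  · have n := mul_ne_zero α0 g0
    by_cases r : rx d
    · have := of_sq (b11 θ) fb (mul_ne_zero n a0) s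
      rw [fb _ _ n a0, fb _ _ α0 g0, hα.el r, gb, ab', zero_add, add_zero] at this
      exact one_ne_zero this
    · have := of_sq a11 fa (mul_ne_zero n a0) s
      rw [fa _ _ n a0, fa _ _ α0 g0, z r, (m2 _ g0 gs).2 fun 𝔭 _ => ge 𝔭, aa, zero_add,
        zero_add] at this
      exact one_ne_zero this

end Pool.Agent.Lib.MP_d6ddbd_nt.KA
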