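import Pool.Agent.Lib.MP_d6ddbd_nt.KA.Stmt
import Pool.Agent.Lib.MP_d6ddbd_nt.K11.All

/-!
The two-converse for all quadratic twists of `X₀(11)`: the modular parametrisation.
-/

set_option autoImplicit false

open UpperHalfPlane Pointwise
open Pool.Agent.Lib.MP_d6ddbd_nt.K11

noncomputable section

namespace Pool.Agent.Lib.MP_d6ddbd_nt.KA

/-- The eigenvalue at `2`. -/
def Xa2Stmt : Prop := ∀ τ : ℍ, ∑ i, E11.phi (E11.nz 2 τ i) = (-2 : ℤ) • E11.phi τ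

/-- Integrality at `2`. -/
def XIntStmt : Prop := PInt E11.Pp

/-- The correspondence at `2`. -/
def XTwoStmt : Prop := PTwo E11.Pp

/-- The trace at `11`. -/
def XElStmt : Prop := PEl E11.Pp

/-- The base for even twists. -/
def XEvStmt : Prop := ∀ a t0, XI E11.Pp a t0 → a 2 = -2 → QBe E11.Pp a t0

theorem xev_of (hI : XIntStmt) (hT : XTwoStmt) (h : QBeStmt) : XEvStmt :=
  fun a t0 hX ha => h _ a t0 hX ha hI hT

theorem xi_ex (h2 : Xa2Stmt) : ∃ a : ℕ → ℤ, XI E11.Pp a E11.t0 ∧ a 2 = -2 := by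
  classical
  have ex : ∀ l : ℕ, ∃ a : ℤ, (l.Prime → l ≠ 11 →
      ∀ τ : ℍ, ∑ i, E11.phi (E11.nz l τ i) = a • E11.phi τ) ∧ (l = 2 → a = -2) := fun l => by
    by_cases e : l = 2
    · subst e
      exact ⟨-2, fun _ _ => h2, fun _ => rfl⟩
    · by_cases hl : l.Prime ∧ l ≠ 11
      · obtain ⟨a, ha⟩ := E11.hecke_phi (l := l) unif_thm hl.1 hl.2
        exact ⟨a, fun _ _ => ha, fun h => absurd h e⟩
      · exact ⟨0, fun a b => absurd ⟨a, b⟩ hl, fun h => absurd h e⟩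
  choose a ha hb using ex
  refine ⟨a, ⟨fun L M c => E11.pp_scale, fun σ L M L' M' h _ _ => E11.pp_conj σ h,
    fun L M => E11.pp_fricke, E11.five, E11.smul_t0, fun l L M s hl h11 h hs => ?_,
    fun l O φ L M L' hl h2 h11 hO hφ h hP hn => ?_,
    fun l O φ P hl h2 h11 hO hφ => XH.es vAll.2.1 rAll hl h2 h11 hO hφ (ha l hl h11) P,
    fun v O L M L' M' => E11.pp_jc rAll.2⟩, hb 2 rfl⟩
  · obtain ⟨c, z, k⟩ := E11.lv_pr h
    rw [E11.sum_nb hl k hs, k.pp, ← ha l hl h11]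
    exact Finset.sum_congr rfl fun i _ => (k.nb hl h11 i).pp
  · obtain ⟨c, z, k⟩ := E11.lv_pr h
    obtain ⟨i, rfl⟩ := (E11.nb_iff hl k).1 hn
    rw [k.pp] at hP
    rw [(k.nb hl h11 i).pp, k.pp]
    exact XH.nb vAll.2.1 rAll hl h2 h11 hO hφ hP i

theorem xa_of (h2 : Xa2Stmt) (hE : XElStmt) (hV : XEvStmt) : XAStmt :=
  let ⟨a, hX, ha⟩ := xi_ex h2
  ⟨_, a, _, hX, ha, hE, hV a _ hX ha⟩

end Pool.Agent.Lib.MP_d6ddbd_nt.KA
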