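import Pool.Agent.Lib.MP_d6ddbd_nt.KA.Stmt
import Pool.Agent.Lib.MP_d6ddbd_nt.KI.SubA
import Pool.Agent.Lib.MP_d6ddbd_nt.KI.Tr
import Pool.Agent.Lib.MP_d6ddbd_nt.KI.Le
import Pool.Agent.Lib.MP_d6ddbd_nt.KI.Gd

/-! Level one: the Selmer groups of the twists by `d` and by `-q d`. -/

set_option autoImplicit false
set_option maxSynthPendingDepth 3

open Pool.Agent.Lib.MP_d6ddbd_nt.K11
open Pool.Agent.Lib.MP_d6ddbd_nt.KI (rt cq tw Cy Kl Sel tr_thm le_thm gd_thm)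
open Pool.Agent.Lib.MP_d6ddbd_nt.KI.SubA

noncomputable section

namespace Pool.Agent.Lib.MP_d6ddbd_nt.KA

namespace SubA

variable {O : ValuationSubring ℂ} {q v : ℕ} {c d δ : ℤ} {z : G → Pt}

theorem d_ne (h : TD d δ c) : d ≠ 0 := by
  rw [h.eq]
  refine mul_ne_zero (mul_ne_zero ?_ ?_) h.fam.sf.ne_zero
  · rcases h.dl with e | e | e | e <;> omega
  · unfold ee
    split_ifs <;> omega

/-- A prime that divides `d` is `2`, `11`, or divides `c`. -/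
theorem nd (h : TD d δ c) (hv : v.Prime) (h2 : v ≠ 2) (h11 : v ≠ 11) (hc : ¬ (v : ℤ) ∣ c) :
    ¬ (v : ℤ) ∣ d := by
  have p := Nat.prime_iff_prime_int.1 hv
  have a : ¬ (v : ℤ) ∣ 2 := fun k => h2 ((Nat.prime_dvd_prime_iff_eq hv Nat.prime_two).1
    (by exact_mod_cast k))
  have b : ¬ (v : ℤ) ∣ 11 := fun k => h11 ((Nat.prime_dvd_prime_iff_eq hv (by norm_num)).1
    (by exact_mod_cast k))
  rw [h.eq]
  intro k
  rcases p.dvd_or_dvd k with k | k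
  · rcases p.dvd_or_dvd k with k | k
    · refine a (k.trans ?_)
      rcases h.dl with e | e | e | e <;> rw [e] <;> decide
    · refine b (k.trans ?_)
      unfold ee
      split_ifs <;> decide
  · exact hc k

theorem one (hd : TD d δ c) (hq : QD q c) (h8 : q % 8 = 7) (hz : Cy (-(q * d)) 1 z)
    (hv : v.Prime) (h : v ≠ q) (hO : Ov O v) (hk : Kl (-(q * d)) O v z) : Kl d O v z := by
  obtain ⟨S, a, b⟩ := hk
  have p := hq.qf.pr
  by_cases hs : v = 2 ∨ Spl q v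
  · exact ⟨S, a, fun σ hσ => by
      rw [b σ hσ, tw, tw, cq_om p.ne_zero d (wl_om p h8 hv h hO hs hσ)]⟩
  rw [not_or] at hs
  have h11 : v ≠ 11 := fun e => hs.2 (e ▸ hq.qf.s11)
  have c1 : ∀ σ, Frob O 1 σ → cq d σ = 1 := fun σ hσ =>
    if_pos (cq_in hv hs.1 hO (nd hd hv hs.1 h11 fun e => hs.2 (hq.spl v hv e)) hσ)
  obtain ⟨-, -, e, -, f, -⟩ := r2 v O hv hs.1 h11 hO
  refine gd_thm d 1 v z O hv hs.1 h11 hO (cy (coc hz) d) c1 fun σ hσ => f 1 _ (hz.tor σ) ?_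
  rw [b σ ⟨0, hσ⟩, tw, cq_om p.ne_zero d (V2.c7 p hq.qf.m4 hv h hO hσ), c1 σ hσ, one_smul]
  exact e σ S hσ a

end SubA

open SubA in
theorem subA_thm : SubAStmt := by
  intro q d δ c n O σ φ hd hq h8 hO hσ hs hφ hn
  have p := hq.qf.pr
  have big := hq.qf.big
  have h2 : q ≠ 2 := by omega
  have h11 : q ≠ 11 := by omega
  obtain ⟨-, -, r3, r4, r5, r6, -, r8⟩ := r2 q O p h2 h11 hO
  obtain ⟨ff, mv⟩ := (r8 φ hφ).2.1.1 hq.ty
  have c1 := fun τ hτ => cq_in (σ := τ) p h2 hO (nd hd p h2 h11 hq.nd) hτ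
  refine ⟨fun z hz hk v O' hv a b => ?_, fun z hz z0 => ⟨⟨cy (coc hz.cy) d,
    fun v O' hv a b => ?_, hz.ff⟩, ?_⟩,
    (KI.subA_thm tr_thm le_thm gd_thm q c n O σ φ hq h8 hO hσ hs hφ hn).2.2⟩
  · rw [Finset.mem_insert, not_or] at a
    exact one hd hq h8 hz hv a.1 b (hk v O' hv a.2 b)
  · by_cases e : v = q
    · subst e
      refine tr_thm.2.1 d 1 v z O O' (cy (coc hz.cy) d) p hO b (gd_thm d 1 v z O p h2 h11 hO
        (cy (coc hz.cy) d) (fun τ hτ => if_pos (c1 τ hτ)) fun τ hτ => ?_)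
      obtain ⟨u, hu⟩ := le le_thm hq.qf hO hσ hs (coc hz.cy) hτ
      rw [hu, z0, smul_zero]
    · exact one hd hq h8 hz.cy hv e b (hz.kl v O' hv a b)
  · obtain ⟨S, a, b⟩ := hz.kl q O p hn hO
    have e := b σ ⟨0, hσ⟩
    rw [z0, tw, cq_neg (d_ne hd) hs (c1 σ hσ), neg_smul, one_smul] at e
    have e2 : 2 ^ 1 • S = -(σ • S - S) := by
      rw [pow_one, two_nsmul, neg_sub, sub_eq_add_neg, sub_eq_zero.1 e.symm]
    obtain ⟨T, t2, hT⟩ := r6 1 S (e2 ▸ neg_mem (r3 σ S hσ a))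
    have f2 := V2.c1 hφ hφ
    have aT : AlgP (S - T) := by
      rw [sub_eq_add_neg]
      exact R1.alg_add _ _ a (r1_thm.1.2.2.1 _ (R1.alg_half T (t2 ▸ r1_thm.1.1)))
    refine r5 1 _ (hz.cy.tor _) ?_
    have e3 : tw (-(q * d)) (φ * φ) S - S = tw (-(q * d)) (φ * φ) (S - T) - (S - T) := by
      have := tw2 (-(q * d)) (φ * φ) t2
      rw [mul_smul φ, ff T t2] at this
      simp only [tw, smul_sub] at this ⊢
      rw [this]
      abel
    rw [b (φ * φ) ⟨2, by rwa [pow_two]⟩, e3]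
    exact sub_mem (zsmul_mem ((r4 _ _ _ f2 (by positivity) aT).2 hT) _) hT

end Pool.Agent.Lib.MP_d6ddbd_nt.KA
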