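import Pool.Agent.Lib.MP_d6ddbd_nt.KA.SubB0
import Pool.Agent.Lib.MP_d6ddbd_nt.KI.SubB0
import Pool.Agent.Lib.MP_d6ddbd_nt.K11.Kum
import Pool.Agent.Lib.MP_d6ddbd_nt.K11.Link1
import Pool.Agent.Lib.MP_d6ddbd_nt.K11.Pr
import Pool.Agent.Lib.MP_d6ddbd_nt.K11.R1
import Pool.Agent.Lib.MP_d6ddbd_nt.K11.R2
import Pool.Agent.Lib.MP_d6ddbd_nt.K11.V1
import Pool.Agent.Lib.MP_d6ddbd_nt.K11.V2
import Pool.Agent.Lib.MP_d6ddbd_nt.K11.V3
import Pool.Agent.Lib.MP_d6ddbd_nt.K11.V4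
import Pool.Agent.Lib.MP_d6ddbd_nt.K11.Final

/-!
Level one: reciprocity and core vertices; the class `al0` is not a Selmer class.
-/

set_option autoImplicit false
set_option maxSynthPendingDepth 3

open NumberField
open Pool.Agent.Lib.MP_d6ddbd_nt.K11
open Pool.Agent.Lib.MP_d6ddbd_nt.KI (rt cq tw Cy Cb Kl Sel Pn)
open Pool.Agent.Lib.MP_d6ddbd_nt.KI.SubB (tw_two coc cb sf fv_iff fp om_move)

namespace Pool.Agent.Lib.MP_d6ddbd_nt.KA

namespace SubB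

theorem vS : VStmt := ⟨v1_thm, v2_thm, v3_thm v1_thm, v4_thm v1_thm⟩

theorem rS : RStmt := ⟨r1_thm, r2_thm v1_thm v2_thm r1_thm⟩

theorem kumS : KumStmt := kum_thm vS rS pr_thm

theorem link1S : Link1Stmt := link1_thm vS rS pr_thm

end SubB

open SubB

theorem subB_thm (hD : DkAStmt) (hA : SubAStmt) (hL : LA1Stmt) : SubBStmt := by
  have hK := kumS
  have h1 := link1S
  refine ⟨fun q d δ c n O σ₀ φ z a ht hq h8 hn hO hσ hm hφ hz ha hf => ?_,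
    fun L _ _ θ hθ q d δ c n O φ a ht hq hn hO hφ hc ha hf => ?_⟩
  · obtain ⟨L, _, _, θ, hθ⟩ := Final.exists_cub
    have qn := q_not hn
    have q2 : q ≠ 2 := by have := hq.qf.big; omega
    have q11 : q ≠ 11 := by have := hq.qf.big; omega
    have hB := b1_ins hq hn
    have hB' := b1_pn hn
    obtain ⟨α, a0, as, ak⟩ := (hK L θ hθ).1 z (coc hz.cy)
    obtain ⟨β, b0, bs, bk⟩ := (hK L θ hθ).1 a (coc ha.cy)
    have wa := hD L θ hθ d δ c _ α z ht hB.n2 hB.n11 hB.nd a0 as (coc hz.cy) ak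
      ((hA q d δ c n O σ₀ φ ht hq h8 hO hσ hm hφ qn).1 z hz.cy hz.kl)
    have wb := hD L θ hθ d δ c n β a ht hB'.n2 hB'.n11 hB'.nd b0 bs (coc ha.cy) bk ha.kl
    have sb : sv q β = 0 := sv_zero hL hθ ht hB' wb hq.qf.pr q11 hq.nd qn
    have r := recip hL hθ ht hB wa (sc_mono wb (Finset.subset_insert q n))
    rw [Finset.sum_insert qn, Finset.sum_eq_zero fun l h => by
        rw [fp vS h1 hθ hn a0 as hz ak l h, fp vS h1 hθ hn b0 bs ha bk l h, mul_zero, zero_mul,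
          add_zero],
      sb, mul_zero, add_zero, add_zero] at r
    have fb : fv q β ≠ 0 := fun h =>
      hf ((fv_iff h1 hθ b0 bs (coc ha.cy) bk hq.qf.pr q2 q11 hq.ty hO hφ).1 h)
    obtain ⟨u1, u2⟩ := om_move hq.qf.m4 hm
    exact (((h1 L θ hθ).2.2 α z a0 as (coc hz.cy) ak).2 q O σ₀ φ _ hq.qf.pr q2 q11 hq.ty hO hσ hφ
      u1 u2).1.1 ((mul_eq_zero.1 r).resolve_right fb)
  · have q2 : q ≠ 2 := by have := hq.qf.big; omega
    have q11 : q ≠ 11 := by have := hq.qf.big; omega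
    have hB' := b1_pn hn
    obtain ⟨β, b0, bs, bk⟩ := (hK L θ hθ).1 a (coc ha.cy)
    have wb := hD L θ hθ d δ c n β a ht hB'.n2 hB'.n11 hB'.nd b0 bs (coc ha.cy) bk ha.kl
    exact cb (((hK L θ hθ).2 β a b0 (coc ha.cy) bk).1 (hc β ⟨wb, fp vS h1 hθ hn b0 bs ha bk,
      (fv_iff h1 hθ b0 bs (coc ha.cy) bk hq.qf.pr q2 q11 hq.ty hO hφ).2 hf⟩))

namespace SubB

theorem cy_of {c : ℤ} {x : G → Pt} (h : Coc x) : Cy c 1 x :=
  ⟨fun σ => by simpa using h.two σ, fun σ τ => by rw [h.mul, tw_two c σ (h.two τ)], h.fin⟩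

theorem ex_om {q : ℕ} (hq : QF q) {O : ValuationSubring ℂ} (hO : Ov O q) :
    ∃ σ : G, Frob O 1 σ ∧ σ (om q) ≠ om q := by
  obtain ⟨L, _, _, θ, hθ⟩ := Final.exists_cub
  have sq : Squarefree (-(q : ℤ)) := by
    rw [← Int.squarefree_natAbs]
    simpa using hq.pr.squarefree
  obtain ⟨σ, hσ, hu⟩ := (link1S L θ hθ).2.1 q O (2 * om q - 1) (-(q : ℤ)) hq.pr hO
    (by rw [om_sq']; simp) sq (dvd_neg.2 dvd_rfl)
  refine ⟨σ, hσ, fun e => ?_⟩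
  rw [map_sub, map_mul, map_one, map_ofNat, e] at hu
  have z : 2 * om q - 1 = 0 := by linear_combination hu / 2
  have := om_sq' q
  rw [z] at this
  have h0 : (q : ℂ) = 0 := by linear_combination this
  exact hq.pr.ne_zero (by exact_mod_cast h0)

end SubB

theorem nv_thm (hD : DkAStmt) (hS : ScStmt) (hA : SubAStmt) : NvStmt := by
  intro L _ _ θ hθ q d δ c n ht hq h8 hb hn
  have hB := b1_ins hq hn
  have hB' := b1_pn hn
  refine ⟨fun α ξ a0 as hξ ak hk => ?_, fun α ξ a0 as hξ ak hk => ?_⟩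
  · exact (hS L θ hθ d δ c n α ht hB'.n11
      (hD L θ hθ d δ c n α ξ ht hB'.n2 hB'.n11 hB'.nd a0 as hξ ak hk)).2.1 hb
  · obtain ⟨O, hO⟩ := vS.1.1 q hq.qf.pr
    obtain ⟨φ, hφ⟩ := vS.1.2.2.2.2 q O hq.qf.pr hO
    obtain ⟨σ₀, hσ, hm⟩ := ex_om hq.qf hO
    exact (hS L θ hθ d δ c _ α ht hB.n11
      (hD L θ hθ d δ c _ α ξ ht hB.n2 hB.n11 hB.nd a0 as hξ ak
        ((hA q d δ c n O σ₀ φ ht hq h8 hO hσ hm hφ (q_not hn)).1 ξ (cy_of hξ) hk))).2.1 hb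

end Pool.Agent.Lib.MP_d6ddbd_nt.KA
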