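import Pool.Agent.Lib.MP_d6ddbd_nt.KA.Stmt
import Pool.Agent.Lib.MP_d6ddbd_nt.KI.Cm1
import Pool.Agent.Lib.MP_d6ddbd_nt.K11.AllX

/-!
An element of the group `H` that sees the order of a class.
-/

set_option autoImplicit false
set_option maxSynthPendingDepth 3

open NumberField
open Pool.Agent.Lib.MP_02f36d_nt (xc yc)
open Pool.Agent.Stark (SqCl cl cl_eq_zero cl_eq_cl)
open Pool.Agent.Lib.MP_d6ddbd_nt.K11
open Pool.Agent.Lib.MP_d6ddbd_nt.KI (tw Cy Cb Kl Hm Wq)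
open Pool.Agent.Lib.MP_d6ddbd_nt.KI.Cm

noncomputable section

namespace Pool.Agent.Lib.MP_d6ddbd_nt.KA

namespace SurjA

variable {c : ℤ} {n : Finset ℕ} {x y : G → Pt}

theorem ku_zs (h : Ku c n x) (u : ℤ) : Ku c n (u • x) := fun v O hv hn hO => by
  obtain ⟨S, a, b⟩ := h v O hv hn hO
  let H : AddSubgroup Pt := ⟨⟨⟨{P | AlgP P}, fun {x y} => R1.alg_add x y⟩, r1_thm.1.1⟩,
    fun {x} => r1_thm.1.2.2.1 x⟩
  exact ⟨u • S, H.zsmul_mem a u, fun σ hσ => by rw [Pi.smul_apply, b σ hσ, tw_zs, smul_sub]⟩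

theorem ku_add (h : Ku c n x) (h' : Ku c n y) : Ku c n (x + y) := fun v O hv hn hO => by
  obtain ⟨S, a, b⟩ := h v O hv hn hO
  obtain ⟨S', a', b'⟩ := h' v O hv hn hO
  refine ⟨S + S', R1.alg_add _ _ a a', fun σ hσ => ?_⟩
  rw [Pi.add_apply, b σ hσ, b' σ hσ, tw_add]
  abel

theorem ex_lam {V : Type} [AddCommGroup V] [Module (ZMod 2) V] {a b : V} (h0 : a ≠ 0)
    (h : a ≠ b) : ∃ f : V →ₗ[ZMod 2] ZMod 2, f a = 1 ∧ f b = 0 := by
  obtain ⟨f, f1, f2⟩ := Submodule.exists_dual_map_eq_bot_of_notMem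
    (p := Submodule.span (ZMod 2) {b}) (x := a) (fun e => by
      obtain ⟨t, rfl⟩ := Submodule.mem_span_singleton.1 e
      rcases KI.Iso.z2 t with rfl | rfl
      · exact h0 (zero_smul _ _)
      · exact h (one_smul _ _)) inferInstance
  refine ⟨f, (KI.Iso.z2 _).resolve_left f1, ?_⟩
  have : f b ∈ (Submodule.span (ZMod 2) {b}).map f :=
    Submodule.mem_map_of_mem (Submodule.mem_span_singleton_self b)
  rwa [f2, Submodule.mem_bot] at this

end SurjA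

open SurjA

theorem surjA_thm (hA : CmAStmt) : SurjAStmt := by
  classical
  intro L _ _ θ hθ q m k W c n y hm hk hW hv hy he
  have ex : ∃ j : ℕ, Cb c ((2 : ℤ) ^ j • y) := ⟨k, by
    rw [show (2 : ℤ) ^ k • y = 0 from funext fun σ => by exact_mod_cast hy.tor σ]
    exact cb_zero⟩
  have h1 := Nat.find_spec ex
  rcases hj : Nat.find ex with _ | i
  · rw [hj, pow_zero, one_smul] at h1
    exact ⟨1, hm_iff.2 (one_mem _), fun u _ => cb_zs h1 u⟩
  have h2 := Nat.find_min ex (m := i) (by omega)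
  rw [hj] at h1
  obtain ⟨T, j, p, q'⟩ := id h1
  obtain ⟨T', rfl⟩ := R1.ex_half T
  have t1 : 2 ^ (j + 1) • T' = 0 := by rw [pow_succ, mul_smul, p]
  have b1 := (cy_cb (c := c) t1).1
  have b2 : Ku c n fun σ => tw c σ T' - T' := fun _ _ _ _ _ =>
    ⟨T', (Cheb.tors r1_thm _).2 T' t1, fun _ _ => rfl⟩
  obtain ⟨ξ, hξ⟩ : ∃ ξ : G → Pt, ξ = (2 : ℤ) ^ i • y + (-1 : ℤ) • fun σ => tw c σ T' - T' :=
    ⟨_, rfl⟩
  have x1 : ∀ σ, ξ σ = (2 : ℤ) ^ i • y σ - (tw c σ T' - T') := fun σ => by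
    rw [hξ, Pi.add_apply, Pi.smul_apply, Pi.smul_apply, neg_one_smul, ← sub_eq_add_neg]
  have x2 : ∀ σ, 2 • ξ σ = 0 := fun σ => by
    have := q' σ
    rw [Pi.smul_apply, tw_ns] at this
    rw [x1]
    linear_combination (norm := module) this
  have up : ∀ {a b : ℕ} {x : G → Pt}, a ≤ b → Cy c a x → Cy c b x := fun h hx =>
    ⟨fun σ => tor_le h (hx.tor σ), hx.mul, hx.fin⟩
  have x3 : Cy c (k + (j + 1)) ξ := hξ ▸ cy_add (cy_zs (up (by omega) hy) _)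
    (cy_zs (up (by omega) b1) _)
  have x4 : Cy c 1 ξ := ⟨fun σ => by simpa using x2 σ, x3.mul, x3.fin⟩
  obtain ⟨e₁, e₂, e₃, hf, -, -, n23, -, c2, -⟩ := r1_thm.2.2.2.2.1
  have x5 := cy_coc x4
  obtain ⟨α, a0, a1, a2⟩ := (kumAll L θ hθ).1 ξ x5
  have a3 : ¬ IsSquare α := fun a => h2 (by
    have := cb_add (cob_cb (c := c) (((kumAll L θ hθ).2 α ξ a0 x5 a2).1 a))
      ⟨T', j + 1, t1, fun _ => rfl⟩
    rwa [hξ, neg_one_smul, neg_add_cancel_right] at this)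
  have a4 := hv α ξ a0 a1 x5 a2 (hξ ▸ ku_add (ku_zs he _) (ku_zs b2 _))
  have a5 : al0 θ ≠ 0 := fun e => a4 (by rw [e, mul_zero]; exact IsSquare.zero)
  obtain ⟨lam, l1, l2⟩ := ex_lam (fun e => a3 ((cl_eq_zero a0).1 e))
    fun e => a4 ((cl_eq_cl a0 a5).1 e)
  have f2 : fc e₂ = 0 := by rw [hf]; ring
  obtain ⟨-, p2, p3⟩ := r1_thm.2.2.1 e₂ 0 (by rw [f2]; ring)
  have t : 2 • pt e₂ 0 = 0 := (R1.two_iff _).2 (Or.inr ⟨p3, by rw [p2, f2]⟩)
  obtain ⟨h, g0, g2⟩ := hA L θ hθ q m W {α} lam (pt e₂ 0) hm hW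
    (fun β hβ => by rw [Finset.mem_singleton.1 hβ]; exact ⟨a0, a1⟩) (Or.inr l2) t
  have g1 := hm_iff.1 g0
  replace g2 := (g2 α (Finset.mem_singleton_self α)).2 ξ x5 a2
  rw [l1, ZMod.val_one, one_smul] at g2
  have g3 := nn_mem (kw hW) g1
  have t2 : 2 ^ k • T' = 0 := no_inv (c := c) (k := j + 1) (by rw [smul_comm, t1, smul_zero])
    fun σ => by
      have ik : i + 1 ≤ k := hj ▸ Nat.find_min' ex (by
        rw [show (2 : ℤ) ^ k • y = 0 from funext fun σ => by exact_mod_cast hy.tor σ]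
        exact cb_zero)
      have a := tor_one (m := k) (by omega) (x2 σ)
      rwa [x1, smul_sub, smul_comm, hy.tor, smul_zero, zero_sub, neg_eq_zero, smul_sub,
        sub_eq_zero, ← tw_ns] at a
  have g4 := x1 (cj * h * (cj * h))
  rw [tw_H g3 (tor_le hk t2), sub_self, sub_zero] at g4
  have g5 : ξ (cj * h * (cj * h)) ≠ 0 := by
    rw [cy_nn (kw hW) x4 (by omega) g1, tw_two (x2 h), g2]
    intro a
    rw [two_nsmul, add_eq_zero_iff_eq_neg] at t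
    rw [add_eq_zero_iff_eq_neg, ← t] at a
    have d := congrArg xc a
    rw [xc_smul, p2, c2] at d
    exact n23 d.symm
  refine ⟨h, g0, fun u hu => ?_⟩
  have g6 := x2 (cj * h * (cj * h))
  rw [g4] at g5 g6
  have o : addOrderOf (y (cj * h * (cj * h))) = 2 ^ (i + 1) := addOrderOf_eq_prime_pow
    (by exact_mod_cast g5) (by rw [pow_succ', mul_smul]; exact_mod_cast g6)
  obtain ⟨v, rfl⟩ := addOrderOf_dvd_iff_zsmul_eq_zero.2 hu
  rw [o, mul_comm, mul_smul]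
  exact cb_zs (by exact_mod_cast h1) v

end Pool.Agent.Lib.MP_d6ddbd_nt.KA
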