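import Pool.Agent.Lib.MP_d6ddbd_nt.KA.Chain
import Pool.Agent.Lib.MP_d6ddbd_nt.KI.Bas

/-!
The two-converse for all quadratic twists of `X₀(11)`: the system of level `k`.
-/

set_option autoImplicit false
set_option maxSynthPendingDepth 3

open Pool.Agent.Lib.MP_d6ddbd_nt.K11
open Pool.Agent.Lib.MP_d6ddbd_nt.KI (ex_ine_pst cb_cob_iff)

noncomputable section

namespace Pool.Agent.Lib.MP_d6ddbd_nt.KA

theorem sys_thm (hG : GqStmt) (hH : KHStmt) (hK : KStmt) (hC : CKStmt) (h0 : Asw0Stmt)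
    (h1 : Asw1Stmt) (h2 : Asw2Stmt) (hL : LocxStmt) : SysStmt := by
  classical
  intro L _ _ θ hθ q d δ c s hd hb hq
  obtain ⟨K, r₁, r₂, m, k, W, a, S, ρ, ν, j, hW, H⟩ := hH q d δ c s hd hq.qd hq.m8 fun _ =>
    (hG L θ hθ q hq.qd.qf hq.qd.ty).1 hq.fg
  obtain ⟨M, ξ, x, S', Y, X, E⟩ := hK q d δ c K r₁ r₂ m s k W a S ρ ν j H
  obtain ⟨α, A, B⟩ := hC L θ hθ q d δ c K r₁ r₂ m M ξ hd hq.qd H.rd₁ H.rd₂ Y
  have hm := H.hm
  have as : Asw θ d δ c := by
    by_cases e : (11 : ℤ) ∣ d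
    · by_cases e' : rx d
      · exact h2 L θ hθ d δ c e'
      · exact h1 L θ hθ d δ c e e'
    · exact h0 L θ hθ d δ c e
  refine ⟨TT d c + 1 + s, m, W, x, by omega, by omega, hW, X.cy, fun n hn hg => ?_, X.atp,
    fun n hn hc => ?_, S' ∅, X.alg ∅, X.bot⟩
  · refine hL q d _ _ n _ (S' n) hq.qd.qf (Chain.sf hd) (Chain.nq hd hq.qd) (Chain.twA_or q d n)
      (X.cy n hn) (X.alg n) (fun v O σ a b c f g => X.iner n v O σ hn a b c f g) (fun v hv => ?_)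
      fun p hp O φ a b => ?_
    · obtain ⟨O, φ, a, b, c⟩ := X.frob v hv
      exact ⟨O, φ, a, b, c n hn hg⟩
    · obtain ⟨σ, f, g⟩ := ex_ine_pst (hn p hp).pr a
      have := (X.atp (n.erase p) p O σ φ (fun p' h => hn p' (Finset.mem_of_mem_erase h)) (hn p hp)
        (Finset.notMem_erase p n) a f b g).2
      rwa [Finset.insert_erase hp] at this
  · obtain ⟨e, f⟩ := as q m M α hd hb hq (by omega) A Y.le n hn hc
    have g : 2 ^ s • x n = ξ n 0 := funext (E e n hn)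
    have o := Y.coc n 0 hn
    refine ⟨fun σ => ?_, fun h => f ?_⟩
    · rw [pow_succ', mul_smul, E e n hn]
      exact o.two σ
    · rw [g] at h
      exact ((kumAll L θ hθ).2 _ _ (A.mem n 0 hn).ne o (B n hn)).2 ((cb_cob_iff o.two).1 h)

end Pool.Agent.Lib.MP_d6ddbd_nt.KA
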