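import Pool.Agent.Lib.MP_d6ddbd_nt.KA.Stmt
import Pool.Agent.Lib.MP_d6ddbd_nt.KI.Bas
import Pool.Agent.Lib.MP_d6ddbd_nt.K11.Link2
import Pool.Agent.Lib.MP_d6ddbd_nt.K11.Pr

/-!
The two-converse for all quadratic twists of `X₀(11)`: the coordinates at `11` of the class of a
cocycle.
-/

set_option autoImplicit false
set_option maxSynthPendingDepth 3

open NumberField IsDedekindDomain
open Pool.Agent.Lib.MP_02f36d_nt (xc yc xc_neg)
open Pool.Agent.Stark
open Pool.Agent.Lib.MP_d6ddbd_nt.K11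
open Pool.Agent.Lib.MP_d6ddbd_nt.KI (cq tw vA rA cq_or alg_add alg_neg alg_tor)

noncomputable section

namespace Pool.Agent.Lib.MP_d6ddbd_nt.KA

namespace T11

open Link1

variable {O : ValuationSubring ℂ} {L : Type} [Field L] [NumberField L] {e : L →+* ℂ} {𝔭 : Pr L}

/-- The Frobenius value on the square root of a number of even order. -/
theorem frob {α π : L} {s : ℂ} (hB : Below e O 𝔭) (ho2 : og 𝔭 (2 : L) = 0) (hπ : og 𝔭 π = 1)
    (hα : α ≠ 0) (hs : s ^ 2 = e α) {φ : G} (hφ : Frob O (nm 𝔭) φ) (hf : ∀ y, φ (e y) = e y)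
    (he : Even (og 𝔭 α)) : φ s = s ↔ LSq 𝔭 α := by
  have hV := vA
  have hl0 : π ≠ 0 := by
    rintro rfl
    simp [og] at hπ
  have v2 : O.valuation 2 = 1 := by
    rw [← map_ofNat e 2]
    exact bu hV hB two_ne_zero ho2
  obtain ⟨k, hk⟩ := he
  have hlk := zpow_ne_zero k hl0
  set z := α / (π ^ k) ^ 2 with hz
  have hz0 : z ≠ 0 := div_ne_zero hα (pow_ne_zero 2 hlk)
  have hz1 : og 𝔭 z = 0 := by
    rw [og, hz, ord_div hα (pow_ne_zero 2 hlk), ord_pow, ord_zpow, ← og, ← og, hk, hπ]; ring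
  have hz2 : z ∈ pw (𝔭.valuation L) 0 := ComplAux.mem_pw_zero.2 hz1.ge
  have hz3 : z ∉ pw (𝔭.valuation L) 1 := LocAux.not_mem.2 ⟨hz0, by rw [← og, hz1]; exact one_pos⟩
  set t := s / e (π ^ k) with ht
  have h4 : t ^ 2 = e z := by rw [ht, hz, div_pow, hs, map_div₀, map_pow]
  have h5 : O.valuation t = 1 := sq1 (by rw [← map_pow, h4, bu hV hB hz0 hz1])
  have h6 : φ s = s ↔ φ t = t := by
    rw [ht, map_div₀, hf, div_left_inj' ((map_ne_zero e).2 hlk)]
  have h7 : LSq 𝔭 α ↔ LSq 𝔭 z := by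
    have h8 : α = z * (π ^ k) ^ 2 := (div_mul_cancel₀ _ (pow_ne_zero 2 hlk)).symm
    refine ⟨fun h => ?_, fun h => ?_⟩
    · rw [LSq, hz, map_div₀, map_pow]
      exact h.div (IsSquare.sq _)
    · rw [LSq, h8, map_mul, map_pow]
      exact h.mul (IsSquare.sq _)
  have hat := alg2 h4 (alge e z)
  obtain ⟨hodd, hE⟩ := (resid 𝔭 hz2).2 ho2
  rw [h6, h7]
  refine ⟨fun h => ?_, fun h => ?_⟩
  · have h8 := nu.1 (hφ t hat (le1.2 h5.le)).2
    have h9 : t - t ^ nm 𝔭 = -(t * e (z ^ (nm 𝔭 / 2) - 1)) := by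
      rw [map_sub, map_pow, ← h4, ← pow_mul, map_one]
      conv_lhs => rw [← Nat.two_mul_div_two_add_one_of_odd hodd]
      ring
    rw [h, h9, Valuation.map_neg, map_mul, h5, one_mul] at h8
    obtain ⟨y, hy⟩ := hE ((b1 hV hB _).1 h8) hz3
    have h10 := LocAux.add_high (w := 𝔭.valuation L) hz0 (y := -(z - y ^ 2))
      (neg_mem (by rwa [← og, hz1]))
    rw [show z + -(z - y ^ 2) = y ^ 2 by ring, show ord _ z = 0 from hz1] at h10
    have h12 := LocAux.hens (isLoc_wv 𝔭) (x := emb 𝔭 (z / y ^ 2)) (by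
      rw [← map_ofNat (emb 𝔭) 2, ord_emb, ho2, ← map_one (emb 𝔭), ← map_sub,
        ComplAux.emb_mem_pw, div_sub_one h10.1]
      exact LocAux.pw_div hy (by rw [h10.2]; norm_num))
    rw [LSq, ← div_mul_cancel₀ z h10.1, map_mul, map_pow]
    exact h12.mul (IsSquare.sq _)
  · obtain ⟨r, hr⟩ := h
    obtain ⟨y, hy⟩ := exists_approx 𝔭 r 1
    have hr0 : r ≠ 0 := by rintro rfl; exact (map_ne_zero (emb 𝔭)).2 hz0 (by simpa using hr)
    have hr1 : r ∈ pw (wv 𝔭) 0 := ComplAux.mem_pw_zero.2 (by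
      have := ord_emb 𝔭 z
      rw [hr, ord_mul hr0 hr0, hz1] at this
      omega)
    have h8 : y ^ 2 - z ∈ pw (𝔭.valuation L) 1 := by
      rw [← ComplAux.emb_mem_pw, map_sub, map_pow, hr,
        show emb 𝔭 y ^ 2 - r * r = (emb 𝔭 y - r) * (emb 𝔭 y - r + r + r) by ring]
      exact LocAux.pw_mul hy (add_mem (add_mem (LocAux.anti zero_le_one hy) hr1) hr1) le_rfl
    have h9 := (b1 hV hB _).2 h8
    have key : ∀ y : L, O.valuation (t - e y) < 1 → φ t = t := fun y h => by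
      have hN : nm 𝔭 ≠ 0 := by rintro h; rw [h] at hodd; exact absurd hodd (by decide)
      have h10 := nu.1 ((hV.2.1.2.1 O _ φ _ hφ hN (hat.sub (alge e y))).2.2 (nu.2 h))
      rw [map_sub, hf] at h10
      refine fixu v2 h5 (by rw [← map_pow, h4, hf]) ?_
      simpa using Valuation.map_sub_lt _ h10 h
    rw [map_sub, map_pow, ← h4, show e y ^ 2 - t ^ 2 = -((t - e y) * (t - e (-y))) by
      rw [map_neg]; ring, Valuation.map_neg, map_mul] at h9
    by_contra h10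
    exact h9.not_ge (one_le_mul (not_lt.1 (mt (key y) h10)) (not_lt.1 (mt (key _) h10)))

/-- The symbol of a number of even order with a number of odd order. -/
theorem sym {β f : L} (ho2 : og 𝔭 (2 : L) = 0) (hβ : β ≠ 0) (hf : f ≠ 0) (he : Even (og 𝔭 β))
    (h5 : og 𝔭 f = 5) : hq 𝔭 β f = 0 ↔ LSq 𝔭 β := by
  have hβ' := (map_ne_zero (emb 𝔭)).2 hβ
  rw [hq, (isLoc_wv 𝔭).hs_of_unr hβ' ((isLoc_wv 𝔭).unr_of_odd
    (by rw [← map_ofNat (emb 𝔭) 2, ord_emb, ho2]) hβ' (by rwa [ord_emb]))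
    ((map_ne_zero _).2 hf), ord_emb, h5, LSq]
  split_ifs with h
  · simp [h]
  · exact iff_of_false (by decide) h

theorem sym' {α f : L} (hα : α ≠ 0) (hf : f ≠ 0) : hq 𝔭 (α * -f) f = hq 𝔭 α f := by
  have h1 := (map_ne_zero (emb 𝔭)).2 hα
  have h2 := (map_ne_zero (emb 𝔭)).2 hf
  rw [hq, hq, map_mul, map_neg, (isLoc_wv 𝔭).hs_mul_left h1 (neg_ne_zero.2 h2) h2,
    hs_comm (isLoc_wv 𝔭).two (neg_ne_zero.2 h2) h2, hs_neg_self, add_zero]

theorem an_add {P Q : Pt} (h : An O P) (h' : An O Q) : An O (P + Q) :=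
  ⟨alg_add h.1 h'.1, fun σ hσ => by rw [smul_add, h.2 σ hσ, h'.2 σ hσ, smul_add]⟩

theorem k4 : ∀ c : ZMod 4, c = 0 ∨ c + 1 = 0 ∨ c + 1 + 1 = 0 ∨ c + 1 + 1 + 1 = 0 := by decide

/-- The points of order four on which inertia acts through the character of `-11`. -/
theorem four {φ : G} {S : Pt} {κ : Pt → ZMod 4} (h : G4 O φ S κ) {R : Pt} (hR : An O R)
    (h4 : 4 • R = 0) : R = 0 ∨ R = 2 • S ∨ R = S ∨ R = -S := by
  have key : ∀ X, An O X → 4 • X = 0 → κ X = 0 → X = 0 := fun X a b c =>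
    h.inj X a (by
      rw [two_nsmul]
      exact h.inj _ (an_add a a) (by rw [← b]; abel) (by rw [h.add X X a a, c, add_zero])) c
  have f := h.four
  have a1 := an_add hR h.an
  have a2 := an_add a1 h.an
  have a3 := an_add a2 h.an
  have k1 : κ (R + S) = κ R + 1 := by rw [h.add _ _ hR h.an, h.one]
  have k2 : κ (R + S + S) = κ R + 1 + 1 := by rw [h.add _ _ a1 h.an, h.one, k1]
  have k3 : κ (R + S + S + S) = κ R + 1 + 1 + 1 := by rw [h.add _ _ a2 h.an, h.one, k2]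
  rcases k4 (κ R) with c | c | c | c
  · exact Or.inl (key R hR h4 c)
  · exact Or.inr (Or.inr (Or.inr (eq_neg_of_add_eq_zero_left
      (key _ a1 (by rw [smul_add, h4, f, add_zero]) (k1.trans c)))))
  · have := key _ a2 (by rw [smul_add, smul_add, h4, f, add_zero, add_zero]) (k2.trans c)
    exact Or.inr (Or.inl (by linear_combination (norm := module) this - f))
  · have := key _ a3 (by rw [smul_add, smul_add, smul_add, h4, f, add_zero, add_zero, add_zero])
      (k3.trans c)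
    exact Or.inr (Or.inr (Or.inl (by linear_combination (norm := module) this - f)))

theorem twl {d : ℤ} {σ : G} {S : Pt} (h : tw d σ (2 • S) = 2 • S) :
    σ • (2 • S) = cq d σ • (2 • S) ∧ tw d σ S - S = σ • S - cq d σ • S ∧
      2 • (σ • S - cq d σ • S) = 0 := by
  unfold tw at *
  rw [Fin.sm_n] at *
  generalize σ • S = P at *
  rcases cq_or d σ with c | c <;> rw [c] at h ⊢ <;> refine ⟨?_, ?_, ?_⟩
  · linear_combination (norm := module) h
  · module
  · linear_combination (norm := module) h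
  · linear_combination (norm := module) -h
  · linear_combination (norm := module) h
  · linear_combination (norm := module) -h

variable {e₁ e₂ e₃ A B : ℂ}

theorem der (N : N11 O e₁ e₂ e₃ A B) : fd e₂ = A ^ 2 * (A - B) * (A + B) := by
  have h0 := N.fac 0
  have h1 := N.fac 1
  have h2 := N.fac (-1)
  have a := N.sA
  have b := N.sB
  unfold fc at h0 h1 h2
  have s1 : e₁ + e₂ + e₃ = 4 := by linear_combination (h1 + h2 - 2 * h0) / 2
  have s2 : e₁ * e₂ + e₁ * e₃ + e₂ * e₃ = -160 := by linear_combination (h2 - h1) / 2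
  rw [show A ^ 2 * (A - B) * (A + B) = A ^ 2 * (A ^ 2 - B ^ 2) by ring, a, b, fd]
  linear_combination 2 * e₂ * s1 - s2

theorem units (hO : Ov O 11) (N : N11 O e₁ e₂ e₃ A B) :
    O.valuation 2 = 1 ∧ O.valuation A = 1 ∧ O.valuation (A + B) = 1 ∧
      O.valuation (-A ^ 3 * (A + B) - 9) < 1 := by
  have v2 : O.valuation 2 = 1 := by
    simpa using vint (n := 2) (by norm_num : Nat.Prime 11) hO (by norm_num)
  have a : O.valuation (A ^ 2 + 1) < 1 := by
    rw [show A ^ 2 + 1 = e₁ - 8 - (e₂ - 9) by rw [N.sA]; ring]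
    exact Valuation.map_sub_lt _ (nu.1 N.r1) (nu.1 N.r2)
  have vA : O.valuation A = 1 := sq1 (by
    rw [← map_pow, ← Valuation.map_neg, show -A ^ 2 = 1 + -(A ^ 2 + 1) by ring]
    exact Valuation.map_one_add_of_lt _ (by rwa [Valuation.map_neg]))
  have ab := nu.1 N.ab
  have v : O.valuation (2 * A) = 1 := by rw [map_mul, v2, vA, one_mul]
  refine ⟨v2, vA, ?_, ?_⟩
  · rw [show A + B = 2 * A - (A - B) by ring, Valuation.map_sub_eq_of_lt_left _ (by rwa [v]), v]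
  · rw [show -A ^ 3 * (A + B) - 9 = A ^ 3 * (A - B) - 2 * (A ^ 2 - 1) * (A ^ 2 + 1) - (11 : ℕ) by
      push_cast; ring]
    refine Valuation.map_sub_lt _ (Valuation.map_sub_lt _ ?_ ?_) (nu.1 hO)
    · rwa [map_mul, map_pow, vA, one_pow, one_mul]
    · rw [map_mul, map_mul, v2, one_mul]
      refine mul_lt_one_of_nonneg_of_lt_one_right (Valuation.map_sub_le _ ?_ ?_) zero_le a
      · rw [map_pow, vA, one_pow]
      · rw [map_one]

theorem fixw (hO : Ov O 11) (N : N11 O e₁ e₂ e₃ A B) {φ : G} (hφ : Frob O 11 φ) (ha : φ A = -A)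
    (hb : φ B = -B) (aA : IsAlgebraic ℚ A) (aB : IsAlgebraic ℚ B) {w : ℂ}
    (hw : w ^ 2 = -A ^ 3 * (A + B)) : φ w = w := by
  obtain ⟨v2, v3, v4, v5⟩ := units hO N
  have aw := alg2 hw ((aA.pow 3).neg.mul (aA.add aB))
  have key : ∀ n : ℤ, O.valuation (w - n) < 1 → φ w = w := fun n h => by
    have h1 := nu.1 ((vA.2.1.2.1 O _ φ _ hφ (by norm_num)
      (aw.sub (isAlgebraic_intCast n))).2.2 (nu.2 h))
    rw [map_sub, map_intCast] at h1
    refine fixu v2 (sq1 ?_) ?_ (by simpa using Valuation.map_sub_lt _ h1 h)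
    · rw [← map_pow, hw, map_mul, Valuation.map_neg, map_pow, v3, v4, one_pow, one_mul]
    · rw [← map_pow, hw, map_mul, map_neg, map_pow, map_add, ha, hb]
      ring
  rw [← hw, show w ^ 2 - 9 = (w - (3 : ℤ)) * (w - (-3 : ℤ)) by push_cast; ring, map_mul] at v5
  by_contra h
  exact v5.not_ge (one_le_mul (not_lt.1 (mt (key _) h)) (not_lt.1 (mt (key _) h)))

end T11

open T11 Link1 in
theorem t11_thm (hN : N11Stmt) (hG : G11Stmt) : T11Stmt := by
  classical
  intro L _ _ θ hθ d O φ α ξ a b hO hφ hc hd hα hn hξ hK ⟨S, T, h8, hT, hI, hφ2, hξφ, ha, hb⟩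
  have hp : Nat.Prime 11 := by norm_num
  obtain ⟨⟨e₁, e₂, e₃, A, B, N⟩, -, -, ⟨σ₀, hσ₀, hσ₁⟩, H⟩ := hN O hO
  obtain ⟨m2, m4, ⟨u, u1, u2, u3⟩, nI, nF⟩ := H _ _ _ _ _ N
  obtain ⟨κ, hκ⟩ := hG O φ _ _ _ _ _ hO hφ hc N
  obtain ⟨f1, fA, fB⟩ := nF φ hφ hc
  obtain ⟨v2, v3, v4, -⟩ := units hO N
  obtain ⟨-, ⟨𝔭, 𝔮, ne, hab, n1, n2, o1, o2, t1, t2⟩, -, -, -, -, -, hemb, -⟩ := pr_thm L θ hθ
  have r1 : fc e₁ = 0 := by rw [N.fac]; ring
  have r2 : fc e₂ = 0 := by rw [N.fac]; ring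
  have r3 : fc e₃ = 0 := by rw [N.fac]; ring
  have al : ∀ x : ℂ, fc x = 0 → IsAlgebraic ℚ x := fun x hx => by
    obtain ⟨e, rfl⟩ := hemb x hx
    exact alge e θ
  have aA := alg2 N.sA ((al _ r1).sub (al _ r2))
  have aB := alg2 N.sB ((al _ r1).sub (al _ r3))
  obtain ⟨e, he⟩ := hemb e₂ r2
  have hB : Below e O 𝔮 := by
    obtain ⟨𝔯, k1, k2⟩ := vA.1.2.2.1 L e 11 O hp hO
    rcases (hab 𝔯).1 ((mem_ab' hp.ne_zero).2 k1) with rfl | rfl
    · have k3 := Link2.lt1 k2 t1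
      rw [map_sub, he, map_ofNat] at k3
      have := Valuation.map_sub_lt _ k3 (nu.1 N.r2)
      rw [show e₂ - 8 - (e₂ - 9) = 1 by ring, map_one] at this
      exact this.false.elim
    · exact k2
  have hE : E2 L = {𝔮} := Finset.ext fun 𝔯 => by
    rw [E2, Finset.mem_filter, hab, Finset.mem_singleton]
    refine ⟨fun h => h.1.resolve_left ?_, fun h => ⟨Or.inr h, h ▸ o2⟩⟩
    rintro rfl
    have := h.2
    omega
  rw [a11, b11, hE, Finset.sum_singleton, Finset.sum_singleton]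
  have vu : O.valuation u = 1 := le_antisymm (le1.1 u1) (not_lt.1 (mt nu.2 u2))
  have e23 : e₂ - e₃ = -((A - B) * (A + B)) := by linear_combination N.sA - N.sB
  have AB : A - B ≠ 0 := fun h => by
    rw [e23, h] at u3
    have : u = 0 := by simpa using u3.symm
    simp [this] at vu
  have A0 : A ≠ 0 := fun h => by simp [h] at v3
  have AB' : A + B ≠ 0 := fun h => by simp [h] at v4
  have ho2 : og 𝔮 (2 : L) = 0 := by
    simpa [og] using (Link2.eq hB two_ne_zero one_ne_zero).1 (by rw [map_ofNat, v2]; simp)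
  have f0 := fdne pr_thm hθ
  have ef : e (fd θ) = A ^ 2 * (A - B) * (A + B) := by rw [mfd, he, der N]
  have vf : O.valuation (e (fd θ)) = O.valuation (A - B) := by
    rw [ef, map_mul, map_mul, map_pow, v3, v4, one_pow, one_mul, mul_one]
  have o5 : og 𝔮 (fd θ) = 5 := by
    have := (Link2.eq hB (pow_ne_zero 2 f0) (pow_ne_zero 5 (by norm_num : (11 : L) ≠ 0))).1 (by
      have k := congrArg O.valuation u3
      rw [e23, map_pow, Valuation.map_neg, map_mul, v4, mul_one, map_mul, vu, mul_one] at k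
      rw [map_pow, map_pow, vf, k, map_pow e, map_ofNat])
    rw [og, og, ord_pow, ord_pow, ← og, ← og, o2] at this
    omega
  have oπ : og 𝔮 (fd θ / 11 ^ 2) = 1 := by
    rw [og, ord_div f0 (by norm_num), ord_pow, ← og, ← og, o5, o2]; rfl
  have m0 : σ₀ e₂ ≠ e₂ ∧ ∀ σ : G, Frob O 1 σ → σ e₂ = e₂ → cq d σ = 1 := by
    have k : ∀ σ : G, Frob O 1 σ → cq (-11) σ = -1 → σ e₂ ≠ e₂ := fun σ i j k => by
      have k1 := congrArg σ N.sA
      rw [map_pow, map_sub, (nI σ i).1, ((nI σ i).2.2 j).1, k] at k1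
      exact mul_ne_zero AB AB' (by linear_combination N.sA - k1)
    exact ⟨k σ₀ hσ₀ hσ₁, fun σ i j => (hd σ i).trans ((cq_or _ σ).resolve_right fun c => k σ i c j)⟩
  have φ2 : φ e₂ = e₂ := by
    rw [show e₂ = e₁ - A ^ 2 by rw [N.sA]; ring, map_sub, map_pow, f1, fA]; ring
  have φL : ∀ y, φ (e y) = e y := fixL pr_thm hθ (by rw [he, φ2])
  obtain ⟨s, hs⟩ := rt2 (e α)
  have s0 : s ≠ 0 := by rintro rfl; exact (map_ne_zero e).2 hα (by rw [← hs]; simp)
  obtain ⟨h, h0, hh, HR⟩ := rA.1.2.2.2.2.2.2.2 e₂ S r2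
  have hAn : An O (2 • S) := ⟨alg_tor (k := 2) (by rw [smul_smul]; exact h8), fun σ i => by
    rw [(twl (hI σ i).1).1, hd σ i]⟩
  obtain ⟨p1, p2, -⟩ := rA.1.2.2.1 e₁ 0 (by rw [r1]; ring)
  obtain ⟨q1, q2, -⟩ := rA.1.2.2.1 _ _ m4
  set S4 := pt (e₁ - A * B) (A * B * (A - B))
  have cs : (4 • S = 0 ∧ (2 • S = 0 ∧ h ^ 2 = 1 ∨ wl e₂ (2 • S) ≠ 0 ∧ h ^ 2 = A ^ 2)) ∨
      4 • S ≠ 0 ∧ wl e₂ (2 • S) ≠ 0 ∧ h ^ 2 = A * (A - B) ∧ φ • (2 • S : Pt) = -(2 • S : Pt) := by
    have g : ∀ x : ℂ, 2 • S ≠ 0 → xc (2 • S) - e₂ = x → x ≠ 0 → wl e₂ (2 • S) ≠ 0 ∧ h ^ 2 = x :=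
      fun x k1 k2 k3 => by
        have k4 : xc (2 • S) ≠ e₂ := fun k => k3 (by rw [← k2, k, sub_self])
        exact ⟨fun k => (wl0.1 k).elim k1 k4, by rw [hh, K11.gam, if_neg k1, if_neg k4, k2]⟩
    have d4 : 4 • S = 2 • 2 • S := by module
    have x4 : xc S4 - e₂ = A * (A - B) := by rw [q2]; linear_combination -N.sA
    rcases four hκ hAn (by rw [smul_smul]; exact h8) with c | c | c | c
    · exact Or.inl ⟨by rw [d4, c, smul_zero], Or.inl ⟨c, by rw [hh, K11.gam, if_pos c]⟩⟩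
    · refine Or.inl ⟨by rw [d4, c, smul_smul]; exact hκ.four, Or.inr (g _ ?_ ?_ (pow_ne_zero 2 A0))⟩
      · rwa [c, m2]
      · rw [c, m2, p2, N.sA]
    · have := g _ (by rwa [c]) (by rw [c, x4]) (mul_ne_zero A0 AB)
      exact Or.inr ⟨by rwa [d4, c, m2], this.1, this.2, by rw [c, hκ.fr]⟩
    · have := g _ (by rwa [c, neg_ne_zero]) (by rw [c, xc_neg, x4]) (mul_ne_zero A0 AB)
      exact Or.inr ⟨by rwa [d4, c, smul_neg, m2, neg_ne_zero], this.1, this.2,
        by rw [c, smul_neg, hκ.fr]⟩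
  have ah : IsAlgebraic ℚ h := by
    rcases cs with ⟨-, ⟨-, c⟩ | ⟨-, c⟩⟩ | ⟨-, -, c, -⟩
    · exact alg2 c isAlgebraic_one
    · exact alg2 c (aA.pow 2)
    · exact alg2 c (aA.mul (aA.sub aB))
  have hg : s / h ∈ Link2.Fx e O := ⟨(alg2 hs (alge e α)).mul ah.inv, fun σ i j => by
    have j2 : σ e₂ = e₂ := he ▸ j θ
    have c := m0.2 σ i j2
    obtain ⟨w1, w2, -⟩ := twl (hI σ i).1
    obtain ⟨k1, k2, k3⟩ := HR σ (cq d σ) j2 (cq_or d σ) w1
    rw [← w2, ← (hI σ i).2.1, ← he, ← hK e s σ hs (j θ)] at k2 k3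
    rw [c, Int.cast_one, one_mul] at k3
    have k : σ h = h ↔ σ s = s := (em _).elim k2 k3
    have k4 : σ s = s ∨ σ s = -s := sq_eq_sq_iff_eq_or_eq_neg.1 (by rw [← map_pow, hs, j])
    rw [map_div₀]
    by_cases z : σ s = s
    · rw [z, k.2 z]
    · rw [k4.resolve_left z, k1.resolve_left (mt k.1 z), neg_div_neg_eq]⟩
  have e1 : e α = (s / h) ^ 2 * h ^ 2 := by rw [div_pow, hs, div_mul_cancel₀ _ (pow_ne_zero 2 h0)]
  have par := fun (y : L) y0 => Link2.par vA hp hO hB hα (b := y) y0 hg e1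
  have wT : wl e₂ T = if T = 0 then 0 else 1 := by
    split_ifs with z
    · exact wl0.2 (Or.inl z)
    · refine (zmod2_cases _).resolve_left fun k => m0.1 ?_
      rw [← (wl0.1 k).resolve_left z, ← xc_smul, (hI σ₀ hσ₀).2.2]
  obtain ⟨w1, w2, w3⟩ := twl hφ2
  obtain ⟨k1, k2, k3⟩ := HR φ (cq d φ) φ2 (cq_or d φ) w1
  have ks := hK e s φ hs (φL θ)
  rw [he, hξφ, w2, rA.1.2.2.2.2.2.1 e₂ _ _ r2 w3 hT] at ks
  rw [← wT] at hb
  generalize wl e₂ (φ • S - cq d φ • S) = W at k2 k3 ks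
  generalize wl e₂ T = t at hb ks
  have hφ' : Frob O (nm 𝔮) φ := n2 ▸ hφ
  have nh : ¬ -h = h := fun k => h0 (by linear_combination (-1 / 2) * k)
  rcases cs with ⟨c4, c⟩ | ⟨c4, c1, c2, c3⟩
  · have ev : Even (og 𝔮 α) := by
      have := par 1 one_ne_zero (by
        rcases c with ⟨-, c⟩ | ⟨-, c⟩ <;> simp [c, v3])
      simpa [og] using this
    refine ⟨zmod2_ext (iff_of_true (ZMod.intCast_eq_zero_iff_even.2 ev) (ha.2 c4)), zmod2_ext ?_⟩
    rw [sym ho2 hα f0 ev o5, ← frob hB ho2 oπ hα hs hφ' φL ev, ks, hb]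
    rcases c with ⟨c, c'⟩ | ⟨c, c'⟩
    · have : φ h = h := by
        rcases sq_eq_sq_iff_eq_or_eq_neg.1 (c'.trans (one_pow 2).symm) with k | k <;> simp [k]
      rw [(k2 (wl0.2 (Or.inl c))).1 this, if_neg fun k => k.2 c, zero_add, add_zero]
    · have z : 2 • S ≠ 0 := fun k => c (wl0.2 (Or.inl k))
      have : φ h = -h := by
        rcases sq_eq_sq_iff_eq_or_eq_neg.1 c' with k | k <;> simp [k, fA]
      have k4 := k3 c
      rw [this] at k4
      rcases cq_or d φ with k | k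
      · rw [k, Int.cast_one, one_mul] at k4
        rw [if_pos ⟨k, z⟩, (zmod2_cases W).resolve_left (mt k4.2 nh), add_comm]
      · rw [if_neg fun k' => by rw [k] at k'; exact absurd k'.1 (by decide),
          k4.1 (by rw [k]; simp), zero_add, add_zero]
  · have od : Even (og 𝔮 α - og 𝔮 (fd θ)) := par _ f0 (by rw [c2, vf, map_mul, v3, one_mul])
    have ev : Even (og 𝔮 (α * -fd θ)) := by
      rw [og, ord_mul hα (neg_ne_zero.2 f0), ord_neg, ← og, ← og, Int.even_add, ← Int.even_sub]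
      exact od
    rw [o5, Int.even_sub] at od
    refine ⟨zmod2_ext (iff_of_false (fun k => absurd
      (od.1 (ZMod.intCast_eq_zero_iff_even.1 k)) (by decide)) (mt ha.1 c4)), zmod2_ext ?_⟩
    have k : cq d φ = -1 := (cq_or d φ).resolve_left fun k => c4 (by
      rw [k, c3, one_smul] at w1
      linear_combination (norm := module) -w1)
    obtain ⟨r, hr⟩ := rt2 (e (-fd θ))
    have r0 : r ≠ 0 := by
      rintro rfl
      exact (map_ne_zero e).2 (neg_ne_zero.2 f0) (by rw [← hr]; simp)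
    have hw := fixw hO N hφ fA fB aA aB (w := h * r / (A - B)) (by
      rw [div_pow, mul_pow, c2, hr, map_neg, ef]
      field_simp)
    rw [map_div₀, map_mul, map_sub, fA, fB, show -A - -B = -(A - B) by ring, div_neg, neg_div',
      div_left_inj' AB] at hw
    rw [← sym' hα f0, sym ho2 (mul_ne_zero hα (neg_ne_zero.2 f0)) f0 ev o5,
      ← frob (s := s * r) hB ho2 oπ (mul_ne_zero hα (neg_ne_zero.2 f0))
        (by rw [mul_pow, hs, hr, map_mul]) hφ' φL ev, hb,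
      if_neg fun k' => by rw [k] at k'; exact absurd k'.1 (by decide), add_zero, map_mul]
    have k4 := k3 c1
    rw [k, Int.cast_neg, Int.cast_one, neg_one_mul] at k4
    rcases zmod2_cases W with z | z
    · rw [k4.2 z, neg_mul, neg_neg] at hw
      rw [mul_left_cancel₀ h0 hw, mul_left_inj' r0, ks, z, zero_add]
    · have k5 : φ h = h := k1.resolve_right fun k => by
        rw [k4.1 k] at z
        exact absurd z (by decide)
      have k6 : φ r = -r := mul_left_cancel₀ h0 (by rw [k5] at hw; linear_combination -hw)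
      have k7 : φ s = s ∨ φ s = -s := sq_eq_sq_iff_eq_or_eq_neg.1 (by rw [← map_pow, hs, φL])
      rw [z] at ks
      rw [k6, mul_neg, ← neg_mul, mul_left_inj' r0, neg_eq_iff_eq_neg]
      rcases zmod2_cases t with z' | z'
      · exact iff_of_true (k7.resolve_left fun k => by
          have := ks.1 k
          rw [z'] at this
          exact absurd this (by decide)) z'
      · refine iff_of_false (fun k => s0 ?_) (by rw [z']; decide)
        have := ks.2 (by rw [z']; decide)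
        linear_combination (k - this) / 2

end Pool.Agent.Lib.MP_d6ddbd_nt.KA
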