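import Pool.Agent.Lib.MP_d6ddbd_nt.KA.StX
import Pool.Agent.Lib.MP_d6ddbd_nt.KB.Cub2

/-!
The eigenvalue at `2`.
-/

set_option autoImplicit false

namespace Pool.Agent.Lib.MP_d6ddbd_nt.KA

theorem xa2_thm : Xa2Stmt := fun τ => by
  rw [E11.hecke_two K11.unif_thm τ, neg_zsmul, two_zsmul, two_nsmul]

end Pool.Agent.Lib.MP_d6ddbd_nt.KA
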