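import Pool.Agent.Lib.MP_d6ddbd_nt.KA.SubB0
import Pool.Agent.Lib.MP_d6ddbd_nt.K11.Main

/-!
The number of strict classes drops at a Kolyvagin prime that detects one of them.
-/

set_option autoImplicit false

open Pool.Agent.Stark (SqCl cl)
open Pool.Agent.Lib.MP_d6ddbd_nt.K11

namespace Pool.Agent.Lib.MP_d6ddbd_nt.KA

open SubB in
theorem ych_thm (hL : LA1Stmt) (hM : LA2Stmt) : YchStmt := by
  intro L _ _ θ hθ q d δ c n p a ht hq hn hp ha hf
  have h1 := b1_pn hn
  have h0 : B1 c n := h1.mono (Finset.subset_insert p n)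
  have sub : ∀ y, Yn θ q d c (insert p n) y → Yn θ q d c n y := fun y hy => by
    have r := recip hL hθ ht h1 hy.sc (sc_mono ha.sc (Finset.subset_insert p n))
    rw [Finset.sum_insert hp, Finset.sum_eq_zero fun l h => by
        rw [hy.fp l (Finset.mem_insert_of_mem h), ha.fp l h, mul_zero, zero_mul, add_zero],
      hf, hy.fp p (Finset.mem_insert_self p n), mul_one, zero_mul, add_zero, add_zero] at r
    exact ⟨sc_erase hL hθ ht h1 hp hy.sc r, fun l h => hy.fp l (Finset.mem_insert_of_mem h), hy.fq⟩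
  have := (hM L θ hθ d δ c (Bx d n) ht (bs_bx h0)).1
  have fin : (WA θ d c (Bx d n) : Set (SqCl L)).Finite :=
    Module.finite_of_finite (ZMod 2) (M := WA θ d c (Bx d n))
  refine Set.ncard_lt_ncard ⟨Set.image_mono sub, fun h => ?_⟩
    (fin.subset ((Set.image_mono fun y hy => hy.sc.wa).trans Submodule.subset_span))
  obtain ⟨y, hy, e⟩ := h ⟨a, ha, rfl⟩
  have k := Main.fv_congr (hn p (Finset.mem_insert_self p n)).1.ne_zero hy.sc.wa.ne ha.sc.wa.ne e
  rw [hf, hy.fp p (Finset.mem_insert_self p n)] at k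
  exact zero_ne_one k

end Pool.Agent.Lib.MP_d6ddbd_nt.KA
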