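import Pool.Agent.Lib.MP_d6ddbd_nt.KA.Asw2
import Pool.Agent.Lib.MP_d6ddbd_nt.KA.AuxA
import Pool.Agent.Lib.MP_d6ddbd_nt.KA.Bas
import Pool.Agent.Lib.MP_d6ddbd_nt.KA.Blk
import Pool.Agent.Lib.MP_d6ddbd_nt.KA.CK
import Pool.Agent.Lib.MP_d6ddbd_nt.KA.Ch
import Pool.Agent.Lib.MP_d6ddbd_nt.KA.Cha
import Pool.Agent.Lib.MP_d6ddbd_nt.KA.Chain
import Pool.Agent.Lib.MP_d6ddbd_nt.KA.CmA
import Pool.Agent.Lib.MP_d6ddbd_nt.KA.CommA
import Pool.Agent.Lib.MP_d6ddbd_nt.KA.Const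
import Pool.Agent.Lib.MP_d6ddbd_nt.KA.Dk2
import Pool.Agent.Lib.MP_d6ddbd_nt.KA.G11
import Pool.Agent.Lib.MP_d6ddbd_nt.KA.GalA
import Pool.Agent.Lib.MP_d6ddbd_nt.KA.Gen2
import Pool.Agent.Lib.MP_d6ddbd_nt.KA.Gq
import Pool.Agent.Lib.MP_d6ddbd_nt.KA.Heis
import Pool.Agent.Lib.MP_d6ddbd_nt.KA.Hk2
import Pool.Agent.Lib.MP_d6ddbd_nt.KA.HkA
import Pool.Agent.Lib.MP_d6ddbd_nt.KA.K
import Pool.Agent.Lib.MP_d6ddbd_nt.KA.KE
import Pool.Agent.Lib.MP_d6ddbd_nt.KA.KH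
import Pool.Agent.Lib.MP_d6ddbd_nt.KA.LA
import Pool.Agent.Lib.MP_d6ddbd_nt.KA.LocA
import Pool.Agent.Lib.MP_d6ddbd_nt.KA.LocDA
import Pool.Agent.Lib.MP_d6ddbd_nt.KA.Locx
import Pool.Agent.Lib.MP_d6ddbd_nt.KA.M11
import Pool.Agent.Lib.MP_d6ddbd_nt.KA.Main
import Pool.Agent.Lib.MP_d6ddbd_nt.KA.N11
import Pool.Agent.Lib.MP_d6ddbd_nt.KA.P11
import Pool.Agent.Lib.MP_d6ddbd_nt.KA.P2
import Pool.Agent.Lib.MP_d6ddbd_nt.KA.PA
import Pool.Agent.Lib.MP_d6ddbd_nt.KA.PS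
import Pool.Agent.Lib.MP_d6ddbd_nt.KA.QS
import Pool.Agent.Lib.MP_d6ddbd_nt.KA.Qch
import Pool.Agent.Lib.MP_d6ddbd_nt.KA.Rel
import Pool.Agent.Lib.MP_d6ddbd_nt.KA.Sc
import Pool.Agent.Lib.MP_d6ddbd_nt.KA.StX
import Pool.Agent.Lib.MP_d6ddbd_nt.KA.SubA
import Pool.Agent.Lib.MP_d6ddbd_nt.KA.SubB
import Pool.Agent.Lib.MP_d6ddbd_nt.KA.SurjA
import Pool.Agent.Lib.MP_d6ddbd_nt.KA.Sys
import Pool.Agent.Lib.MP_d6ddbd_nt.KA.T11
import Pool.Agent.Lib.MP_d6ddbd_nt.KA.XEl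
import Pool.Agent.Lib.MP_d6ddbd_nt.KA.Xa2
import Pool.Agent.Lib.MP_d6ddbd_nt.KA.Ych
import Pool.Agent.Lib.MP_d6ddbd_nt.K11.AllX

/-!
The assembly of the blocks, from the three that are proved in later files.
-/

set_option autoImplicit false

namespace Pool.Agent.Lib.MP_d6ddbd_nt.KA

theorem p2All : P2Stmt := p2_thm const_thm

theorem blkAll : BlkStmt := blk_thm const_thm locda_thm

theorem scAll : ScStmt := sc_thm const_thm p11_thm p2All blkAll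

theorem la1All : LA1Stmt := la1_thm p11_thm p2All locda_thm

theorem la2All : LA2Stmt := la2_thm p2All

theorem dk2All : Dk2Stmt := dk2_thm const_thm p2All cq_thm

theorem g11All : G11Stmt := g11_thm n11_thm

theorem t11All : T11Stmt := t11_thm n11_thm g11All

theorem dk11All : Dk11Stmt := dk11_thm cq_thm n11_thm g11All t11All p11_thm

theorem dkAAll : DkAStmt := dkA_thm cq_thm dk2All dk11All p2All p11_thm loca_thm

theorem cmAAll : CmAStmt := cmA_thm commA_thm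

theorem chebAAll : ChebAStmt := chebA_thm cmAAll

theorem subBAll : SubBStmt := subB_thm dkAAll subA_thm la1All

theorem nvAll : NvStmt := nv_thm dkAAll scAll subA_thm

theorem qchAll : QchStmt :=
  qch_thm const_thm dkAAll scAll cmAAll (heis_thm (sj1_thm commA_thm)) subA_thm subBAll rel_thm

theorem ckAll : CKStmt := ck_thm dk2All t11All loca_thm n11_thm cq_thm p2All p11_thm

theorem psAll : PSStmt := ps_thm galA_thm (hka_thm galA_thm) (hkE_thm galA_thm) (hk2_thm galA_thm)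

theorem kAll : KStmt := k_thm n11_thm g11All m11_thm ke_thm

theorem chainAll : ChainStmt :=
  chain_thm (ych_thm la1All la2All) (ch_thm cmAAll (cha_thm (surjA_thm cmAAll)) nvAll dkAAll scAll)

theorem kh_of (hV : XEvStmt) : KHStmt :=
  kh_thm (aux_thm K11.vAll K11.rAll)
    (ht_thm (xa_of xa2_thm xel_thm hV) gen2_thm psAll (qs_thm qb_thm) pa_thm)

theorem main_of (h0 : Asw0Stmt) (h1 : Asw1Stmt) (hV : XEvStmt) : MainStmt :=
  main_thm qchAll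
    (sys_thm (gq_thm const_thm) (kh_of hV) kAll ckAll h0 h1
      (asw2_thm la1All la2All chebAAll const_thm) locx_thm)
    chainAll subA_thm subBAll

end Pool.Agent.Lib.MP_d6ddbd_nt.KA
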