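import Pool.Agent.Lib.MP_d6ddbd_nt.GQ.Blk
import Pool.Agent.Lib.MP_d6ddbd_nt.KA.Stmt
import Pool.Agent.Lib.MP_d6ddbd_nt.KI.Fin

/-!
The two-converse for all quadratic twists of `X₀(11)`: the algorithm.
-/

set_option autoImplicit false

open Filter Topology
open Pool.Agent.Lib.MP_d6ddbd_nt.K11

namespace Pool.Agent.Lib.MP_d6ddbd_nt.KA

theorem jac11 (n : ℕ) : jacobiSym n 11 = -1 ↔
    n % 11 = 2 ∨ n % 11 = 6 ∨ n % 11 = 7 ∨ n % 11 = 8 ∨ n % 11 = 10 := by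
  rw [jacobiSym.mod_left, show (n : ℤ) % (11 : ℕ) = (n % 11 : ℕ) by simp]
  have : n % 11 < 11 := Nat.mod_lt _ (by norm_num)
  generalize n % 11 = r at this
  interval_cases r <;> norm_num

theorem wA_eq (d : ℤ) : wA d = -1 ↔ (11 ∣ d ∧ 0 < d) ∨ jacobiSym |d| 11 = -1 := by
  rw [← Int.natCast_natAbs, wA, jac11]
  split_ifs with h
  · rw [neg_inj, Int.sign_eq_one_iff_pos]
    omega
  · rw [jac11]
    omega

theorem fin_of (hM : MainStmt) : ∃ A : ℤ → Bool × Bool, Computable A ∧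
    (∀ d : ℤ, (A d).2 = true → ((Tw d).Infinite ↔ (A d).1 = true)) ∧
    (∀ d : ℤ, Squarefree d → ((A d).1 = true ↔ (11 ∣ d ∧ 0 < d) ∨ jacobiSym |d| 11 = -1) ∧
      (¬ Blk d → ∀ k : ℕ, (MP_02f36d_nt.X11.Sel (MP_02f36d_nt.X11.Wd d) (2 ^ k)).encard < 4 ^ k →
        ((Tw d).Infinite ↔ (A d).1 = true)) ∧
      (d % 4 = 1 → ¬ 11 ∣ d → (MP_02f36d_nt.X11.Sel (MP_02f36d_nt.X11.Wd d) 2).encard < 4 →
        (A d).2 = true)) ∧
    Tendsto (fun X : ℕ => (({d : ℤ | |d| ≤ X ∧ Squarefree d ∧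
      ¬ ((Tw d).Infinite ↔ (A d).1 = true)}.ncard : ℕ) : ℝ) / X) atTop (𝓝 0) := by
  classical
  obtain ⟨A, h1, h2, h3⟩ := KI.fin_thm
  have m : ∀ a : ℕ, PrimrecPred fun x : ℤ => x.natAbs % 11 = a := fun a =>
    Primrec.eq.comp (Primrec.nat_mod.comp G.Cp.absP (Primrec.const 11)) (Primrec.const a)
  have p1 : PrimrecPred fun d : ℤ => wA d = -1 :=
    (((m 0).and G.Cp.posP).or ((m 2).or ((m 6).or ((m 7).or ((m 8).or (m 10)))))).of_eq fun d => by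
      rw [wA_eq, ← Int.natCast_natAbs, jac11]
      omega
  have e : ∀ d, Fam d → ((A d).1 = true ↔ wA d = -1) := fun d f => by
    rw [(h3 d f).1, KI.jac_iff (Nat.odd_iff.2 (by have := f.m4; omega)), wA, if_neg f.n11, jac11]
  refine ⟨fun d => (decide (wA d = -1), decide (Fam d) && (A d).2), Computable.pair
    p1.decide.to_comp (Primrec.and.to_comp.comp Final.famP.decide.to_comp (Computable.snd.comp h1)),
    fun d h => ?_, fun d sd => ⟨?_, fun nb k hk => ?_, fun a b hk => ?_⟩, ?_⟩ <;>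
    simp only [Bool.and_eq_true, decide_eq_true_iff] at *
  · exact (h2 d h.2).trans (e d h.1)
  · exact wA_eq d
  · exact hM d sd nb (MP_02f36d_nt.X11.bd_of sd.ne_zero hk)
  · exact ⟨⟨sd, a, b⟩, (h3 d ⟨sd, a, b⟩).2.2 hk⟩
  · exact GQ.den_all hM

end Pool.Agent.Lib.MP_d6ddbd_nt.KA
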