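import Pool.Agent.Lib.MP_d6ddbd_nt.KA.Stmt
import Pool.Agent.Lib.MP_d6ddbd_nt.KB.Swap

/-! The linear algebra at a core vertex, for four components at `11`. -/

set_option autoImplicit false
set_option maxSynthPendingDepth 3

open NumberField
open Pool.Agent.Stark (Pr og hq SqCl cl cl_surj cl_mul cl_eq_zero cl_eq_cl)
open Pool.Agent.Lib.MP_d6ddbd_nt.K11
open Pool.Agent.Lib.MP_d6ddbd_nt.KI (KolI KnI)

noncomputable section

namespace Pool.Agent.Lib.MP_d6ddbd_nt.KA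

namespace Asw2

section Abstract

open Module

variable {W U P : Type} [AddCommGroup W] [Module (ZMod 2) W] [AddCommGroup U] [Module (ZMod 2) U]

theorem cut (V : Submodule (ZMod 2) W) [Module.Finite (ZMod 2) V] [Module.Finite (ZMod 2) U]
    (g : W →ₗ[ZMod 2] U) : Module.Finite (ZMod 2) (V ⊓ LinearMap.ker g : Submodule (ZMod 2) W) ∧
      finrank (ZMod 2) V ≤
        finrank (ZMod 2) U + finrank (ZMod 2) (V ⊓ LinearMap.ker g : Submodule (ZMod 2) W) := by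
  have := Submodule.finiteDimensional_of_le (inf_le_left : V ⊓ LinearMap.ker g ≤ V)
  have h1 := (LinearMap.range (g.comp V.subtype)).finrank_le
  have h2 : (LinearMap.ker (g.comp V.subtype)).map V.subtype ≤ V ⊓ LinearMap.ker g := by
    rintro _ ⟨x, hx, rfl⟩
    exact ⟨x.2, hx⟩
  have h3 := Submodule.finrank_mono h2
  have h4 := (g.comp V.subtype).finrank_range_add_finrank_ker
  rw [Submodule.finrank_map_subtype_eq] at h3
  exact ⟨this, by omega⟩

/-- With all prescribed values available, the local data at `11` and `q` are arbitrary. -/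
theorem ex_w [Module.Finite (ZMod 2) U] [DecidableEq P] (n₀ : Finset P)
    (β : U →ₗ[ZMod 2] U →ₗ[ZMod 2] ZMod 2) (a b : W →ₗ[ZMod 2] U)
    (s f : P → W →ₗ[ZMod 2] ZMod 2) (sq fq a₁ b₁ : W →ₗ[ZMod 2] ZMod 2)
    (h2 : ∀ x y (B : Finset P), (∀ p ∉ B, s p x = 0 ∧ s p y = 0) → β (a x) (b y) + β (b x) (a y) +
      (a₁ x * b₁ y + b₁ x * a₁ y) +
      (sq x * fq y + fq x * sq y) + ∑ p ∈ B, (s p x * f p y + f p x * s p y) = 0)
    (h3 : ∀ n : Finset P,
      Module.Finite (ZMod 2) (⨅ p ∉ n, LinearMap.ker (s p) : Submodule (ZMod 2) W) ∧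
      finrank (ZMod 2) U + 2 + n.card ≤
        finrank (ZMod 2) (⨅ p ∉ n, LinearMap.ker (s p) : Submodule (ZMod 2) W))
    (h4 : ∀ (T : Finset W) (lam : W →ₗ[ZMod 2] ZMod 2) (B : Finset P),
      ∃ p ∉ B, ∀ x ∈ T, f p x = lam x)
    (h5 : ∀ x, (∀ p ∉ n₀, s p x = 0) → (∀ p ∈ n₀, f p x = 0) → sq x = 0 → fq x = 0 → b x = 0 →
      b₁ x = 0 → x = 0) : ∃ w₀, a₁ w₀ = 1 ∧ b₁ w₀ = 0 ∧ fq w₀ = 1 := by
  classical
  let g : W →ₗ[ZMod 2] U × (n₀ → ZMod 2) := b.prod (LinearMap.pi fun p : n₀ => f p)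
  let H : Finset P → Submodule (ZMod 2) W := fun n =>
    (⨅ p ∉ n, LinearMap.ker (s p)) ⊓ LinearMap.ker g
  have mem : ∀ n x, x ∈ H n ↔ (∀ p ∉ n, s p x = 0) ∧ b x = 0 ∧ ∀ p ∈ n₀, f p x = 0 := fun n x => by
    simp [H, g, Submodule.mem_iInf, funext_iff]
  have dim : ∀ n, Module.Finite (ZMod 2) (H n) ∧ 2 + n.card ≤ n₀.card + finrank (ZMod 2) (H n) :=
    fun n => by
      obtain ⟨i, e⟩ := h3 n
      obtain ⟨j, e'⟩ := cut (⨅ p ∉ n, LinearMap.ker (s p)) g
      rw [finrank_prod, finrank_fintype_fun_eq_card, Fintype.card_coe] at e'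
      exact ⟨j, by simp only [H]; omega⟩
  obtain ⟨i0, d0⟩ := dim n₀
  let e := Module.finBasis (ZMod 2) (H n₀)
  let j₁ : Fin (finrank (ZMod 2) (H n₀)) := ⟨0, by omega⟩
  let j₂ : Fin (finrank (ZMod 2) (H n₀)) := ⟨1, by omega⟩
  have ne : j₁ ≠ j₂ := by simp [j₁, j₂]
  obtain ⟨l₁, hl₁⟩ := LinearMap.exists_extend (e.coord j₁)
  obtain ⟨l₂, hl₂⟩ := LinearMap.exists_extend (e.coord j₂)
  have v₁ : ∀ j, l₁ (e j) = e.coord j₁ (e j) := fun j => by rw [← hl₁]; rfl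
  have v₂ : ∀ j, l₂ (e j) = e.coord j₂ (e j) := fun j => by rw [← hl₂]; rfl
  obtain ⟨p₁, n₁, c₁⟩ := h4 {(e j₁ : W), (e j₂ : W)} l₁ n₀
  obtain ⟨p₂, n₂, c₂⟩ := h4 {(e j₁ : W), (e j₂ : W)} l₂ (insert p₁ n₀)
  have c11 : f p₁ (e j₁) = 1 := by rw [c₁ _ (by simp), v₁]; simp
  have c12 : f p₁ (e j₂) = 0 := by rw [c₁ _ (by simp), v₁]; simp [ne.symm]
  have c21 : f p₂ (e j₁) = 0 := by rw [c₂ _ (by simp), v₂]; simp [ne]
  have c22 : f p₂ (e j₂) = 1 := by rw [c₂ _ (by simp), v₂]; simp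
  obtain ⟨i1, d1⟩ := dim (insert p₂ (insert p₁ n₀))
  rw [Finset.card_insert_of_notMem n₂, Finset.card_insert_of_notMem n₁] at d1
  let G : H (insert p₂ (insert p₁ n₀)) →ₗ[ZMod 2] Fin 4 → ZMod 2 :=
    (LinearMap.pi ![a₁, b₁, sq, fq]).comp (Submodule.subtype _)
  have inj : Function.Injective G := (injective_iff_map_eq_zero G).2 fun y hy => by
    obtain ⟨y1, y2, y3⟩ := (mem _ _).1 y.2
    have z0 : a₁ y = 0 := congrFun hy 0
    have z1 : b₁ y = 0 := congrFun hy 1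
    have z2 : sq y = 0 := congrFun hy 2
    have z3 : fq y = 0 := congrFun hy 3
    have n₂' : p₂ ∉ n₀ := fun h => n₂ (Finset.mem_insert_of_mem h)
    have key : ∀ x : H n₀, f p₂ x * s p₂ y + f p₁ x * s p₁ y = 0 := fun x => by
      obtain ⟨x1, x2, x3⟩ := (mem _ _).1 x.2
      have := h2 x y _ fun p hp => ⟨x1 p fun h =>
        hp (Finset.mem_insert_of_mem (Finset.mem_insert_of_mem h)), y1 p hp⟩
      rw [Finset.sum_insert n₂, Finset.sum_insert n₁,
        Finset.sum_eq_zero fun p hp => by rw [x3 p hp, y3 p hp]; ring] at this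
      simpa [x2, y2, z0, z1, z2, z3, x1 p₁ n₁, x1 p₂ n₂'] using this
    have k1 := key (e j₁)
    have k2 := key (e j₂)
    rw [c11, c21, zero_mul, zero_add, one_mul] at k1
    rw [c12, c22, zero_mul, add_zero, one_mul] at k2
    refine Subtype.ext (h5 y (fun p hp => ?_) y3 z2 z3 y2 z1)
    by_cases e1 : p = p₁
    · rw [e1, k1]
    by_cases e2 : p = p₂
    · rw [e2, k2]
    exact y1 p (by simp [e1, e2, hp])
  have sur : LinearMap.range G = ⊤ := Submodule.eq_top_of_finrank_eq (le_antisymm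
    (Submodule.finrank_le _) (by
      rw [LinearMap.finrank_range_of_inj inj, finrank_fintype_fun_eq_card, Fintype.card_fin]
      omega))
  obtain ⟨y, hy⟩ := LinearMap.range_eq_top.1 sur ![1, 0, 0, 1]
  exact ⟨y, congrFun hy 0, congrFun hy 1, congrFun hy 3⟩

end Abstract

open Asm

variable {L : Type} [Field L] [NumberField L] {θ : L} {q m : ℕ} {d c : ℤ}

theorem wa_mono {B B' : Finset ℕ} (h : B ⊆ B') {x : L} (hx : Wa θ d c B x) : Wa θ d c B' x :=
  ⟨hx.ne, hx.sq, hx.two, fun p h1 h2 h3 => hx.ev p h1 h2 fun e => h3 (h e)⟩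

theorem ad_h2 (γ : L) : Ad fun x : L => h2 x γ := ad_hq _ fun _ => γ

theorem ad_a : Ad (a11 : L → ZMod 2) := ad_og _

theorem ad_b (θ : L) : Ad (b11 θ) := ad_hq _ fun _ => fd θ

theorem wa_one (B : Finset ℕ) : Wa θ d c B (1 : L) :=
  ⟨one_ne_zero, by rw [map_one]; exact IsSquare.one, ⟨fun _ 𝔭 _ => ⟨1, by simp⟩, fun _ => by
    have := ad_h2 (gm2 θ) 1 1 one_ne_zero one_ne_zero
    rw [mul_one] at this
    simpa using this⟩, fun _ _ _ _ 𝔭 _ => by simp [og]⟩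

/-- The set of primes attached to a set of Kolyvagin primes. -/
def vs (n : Finset {p // KolI m q c p}) : Finset ℕ := n.map (Function.Embedding.subtype _)

/-- The primes at which ramification is allowed. -/
def ws (n : Finset {p // KolI m q c p}) : Finset ℕ := insert 11 (insert q (vs n))

theorem mem_vs {n : Finset {p // KolI m q c p}} {p : {p // KolI m q c p}} : p.1 ∈ vs n ↔ p ∈ n :=
  Finset.mem_map' (Function.Embedding.subtype _)

theorem kn_vs (n : Finset {p // KolI m q c p}) : KnI m q c (vs n) := fun p hp => by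
  obtain ⟨x, -, rfl⟩ := Finset.mem_map.1 hp
  exact x.2

theorem ws_mono {n n' : Finset {p // KolI m q c p}} (h : n ⊆ n') : ws n ⊆ ws n' :=
  Finset.insert_subset_insert _ (Finset.insert_subset_insert _ (Finset.map_subset_map.2 h))

theorem q_notMem (n : Finset {p // KolI m q c p}) : q ∉ vs n := fun h => (kn_vs n q h).nq rfl

theorem el_notMem (hQ : QD q c) (n : Finset {p // KolI m q c p}) : 11 ∉ insert q (vs n) :=
  fun h => by
    have := hQ.qf.big
    rcases Finset.mem_insert.1 h with e | e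
    · omega
    · exact (kn_vs n 11 e).n11 rfl

theorem mem_ws {n : Finset {p // KolI m q c p}} {p : {p // KolI m q c p}} :
    p.1 ∈ ws n ↔ p ∈ n := by
  simp [ws, mem_vs, p.2.n11, p.2.nq]

theorem adm (hQ : QD q c) (n : Finset {p // KolI m q c p}) : Bs c (ws n) := by
  intro p hp
  rcases Finset.mem_insert.1 hp with rfl | hp
  · exact Or.inl rfl
  rcases Finset.mem_insert.1 hp with rfl | hp
  · have := hQ.qf.big
    exact Or.inr ⟨hQ.qf.pr, by omega, by omega, hQ.nd, hQ.ty⟩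
  · have h := kn_vs n p hp
    exact Or.inr ⟨h.pr, h.n2, h.n11, h.nd, h.ty⟩

/-- The space of all classes that are unramified outside `c`, `11`, `q` and the Kolyvagin primes. -/
def WW (hm : ∀ (n : Finset {p // KolI m q c p}) (x y : L), Wa θ d c (ws n) x →
    Wa θ d c (ws n) y → Wa θ d c (ws n) (x * y)) : Submodule (ZMod 2) (SqCl L) where
  carrier := {z | ∃ (n : Finset {p // KolI m q c p}) (x : L), Wa θ d c (ws n) x ∧ cl x = z}
  add_mem' := by
    classical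
    rintro _ _ ⟨n, x, hx, rfl⟩ ⟨n', y, hy, rfl⟩
    exact ⟨n ∪ n', x * y, hm _ _ _ (wa_mono (ws_mono Finset.subset_union_left) hx)
      (wa_mono (ws_mono Finset.subset_union_right) hy), cl_mul hx.ne hy.ne⟩
  zero_mem' := ⟨∅, 1, wa_one _, (cl_eq_zero one_ne_zero).2 IsSquare.one⟩
  smul_mem' := by
    rintro z _ ⟨n, x, hx, rfl⟩
    rcases Pool.Agent.Stark.zmod2_cases z with rfl | rfl
    · exact ⟨∅, 1, wa_one _, by rw [zero_smul]; exact (cl_eq_zero one_ne_zero).2 IsSquare.one⟩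
    · exact ⟨n, x, hx, (one_smul _ _).symm⟩

end Asw2

open Asm hiding vs mem_vs kn_vs q_notMem adm WW in
open Asw2 in
theorem asw2_thm (h1 : LA1Stmt) (h2' : LA2Stmt) (h3 : ChebAStmt) (h4 : ConstStmt) :
    Asw2Stmt := by
  classical
  intro L _ _ θ hθ d δ c hr q m M α hT _ hQ hm hK hM n₁ hn hc
  have hU := (lAll L θ hθ c hT.fam).2.1
  have hx2 : ∀ B, Bx d B = insert 11 B := fun B => if_pos hr
  have hTT : TT d c = Module.finrank (ZMod 2) (UU L c) + 2 := by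
    rw [TT, eps, if_pos hr.1, if_pos hr, hU]
  obtain ⟨-, c1, c2, c3, c4, c5, c6, c7⟩ := h4 L θ hθ
  obtain ⟨n₀, rfl⟩ : ∃ n₀ : Finset {p // KolI m q c p}, n₁ = vs n₀ :=
    ⟨n₁.subtype _, (Finset.subtype_map_of_mem hn).symm⟩
  have hB := fun n : Finset {p // KolI m q c p} => h1 L θ hθ d δ c _ hT (adm hQ.qd n)
  have q11 : q ≠ 11 := by
    have := hQ.qd.qf.big
    omega
  let W : Submodule (ZMod 2) (SqCl L) := WW fun n x y hx hy => ((hB n).1 x y hx hy).1
  have hW : ∀ z : W, ∃ (n : Finset {p // KolI m q c p}) (x : L), Wa θ d c (ws n) x ∧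
      cl x = z.1 := fun z => z.2
  have out : ∀ (n : Finset {p // KolI m q c p}) (x : L), Wa θ d c (ws n) x →
      ∀ p ∉ n, sv p.1 x = 0 := fun n x hx p hp =>
    ((hB n).2 x hx).2.2.2.2.2 p.1 p.2.pr p.2.nd fun e => hp (mem_ws.1 e)
  have shrink : ∀ (n' n : Finset {p // KolI m q c p}) (x : L), Wa θ d c (ws n') x →
      (∀ p ∉ n, sv p.1 x = 0) → Wa θ d c (ws n) x := fun n' n x hx h0 =>
    ⟨hx.ne, hx.sq, hx.two, fun p e1 e2 e3 => by
      by_cases e : p ∈ ws n'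
      · have e11 : p ≠ 11 := fun e' => e3 (Finset.mem_insert.2 (Or.inl e'))
        have e4 : p ∈ vs n' := (Finset.mem_insert.1 ((Finset.mem_insert.1 e).resolve_left
          e11)).resolve_left fun e' =>
            e3 (Finset.mem_insert_of_mem (Finset.mem_insert.2 (Or.inl e')))
        exact (((hB n').2 x hx).2.2.1 p e e11 (h0 ⟨p, kn_vs n' p e4⟩ fun e' =>
          e3 (mem_ws.2 e'))).ev p e1 e2 (Finset.notMem_erase _ _)
      · exact hx.ev p e1 e2 e⟩
  have ha : ∀ z : W, (fun 𝔭 : D1 L c => lin (ad_av 𝔭.1) z.1) ∈ UU L c := fun z => by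
    obtain ⟨n, x, hx, e⟩ := hW z
    simp only [← e, lin_cl _ hx.ne]
    exact ((hB n).2 x hx).1
  have hb : ∀ z : W, (fun 𝔭 : D1 L c => lin (ad_bv θ d 𝔭.1) z.1) ∈ UU L c := fun z => by
    obtain ⟨n, x, hx, e⟩ := hW z
    simp only [← e, lin_cl _ hx.ne]
    exact ((hB n).2 x hx).2.1
  have hmem : ∀ (n : Finset {p // KolI m q c p}) j, Wa θ d c (ws n) (α (vs n) j) :=
    fun n j => by
      have := hK.mem _ j (kn_vs n)
      rwa [hx2] at this
  let κ : Finset {p // KolI m q c p} → ℕ → W := fun n j => ⟨cl (α (vs n) j), n, _, hmem n j, rfl⟩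
  have hκ : ∀ n j, κ n j = 0 ↔ IsSquare (α (vs n) j) := fun n j =>
    Subtype.ext_iff.trans (cl_eq_zero (hmem n j).ne)
  let s := fun p : {p // KolI m q c p} => (lin (ad_sv p.1)).comp W.subtype
  let f := fun p : {p // KolI m q c p} => (lin (ad_fv p.1)).comp W.subtype
  let sq := (lin (ad_sv q)).comp W.subtype
  let fq := (lin (ad_fv q)).comp W.subtype
  let a₁ := (lin ad_a).comp W.subtype
  let b₁ := (lin (ad_b θ)).comp W.subtype
  have r2 : ∀ x y (B : Finset {p // KolI m q c p}), (∀ p ∉ B, s p x = 0 ∧ s p y = 0) →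
      dot c (toU _ ha x) (toU _ hb y) + dot c (toU _ hb x) (toU _ ha y) +
      (a₁ x * b₁ y + b₁ x * a₁ y) +
      (sq x * fq y + fq x * sq y) + ∑ p ∈ B, (s p x * f p y + f p x * s p y) = 0 := by
    intro z z' B h0
    obtain ⟨n, x, hx, e⟩ := hW z
    obtain ⟨n', y, hy, e'⟩ := hW z'
    have e1 : ∀ p ∉ B, sv p.1 x = 0 ∧ sv p.1 y = 0 := fun p hp => by
      have := h0 p hp
      simp only [s, LinearMap.comp_apply, Submodule.subtype_apply, ← e, ← e', lin_cl _ hx.ne,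
        lin_cl _ hy.ne] at this
      exact this
    have e2 := ((hB B).1 x y (shrink n B x hx fun p hp => (e1 p hp).1)
      (shrink n' B y hy fun p hp => (e1 p hp).2)).2
    rw [ws, Finset.erase_insert (el_notMem hQ.qd B), Finset.sum_insert (q_notMem B), vs,
      Finset.sum_map, ← Finset.sum_coe_sort (D1 L c), Finset.sum_add_distrib] at e2
    show ∑ 𝔭 : D1 L c, lin (ad_av 𝔭.1) z.1 * lin (ad_bv θ d 𝔭.1) z'.1 +
      ∑ 𝔭 : D1 L c, lin (ad_bv θ d 𝔭.1) z.1 * lin (ad_av 𝔭.1) z'.1 + _ + _ + _ = 0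
    simp only [s, f, sq, fq, a₁, b₁, LinearMap.comp_apply, Submodule.subtype_apply, ← e, ← e',
      lin_cl _ hx.ne, lin_cl _ hy.ne]
    simp only [Function.Embedding.coe_subtype] at e2
    linear_combination e2
  have r3 : ∀ n : Finset {p // KolI m q c p},
      Module.Finite (ZMod 2) (⨅ p ∉ n, LinearMap.ker (s p) : Submodule (ZMod 2) W) ∧
      Module.finrank (ZMod 2) (UU L c) + 2 + n.card ≤
        Module.finrank (ZMod 2) (⨅ p ∉ n, LinearMap.ker (s p) : Submodule (ZMod 2) W) := by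
    intro n
    have e : (⨅ p ∉ n, LinearMap.ker (s p) : Submodule (ZMod 2) W).map W.subtype =
        WA θ d c (ws n) := by
      refine le_antisymm ?_ (Submodule.span_le.2 ?_)
      · rintro _ ⟨z, hz, rfl⟩
        obtain ⟨n', x, hx, e⟩ := hW z
        refine Submodule.subset_span ⟨x, shrink n' n x hx fun p hp => ?_, e⟩
        have : lin (ad_sv p.1) z.1 = 0 :=
          (Submodule.mem_iInf _).1 ((Submodule.mem_iInf _).1 hz p) hp
        rwa [← e, lin_cl _ hx.ne] at this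
      · rintro _ ⟨x, hx, rfl⟩
        refine ⟨⟨cl x, n, x, hx, rfl⟩, (Submodule.mem_iInf _).2 fun p =>
          (Submodule.mem_iInf _).2 fun hp => ?_, rfl⟩
        show lin (ad_sv p.1) (cl x) = 0
        rw [lin_cl _ hx.ne]
        exact out n x hx p hp
    obtain ⟨e1, e2⟩ := h2' L θ hθ d δ c _ hT (adm hQ.qd n)
    rw [← e] at e1 e2
    refine ⟨Module.Finite.equiv (Submodule.equivMapOfInjective _ W.injective_subtype _).symm, ?_⟩
    rw [Submodule.finrank_map_subtype_eq, ws, Finset.card_insert_of_notMem (el_notMem hQ.qd n),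
      Finset.card_insert_of_notMem (q_notMem n), vs, Finset.card_map] at e2
    omega
  have r4 : ∀ (T : Finset W) (lam : W →ₗ[ZMod 2] ZMod 2) (B : Finset {p // KolI m q c p})
      (lam' : SqCl L →ₗ[ZMod 2] ZMod 2), (∀ z : W, lam' z.1 = lam z) → lam' (cl (al0 θ)) = 0 →
      ∃ p ∉ B, ∀ x ∈ T, f p x = lam x := by
    intro T lam B lam' hl h0
    choose n x hx e using hW
    obtain ⟨p, e1, e2, e3⟩ := h3 L θ hθ q m c (T.image x) lam' (B.sup Subtype.val) hQ.qd hm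
      (fun y hy => by
        obtain ⟨z, -, rfl⟩ := Finset.mem_image.1 hy
        exact ⟨(hx z).ne, (hx z).sq⟩) h0
    refine ⟨⟨p, e2⟩, fun h => e1.not_ge (Finset.le_sup (f := Subtype.val) h), fun z hz => ?_⟩
    show lin (ad_fv p) z.1 = _
    rw [← hl, ← e, lin_cl _ (hx z).ne, e3 _ (Finset.mem_image_of_mem x hz)]
  have r5 : ∀ x, (∀ p ∉ n₀, s p x = 0) → (∀ p ∈ n₀, f p x = 0) → sq x = 0 → fq x = 0 →
      toU _ hb x = 0 → b₁ x = 0 → x = 0 := by
    intro z e1 e0 e2 e3 e4 e5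
    obtain ⟨n, x, hx, e⟩ := hW z
    simp only [s, f, sq, fq, b₁, LinearMap.comp_apply, Submodule.subtype_apply, ← e,
      lin_cl _ hx.ne] at e0 e1 e2 e3 e5
    have e6 := ((hB n₀).2 x (shrink n n₀ x hx e1)).2.2.1 q
      (Finset.mem_insert_of_mem (Finset.mem_insert_self _ _)) q11 e2
    rw [ws, Finset.insert_comm, Finset.erase_insert (by simp [q11, q_notMem n₀]), ← hx2] at e6
    refine Subtype.ext (e.symm.trans ((cl_eq_zero hx.ne).2 (hc x ⟨⟨e6, fun 𝔭 h𝔭 => ?_,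
      fun _ => e5⟩, fun p hp => e0 ⟨p, hn p hp⟩ (mem_vs.1 hp), e3⟩)))
    have : lin (ad_bv θ d 𝔭) z.1 = 0 := congrFun (congrArg Subtype.val e4) ⟨𝔭, h𝔭⟩
    rwa [← e, lin_cl _ hx.ne] at this
  obtain ⟨w₀, hw, hw'⟩ : ∃ w₀ : W, (a₁ w₀ = 1 ∧ b₁ w₀ = 0 ∧ fq w₀ = 1) ∧
      ∀ (T : Finset W) (lam : W →ₗ[ZMod 2] ZMod 2) (B : Finset {p // KolI m q c p}),
        lam w₀ = 0 → ∃ p ∉ B, ∀ x ∈ T, f p x = lam x := by
    rcases Int.even_or_odd d with hd | hd
    · have full : ∀ (T : Finset W) (lam : W →ₗ[ZMod 2] ZMod 2) (B : Finset {p // KolI m q c p}),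
          ∃ p ∉ B, ∀ x ∈ T, f p x = lam x := fun T lam B => by
        obtain ⟨l, hl⟩ := LinearMap.exists_extend lam
        refine r4 T lam B (l - l (cl (al0 θ)) • lin (ad_h2 (gm2 θ))) (fun z => ?_) ?_
        · obtain ⟨n, x, hx, e⟩ := hW z
          have : lin (ad_h2 (gm2 θ)) z.1 = 0 := by
            rw [← e, lin_cl _ hx.ne]
            exact hx.two.2 hd
          rw [LinearMap.sub_apply, LinearMap.smul_apply, this, smul_zero, sub_zero, ← hl]
          rfl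
        · rw [LinearMap.sub_apply, LinearMap.smul_apply, lin_cl _ c1, c7, smul_eq_mul, mul_one,
            sub_self]
      obtain ⟨w₀, hw⟩ := ex_w n₀ (dot c) (toU _ ha) (toU _ hb) s f sq fq a₁ b₁ r2 r3 full r5
      exact ⟨w₀, hw, fun T lam B _ => full T lam B⟩
    · have hw : Wa θ d c (ws (∅ : Finset {p // KolI m q c p})) (al0 θ) :=
        ⟨c1, c2, ⟨fun _ => c3, fun h => absurd h (Int.not_even_iff_odd.2 hd)⟩,
          fun p e1 _ e3 𝔭 h𝔭 => c6 𝔭 fun h => e3 (Finset.mem_insert.2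
            (Or.inl (K11.L.ch_eq pr_thm hθ e1 (by norm_num) h𝔭 h)))⟩
      refine ⟨⟨cl (al0 θ), ∅, _, hw, rfl⟩, ⟨(lin_cl ad_a c1).trans c4,
        (lin_cl (ad_b θ) c1).trans c5, (lin_cl (ad_fv q) c1).trans hQ.fa⟩, fun T lam B h0 => ?_⟩
      obtain ⟨l, hl⟩ := LinearMap.exists_extend lam
      have e : ∀ z : W, l z.1 = lam z := fun z => by rw [← hl]; rfl
      exact r4 T lam B l e ((e ⟨cl (al0 θ), ∅, _, hw, rfl⟩).trans h0)
  have key := Asw.swapB n₀ (dot c) (toU _ ha) (toU _ hb) s f sq fq a₁ b₁ w₀ M κ ?_ r2 r3 hw hw' r5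
    (hTT ▸ hM) (fun n j h => (hκ n j).2 (hK.top _ j h)) ?_ ?_ ?_ ?_ ?_ ?_ ?_
  · exact ⟨key.1.trans hTT.symm, fun h => key.2 ((hκ n₀ 0).2 h)⟩
  · intro z
    obtain ⟨n, x, hx, e⟩ := hW z
    refine n.finite_toSet.subset fun p hp => by_contra fun h => hp ?_
    show lin (ad_sv p.1) z.1 = 0
    rw [← e, lin_cl _ hx.ne]
    exact out n x hx p h
  · obtain ⟨n, j, e1, e2⟩ := hK.ne
    refine ⟨n.subtype _, j, fun h => e2 ?_⟩
    rwa [hκ, vs, Finset.subtype_map_of_mem e1] at h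
  · exact fun n => Subtype.ext (funext fun 𝔭 =>
      (lin_cl (ad_bv θ d 𝔭.1) (hmem n 0).ne).trans (hK.b0 _ (kn_vs n) 𝔭.1 𝔭.2))
  · exact fun n j => Subtype.ext (funext fun 𝔭 => (lin_cl (ad_av 𝔭.1) (hmem n j).ne).trans
      ((hK.ab _ j (kn_vs n) 𝔭.1 𝔭.2).trans (lin_cl (ad_bv θ d 𝔭.1) (hmem n (j + 1)).ne).symm))
  · intro n
    have ea : ∀ j, a₁ (κ n j) = a11 (α (vs n) j) := fun j => lin_cl ad_a (hmem n j).ne
    have eb : ∀ j, b₁ (κ n j) = b11 θ (α (vs n) j) := fun j => lin_cl (ad_b θ) (hmem n j).ne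
    simp only [ea, eb]
    exact hK.e1 _ (kn_vs n) hr
  · exact fun n j p hp => (lin_cl (ad_sv p.1) (hmem n j).ne).trans (out n _ (hmem n j) p hp)
  · exact fun n j p hp => (lin_cl (ad_fv p.1) (hmem n j).ne).trans
      (hK.fp _ j (kn_vs n) p.1 (mem_vs.2 hp))
  · intro n j p hp
    refine (lin_cl (ad_sv p.1) (hmem (insert p n) j).ne).trans
      (Eq.trans ?_ (lin_cl (ad_fv p.1) (hmem n j).ne).symm)
    rw [show vs (insert p n) = insert p.1 (vs n) from Finset.map_insert _ _ _]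
    exact hK.sp _ j p.1 (kn_vs n) p.2 fun e => hp (mem_vs.1 e)

end Pool.Agent.Lib.MP_d6ddbd_nt.KA
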