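import Pool.Agent.Lib.MP_d6ddbd_nt.KA.P11

/-!
The two special classes.
-/

set_option autoImplicit false
set_option maxSynthPendingDepth 3

open NumberField IsDedekindDomain
open Pool.Agent.Stark Pool.Agent.Stark.LocAux
open Pool.Agent.Lib.MP_d6ddbd_nt.K11
open Pool.Agent.Lib.MP_d6ddbd_nt.K11.LocD (vv en hq_mul hq_comm hq_neg hq_sq hq_self vv_mul vv_zero
  hq_even)
open Pool.Agent.Lib.MP_d6ddbd_nt.K11.Eleven (int_mem even_of_sq)

namespace Pool.Agent.Lib.MP_d6ddbd_nt.KA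

namespace Const

theorem not_U {k : Type*} [Field k] {w : Valuation k (WithZero (Multiplicative ℤ))} {π : k}
    (h : Two.H w π) : ¬ Two.U w 2 (2 * (18 - (8 * π ^ 2 - 14 * π))) := by
  intro u
  have p := h.pp 1
  rw [pow_one] at p
  have p0 : π ∈ pw w 0 := anti zero_le_one p.1
  have g3 : 9 + 7 * π - 4 * π ^ 2 - 1 - π ∈ pw w 3 := by
    refine Two.cg (pw_mul h.two (sub_mem (add_mem (int_mem 4) (pw_mul (int_mem 3) p0 le_rfl))
      (pw_mul (int_mem 2) (pw_mul (l := 0) p0 p0 le_rfl) le_rfl)) le_rfl) ?_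
    push_cast
    ring
  rw [show 2 * (18 - (8 * π ^ 2 - 14 * π)) = (9 + 7 * π - 4 * π ^ 2) * 2 ^ 2 by ring] at u
  generalize 9 + 7 * π - 4 * π ^ 2 = g at g3 u
  have g1 : g - 1 ∈ pw w 1 := Two.cg (add_mem (anti (by norm_num) g3) p.1) (by ring)
  obtain ⟨b, b0, -, o, hb⟩ := u.sq.ex one_le_two
  have og0 := (Two.unit le_rfl g1).2
  have ob : ord w b = 0 := by omega
  have b1 : b + -1 ∈ pw w (0 + 1) := h.key (mem_of_le ob.ge) (neg_mem one_mem)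
    (not_mem.2 ⟨b0, by omega⟩) fun e => one_not_mem (neg_mem_iff.1 e)
  have b2 : b ^ 2 - 1 ∈ pw w 2 :=
    Two.cg (add_mem (pw_mul (l := 2) b1 b1 (by norm_num)) (pw_mul h.two b1 (by norm_num)))
      (by ring)
  refine p.2 (Two.cg (sub_mem (sub_mem hb (pw_mul (mem_of_le og0.ge) b2 le_rfl))
    (anti (by norm_num) g3)) ?_)
  ring

variable {L : Type} [Field L] [NumberField L] {θ : L} (hθ : Cub θ)
include hθ

theorem even_two {α : L} (a : α ≠ 0) (hN : IsSquare (Algebra.norm ℚ α)) {𝔭 : Pr L}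
    (h : 𝔭 ∈ ab L 2) : Even (og 𝔭 α) := by
  obtain ⟨⟨ϑ, -, -, 𝔮, e3, e4, -⟩, -, -, hv, -⟩ := pr_thm L θ hθ
  have ev := (hv 2 α Nat.prime_two a).2 hN
  rw [e3, Finset.sum_singleton, e4, show Nat.log 2 2 = 1 by norm_num] at ev
  rw [e3, Finset.mem_singleton] at h
  rw [h]
  simpa using ev

theorem gm_not : ¬ At2 (gm2 θ) := by
  obtain ⟨⟨ϑ, e1, e2, 𝔭, e3, e4, e5, e6⟩, -⟩ := pr_thm L θ hθ
  have t2 : emb 𝔭 2 = 2 := map_ofNat _ 2
  have h : Two.H (wv 𝔭) (emb 𝔭 ϑ) := ⟨isLoc_wv 𝔭, (rc_wv 𝔭).trans e4, by rw [← t2, ord_emb, e5],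
    (map_ne_zero _).2 fun e => by simp [e, og] at e6, (ord_emb _ _).trans e6,
    by simpa [t2] using congrArg (emb 𝔭) e1⟩
  rw [Two.glob e3, gm2, e2]
  simpa only [map_mul, map_sub, map_pow, map_ofNat] using not_U h

theorem al_at : At2 (al0 θ) := by
  obtain ⟨⟨ϑ, e1, e2, 𝔭, e3, -, e5, e6⟩, -⟩ := pr_thm L θ hθ
  intro 𝔮 hq
  rw [e3, Finset.mem_singleton] at hq
  subst hq
  have t0 : ϑ ≠ 0 := fun e => by simp [e, og] at e6
  have p0 : ϑ ∈ pw (𝔮.valuation L) 0 := mem_of_le (by change 0 ≤ og 𝔮 ϑ; omega)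
  have h2 : (2 : L) ∈ pw (𝔮.valuation L) 2 := mem_of_le (by change 2 ≤ og 𝔮 (2 : L); omega)
  refine ⟨1 / (2 * ϑ), Two.cg (pw_mul h2 (add_mem (sub_mem (int_mem 500)
    (pw_mul (int_mem 660) p0 le_rfl)) (pw_mul (int_mem 187) (pw_mul (l := 0) p0 p0 le_rfl) le_rfl))
    le_rfl) ?_⟩
  have e : al0 θ = (2 * ϑ) ^ 2 * (1001 - 1320 * ϑ + 374 * ϑ ^ 2) := by
    simp only [al0, fd, e2]
    linear_combination (616 * ϑ - 880) * e1
  rw [e]
  push_cast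
  field_simp
  ring

theorem sq_gm : IsSquare ((18 - θ) * (2 + θ)) :=
  ⟨(-3348 - 194 * θ + 25 * θ ^ 2) / 242, by
    have := hθ.eq
    linear_combination (-(625 * θ - 7200) / 58564) * this⟩

theorem gm_even (𝔭 : Pr L) : Even (og 𝔭 (gm2 θ)) := by
  by_cases h : 𝔭 ∈ ab L 2
  · exact even_two hθ (gm_ne hθ) (gm_sq hθ) h
  obtain ⟨-, -, -, -, p5, p6, -⟩ := pr_thm L θ hθ
  have o2 : og 𝔭 (2 : L) = 0 := by simpa [mem_ab] using h
  have a0 : 18 - θ ≠ 0 := right_ne_zero_of_mul (gm_ne hθ)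
  have b0 : 2 + θ ≠ 0 := fun e => (p6 (-2)).1 (by push_cast; linear_combination -e)
  have t0 : θ ∈ pw (𝔭.valuation L) 0 := mem_of_le (p5 𝔭).1
  have ev : Even (og 𝔭 (18 - θ) + og 𝔭 (2 + θ)) := even_of_sq a0 b0 (sq_gm hθ)
  rw [gm2, LocD.og_mul two_ne_zero a0, o2, zero_add]
  by_contra hn
  have hn' : ¬ Even (og 𝔭 (2 + θ)) := fun e => hn ((Int.even_add.1 ev).2 e)
  have pos : ∀ x : L, x ≠ 0 → x ∈ pw (𝔭.valuation L) 0 → ¬ Even (og 𝔭 x) →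
      x ∈ pw (𝔭.valuation L) 1 := fun x x0 hx he => by
    have h1 : 0 ≤ og 𝔭 x := (mem_pw_iff.1 hx).resolve_left x0
    have h2 : og 𝔭 x ≠ 0 := fun e => he (e ▸ Even.zero)
    exact mem_of_le (by change 1 ≤ og 𝔭 x; omega)
  have a1 := pos _ a0 (sub_mem (by simpa using int_mem (w := 𝔭.valuation L) 18) t0) hn
  have b1 := pos _ b0 (add_mem two_mem t0) hn'
  have c0 : ((184 : ℤ) : L) + (28 : ℤ) * θ + (2 : ℤ) * (θ * θ) ∈ pw (𝔭.valuation L) 0 :=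
    add_mem (add_mem (int_mem _) (pw_mul (int_mem _) t0 le_rfl))
      (pw_mul (int_mem _) (pw_mul (l := 0) t0 t0 le_rfl) le_rfl)
  have four : (2 * 2 : L) ∈ pw (𝔭.valuation L) 1 := by
    refine Two.cg (sub_mem (pw_mul c0 a1 le_rfl) (pw_mul (int_mem 39) (add_mem a1 b1) le_rfl)) ?_
    have := hθ.eq
    push_cast
    linear_combination 2 * this
  have o4 : og 𝔭 (2 * 2 : L) = 0 := by rw [LocD.og_mul two_ne_zero two_ne_zero, o2, add_zero]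
  exact not_mem.2 ⟨mul_ne_zero two_ne_zero two_ne_zero, by change og 𝔭 _ < 1; omega⟩ four

theorem al_even (𝔭 : Pr L) (h : 𝔭 ∉ ab L 11) : Even (og 𝔭 (al0 θ)) := by
  obtain ⟨-, -, p3, -, p5, -⟩ := pr_thm L θ hθ
  obtain ⟨l, hl, hp, -⟩ := (p5 𝔭).2
  by_cases h2 : l = 2
  · exact even_two hθ (al_ne hθ) (al_sq hθ) (h2 ▸ hp)
  have o : og 𝔭 (11 : L) = 0 := by simpa [mem_ab] using h
  rw [al0, LocD.og_mul (by norm_num) (fd_ne hθ), o,
    ((p3 l hl h2 fun e => h (e ▸ hp)).1 𝔭 hp).2.2.1]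
  exact Even.zero

end Const

open Const P11 in
theorem const_thm : ConstStmt := by
  classical
  intro L _ _ θ hθ
  obtain ⟨𝔭, 𝔮, hab, -, e2, t1, t2, -, v2, v3, sq, -, -, ng, -⟩ := el hθ
  have f0 := fd_ne hθ
  have g0 := gm_ne hθ
  have a0 := al_ne hθ
  have n0 : (-11 : L) ≠ 0 := by norm_num
  have m0 : (-1 : L) ≠ 0 := by norm_num
  have bg : b11 θ (gm2 θ) = 1 := by
    rw [b11_eq e2, hq_even t2 g0 f0 (vv_zero.2 (gm_even hθ 𝔮)), ng, v2, one_mul]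
  have aa : a11 (al0 θ) = 1 := by rw [a11_eq e2, v3]
  have ba : b11 θ (al0 θ) = 0 := by
    rw [b11_eq e2, show al0 θ = -11 * -fd θ by rw [al0]; ring, hq_mul n0 (neg_ne_zero.2 f0) f0,
      hq_lsq n0 sq, hq_neg f0, add_zero]
  refine ⟨⟨g0, gm_sq hθ, gm_not hθ, gm_even hθ, bg, ?_, sq_gm hθ⟩, a0, al_sq hθ, al_at hθ, aa, ba,
    al_even hθ, ?_⟩
  · have := pfAll L θ hθ 2 (gm2 θ) (-1) Nat.prime_two g0 (gm_sq hθ) (by norm_num)
    rw [show ((-1 : ℚ) : L) = -1 by norm_num] at this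
    rw [h2, ← this]
    exact Finset.sum_congr rfl fun 𝔯 _ => by rw [hq_self g0, hq_comm m0 g0]
  · obtain ⟨-, -, -, -, -, -, -, -, -, φ, hφ, hp⟩ := pr_thm L θ hθ
    have dj : Disjoint (ab L 2) (ab L 11) := Finset.disjoint_left.2 fun 𝔯 h h' => by
      rw [mem_ab, Nat.cast_ofNat] at h
      rcases (hab 𝔯).1 h' with rfl | rfl
      exacts [h t1, h t2]
    have := reciprocity a0 g0 (ab L 2 ∪ ab L 11) fun q hq => by
      rw [Finset.mem_union, not_or] at hq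
      exact hq_eq_zero q (by simpa [mem_ab] using hq.1) a0 g0 (al_even hθ q hq.2) (gm_even hθ q)
    have p1 := hp _ a0 (al_sq hθ)
    rw [Fintype.sum_eq_single φ fun ψ e => absurd (hφ ψ) e, Finset.sum_union dj,
      (p11_thm L θ hθ).2.2 _ _ a0 g0 (al_sq hθ) (gm_sq hθ), aa, bg, ba,
      hs_real p1.ne' (hp _ g0 (gm_sq hθ)).ne', if_neg (fun h => absurd h.1 p1.not_gt), zero_add,
      zero_mul, add_zero, one_mul, CharTwo.add_eq_zero] at this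
    exact this

end Pool.Agent.Lib.MP_d6ddbd_nt.KA
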