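import Pool.Agent.Lib.MP_d6ddbd_nt.KA.Stmt
import Pool.Agent.Lib.MP_d6ddbd_nt.GQ.El

/-!
The two special classes: norms and the data at `11`.
-/

set_option autoImplicit false
set_option maxSynthPendingDepth 3

open NumberField IsDedekindDomain
open Pool.Agent.Stark Pool.Agent.Stark.LocAux
open Pool.Agent.Lib.MP_d6ddbd_nt.K11
open Pool.Agent.Lib.MP_d6ddbd_nt.K11.LocD (vv en hq_mul hq_comm hq_neg hq_sq hq_self vv_mul vv_zero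
  hq_even)
open Pool.Agent.Lib.MP_d6ddbd_nt.K11.Eleven (int_mem int_unit nsq_of_cong)

namespace Pool.Agent.Lib.MP_d6ddbd_nt.KA

namespace Const

variable {L : Type} [Field L] [NumberField L] {θ : L} (hθ : Cub θ)
include hθ

theorem norm_lin (c x : ℚ) : Algebra.norm ℚ ((c : L) * ((x : L) - θ)) = c ^ 3 * fc x := by
  obtain ⟨-, -, -, -, -, p6, -⟩ := pr_thm L θ hθ
  rw [map_mul, (p6 x).2, show (c : L) = algebraMap ℚ L c by simp, Algebra.norm_algebraMap, hθ.rk]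

theorem norm_gm : Algebra.norm ℚ (gm2 θ) = 56 * 56 := by
  have := norm_lin hθ 2 18
  rw [show ((2 : ℚ) : L) * (((18 : ℚ) : L) - θ) = gm2 θ by simp [gm2]] at this
  rw [this]
  norm_num [fc]

theorem norm_al : Algebra.norm ℚ (al0 θ) = 234256 * 234256 := by
  have h1 := norm_lin hθ (-3) (4 / 3)
  have h2 := norm_lin hθ (-10912) (-12016 / 992)
  have e : ((-10912 : ℚ) : L) * (((-12016 / 992 : ℚ) : L) - θ) =
      al0 θ * (((-3 : ℚ) : L) * (((4 / 3 : ℚ) : L) - θ)) := by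
    have := hθ.eq
    simp only [al0, fd]
    push_cast
    linear_combination (-99) * this
  rw [e, map_mul, h1] at h2
  norm_num [fc] at h2
  linarith

theorem gm_ne : gm2 θ ≠ 0 := fun e => by
  have := norm_gm hθ
  rw [e, Algebra.norm_zero] at this
  norm_num at this

theorem al_ne : al0 θ ≠ 0 := fun e => by
  have := norm_al hθ
  rw [e, Algebra.norm_zero] at this
  norm_num at this

theorem fd_ne : fd θ ≠ 0 := right_ne_zero_of_mul (al_ne hθ)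

theorem gm_sq : IsSquare (Algebra.norm ℚ (gm2 θ)) := ⟨_, norm_gm hθ⟩

theorem al_sq : IsSquare (Algebra.norm ℚ (al0 θ)) := ⟨_, norm_al hθ⟩

omit hθ in
theorem nres {n : ℤ} (h : ∀ t : ZMod 11, (n : ZMod 11) - t ^ 2 ≠ 0) (t : ℤ) :
    ¬ (11 : ℤ) ∣ n - t ^ 2 := fun e =>
  h t (by exact_mod_cast (ZMod.intCast_zmod_eq_zero_iff_dvd _ 11).2 e)

/-- The data at `11`. -/
theorem el : ∃ 𝔭 𝔮 : Pr L, (∀ 𝔯, 𝔯 ∈ ab L 11 ↔ 𝔯 = 𝔭 ∨ 𝔯 = 𝔮) ∧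
    (∀ f : Pr L → ZMod 2, ∑ 𝔯 ∈ ab L 11, f 𝔯 = f 𝔭 + f 𝔮) ∧ E2 L = {𝔮} ∧
    og 𝔭 (2 : L) = 0 ∧ og 𝔮 (2 : L) = 0 ∧ vv 𝔭 (11 : L) = 1 ∧ vv 𝔮 (fd θ) = 1 ∧
    vv 𝔮 (al0 θ) = 1 ∧ LSq 𝔮 (-11 : L) ∧ nsq 𝔭 (-1 : L) = 1 ∧ nsq 𝔮 (-1 : L) = 1 ∧
    nsq 𝔮 (gm2 θ) = 1 ∧
    ∀ α : L, α ≠ 0 → IsSquare (Algebra.norm ℚ α) → vv 𝔭 α = vv 𝔮 α := by
  classical
  obtain ⟨-, ⟨𝔭, 𝔮, hne, hab, n1, n2, o1, o2, t8, t9⟩, -, hv, p5, -⟩ := pr_thm L θ hθ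
  have hs : ab L 11 = {𝔭, 𝔮} := Finset.ext fun 𝔯 => by simp [hab]
  have par : ∀ α : L, α ≠ 0 → IsSquare (Algebra.norm ℚ α) → vv 𝔭 α = vv 𝔮 α := fun α h0 hN => by
    have := (hv 11 α (by norm_num) h0).2 hN
    rw [hs, Finset.sum_pair hne, n1, n2, show Nat.log 11 11 = 1 by decide] at this
    refine zmod2_ext ?_
    rw [vv_zero, vv_zero]
    simpa [Int.even_add] using this
  have e11 : ∀ 𝔯 : Pr L, ord (wv 𝔯) (11 : Kc 𝔯) = og 𝔯 (11 : L) := fun 𝔯 => by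
    rw [← ord_emb, map_ofNat]
  have m1 : (11 : Kc 𝔭) ∈ pw (wv 𝔭) 1 := mem_of_le (by rw [e11, o1])
  have m2 : (11 : Kc 𝔮) ∈ pw (wv 𝔮) 1 := mem_of_le (by rw [e11, o2]; norm_num)
  have two : ∀ 𝔯 : Pr L, (11 : Kc 𝔯) ∈ pw (wv 𝔯) 1 → og 𝔯 (2 : L) = 0 := fun 𝔯 h => by
    rw [← ord_emb, map_ofNat]
    simpa using (int_unit h (n := 2) (by norm_num)).2
  have s9 : emb 𝔮 θ - 9 ∈ pw (wv 𝔮) 1 := by
    rw [← map_ofNat (emb 𝔮) 9, ← map_sub]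
    exact mem_of_le (by rwa [ord_emb])
  have fe : fc (emb 𝔮 θ) = 0 := by
    rw [← PF.fc_map, show fc θ = 0 from hθ.eq, map_zero]
  have r1 := (GQ.El.ram (isLoc_wv 𝔮) ((e11 𝔮).trans o2) fe s9).1
  have n0 : (11 : L) ≠ 0 := by norm_num
  have f0 : og 𝔭 (fd θ) = 0 := by
    refine (GQ.El.near1 (w := 𝔭.valuation L) (mem_of_le o1.ge) (n := -32) (by norm_num) ?_).2
    rw [show fd θ - ((-32 : ℤ) : L) = (θ - 8) * ((3 : ℤ) * θ + (16 : ℤ)) by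
      simp only [fd]; push_cast; ring]
    exact pw_mul (mem_of_le t8) (add_mem (pw_mul (int_mem 3) (mem_of_le (p5 𝔭).1) le_rfl)
      (int_mem 16)) le_rfl
  have v1 : vv 𝔭 (11 : L) = 1 := by rw [vv, o1]; rfl
  have v2 : vv 𝔮 (11 : L) = 0 := by rw [vv, o2]; rfl
  have a1 : vv 𝔮 (al0 θ) = 1 := by
    rw [← par _ (al_ne hθ) (al_sq hθ), al0, vv_mul n0 (fd_ne hθ), v1, vv, f0]
    rfl
  have neg : ∀ 𝔯 : Pr L, nm 𝔯 = 11 → (11 : Kc 𝔯) ∈ pw (wv 𝔯) 1 → nsq 𝔯 (-1 : L) = 1 :=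
    fun 𝔯 h m => by
      have := nsq_of_cong ((rc_wv 𝔯).trans h) m (nres (n := -1) (by decide)) (b := -1) (by simp)
      rw [nsq, if_neg]
      rw [LSq, map_neg, map_one]
      exact this.2.2
  refine ⟨𝔭, 𝔮, hab, fun f => by rw [hs, Finset.sum_pair hne], Finset.ext fun 𝔯 => ?_,
    two 𝔭 m1, two 𝔮 m2, v1, ?_, a1, ?_, neg 𝔭 n1 m1, neg 𝔮 n2 m2, ?_, par⟩
  · rw [E2, Finset.mem_filter, hab, Finset.mem_singleton]
    refine ⟨fun h => h.1.resolve_left fun e => ?_, fun h => ⟨Or.inr h, h ▸ o2⟩⟩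
    have := h.2
    rw [e, o1] at this
    omega
  · rwa [al0, vv_mul n0 (fd_ne hθ), v2, zero_add] at a1
  · rw [LSq, map_neg, map_ofNat]
    exact r1
  · have := nsq_of_cong ((rc_wv 𝔮).trans n2) m2 (nres (n := 18) (by decide))
      (b := emb 𝔮 (gm2 θ)) (by
        rw [show emb 𝔮 (gm2 θ) - ((18 : ℤ) : Kc 𝔮) = (-2 : ℤ) * (emb 𝔮 θ - 9) by
          simp only [gm2, map_mul, map_sub, map_ofNat]; push_cast; ring]
        exact pw_mul (int_mem _) s9 le_rfl)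
    exact if_neg this.2.2

end Const

end Pool.Agent.Lib.MP_d6ddbd_nt.KA
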