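import Pool.Agent.Lib.MP_d6ddbd_nt.KA.Stmt
import Pool.Agent.Lib.MP_d6ddbd_nt.K11.Hk

/-!
Hecke operators on Heegner points, also for conductors divisible by `11`.
-/

set_option autoImplicit false
set_option maxSynthPendingDepth 3

open Pointwise
open Pool.Agent.Lib.MP_9177b7_ag.CM (sp smul_mul_left smul_mul_right sp_le mem_sp left_mem_sp
  right_mem_sp smul_sp sp_mul mem_smul_iff ord_mul_ord)
open Pool.Agent.Lib.MP_d6ddbd_nt.K11

noncomputable section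

namespace Pool.Agent.Lib.MP_d6ddbd_nt.KA

namespace HkA

open Hk

theorem up1 (w : ℂ) (l : ℕ) : sp 1 (11 * (l * w)) ⊔ (l : ℂ) • sp 1 w = sp 1 (l * w) := by
  rw [smul_sp]
  refine le_antisymm (sup_le (sp_le.2 ⟨left_mem_sp _ _, mem_sp.2 ⟨0, 11, by push_cast; ring⟩⟩)
    (sp_le.2 ⟨mem_sp.2 ⟨l, 0, by push_cast; ring⟩, right_mem_sp _ _⟩))
    (sp_le.2 ⟨Submodule.mem_sup_left (left_mem_sp _ _), Submodule.mem_sup_right (right_mem_sp _ _)⟩)

theorem up2 (w : ℂ) (i : ℤ) {l : ℕ} (hl : l.Prime) (l11 : l ≠ 11) :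
    sp l (11 * (w - i)) ⊔ (l : ℂ) • sp 1 w = sp l (w - i) := by
  rw [smul_sp]
  refine le_antisymm (sup_le (sp_le.2 ⟨left_mem_sp _ _, mem_sp.2 ⟨0, 11, by push_cast; ring⟩⟩)
    (sp_le.2 ⟨mem_sp.2 ⟨1, 0, by push_cast; ring⟩, mem_sp.2 ⟨i, l, by push_cast; ring⟩⟩))
    (sp_le.2 ⟨Submodule.mem_sup_left (left_mem_sp _ _), ?_⟩)
  refine of_cop (a := 11) (b := l)
    (Nat.isCoprime_iff_coprime.2 ((Nat.coprime_primes (by norm_num) hl).2 l11.symm))
    (Submodule.mem_sup_left (by simpa using right_mem_sp _ _))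
    (Submodule.mem_sup_right (mem_sp.2 ⟨-i, 1, by push_cast; ring⟩))

variable {q c l : ℕ} [hq : Fact (q % 4 = 3)] {L L' : Submodule ℤ ℂ}

theorem lvA_of {b : ℤ} (hl : l.Prime) (l11 : l ≠ 11) (h : Ivt q (l * c) L') (e : Oc q c * L' = L)
    (hp : ¬ 11 ∣ c → Oc q c * pid q c 11 b = pid q c 11 b) :
    L' ⊔ (l : ℂ) • lvA q c b L = lvA q (l * c) b L' := by
  have p11 : Nat.Prime 11 := by norm_num
  by_cases c11 : 11 ∣ c
  · obtain ⟨c0, rfl⟩ := c11
    have e1 : l * (11 * c0) / 11 = l * c0 := by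
      rw [mul_left_comm, Nat.mul_div_cancel_left _ (by norm_num)]
    have k : Oc q (l * (11 * c0)) ⊔ (l : ℂ) • Oc q c0 = Oc q (l * c0) := by
      rw [Oc_lc q l c0, ← up1 (c0 * om q) l, Oc, Oc]
      congr 2
      push_cast
      ring
    rw [lvA, lvA, if_pos (dvd_mul_right 11 c0), if_pos ((dvd_mul_right 11 c0).mul_left l), e1,
      Nat.mul_div_cancel_left _ (by norm_num), ← k, Submodule.sup_mul, h.1, ← e, ← mul_assoc,
      Oc_mul hq.out (dvd_mul_left c0 11), smul_mul_left]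
  · have lc11 : ¬ 11 ∣ l * c := fun h => (p11.dvd_mul.1 h).elim
      (fun h => l11 ((Nat.prime_dvd_prime_iff_eq p11 hl).1 h).symm) c11
    rw [lvA, lvA, if_neg c11, if_neg lc11, lvl_of h e (hp c11)]

omit hq in
theorem lvA_sp {b r : ℤ} {c0 : ℕ} (hl : l.Prime) (l11 : l ≠ 11)
    (hp : Oc q c0 * pid q (11 * c0) l r = pid q c0 l r) :
    pid q (11 * c0) l r * L ⊔ (l : ℂ) • lvA q (11 * c0) b L =
      lvA q (11 * c0) b (pid q (11 * c0) l r * L) := by
  have k : pid q (11 * c0) l r ⊔ (l : ℂ) • Oc q c0 = pid q c0 l r := by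
    rw [pid, pid, ← up2 (c0 * om q) (c0 * r) hl l11, Oc]
    congr 2
    push_cast
    ring
  rw [lvA, lvA, if_pos (dvd_mul_right 11 c0), if_pos (dvd_mul_right 11 c0),
    Nat.mul_div_cancel_left _ (by norm_num), ← mul_assoc, hp, ← k, Submodule.sup_mul, smul_mul_left]

end HkA

open Hk HkA Classical in
theorem hka_of (hV : VStmt) (hPic : PicStmt) (hKer : KerStmt) (hGal : GalAStmt) : HkAStmt := by
  intro Pp a t0 hX q hq' hq h44 b c c' l hb c0 c11 cc hl l2 l11 lq lc x s hs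
  subst cc
  have q0 := hq.ne_zero
  have him := im_ne q0 c0
  have lc0 : l * c ≠ 0 := mul_ne_zero hl.ne_zero c0
  have p11 : Nat.Prime 11 := by norm_num
  have lc11 : ¬ 121 ∣ l * c := fun h => c11
    ((((Nat.coprime_primes p11 hl).2 l11.symm).pow_left 2).dvd_of_dvd_mul_left h)
  have dv := dvd_mul_left c l
  obtain ⟨-, -, -, -, hS, hP⟩ := hKer q hq h44 c c0
  obtain ⟨y0, rfl⟩ := (hKer q hq h44 _ lc0).2.2.2.1 c dv x
  have h0 := cl_out y0
  generalize y0.out.1 = L0 at h0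
  have hL := h0.res dv
  generalize e0 : Oc q c * L0 = L at hL
  obtain ⟨OL, B, LB⟩ := hL.inv
  obtain ⟨g1, g2, -, -, -, g3⟩ := hGal Pp a t0 hX q hq h44 b c hb c0 c11 (res c y0)
  obtain ⟨g0, g1⟩ := g1 L hL
  have ex : ∀ y : Pic q (l * c), ∃ L', y ∈ s → Cl y L' ∧ Oc q c * L' = L := fun y => by
    by_cases hy : y ∈ s
    · obtain ⟨μ, m0, m⟩ := (((hs y).1 hy) ▸ (cl_out y).res dv).exists_smul hL
      exact ⟨μ • y.out.1, fun _ => ⟨(cl_out y).smul m0, by rw [smul_mul_right, m]⟩⟩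
    · exact ⟨⊥, fun h => (hy h).elim⟩
  choose Λ hΛ using ex
  have im : ∀ L', L' ∈ s.image Λ ↔ Ivt q (l * c) L' ∧ Oc q c * L' = L := fun L' => by
    rw [Finset.mem_image]
    refine ⟨fun ⟨y, hy, e⟩ => e ▸ ⟨(hΛ y hy).1.inv, (hΛ y hy).2⟩, fun ⟨h, e⟩ => ?_⟩
    obtain ⟨y, hy⟩ := h.cl
    have ys : y ∈ s := (hs y).2 ((hy.res dv).unique (e ▸ hL))
    obtain ⟨μ, -, m⟩ := hy.exists_smul (hΛ y ys).1
    have k := (hΛ y ys).2
    rw [m, smul_mul_right, e] at k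
    have k' : μ • Oc q c = Oc q c := by rw [← LB, ← smul_mul_left, k]
    refine ⟨y, ys, m.trans ?_⟩
    rcases ((hPic q hq h44).2 c c0).2.2.1 μ k' with rfl | rfl
    · exact one_smul _ _
    · ext z
      simp only [mem_smul_iff, neg_one_mul]
      exact ⟨fun ⟨u, hu, e⟩ => e ▸ neg_mem hu, fun h => ⟨-z, neg_mem h, neg_neg z⟩⟩
  have val : ∀ y ∈ s, Pp (Λ y) (Λ y ⊔ (l : ℂ) • lvA q c b L) = hQ Pp b y := fun y hy => by
    rw [lvA_of hl l11 (hΛ y hy).1.inv (hΛ y hy).2 fun k =>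
      (hP 11 b p11 (by omega) k hb).2.1.inv.1]
    exact ((hGal Pp a t0 hX q hq h44 b _ hb lc0 lc11 y).1 _ (hΛ y hy).1).2
  have sm : ∑ L' ∈ s.image Λ, Pp L' (L' ⊔ (l : ℂ) • lvA q c b L) = ∑ y ∈ s, hQ Pp b y := by
    rw [Finset.sum_image (g := Λ) fun y hy y' hy' e =>
      (hΛ y hy).1.unique (by rw [e]; exact (hΛ y' hy').1)]
    exact Finset.sum_congr rfl val
  have nb : ∀ L', L' ∈ s.image Λ → Nb l L L' := fun L' h =>
    nb_of q0 c0 hl ((im L').1 h).1 ((im L').1 h).2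
  refine ⟨fun ns => ⟨?_, fun O φ hO hφ y hy => ?_⟩, fun r hr => ?_⟩
  · rw [← sm, ← g1]
    refine hX.hecke l L _ _ hl l11 g0 fun L' => ⟨nb L', fun h => ?_⟩
    exact (cls_nb hl lc h0.inv e0 h).elim (im L').2 fun ⟨r, hr, _⟩ =>
      (ns ((hS l hl l2).2 ⟨r, hr⟩)).elim
  · have k := hX.nb l O φ L _ (Λ y) hl l2 l11 hO hφ g0 (g1 ▸ g2) (nb _ (Finset.mem_image_of_mem _ hy))
    rw [val y hy, g1] at k
    refine k.elim id fun k => ?_
    have k' := g3 φ fun e => ns ((hV.2.1.2.2.2.2.2.2.2.1 q l O φ hq hq'.out hl l2 lq hO hφ).1 e)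
    rwa [← k', inv_smul_smul] at k
  have sp1 : ∀ r, Rt q l r → Nb l L (pid q c l r * L) ∧ pid q c l r * L ∉ s.image Λ ∧
      Pp (pid q c l r * L) (pid q c l r * L ⊔ (l : ℂ) • lvA q c b L) =
        hQ Pp b (lam q c l r * res c y0) := fun r hr => by
    obtain ⟨s0, s1, s2, -, s3, -, s6⟩ := hP l r hl lq lc hr
    obtain ⟨-, -, s4, -⟩ := hP l (1 - r) hl lq lc s0
    have n1 : pid q c l r * L ≠ L := fun k => ne1 him hl
      ((cancel LB s1.inv.1 (Oc_mul_self hq'.out c) (k.trans OL.symm)).ge (one_mem_Oc q c))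
    refine ⟨⟨lt_of_le_of_ne ?_ fun k => ?_, lt_of_le_of_ne ?_ n1⟩, fun k => n1 ?_, ?_⟩
    · rw [← OL, ← smul_mul_left, OL]
      exact mul_le_mul_left lO_le' _
    · have := cancel (X := (l : ℂ) • Oc q c) LB (by rw [smul_mul_right, Oc_mul_self hq'.out])
        s1.inv.1 (by rw [smul_mul_left, OL, k])
      exact ne2 him hl (lO_le (this.ge (right_mem_sp _ _)))
    · exact (mul_le_mul_left s2 _).trans OL.le
    · have := ((im _).1 k).2
      rwa [← mul_assoc, s1.inv.1] at this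
    · rw [← ((hGal Pp a t0 hX q hq h44 b c hb c0 c11 _).1 _ (s1.mul hL)).2]
      congr 1
      by_cases k : 11 ∣ c
      · obtain ⟨c1, rfl⟩ := k
        exact lvA_sp hl l11 (s6 c1 (dvd_mul_left c1 11)).1
      · obtain ⟨r0, r1, r2, -, r3, -, -⟩ := hP 11 b p11 (by omega) k hb
        obtain ⟨-, -, r4, -⟩ := hP 11 (1 - b) p11 (by omega) k r0
        rw [lvA, lvA, if_neg k, if_neg k, lvl, lvl_sp hl l11 OL (one_mem_Oc q c) s1.inv.1 s3
          (by simpa using r3) r1.inv.1 s4 r4 (left_mem_sp _ _)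
          (by simpa [pid] using left_mem_sp _ _), lvl]
  obtain ⟨s0, s1, -, -, -, s5, -⟩ := hP l r hl lq lc hr
  obtain ⟨-, s1', -⟩ := hP l (1 - r) hl lq lc s0
  have pl := Nat.prime_iff_prime_int.1 hl
  have lc' : ¬ (l : ℤ) ∣ c := fun k => lc (Int.natCast_dvd_natCast.1 k)
  have dif : pid q c l r * L ≠ pid q c l (1 - r) * L := fun k => by
    have d1 := dvd_of_sp him (cancel LB s1.inv.1 s1'.inv.1 k)
    rw [← mul_sub] at d1
    have d2 := (pl.dvd_or_dvd d1).resolve_left lc'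
    have e4 : (4 : ℤ) * ((q + 1) / 4 : ℕ) = q + 1 := by have := hq'.out; omega
    have d3 : (l : ℤ) ∣ q := by
      have := dvd_sub (Dvd.dvd.mul_left hr 4) (d2.mul_right (r - (1 - r)))
      rwa [show 4 * (r ^ 2 - r + ((q + 1) / 4 : ℕ)) - (r - (1 - r)) * (r - (1 - r)) = (q : ℤ) by
        linear_combination e4] at this
    exact lq ((Nat.prime_dvd_prime_iff_eq hl hq).1 (Int.natCast_dvd_natCast.1 d3))
  have k := hX.hecke l L _ (insert (pid q c l r * L) (insert (pid q c l (1 - r) * L) (s.image Λ)))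
    hl l11 g0 fun L' => ⟨fun h => ?_, fun h => ?_⟩
  · rw [Finset.sum_insert (by simp only [Finset.mem_insert, not_or]; exact ⟨dif, (sp1 r hr).2.1⟩),
      Finset.sum_insert (sp1 _ s0).2.1, (sp1 r hr).2.2, (sp1 _ s0).2.2, sm, g1, s5] at k
    rw [← k]
    abel
  · simp only [Finset.mem_insert] at h
    rcases h with rfl | rfl | h
    exacts [(sp1 r hr).1, (sp1 _ s0).1, nb _ h]
  · simp only [Finset.mem_insert]
    rcases cls_nb hl lc h0.inv e0 h with h | ⟨r', hr', rfl⟩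
    · exact .inr (.inr ((im L').2 h))
    have d1 : (l : ℤ) ∣ (r' - r) * (r' - (1 - r)) := by
      have := dvd_sub hr' hr
      rwa [show ∀ n : ℤ, r' ^ 2 - r' + n - (r ^ 2 - r + n) = (r' - r) * (r' - (1 - r)) from
        fun n => by ring] at this
    rcases pl.dvd_or_dvd d1 with d | d
    · refine .inl ?_
      rw [← e0, ← mul_assoc, mul_comm (pid _ _ _ _), s1.inv.1, pid,
        sp_cong (j := c * r) (by rw [← mul_sub]; exact d.mul_left _)]
    · refine .inr (.inl ?_)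
      rw [← e0, ← mul_assoc, mul_comm (pid _ _ _ _), s1'.inv.1, pid,
        sp_cong (j := c * (1 - r)) (by rw [← mul_sub]; exact d.mul_left _)]

end Pool.Agent.Lib.MP_d6ddbd_nt.KA
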