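import Pool.Agent.Lib.MP_d6ddbd_nt.KA.Bas
import Pool.Agent.Lib.MP_d6ddbd_nt.K11.KB3
import Pool.Agent.Lib.MP_d6ddbd_nt.KI.KX

/-! The twisted Heegner system: first consequences. -/

set_option autoImplicit false
set_option maxSynthPendingDepth 3

open Pool.Agent.Lib.MP_02f36d_nt (xc yc)
open Pool.Agent.Lib.MP_d6ddbd_nt.K11
open Pool.Agent.Lib.MP_d6ddbd_nt.K11.KK
open Pool.Agent.Lib.MP_d6ddbd_nt.KI (rt cq tw rt_sq cq_prod cq_ine cq_eq_one cq_or cq_of cq_one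
  cq_mul cq_sq cq_two cq_pow cq_inv KolI KnI vA rA)

noncomputable section

namespace Pool.Agent.Lib.MP_d6ddbd_nt.KA.K

open Finset Polynomial

section HT

variable {q : ℕ} {δ : ℤ} {k : ℕ → ℕ} {a : ℕ → ℤ} {S : Finset ℕ → (A k → ℤ) →+ Pt} {ρ : G → A k}
  {ν : A k} {j : ℕ → A k}

theorem rho_one (h : HT q δ k a S ρ ν j) : ρ 1 = 0 := by
  have := h.rho_mul 1 1 rfl rfl
  simpa using this

theorem rho_pow (h : HT q δ k a S ρ ν j) {σ : G} (hσ : σ (om q) = om q) (n : ℕ) :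
    ρ (σ ^ n) = n • ρ σ := by
  induction n with
  | zero => simpa using rho_one h
  | succ n ih => rw [pow_succ, h.rho_mul _ _ (GK_pow hσ n) hσ, ih, succ_nsmul]

theorem rho_conj (h : HT q δ k a S ρ ν j) {σ : G} (hσ : σ (om q) = om q) (h0 : ρ σ = 0) (g : G) :
    (g⁻¹ * σ * g) (om q) = om q ∧ ρ (g⁻¹ * σ * g) = 0 := by
  have key : ∀ g : G, g (om q) = om q → (g⁻¹ * σ * g) (om q) = om q ∧ ρ (g⁻¹ * σ * g) = 0 := by
    intro g hg
    have h1 : (g⁻¹ * σ) (om q) = om q := by rw [mul_ap, hσ, GK_inv hg]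
    refine ⟨by rw [mul_ap, hg, h1], ?_⟩
    rw [h.rho_mul _ _ h1 hg, h.rho_mul _ _ (GK_inv hg) hσ, h0, add_zero,
      ← h.rho_mul _ _ (GK_inv hg) hg, inv_mul_cancel, rho_one h]
  by_cases hg : g (om q) = om q
  · exact key g hg
  · obtain ⟨h1, h2⟩ := key _ (not_GK hg)
    have ci : cj⁻¹ = cj := inv_eq_of_mul_eq_one_right cj_mul_cj
    have e : g⁻¹ * σ * g = cj * ((g * cj)⁻¹ * σ * (g * cj)) * cj := by
      rw [mul_inv_rev, ci]
      simp only [← mul_assoc, cj_mul_cj, one_mul]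
      rw [mul_assoc _ cj cj, cj_mul_cj, mul_one]
    rw [e, h.rho_cj _ h1, h2, neg_zero]
    refine ⟨?_, rfl⟩
    rw [mul_ap, mul_ap, cj_om, map_sub, map_one, h1, map_sub, map_one, cj_om]; ring

theorem exists_om (h : HT q δ k a S ρ ν j) {N : ℕ} (hN : ∀ l, k l ≤ N) :
    ∃ ω : G, ω (om q) = om q ∧ ρ ω = 0 ∧ cq δ ω = 1 ∧ ∀ T : Pt, 2 • T = 0 → ω • T = T → T = 0 := by
  obtain ⟨e₁, e₂, e₃, hf, h12, h13, h23, -, -, -, ⟨ω, w1, w2, w3⟩, -⟩ := rA.1.2.2.2.2.1
  have key : ∀ n : ℕ, (ω ^ (3 * n + 1)) e₁ = e₂ ∧ (ω ^ (3 * n + 1)) e₂ = e₃ ∧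
      (ω ^ (3 * n + 1)) e₃ = e₁ := by
    intro n
    induction n with
    | zero => simpa using ⟨w1, w2, w3⟩
    | succ n ih =>
      have e : ω ^ (3 * (n + 1) + 1) = ω ^ (3 * n + 1) * (ω * ω * ω) := by
        rw [← pow_three', ← pow_add]; congr 1
      rw [e]
      simp only [mul_ap, w1, w2, w3]
      exact ih
  obtain ⟨n, hn⟩ : ∃ n, 2 * (2 ^ N * (2 * 2 ^ N)) = 3 * n + 1 := by
    have : 4 ^ (N + 1) % 3 = 1 := by rw [Nat.pow_mod]; simp
    refine ⟨4 ^ (N + 1) / 3, ?_⟩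
    have e : 2 * (2 ^ N * (2 * 2 ^ N)) = 4 ^ (N + 1) := by
      rw [show (4 : ℕ) = 2 * 2 from rfl, mul_pow]; ring
    omega
  have e : ω ^ (3 * n + 1) = (ω * ω) ^ (2 ^ N * (2 * 2 ^ N)) := by
    rw [← hn, pow_mul, pow_two]
  refine ⟨ω ^ (3 * n + 1), e ▸ GK_pow (GK_sq q ω) _, ?_, by rw [e, cq_pow, cq_two, one_pow],
    fun T hT hω => ?_⟩
  · rw [e, rho_pow h (GK_sq q ω)]
    funext l
    obtain ⟨i, hi⟩ := Nat.exists_eq_add_of_le (hN l)
    have z : ((2 ^ k l : ℕ) : ZMod (2 ^ k l)) = 0 := ZMod.natCast_self _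
    rw [Pi.smul_apply, nsmul_eq_mul, hi, pow_add, mul_assoc, Nat.cast_mul, z]
    simp
  · rcases (rA.1.2.2.2.1 T).1 hT with h0 | ⟨-, h0⟩
    · exact h0
    · exfalso
      have hx := xc_smul (ω ^ (3 * n + 1)) T
      rw [hω] at hx
      obtain ⟨k1, k2, k3⟩ := key n
      rw [hf, mul_eq_zero, mul_eq_zero, sub_eq_zero, sub_eq_zero, sub_eq_zero] at h0
      rcases h0 with (h0 | h0) | h0 <;> rw [h0] at hx
      · exact h12 (hx.trans k1)
      · exact h23 (hx.trans k2)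
      · exact h13 (hx.trans k3).symm

theorem es_tor (h : HT q δ k a S ρ ν j) {l : ℕ} {O : ValuationSubring ℂ} {φ : G}
    (hl : l.Prime) (h2 : l ≠ 2) (h11 : l ≠ 11) (hO : Ov O l) (hφ : Frob O l φ) {n : ℕ} {T : Pt}
    (hA : AlgP T) (hT : 2 ^ n • T = 0) : a l • T = φ • T + l • φ⁻¹ • T := by
  rw [← sub_eq_zero]
  apply (rA.2 l O hl h2 h11 hO).2.2.2.2.1 n _ _ (h.es l O φ T hl h2 h11 hO hφ hA)
  rw [ns, na, smul_comm _ (a l), smul_comm _ l, ← gn φ, ← gn φ⁻¹, hT, g0, g0, n0, z0]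
  simp

theorem a_par (h : HT q δ k a S ρ ν j) {l : ℕ} (hl : l.Prime) (h2 : l ≠ 2) (h11 : l ≠ 11) :
    (nr l = 0 → Odd (a l)) ∧ (nr l ≠ 0 → Even (a l)) := by
  have hR := rA
  obtain ⟨O, hO⟩ := vA.1.1 l hl
  obtain ⟨φ, hφ⟩ := vA.1.2.2.2.2 l O hl hO
  obtain ⟨hn, ht⟩ := (hR.2 l O hl h2 h11 hO).2.2.2.2.2.2
  obtain ⟨t3, t1, t0⟩ := ht φ hφ
  have ol : Odd (l : ℤ) := by exact_mod_cast hl.odd_of_ne_two h2
  have key : ∀ T : Pt, 2 • T = 0 → a l • T = φ • T + φ⁻¹ • T := by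
    intro T hT
    rw [es_tor h hl h2 h11 hO hφ (n := 1) (alg_of_two hR.1 hT) (by rwa [pow_one]),
      ← natCast_zsmul, odd_smul ol (two_g _ (two_z hT))]
  have ev : ∀ T : Pt, 2 • T = 0 → T ≠ 0 → φ • T = T → Even (a l) := by
    intro T hT h0 hf
    have h1 := key T hT
    rw [hf, inv_smul_eq_iff.2 hf.symm, ← two_nsmul, hT] at h1
    by_contra ho
    rw [odd_smul (Int.not_even_iff_odd.1 ho) (two_z hT)] at h1
    exact h0 h1
  constructor
  · intro h0
    obtain ⟨T, hT, hT0⟩ := exists_two hR.1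
    have h1 := congrArg (φ⁻¹ • ·) (t0.1 h0 T hT)
    simp only [ga, inv_smul_smul, g0] at h1
    by_contra ho
    have h3 := key T hT
    rw [even_smul (Int.not_odd_iff_even.1 ho) (two_z hT)] at h3
    apply hT0
    rw [add_right_comm, ← h3, zero_add] at h1
    exact h1
  · intro h0
    rcases hn with hn | hn | hn
    · exact absurd hn h0
    · obtain ⟨u1, T, hT, u2⟩ := t1.1 hn
      refine ev (φ • T + T) (by rw [na, ← gn, hT, g0]; simp) (fun e => u2 ?_) ?_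
      · rw [two_nsmul] at hT
        exact add_right_cancel (e.trans hT.symm)
      · rw [ga, u1 T hT, add_comm]
    · obtain ⟨T, hT, hT0⟩ := exists_two hR.1
      exact ev T hT hT0 (t3.1 hn T hT)

theorem a_kol (h : HT q δ k a S ρ ν j) {c : ℤ} {m p : ℕ} (hp : KolI m q c p) :
    (2 : ℤ) ^ m ∣ a p := by
  rcases m with _ | m
  · simp
  obtain ⟨O, φ, hO, hφ, hf⟩ := hp.fr
  obtain ⟨T, hA, t1, t2⟩ := exists_ord rA.1 m
  have h1 := es_tor h hp.pr hp.n2 hp.n11 hO hφ hA t1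
  have h2 : φ⁻¹ • T = φ • T := inv_smul_eq_iff.2 (hf T t1).symm
  obtain ⟨c, hc⟩ := hp.dv
  rw [h2, add_comm, ← succ_nsmul, hc, mul_comm, mul_smul, ← gn φ, t1, g0, n0] at h1
  have h3 : addOrderOf T = 2 ^ (m + 1) := addOrderOf_eq_prime_pow t2 t1
  have h4 := addOrderOf_dvd_iff_zsmul_eq_zero.2 h1
  rw [h3] at h4
  exact_mod_cast h4

theorem mem_D {e : ℤ} (he : e ≠ 0) {l : ℕ} : l ∈ e.natAbs.primeFactors ↔ l.Prime ∧ (l : ℤ) ∣ e := by
  rw [Nat.mem_primeFactors, Int.natCast_dvd]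
  simp [he]

theorem prod_pst {e : ℤ} (hs : Squarefree e) (h4 : e % 4 = 1) :
    ∏ l ∈ e.natAbs.primeFactors, GF.pst l = e := by
  have h1 : ∀ D : Finset ℕ, (∀ l ∈ D, l % 2 = 1) →
      (∏ l ∈ D, GF.pst l) % 4 = 1 ∧ (∏ l ∈ D, GF.pst l).natAbs = ∏ l ∈ D, l := by
    intro D
    induction D using Finset.induction_on with
    | empty => simp
    | insert l D hl ih =>
      intro h
      obtain ⟨i1, i2⟩ := ih fun x hx => h x (Finset.mem_insert_of_mem hx)
      obtain ⟨p1, p2⟩ := pst_mod (h l (Finset.mem_insert_self _ _))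
      rw [Finset.prod_insert hl, Finset.prod_insert hl, Int.mul_emod, i1, p1, Int.natAbs_mul,
        i2, p2]
      simp
  obtain ⟨h2, h3⟩ := h1 e.natAbs.primeFactors fun l hl => by
    obtain ⟨p1, p2⟩ := (mem_D hs.ne_zero).1 hl
    refine p1.eq_two_or_odd.resolve_left ?_
    rintro rfl
    omega
  rw [Nat.prod_primeFactors_of_squarefree (Int.squarefree_natAbs.2 hs)] at h3
  omega

theorem chi_rho (h : HT q δ k a S ρ ν j) {σ : G} (hσ : σ (om q) = om q) {e : ℤ}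
    (hs : Squarefree e) (h4 : e % 4 = 1) (hD : Cd k e.natAbs.primeFactors) :
    cq e σ = chi e.natAbs.primeFactors (ρ σ) := by
  have h1 : ∀ D : Finset ℕ, Cd k D → ∃ t : ℂ, t ^ 2 = (∏ l ∈ D, GF.pst l : ℤ) ∧
      σ t = chi D (ρ σ) * t := by
    intro D
    induction D using Finset.induction_on with
    | empty => exact fun _ => ⟨1, by simp, by simp [chi]⟩
    | insert l D hl ih =>
      intro hc
      obtain ⟨t, t1, t2⟩ := ih fun x hx => hc x (Finset.mem_insert_of_mem hx)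
      obtain ⟨u, hu⟩ := IsAlgClosed.exists_pow_nat_eq (GF.pst l : ℂ) two_pos
      have g1 := h.gen σ l u hσ (hc l (Finset.mem_insert_self _ _)) hu
      have g2 : σ u = sg (ρ σ l) * u := by
        have : σ u ^ 2 = u ^ 2 := by rw [← map_pow, hu, map_intCast]
        rcases sg_or (ρ σ l) with e | e
        · rw [e, g1.2 ((sg_eq_one _).1 e)]; simp
        · rcases sq_eq_sq_iff_eq_or_eq_neg.1 this with e' | e'
          · rw [(sg_eq_one _).2 (g1.1 e')] at e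
            omega
          · rw [e, e']; simp
      refine ⟨u * t, ?_, ?_⟩
      · rw [mul_pow, hu, t1, Finset.prod_insert hl]; push_cast; ring
      · rw [map_mul, g2, t2, chi, chi, Finset.prod_insert hl]; push_cast; ring
  obtain ⟨t, t1, t2⟩ := h1 _ hD
  rw [prod_pst hs h4] at t1
  exact cq_of hs.ne_zero t1 t2

theorem chi_nu (h : HT q δ k a S ρ ν j) {c : ℤ} (hd : Fam c) (hD : Cd k c.natAbs.primeFactors) :
    chi c.natAbs.primeFactors ν = jacobiSym 11 c.natAbs := by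
  have h1 : ∀ D : Finset ℕ, Cd k D → (∀ l ∈ D, l.Prime ∧ l ≠ 11) →
      chi D ν = jacobiSym 11 (∏ l ∈ D, l) := by
    intro D
    induction D using Finset.induction_on with
    | empty => simp [chi]
    | insert l D hl ih =>
      intro hc hp
      have i1 := ih (fun x hx => hc x (Finset.mem_insert_of_mem hx))
        fun x hx => hp x (Finset.mem_insert_of_mem hx)
      obtain ⟨p1, p2⟩ := hp l (Finset.mem_insert_self _ _)
      rw [Finset.prod_insert hl, jacobiSym.mul_right' _ p1.ne_zero (Finset.prod_ne_zero_iff.2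
        fun x hx => (hp x (Finset.mem_insert_of_mem hx)).1.ne_zero), ← i1, chi, chi,
        Finset.prod_insert hl]
      congr 1
      have g1 := h.nu l (hc l (Finset.mem_insert_self _ _)) p2
      rw [← sg_eq_one] at g1
      have g2 : jacobiSym 11 l = 1 ∨ jacobiSym 11 l = -1 := by
        apply jacobiSym.eq_one_or_neg_one
        have : Nat.Coprime 11 l := (Nat.coprime_primes (by norm_num) p1).2 (Ne.symm p2)
        exact (Int.gcd_natCast_natCast 11 l).trans this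
      rcases sg_or (ν l) with e | e <;> rcases g2 with e' | e' <;> simp_all
  have := h1 _ hD fun l hl => by
    obtain ⟨p1, p2⟩ := (mem_D hd.sf.ne_zero).1 hl
    exact ⟨p1, (fam_ne hd p2).2⟩
  rwa [Nat.prod_primeFactors_of_squarefree (Int.squarefree_natAbs.2 hd.sf)] at this

end HT

theorem cq_cj {c : ℤ} (hc : c ≠ 0) : cq c cj = c.sign := by
  rcases lt_or_gt_of_ne hc with h | h
  · rw [Int.sign_eq_neg_one_of_neg h]
    refine cq_of hc (s := Complex.I * Real.sqrt (-c)) ?_ (by simp)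
    rw [mul_pow, ← Complex.ofReal_pow, Real.sq_sqrt (by exact_mod_cast (by omega : 0 ≤ -c))]
    simp
  · rw [Int.sign_eq_one_of_pos h]
    refine cq_of hc (s := Real.sqrt c) ?_ (by simp)
    rw [← Complex.ofReal_pow, Real.sq_sqrt (by exact_mod_cast h.le)]
    simp

theorem jac_abs (x : ℤ) : jacobiSym x.natAbs 11 * x.sign = jacobiSym x 11 := by
  rcases lt_trichotomy x 0 with h | h | h
  · rw [Int.sign_eq_neg_one_of_neg h, show (x.natAbs : ℤ) = -x by omega,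
      jacobiSym.neg _ (by decide), ZMod.χ₄_nat_three_mod_four (by norm_num)]
    ring
  · subst h
    simp [jacobiSym.zero_left]
  · rw [Int.sign_eq_one_of_pos h, show (x.natAbs : ℤ) = x by omega, mul_one]

theorem jac_fam {c : ℤ} (h : Fam c) : jacobiSym 11 c.natAbs = jacobiSym c 11 := by
  have h4 := h.m4
  rw [← jac_abs c]
  rcases lt_or_gt_of_ne h.sf.ne_zero with e | e
  · rw [Int.sign_eq_neg_one_of_neg e]
    have := jacobiSym.quadratic_reciprocity_three_mod_four (a := 11) (b := c.natAbs) (by norm_num)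
      (by omega)
    push_cast at this ⊢
    rw [this]; ring
  · rw [Int.sign_eq_one_of_pos e, mul_one]
    have := jacobiSym.quadratic_reciprocity_one_mod_four (a := c.natAbs) (b := 11) (by omega)
      (by decide)
    push_cast at this ⊢
    exact this.symm

theorem jac_δ {δ : ℤ} (h : δ = 1 ∨ δ = -1 ∨ δ = 2 ∨ δ = -2) {l : ℕ} (hl : l.Prime) (h2 : l ≠ 2) :
    jacobiSym δ l = 1 ∨ jacobiSym δ l = -1 := by
  refine jacobiSym.eq_one_or_neg_one (Int.isCoprime_iff_gcd_eq_one.1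
    ((prime_int hl).irreducible.coprime_iff_not_dvd.2 fun b => h2 ?_).symm)
  have b2 : (l : ℤ) ∣ 2 := by
    rcases h with e | e | e | e <;> rw [e] at b
    · exact b.trans (by norm_num)
    · exact b.trans (by norm_num)
    · exact b
    · exact dvd_neg.1 b
  exact (Nat.prime_dvd_prime_iff_eq hl Nat.prime_two).1 (by exact_mod_cast b2)

theorem sgn_cast {e : ℤ} (h : e = 1 ∨ e = -1) : (e : ZMod 2) = 1 := by
  rcases h with rfl | rfl <;> rfl

theorem tp_congr {N b : ℕ} {f f' : ZMod N → ℤ} (h : Tp b f)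
    (e : ∀ x, (f' x : ZMod 2) = f x) : Tp b f' := by
  unfold Tp at h ⊢
  rwa [funext e]

theorem tp_step {N : ℕ} [NeZero N] {b e : ℕ} {f : ZMod N → ℤ} (h : Tp (b + e) f) {a ε : ℤ}
    (hε : ε = 1 ∨ ε = -1) {j : ZMod N} (hc : (e = 0 ∧ Odd a) ∨ (e = 2 ∧ Even a ∧ j.val % 2 = 1) ∨
      (e = 4 ∧ Even a ∧ j.val % 4 = 2)) :
    Tp b (fun x => a * f x - ε * f (x - j) - ε * f (x + j)) :=
  tp_congr (h.step hc) fun x => by
    push_cast
    rw [sgn_cast hε, one_mul, one_mul]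

theorem tp_el {N : ℕ} [NeZero N] {b e : ℕ} {f : ZMod N → ℤ} (h : Tp (b + e) f) {ε : ℤ}
    (hε : ε = 1 ∨ ε = -1) (he : e = 2 ∨ e = 4) : Tp b (fun x => f x - ε * f (x - e)) := by
  have t2 : (2 : ZMod 2) = 0 := rfl
  have t3 : (2 : (ZMod 2)[X]) = 0 := by rw [← C_ofNat, t2, map_zero]
  have e1 : ((X - 1) ^ e : (ZMod 2)[X]) = X ^ e - 1 := by
    rcases he with rfl | rfl
    · linear_combination (1 - X) * t3
    · linear_combination (1 - 2 * X + 3 * X ^ 2 - 2 * X ^ 3) * t3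
  refine h.of_op (X ^ (-(e : ZMod N)).val) (by simp) ?_
  rw [e1, mul_sub, mul_one, ← pow_add]
  funext x
  simp only [map_sub, map_pow, aeval_X, LinearMap.sub_apply, Pi.sub_apply, Eop_pow]
  push_cast
  rw [sgn_cast hε, one_mul, ZMod.natCast_zmod_val, neg_add_cancel, add_zero, ← sub_eq_add_neg]

end Pool.Agent.Lib.MP_d6ddbd_nt.KA.K
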