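import Pool.Agent.Lib.MP_d6ddbd_nt.KA.K0

/-! The abstract system attached to the twisted Heegner system. -/

set_option autoImplicit false
set_option maxSynthPendingDepth 3

open Pool.Agent.Lib.MP_02f36d_nt (xc yc)
open Pool.Agent.Lib.MP_d6ddbd_nt.K11
open Pool.Agent.Lib.MP_d6ddbd_nt.K11.KK hiding pa cc tst dep_tst tst_eq rho_one rho_pow rho_conj
  exists_om es_tor a_par a_kol mem_D prod_pst chi_rho chi_nu act_not
open Pool.Agent.Lib.MP_d6ddbd_nt.KI (rt cq tw rt_sq cq_prod cq_ine cq_eq_one cq_or cq_of cq_one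
  cq_mul cq_sq cq_two cq_pow cq_inv KolI KnI vA rA cq_qd_fix)

noncomputable section

namespace Pool.Agent.Lib.MP_d6ddbd_nt.KA.K

open Finset

/-- The primes of the genus character. -/
def DD (d c : ℤ) : Finset ℕ := (ee d * c).natAbs.primeFactors

/-- The first coordinate of the abstract system. -/
def px (k : ℕ → ℕ) (K r₁ r₂ : ℕ) (u : ZMod (2 ^ K)) : A k →+ ZMod (2 ^ K) where
  toFun g := cz (k r₁) K (g r₁) + u * cz (k r₂) K (g r₂)
  map_zero' := by simp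
  map_add' g g' := by
    simp only [Pi.add_apply, map_add]
    ring

/-- The coordinates of the abstract system. -/
def pa (k : ℕ → ℕ) (K r₁ r₂ m : ℕ) (u : ZMod (2 ^ K)) : A k →+ Co ℕ K m where
  toFun g := (px k K r₁ r₂ u g, fun p => cz (k p) m (g p))
  map_zero' := by ext <;> simp
  map_add' g g' := by ext <;> simp

/-- The conductor. -/
def cc (d c : ℤ) (r₁ r₂ : ℕ) (n : Finset ℕ) : Finset ℕ := ({r₁, r₂} ∪ DD d c) ∪ n

/-- The multiplier of the second auxiliary coordinate. -/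
def uu (d : ℤ) (k : ℕ → ℕ) (K r₁ r₂ : ℕ) (ν : A k) : ZMod (2 ^ K) :=
  (((2 * eps d : ℕ) : ZMod (2 ^ K)) - cz (k r₁) K (ν r₁)) * (cz (k r₂) K (ν r₂))⁻¹

theorem px_congr {k : ℕ → ℕ} {K r₁ r₂ : ℕ} (u : ZMod (2 ^ K)) {g g' : A k} (h1 : g r₁ = g' r₁)
    (h2 : g r₂ = g' r₂) : px k K r₁ r₂ u g = px k K r₁ r₂ u g' := by
  simp only [px, AddMonoidHom.coe_mk, ZeroHom.coe_mk, h1, h2]

theorem cz_cast {i m : ℕ} (h : i = m) (x : ZMod (2 ^ i)) : cz i m x = (x.val : ZMod (2 ^ m)) := by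
  rw [← cz_val h, ZMod.natCast_zmod_val]

theorem cz_int {i m : ℕ} (h : i = m) (u : ℤ) (x : ZMod (2 ^ i)) :
    cz i m (u * x) = u * (x.val : ZMod (2 ^ m)) := by
  rw [← zsmul_eq_mul, map_zsmul, zsmul_eq_mul, cz_cast h]

/-- The twisted test function. -/
def tst (d c : ℤ) (k : ℕ → ℕ) (K r₁ r₂ m : ℕ) (ν : A k) (n : Finset ℕ) (f : Co ℕ K m → ℤ)
    (g : A k) : ℤ := chi (DD d c) g * f (res n (pa k K r₁ r₂ m (uu d k K r₁ r₂ ν) g))

theorem chi_congr {k : ℕ → ℕ} {D : Finset ℕ} {g g' : A k} (h : ∀ l ∈ D, g l = g' l) :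
    chi D g = chi D g' := Finset.prod_congr rfl fun l hl => by rw [h l hl]

theorem dep_tst (d c : ℤ) (k : ℕ → ℕ) (K r₁ r₂ m : ℕ) (ν : A k) (n : Finset ℕ)
    (f : Co ℕ K m → ℤ) : K11.Dep (cc d c r₁ r₂ n) (tst d c k K r₁ r₂ m ν n f) := by
  intro g g' h
  unfold tst
  rw [chi_congr fun l hl => h l (by simp [cc, hl])]
  congr 2
  refine Prod.ext (px_congr _ (h r₁ (by simp [cc])) (h r₂ (by simp [cc]))) (funext fun p => ?_)
  simp only [KK.res, pa, AddMonoidHom.coe_mk, ZeroHom.coe_mk]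
  split_ifs with hp
  · rw [h p (by simp [cc, hp])]
  · rfl

theorem tst_eq (d c : ℤ) {k : ℕ → ℕ} {K r₁ r₂ m : ℕ} {ν : A k} {n : Finset ℕ} {f : Co ℕ K m → ℤ}
    (hf : KK.Dep n f) (g : A k) : tst d c k K r₁ r₂ m ν n f g =
      chi (DD d c) g * f (pa k K r₁ r₂ m (uu d k K r₁ r₂ ν) g) := by
  rw [tst, hf.res]

open Classical in
/-- The centre of the reflection. -/
def nv (d : ℤ) {k : ℕ → ℕ} (ν : A k) : A k := if (11 : ℤ) ∣ d then 0 else ν

open Classical in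
/-- The sign of complex conjugation. -/
def s0 (d δ : ℤ) : ℤ := if (11 : ℤ) ∣ d then 1 else -jacobiSym δ 11

variable {q : ℕ} {d δ c : ℤ} {K r₁ r₂ m s : ℕ} {k : ℕ → ℕ} {W : Finset ℂ} {a : ℕ → ℤ}
  {S : Finset ℕ → (A k → ℤ) →+ Pt} {ρ : G → A k} {ν : A k} {j : ℕ → A k}
  (C : KH q d δ c K r₁ r₂ m s k W a S ρ ν j)

include C

theorem memD {l : ℕ} : l ∈ DD d c ↔ l.Prime ∧ (l : ℤ) ∣ ee d * c := mem_D C.td.ec_ne

theorem memD' {l : ℕ} : l ∈ DD d c ↔ (l = 11 ∧ (11 : ℤ) ∣ d) ∨ (l.Prime ∧ (l : ℤ) ∣ c) := by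
  rw [memD C]
  constructor
  · rintro ⟨a, b⟩
    exact ((C.td.dvd_ec a).1 b).imp_right fun e => ⟨a, e⟩
  · rintro (⟨rfl, b⟩ | ⟨a, b⟩)
    · exact ⟨by norm_num, (C.td.dvd_ec (by norm_num)).2 (Or.inl ⟨rfl, b⟩)⟩
    · exact ⟨a, b.mul_left _⟩

theorem cdD : Cd k (DD d c) := fun l hl => by
  obtain ⟨p1, p2⟩ := (memD C).1 hl
  rw [C.kd l p1 p2]; omega

theorem K_ne : K ≠ 0 := by have := C.hK; omega

theorem cdR : Cd k {r₁, r₂} := fun l hl => by
  rcases mem_insert.1 hl with rfl | hl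
  · rw [C.k₁]; exact K_ne C
  · rw [mem_singleton.1 hl, C.k₂]; exact K_ne C

theorem kp_ne {p : ℕ} (hp : KolI m q c p) : k p ≠ 0 := by rw [C.kp p hp]; have := C.hm; omega

theorem cd {n : Finset ℕ} (hn : KnI m q c n) : Cd k (cc d c r₁ r₂ n) := by
  intro l hl
  rcases mem_union.1 hl with hl | hl
  · exact (mem_union.1 hl).elim (cdR C l) (cdD C l)
  · exact kp_ne C (hn l hl)

theorem kol_ne {p : ℕ} (hp : KolI m q c p) : p ≠ r₁ ∧ p ≠ r₂ ∧ p ∉ DD d c := by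
  have h1 := hp.ty
  refine ⟨?_, ?_, fun h => ?_⟩
  · rintro rfl
    rw [C.rd₁.ty] at h1
    omega
  · rintro rfl
    rw [C.rd₂.ty] at h1
    omega
  · rcases (memD' C).1 h with e | e
    exacts [hp.n11 e.1, hp.nd e.2]

theorem kol_cc {p : ℕ} (hp : KolI m q c p) {n : Finset ℕ} (pn : p ∉ n) : p ∉ cc d c r₁ r₂ n := by
  obtain ⟨a1, a2, a3⟩ := kol_ne C hp
  simp [cc, a1, a2, a3, pn]

theorem el_cc {n : Finset ℕ} (hn : KnI m q c n) : 11 ∈ cc d c r₁ r₂ n ↔ (11 : ℤ) ∣ d := by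
  have a1 := C.rd₁.n11.symm
  have a2 := C.rd₂.n11.symm
  have a3 : 11 ∉ n := fun h => (hn 11 h).n11 rfl
  have a4 : ¬ (11 : ℤ) ∣ c := C.td.fam.n11
  simp [cc, a1, a2, a3, a4, memD' C]

theorem cq_GK {σ : G} (h : σ (om q) = om q) : cq d σ = cq δ σ * chi (DD d c) (ρ σ) := by
  rw [(cq_thm d δ c C.td).1, chi_rho C.ht h C.td.ec_sf C.td.ec_m4 (cdD C)]
  rfl

theorem px_nu : px k K r₁ r₂ (uu d k K r₁ r₂ ν) ν = (2 * eps d : ℕ) := by
  have h1 : ¬ Even (ν r₂).val := by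
    rw [C.ht.nu r₂ (by rw [C.k₂]; exact K_ne C) C.rd₂.n11, C.rd₂.el]
    decide
  have h2 : IsUnit (cz (k r₂) K (ν r₂)) := by
    rw [cz_cast C.k₂, ZMod.isUnit_iff_coprime]
    exact Nat.Coprime.pow_right _ ((Nat.coprime_two_right).2 (Nat.not_even_iff_odd.1 h1))
  simp only [px, uu, AddMonoidHom.coe_mk, ZeroHom.coe_mk]
  rw [mul_assoc, ZMod.inv_mul_of_unit _ h2]
  ring

theorem s0_or : s0 d δ = 1 ∨ s0 d δ = -1 := by
  unfold s0
  split_ifs
  · exact Or.inl rfl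
  · rcases jac_δ C.td.dl (l := 11) (by norm_num) (by norm_num) with e | e <;> simp [e]

theorem act_not {n : Finset ℕ} (hn : KnI m q c n) {Φ : A k → ℤ} (hΦ : K11.Dep (cc d c r₁ r₂ n) Φ)
    {σ : G} (hσ : σ (om q) ≠ om q) : σ • S (cc d c r₁ r₂ n) Φ = (cq δ (σ * cj) * s0 d δ) •
      S (cc d c r₁ r₂ n) fun g => Φ (nv d ν + ρ (σ * cj) - g) := by
  have e : σ = σ * cj * cj := by rw [mul_assoc, cj_mul_cj, mul_one]
  have h1 : cj • S (cc d c r₁ r₂ n) Φ = s0 d δ • S (cc d c r₁ r₂ n) fun g => Φ (nv d ν - g) := by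
    unfold s0 nv
    split_ifs with h
    · rw [C.ht.conj1 _ Φ (cd C hn) hΦ ((el_cc C hn).2 h), one_smul]
      simp only [zero_sub]
    · exact C.ht.conj0 _ Φ (cd C hn) hΦ fun b => h ((el_cc C hn).1 b)
  conv_lhs => rw [e]
  rw [mul_smul, h1, gz, C.ht.act _ _ _ (cd C hn) (kdep_refl hΦ _) (not_GK hσ), smul_smul,
    mul_comm (s0 d δ)]
  congr 2
  funext g
  congr 1
  abel

/-- A Heegner point as an algebraic point. -/
def pA {c' : Finset ℕ} (hc : Cd k c') (Φ : A k → ℤ) : AlgS rA.1 := ⟨S c' Φ, C.ht.alg c' Φ hc⟩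

open Classical in
/-- The twisted Heegner points. -/
def YY (n : Finset ℕ) : (Co ℕ K m → ℤ) →+ AlgS rA.1 :=
  if h : KnI m q c n then
    { toFun := fun f => pA C (cd C h) (tst d c k K r₁ r₂ m ν n f)
      map_zero' := Subtype.ext (by
        have : tst d c k K r₁ r₂ m ν n 0 = 0 := funext fun g => by simp [tst]
        simp only [pA, this, map_zero]; rfl)
      map_add' := fun f f' => Subtype.ext (by
        have : tst d c k K r₁ r₂ m ν n (f + f') =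
            tst d c k K r₁ r₂ m ν n f + tst d c k K r₁ r₂ m ν n f' :=
          funext fun g => by simp [tst, mul_add]
        simp only [pA, this, map_add]; rfl) }
  else 0

theorem YY_pos {n : Finset ℕ} (h : KnI m q c n) (f : Co ℕ K m → ℤ) :
    (YY C n f : Pt) = S (cc d c r₁ r₂ n) (tst d c k K r₁ r₂ m ν n f) := by
  rw [YY, dif_pos h]; rfl

theorem YY_neg {n : Finset ℕ} (h : ¬ KnI m q c n) (f : Co ℕ K m → ℤ) : YY C n f = 0 := by
  rw [YY, dif_neg h]; rfl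

omit C in
/-- The points that are fixed by the kernel of the coordinates. -/
def AA (q : ℕ) (δ : ℤ) (ρ : G → A k) : AddSubgroup (AlgS rA.1) where
  carrier := {x | ∀ σ : G, σ (om q) = om q → ρ σ = 0 → cq δ σ = 1 → σ • x = x}
  zero_mem' := fun σ _ _ _ => smul_zero σ
  add_mem' := fun {x y} hx hy σ h1 h2 h3 => by rw [smul_add, hx σ h1 h2 h3, hy σ h1 h2 h3]
  neg_mem' := fun {x} hx σ h1 h2 h3 => by rw [smul_neg, hx σ h1 h2 h3]

theorem pA_mem {c' : Finset ℕ} (hc : Cd k c') {Φ : A k → ℤ} (hΦ : K11.Dep c' Φ) :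
    pA C hc Φ ∈ AA q δ ρ := fun σ h1 h2 h3 => Subtype.ext (by
  have := C.ht.act c' Φ σ hc hΦ h1
  simp only [h2, h3, sub_zero, one_smul] at this
  exact this)

theorem sh_GK {σ : G} (hσ : σ (om q) = om q) :
    Sh (YY C) σ (cq d σ) (pa k K r₁ r₂ m (uu d k K r₁ r₂ ν) (-ρ σ)) := by
  intro n f hf
  by_cases hn : KnI m q c n
  · apply Subtype.ext
    rw [coe_sm, AddSubgroupClass.coe_zsmul, YY_pos C hn, YY_pos C hn,
      C.ht.act _ _ σ (cd C hn) (dep_tst _ _ _ _ _ _ _ _ _ _) hσ, ← map_zsmul, ← map_zsmul,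
      cq_GK C hσ]
    congr 1
    funext g
    rw [Pi.smul_apply, Pi.smul_apply, tst_eq d c hf, tst_eq d c (hf.shift _), chi_sub (cdD C),
      ← map_add, ← sub_eq_add_neg, smul_eq_mul, smul_eq_mul]
    ring
  · simp [YY_neg C hn]

theorem rf_not {σ : G} (hσ : σ (om q) ≠ om q) :
    Rf (YY C) σ (cq δ (σ * cj) * s0 d δ * chi (DD d c) (nv d ν + ρ (σ * cj)))
      (pa k K r₁ r₂ m (uu d k K r₁ r₂ ν) (nv d ν + ρ (σ * cj))) := by
  intro n f hf
  by_cases hn : KnI m q c n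
  · apply Subtype.ext
    rw [coe_sm, AddSubgroupClass.coe_zsmul, YY_pos C hn, YY_pos C hn,
      act_not C hn (dep_tst _ _ _ _ _ _ _ _ _ _) hσ, ← map_zsmul, ← map_zsmul]
    congr 1
    funext g
    rw [Pi.smul_apply, Pi.smul_apply, tst_eq d c hf, tst_eq d c (hf.refl _), chi_sub (cdD C),
      ← map_sub, smul_eq_mul, smul_eq_mul]
    ring
  · simp [YY_neg C hn]

theorem sg_or' (σ : G) (g : A k) : cq δ σ * s0 d δ * chi (DD d c) g = 1 ∨
    cq δ σ * s0 d δ * chi (DD d c) g = -1 := by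
  rcases cq_or δ σ with a | a <;> rcases s0_or C with b | b <;>
    rcases chi_or (DD d c) g with e | e <;> simp [a, b, e]

open Classical in
/-- The abstract system. -/
def sys : Sys G (AlgS rA.1) ℕ K m where
  A := AA q δ ρ
  stab := fun g x hx σ h1 h2 h5 => by
    obtain ⟨h3, h4⟩ := rho_conj C.ht h1 h2 g
    have := congrArg (g • ·) (hx _ h3 h4 (by rw [cq_mul, cq_mul, h5, cq_inv, mul_one, cq_sq]))
    simpa only [mul_smul, smul_inv_smul] using this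
  tf := fun x hx h2 => by
    obtain ⟨ω, w1, w2, w4, w3⟩ := C.kb.elim fun _ h => exists_om C.ht h
    exact Subtype.ext (w3 x.1 ((two_iff x).1 h2) (congrArg Subtype.val (hx ω w1 w2 w4)))
  Y := YY C
  mem := fun n f => by
    by_cases hn : KnI m q c n
    · have : YY C n f = pA C (cd C hn) (tst d c k K r₁ r₂ m ν n f) := Subtype.ext (YY_pos C hn f)
      rw [this]
      exact pA_mem C _ (dep_tst _ _ _ _ _ _ _ _ _ _)
    · rw [YY_neg C hn]; exact AddSubgroup.zero_mem _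
  a := fun p => if KolI m q c p then a p else 0
  norm := fun n p hp f hf => by
    by_cases hk : KolI m q c p
    · rw [if_pos hk]
      by_cases hn : KnI m q c n
      · have hn' : KnI m q c (insert p n) := fun x hx => by
          rcases Finset.mem_insert.1 hx with rfl | hx
          exacts [hk, hn x hx]
        apply Subtype.ext
        have e : tst d c k K r₁ r₂ m ν (insert p n) f = tst d c k K r₁ r₂ m ν n f :=
          funext fun g => by rw [tst_eq d c hf, tst_eq d c (hf.mono (Finset.subset_insert _ _))]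
        rw [AddSubgroupClass.coe_zsmul, YY_pos C hn, YY_pos C hn', e, cc, Finset.union_insert]
        exact C.ht.inert _ _ p (cd C hn) (dep_tst _ _ _ _ _ _ _ _ _ _) (kp_ne C hk)
          (kol_cc C hk hp) hk.inert
      · rw [YY_neg C hn, YY_neg C fun h => hn fun x hx => h x (Finset.mem_insert_of_mem hx),
          smul_zero]
    · rw [if_neg hk, YY_neg C fun h => hk (h p (Finset.mem_insert_self _ _)), zero_smul]
  a4 := fun p => by
    split_ifs with hk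
    · exact (pow_dvd_pow (2 : ℤ) (by have := C.hm; omega : 2 ≤ m)).trans (a_kol C.ht hk)
    · simp
  act := fun g => by
    by_cases hg : g (om q) = om q
    · exact ⟨_, _, cq_or _ _, Or.inl (sh_GK C hg)⟩
    · exact ⟨_, _, sg_or' C _ _, Or.inr (rf_not C hg)⟩

theorem am (p : ℕ) : (2 : ℤ) ^ m ∣ (sys C).a p := by
  by_cases hp : KolI m q c p
  · have ha : (sys C).a p = a p := if_pos hp
    exact ha ▸ a_kol C.ht hp
  · have ha : (sys C).a p = 0 := if_neg hp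
    exact ha ▸ dvd_zero _

omit C in
/-- The weight of a prime. -/
def wt (d : ℤ) (l : ℕ) : ℕ := if l = 11 then 2 * eps d else 2 * ((nr l + 1) / 2)

theorem sum_wt : ∑ l ∈ DD d c, wt d l = 2 * TT d c := by
  have n11 : 11 ∉ c.natAbs.primeFactors := fun h => C.td.fam.n11 ((mem_D C.td.c_ne).1 h).2
  have h1 : ∑ l ∈ c.natAbs.primeFactors, wt d l = 2 * tt c := by
    rw [tt, Finset.mul_sum]
    exact Finset.sum_congr rfl fun l hl => if_neg (by rintro rfl; exact n11 hl)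
  by_cases h : (11 : ℤ) ∣ d
  · have e : DD d c = insert 11 c.natAbs.primeFactors := by
      ext l
      rw [memD' C, mem_insert, mem_D C.td.c_ne]
      simp [h]
    rw [e, Finset.sum_insert n11, h1, wt, if_pos rfl, TT]
    ring
  · rw [DD, ee_neg h, one_mul, h1, TT, eps_zero h, add_zero]

theorem px_j {l : ℕ} (hl : l.Prime) (hd : (l : ℤ) ∣ c) {u₁ u₂ : ℤ} (h1 : Odd u₁) {g : A k}
    (e1 : g r₁ = u₁ * j l r₁) (e2 : g r₂ = u₂ * j l r₂) :
    ∃ J : ℤ, (J : ZMod (2 ^ K)) = px k K r₁ r₂ (uu d k K r₁ r₂ ν) g ∧ (nr l = 1 → Odd J) ∧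
      (nr l = 3 → ∃ u, Odd u ∧ J = 2 * u) := by
  obtain ⟨j1, j3⟩ := C.j₁ l hl hd
  obtain ⟨t, ht⟩ : ∃ t : ℕ, (j l r₂).val = 4 * t := ⟨(j l r₂).val / 4, by have := C.j₂ l hl hd; omega⟩
  refine ⟨u₁ * (j l r₁).val + 4 * ((uu d k K r₁ r₂ ν).val * (u₂ * t)), ?_, fun h => ?_, fun h => ?_⟩
  · simp only [px, AddMonoidHom.coe_mk, ZeroHom.coe_mk, e1, e2, cz_int C.k₁, cz_int C.k₂, ht]
    push_cast
    rw [ZMod.natCast_zmod_val]
    ring
  · exact (h1.mul (by exact_mod_cast Nat.odd_iff.2 (j1 h))).add_even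
      ((by decide : Even (4 : ℤ)).mul_right _)
  · obtain ⟨e, he⟩ : ∃ e : ℤ, ((j l r₁).val : ℤ) = 2 * (2 * e + 1) :=
      ⟨((j l r₁).val / 4 : ℕ), by have := j3 h; omega⟩
    exact ⟨u₁ * (2 * e + 1) + 2 * ((uu d k K r₁ r₂ ν).val * (u₂ * t)),
      (h1.mul (odd_two_mul_add_one e)).add_even (even_two_mul _), by rw [he]; ring⟩

theorem val_mod {J : ℤ} {x : ZMod (2 ^ K)} (h : (J : ZMod (2 ^ K)) = x) :
    (x.val : ℤ) % 8 = J % 8 := by
  have h1 : ((2 ^ K : ℕ) : ℤ) ∣ J - x.val := by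
    rw [← ZMod.intCast_zmod_eq_zero_iff_dvd]
    simp [h]
  have h2 : (8 : ℤ) ∣ ((2 ^ K : ℕ) : ℤ) := by
    exact_mod_cast pow_dvd_pow 2 (show 3 ≤ K by have := C.hK; omega)
  have := h2.trans h1
  omega

theorem chain (D : Finset ℕ) (hD : D ⊆ DD d c) (f : ZMod (2 ^ K) → ℤ)
    (hf : Tp (∑ l ∈ D, wt d l) f) : ∃ f' : ZMod (2 ^ K) → ℤ, Tp 0 f' ∧
      S ({r₁, r₂} ∪ D) (fun g => f (px k K r₁ r₂ (uu d k K r₁ r₂ ν) g)) =
        S {r₁, r₂} fun g => f' (px k K r₁ r₂ (uu d k K r₁ r₂ ν) g) := by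
  induction D using Finset.induction_on generalizing f with
  | empty => exact ⟨f, by simpa using hf, by rw [union_empty]⟩
  | insert l D hl ih =>
    have hm := hD (Finset.mem_insert_self _ _)
    have hD' : D ⊆ DD d c := (Finset.subset_insert _ _).trans hD
    have hc : Cd k ({r₁, r₂} ∪ D) := fun x hx =>
      (mem_union.1 hx).elim (cdR C x) fun h => cdD C x (hD' h)
    have dp : K11.Dep ({r₁, r₂} ∪ D) fun g => f (px k K r₁ r₂ (uu d k K r₁ r₂ ν) g) :=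
      fun g g' h => congrArg f (px_congr _ (h r₁ (by simp)) (h r₂ (by simp)))
    rw [Finset.sum_insert hl, add_comm] at hf
    rcases (memD' C).1 hm with ⟨rfl, h11⟩ | ⟨p1, p2⟩
    · rw [wt, if_pos rfl] at hf
      have st := tp_el hf (jac_δ C.td.dl (l := 11) (by norm_num) (by norm_num)) (by
        by_cases h : rx d
        · rw [eps_two h]; simp
        · rw [eps_one h11 h]; simp)
      obtain ⟨f', f1, f2⟩ := ih hD' _ st
      refine ⟨f', f1, ?_⟩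
      rw [← f2, union_insert, C.ht.eleven _ _ hc dp (cdD C _ hm)
        (by simp [hl, C.rd₁.n11.symm, C.rd₂.n11.symm]), ← map_zsmul, ← map_sub]
      congr 1
      funext g
      simp only [Pi.sub_apply, Pi.smul_apply, smul_eq_mul, map_sub, px_nu C]
    obtain ⟨l2, l11⟩ := fam_ne C.td.fam p2
    obtain ⟨a0, a1⟩ := a_par C.ht p1 l2 l11
    obtain ⟨J, e, j1, j3⟩ := px_j C p1 p2 (u₁ := 1) (u₂ := 1) (g := j l) odd_one (by simp) (by simp)
    have vm := val_mod C e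
    obtain ⟨O, hO⟩ := vA.1.1 l p1
    have hn := (rA.2 l O p1 l2 l11 hO).2.2.2.2.2.2.1
    rw [wt, if_neg l11] at hf
    have st := tp_step hf (a := a l) (jac_δ C.td.dl p1 l2)
      (j := px k K r₁ r₂ (uu d k K r₁ r₂ ν) (j l)) (by
      rcases hn with hn | hn | hn
      · exact Or.inl ⟨by rw [hn], a0 hn⟩
      · obtain ⟨x, hx⟩ := j1 hn
        exact Or.inr (Or.inl ⟨by rw [hn], a1 (by omega), by omega⟩)
      · obtain ⟨u, ⟨x, hx⟩, hu⟩ := j3 hn
        exact Or.inr (Or.inr ⟨by rw [hn], a1 (by omega), by omega⟩))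
    obtain ⟨f', f1, f2⟩ := ih hD' _ st
    refine ⟨f', f1, ?_⟩
    have n1 : l ≠ r₁ := fun e => C.rd₁.nd (e ▸ p2)
    have n2 : l ≠ r₂ := fun e => C.rd₂.nd (e ▸ p2)
    rw [← f2, union_insert, C.ht.split _ _ l hc dp (cdD C _ hm) (by simp [hl, n1, n2])
      (C.qd.spl l p1 p2) l11, ← map_zsmul, ← map_zsmul, ← map_zsmul, ← map_sub, ← map_sub]
    congr 1
    funext g
    simp only [Pi.sub_apply, Pi.smul_apply, smul_eq_mul, map_sub, map_add]

theorem base : (sys C).Q ∅ (2 * TT d c) ∉ (sys C).D 1 := by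
  intro h
  have k0 : KnI m q c ∅ := fun _ h => absurd h (Finset.notMem_empty _)
  have c0 : Cd k ∅ := fun _ h => absurd h (Finset.notMem_empty _)
  have cr := cdR C
  obtain ⟨P, hP⟩ : ∃ P, P = px k K r₁ r₂ (uu d k K r₁ r₂ ν) := ⟨_, rfl⟩
  obtain ⟨f', f1, f2⟩ := chain C _ subset_rfl (ph (2 * TT d c)) (by
    rw [sum_wt C]
    exact Tp_ph _ (by have := C.hK; omega))
  rw [← hP] at f2
  choose u hu using f1.odd
  obtain ⟨Φ, hΦ⟩ : ∃ Φ : A k → ℤ, Φ = fun g =>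
    (if chi (DD d c) g = 1 then 0 else -1) * ph (2 * TT d c) (P g) := ⟨_, rfl⟩
  have dΦ : K11.Dep (cc d c r₁ r₂ ∅) Φ := by
    intro g g' h
    simp only [hΦ, hP, chi_congr (D := DD d c) fun l hl => h l (by simp [cc, hl]),
      px_congr _ (h r₁ (by simp [cc])) (h r₂ (by simp [cc]))]
  have e1 : tst d c k K r₁ r₂ m ν ∅ (tf2 (ph (2 * TT d c)) ∅) =
      (fun g => ph (2 * TT d c) (P g)) + (2 : ℤ) • Φ := by
    funext g
    rw [tst_eq d c (dep_tf2 _ _), hΦ]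
    simp only [tf2, ps, pa, Finset.prod_empty, AddMonoidHom.coe_mk, ZeroHom.coe_mk, Pi.add_apply,
      Pi.smul_apply, smul_eq_mul, ← hP]
    rcases chi_or (DD d c) g with e | e <;> rw [e] <;> simp
    ring
  have e2 : (fun g : A k => f' (P g)) = (fun _ => 1) + (2 : ℤ) • fun g : A k => u (P g) := by
    funext g
    simp only [Pi.add_apply, Pi.smul_apply, smul_eq_mul]
    linear_combination hu (P g)
  have e3 : S {r₁, r₂} (fun _ => 1) = (a r₁ * a r₂) • S ∅ fun _ => 1 := by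
    rw [C.ht.inert {r₂} _ r₁ (fun x hx => cr x (mem_insert_of_mem hx)) (fun _ _ _ => rfl)
      (cr _ (by simp)) (by simpa using C.ne) C.rd₁.inert, mul_smul,
      ← C.ht.inert ∅ _ r₂ c0 (fun _ _ _ => rfl) (cr _ (by simp)) (by simp) C.rd₂.inert]
    rfl
  obtain ⟨c', hc⟩ := ((a_par C.ht C.rd₁.pr C.rd₁.n2 C.rd₁.n11).1 C.rd₁.ty).mul
    ((a_par C.ht C.rd₂.pr C.rd₂.n2 C.rd₂.n11).1 C.rd₂.ty)
  have e4 : (sys C).Q ∅ (2 * TT d c) = (a r₁ * a r₂) • pA C c0 (fun _ => 1) +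
      (2 : ℤ) • pA C cr (fun g => u (P g)) + (2 : ℤ) • pA C (cd C k0) Φ := by
    apply Subtype.ext
    have e5 : cc d c r₁ r₂ ∅ = {r₁, r₂} ∪ DD d c := Finset.union_empty _
    change (YY C ∅ _ : Pt) = (a r₁ * a r₂) • S ∅ _ + (2 : ℤ) • S {r₁, r₂} _ +
      (2 : ℤ) • S (cc d c r₁ r₂ ∅) Φ
    rw [YY_pos C k0, e1, map_add, map_zsmul, e5, f2, e2, map_add, map_zsmul, e3]
  have m0 : pA C c0 (fun _ => 1) ∈ (sys C).A := pA_mem C c0 fun _ _ _ => rfl
  have m1 : pA C cr (fun g => u (P g)) ∈ (sys C).A :=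
    pA_mem C cr fun g g' h => by rw [hP, px_congr _ (h r₁ (by simp)) (h r₂ (by simp))]
  have m2 : pA C (cd C k0) Φ ∈ (sys C).A := pA_mem C _ dΦ
  obtain ⟨x, hx, e6⟩ := h
  obtain ⟨y, hy, e7⟩ : ∃ y ∈ (sys C).A, pA C c0 (fun _ => 1) = (2 : ℤ) ^ 1 • y := by
    refine ⟨x - c' • pA C c0 (fun _ => 1) - pA C cr (fun g => u (P g)) - pA C (cd C k0) Φ,
      sub_mem (sub_mem (sub_mem hx (zsmul_mem m0 c')) m1) m2, ?_⟩
    rw [e4, hc] at e6
    linear_combination (norm := module) e6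
  refine C.ht.base y.1 y.2 (fun σ hσ => ?_) ?_
  · have : σ • y = cq δ σ • y := by
      apply (sys C).cancel 1 ((sys C).stab _ _ hy) (zsmul_mem hy _)
      rw [← gz, smul_comm _ (cq δ σ), ← e7]
      exact Subtype.ext (C.ht.act ∅ _ σ c0 (fun _ _ _ => rfl) hσ)
    exact congrArg Subtype.val this
  · rw [← coe_two, ← pow_one (2 : ℤ), ← e7]
    rfl

end Pool.Agent.Lib.MP_d6ddbd_nt.KA.K
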