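import Pool.Agent.Lib.MP_d6ddbd_nt.KA.K1

/-! The local data of the abstract system. -/

set_option autoImplicit false
set_option maxSynthPendingDepth 3

open Pool.Agent.Lib.MP_02f36d_nt (xc yc)
open Pool.Agent.Lib.MP_d6ddbd_nt.K11
open Pool.Agent.Lib.MP_d6ddbd_nt.K11.KK hiding pa cc tst dep_tst tst_eq rho_one rho_pow rho_conj
  exists_om es_tor a_par a_kol mem_D prod_pst chi_rho chi_nu act_not
open Pool.Agent.Lib.MP_d6ddbd_nt.KI (rt cq tw rt_sq cq_prod cq_ine cq_eq_one cq_or cq_of cq_one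
  cq_mul cq_sq cq_two cq_pow cq_inv KolI KnI vA rA cq_qd_fix ine_om)

noncomputable section

namespace Pool.Agent.Lib.MP_d6ddbd_nt.KA.K

open Finset

variable {q : ℕ} {d δ c : ℤ} {K r₁ r₂ m s : ℕ} {k : ℕ → ℕ} {W : Finset ℂ} {a : ℕ → ℤ}
  {S : Finset ℕ → (A k → ℤ) →+ Pt} {ρ : G → A k} {ν : A k} {j : ℕ → A k}
  (C : KH q d δ c K r₁ r₂ m s k W a S ρ ν j)

include C

theorem px_iner {v : ℕ} {O : ValuationSubring ℂ} {σ : G} (hv : v.Prime) (hO : Ov O v)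
    (hσ : Frob O 1 σ) (hG : σ (om q) = om q) (v1 : v ≠ r₁) (v2 : v ≠ r₂) (u : ZMod (2 ^ K)) :
    px k K r₁ r₂ u (-ρ σ) = 0 := by
  simp [px, C.ht.iner v O σ r₁ hv hO hσ hG v1.symm, C.ht.iner v O σ r₂ hv hO hσ hG v2.symm]

theorem iner_Y {v : ℕ} {O : ValuationSubring ℂ} {σ : G} (hv : v.Prime) (hO : Ov O v)
    (hσ : Frob O 1 σ) (vq : v ≠ q) (v1 : v ≠ r₁) (v2 : v ≠ r₂) {n : Finset ℕ} (vn : v ∉ n)
    {f : Co ℕ K m → ℤ} (hf : KK.Dep n f) : σ • YY C n f = cq d σ • YY C n f := by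
  have hG := ine_om C.qd.qf.pr C.qd.qf.m4 hv vq hO hσ
  rw [sh_GK C hG n f hf]
  congr 2
  funext x
  apply hf
  · change x.1 + px k K r₁ r₂ _ (-ρ σ) = x.1
    rw [px_iner C hv hO hσ hG v1 v2, add_zero]
  · intro p hp
    simp [pa, C.ht.iner v O σ p hv hO hσ hG (fun e => vn (e ▸ hp))]

theorem atD {l : ℕ} {O : ValuationSubring ℂ} {σ φ : G} {η : ℤ} {t : ℂ} {n : Finset ℕ}
    (hn : KnI m q c n) (hl : l.Prime) (hd : (l : ℤ) ∣ c) (h2 : l ≠ 2) (h11 : l ≠ 11) (hO : Ov O l)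
    (hσ : Frob O 1 σ) (hφ : Frob O l φ) (hs : t ^ 2 = d) (e1 : σ t = -t) (e2 : φ t = η * t) :
    ∃ J : ℤ, (nr l = 1 → Odd J) ∧ (nr l = 3 → ∃ u, Odd u ∧ J = 2 * u) ∧
      (sys C).AtD (mkLoc rA hl h2 h11 hO hσ hφ) n η J := by
  have lq : l ≠ q := fun e => C.qd.nd (e ▸ hd)
  have l1 : l ≠ r₁ := fun e => C.rd₁.nd (e ▸ hd)
  have l2 : l ≠ r₂ := fun e => C.rd₂.nd (e ▸ hd)
  have ln : l ∉ n := fun h => (hn l h).nd hd
  have hG' := (vA.2.1.2.2.2.2.2.2.2.1 q l O φ C.qd.qf.pr C.qd.qf.m4 hl h2 lq hO hφ).2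
    (C.qd.spl l hl hd)
  have kl : k l ≠ 0 := by rw [C.kd l hl (hd.mul_left _)]; omega
  obtain ⟨u, hu, e3⟩ := C.ht.frob l O φ r₁ kl (C.qd.spl l hl hd) hO hφ l1.symm
  obtain ⟨u', -, e4⟩ := C.ht.frob l O φ r₂ kl (C.qd.spl l hl hd) hO hφ l2.symm
  obtain ⟨J, e5, j1, j3⟩ := px_j C hl hd (g := -ρ φ) (u₂ := -u') hu.neg (by simp [e3]) (by simp [e4])
  have c1 := cq_of C.td.ne hs (σ := σ) (e := -1) (by simpa using e1)
  have c2 := cq_of C.td.ne hs e2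
  refine ⟨J, j1, j3, fun f hf => ?_, c2 ▸ cq_or _ _, _, c2 ▸ sh_GK C hG', e5⟩
  have := iner_Y C hl hO hσ lq l1 l2 ln hf
  rwa [c1, neg_one_smul] at this

theorem kol_nd {p : ℕ} (hp : KolI m q c p) : ¬ (p : ℤ) ∣ d := fun h =>
  hp.nd ((C.td.dvd_c hp.pr hp.n2 hp.n11).1 h)

theorem atP {p : ℕ} {O : ValuationSubring ℂ} {σ φ : G} {t : ℂ} {n : Finset ℕ}
    (hn : KnI m q c n) (hp : KolI m q c p) (pn : p ∉ n) (hO : Ov O p)
    (hσ : Frob O 1 σ) (hφ : Frob O p φ) (hs : t ^ 2 = GF.pst p) (e1 : σ t = -t) :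
    (sys C).AtP (mkLoc rA hp.pr hp.n2 hp.n11 hO hσ hφ) n p p (((p + 1) / 2 ^ k p : ℕ) : ℤ) := by
  have kp := C.kp p hp
  have kp0 := kp_ne C hp
  obtain ⟨p1, p2, -⟩ := kol_ne C hp
  have hG := ine_om C.qd.qf.pr C.qd.qf.m4 hp.pr hp.nq hO hσ
  have hG' : φ (om q) ≠ om q := fun e => hp.inert
    ((vA.2.1.2.2.2.2.2.2.2.1 q p O φ C.qd.qf.pr C.qd.qf.m4 hp.pr hp.n2 hp.nq hO hφ).1 e)
  have ha : (sys C).a p = a p := if_pos hp
  have hn' : KnI m q c (insert p n) := fun x hx => by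
    rcases Finset.mem_insert.1 hx with rfl | hx
    exacts [hp, hn x hx]
  have pc := kol_cc C hp pn
  refine ⟨pn, ?_, am C p, ?_, ?_, ?_, ?_⟩
  · rw [kp]
    exact_mod_cast Nat.div_mul_cancel hp.dv
  · have c1 : cq d σ = 1 := cq_ine hp.pr hp.n2 hO (kol_nd C hp) hσ
    refine ⟨_, c1 ▸ sh_GK C hG, px_iner C hp.pr hO hσ hG p1 p2 _, fun p' hp' => ?_, ?_⟩
    · simp [pa, C.ht.iner p O σ p' hp.pr hO hσ hG (fun e => pn (e ▸ hp'))]
    · have h0 : t ≠ 0 := fun e => by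
        have h1 : GF.pst p = 0 := by
          rw [e] at hs
          exact_mod_cast (by simpa using hs.symm : (GF.pst p : ℂ) = 0)
        have h2 := (pst_mod (hp.pr.eq_two_or_odd.resolve_left hp.n2)).1
        omega
      have h3 : ¬ Even (ρ σ p).val := fun e => h0 (by
        have := (C.ht.gen σ p t hG kp0 hs).2 e
        linear_combination (e1 - this) / 2)
      change Odd (cz (k p) _ (-ρ σ p)).val
      rw [cz_val kp, ← Nat.not_even_iff_odd, ← sg_eq_one, ← zero_sub, sg_sub kp0]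
      rw [← sg_eq_one] at h3
      simpa [sg] using h3
  · intro n' f hf
    have h1 := rf_not C hG'
    change φ • φ • YY C n' f = YY C n' f
    rw [h1 n' f hf, gz, h1 n' _ (hf.refl _), smul_smul]
    rcases sg_or' C (φ * cj) (nv d ν + ρ (φ * cj)) with h | h <;> rw [h] <;> simp
  · intro x
    rw [ha, ← Loc.hF, ← Loc.hF, ← map_zsmul, ← map_zsmul, ← map_add]
    apply (red_eq _ _).2
    have := C.ht.es p O φ (φ • x.1) hp.pr hp.n2 hp.n11 hO hφ (φ • x).2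
    rw [inv_smul_smul, ← natCast_zsmul] at this
    exact this
  · intro g ω hg
    rw [← map_zsmul, ← map_zsmul, ← map_zsmul, ← Loc.hF]
    apply (red_eq _ _).2
    have dg : KK.Dep (insert p n) fun x => g x * ω (x.2 p) := fun x y h1 h2 => by
      simp only [hg x y h1 fun p' hp' => h2 p' (Finset.mem_insert_of_mem hp'),
        h2 p (Finset.mem_insert_self _ _)]
    have e : cc d c r₁ r₂ (insert p n) = insert p (cc d c r₁ r₂ n) := Finset.union_insert _ _ _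
    have h1 := C.ht.cong (cc d c r₁ r₂ n) _ p O φ (cd C hn)
      (e ▸ dep_tst d c k K r₁ r₂ m ν (insert p n) fun x => g x * ω (x.2 p)) kp0 pc hp.inert hO hφ
    change (YY C _ _ : Pt) - φ • (YY C _ _ : Pt) ∈ _
    rw [YY_pos C hn', YY_pos C hn, e]
    have e2 : ∀ (y : A k) (x : ZMod (2 ^ k p)),
        tst d c k K r₁ r₂ m ν (insert p n) (fun x => g x * ω (x.2 p)) (Function.update y p x) =
          tst d c k K r₁ r₂ m ν n g y * ω (cz (k p) _ x) := by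
      intro y x
      have h2 := dep_tst d c k K r₁ r₂ m ν n g (Function.update y p x) y fun l hl =>
        Function.update_of_ne (by rintro rfl; exact pc hl) _ _
      rw [← h2, tst_eq d c dg, tst_eq d c hg, mul_assoc]
      simp [pa]
    have e3 : tst d c k K r₁ r₂ m ν n (((((p + 1) / 2 ^ k p : ℕ) : ℤ) * ∑ z, ω z) • g) =
        fun y => (((p + 1) / 2 ^ k p : ℕ) : ℤ) * ∑ x : ZMod (2 ^ k p),
          tst d c k K r₁ r₂ m ν (insert p n) (fun x => g x * ω (x.2 p)) (Function.update y p x) := by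
      funext y
      simp only [e2, ← Finset.mul_sum, cz_sum kp]
      simp only [tst, Pi.smul_apply, smul_eq_mul]
      ring
    rw [e3]
    exact h1

theorem fr_el {O : ValuationSubring ℂ} {φ : G} (hO : Ov O 11) (hφ : Frob O 11 φ) :
    ∃ J : ℤ, (J : ZMod (2 ^ K)) = px k K r₁ r₂ (uu d k K r₁ r₂ ν) (-ρ φ) ∧
      (eps d = 2 → J % 8 = 4) ∧ (eps d = 1 → J % 4 = 2) := by
  obtain ⟨h, w, ⟨h', rfl⟩, ⟨w', rfl⟩, e1, e2⟩ := C.ht.fr11 O φ r₁ r₂ hO hφ (cdR C _ (by simp))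
    (cdR C _ (by simp)) C.rd₁.n11 C.rd₂.n11
  obtain ⟨x, hx⟩ : ∃ x, x = px k K r₁ r₂ (uu d k K r₁ r₂ ν) (-ρ φ) := ⟨_, rfl⟩
  have e3 : (2 * h' + 1) • px k K r₁ r₂ (uu d k K r₁ r₂ ν) (ρ φ) =
      (2 * w' + 1) • px k K r₁ r₂ (uu d k K r₁ r₂ ν) ν := by
    rw [← map_zsmul, ← map_zsmul]
    exact px_congr _ (by simpa using e1) (by simpa using e2)
  rw [px_nu C, ← neg_neg (ρ φ), map_neg, ← hx] at e3
  have e4 := val_mod C (J := (2 * h' + 1) * x.val + (2 * w' + 1) * (2 * eps d)) (x := 0) (by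
    simp only [zsmul_eq_mul] at e3
    push_cast at e3 ⊢
    rw [ZMod.natCast_zmod_val]
    linear_combination -e3)
  rw [ZMod.val_zero] at e4
  refine ⟨x.val, by simp [hx], fun e => ?_, fun e => ?_⟩ <;> rw [e] at e4 <;>
    generalize (x.val : ℤ) = y at e4 ⊢
  · have h4 : (4 : ℤ) ∣ y := by
      obtain ⟨z, hz⟩ : (4 : ℤ) ∣ (2 * h' + 1) * y := by omega
      exact ⟨(2 * h' + 1) * z - (h' ^ 2 + h') * y, by linear_combination (2 * h' + 1) * hz⟩
    obtain ⟨z, rfl⟩ := h4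
    have : (2 * h' + 1) * (4 * z) = 8 * (h' * z) + 4 * z := by ring
    omega
  · have : (2 * h' + 1) * y = 2 * (h' * y) + y := by ring
    obtain ⟨z, rfl⟩ : (2 : ℤ) ∣ y := by omega
    have : (2 * h' + 1) * (2 * z) = 4 * (h' * z) + 2 * z := by ring
    omega

theorem tw_GK (n : Finset ℕ) {σ : G} (h : σ (om q) = om q) : cq (twA q d n) σ = cq d σ := by
  rcases twA_or q d n with e | e <;> rw [e]
  exact cq_qd_fix C.qd.qf.pr.ne_zero C.td.ne h

theorem tw_sign (n : Finset ℕ) :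
    (twA q d n).sign = s0 d δ * chi (DD d c) (nv d ν) * (-1) ^ n.card := by
  have hq : (q : ℤ).sign = 1 := Int.sign_eq_one_of_pos (by exact_mod_cast C.qd.qf.pr.pos)
  have hd : d.sign = 1 ∨ d.sign = -1 := by
    rcases lt_or_gt_of_ne C.td.ne with h | h
    exacts [Or.inr (Int.sign_eq_neg_one_of_neg h), Or.inl (Int.sign_eq_one_of_pos h)]
  have h1 : s0 d δ * chi (DD d c) (nv d ν) = -(wA d * d.sign) := by
    unfold s0 nv wA
    split_ifs with h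
    · have : chi (DD d c) (0 : A k) = 1 := by simp [chi, sg]
      rcases hd with e | e <;> simp [this, e]
    · have e : DD d c = c.natAbs.primeFactors := by rw [DD, ee_neg h, one_mul]
      have e2 := C.td.eq
      rw [ee_neg h, mul_one] at e2
      rw [jac_abs, e, chi_nu C.ht C.td.fam (e ▸ cdD C), jac_fam C.td.fam, e2, jacobiSym.mul_left]
      ring
  rw [h1, twA, apply_ite Int.sign, Int.sign_neg, Int.sign_mul, hq]
  rcases wA_or C.td.ne with a1 | a1 <;> rcases neg_one_pow_eq_or ℤ n.card with a3 | a3 <;>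
    rcases hd with a4 | a4 <;> simp [a1, a3, a4]

theorem tw_not (n : Finset ℕ) {σ : G} (h : σ (om q) ≠ om q) : cq (twA q d n) σ =
    cq δ (σ * cj) * s0 d δ * chi (DD d c) (nv d ν + ρ (σ * cj)) * (-1) ^ n.card := by
  have e : σ = σ * cj * cj := by rw [mul_assoc, cj_mul_cj, mul_one]
  have h1 := chi_sub (cdD C) (nv d ν + ρ (σ * cj)) (ρ (σ * cj))
  rw [add_sub_cancel_right] at h1
  conv_lhs => rw [e]
  rw [cq_mul, tw_GK C n (not_GK h), cq_GK C (not_GK h),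
    cq_cj (twA_ne C.td.ne C.qd.qf.pr.ne_zero n), tw_sign C, h1]
  rcases chi_or (DD d c) (ρ (σ * cj)) with a2 | a2 <;> rw [a2] <;> ring

theorem invQ (n : Finset ℕ) (σ : G) :
    σ • (sys C).Q n 0 - cq (twA q d n) σ • (sys C).Q n 0 ∈ (sys C).D m := by
  by_cases h : σ (om q) = om q
  · rw [tw_GK C n h]
    exact (sys C).sh_Q0 (am C) (sh_GK C h) n
  · rw [tw_not C n h]
    exact (sys C).rf_Q0 (am C) (rf_not C h) n

theorem fixQ {n : Finset ℕ} {σ : G} (h : σ (om q) = om q) (h0 : ∀ p ∈ n, ρ σ p = 0) :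
    cq (twA q d n) σ • σ • (sys C).Q n 0 = (sys C).Q n 0 := by
  rw [(sys C).sh_exact (sh_GK C h) fun p hp => by simp [pa, h0 p hp], tw_GK C n h, smul_smul,
    cq_sq, one_smul]

theorem fixQ0 (σ : G) : cq (twA q d ∅) σ • σ • (sys C).Q ∅ 0 = (sys C).Q ∅ 0 := by
  by_cases h : σ (om q) = om q
  · exact fixQ C h (by simp)
  · have e := tw_not C ∅ h
    rw [card_empty, pow_zero, mul_one] at e
    rw [(sys C).rf_exact (rf_not C h), ← e, smul_smul, cq_sq, one_smul]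

end Pool.Agent.Lib.MP_d6ddbd_nt.KA.K
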