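import Pool.Agent.Lib.MP_d6ddbd_nt.KA.KE
import Pool.Agent.Lib.MP_d6ddbd_nt.KA.M11
import Pool.Agent.Lib.MP_d6ddbd_nt.K11.KB1

/-! The local shape at the prime eleven of the cocycles of a Heegner system. -/

set_option autoImplicit false
set_option maxSynthPendingDepth 3

open Pool.Agent.Lib.MP_d6ddbd_nt.K11
open Pool.Agent.Lib.MP_d6ddbd_nt.K11.KK (Sys Co AlgS Sh gz coe_sm coe_two)
open Pool.Agent.Lib.MP_d6ddbd_nt.KI (rt cq tw cq_or cq_sq)

noncomputable section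

namespace Pool.Agent.Lib.MP_d6ddbd_nt.KA

namespace KE

section

variable {Γ E P : Type*} [Group Γ] [AddCommGroup E] [DistribMulAction Γ E] [DecidableEq P]
  {k m : ℕ} {H : Sys Γ E P k m}

/-- The cocycle of a half point, written with the twisted action. -/
theorem coc_tw {X u : E} {g : Γ} {η : ℤ} (hη : η = 1 ∨ η = -1) (hX : (2 : ℤ) • X ∈ H.A)
    (hu : u ∈ H.A) (e : (2 : ℤ) • u = η • g • (2 : ℤ) • X - (2 : ℤ) • X) :
    H.coc X g = η • g • X - X - u := by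
  rcases hη with rfl | rfl
  · rw [one_smul] at e ⊢
    exact H.coc_eq hu e.symm
  · rw [H.coc_eq (u := u + g • (2 : ℤ) • X) (H.A.add_mem hu (H.stab g _ hX))
      (by rw [smul_add, e]; generalize g • (2 : ℤ) • X = y; module), gz]
    generalize g • X = y
    module

theorem ex_u {X : E} (h : H.Inv X) (g : Γ) {η : ℤ} (hη : η = 1 ∨ η = -1) :
    ∃ u ∈ H.A, (2 : ℤ) • u = η • g • (2 : ℤ) • X - (2 : ℤ) • X := by
  obtain ⟨u, hu, e, -⟩ := h.ex g
  rcases hη with rfl | rfl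
  · exact ⟨u, hu, by rw [one_smul, e]⟩
  · exact ⟨u - g • (2 : ℤ) • X, H.A.sub_mem hu (H.stab g _ h.1), by
      rw [smul_sub, ← e]
      generalize g • (2 : ℤ) • X = y
      module⟩

end

/-- The algebraic points on which inertia acts through the character of `-11`. -/
def NA (hR : R1Stmt) (O : ValuationSubring ℂ) : AddSubgroup (AlgS hR) where
  carrier := {x | An O x.1}
  zero_mem' := M11.an_zero
  add_mem' := fun hx hy => M11.an_add hx hy
  neg_mem' := fun hx => M11.an_neg hx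

theorem mem_NA {hR : R1Stmt} {O : ValuationSubring ℂ} {x : AlgS hR} :
    x ∈ NA hR O ↔ ∀ σ : G, Frob O 1 σ → σ • x = cq (-11) σ • x :=
  ⟨fun h σ hσ => Subtype.ext (h.2 σ hσ),
    fun h => ⟨x.2, fun σ hσ => congrArg Subtype.val (h σ hσ)⟩⟩

theorem tele (x : ℕ → ZMod 2) (b : ℕ → ZMod 2) (h0 : b 0 = x 0)
    (h : ∀ j, b (j + 1) = x j + x (j + 1)) (T : ℕ) : ∑ j ∈ Finset.range (T + 1), b j = x T := by
  induction T with
  | zero => simpa using h0
  | succ T ih =>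
    rw [Finset.sum_range_succ, ih, h]
    generalize x T = s
    generalize x (T + 1) = t
    revert s t
    decide

end KE

theorem at11_sys (hN : N11Stmt) (hG : G11Stmt) {hR : R1Stmt} {P : Type} [DecidableEq P]
    {k m M : ℕ} (H : Sys G (AlgS hR) P k m) (L : H.Lev M) (hk : M + 9 ≤ k)
    (hm : (M + 1) / 2 + 3 ≤ m) (h8 : ∀ p, (8 : ℤ) ∣ H.a p) {d : ℤ} {O : ValuationSubring ℂ} {φ : G}
    (hO : Ov O 11) (hφ : Frob O 11 φ) (h11 : cq (-11) φ = 1)
    (hI : ∀ σ : G, Frob O 1 σ → cq d σ = cq (-11) σ) {n : Finset P}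
    (hY : ∀ (σ : G) f, Frob O 1 σ → KK.Dep n f → σ • H.Y n f = cq d σ • H.Y n f)
    {c : Co P k m} {J : ℤ} (hc : Sh H.Y φ (cq d φ) c) (hJ : (J : ZMod (2 ^ k)) = c.1)
    (j1 : cq d φ = -1 → J % 8 = 4) (j2 : cq d φ = 1 → J % 4 = 2) (X : ℕ → AlgS hR)
    (xA : ∀ i, (2 : ℤ) • X i ∈ H.A)
    (xQ : ∀ i, i ≤ M / 2 → (2 : ℤ) ^ (M / 2 - i) • (2 : ℤ) • X i = H.Q n (2 * i + M % 2))
    (x0 : ∀ i, M / 2 < i → X i = 0) :
    ∃ a b : ℕ → ZMod 2, (∀ j, L11 d O φ (fun σ => (H.coc (X j) σ : Pt)) (a j) (b j)) ∧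
      (cq d φ = -1 → b 0 = 0 ∧ b 1 = a 0 ∧ ∀ j, b (j + 2) = a (j + 1) + a j) ∧
      (cq d φ = 1 → (∀ j, a j = 0) ∧ ∑ j ∈ Finset.range (M / 2 + 1), b j = 0) := by
  classical
  obtain ⟨e₁, e₂, e₃, A, B, h⟩ := (hN O hO).1
  obtain ⟨κ, hκ⟩ := hG O φ e₁ e₂ e₃ A B hO hφ h11 h
  have inv : ∀ i, H.Inv (X i) := by
    intro i
    by_cases hi : i ≤ M / 2
    · exact L.inv (b := 2 * i + M % 2) (by omega) (xA i) (xQ i hi)
    · rw [x0 i (by omega)]; exact H.inv_zero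
  choose u uA ue using fun i => KE.ex_u (inv i) φ (cq_or d φ)
  obtain ⟨k1, k2⟩ := ke_thm G (AlgS hR) P k m M H (KE.NA hR O) (fun x => κ x.1) φ (cq d φ) J c n
    (fun i => (2 : ℤ) • X i) u L hk hm h8
    (fun f hf => KE.mem_NA.2 fun σ hσ => by rw [hY σ f hσ hf, hI σ hσ])
    (fun x hx h2 => KE.mem_NA.2 fun σ hσ => H.cancel 1 (H.stab σ x hx) (H.A.zsmul_mem hx _) (by
      rw [pow_one, ← gz, KE.mem_NA.1 h2 σ hσ, smul_comm]))
    (fun x hx => hκ.neg x.1 hx) (fun x hx y hy => hκ.add x.1 y.1 hx hy) hc hJ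
    (fun i => ⟨xA i, uA i, ue i, xQ i, fun hi => by rw [x0 i hi, smul_zero]⟩)
  have hm : ∀ i, (2 : ℤ) • X i ∈ KE.NA hR O ∧ u i ∈ KE.NA hR O := by
    rcases cq_or d φ with e | e
    exacts [(k2 e (j2 e)).1, (k1 e (j1 e)).1]
  simp only [coe_two] at k1 k2
  refine ⟨fun j => if 2 * κ (2 • (X j).1) = 0 then 0 else 1,
    fun j => (if κ (u j).1 = 0 then 0 else 1) +
      (if cq d φ = 1 ∧ κ (2 • (X j).1) ≠ 0 then 1 else 0), fun j => ?_, fun e => ?_, fun e => ?_⟩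
  · refine m11_thm d O φ _ κ _ (X j).1 (u j).1 _ _ hκ hI (coe_two (X j) ▸ (hm j).1) (hm j).2
      (fun σ hσ => ?_) ?_ ?_ (fun e => (k2 e (j2 e)).2.1 j) (by simp) rfl
    · have := KE.coc_tw (H := H) (g := σ) (u := 0) (cq_or d σ) (xA j) H.A.zero_mem (by
        rw [KE.mem_NA.1 (hm j).1 σ hσ, smul_smul, hI σ hσ, cq_sq, one_smul, sub_self, smul_zero])
      rw [sub_zero] at this
      exact congrArg Subtype.val this
    · exact congrArg Subtype.val (KE.coc_tw (cq_or d φ) (xA j) (uA j) (ue j))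
    · rw [← coe_two, ← coe_two]
      exact congrArg Subtype.val (ue j)
  · obtain ⟨-, a0, a1, a2⟩ := k1 e (j1 e)
    have e' : ¬ cq d φ = 1 := by omega
    simp only [e', false_and, if_false, add_zero, a0, a1, a2, if_true, true_and]
    intro j
    generalize κ (2 • (X (j + 1)).1) = s
    generalize κ (2 • (X j).1) = t
    revert s t
    decide
  · obtain ⟨-, a0, a1, a2⟩ := k2 e (j2 e)
    refine ⟨fun j => if_pos (a0 j), ?_⟩
    rw [KE.tele (fun j => if κ (2 • (X j).1) = 0 then 0 else 1) _ (by simp [a1, e])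
      (fun j => by simp [a2, e])]
    have h1 := ue (M / 2 + 1)
    rw [x0 _ (Nat.lt_succ_self _), smul_zero, smul_zero, smul_zero, sub_zero] at h1
    have h2 := a2 (M / 2)
    rw [H.tf _ (uA _) h1] at h2
    exact if_pos (h2.symm.trans (M11.ka_zero hκ))

end Pool.Agent.Lib.MP_d6ddbd_nt.KA
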