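import Pool.Agent.Lib.MP_d6ddbd_nt.KA.Stmt
import Pool.Agent.Lib.MP_d6ddbd_nt.KI.SubA
import Pool.Agent.Lib.MP_d6ddbd_nt.K11.AllX

/-!
The two-converse for all quadratic twists of `X₀(11)`: the twisted Heegner system exists, and the
hypotheses of the construction of the cocycles can be met.
-/

set_option autoImplicit false

open Pool.Agent.Lib.MP_d6ddbd_nt.K11
open Pool.Agent.Lib.MP_d6ddbd_nt.KI (KolI Wq Gp)

noncomputable section

namespace Pool.Agent.Lib.MP_d6ddbd_nt.KA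

theorem ht_thm (hX : XAStmt) (hG : Gen2Stmt) (hP : PSStmt) (hQ : QSStmt) (hA : PAStmt) :
    HTStmt := by
  intro q δ k hq h8 hδ he hk
  have : Fact (q % 4 = 3) := ⟨hq.m4⟩
  obtain ⟨Pp, a, t0, hx⟩ := hX
  obtain ⟨N, hN⟩ := hG q hq.pr hq.big h8
  obtain ⟨b, hb⟩ := ((kerAll q hq.pr hq.big 1 one_ne_zero).2.2.2.2.1 11 (by norm_num)
    (by norm_num)).1 hq.s11
  have hr : Rt q 2 0 := by
    obtain ⟨n, hn⟩ : ∃ n : ℕ, (q + 1) / 4 = 2 * n := ⟨(q + 1) / 8, by omega⟩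
    refine ⟨n, ?_⟩
    rw [hn]
    push_cast
    ring
  obtain ⟨P, hp⟩ := hP Pp a t0 hx q hq.pr hq.big b 0 N hb hr hN
  obtain ⟨S, ρ, ν, j, h⟩ := hA Pp a t0 hx.xi q hq b δ _ k hb
    (hQ Pp a t0 hx q hq h8 b 0 δ N P hb hr hN hp hδ he) hk
  exact ⟨a, S, ρ, ν, j, h⟩

namespace KHa

open Classical in
/-- The exponents of the coordinates. -/
def kk (q : ℕ) (d c : ℤ) (K r₁ r₂ m l : ℕ) : ℕ :=
  if l.Prime ∧ (l : ℤ) ∣ ee d * c then 1 else if l = r₁ ∨ l = r₂ then K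
    else if KolI m q c l then m else 0

variable {q K r r₁ r₂ m l : ℕ} {d c : ℤ}

theorem dvd_ee (hl : l.Prime) (h : (l : ℤ) ∣ ee d * c) : l = 11 ∨ (l : ℤ) ∣ c := by
  rcases (Nat.prime_iff_prime_int.1 hl).dvd_or_dvd h with e | e
  · rw [ee] at e
    split_ifs at e
    · left
      have h1 : l ∣ 11 := by
        have := Int.dvd_neg.1 e
        exact_mod_cast this
      exact (Nat.prime_dvd_prime_iff_eq hl (by norm_num)).1 h1
    · exact absurd (Int.natCast_dvd.1 e) (by simpa using hl.ne_one)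
  · exact Or.inr e

theorem kk_d (h : l.Prime) (h' : (l : ℤ) ∣ ee d * c) : kk q d c K r₁ r₂ m l = 1 :=
  if_pos ⟨h, h'⟩

theorem kk_r (h : RD q c K r) (e : r = r₁ ∨ r = r₂) : kk q d c K r₁ r₂ m r = K := by
  rw [kk, if_neg fun e => (dvd_ee e.1 e.2).elim h.n11 h.nd, if_pos e]

theorem kk_kol (h₁ : RD q c K r₁) (h₂ : RD q c K r₂) (hp : KolI m q c l) :
    kk q d c K r₁ r₂ m l = m := by
  have : ¬ (l = r₁ ∨ l = r₂) := by
    rintro (rfl | rfl)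
    · exact one_ne_zero (hp.ty.symm.trans h₁.ty)
    · exact one_ne_zero (hp.ty.symm.trans h₂.ty)
  rw [kk, if_neg fun e => (dvd_ee e.1 e.2).elim hp.n11 hp.nd, if_neg this, if_pos hp]

theorem kk_le (l : ℕ) : kk q d c K r₁ r₂ m l ≤ K + m + 1 := by
  rw [kk]
  split_ifs <;> omega

theorem adm (hq : QD q c) (h₁ : RD q c K r₁) (h₂ : RD q c K r₂) :
    AdA q (kk q d c K r₁ r₂ m) := fun l hl => by
  by_cases h1 : l.Prime ∧ (l : ℤ) ∣ ee d * c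
  · have h0 := dvd_ee h1.1 h1.2
    have h2 : l ≠ 2 := by
      rcases h0 with e | e
      · omega
      · exact Main.d_ne_two hq.fam e
    have h3 := h1.1.eq_two_or_odd.resolve_left h2
    rw [kk_d h1.1 h1.2]
    refine ⟨h1.1, h2, ?_, fun _ => by omega, fun _ => by omega⟩
    rintro rfl
    rcases h0 with e | e
    · have := hq.qf.big
      omega
    · exact hq.nd e
  by_cases h2 : l = r₁ ∨ l = r₂
  · have h : RD q c K l := by
      rcases h2 with rfl | rfl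
      exacts [h₁, h₂]
    rw [kk_r h h2]
    exact ⟨h.pr, h.n2, h.nq, fun e => absurd e h.inert, fun _ => h.dv⟩
  by_cases h3 : KolI m q c l
  · rw [kk_kol h₁ h₂ h3]
    exact ⟨h3.pr, h3.n2, h3.nq, fun e => absurd e h3.inert, fun _ => h3.dv⟩
  · exact absurd (by rw [kk, if_neg h1, if_neg h2, if_neg h3]) hl

end KHa

open KHa in
theorem kh_thm (hA : AuxStmt) (hT : HTStmt) : KHStmt := by
  classical
  intro q d δ c s hd hq h8 he
  have h1 : ∀ l : ℕ, ∃ π, l.Prime → (l : ℤ) ∣ c → Gen q l π := fun l => by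
    by_cases h : l.Prime ∧ (l : ℤ) ∣ c
    · obtain ⟨π, hπ⟩ := odd_thm pic_thm kerAll q l hq.qf h.1 (Main.d_ne_two hq.fam h.2)
        (by rintro rfl; exact hq.nd h.2) (hq.spl l h.1 h.2)
      exact ⟨π, fun _ _ => hπ⟩
    · exact ⟨0, fun h1 h2 => absurd ⟨h1, h2⟩ h⟩
  choose π hπ using h1
  obtain ⟨K, hK⟩ : ∃ K, K = 2 * TT d c + 9 := ⟨_, rfl⟩
  obtain ⟨m, hm⟩ : ∃ m, m = TT d c + s + 4 := ⟨_, rfl⟩
  obtain ⟨r₁, O₁, -, hr₁, hO₁, g₁⟩ := hA q c K 0 π (fun l => if nr l = 1 then 0 else 1) hq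
    (by omega) (fun l => by split_ifs <;> omega) hπ
  obtain ⟨r₂, O₂, hlt, hr₂, hO₂, g₂⟩ := hA q c K r₁ π (fun _ => 2) hq (by omega)
    (fun _ => le_rfl) hπ
  obtain ⟨k, hk⟩ : ∃ k, k = kk q d c K r₁ r₂ m := ⟨_, rfl⟩
  have kd : ∀ l : ℕ, l.Prime → (l : ℤ) ∣ ee d * c → k l = 1 := fun l a b => hk ▸ kk_d a b
  have k₁ : k r₁ = K := hk ▸ kk_r hr₁ (Or.inl rfl)
  have k₂ : k r₂ = K := hk ▸ kk_r hr₂ (Or.inr rfl)
  have kp : ∀ p, KolI m q c p → k p = m := fun p hp => hk ▸ kk_kol hr₁ hr₂ hp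
  obtain ⟨a, S, ρ, ν, j, hs⟩ := hT q δ k hq.qf h8 hd.dl he (hk ▸ adm hq hr₁ hr₂)
  have h3 : ∀ v : ℕ, ∃ π : ℂ, v = 2 ∨ v = 11 → (π ∈ OK q ∧ π ≠ 0) ∧
      ∃ (O : ValuationSubring ℂ) (φ : G), Ov O v ∧ Frob O v φ ∧ φ (om q) = om q ∧
        ∀ p O', KolI m q c p → Ov O' p →
          (starRingEnd ℂ π / π) ^ ((p + 1) / 2 ^ m) - 1 ∈ O'.nonunits → ρ φ p = 0 := fun v => by
    by_cases hv : v = 2 ∨ v = 11
    · have vp : v.Prime := by rcases hv with rfl | rfl <;> norm_num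
      obtain ⟨O, hO⟩ := vAll.1.1 v vp
      obtain ⟨φ, hφ⟩ := vAll.1.2.2.2.2 v O vp hO
      have hG : φ (om q) = om q := by
        rcases hv with rfl | rfl
        · exact KI.SubA.frob_two h8 hO hφ
        · exact (vAll.2.1.2.2.2.2.2.2.2.1 q 11 O φ hq.qf.pr hq.qf.m4 vp (by norm_num)
            (by have := hq.qf.big; omega) hO hφ).2 hq.qf.s11
      obtain ⟨π, p1, ⟨h, p2⟩, p3⟩ := hs.pi v O φ vp hO hφ hG
      refine ⟨π, fun _ => ⟨⟨p1, fun z => ?_⟩, O, φ, hO, hφ, hG, fun p O' hp h1 h2 =>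
        p3 p O' (by rw [kp p hp]; omega) ?_ hp.inert h1 (by rwa [kp p hp])⟩⟩
      · rw [z, map_zero] at p2
        have : (0 : ℝ) < (v : ℝ) ^ h := pow_pos (by exact_mod_cast vp.pos) h
        exact this.ne p2
      · rcases hv with rfl | rfl
        exacts [hp.n2, hp.n11]
    · exact ⟨0, fun h => absurd h hv⟩
  choose π' hπ' using h3
  choose w hw using fun v : ℕ =>
    IsAlgClosed.exists_pow_nat_eq (starRingEnd ℂ (π' v) / π' v) (Nat.two_pow_pos m)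
  have hv : ∀ l : ℕ, l.Prime → (l : ℤ) ∣ c → ∀ r O, RD q c K r → k r = K → Ov O r → ∀ i ≤ 2,
      (2 ^ i ∣ (j l r).val ↔
        (starRingEnd ℂ (π l) / π l) ^ ((r + 1) / 2 ^ i) - 1 ∈ O.nonunits) :=
    fun l hl hc r O hr e hO i hi => hs.val l r (π l) i O
      (by rw [kd l hl (hc.mul_left _)]; omega) (hq.spl l hl hc) (by omega) hr.inert (by omega)
      (hπ l hl hc) hO
  refine ⟨K, r₁, r₂, m, k, {w 2, w 11}, a, S, ρ, ν, j, fun u hu => ?_, hd, hq, h8, hr₁, hr₂,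
    hlt.ne, hK.ge, hm.ge, kd, k₁, k₂, kp, ⟨K + m + 1, fun l => hk ▸ kk_le l⟩, hs,
    fun l hl hc => ?_, fun l hl hc => ?_, fun v hv => ?_⟩
  · obtain ⟨v, hv, rfl⟩ : ∃ v, (v = 2 ∨ v = 11) ∧ u = w v := by
      rcases Finset.mem_insert.1 hu with h | h
      · exact ⟨2, Or.inl rfl, h⟩
      · exact ⟨11, Or.inr rfl, Finset.mem_singleton.1 h⟩
    exact ⟨π' v, (hπ' v hv).1.1, (hπ' v hv).1.2, hw v⟩
  · have h5 := hv l hl hc r₁ O₁ hr₁ k₁ hO₁ 1 (by omega)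
    have h6 := hv l hl hc r₁ O₁ hr₁ k₁ hO₁ 2 le_rfl
    obtain ⟨f1, f2⟩ := g₁ l hl hc
    refine ⟨fun e => ?_, fun e => ?_⟩
    · simp only [e, if_true] at f2
      have := mt h5.1 (f2 (by omega))
      omega
    · have e' : ¬ nr l = 1 := by omega
      simp only [e', if_false] at f1 f2
      have h7 := h5.2 (f1 1 le_rfl)
      have h9 := mt h6.1 (f2 (by omega))
      omega
  · have h7 := (hv l hl hc r₂ O₂ hr₂ k₂ hO₂ 2 le_rfl).2 ((g₂ l hl hc).1 2 le_rfl)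
    omega
  · obtain ⟨-, O, φ, p2, p3, p4, p5⟩ := hπ' v hv
    refine ⟨O, φ, p2, p3, p4, fun p hp hg => ?_⟩
    obtain ⟨O', f, g⟩ := hg
    refine p5 p O' hp f ?_
    rw [← hw, ← pow_mul, Nat.mul_div_cancel' hp.dv]
    exact g _ (by rcases hv with rfl | rfl <;> simp)

end Pool.Agent.Lib.MP_d6ddbd_nt.KA
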