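import Pool.Agent.Lib.MP_d6ddbd_nt.KA.Stmt
import Pool.Agent.Lib.MP_d6ddbd_nt.K11.Ker
import Pool.Agent.Lib.MP_d6ddbd_nt.K11.Pic

/-!
The Heegner points of conductor `i n`, `i ∣ 8`.
-/

set_option autoImplicit false
set_option maxSynthPendingDepth 3

open Pointwise
open Pool.Agent.Lib.MP_d6ddbd_nt.K11

noncomputable section

namespace Pool.Agent.Lib.MP_d6ddbd_nt.KA

namespace PSb

theorem un_val {l : ℕ} (h : l.Coprime 8) : ((un l : (ZMod 8)ˣ) : ZMod 8) = l := by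
  rw [un, dif_pos h]; rfl

theorem un11 : un 11 = un 3 :=
  Units.ext (by rw [un_val (by norm_num), un_val (by norm_num)]; decide)

theorem inv8 (t : (ZMod 8)ˣ) : t⁻¹ = t := by
  revert t; decide

theorem un5_ne : un 5 ≠ 1 := fun h => by
  have := congrArg Units.val h
  rw [un_val (by norm_num)] at this
  revert this; decide

theorem un3_ne : un 3 ≠ 1 := fun h => by
  have := congrArg Units.val h
  rw [un_val (by norm_num)] at this
  revert this; decide

theorem un3_ne5 : un 3 ≠ un 5 := fun h => by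
  have := congrArg Units.val h
  rw [un_val (by norm_num), un_val (by norm_num)] at this
  revert this; decide

theorem dvd8 {i : ℕ} (h : i ∣ 8) : i = 1 ∨ i = 2 ∨ i = 4 ∨ i = 8 := by
  have := Nat.le_of_dvd (by norm_num) h
  interval_cases i <;> simp_all

theorem ok_ne {n : ℕ} (h : Ok n) : n ≠ 0 := h.1.ne_zero

theorem mul_ne {n i : ℕ} (h : n ≠ 0) (hi : i ∣ 8) : i * n ≠ 0 :=
  mul_ne_zero (ne_zero_of_dvd_ne_zero (by norm_num) hi) h

theorem ndvd {n i l : ℕ} (hi : i ∣ 8) (hl : l.Prime) (h2 : l ≠ 2) (h : ¬ l ∣ n) : ¬ l ∣ i * n :=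
  fun d => ((Nat.Prime.dvd_mul hl).1 d).elim (fun e => h2 ((Nat.prime_dvd_prime_iff_eq hl
    Nat.prime_two).1 (hl.dvd_of_dvd_pow (n := 3) (e.trans hi)))) h

theorem n121 {n i : ℕ} (h : Ok n) (hi : i ∣ 8) : ¬ 121 ∣ i * n := fun d => by
  have c : Nat.Coprime 121 i := Nat.Coprime.coprime_dvd_right hi (by norm_num)
  have := h.1 11 (c.dvd_of_dvd_mul_left d)
  simp at this

variable {q : ℕ} [hq : Fact (q % 4 = 3)]

theorem res_self {c : ℕ} (x : Pic q c) : res c x = x := by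
  have := (cl_out x).res (dvd_refl c)
  rw [(cl_out x).inv.1] at this
  exact this.unique (cl_out x)

theorem hQ_cast (Pp : Submodule ℤ ℂ → Submodule ℤ ℂ → Pt) (b : ℤ) {m c c' : ℕ} (h : c = c')
    (y : Pic q m) : hQ Pp b (res c y) = hQ Pp b (res c' y) := by
  subst h; rfl

theorem res_cast {m c c' : ℕ} (h : c = c') (y y' : Pic q m) :
    res c y = res c y' ↔ res c' y = res c' y' := by
  subst h; rfl

variable {N : Pic q 8 →* (ZMod 8)ˣ}

open Classical in
/-- The lift to conductor `8 n`. -/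
def Y (hN : NN N) (n : ℕ) (x : Pic q n) (t : (ZMod 8)ˣ) : Pic q (8 * n) :=
  if h : Odd n then (hN.lift n h x t).exists.choose else 1

theorem Y_spec (hN : NN N) {n : ℕ} (h : Odd n) (x : Pic q n) (t : (ZMod 8)ˣ) :
    res n (Y hN n x t) = x ∧ N (res 8 (Y hN n x t)) = t := by
  rw [Y, dif_pos h]
  exact (hN.lift n h x t).exists.choose_spec

theorem Y_eq (hN : NN N) {n : ℕ} (h : Odd n) {x : Pic q n} {t : (ZMod 8)ˣ} {y : Pic q (8 * n)}
    (h1 : res n y = x) (h2 : N (res 8 y) = t) : y = Y hN n x t :=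
  (hN.lift n h x t).unique ⟨h1, h2⟩ (Y_spec hN h x t)

/-- The classes modulo `8` that agree at level `i`. -/
def Kr (i : ℕ) (t t' : (ZMod 8)ˣ) : Prop :=
  (i = 4 → t' = t ∨ t' = un 5 * t) ∧ (i = 8 → t' = t)

theorem key (hN : NN N) {n i : ℕ} (h : Odd n) (hi : i ∣ 8) {y y' : Pic q (8 * n)}
    (e : res n y = res n y') :
    res (i * n) y = res (i * n) y' ↔ Kr i (N (res 8 y)) (N (res 8 y')) := by
  rcases dvd8 hi with rfl | rfl | rfl | rfl
  · exact ⟨fun _ => ⟨by simp, by simp⟩, fun _ => (res_cast (one_mul n) y y').2 e⟩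
  · exact ⟨fun _ => ⟨by simp, by simp⟩, fun _ => (hN.ker n h y y' e).1⟩
  · exact ⟨fun k => ⟨fun _ => (hN.ker n h y y' e).2.1 k, by simp⟩,
      fun k => (hN.ker n h y y' e).2.2 (k.1 rfl)⟩
  · rw [res_self, res_self]
    exact ⟨fun k => ⟨by simp, fun _ => by rw [k]⟩, fun k =>
      (Y_eq hN h rfl rfl).trans (Y_eq hN h e.symm (k.2 rfl)).symm⟩

theorem mul8 {n i : ℕ} (hi : i ∣ 8) : i * n ∣ 8 * n := Nat.mul_dvd_mul_right hi n

theorem res_Y (hN : NN N) {n l : ℕ} (hn : Odd n) (hl : Odd l) (y : Pic q (l * n))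
    (t : (ZMod 8)ˣ) : res (8 * n) (Y hN (l * n) y t) = Y hN n (res n y) t := by
  have d : 8 * n ∣ 8 * (l * n) := Nat.mul_dvd_mul_left 8 (dvd_mul_left n l)
  obtain ⟨a1, a2⟩ := Y_spec hN (hl.mul hn) y t
  refine Y_eq hN hn ?_ ?_
  · rw [res_res d (dvd_mul_left n 8), ← res_res (dvd_mul_left (l * n) 8) (dvd_mul_left n l), a1]
  · rw [res_res d (dvd_mul_right 8 n), a2]

/-- The map between the fibres. -/
def emb (hN : NN N) {m : ℕ} (hm : Odd m) {i : ℕ} (hi : i ∣ 8) (t : (ZMod 8)ˣ) :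
    Pic q m ↪ Pic q (i * m) :=
  ⟨fun y => res (i * m) (Y hN m y t), fun y y' e => by
    have := congrArg (res m) e
    simp only [res_res (mul8 hi) (dvd_mul_left m i)] at this
    rwa [(Y_spec hN hm y t).1, (Y_spec hN hm y' t).1] at this⟩

theorem fib (hp : q.Prime) (hN : NN N) {n l i : ℕ} (n0 : n ≠ 0) (hn : Odd n) (hl : Odd l)
    (hi : i ∣ 8) (x : Pic q n) (t : (ZMod 8)ˣ) (s : Finset (Pic q (l * n)))
    (hs : ∀ y, y ∈ s ↔ res n y = x) (z : Pic q (i * (l * n))) :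
    z ∈ s.map (emb hN (hl.mul hn) hi t) ↔ res (i * n) z = res (i * n) (Y hN n x t) := by
  have l0 : l ≠ 0 := by rintro rfl; simp at hl
  have d : 8 * n ∣ 8 * (l * n) := Nat.mul_dvd_mul_left 8 (dvd_mul_left n l)
  have d' : i * n ∣ i * (l * n) := Nat.mul_dvd_mul_left i (dvd_mul_left n l)
  rw [Finset.mem_map]
  constructor
  · rintro ⟨y, hy, rfl⟩
    show res (i * n) (res (i * (l * n)) (Y hN (l * n) y t)) = _
    rw [res_res (mul8 hi) d', ← res_res d (mul8 hi), res_Y hN hn hl, (hs y).1 hy]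
  · intro e
    obtain ⟨w, rfl⟩ := Ker.res_surj hp (mul_ne_zero (by norm_num) (mul_ne_zero l0 n0))
      (mul8 (n := l * n) hi) z
    rw [res_res (mul8 hi) d', ← res_res d (mul8 hi)] at e
    have e1 : res n (res (8 * n) w) = res n (Y hN n x t) := by
      have := congrArg (res n) e
      rwa [res_res (mul8 hi) (dvd_mul_left n i), res_res (mul8 hi) (dvd_mul_left n i)] at this
    have k := (key hN hn hi e1.symm).1 e.symm
    rw [(Y_spec hN hn x t).2, res_res d (dvd_mul_right 8 n)] at k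
    refine ⟨res (l * n) w, (hs _).2 ?_, ?_⟩
    · rw [res_res (dvd_mul_left _ 8) (dvd_mul_left n l), ← res_res d (dvd_mul_left n 8), e1,
        (Y_spec hN hn x t).1]
    · obtain ⟨a1, a2⟩ := Y_spec hN (hl.mul hn) (res (l * n) w) t
      exact (key hN (hl.mul hn) hi a1).2 (by rw [a2]; exact k)

/-- Translation of the lift. -/
theorem mul_Y (hN : NN N) {n : ℕ} (hn : Odd n) (w : Pic q (8 * n)) (x : Pic q n)
    (t : (ZMod 8)ˣ) : w * Y hN n x t = Y hN n (res n w * x) (N (res 8 w) * t) :=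
  Y_eq hN hn (by rw [map_mul, (Y_spec hN hn x t).1])
    (by rw [map_mul, map_mul, (Y_spec hN hn x t).2])

theorem inv_Y (hN : NN N) {n : ℕ} (hn : Odd n) (x : Pic q n) (t : (ZMod 8)ˣ) :
    (Y hN n x t)⁻¹ = Y hN n x⁻¹ t :=
  Y_eq hN hn (by rw [map_inv, (Y_spec hN hn x t).1])
    (by rw [map_inv, map_inv, (Y_spec hN hn x t).2, inv8])

theorem lam_Y (hp : q.Prime) (hN : NN N) {n i l : ℕ} {r : ℤ} (hn : Odd n) (hi : i ∣ 8)
    (hl : l.Prime) (h2 : l ≠ 2) (hlq : l ≠ q) (hln : ¬ l ∣ n) (hr : Rt q l r) (x : Pic q n)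
    (t : (ZMod 8)ˣ) :
    lam q (i * n) l r * res (i * n) (Y hN n x t) =
      res (i * n) (Y hN n (lam q n l r * x) (un l * t)) ∧
    (lam q (i * n) l r)⁻¹ * res (i * n) (Y hN n x t) =
      res (i * n) (Y hN n ((lam q n l r)⁻¹ * x) (un l * t)) := by
  have h8 := ndvd (dvd_refl 8) hl h2 hln
  have a1 := Ker.res_lam hp hl hlq h8 hr (mul8 (n := n) hi)
  have a2 := Ker.res_lam hp hl hlq h8 hr (dvd_mul_left n 8)
  have a3 := Ker.res_lam hp hl hlq h8 hr (dvd_mul_right 8 n)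
  have a4 := hN.lam l r hl h2 hlq hr
  constructor
  · rw [← a1, ← map_mul, mul_Y hN hn, a2, a3, a4]
  · rw [← a1, ← map_inv, ← map_mul, mul_Y hN hn, map_inv, map_inv, map_inv, a2, a3, a4, inv8]

end PSb

open PSb in
theorem ps_thm (hG : GalAStmt) (hA : HkAStmt) (hE : HkEStmt) (hT : Hk2Stmt) : PSStmt := by
  intro Pp a t0 hX q hq hp h44 b r N hb hr hN
  have G := hG Pp a t0 hX.xi q hp h44 b
  have q11 : 11 ≠ q := by omega
  have p11 : Nat.Prime 11 := by norm_num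
  have P1 : ∀ (n : ℕ) (x : Pic q n) t, Odd n → hQ Pp b (res (1 * n) (Y hN n x t)) = hQ Pp b x :=
    fun n x t h => by rw [hQ_cast Pp b (one_mul n), (Y_spec hN h x t).1]
  have K : ∀ (n i : ℕ) (x : Pic q n) t t', Odd n → i ∣ 8 →
      (res (i * n) (Y hN n x t) = res (i * n) (Y hN n x t') ↔ Kr i t t') := fun n i x t t' h hi => by
    have := key hN h hi ((Y_spec hN h x t).1.trans (Y_spec hN h x t').1.symm)
    rwa [(Y_spec hN h x t).2, (Y_spec hN h x t').2] at this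
  refine ⟨fun n i x t => hQ Pp b (res (i * n) (Y hN n x t)), ?_, ?_, ?_, ?_, ?_, ?_, ?_, ?_, ?_,
    ?_, ?_, ?_, ?_⟩
  · intro x t
    exact (P1 1 x t odd_one).trans ((G 1 hb one_ne_zero (by norm_num) x).2.2.2.1 (by norm_num)).1
  · intro n i x t h hi
    exact (G _ hb (mul_ne (ok_ne h) hi) (n121 h hi) _).2.1
  · intro n i x t σ h hi hσ
    have R := (((pic_thm q hp h44).2 (8 * n) (mul_ne (ok_ne h) (dvd_refl 8))).2.2.2 σ hσ).2.2.2
    show _ = hQ Pp b _
    rw [(G _ hb (mul_ne (ok_ne h) hi) (n121 h hi) _).2.2.1 σ hσ, ← R _ (mul8 hi), ← map_mul,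
      mul_Y hN h.2, R _ (dvd_mul_left n 8), R _ (dvd_mul_right 8 n)]
  · intro n x t h
    refine ⟨(P1 n x t h.2).trans (P1 n x 1 h.2).symm, ?_, ?_⟩
    · exact congrArg (hQ Pp b) ((K n 2 x t 1 h.2 (by norm_num)).2 ⟨by simp, by simp⟩)
    · exact congrArg (hQ Pp b)
        ((K n 4 x t _ h.2 (by norm_num)).2 ⟨fun _ => Or.inr rfl, by simp⟩).symm
  · intro n i x t h hi h11
    show _ = t0 - hQ Pp b _
    rw [((G _ hb (mul_ne (ok_ne h) hi) (n121 h hi) _).2.2.2.1 (ndvd hi p11 (by norm_num) h11)).2,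
      ← map_inv, inv_Y hN h.2,
      (lam_Y hp hN h.2 hi p11 (by norm_num) q11 h11 (Ker.rt_symm hb) _ t).1, un11]
  · intro n i x t h hi h11
    show _ = hQ Pp b _
    rw [(G _ hb (mul_ne (ok_ne h) hi) (n121 h hi) _).2.2.2.2.1 (h11.mul_left i), ← map_inv,
      inv_Y hN h.2]
  · intro n i l x t s h hi hl h2 hlq hln hsp hs
    have h11 : l ≠ 11 := by
      rintro rfl
      exact hsp ((Ker.spl_iff hl h2).2 ⟨b, hb⟩)
    have ol := hl.odd_of_ne_two h2
    obtain ⟨a1, a2⟩ := (hA Pp a t0 hX.xi q hp h44 b (i * n) (i * (l * n)) l hb (mul_ne (ok_ne h) hi)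
      (n121 h hi) (by ring) hl h2 h11 hlq (ndvd hi hl h2 hln) _ _
      (fib hp hN (ok_ne h) h.2 ol hi x t s hs)).1 hsp
    rw [Finset.sum_map] at a1
    exact ⟨a1, fun O φ hO hφ y hy => a2 O φ hO hφ _ (Finset.mem_map_of_mem _ hy)⟩
  · intro n i l r' x t s h hi hl h2 h11 hlq hln hr' hs
    have ol := hl.odd_of_ne_two h2
    have a1 := (hA Pp a t0 hX.xi q hp h44 b (i * n) (i * (l * n)) l hb (mul_ne (ok_ne h) hi)
      (n121 h hi) (by ring) hl h2 h11 hlq (ndvd hi hl h2 hln) _ _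
      (fib hp hN (ok_ne h) h.2 ol hi x t s hs)).2 r' hr'
    obtain ⟨b1, b2⟩ := lam_Y hp hN h.2 hi hl h2 hlq hln hr' x t
    rw [Finset.sum_map, b1, b2] at a1
    exact a1
  · intro n i x t s h hi h11 hs
    have a1 := hE Pp a t0 hX q hp h44 b (i * n) (i * (11 * n)) hb (mul_ne (ok_ne h) hi)
      (ndvd hi p11 (by norm_num) h11) (by ring) _ _
      (fib hp hN (ok_ne h) h.2 (by decide) hi x t s hs)
    rw [Finset.sum_map, (lam_Y hp hN h.2 hi p11 (by norm_num) q11 h11 (Ker.rt_symm hb) x t).1,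
      un11] at a1
    exact a1
  · intro n x h
    have a1 := (hT Pp a t0 hX.xi q hp h44 b r n (2 * n) hb hr (ok_ne h)
      (by simpa using n121 h (one_dvd 8)) rfl x).1 (Nat.two_dvd_ne_zero.2 (Nat.odd_iff.1 h.2))
      (res (2 * n) (Y hN n x 1)) (by
        rw [res_res (mul8 (by norm_num)) (dvd_mul_left n 2), (Y_spec hN h.2 x 1).1])
    simp only [P1 n _ _ h.2]
    exact a1
  · intro n x h
    have d : 2 * n ∣ 4 * n := Nat.mul_dvd_mul_right (by norm_num) n
    have a1 := (hT Pp a t0 hX.xi q hp h44 b r (2 * n) (4 * n) hb hr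
      (mul_ne (ok_ne h) (by norm_num)) (n121 h (by norm_num)) (by ring)
      (res (2 * n) (Y hN n x 1))).2 n rfl (res (4 * n) (Y hN n x 1))
      (res (4 * n) (Y hN n x (un 3))) (fun e => by
        rcases ((K n 4 x _ _ h.2 (by norm_num)).1 e).1 rfl with k | k
        · exact un3_ne k
        · exact un3_ne5 (by rwa [mul_one] at k))
      (res_res (mul8 (by norm_num)) d _) (by
        rw [res_res (mul8 (by norm_num)) d]
        exact (K n 2 x _ _ h.2 (by norm_num)).2 ⟨by simp, by simp⟩)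
    rw [res_res (mul8 (by norm_num)) (dvd_mul_left n 2), (Y_spec hN h.2 x 1).1] at a1
    simp only [P1 n _ _ h.2]
    exact a1
  · intro n x t h
    have d : 2 * n ∣ 4 * n := Nat.mul_dvd_mul_right (by norm_num) n
    have a1 := (hT Pp a t0 hX.xi q hp h44 b r (4 * n) (8 * n) hb hr
      (mul_ne (ok_ne h) (by norm_num)) (n121 h (by norm_num)) (by ring)
      (res (4 * n) (Y hN n x t))).2 (2 * n) (by ring) (res (8 * n) (Y hN n x t))
      (res (8 * n) (Y hN n x (un 5 * t))) (fun e => by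
        have k := ((K n 8 x _ _ h.2 (by norm_num)).1 e).2 rfl
        exact un5_ne (mul_eq_right.1 k))
      (by rw [res_self]) (by
        rw [res_self]
        exact ((K n 4 x t _ h.2 (by norm_num)).2 ⟨fun _ => Or.inr rfl, by simp⟩).symm)
    rw [res_res (mul8 (by norm_num)) d,
      (K n 2 x t 1 h.2 (by norm_num)).2 ⟨by simp, by simp⟩] at a1
    exact a1
  · intro n i x t y h hi h1 h2
    rw [Y_eq hN h.2 h1 h2]

end Pool.Agent.Lib.MP_d6ddbd_nt.KA
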