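import Pool.Agent.Lib.MP_d6ddbd_nt.KA.Stmt

/-!
Selmer classes: monotonicity and reciprocity (from the statement `LA1Stmt`).
-/

set_option autoImplicit false
set_option maxSynthPendingDepth 3

open NumberField
open Pool.Agent.Lib.MP_d6ddbd_nt.K11
open Pool.Agent.Lib.MP_d6ddbd_nt.KI (Pn)

namespace Pool.Agent.Lib.MP_d6ddbd_nt.KA.SubB

/-- Sets of primes of type one. -/
def B1 (c : ℤ) (B : Finset ℕ) : Prop :=
  ∀ p ∈ B, p.Prime ∧ p ≠ 2 ∧ p ≠ 11 ∧ ¬ (p : ℤ) ∣ c ∧ nr p = 1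

theorem B1.n2 {c : ℤ} {B : Finset ℕ} (h : B1 c B) : 2 ∉ B := fun e => (h 2 e).2.1 rfl

theorem B1.n11 {c : ℤ} {B : Finset ℕ} (h : B1 c B) : 11 ∉ B := fun e => (h 11 e).2.2.1 rfl

theorem B1.nd {c : ℤ} {B : Finset ℕ} (h : B1 c B) : ∀ p ∈ B, ¬ (p : ℤ) ∣ c :=
  fun p e => (h p e).2.2.2.1

theorem B1.mono {c : ℤ} {B B' : Finset ℕ} (h : B1 c B') (hs : B ⊆ B') : B1 c B :=
  fun p e => h p (hs e)

theorem b1_pn {q : ℕ} {c : ℤ} {n : Finset ℕ} (hn : Pn q c n) : B1 c n :=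
  fun p hp => ⟨(hn p hp).1, (hn p hp).2.1, (hn p hp).2.2.1, (hn p hp).2.2.2.2⟩

theorem q_not {q : ℕ} {c : ℤ} {n : Finset ℕ} (hn : Pn q c n) : q ∉ n :=
  fun h => (hn q h).2.2.2.1 rfl

theorem b1_ins {q : ℕ} {c : ℤ} {n : Finset ℕ} (hq : QD q c) (hn : Pn q c n) :
    B1 c (insert q n) := fun p hp => by
  have := hq.qf.big
  rcases Finset.mem_insert.1 hp with rfl | hp
  · exact ⟨hq.qf.pr, by omega, by omega, hq.nd, hq.ty⟩
  · exact b1_pn hn p hp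

theorem mem_bx {d : ℤ} {B : Finset ℕ} {p : ℕ} : p ∈ Bx d B ↔ (rx d ∧ p = 11) ∨ p ∈ B := by
  unfold Bx
  split_ifs with h <;> simp [h]

theorem bx_mono {d : ℤ} {B B' : Finset ℕ} (h : B ⊆ B') : Bx d B ⊆ Bx d B' := fun _ hp =>
  mem_bx.2 ((mem_bx.1 hp).imp_right fun e => h e)

theorem bx_erase {d : ℤ} {B : Finset ℕ} (h : 11 ∉ B) : (Bx d B).erase 11 = B := by
  ext p
  rw [Finset.mem_erase, mem_bx]
  constructor
  · rintro ⟨a, b | b⟩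
    · exact absurd b.2 a
    · exact b
  · exact fun a => ⟨fun e => h (e ▸ a), Or.inr a⟩

theorem bx_ins {d : ℤ} {B : Finset ℕ} {p : ℕ} (hp : p ∉ B) (h11 : p ≠ 11) :
    (Bx d (insert p B)).erase p = Bx d B := by
  ext l
  rw [Finset.mem_erase, mem_bx, mem_bx, Finset.mem_insert]
  constructor
  · rintro ⟨a, b | b | b⟩
    · exact Or.inl b
    · exact absurd b a
    · exact Or.inr b
  · rintro (a | a)
    · exact ⟨fun e => h11 (e ▸ a.2), Or.inl a⟩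
    · exact ⟨fun e => hp (e ▸ a), Or.inr (Or.inr a)⟩

theorem bs_bx {d c : ℤ} {B : Finset ℕ} (h : B1 c B) : Bs c (Bx d B) := fun p hp =>
  (mem_bx.1 hp).imp (fun e => e.2) (h p)

variable {L : Type} [Field L] [NumberField L] {θ : L} {d δ c : ℤ}

theorem wa_mono {B B' : Finset ℕ} {α : L} (h : Wa θ d c B α) (hB : B ⊆ B') : Wa θ d c B' α :=
  ⟨h.ne, h.sq, h.two, fun p h1 h2 h3 => h.ev p h1 h2 fun e => h3 (hB e)⟩

theorem sc_mono {B B' : Finset ℕ} {α : L} (h : Sc θ d c B α) (hB : B ⊆ B') : Sc θ d c B' α :=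
  ⟨wa_mono h.wa (bx_mono hB), h.bv, h.el⟩

/-- Reciprocity for two Selmer classes. -/
theorem recip (hL : LA1Stmt) (hθ : Cub θ) (ht : TD d δ c) {B : Finset ℕ} (hB : B1 c B) {α β : L}
    (ha : Sc θ d c B α) (hb : Sc θ d c B β) :
    ∑ p ∈ B, (sv p α * fv p β + fv p α * sv p β) = 0 := by
  have H := hL L θ hθ d δ c (Bx d B) ht (bs_bx hB)
  have r := (H.1 α β ha.wa hb.wa).2
  have e : a11 α * b11 θ β + b11 θ α * a11 β = 0 := by
    by_cases hr : rx d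
    · rw [ha.el hr, hb.el hr, mul_zero, zero_mul, add_zero]
    · have n : 11 ∉ Bx d B := fun h => (mem_bx.1 h).elim (fun x => hr x.1) hB.n11
      rw [(H.2 α ha.wa).2.2.2.2.1 n, (H.2 β hb.wa).2.2.2.2.1 n, mul_zero, zero_mul, add_zero]
  rwa [Finset.sum_eq_zero fun 𝔭 h => by rw [ha.bv 𝔭 h, hb.bv 𝔭 h, mul_zero, zero_mul, add_zero],
    e, bx_erase hB.n11, zero_add, add_zero] at r

theorem sv_zero (hL : LA1Stmt) (hθ : Cub θ) (ht : TD d δ c) {B : Finset ℕ} (hB : B1 c B) {α : L}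
    (ha : Sc θ d c B α) {p : ℕ} (hp : p.Prime) (h11 : p ≠ 11) (hc : ¬ (p : ℤ) ∣ c) (hn : p ∉ B) :
    sv p α = 0 :=
  ((hL L θ hθ d δ c (Bx d B) ht (bs_bx hB)).2 α ha.wa).2.2.2.2.2 p hp hc
    fun h => (mem_bx.1 h).elim (fun x => h11 x.2) hn

theorem sc_erase (hL : LA1Stmt) (hθ : Cub θ) (ht : TD d δ c) {B : Finset ℕ} {p : ℕ}
    (hB : B1 c (insert p B)) (hp : p ∉ B) {α : L} (ha : Sc θ d c (insert p B) α)
    (hs : sv p α = 0) : Sc θ d c B α := by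
  have h11 : p ≠ 11 := (hB p (Finset.mem_insert_self p B)).2.2.1
  have w := ((hL L θ hθ d δ c (Bx d (insert p B)) ht (bs_bx hB)).2 α ha.wa).2.2.1 p
    (mem_bx.2 (Or.inr (Finset.mem_insert_self p B))) h11 hs
  rw [bx_ins hp h11] at w
  exact ⟨w, ha.bv, ha.el⟩

end Pool.Agent.Lib.MP_d6ddbd_nt.KA.SubB
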