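import Pool.Agent.Lib.MP_d6ddbd_nt.KA.StX

/-!
The trace to level one of the parametrisation of `X₀(11)`.
-/

set_option autoImplicit false
set_option maxSynthPendingDepth 3

open UpperHalfPlane Filter Topology PowerSeries Pointwise
open scoped MatrixGroups ModularForm
open Pool.Agent.Lib.MP_9177b7_ag.CM Pool.Agent.Lib.MP_9177b7_ag.CM.Norm
open Pool.Agent.Lib.MP_d6ddbd_nt.X (fa qq_ne hq_congr hq_smul hq_sum hq_sub hq_unique hq_hol hq_bdd
  hq_tendsto hq_X)
open Pool.Agent.Lib.MP_d6ddbd_nt.K11 (Pt unif_thm)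
open Pool.Agent.Lib.MP_d6ddbd_nt.E11

noncomputable section

namespace Pool.Agent.Lib.MP_d6ddbd_nt.KA

namespace XEl

theorem phi_of {l : ℕ} (hl : l ≠ 0) {ι : Type} [Fintype ι] (j : ι → Option (Fin l)) (a : ℤ)
    (ha : ∀ τ, ∑ i, l / nc l (j i) ^ 2 * Hh (nz l τ (j i)) = a * Hh τ) (τ : ℍ) :
    ∑ i, phi (nz l τ (j i)) = a • phi τ := by
  obtain ⟨W, ω, h1, h2, h3⟩ := exists_int
  have h4 : Tendsto W atImInfty (𝓝 0) := h3 ▸ hq_tendsto one_pos h2
  obtain ⟨u, hu⟩ := unif unif_thm h1 h4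
  obtain ⟨c, hc⟩ := ((HD.sum Finset.univ fun i => h1.comp (hd_nz hl (j i))).add
    (h1.smul (-a))).const fun τ => by
      rw [neg_mul, mul_left_comm, ← ha, Finset.mul_sum, add_neg_eq_zero]
      exact Finset.sum_congr rfl fun i _ => by ring
  have h5 := (tendsto_finsetSum Finset.univ fun i _ =>
    hq_tendsto (pos_of hl) (hq_nz hl h2 (j i))).add (h4.const_mul (-(a : ℂ)))
  simp only [hc, coeff_zero_ns, h3, Finset.sum_const_zero, mul_zero, add_zero] at h5
  obtain rfl := tendsto_nhds_unique tendsto_const_nhds h5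
  simp only [hu]
  rw [← map_sum, ← map_zsmul, zsmul_eq_mul]
  congr 1
  linear_combination hc τ

/-- The points attached to the sublattices of index `11`. -/
def vz (z : ℍ) (i : Option (Fin 11)) : ℍ := i.elim (ww z) fun k => nz 11 z (some k)

/-- The scales attached to the sublattices of index `11`. -/
def vc (z : ℍ) (i : Option (Fin 11)) : ℂ := i.elim (11 * z) fun k => nc 11 (some k)

theorem vc_ne (z : ℍ) (i : Option (Fin 11)) : vc z i ≠ 0 := by
  rcases i with _ | i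
  · exact mul_ne_zero (by norm_num) z.ne_zero
  · exact nc_ne (l := 11) (by norm_num) (some i)

theorem pr_nb {c : ℂ} (hc : c ≠ 0) (z : ℍ) (i : Option (Fin 11)) :
    Pr (E11.NN 11 c z i) (c • sp z 1) (c * vc z i) (vz z i) := by
  rcases i with _ | i
  · have h := (pr_one z).ww.scale (d := c * 11) (mul_ne_zero hc (by norm_num))
    rw [sp_up, smul_smul, smul_smul, show c * 11 * (1 / 11) = c by ring,
      show c * 11 * (1 * (z : ℂ)) = c * (11 * z) by ring] at h
    simpa only [E11.NN, nc, nz, vc, vz, Option.elim, mul_one] using h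
  · refine ⟨mul_ne_zero hc (vc_ne z _), rfl, ?_⟩
    rw [mul_smul]
    congr 1
    refine Eq.trans ?_ (sp_some (l := 11) (by norm_num) i (1 / 11)).symm
    exact le_antisymm (Lat.sp_le (Lat.mem_sp.2 ⟨1, -11 * 0 - (i : ℕ), by push_cast; ring⟩)
      (Lat.mem_sp.2 ⟨0, 1, by push_cast; ring⟩))
      (Lat.sp_le (Lat.mem_sp.2 ⟨1, (i : ℕ), by push_cast; ring⟩)
        (Lat.mem_sp.2 ⟨0, 1, by push_cast; ring⟩))

/-- The trace of the newform to level one. -/
def Tr (z : ℍ) : ℂ := ∑ i, Hh (vz z i) / vc z i ^ 2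

theorem tr_smul (γ : SL(2, ℤ)) (z : ℍ) : Tr (γ • z) = fa γ z ^ 2 * Tr z := by
  have hl : Nat.Prime 11 := by norm_num
  have h0 : fa γ z ≠ 0 := Lat.denom_ne γ z
  have e0 : fa γ z • sp (γ • z : ℍ) 1 = (1 : ℂ) • sp z 1 := by rw [one_smul, ← Lat.sp_smul]
  have h' : Pr (sp z 1) (fa γ z • sp (γ • z : ℍ) (1 / 11)) (fa γ z) (γ • z) :=
    ⟨h0, by rw [e0, one_smul], rfl⟩
  choose e he using fun i => (nb_iff hl h').1 ((nb_iff hl (pr_one z)).2 ⟨i, rfl⟩)
  have hi : Function.Injective e := fun i j k => NN_inj hl one_ne_zero (by rw [he, he, k])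
  rw [Tr, Tr, ← Equiv.sum_comp (Equiv.ofBijective e (Finite.injective_iff_bijective.1 hi)),
    Finset.mul_sum]
  refine Finset.sum_congr rfl fun i _ => ?_
  have k := pr_nb h0 (γ • z) (e i)
  rw [← he i, e0] at k
  obtain ⟨δ, k1, k2, k3⟩ := (pr_nb one_ne_zero z i).eq k
  have := vc_ne z i
  have h1 : fa δ (vz z i) ≠ 0 := Lat.denom_ne _ _
  rw [Equiv.ofBijective_apply, k2, Hh_smul k1, show vc (γ • z) (e i) =
    vc z i * fa δ (vz z i) / fa γ z by rw [eq_div_iff h0]; linear_combination k3]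
  field_simp

theorem tr_eq (z : ℍ) : Tr z = 1 / 11 *
    (∑ k : Fin 11, (11 : ℕ) / nc 11 (some k) ^ 2 * Hh (nz 11 z (some k)) - Hh z) := by
  have := z.ne_zero
  rw [Tr, Fintype.sum_option, mul_sub, Finset.mul_sum, add_comm, sub_eq_add_neg]
  congr 1
  · refine Finset.sum_congr rfl fun k _ => ?_
    simp only [vz, vc, Option.elim]
    push_cast
    ring
  · simp only [vz, vc, Option.elim, Hh_ww]
    field_simp

theorem tr_zero (z : ℍ) : Tr z = 0 := by
  have h0 : (11 : ℕ) ≠ 0 := by norm_num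
  obtain ⟨φ, h3, -⟩ := ser_H
  have H := hq_congr (hq_smul (1 / 11) (hq_sub (hq_sum Finset.univ fun (k : Fin 11) _ =>
    hq_smul ((11 : ℕ) / nc 11 (some k) ^ 2) (hq_nz h0 h3 (some k))) (hq_lev h0 h3))) tr_eq
  have hs : ∀ g : SL(2, ℤ), Tr ∣[(2 : ℤ)] g = Tr := fun g => by
    funext τ
    have h1 : fa g τ ≠ 0 := Lat.denom_ne g τ
    rw [ModularForm.SL_slash_apply, tr_smul]
    have : denom g τ = fa g τ := by simp [denom, fa]
    rw [this, zpow_neg]
    field_simp
  let F : ModularForm 𝒮ℒ 2 :=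
    { toFun := Tr
      slash_action_eq' := by
        rintro _ ⟨γ, rfl⟩
        exact hs γ
      holo' := mdifferentiable_iff.2 (hq_hol (pos_of h0) H)
      bdd_at_cusps' := fun {c} hc => by
        rw [OnePoint.isBoundedAt_iff_forall_SL2Z hc]
        intro g _
        show IsBoundedAtImInfty (Tr ∣[(2 : ℤ)] g)
        rw [hs]
        exact hq_bdd (pos_of h0) H }
  exact congrFun (congrArg DFunLike.coe
    (rank_zero_iff_forall_zero.1 ModularForm.levelOne_weight_two_rank_zero F)) z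

theorem up11 (τ : ℍ) : ∑ k : Fin 11, phi (nz 11 τ (some k)) = phi τ := by
  rw [phi_of (l := 11) (by norm_num) some 1 (fun z => ?_) τ, one_zsmul]
  have := tr_zero z
  rw [tr_eq] at this
  push_cast at this ⊢
  linear_combination 11 * this

end XEl

theorem xel_thm : XElStmt := by
  refine ⟨t0, five, fun L₀ s hL hs => ?_⟩
  obtain ⟨z, c, hc, rfl⟩ := Lat.exists_tau L₀ hL
  rw [sum_nb (by norm_num) (⟨hc, rfl, rfl⟩ : Pr _ _ c z) hs (fun L' => Pp L' (c • sp z 1)),
    Finset.sum_congr rfl fun i _ => (XEl.pr_nb hc z i).pp, Fintype.sum_option]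
  simp only [XEl.vz, Option.elim]
  rw [XEl.up11, phi_ww, sub_add_cancel]

end Pool.Agent.Lib.MP_d6ddbd_nt.KA
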